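import Pool.Agent.KEM.Ent

/-!
# The algebras `A_P^{(k)}`
-/

set_option linter.unusedSectionVars false
set_option linter.style.haveILetI false

universe u

namespace Pool.Agent.KEM

open Pool.Agent.Helper29

namespace APk

/-! ### Values of multilinear polynomials -/

section basic

variable {F : Type u} [Field F]

lemma ev_mon (A : AssocAlg F) {Z : Type} (v : Z → A.carrier) (w : FreeMonoid Z) :
    ev A v (mon F w) = ((FreeMonoid.toList w).map fun z => inc A (v z)).prod := by
  rw [ev, mon, MonoidAlgebra.lift_single, one_smul, FreeMonoid.lift_apply]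

lemma prod_inc (A : AssocAlg F) {Z : Type} (v : Z → A.carrier) (l : List Z) (hl : l ≠ []) :
    (l.map fun z => inc A (v z)).prod = inc A (wval v l) := by
  induction l with
  | nil => exact absurd rfl hl
  | cons a l ih =>
    cases l with
    | nil => simp [wval]
    | cons b l =>
      rw [List.map_cons, List.prod_cons, ih (by simp), wval, inc, inc, inc, Unitization.inr_mul]

lemma ev_mlw (A : AssocAlg F) {Z : Type} (v : Z → A.carrier) {w : FreeMonoid Z} (hw : MLW w) :
    ev A v (mon F w) = inc A (wval v (FreeMonoid.toList w)) := by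
  rw [ev_mon, prod_inc A v _ hw.1]

end basic

section lin

variable {F L : Type u} [Field F] [Field L] [Algebra F L]
variable {B : AssocAlg F} [Module L B.carrier] [IsScalarTower F L B.carrier]
  [IsScalarTower L B.carrier B.carrier] [SMulCommClass L B.carrier B.carrier]

lemma smul_eq (r : F) (x : B.carrier) : r • x = algebraMap F L r • x :=
  (algebraMap_smul L r x).symm

lemma smul_comm' (r : F) (c : L) (x : B.carrier) : r • (c • x) = c • (r • x) := by
  rw [smul_eq (L := L), smul_eq (L := L), smul_smul, smul_smul, mul_comm]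

/-- left multiplication by an element of the unital hull -/
def Lm (s : U B) : B.carrier →ₗ[L] B.carrier where
  toFun x := s.fst • x + s.snd * x
  map_add' x y := by
    rw [smul_add, mul_add]
    abel
  map_smul' c x := by
    rw [RingHom.id_apply, smul_comm' (L := L), mul_smul_comm, smul_add]

/-- right multiplication by an element of the unital hull -/
def Rm (s : U B) : B.carrier →ₗ[L] B.carrier where
  toFun x := s.fst • x + x * s.snd
  map_add' x y := by
    rw [smul_add, add_mul]
    abel
  map_smul' c x := by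
    rw [RingHom.id_apply, smul_comm' (L := L), smul_mul_assoc, smul_add]

lemma mul_inc (s : U B) (x : B.carrier) : s * inc B x = inc B (Lm (L := L) s x) := by
  have h : s = Unitization.inl s.fst + Unitization.inr s.snd :=
    (Unitization.inl_fst_add_inr_snd_eq s).symm
  change _ = Unitization.inr (s.fst • x + s.snd * x)
  conv_lhs => rw [h]
  rw [add_mul, inc, Unitization.inl_mul_inr, ← Unitization.inr_mul, ← Unitization.inr_add]

lemma inc_mul (s : U B) (x : B.carrier) : inc B x * s = inc B (Rm (L := L) s x) := by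
  have h : s = Unitization.inl s.fst + Unitization.inr s.snd :=
    (Unitization.inl_fst_add_inr_snd_eq s).symm
  change _ = Unitization.inr (s.fst • x + x * s.snd)
  conv_lhs => rw [h]
  rw [mul_add, inc, Unitization.inr_mul_inl, ← Unitization.inr_mul, ← Unitization.inr_add]

open Classical in
/-- the value of a multilinear polynomial is linear in each variable -/
lemma exists_lin {Z : Type} {p : FA F Z} (hp : p ∈ ML F Z) (v : Z → B.carrier) (z0 : Z) :
    ∃ φ : B.carrier →ₗ[L] B.carrier, ∀ x, ev B (Function.update v z0 x) p = inc B (φ x) := by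
  induction hp using Submodule.span_induction with
  | mem p hp =>
    obtain ⟨w, hw, rfl⟩ := hp
    obtain ⟨l1, l2, hl⟩ := List.append_of_mem (hw.2.2 z0)
    have hnd := hw.2.1
    rw [hl, List.nodup_append] at hnd
    have h1 : z0 ∉ l1 := fun h => (hnd.2.2 z0 h z0 (by simp)) rfl
    have h2 : z0 ∉ l2 := (List.nodup_cons.mp hnd.2.1).1
    have key : ∀ (l : List Z), z0 ∉ l → ∀ x : B.carrier,
        (l.map fun z => inc B (Function.update v z0 x z)) = l.map fun z => inc B (v z) := by
      intro l hl x
      refine List.map_congr_left fun z hz => ?_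
      rw [Function.update_of_ne]
      rintro rfl
      exact hl hz
    refine ⟨(Rm (L := L) (l2.map fun z => inc B (v z)).prod).comp
      (Lm (L := L) (l1.map fun z => inc B (v z)).prod), fun x => ?_⟩
    rw [ev_mon, hl, List.map_append, List.map_cons, List.prod_append, List.prod_cons, key l1 h1,
      key l2 h2, Function.update_self, ← mul_assoc, mul_inc (L := L), inc_mul (L := L)]
    rfl
  | zero => exact ⟨0, fun x => by rw [map_zero]; rfl⟩
  | add p q _ _ hp hq =>
    obtain ⟨φ, hφ⟩ := hp
    obtain ⟨ψ, hψ⟩ := hq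
    refine ⟨φ + ψ, fun x => ?_⟩
    rw [map_add, hφ, hψ, inc, inc, inc, ← Unitization.inr_add]
    rfl
  | smul r p _ hp =>
    obtain ⟨φ, hφ⟩ := hp
    refine ⟨algebraMap F L r • φ, fun x => ?_⟩
    rw [map_smul, hφ, inc, inc, ← Unitization.inr_smul, smul_eq (L := L)]
    rfl

/-- a multilinear polynomial that vanishes on a spanning set is an identity -/
lemma sat_of_span {Z : Type} [Fintype Z] {p : FA F Z} (hp : p ∈ ML F Z) (G : Set B.carrier)
    (hG : Submodule.span L G = ⊤) (h : ∀ v : Z → B.carrier, (∀ z, v z ∈ G) → ev B v p = 0) :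
    Sat B p := by
  classical
  have key : ∀ s : Finset Z, ∀ v : Z → B.carrier, (∀ z, z ∉ s → v z ∈ G) → ev B v p = 0 := by
    intro s
    induction s using Finset.induction_on with
    | empty => exact fun v hv => h v fun z => hv z (Finset.notMem_empty z)
    | insert z0 s hz0 ih =>
      intro v hv
      obtain ⟨φ, hφ⟩ := exists_lin (L := L) hp v z0
      have h1 : ∀ x ∈ Submodule.span L G, φ x = 0 := by
        intro x hx
        induction hx using Submodule.span_induction with
        | mem x hx =>
          have h2 := ih (Function.update v z0 x) (by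
            intro z hz
            by_cases hzz : z = z0
            · rw [hzz, Function.update_self]
              exact hx
            · rw [Function.update_of_ne hzz]
              exact hv z (by simp [hzz, hz]))
          have h3 := (hφ x).symm.trans h2
          exact Unitization.inr_injective (R := F) (h3.trans (Unitization.inr_zero F).symm)
        | zero => exact map_zero φ
        | add x y _ _ hx hy => rw [map_add, hx, hy, add_zero]
        | smul c x _ hx => rw [map_smul, hx, smul_zero]
      have h4 := hφ (v z0)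
      rw [Function.update_eq_self, h1 (v z0) (by rw [hG]; trivial)] at h4
      exact h4.trans (Unitization.inr_zero F)
  exact fun v => key Finset.univ v fun z hz => absurd (Finset.mem_univ z) hz

end lin

/-! ### Toeplitz matrices -/

section toeplitz

variable {L A : Type u} [Field L] [NonUnitalRing A] [Module L A] (k : ℕ)

/-- the element `x τ ^ j` -/
def T (x : A) (j : ℕ) : Matrix (Fin (k + 1)) (Fin (k + 1)) A :=
  fun i i' => if (i' : ℕ) = i + j then x else 0

lemma T_mul (x y : A) (j j' : ℕ) : T k x j * T k y j' = T k (x * y) (j + j') := by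
  ext i i'
  rw [Matrix.mul_apply]
  by_cases h : (i' : ℕ) = i + (j + j')
  · have ht : (i : ℕ) + j < k + 1 := by
      have := i'.2
      omega
    rw [Finset.sum_eq_single (⟨i + j, ht⟩ : Fin (k + 1))]
    · rw [T, T, T, if_pos rfl, if_pos (by rw [h]; exact (add_assoc _ _ _).symm), if_pos h]
    · intro t _ ht'
      rw [T, if_neg, zero_mul]
      intro h'
      exact ht' (Fin.ext h')
    · intro h'
      exact absurd (Finset.mem_univ _) h'
  · rw [T, if_neg h]
    refine Finset.sum_eq_zero fun t _ => ?_
    rw [T, T]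
    by_cases h1 : (t : ℕ) = i + j
    · rw [if_neg (c := (i' : ℕ) = t + j'), mul_zero]
      intro h2
      apply h
      omega
    · rw [if_neg h1, zero_mul]

lemma T_zero (j : ℕ) : T k (0 : A) j = 0 := by
  ext i i'
  rw [T]
  simp

lemma T_big (x : A) {j : ℕ} (h : k < j) : T k x j = 0 := by
  ext i i'
  rw [T, if_neg]
  · rfl
  · have := i'.2
    omega

lemma T_add (x y : A) (j : ℕ) : T k (x + y) j = T k x j + T k y j := by
  ext i i'
  rw [Matrix.add_apply, T, T, T]
  split_ifs
  · rfl
  · rw [add_zero]

lemma T_smul (c : L) (x : A) (j : ℕ) : T k (c • x) j = c • T k x j := by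
  ext i i'
  rw [Matrix.smul_apply, T, T]
  split_ifs
  · rfl
  · rw [smul_zero]

lemma T_inj {x : A} {j : ℕ} (hj : j ≤ k) (h : T k x j = 0) : x = 0 := by
  have h1 := congrFun (congrFun h (0 : Fin (k + 1))) (⟨j, by omega⟩ : Fin (k + 1))
  rw [T, if_pos (by simp)] at h1
  exact h1

lemma T_00 (x : A) (j : ℕ) : T k x j 0 0 = if j = 0 then x else 0 := by
  rw [T]
  congr 1
  simp [eq_comm]

end toeplitz

section sub

variable {L A : Type u} [Field L] [NonUnitalRing A] [Module L A]
  [IsScalarTower L A A] [SMulCommClass L A A] (W : WMData L A) (P : Finset (Fin W.m)) (k : ℕ)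

/-- the generators -/
def G : Set (Matrix (Fin (k + 1)) (Fin (k + 1)) A) :=
  {M | ∃ (a : W.Ent) (j : ℕ), a.InP P ∧ ((a.isRad = false ∧ j = 0) ∨ (a.isRad = true ∧ 1 ≤ j)) ∧
    M = T k a.val j}

/-- the radical generators -/
def G1 : Set (Matrix (Fin (k + 1)) (Fin (k + 1)) A) :=
  {M | ∃ (a : W.Ent) (j : ℕ), a.InP P ∧ a.isRad = true ∧ 1 ≤ j ∧ j ≤ k ∧ M = T k a.val j}

/-- the span of the homogeneous elements with labels in `P` -/
def JP (b : Bool) : Submodule L A :=
  Submodule.span L {x | ∃ a : W.Ent, a.InP P ∧ a.isRad = b ∧ x = a.val}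

lemma G_mul {M N : Matrix (Fin (k + 1)) (Fin (k + 1)) A} (hM : M ∈ G W P k) (hN : N ∈ G W P k) :
    M * N ∈ Submodule.span L (G W P k) := by
  obtain ⟨a, j, ha, hj, rfl⟩ := hM
  obtain ⟨b, j', hb, hj', rfl⟩ := hN
  rw [T_mul]
  obtain ⟨h1, h2⟩ := ent_mul W a b
  by_cases hl : a.rl = b.ll
  · obtain ⟨w, hw, hwl, hwr, hwrad⟩ := h2 hl
    refine Submodule.subset_span ⟨w, j + j', ⟨?_, ?_⟩, ?_, by rw [hw]⟩
    · rw [hwl]
      exact ha.1
    · rw [hwr]
      exact hb.2
    · rw [hwrad]
      rcases hj with ⟨ha1, hj⟩ | ⟨ha1, hj⟩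
      · rcases hj' with ⟨hb1, hj'⟩ | ⟨hb1, hj'⟩
        · left
          rw [ha1, hb1]
          exact ⟨rfl, by omega⟩
        · right
          rw [ha1, hb1]
          exact ⟨rfl, by omega⟩
      · right
        rw [ha1]
        exact ⟨rfl, by omega⟩
  · rw [h1 hl, T_zero]
    exact zero_mem _

lemma span_mul {M N : Matrix (Fin (k + 1)) (Fin (k + 1)) A} (hM : M ∈ Submodule.span L (G W P k))
    (hN : N ∈ Submodule.span L (G W P k)) : M * N ∈ Submodule.span L (G W P k) := by
  induction hM using Submodule.span_induction with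
  | mem M hM =>
    induction hN using Submodule.span_induction with
    | mem N hN => exact G_mul W P k hM hN
    | zero => rw [mul_zero]; exact zero_mem _
    | add N N' _ _ h h' => rw [mul_add]; exact add_mem h h'
    | smul c N _ h => rw [Matrix.mul_smul]; exact Submodule.smul_mem _ _ h
  | zero => rw [zero_mul]; exact zero_mem _
  | add M M' _ _ h h' => rw [add_mul]; exact add_mem h h'
  | smul c M _ h => rw [Matrix.smul_mul]; exact Submodule.smul_mem _ _ h

/-- the algebra over `L` -/
def DL : NonUnitalSubalgebra L (Matrix (Fin (k + 1)) (Fin (k + 1)) A) where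
  carrier := Submodule.span L (G W P k)
  add_mem' := add_mem
  zero_mem' := zero_mem _
  mul_mem' := span_mul W P k
  smul_mem' := fun c _ h => Submodule.smul_mem _ c h

/-- the algebra over `L`, bundled -/
noncomputable def DAL : AssocAlg L where
  carrier := DL W P k
  smul_mul := fun c a b => Subtype.ext (Matrix.smul_mul c a.1 b.1)
  mul_smul := fun c a b => Subtype.ext (Matrix.mul_smul a.1 c b.1)

variable {W P k}

lemma entry_mem {M : Matrix (Fin (k + 1)) (Fin (k + 1)) A} (hM : M ∈ Submodule.span L (G W P k)) :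
    M 0 0 ∈ JP W P false := by
  induction hM using Submodule.span_induction with
  | mem M hM =>
    obtain ⟨a, j, ha, hj, rfl⟩ := hM
    rw [T_00]
    rcases hj with ⟨h1, h2⟩ | ⟨h1, h2⟩
    · rw [if_pos h2]
      exact Submodule.subset_span ⟨a, ha, h1, rfl⟩
    · rw [if_neg (by omega)]
      exact zero_mem _
  | zero => exact zero_mem _
  | add M M' _ _ h h' => exact add_mem h h'
  | smul c M _ h => exact Submodule.smul_mem _ c h

lemma entry_mul {M N : Matrix (Fin (k + 1)) (Fin (k + 1)) A} (hM : M ∈ Submodule.span L (G W P k))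
    (hN : N ∈ Submodule.span L (G W P k)) : (M * N) 0 0 = M 0 0 * N 0 0 := by
  induction hM using Submodule.span_induction with
  | mem M hM =>
    induction hN using Submodule.span_induction with
    | mem N hN =>
      obtain ⟨a, j, -, -, rfl⟩ := hM
      obtain ⟨b, j', -, -, rfl⟩ := hN
      rw [T_mul, T_00, T_00, T_00]
      by_cases h : j = 0
      · by_cases h' : j' = 0
        · rw [if_pos h, if_pos h', if_pos (by omega)]
        · rw [if_neg h', if_neg (by omega), mul_zero]
      · rw [if_neg h, if_neg (by omega), zero_mul]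
    | zero => rw [mul_zero]; exact (mul_zero _).symm
    | add N N' _ _ h h' => rw [mul_add, Matrix.add_apply, h, h', Matrix.add_apply, mul_add]
    | smul c N _ h =>
      rw [Matrix.mul_smul, Matrix.smul_apply, h, Matrix.smul_apply, mul_smul_comm]
  | zero => rw [zero_mul]; exact (zero_mul _).symm
  | add M M' _ _ h h' => rw [add_mul, Matrix.add_apply, h, h', Matrix.add_apply, add_mul]
  | smul c M _ h => rw [Matrix.smul_mul, Matrix.smul_apply, h, Matrix.smul_apply, smul_mul_assoc]

lemma split_mem {M : Matrix (Fin (k + 1)) (Fin (k + 1)) A} (hM : M ∈ Submodule.span L (G W P k)) :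
    ∃ x ∈ JP W P false, ∃ N ∈ Submodule.span L (G1 W P k), M = T k x 0 + N := by
  induction hM using Submodule.span_induction with
  | mem M hM =>
    obtain ⟨a, j, ha, hj, rfl⟩ := hM
    rcases hj with ⟨h1, h2⟩ | ⟨h1, h2⟩
    · exact ⟨a.val, Submodule.subset_span ⟨a, ha, h1, rfl⟩, 0, zero_mem _, by rw [h2, add_zero]⟩
    · refine ⟨0, zero_mem _, T k a.val j, ?_, by rw [T_zero, zero_add]⟩
      by_cases hk : j ≤ k
      · exact Submodule.subset_span ⟨a, j, ha, h1, h2, hk, rfl⟩
      · rw [T_big k _ (by omega)]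
        exact zero_mem _
  | zero => exact ⟨0, zero_mem _, 0, zero_mem _, by rw [T_zero, add_zero]⟩
  | add M M' _ _ h h' =>
    obtain ⟨x, hx, N, hN, rfl⟩ := h
    obtain ⟨x', hx', N', hN', rfl⟩ := h'
    exact ⟨x + x', add_mem hx hx', N + N', add_mem hN hN', by rw [T_add]; abel⟩
  | smul c M _ h =>
    obtain ⟨x, hx, N, hN, rfl⟩ := h
    exact ⟨c • x, Submodule.smul_mem _ c hx, c • N, Submodule.smul_mem _ c hN, by
      rw [T_smul, smul_add]⟩

lemma G1_entry {N : Matrix (Fin (k + 1)) (Fin (k + 1)) A}
    (hN : N ∈ Submodule.span L (G1 W P k)) : N 0 0 = 0 := by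
  induction hN using Submodule.span_induction with
  | mem N hN =>
    obtain ⟨a, j, -, -, h1, -, rfl⟩ := hN
    rw [T_00, if_neg (by omega)]
  | zero => rfl
  | add M M' _ _ h h' => rw [Matrix.add_apply, h, h', add_zero]
  | smul c M _ h => rw [Matrix.smul_apply, h, smul_zero]

lemma mem_G1 {M : Matrix (Fin (k + 1)) (Fin (k + 1)) A} (hM : M ∈ Submodule.span L (G W P k))
    (h : M 0 0 = 0) : M ∈ Submodule.span L (G1 W P k) := by
  obtain ⟨x, -, N, hN, rfl⟩ := split_mem hM
  rw [Matrix.add_apply, G1_entry hN, T_00, if_pos rfl, add_zero] at h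
  rw [h, T_zero, zero_add]
  exact hN

/-- powers of the radical -/
def V (L : Type u) {A : Type u} [Field L] [NonUnitalRing A] [Module L A] (k n : ℕ) :
    Submodule L (Matrix (Fin (k + 1)) (Fin (k + 1)) A) :=
  Submodule.span L {M | ∃ (y : A) (j : ℕ), n ≤ j ∧ M = T k y j}

lemma V_mul {n n' : ℕ} {M N : Matrix (Fin (k + 1)) (Fin (k + 1)) A} (hM : M ∈ V L k n)
    (hN : N ∈ V L k n') : M * N ∈ V L k (n + n') := by
  induction hM using Submodule.span_induction with
  | mem M hM =>
    induction hN using Submodule.span_induction with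
    | mem N hN =>
      obtain ⟨a, j, hj, rfl⟩ := hM
      obtain ⟨b, j', hj', rfl⟩ := hN
      rw [T_mul]
      exact Submodule.subset_span ⟨_, _, by omega, rfl⟩
    | zero => rw [mul_zero]; exact zero_mem _
    | add N N' _ _ h h' => rw [mul_add]; exact add_mem h h'
    | smul c N _ h => rw [Matrix.mul_smul]; exact Submodule.smul_mem _ _ h
  | zero => rw [zero_mul]; exact zero_mem _
  | add M M' _ _ h h' => rw [add_mul]; exact add_mem h h'
  | smul c M _ h => rw [Matrix.smul_mul]; exact Submodule.smul_mem _ _ h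

lemma V_eq_zero {n : ℕ} (hn : k < n) {M : Matrix (Fin (k + 1)) (Fin (k + 1)) A}
    (hM : M ∈ V L k n) : M = 0 := by
  induction hM using Submodule.span_induction with
  | mem M hM =>
    obtain ⟨y, j, hj, rfl⟩ := hM
    exact T_big k y (by omega)
  | zero => rfl
  | add M M' _ _ h h' => rw [h, h', add_zero]
  | smul c M _ h => rw [h, smul_zero]

lemma G1_le_V : Submodule.span L (G1 W P k) ≤ V L k 1 := by
  refine Submodule.span_le.mpr ?_
  rintro M ⟨a, j, -, -, h1, -, rfl⟩
  exact Submodule.subset_span ⟨_, _, h1, rfl⟩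

lemma nprod_mem_V {n : ℕ} (v : Fin (n + 1) → Matrix (Fin (k + 1)) (Fin (k + 1)) A)
    (h : ∀ i, v i ∈ V L k 1) : nprod v ∈ V L k (n + 1) := by
  induction n with
  | zero => exact h 0
  | succ n ih => exact V_mul (ih _ fun i => h _) (h _)

end sub

/-! ### The semisimple part -/

section semi

variable {L A : Type u} [Field L] [NonUnitalRing A] [Module L A]
  [IsScalarTower L A A] [SMulCommClass L A A] (W : WMData L A) (P : Finset (Fin W.m))

/-- the embedding of a matrix algebra -/
def mu (i : Fin W.m) : Matrix (Fin (W.n i)) (Fin (W.n i)) L →ₗ[L] A where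
  toFun M := ∑ p, ∑ q, M p q • W.e i p q
  map_add' M N := by
    simp only [Matrix.add_apply, add_smul, Finset.sum_add_distrib]
  map_smul' c M := by
    simp only [Matrix.smul_apply, smul_eq_mul, mul_smul, Finset.smul_sum, RingHom.id_apply]

lemma mu_apply (i : Fin W.m) (M : Matrix (Fin (W.n i)) (Fin (W.n i)) L) :
    mu W i M = ∑ p, ∑ q, M p q • W.e i p q := rfl

lemma mu_mul (i : Fin W.m) (M N : Matrix (Fin (W.n i)) (Fin (W.n i)) L) :
    mu W i M * mu W i N = mu W i (M * N) := by
  rw [mu_apply, mu_apply, mu_apply, Finset.sum_mul]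
  refine Finset.sum_congr rfl fun p _ => ?_
  have h : ∀ q, M p q • W.e i p q * ∑ r, ∑ t, N r t • W.e i r t =
      ∑ t, (M p q * N q t) • W.e i p t := by
    intro q
    rw [Finset.mul_sum, Finset.sum_eq_single q]
    · rw [Finset.mul_sum]
      refine Finset.sum_congr rfl fun t _ => ?_
      rw [smul_mul_smul_comm, W.e_mul]
    · intro r _ hr
      rw [Finset.mul_sum]
      refine Finset.sum_eq_zero fun t _ => ?_
      rw [smul_mul_smul_comm, W.e_mul_ne i p q r t (Ne.symm hr), smul_zero]
    · intro h
      exact absurd (Finset.mem_univ _) h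
  rw [Finset.sum_mul]
  simp only [h]
  rw [Finset.sum_comm]
  refine Finset.sum_congr rfl fun t _ => ?_
  rw [Matrix.mul_apply, Finset.sum_smul]

lemma mu_mul_ne {i j : Fin W.m} (hij : i ≠ j) (M : Matrix (Fin (W.n i)) (Fin (W.n i)) L)
    (N : Matrix (Fin (W.n j)) (Fin (W.n j)) L) : mu W i M * mu W j N = 0 := by
  rw [mu_apply, mu_apply, Finset.sum_mul]
  refine Finset.sum_eq_zero fun p _ => ?_
  rw [Finset.sum_mul]
  refine Finset.sum_eq_zero fun q _ => ?_
  rw [Finset.mul_sum]
  refine Finset.sum_eq_zero fun r _ => ?_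
  rw [Finset.mul_sum]
  refine Finset.sum_eq_zero fun t _ => ?_
  rw [smul_mul_smul_comm, W.e_mul_block i j p q r t hij, smul_zero]

/-- the semisimple part -/
abbrev SS : Type u := (i : {i // i ∈ P}) → Matrix (Fin (W.n i)) (Fin (W.n i)) L

/-- its embedding -/
def psi : SS W P →ₗ[L] A := ∑ i : {i // i ∈ P}, (mu W i).comp (LinearMap.proj i)

lemma psi_apply (s : SS W P) : psi W P s = ∑ i : {i // i ∈ P}, mu W i (s i) := by
  rw [psi, LinearMap.sum_apply]
  rfl

lemma psi_mul (s t : SS W P) : psi W P (s * t) = psi W P s * psi W P t := by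
  rw [psi_apply, psi_apply, psi_apply, Finset.sum_mul]
  refine Finset.sum_congr rfl fun i _ => ?_
  rw [Finset.mul_sum, Finset.sum_eq_single i]
  · rw [mu_mul]
    rfl
  · intro j _ hj
    exact mu_mul_ne W (fun h => hj (Subtype.ext h.symm)) _ _
  · intro h
    exact absurd (Finset.mem_univ _) h

lemma psi_inj : Function.Injective (psi W P) := by
  rw [injective_iff_map_eq_zero]
  intro s hs
  have hli := W.li.comp (fun x : (Σ i : {i // i ∈ P}, Fin (W.n i) × Fin (W.n i)) =>
    (⟨x.1.1, x.2⟩ : Σ i : Fin W.m, Fin (W.n i) × Fin (W.n i))) (by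
      rintro ⟨⟨i, hi⟩, x⟩ ⟨⟨j, hj⟩, y⟩ h
      simp only [Sigma.mk.injEq] at h
      obtain ⟨rfl, h2⟩ := h
      rw [eq_of_heq h2])
  rw [Fintype.linearIndependent_iff] at hli
  have h := hli (fun x => s x.1 x.2.1 x.2.2) (by
    rw [← hs, psi_apply, Fintype.sum_sigma]
    refine Finset.sum_congr rfl fun i _ => ?_
    rw [mu_apply, Fintype.sum_prod_type]
    rfl)
  funext i
  ext p q
  exact h ⟨i, (p, q)⟩

lemma mem_range_psi {x : A} (hx : x ∈ JP W P false) : ∃ s, psi W P s = x := by
  induction hx using Submodule.span_induction with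
  | mem x hx =>
    obtain ⟨a, ha, hr, rfl⟩ := hx
    cases a with
    | mu i p q =>
      have hi : i ∈ P := ha.1 i rfl
      refine ⟨Pi.single ⟨i, hi⟩ (Matrix.single p q 1), ?_⟩
      rw [psi_apply, Finset.sum_eq_single (⟨i, hi⟩ : {i // i ∈ P})]
      · rw [Pi.single_eq_same, mu_apply, Finset.sum_eq_single p, Finset.sum_eq_single q]
        · rw [Matrix.single_apply_same, one_smul]
          rfl
        · intro t _ ht
          rw [Matrix.single_apply_of_col_ne _ _ (Ne.symm ht), zero_smul]
        · intro h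
          exact absurd (Finset.mem_univ _) h
        · intro t _ ht
          refine Finset.sum_eq_zero fun t' _ => ?_
          rw [Matrix.single_apply_of_row_ne (Ne.symm ht), zero_smul]
        · intro h
          exact absurd (Finset.mem_univ _) h
      · intro j _ hj
        rw [Pi.single_eq_of_ne hj, map_zero]
      · intro h
        exact absurd (Finset.mem_univ _) h
    | rad l r x hx hl hr' => exact absurd hr (by simp [WMData.Ent.isRad])
  | zero => exact ⟨0, map_zero _⟩
  | add x y _ _ hx hy =>
    obtain ⟨s, rfl⟩ := hx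
    obtain ⟨t, rfl⟩ := hy
    exact ⟨s + t, map_add _ _ _⟩
  | smul c x _ hx =>
    obtain ⟨s, rfl⟩ := hx
    exact ⟨c • s, map_smul _ _ _⟩

lemma psi_mem (s : SS W P) : psi W P s ∈ JP W P false := by
  rw [psi_apply]
  refine Submodule.sum_mem _ fun i _ => ?_
  rw [mu_apply]
  refine Submodule.sum_mem _ fun p _ => Submodule.sum_mem _ fun q _ => ?_
  refine Submodule.smul_mem _ _ (Submodule.subset_span ⟨.mu i p q, ⟨?_, ?_⟩, rfl, rfl⟩)
  · intro j hj
    have : (some (i : Fin W.m)) = some j := hj
    rw [← Option.some_injective _ this]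
    exact i.2
  · intro j hj
    have : (some (i : Fin W.m)) = some j := hj
    rw [← Option.some_injective _ this]
    exact i.2

lemma finrank_SS : Module.finrank L (SS W P) = W.dP P := by
  rw [Module.finrank_pi_fintype, WMData.dP, ← Finset.sum_coe_sort P (fun i => W.n i ^ 2)]
  refine Finset.sum_congr rfl fun i _ => ?_
  rw [Module.finrank_matrix, Fintype.card_fin, Module.finrank_self]
  ring

lemma T_mem_of_JP {k : ℕ} {x : A} (hx : x ∈ JP W P false) :
    T k x 0 ∈ Submodule.span L (G W P k) := by
  induction hx using Submodule.span_induction with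
  | mem x hx =>
    obtain ⟨a, ha, hr, rfl⟩ := hx
    exact Submodule.subset_span ⟨a, 0, ha, Or.inl ⟨hr, rfl⟩, rfl⟩
  | zero => rw [T_zero]; exact zero_mem _
  | add x y _ _ hx hy => rw [T_add]; exact add_mem hx hy
  | smul c x _ hx => rw [T_smul]; exact Submodule.smul_mem _ _ hx

end semi

/-! ### The piece -/

section piece

variable {F L : Type u} [Field F] [Field L] [Algebra F L]
variable {A : Type u} [NonUnitalRing A] [Module L A] [Module.Finite L A]
  [IsScalarTower L A A] [SMulCommClass L A A] (W : WMData L A) (P : Finset (Fin W.m)) (k : ℕ)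

/-- the projection to the semisimple part -/
noncomputable def pr (x : DL W P k) : SS W P := (mem_range_psi W P (entry_mem x.2)).choose

lemma psi_pr (x : DL W P k) : psi W P (pr W P k x) = x.1 0 0 :=
  (mem_range_psi W P (entry_mem x.2)).choose_spec

lemma pr_add (x y : DL W P k) : pr W P k (x + y) = pr W P k x + pr W P k y := by
  apply psi_inj W P
  rw [map_add, psi_pr, psi_pr, psi_pr]
  rfl

lemma pr_smul (c : L) (x : DL W P k) : pr W P k (c • x) = c • pr W P k x := by
  apply psi_inj W P
  rw [map_smul, psi_pr, psi_pr]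
  rfl

lemma pr_mul (x y : DL W P k) : pr W P k (x * y) = pr W P k x * pr W P k y := by
  apply psi_inj W P
  rw [psi_mul, psi_pr, psi_pr, psi_pr]
  exact entry_mul x.2 y.2

lemma pr_surj : Function.Surjective (pr W P k) := by
  intro s
  refine ⟨(⟨T k (psi W P s) 0, T_mem_of_JP W P (psi_mem W P s)⟩ : DL W P k), ?_⟩
  apply psi_inj W P
  rw [psi_pr]
  change T k (psi W P s) 0 0 0 = _
  rw [T_00, if_pos rfl]

lemma pr_nil (v : Fin (k + 1) → DL W P k) (hv : ∀ i, pr W P k (v i) = 0) : nprod v = 0 := by
  have h1 : ∀ (n : ℕ) (w : Fin (n + 1) → DL W P k), (nprod w).1 = nprod fun i => (w i).1 := by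
    intro n
    induction n with
    | zero => exact fun w => rfl
    | succ n ih =>
      intro w
      change (nprod (fun i => w i.castSucc)).1 * (w (Fin.last _)).1 = _
      rw [ih]
      rfl
  have h2 : ∀ i, (v i).1 ∈ V L k 1 := by
    intro i
    refine G1_le_V (W := W) (P := P) (mem_G1 (v i).2 ?_)
    rw [← psi_pr, hv i, map_zero]
  have h3 := V_eq_zero (L := L) (Nat.lt_succ_self k) (nprod_mem_V (fun i => (v i).1) h2)
  apply Subtype.ext
  exact (h1 k v).trans h3

instance DL_finite : Module.Finite L (DL W P k) := by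
  show Module.Finite L (DL W P k).toSubmodule
  infer_instance

variable (F) in
/-- the algebra over `F` -/
noncomputable def DF : AssocAlg F := AssocAlg.restrict F (DAL W P k)

noncomputable instance DF_mod : Module L (DF F W P k).carrier := (DAL W P k).module

variable (F) in
lemma DF_fo : FinOver F L (DF F W P k) where
  tower := ⟨fun r c x => by
    show (r • c) • (x : DL W P k) = (algebraMap F L r) • (c • (x : DL W P k))
    rw [smul_smul, Algebra.smul_def]⟩
  smul_mul := ⟨fun c x y => (DAL W P k).smul_mul c x y⟩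
  comm := ⟨fun c x y => ((DAL W P k).mul_smul c x y).symm⟩
  fin := DL_finite W P k

variable (F) in
/-- the piece -/
noncomputable def Q : Piece F L where
  D := DF F W P k
  mod := DF_mod W P k
  fo := DF_fo F W P k
  S := SS W P
  ring := inferInstance
  alg := inferInstance
  finS := inferInstance
  π := pr W P k
  π_add := pr_add W P k
  π_smul := pr_smul W P k
  π_mul := pr_mul W P k
  surj := pr_surj W P k
  s := k
  nil := pr_nil W P k

lemma Q_dim : (Q F W P k).dim = W.dP P := finrank_SS W P

open Classical in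
variable (F) in
/-- the elements `a τ ^ j` -/
noncomputable def gv (a : W.Ent) (j : ℕ) : (Q F W P k).D.carrier :=
  if h : T k a.val j ∈ DL W P k then (⟨T k a.val j, h⟩ : DL W P k) else (0 : DL W P k)

/-- the underlying matrix -/
def val (x : (Q F W P k).D.carrier) : Matrix (Fin (k + 1)) (Fin (k + 1)) A :=
  (show DL W P k from x).1

variable {W P k}

lemma val_inj {x y : (Q F W P k).D.carrier} (h : val W P k x = val W P k y) : x = y :=
  Subtype.ext h

lemma val_gv {a : W.Ent} {j : ℕ} (ha : a.InP P)
    (hj : (a.isRad = false ∧ j = 0) ∨ (a.isRad = true ∧ 1 ≤ j)) :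
    val W P k (gv F W P k a j) = T k a.val j := by
  have h : T k a.val j ∈ DL W P k := Submodule.subset_span ⟨a, j, ha, hj, rfl⟩
  have h1 : gv F W P k a j = (⟨T k a.val j, h⟩ : DL W P k) := dif_pos h
  rw [h1]
  rfl

lemma val_mul (x y : (Q F W P k).D.carrier) : val W P k (x * y) = val W P k x * val W P k y := rfl

lemma val_add (x y : (Q F W P k).D.carrier) : val W P k (x + y) = val W P k x + val W P k y := rfl

lemma val_smulF (r : F) (x : (Q F W P k).D.carrier) :
    val W P k (r • x) = algebraMap F L r • val W P k x := rfl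

lemma val_smulL (r : L) (x : (Q F W P k).D.carrier) :
    val W P k (r • x) = r • val W P k x := rfl

lemma val_zero : val W P k (0 : (Q F W P k).D.carrier) = 0 := rfl

lemma val_wval {Z : Type} (a : Z → W.Ent) (j : Z → ℕ)
    (h : ∀ z, (a z).InP P ∧ (((a z).isRad = false ∧ j z = 0) ∨ ((a z).isRad = true ∧ 1 ≤ j z)))
    (l : List Z) (hl : l ≠ []) :
    val W P k (wval (fun z => gv F W P k (a z) (j z)) l) =
      T k (wval (fun z => (a z).val) l) (l.map j).sum := by
  induction l with
  | nil => exact absurd rfl hl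
  | cons b l ih =>
    cases l with
    | nil =>
      simp only [wval, List.map_cons, List.map_nil, List.sum_cons, List.sum_nil, add_zero]
      exact val_gv (h b).1 (h b).2
    | cons b' l =>
      rw [wval, wval, val_mul, ih (by simp), val_gv (h b).1 (h b).2, T_mul]
      simp only [List.map_cons, List.sum_cons]

/-- the mechanism: linear maps commute with the span -/
lemma span_val (s : Set (Q F W P k).D.carrier) (x : (Q F W P k).D.carrier)
    (h : val W P k x ∈ Submodule.span L ((fun y => val W P k y) '' s)) :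
    x ∈ Submodule.span L s := by
  have h1 : ∀ M ∈ Submodule.span L ((fun y => val W P k y) '' s),
      ∃ y ∈ Submodule.span L s, val W P k y = M := by
    intro M hM
    induction hM using Submodule.span_induction with
    | mem M hM =>
      obtain ⟨y, hy, rfl⟩ := hM
      exact ⟨y, Submodule.subset_span hy, rfl⟩
    | zero => exact ⟨0, zero_mem _, rfl⟩
    | add M M' _ _ h h' =>
      obtain ⟨y, hy, rfl⟩ := h
      obtain ⟨y', hy', rfl⟩ := h'
      exact ⟨y + y', add_mem hy hy', rfl⟩
    | smul c M _ h =>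
      obtain ⟨y, hy, rfl⟩ := h
      exact ⟨c • y, Submodule.smul_mem _ c hy, rfl⟩
  obtain ⟨y, hy, hyx⟩ := h1 _ h
  rwa [← val_inj hyx]

end piece

end APk

variable {F L : Type u} [Field F] [Field L] [Algebra F L]

open APk in
theorem apk [CharZero F] {A : AssocAlg F} [Module L A.carrier] (hA : FinOver F L A)
    (W : WMData L A.carrier) (P : Finset (Fin W.m)) (k : ℕ) :
    ∃ (Q : Piece F L) (gv : W.Ent → ℕ → Q.D.carrier), Q.dim = W.dP P ∧
      Submodule.span L {d | ∃ (a : W.Ent) (j : ℕ), a.InP P ∧
        ((a.isRad = false ∧ j = 0) ∨ (a.isRad = true ∧ 1 ≤ j ∧ j ≤ k)) ∧ d = gv a j} = ⊤ ∧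
      (∀ x, Q.π x = 0 → x ∈ Submodule.span L {d | ∃ (a : W.Ent) (j : ℕ), a.InP P ∧
        a.isRad = true ∧ 1 ≤ j ∧ j ≤ k ∧ d = gv a j}) ∧
      (∀ (Z : Type) [Fintype Z] (p : FA F Z), p ∈ ML F Z → ∀ (a : Z → W.Ent) (j : Z → ℕ),
        (∀ z, (a z).InP P ∧ (((a z).isRad = false ∧ j z = 0) ∨ ((a z).isRad = true ∧ 1 ≤ j z))) →
        (ev A (fun z => (a z).val) p = 0 ∨ k < ∑ z, j z) →
        ev Q.D (fun z => gv (a z) (j z)) p = 0) ∧
      ∀ (Z : Type) [Fintype Z] (p : FA F Z), p ∈ ML F Z →
        (Sat Q.D p ↔ ∀ a : Z → W.Ent, (∀ z, (a z).InP P) → WMData.radc a ≤ k →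
          ev A (fun z => (a z).val) p = 0) := by
  haveI := hA.tower
  haveI := hA.smul_mul
  haveI := hA.comm
  haveI := hA.fin
  haveI hf := (APk.Q F W P k).fo
  haveI := hf.tower
  haveI := hf.smul_mul
  haveI := hf.comm
  -- the comparison
  have key : ∀ (Z : Type) [Fintype Z] (p : FA F Z), p ∈ ML F Z → ∀ (a : Z → W.Ent) (j : Z → ℕ),
      (∀ z, (a z).InP P ∧ (((a z).isRad = false ∧ j z = 0) ∨ ((a z).isRad = true ∧ 1 ≤ j z))) →
      ∃ (y : A.carrier) (d : (APk.Q F W P k).D.carrier), ev A (fun z => (a z).val) p = inc A y ∧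
        ev (APk.Q F W P k).D (fun z => APk.gv F W P k (a z) (j z)) p = inc _ d ∧
        APk.val W P k d = T k y (∑ z, j z) := by
    intro Z _ p hp a j h
    induction hp using Submodule.span_induction with
    | mem p hp =>
      obtain ⟨w, hw, rfl⟩ := hp
      refine ⟨_, _, ev_mlw A _ hw, ev_mlw _ _ hw, ?_⟩
      rw [val_wval a j h _ hw.1]
      congr 1
      classical
      rw [← List.sum_toFinset j hw.2.1]
      refine Finset.sum_congr ?_ fun _ _ => rfl
      ext z
      simp [hw.2.2 z]
    | zero => exact ⟨0, 0, by rw [map_zero]; rfl, by rw [map_zero]; rfl, by rw [T_zero]; rfl⟩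
    | add p q _ _ hp hq =>
      obtain ⟨y, d, h1, h2, h3⟩ := hp
      obtain ⟨y', d', h1', h2', h3'⟩ := hq
      refine ⟨y + y', d + d', ?_, ?_, ?_⟩
      · rw [map_add, h1, h1', inc, inc, inc, Unitization.inr_add]
      · rw [map_add, h2, h2', inc, inc, inc, Unitization.inr_add]
      · rw [val_add, h3, h3', T_add]
    | smul r p _ hp =>
      obtain ⟨y, d, h1, h2, h3⟩ := hp
      refine ⟨r • y, r • d, ?_, ?_, ?_⟩
      · rw [map_smul, h1, inc, inc, Unitization.inr_smul]
      · rw [map_smul, h2, inc, inc, Unitization.inr_smul]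
      · rw [val_smulF, h3, smul_eq (L := L) r y, T_smul]
  have hspan : Submodule.span L {d | ∃ (a : W.Ent) (j : ℕ), a.InP P ∧
        ((a.isRad = false ∧ j = 0) ∨ (a.isRad = true ∧ 1 ≤ j ∧ j ≤ k)) ∧
          d = APk.gv F W P k a j} = ⊤ := by
    rw [eq_top_iff]
    intro x _
    apply span_val
    have hx : APk.val W P k x ∈ Submodule.span L (G W P k) := (show DL W P k from x).2
    refine Submodule.span_le.mpr ?_ hx
    rintro M ⟨a, j, ha, hj, rfl⟩
    rcases hj with ⟨h1, h2⟩ | ⟨h1, h2⟩
    · exact Submodule.subset_span ⟨_, ⟨a, j, ha, Or.inl ⟨h1, h2⟩, rfl⟩,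
        val_gv ha (Or.inl ⟨h1, h2⟩)⟩
    · by_cases hk : j ≤ k
      · exact Submodule.subset_span ⟨_, ⟨a, j, ha, Or.inr ⟨h1, h2, hk⟩, rfl⟩,
          val_gv ha (Or.inr ⟨h1, h2⟩)⟩
      · rw [T_big k _ (by omega)]
        exact zero_mem _
  have hzero : ∀ (Z : Type) [Fintype Z] (p : FA F Z), p ∈ ML F Z →
      ∀ (a : Z → W.Ent) (j : Z → ℕ),
      (∀ z, (a z).InP P ∧ (((a z).isRad = false ∧ j z = 0) ∨ ((a z).isRad = true ∧ 1 ≤ j z))) →
      (ev A (fun z => (a z).val) p = 0 ∨ k < ∑ z, j z) →
      ev (APk.Q F W P k).D (fun z => APk.gv F W P k (a z) (j z)) p = 0 := by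
    intro Z _ p hp a j h h0
    obtain ⟨y, d, h1, h2, h3⟩ := key Z p hp a j h
    have hd : d = 0 := by
      apply val_inj (F := F) (W := W) (P := P) (k := k)
      rw [h3, val_zero]
      rcases h0 with h0 | h0
      · have hy : y = 0 :=
          Unitization.inr_injective (R := F) ((h1.symm.trans h0).trans (Unitization.inr_zero F).symm)
        rw [hy, T_zero]
      · exact T_big k y h0
    rw [h2, hd]
    exact Unitization.inr_zero F
  refine ⟨APk.Q F W P k, APk.gv F W P k, Q_dim W P k, hspan, ?_, hzero, ?_⟩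
  · intro x hx
    apply span_val
    have h1 : APk.val W P k x ∈ Submodule.span L (G1 W P k) := by
      refine mem_G1 (show DL W P k from x).2 ?_
      have h2 : psi W P (pr W P k x) = APk.val W P k x 0 0 := psi_pr W P k x
      have h3 : pr W P k x = 0 := hx
      refine h2.symm.trans ?_
      rw [h3]
      exact map_zero _
    refine Submodule.span_le.mpr ?_ h1
    rintro M ⟨a, j, ha, hr, h1, h2, rfl⟩
    exact Submodule.subset_span ⟨_, ⟨a, j, ha, hr, h1, h2, rfl⟩, val_gv ha (Or.inr ⟨hr, h1⟩)⟩
  · intro Z _ p hp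
    constructor
    · intro hS a ha hr
      classical
      set j : Z → ℕ := fun z => if (a z).isRad = true then 1 else 0 with hj
      have hjj : ∀ z, (a z).InP P ∧
          (((a z).isRad = false ∧ j z = 0) ∨ ((a z).isRad = true ∧ 1 ≤ j z)) := by
        intro z
        refine ⟨ha z, ?_⟩
        rcases hb : (a z).isRad with _ | _
        · left
          exact ⟨rfl, by simp [hj, hb]⟩
        · right
          exact ⟨rfl, by simp [hj, hb]⟩
      obtain ⟨y, d, h1, h2, h3⟩ := key Z p hp a j hjj
      have hsum : ∑ z, j z = WMData.radc a := by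
        rw [WMData.radc, Finset.card_filter]
      have hd : d = 0 :=
        Unitization.inr_injective (R := F)
          ((h2.symm.trans (hS _)).trans (Unitization.inr_zero F).symm)
      rw [hd, val_zero, hsum] at h3
      have hy : y = 0 := T_inj k hr h3.symm
      rw [h1, hy]
      exact Unitization.inr_zero F
    · intro h
      refine sat_of_span (L := L) hp _ hspan fun v hv => ?_
      choose a j ha hj hv' using hv
      have hv2 : v = fun z => APk.gv F W P k (a z) (j z) := funext hv'
      rw [hv2]
      have hjj : ∀ z, (a z).InP P ∧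
          (((a z).isRad = false ∧ j z = 0) ∨ ((a z).isRad = true ∧ 1 ≤ j z)) := by
        intro z
        refine ⟨ha z, ?_⟩
        rcases hj z with h1 | h1
        · exact Or.inl h1
        · exact Or.inr ⟨h1.1, h1.2.1⟩
      refine hzero Z p hp a j hjj ?_
      by_cases hk : k < ∑ z, j z
      · exact Or.inr hk
      · left
        refine h a ha ?_
        refine le_trans ?_ (not_lt.mp hk)
        rw [WMData.radc, Finset.card_filter]
        refine Finset.sum_le_sum fun z _ => ?_
        split_ifs with hb
        · rcases (hjj z).2 with h1 | h1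
          · rw [h1.1] at hb
            exact absurd hb (by simp)
          · exact h1.2
        · exact Nat.zero_le _

end Pool.Agent.KEM
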