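import Pool.Agent.KEM.Phx

/-!
# Row Abar: replacing a finite-dimensional algebra by finitely many pieces
-/

universe u

namespace Pool.Agent.KEM

open Pool.Agent.Helper29

variable {F L : Type u} [Field F] [Field L] [Algebra F L]

namespace AbarH

theorem dep_aux [CharZero F] {A : AssocAlg F} [Module L A.carrier] (hA : FinOver F L A)
    (W : WMData L A.carrier) {b g s0 : ℕ} (P : Finset (Fin W.m)) (hP : W.dP P = b)
    (Q : Piece F L) (gv : W.Ent → ℕ → Q.D.carrier)
    (hspan : Submodule.span L {d | ∃ (a : W.Ent) (j : ℕ), a.InP P ∧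
        ((a.isRad = false ∧ j = 0) ∨ (a.isRad = true ∧ 1 ≤ j ∧ j ≤ g)) ∧ d = gv a j} = ⊤)
    (hker : ∀ x, Q.π x = 0 → x ∈ Submodule.span L {d | ∃ (a : W.Ent) (j : ℕ), a.InP P ∧
        a.isRad = true ∧ 1 ≤ j ∧ j ≤ g ∧ d = gv a j})
    (hev : ∀ (Z : Type) [Fintype Z] (p : FA F Z), p ∈ ML F Z → ∀ (a : Z → W.Ent) (j : Z → ℕ),
        (∀ z, (a z).InP P ∧ (((a z).isRad = false ∧ j z = 0) ∨ ((a z).isRad = true ∧ 1 ≤ j z))) →
        (ev A (fun z => (a z).val) p = 0 ∨ g < ∑ z, j z) →
        ev Q.D (fun z => gv (a z) (j z)) p = 0) : Q.Dep s0 b g := by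
  classical
  intro n Z _ _ p c hn hp ht v v' hvv
  have key : ∀ (w : Z → Q.D.carrier) (z : Z) (i : Fin n) (x : Q.D.carrier),
      c z = some (Sum.inl i) → Q.π x = 0 → evs Q.D (Function.update w z x) p = 0 := by
    intro w z i x hz hx
    refine evs_span Q.fo hp (fun z' => if z' = z then {d | ∃ (a : W.Ent) (j : ℕ), a.InP P ∧
        a.isRad = true ∧ 1 ≤ j ∧ j ≤ g ∧ d = gv a j} else {d | ∃ (a : W.Ent) (j : ℕ), a.InP P ∧
        ((a.isRad = false ∧ j = 0) ∨ (a.isRad = true ∧ 1 ≤ j ∧ j ≤ g)) ∧ d = gv a j}) ?_ _ ?_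
    · intro u hu
      have hex : ∀ z', ∃ (a : W.Ent) (j : ℕ), a.InP P ∧
          ((a.isRad = false ∧ j = 0) ∨ (a.isRad = true ∧ 1 ≤ j)) ∧ u z' = gv a j ∧
          (z' = z → a.isRad = true) := by
        intro z'
        have h := hu z'
        by_cases hzz : z' = z
        · rw [if_pos hzz] at h
          obtain ⟨a, j, h1, h2, h3, h4, h5⟩ := h
          exact ⟨a, j, h1, Or.inr ⟨h2, h3⟩, h5, fun _ => h2⟩
        · rw [if_neg hzz] at h
          obtain ⟨a, j, h1, h2, h3⟩ := h
          refine ⟨a, j, h1, ?_, h3, fun h => absurd h hzz⟩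
          rcases h2 with h2 | h2
          · exact Or.inl h2
          · exact Or.inr ⟨h2.1, h2.2.1⟩
      choose a j h1 h2 h3 h4 using hex
      have hu' : u = fun z' => gv (a z') (j z') := funext h3
      rw [hu', evs_eq_zero_iff _ _ hp]
      apply hev Z p hp a j (fun z' => ⟨h1 z', h2 z'⟩)
      by_contra hcon
      push Not at hcon
      obtain ⟨hne, hsum⟩ := hcon
      have hrad : WMData.radc a ≤ ∑ z', j z' := by
        unfold WMData.radc
        rw [Finset.card_eq_sum_ones, Finset.sum_filter]
        apply Finset.sum_le_sum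
        intro z' _
        by_cases hr : (a z').isRad = true
        · rw [if_pos hr]
          rcases h2 z' with h | h
          · rw [hr] at h; exact absurd h.1 (by simp)
          · exact h.2
        · rw [if_neg hr]; exact Nat.zero_le _
      obtain ⟨-, -, -, e4⟩ := entalt hA W ht a hne P h1
      obtain ⟨j', hj'⟩ := e4 hP.le (hrad.trans hsum) z (h4 z rfl)
      rw [hz] at hj'
      exact absurd hj' (by simp)
    · intro z'
      by_cases hzz : z' = z
      · subst hzz
        rw [if_pos rfl, Function.update_self]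
        exact hker x hx
      · rw [if_neg hzz, hspan]
        trivial
  -- change the entries one by one
  have step : ∀ s : Finset Z, evs Q.D (fun z => if z ∈ s then v' z else v z) p = evs Q.D v p := by
    intro s
    induction s using Finset.induction_on with
    | empty => simp
    | insert z s hz ih =>
      rw [← ih]
      set w : Z → Q.D.carrier := fun z => if z ∈ s then v' z else v z with hw
      have h1 : (fun y => if y ∈ insert z s then v' y else v y) = Function.update w z (v' z) := by
        funext y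
        by_cases hy : y = z
        · subst hy; simp
        · rw [Function.update_of_ne hy, hw]; simp [hy]
      have h2 : w = Function.update w z (v z) := by
        funext y
        by_cases hy : y = z
        · subst hy; simp [hw, hz]
        · rw [Function.update_of_ne hy]
      rw [h1]
      conv_rhs => rw [h2]
      rcases hvv z with h | ⟨⟨i, hi⟩, hπ⟩
      · rw [h]
      · have h3 : v' z = v z + (v' z - v z) := by abel
        have h4 := Q.π_add (v' z - v z) (v z)
        rw [sub_add_cancel, ← hπ] at h4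
        have h5 := key w z i (v' z - v z) hi (add_eq_right.1 h4.symm)
        rw [h3, evs_update_add hp, h5, add_zero]
  have h1 := step Finset.univ
  simp only [Finset.mem_univ, if_true] at h1
  rw [← inc_evs _ _ hp, ← inc_evs _ _ hp, h1]

end AbarH

theorem abar [CharZero F] [IsAlgClosed L] {A : AssocAlg F} [Module L A.carrier]
    (hA : FinOver F L A) {b g : ℕ} (hi : HasIndex A b g) :
    ∃ (s0 : ℕ) (ι : Type) (_ : Fintype ι) (Q : ι → Piece F L),
      (∀ (Z : Type) [Fintype Z] (p : FA F Z), p ∈ ML F Z → (Sat A p ↔ ∀ i, Sat (Q i).D p)) ∧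
      ∀ i, (Q i).dim ≤ b ∧ ((Q i).dim < b → Van (Q i).D s0 b g) ∧
        ((Q i).dim = b → (Q i).Dep s0 b g) := by
  classical
  have := hA.tower
  have := hA.smul_mul
  have := hA.comm
  have := hA.fin
  obtain ⟨W⟩ := wm L A.carrier
  let k : {P : Finset (Fin W.m) // W.dP P ≤ b} → ℕ := fun P => if W.dP P.1 < b then W.s else g
  choose Q gv hdim hspan hker hev hsat using fun P : {P : Finset (Fin W.m) // W.dP P ≤ b} =>
    apk hA W P.1 (k P)
  refine ⟨W.s + 1, {P : Finset (Fin W.m) // W.dP P ≤ b}, inferInstance, Q, ?_, ?_⟩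
  · intro Z _ p hp
    constructor
    · intro h P
      rw [hsat P Z p hp]
      intro a _ _
      exact h _
    · intro h
      by_contra hns
      obtain ⟨a, ha, hmin⟩ := exists_min_eval hA W hp hns
      obtain ⟨hb1, hb2⟩ := min_eval_bound hA W hi hp a ha hmin
      have h1 := h ⟨WMData.blocks a, hb1⟩
      rw [hsat _ Z p hp] at h1
      refine ha (h1 a (inP_blocks a) ?_)
      by_cases hlt : W.dP (WMData.blocks a) < b
      · simp only [k, if_pos hlt]
        exact ent_nil hA W hp a ha
      · simp only [k, if_neg hlt]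
        exact hb2 (le_antisymm hb1 (not_lt.1 hlt))
  · intro P
    refine ⟨by rw [hdim]; exact P.2, fun hlt => ?_, fun heq => ?_⟩
    · rw [hdim] at hlt
      intro Z _ _ p c hp ht
      rw [hsat P Z p hp]
      intro a ha hr
      by_contra hne
      obtain ⟨-, e2, -, -⟩ := entalt hA W ht a hne P.1 ha
      have hk : k P = W.s := by simp only [k, if_pos hlt]
      rw [hk] at hr
      exact absurd (e2 (by omega)) (not_le.2 hlt)
    · rw [hdim] at heq
      have hk : k P = g := by simp only [k, heq, lt_irrefl, if_false]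
      have h1 := hspan P
      have h2 := hker P
      have h3 := hev P
      rw [hk] at h1 h2 h3
      exact AbarH.dep_aux hA W P.1 heq (Q P) (gv P) h1 h2 h3

end Pool.Agent.KEM
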