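import Pool.Agent.KEM.Defs

/-!
# Basic facts on polynomials, values and renaming of variables
-/

universe u

namespace Pool.Agent.KEM

open Pool.Agent.Helper29

variable {F : Type u} [Field F]

section inc

variable (A : AssocAlg F)

theorem inc_zero : inc A 0 = 0 := Unitization.inr_zero F

theorem inc_add (a b : A.carrier) : inc A (a + b) = inc A a + inc A b := Unitization.inr_add F a b

theorem inc_sub (a b : A.carrier) : inc A (a - b) = inc A a - inc A b := Unitization.inr_sub F a b

theorem inc_neg (a : A.carrier) : inc A (-a) = -inc A a := Unitization.inr_neg F a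

theorem inc_smul (c : F) (a : A.carrier) : inc A (c • a) = c • inc A a :=
  Unitization.inr_smul F c a

theorem inc_mul (a b : A.carrier) : inc A (a * b) = inc A a * inc A b := Unitization.inr_mul F a b

theorem inc_sum {ι : Type*} (s : Finset ι) (f : ι → A.carrier) :
    inc A (∑ i ∈ s, f i) = ∑ i ∈ s, inc A (f i) := by
  classical
  induction s using Finset.induction_on with
  | empty => rw [Finset.sum_empty, Finset.sum_empty, inc_zero]
  | insert i s hi ih => rw [Finset.sum_insert hi, Finset.sum_insert hi, inc_add, ih]

theorem inc_injective : Function.Injective (inc A) := Unitization.inr_injective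

variable {A}

theorem inc_inj {a b : A.carrier} : inc A a = inc A b ↔ a = b := (inc_injective A).eq_iff

theorem inc_eq_zero {a : A.carrier} : inc A a = 0 ↔ a = 0 := by
  rw [← inc_zero, inc_inj]

/-- The product of a nonempty list of elements of `A`, in the unital hull, is in `A`. -/
theorem exists_inc_list_prod {Z : Type*} (v : Z → A.carrier) (l : List Z) (hl : l ≠ []) :
    ∃ a, (l.map fun z => inc A (v z)).prod = inc A a := by
  induction l with
  | nil => exact absurd rfl hl
  | cons z l ih =>
    by_cases h : l = []
    · subst h; exact ⟨v z, by simp⟩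
    · obtain ⟨a, ha⟩ := ih h
      exact ⟨v z * a, by rw [List.map_cons, List.prod_cons, ha, inc_mul]⟩

end inc

section ev

variable (A : AssocAlg F) {Z Z' : Type}

theorem ev_mon (v : Z → A.carrier) (w : FreeMonoid Z) :
    ev A v (mon F w) = ((FreeMonoid.toList w).map fun z => inc A (v z)).prod := by
  rw [ev, mon, MonoidAlgebra.lift_single, one_smul, FreeMonoid.lift_apply]

theorem ev_mon_ofList (v : Z → A.carrier) (l : List Z) :
    ev A v (mon F (FreeMonoid.ofList l)) = (l.map fun z => inc A (v z)).prod := by
  rw [ev_mon, FreeMonoid.toList_ofList]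

theorem ren_mon (f : Z → Z') (w : FreeMonoid Z) :
    ren (F := F) f (mon F w) = mon F (FreeMonoid.map f w) := by
  unfold ren mon
  rw [MonoidAlgebra.mapDomainAlgHom_apply, MonoidAlgebra.mapDomain_single]

theorem sbst_mon (s : Z → FA F Z') (w : FreeMonoid Z) :
    sbst s (mon F w) = ((FreeMonoid.toList w).map s).prod := by
  rw [sbst, mon, MonoidAlgebra.lift_single, one_smul, FreeMonoid.lift_apply]

theorem mon_mul (w w' : FreeMonoid Z) : mon F (w * w') = mon F w * mon F w' := by
  unfold mon
  rw [MonoidAlgebra.single_mul_single, mul_one]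

theorem mon_one : mon F (1 : FreeMonoid Z) = 1 := rfl

/-- Two linear maps that agree on monomials are equal. -/
theorem FA_lin_ext {M : Type*} [AddCommMonoid M] [Module F M] {f g : FA F Z →ₗ[F] M}
    (h : ∀ w, f (mon F w) = g (mon F w)) : f = g := by
  refine LinearMap.ext fun p => ?_
  induction p using MonoidAlgebra.induction_linear with
  | zero => rw [map_zero, map_zero]
  | add p q hp hq => rw [map_add, map_add, hp, hq]
  | single w c =>
    have h1 : (MonoidAlgebra.single w c : FA F Z) = c • mon F w := by
      unfold mon; rw [MonoidAlgebra.smul_single, smul_eq_mul, mul_one]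
    rw [h1, map_smul, map_smul, h]

theorem FA_induction {P : FA F Z → Prop} (h0 : P 0) (ha : ∀ p q, P p → P q → P (p + q))
    (hs : ∀ (c : F) w, P (c • mon F w)) (p : FA F Z) : P p := by
  induction p using MonoidAlgebra.induction_linear with
  | zero => exact h0
  | add p q hp hq => exact ha p q hp hq
  | single w c =>
    have h1 : (MonoidAlgebra.single w c : FA F Z) = c • mon F w := by
      unfold mon; rw [MonoidAlgebra.smul_single, smul_eq_mul, mul_one]
    rw [h1]; exact hs c w

theorem ev_ren (f : Z → Z') (v : Z' → A.carrier) (p : FA F Z) :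
    ev A v (ren f p) = ev A (fun z => v (f z)) p := by
  have h : (ev A v).toLinearMap ∘ₗ (ren f).toLinearMap = (ev A fun z => v (f z)).toLinearMap := by
    refine FA_lin_ext fun w => ?_
    show ev A v (ren f (mon F w)) = ev A (fun z => v (f z)) (mon F w)
    rw [ren_mon, ev_mon, ev_mon, FreeMonoid.toList_map, List.map_map]
    rfl
  exact LinearMap.congr_fun h p

theorem ren_ren {Z'' : Type} (f : Z → Z') (g : Z' → Z'') (p : FA F Z) :
    ren g (ren f p) = ren (fun z => g (f z)) p := by
  have h : (ren g).toLinearMap ∘ₗ (ren f).toLinearMap =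
      (ren (F := F) fun z => g (f z)).toLinearMap := by
    refine FA_lin_ext fun w => ?_
    show ren g (ren f (mon F w)) = ren (fun z => g (f z)) (mon F w)
    rw [ren_mon, ren_mon, ren_mon]
    congr 1
    exact FreeMonoid.toList.injective (by
      rw [FreeMonoid.toList_map, FreeMonoid.toList_map, FreeMonoid.toList_map, List.map_map]; rfl)
  exact LinearMap.congr_fun h p

theorem ren_id (p : FA F Z) : ren (fun z => z) p = p := by
  have h : (ren (F := F) fun z : Z => z).toLinearMap = LinearMap.id := by
    refine FA_lin_ext fun w => ?_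
    show ren (fun z => z) (mon F w) = mon F w
    rw [ren_mon]
    congr 1
    exact FreeMonoid.toList.injective (by rw [FreeMonoid.toList_map, List.map_id'])
  exact LinearMap.congr_fun h p

theorem ren_equiv_symm (e : Z ≃ Z') (p : FA F Z) : ren e.symm (ren e p) = p := by
  rw [ren_ren]
  have : (fun z => e.symm (e z)) = fun z => z := funext fun z => e.symm_apply_apply z
  rw [this, ren_id]

variable {A}

theorem Sat.ren {p : FA F Z} (h : Sat A p) (f : Z → Z') : Sat A (ren f p) := by
  intro v
  rw [ev_ren]
  exact h _

theorem sat_ren_equiv (e : Z ≃ Z') {p : FA F Z} : Sat A (KEM.ren e p) ↔ Sat A p := by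
  constructor
  · intro h
    have := h.ren e.symm
    rwa [ren_equiv_symm] at this
  · intro h; exact h.ren e

theorem Sat.zero : Sat A (0 : FA F Z) := fun _ => map_zero _

theorem Sat.add {p q : FA F Z} (hp : Sat A p) (hq : Sat A q) : Sat A (p + q) := fun v => by
  rw [map_add, hp v, hq v, add_zero]

theorem Sat.smul {p : FA F Z} (c : F) (hp : Sat A p) : Sat A (c • p) := fun v => by
  rw [map_smul, hp v, smul_zero]

theorem Sat.neg {p : FA F Z} (hp : Sat A p) : Sat A (-p) := fun v => by
  rw [map_neg, hp v, neg_zero]

theorem Sat.sub {p q : FA F Z} (hp : Sat A p) (hq : Sat A q) : Sat A (p - q) := fun v => by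
  rw [map_sub, hp v, hq v, sub_zero]

theorem Sat.mul_left {p : FA F Z} (q : FA F Z) (hp : Sat A p) : Sat A (q * p) := fun v => by
  rw [map_mul, hp v, mul_zero]

theorem Sat.mul_right {p : FA F Z} (q : FA F Z) (hp : Sat A p) : Sat A (p * q) := fun v => by
  rw [map_mul, hp v, zero_mul]

theorem Sat.sum {ι : Type*} {s : Finset ι} {p : ι → FA F Z} (h : ∀ i ∈ s, Sat A (p i)) :
    Sat A (∑ i ∈ s, p i) := fun v => by
  rw [map_sum]
  exact Finset.sum_eq_zero fun i hi => h i hi v

theorem Sat.of_smul {p : FA F Z} {c : F} (hc : c ≠ 0) (hp : Sat A (c • p)) : Sat A p := by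
  have := hp.smul c⁻¹
  rwa [smul_smul, inv_mul_cancel₀ hc, one_smul] at this

end ev

end Pool.Agent.KEM
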