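import Pool.Agent.KEM.Zub2

/-!
# Newton's identities for the operators `δ_k(a)`
-/

universe u

namespace Pool.Agent.KEM

open Pool.Agent.Helper29

variable {F : Type u} [Field F]

namespace Nwt

variable {A : AssocAlg F} {n b g : ℕ}

/-- The tuple with the variables in `T` multiplied by `a` and the variable `t` by `a ^ j`. -/
def tup (i : Fin n) (a : A.carrier) (j : ℕ) (T : Finset (Fin b)) (t : Fin b)
    (v : YT n b g → A.carrier) : YT n b g → A.carrier :=
  Function.update (hit i a T v) (Sum.inl (i, t)) ((fun s => a * s)^[j] (v (Sum.inl (i, t))))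

/-- The sum over the pairs `T`, `t ∉ T`. -/
def AA (i : Fin n) (a : A.carrier) (m : (YT n b g → A.carrier) → U A) (k j : ℕ)
    (v : YT n b g → A.carrier) : U A :=
  ∑ T ∈ Finset.powersetCard k (Finset.univ : Finset (Fin b)), ∑ t ∈ Tᶜ, m (tup i a j T t v)

theorem sum_pairs {M : Type*} [AddCommMonoid M] (k : ℕ) (φ : Finset (Fin b) → Fin b → M) :
    ∑ T ∈ Finset.powersetCard (k + 1) (Finset.univ : Finset (Fin b)), ∑ t ∈ T, φ (T.erase t) t =
      ∑ T ∈ Finset.powersetCard k (Finset.univ : Finset (Fin b)), ∑ t ∈ Tᶜ, φ T t := by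
  rw [Finset.sum_sigma', Finset.sum_sigma']
  refine Finset.sum_bij' (fun q _ => ⟨q.1.erase q.2, q.2⟩) (fun q _ => ⟨insert q.2 q.1, q.2⟩)
    ?_ ?_ ?_ ?_ ?_
  · rintro ⟨T, t⟩ h
    rw [Finset.mem_sigma, Finset.mem_powersetCard] at h ⊢
    obtain ⟨⟨_, h1⟩, h2⟩ := h
    refine ⟨⟨Finset.subset_univ _, ?_⟩, by simp⟩
    simp only at h2 h1 ⊢
    rw [Finset.card_erase_of_mem h2, h1]
    rfl
  · rintro ⟨T, t⟩ h
    rw [Finset.mem_sigma, Finset.mem_powersetCard] at h ⊢
    obtain ⟨⟨_, h1⟩, h2⟩ := h
    refine ⟨⟨Finset.subset_univ _, ?_⟩, by simp⟩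
    simp only [Finset.mem_compl] at h2 h1 ⊢
    rw [Finset.card_insert_of_notMem h2, h1]
  · rintro ⟨T, t⟩ h
    rw [Finset.mem_sigma] at h
    simp only at h ⊢
    rw [Finset.insert_erase h.2]
  · rintro ⟨T, t⟩ h
    rw [Finset.mem_sigma, Finset.mem_compl] at h
    simp only at h ⊢
    rw [Finset.erase_insert h.2]
  · rintro ⟨T, t⟩ _
    rfl

theorem apow_mul (a s : A.carrier) (j : ℕ) : apow a j * s = (fun s => a * s)^[j + 1] s := by
  induction j with
  | zero => rfl
  | succ j ih =>
    have : apow a (j + 1) = a * apow a j := by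
      simp only [apow, Function.iterate_succ_apply']
    rw [this, mul_assoc, ih, Function.iterate_succ_apply' _ (j + 1)]

theorem hit_erase {i : Fin n} {a : A.carrier} {T : Finset (Fin b)} {t : Fin b}
    (v : YT n b g → A.carrier) {y : YT n b g} (hy : y ≠ Sum.inl (i, t)) :
    hit i a (T.erase t) v y = hit i a T v y := by
  rcases y with ⟨i', t'⟩ | q
  · by_cases hi : i' = i
    · subst hi
      have ht : t' ≠ t := by
        rintro rfl
        exact hy rfl
      simp [hit, ht]
    · simp [hit, hi]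
  · rfl

theorem tup_mem {i : Fin n} {a : A.carrier} (j : ℕ) {T : Finset (Fin b)} {t : Fin b} (ht : t ∈ T)
    (v : YT n b g → A.carrier) :
    Function.update (hit i a T v) (Sum.inl (i, t)) (apow a j * hit i a T v (Sum.inl (i, t))) =
      tup i a (j + 2) (T.erase t) t v := by
  funext y
  by_cases hy : y = Sum.inl (i, t)
  · subst hy
    rw [tup, Function.update_self, Function.update_self, apow_mul]
    have : hit i a T v (Sum.inl (i, t)) = a * v (Sum.inl (i, t)) := by simp [hit, ht]
    rw [this]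
    rfl
  · rw [tup, Function.update_of_ne hy, Function.update_of_ne hy, hit_erase v hy]

theorem tup_notMem {i : Fin n} {a : A.carrier} (j : ℕ) {T : Finset (Fin b)} {t : Fin b}
    (ht : t ∉ T) (v : YT n b g → A.carrier) :
    Function.update (hit i a T v) (Sum.inl (i, t)) (apow a j * hit i a T v (Sum.inl (i, t))) =
      tup i a (j + 1) T t v := by
  have : hit i a T v (Sum.inl (i, t)) = v (Sum.inl (i, t)) := by simp [hit, ht]
  rw [this, apow_mul]
  rfl

theorem tup_one {i : Fin n} {a : A.carrier} {T : Finset (Fin b)} {t : Fin b} (ht : t ∈ T)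
    (v : YT n b g → A.carrier) : tup i a 1 (T.erase t) t v = hit i a T v := by
  funext y
  by_cases hy : y = Sum.inl (i, t)
  · subst hy
    rw [tup, Function.update_self]
    simp [hit, ht]
  · rw [tup, Function.update_of_ne hy, hit_erase v hy]

theorem one_hit (i : Fin n) (a : A.carrier) (m : (YT n b g → A.carrier) → U A) (j : ℕ)
    (T : Finset (Fin b)) (v : YT n b g → A.carrier) :
    delta i 1 (apow a j) m (hit i a T v) = ∑ t ∈ T, m (tup i a (j + 2) (T.erase t) t v) +
      ∑ t ∈ Tᶜ, m (tup i a (j + 1) T t v) := by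
  rw [Zub.delta_one, ← Finset.sum_add_sum_compl T]
  congr 1
  · exact Finset.sum_congr rfl fun t ht => by rw [tup_mem j ht]
  · exact Finset.sum_congr rfl fun t ht => by rw [tup_notMem j (Finset.mem_compl.1 ht)]

theorem DD_zero (i : Fin n) (a : A.carrier) (m : (YT n b g → A.carrier) → U A) (j : ℕ)
    (v : YT n b g → A.carrier) :
    delta i 0 a (delta i 1 (apow a j) m) v = AA i a m 0 (j + 1) v := by
  rw [delta, AA]
  refine Finset.sum_congr rfl fun T hT => ?_
  have : T = ∅ := by simpa using hT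
  subst this
  rw [one_hit]
  simp

theorem DD_succ (i : Fin n) (a : A.carrier) (m : (YT n b g → A.carrier) → U A) (k j : ℕ)
    (v : YT n b g → A.carrier) :
    delta i (k + 1) a (delta i 1 (apow a j) m) v = AA i a m (k + 1) (j + 1) v +
      AA i a m k (j + 2) v := by
  rw [delta]
  simp only [one_hit, Finset.sum_add_distrib]
  rw [add_comm, AA, AA]
  congr 1
  exact sum_pairs k fun T t => m (tup i a (j + 2) T t v)

theorem AA_one (i : Fin n) (a : A.carrier) (m : (YT n b g → A.carrier) → U A) (k : ℕ)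
    (v : YT n b g → A.carrier) : AA i a m k 1 v = ((k : F) + 1) • delta i (k + 1) a m v := by
  rw [AA, ← sum_pairs k fun T t => m (tup i a 1 T t v), delta, Finset.smul_sum]
  refine Finset.sum_congr rfl fun T hT => ?_
  rw [Finset.mem_powersetCard] at hT
  rw [Finset.sum_congr rfl fun t ht => by rw [tup_one ht v], Finset.sum_const, hT.2]
  rw [← Nat.cast_smul_eq_nsmul F]
  push_cast
  rfl

end Nwt

open Nwt

/-- Newton's identities. -/
theorem newton {A : AssocAlg F} {n b g : ℕ} (i : Fin n) (k : ℕ) (a : A.carrier)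
    (m : (YT n b g → A.carrier) → U A) :
    ((k : F) + 1) • delta i (k + 1) a m =
      ∑ j ∈ Finset.range (k + 1), (-1 : F) ^ j • delta i (k - j) a (delta i 1 (apow a j) m) := by
  funext v
  rw [Pi.smul_apply, Finset.sum_apply]
  simp only [Pi.smul_apply]
  let c : ℕ → U A := fun j => if j ≤ k then (-1 : F) ^ j • AA i a m (k - j) (j + 1) v else 0
  have hc : ∀ j ∈ Finset.range (k + 1),
      (-1 : F) ^ j • delta i (k - j) a (delta i 1 (apow a j) m) v = c j - c (j + 1) := by
    intro j hj
    have hjk : j ≤ k := by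
      have := Finset.mem_range.1 hj
      omega
    rcases eq_or_lt_of_le hjk with rfl | hlt
    · have h1 : c (j + 1) = 0 := if_neg (by omega)
      have h2 : c j = (-1 : F) ^ j • AA i a m (j - j) (j + 1) v := if_pos le_rfl
      rw [h1, h2, Nat.sub_self, DD_zero, sub_zero]
    · have h1 : c (j + 1) = (-1 : F) ^ (j + 1) • AA i a m (k - (j + 1)) (j + 1 + 1) v :=
        if_pos (by omega)
      have h2 : c j = (-1 : F) ^ j • AA i a m (k - j) (j + 1) v := if_pos hjk
      obtain ⟨l, hl⟩ : ∃ l, k - j = l + 1 := ⟨k - j - 1, by omega⟩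
      have hl' : k - (j + 1) = l := by omega
      rw [h1, h2, hl, hl', DD_succ, smul_add, pow_succ, mul_neg_one, neg_smul, sub_neg_eq_add]
  rw [Finset.sum_congr rfl hc, Finset.sum_range_sub']
  have h0 : c 0 = AA i a m k 1 v := by
    have : c 0 = (-1 : F) ^ 0 • AA i a m (k - 0) (0 + 1) v := if_pos (Nat.zero_le k)
    rw [this, pow_zero, one_smul, Nat.sub_zero]
  have h1 : c (k + 1) = 0 := if_neg (by omega)
  rw [h0, h1, sub_zero, AA_one (F := F)]

end Pool.Agent.KEM
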