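import Pool.Agent.KEM.BDefs
import Pool.Agent.KEM.Newton

/-!
# Row BAct: the action of the coefficient ring on the alternating functions
-/

universe u

namespace Pool.Agent.KEM

open Pool.Agent.Helper29

variable {F : Type u} [Field F]

namespace BActH

open scoped IsMulCommutative in
/-- A commuting family of operators gives an action of the polynomial ring. -/
theorem exists_action {I : Type*} {M : Type*} [AddCommGroup M] [Module F M]
    (D : I → Module.End F M) (h : ∀ i j, D i * D j = D j * D i) :
    ∃ φ : MvPolynomial I F →ₐ[F] Module.End F M, ∀ i, φ (MvPolynomial.X i) = D i := by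
  have hcomm : ∀ a ∈ Set.range D, ∀ b ∈ Set.range D, a * b = b * a := by
    rintro _ ⟨i, rfl⟩ _ ⟨j, rfl⟩
    exact h i j
  have := Algebra.isMulCommutative_adjoin F hcomm
  let ψ : MvPolynomial I F →ₐ[F] Algebra.adjoin F (Set.range D) :=
    MvPolynomial.aeval (fun i =>
      (⟨D i, Algebra.subset_adjoin ⟨i, rfl⟩⟩ : Algebra.adjoin F (Set.range D)))
  refine ⟨(Algebra.adjoin F (Set.range D)).val.comp ψ, fun i => ?_⟩
  rw [AlgHom.comp_apply, MvPolynomial.aeval_X]
  rfl

variable {A : AssocAlg F} {X : Type} {x : X → A.carrier} {n b g : ℕ}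

theorem delta_add (i : Fin n) (k : ℕ) (a : A.carrier) (m m' : (YT n b g → A.carrier) → U A) :
    delta i k a (m + m') = delta i k a m + delta i k a m' := by
  funext v
  simp only [delta, Pi.add_apply, Finset.sum_add_distrib]

theorem delta_smul (i : Fin n) (k : ℕ) (a : A.carrier) (c : F)
    (m : (YT n b g → A.carrier) → U A) :
    delta i k a (c • m) = c • delta i k a m := by
  funext v
  simp only [delta, Pi.smul_apply, Finset.smul_sum]

theorem delta_zero (i : Fin n) (a : A.carrier) (m : (YT n b g → A.carrier) → U A) :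
    delta i 0 a m = m := by
  funext v
  rw [delta, Finset.powersetCard_zero, Finset.sum_singleton]
  congr 1
  funext y
  cases y with
  | inl q => simp [hit]
  | inr q => rfl

end BActH

open BActH

theorem bact [CharZero F] {A : AssocAlg F} {X : Type} (x : X → A.carrier) (hx : Gen A x)
    {n b g n1 : ℕ} (hv : Van A n1 b (g + 1)) (hn : n1 + 2 ≤ n) (l : ℕ) :
    Nonempty (BAct A x n b g l) := by
  let i0 : Fin n := ⟨0, by omega⟩
  let i1 : Fin n := ⟨1, by omega⟩
  have h01 : i0 ≠ i1 := by
    intro h
    have := congrArg Fin.val h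
    simp [i0, i1] at this
  let D : BI X b l → Module.End F (MM A x n b g) := fun q =>
    { toFun := fun m => ⟨delta i0 1 (apow (wval x q.1.1) q.2) m,
        delta_mem x hx i0 1 _ _ m.2⟩
      map_add' := fun m m' => Subtype.ext (delta_add i0 1 _ m.1 m'.1)
      map_smul' := fun c m => Subtype.ext (delta_smul i0 1 _ c m.1) }
  have hD : ∀ (q : BI X b l) (i : Fin n) (m : MM A x n b g),
      ((D q m : MM A x n b g) : (YT n b g → A.carrier) → U A) =
        delta i 1 (apow (wval x q.1.1) q.2) (m : (YT n b g → A.carrier) → U A) := by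
    intro q i m
    exact zub2 x hx hv hn m.1 m.2 i0 i _
  have hcomm : ∀ q q', D q * D q' = D q' * D q := by
    intro q q'
    apply LinearMap.ext
    intro m
    apply Subtype.ext
    rw [Module.End.mul_apply, Module.End.mul_apply, hD q i0, hD q' i1 m, hD q' i1, hD q i0 m]
    exact delta_comm i0 i1 h01 1 1 _ _ m.1
  obtain ⟨φ, hφ⟩ := exists_action D hcomm
  exact ⟨⟨φ, fun q i m => by rw [hφ, hD q i]⟩⟩

variable {A : AssocAlg F} {X : Type} {x : X → A.carrier} {n b g l : ℕ}

theorem bnewt [CharZero F] (α : BAct A x n b g l) (w : List X) (hw : w ≠ [])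
    (hl : w.length ≤ l) (i : Fin n) :
    ∃ N : ℕ → BC F X b l, N 0 = 1 ∧ ∀ k ≤ b, ∀ m : MM A x n b g,
      ((α.φ (N k) m : MM A x n b g) : (YT n b g → A.carrier) → U A) =
        delta i k (wval x w) (m : (YT n b g → A.carrier) → U A) := by
  have key : ∀ k, ∃ c : BC F X b l, (k = 0 → c = 1) ∧ (k ≤ b → ∀ m : MM A x n b g,
      ((α.φ c m : MM A x n b g) : (YT n b g → A.carrier) → U A) =
        delta i k (wval x w) (m : (YT n b g → A.carrier) → U A)) := by
    intro k
    induction k using Nat.strong_induction_on with
    | _ k ih =>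
      cases k with
      | zero =>
        refine ⟨1, fun _ => rfl, fun _ m => ?_⟩
        rw [map_one, Module.End.one_apply, delta_zero]
      | succ k =>
        by_cases hk : k + 1 ≤ b
        · have ih' : ∀ j : ℕ, ∃ c : BC F X b l, j ≤ k → ∀ m : MM A x n b g,
              ((α.φ c m : MM A x n b g) : (YT n b g → A.carrier) → U A) =
                delta i (k - j) (wval x w) (m : (YT n b g → A.carrier) → U A) := by
            intro j
            obtain ⟨c, _, hc⟩ := ih (k - j) (by omega)
            exact ⟨c, fun _ => hc (by omega)⟩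
          choose N hN using ih'
          refine ⟨MvPolynomial.C ((k : F) + 1)⁻¹ * ∑ j : Fin (k + 1),
            MvPolynomial.C ((-1 : F) ^ (j : ℕ)) * (N j *
              MvPolynomial.X (⟨⟨w, hw, hl⟩, ⟨j, by omega⟩⟩ : BI X b l)), fun h => by omega,
              fun _ m => ?_⟩
          have hk0 : ((k : F) + 1) ≠ 0 := by exact_mod_cast Nat.succ_ne_zero k
          have hC : ∀ (c : F) (p : BC F X b l), MvPolynomial.C c * p = c • p := fun c p => by
            rw [MvPolynomial.smul_eq_C_mul]
          rw [hC, map_smul, LinearMap.smul_apply, Submodule.coe_smul]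
          have h1 := newton (A := A) (b := b) (g := g) i k (wval x w) m.1
          rw [(eq_inv_smul_iff₀ hk0).2 h1]
          congr 1
          rw [map_sum, LinearMap.sum_apply, AddSubmonoidClass.coe_finsetSum, Finset.sum_range]
          refine Finset.sum_congr rfl fun j _ => ?_
          rw [hC, map_smul, LinearMap.smul_apply, Submodule.coe_smul, map_mul,
            Module.End.mul_apply, hN j (by omega), α.hφ _ i]
        · exact ⟨0, fun h => by omega, fun h => absurd h hk⟩
  choose N hN1 hN2 using key
  exact ⟨N, hN1 0 rfl, fun k hk => hN2 k hk⟩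

end Pool.Agent.KEM
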