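import Pool.Agent.KEM.BDefs
import Pool.Agent.KEM.Api

/-!
# Alternation of functions over the colour classes; words with a hole
-/

universe u

namespace Pool.Agent.KEM.BAlt

open Pool.Agent.Helper29

variable {F : Type u} [Field F] {A : AssocAlg F}

section alt

open Classical in
/-- The alternation of a function over the colour classes of an arbitrary colouring. -/
noncomputable def AltC {Y K : Type} [Fintype Y] [DecidableEq Y] (c : Y → Option K)
    (m : (Y → A.carrier) → U A) : (Y → A.carrier) → U A :=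
  fun v => ∑ π ∈ Finset.univ.filter (fun π : Equiv.Perm Y => π ∈ colG c),
    (Equiv.Perm.sign π : ℤ) • m (fun y => v (π y))

theorem AltC_yc {n b g : ℕ} (m : (YT n b g → A.carrier) → U A) : AltC yc m = AltY m := rfl

/-- The alternation is alternating. -/
theorem AltC_altF {Y K : Type} [Fintype Y] [DecidableEq Y] (c : Y → Option K)
    (m : (Y → A.carrier) → U A) : AltF c (AltC c m) := by
  classical
  intro ρ hρ v
  unfold AltC
  rw [Finset.smul_sum]
  refine Finset.sum_bij' (fun π _ => ρ * π) (fun π _ => ρ⁻¹ * π) ?_ ?_ ?_ ?_ ?_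
  · intro π hπ
    rw [Finset.mem_filter] at hπ ⊢
    exact ⟨Finset.mem_univ _, (colG c).mul_mem hρ hπ.2⟩
  · intro π hπ
    rw [Finset.mem_filter] at hπ ⊢
    exact ⟨Finset.mem_univ _, (colG c).mul_mem ((colG c).inv_mem hρ) hπ.2⟩
  · intro π _
    exact inv_mul_cancel_left ρ π
  · intro π _
    exact mul_inv_cancel_left ρ π
  · intro π _
    rw [smul_smul, Equiv.Perm.sign_mul, Units.val_mul, ← mul_assoc, Int.units_coe_mul_self, one_mul]
    rfl

/-- `GM` is closed under permutations of the variables. -/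
theorem GM_perm {X Y : Type} (x : X → A.carrier) (π : Equiv.Perm Y)
    {m : (Y → A.carrier) → U A} (hm : m ∈ GM A x Y) :
    (fun v : Y → A.carrier => m (fun y => v (π y))) ∈ GM A x Y := by
  let f : ((Y → A.carrier) → U A) →ₗ[F] ((Y → A.carrier) → U A) :=
    { toFun := fun m v => m (fun y => v (π y))
      map_add' := fun _ _ => rfl
      map_smul' := fun _ _ => rfl }
  have h1 : GM A x Y ≤ (GM A x Y).comap f := by
    unfold GM
    rw [Submodule.span_le]
    rintro m ⟨w, hw, rfl⟩
    refine Submodule.subset_span ⟨FreeMonoid.map (Sum.map id π) w, ⟨?_, ?_⟩, ?_⟩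
    · intro y
      rw [FreeMonoid.toList_map, List.mem_map]
      exact ⟨Sum.inr (π⁻¹ y), hw.1 _, by simp⟩
    · rw [FreeMonoid.toList_map, List.filterMap_map]
      have h2 : ((FreeMonoid.toList w).filterMap
          ((fun s : X ⊕ Y => Sum.elim (fun _ => none) some s) ∘ Sum.map id π)) =
          ((FreeMonoid.toList w).filterMap
            (fun s : X ⊕ Y => Sum.elim (fun _ => none) some s)).map π := by
        rw [List.map_filterMap]
        congr 1
        funext s
        rcases s with s | s <;> rfl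
      rw [h2]
      exact hw.2.map π.injective
    · funext v
      show mf A x w (fun y => v (π y)) = mf A x (FreeMonoid.map (Sum.map id π) w) v
      unfold mf
      rw [← ren_mon, ev_ren]
      congr 2
      funext s
      rcases s with s | s <;> rfl
  exact h1 hm

theorem AltC_mem_GM {X Y K : Type} [Fintype Y] [DecidableEq Y] (c : Y → Option K)
    (x : X → A.carrier) {m : (Y → A.carrier) → U A} (hm : m ∈ GM A x Y) :
    AltC c m ∈ GM A x Y := by
  classical
  have h1 : AltC c m = ∑ π ∈ Finset.univ.filter (fun π : Equiv.Perm Y => π ∈ colG c),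
      (Equiv.Perm.sign π : ℤ) • (fun v : Y → A.carrier => m (fun y => v (π y))) := by
    funext v
    rw [Finset.sum_apply]
    rfl
  rw [h1]
  refine Submodule.sum_mem _ fun π _ => ?_
  rw [← Int.cast_smul_eq_zsmul F]
  exact Submodule.smul_mem _ _ (GM_perm x π hm)

theorem mf_mem_GM {X Y : Type} (x : X → A.carrier) {w : FreeMonoid (X ⊕ Y)} (hw : Yml w) :
    mf A x w ∈ GM A x Y := Submodule.subset_span ⟨w, hw, rfl⟩

/-- Row `alty_mem`. -/
theorem alty_mem {X : Type} (x : X → A.carrier) {n b g : ℕ}
    {w : FreeMonoid (X ⊕ YT n b g)} (hw : Yml w) : AltY (mf A x w) ∈ MM A x n b g := by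
  rw [← AltC_yc]
  exact ⟨AltC_mem_GM _ x (mf_mem_GM x hw), AltC_altF _ _⟩

end alt

section hole

variable {X : Type} {n b g : ℕ}

/-- The list of the alternating variables of a word. -/
def yl {X Y : Type} (w : FreeMonoid (X ⊕ Y)) : List Y :=
  (FreeMonoid.toList w).filterMap (fun s => Sum.elim (fun _ => none) some s)

theorem mem_yl {X Y : Type} {w : FreeMonoid (X ⊕ Y)} {y : Y} :
    y ∈ yl w ↔ Sum.inr y ∈ FreeMonoid.toList w := by
  unfold yl
  rw [List.mem_filterMap]
  constructor
  · rintro ⟨s, hs, h⟩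
    rcases s with s | s
    · exact absurd h (by simp)
    · rw [Sum.elim_inr, Option.some_inj] at h
      rw [← h]; exact hs
  · intro h
    exact ⟨_, h, rfl⟩

theorem yml_iff {X Y : Type} {w : FreeMonoid (X ⊕ Y)} :
    Yml w ↔ (∀ y, y ∈ yl w) ∧ (yl w).Nodup := by
  unfold Yml
  constructor
  · rintro ⟨h, h'⟩
    exact ⟨fun y => mem_yl.2 (h y), h'⟩
  · rintro ⟨h, h'⟩
    exact ⟨fun y => mem_yl.1 (h y), h'⟩

theorem yl_mul {X Y : Type} (w w' : FreeMonoid (X ⊕ Y)) : yl (w * w') = yl w ++ yl w' := by
  unfold yl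
  rw [FreeMonoid.toList_mul, List.filterMap_append]

theorem yl_inl {X Y : Type} (w : List X) :
    yl (FreeMonoid.ofList (w.map Sum.inl) : FreeMonoid (X ⊕ Y)) = [] := by
  unfold yl
  rw [FreeMonoid.toList_ofList, List.filterMap_eq_nil_iff]
  intro s hs
  rw [List.mem_map] at hs
  obtain ⟨a, _, rfl⟩ := hs
  rfl

/-- The word with a hole. -/
def hw {X Y : Type} (w w' : FreeMonoid (X ⊕ Y)) : FreeMonoid (X ⊕ Option Y) :=
  FreeMonoid.map (Sum.map id some) w * FreeMonoid.of (Sum.inr none) *
    FreeMonoid.map (Sum.map id some) w'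

theorem yl_map_some {X Y : Type} (w : FreeMonoid (X ⊕ Y)) :
    yl (FreeMonoid.map (Sum.map id some) w : FreeMonoid (X ⊕ Option Y)) = (yl w).map some := by
  unfold yl
  rw [FreeMonoid.toList_map, List.filterMap_map, List.map_filterMap]
  congr 1
  funext s
  rcases s with s | s <;> rfl

theorem yl_hw {X Y : Type} (w w' : FreeMonoid (X ⊕ Y)) :
    yl (hw w w') = (yl w).map some ++ none :: (yl w').map some := by
  unfold hw
  rw [yl_mul, yl_mul, yl_map_some, yl_map_some, List.append_assoc]
  rfl

theorem yml_hw {X Y : Type} {w w' : FreeMonoid (X ⊕ Y)} (h : Yml (w * w')) : Yml (hw w w') := by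
  rw [yml_iff, yl_mul] at h
  rw [yml_iff, yl_hw]
  obtain ⟨h1, h2⟩ := h
  refine ⟨fun y => ?_, ?_⟩
  · rcases y with _ | y
    · simp
    · have := h1 y
      rw [List.mem_append] at this ⊢
      rcases this with h | h
      · left; exact List.mem_map.2 ⟨y, h, rfl⟩
      · right; exact List.mem_cons_of_mem _ (List.mem_map.2 ⟨y, h, rfl⟩)
  · rw [List.nodup_middle, List.nodup_cons, ← List.map_append]
    refine ⟨?_, h2.map (Option.some_injective _)⟩
    intro h
    rw [List.mem_map] at h
    obtain ⟨a, _, ha⟩ := h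
    exact absurd ha (by simp)

/-- The colouring of the variables with a hole. -/
abbrev yco {n b g : ℕ} : Option (YT n b g) → Option (Fin n ⊕ Fin g) := fun o => o.bind yc

/-- The alternation of a word with a hole. -/
noncomputable def hfun (x : X → A.carrier) (w w' : FreeMonoid (X ⊕ YT n b g)) :
    (Option (YT n b g) → A.carrier) → U A :=
  AltC yco (mf A x (hw w w'))

theorem hfun_mem {x : X → A.carrier} {w w' : FreeMonoid (X ⊕ YT n b g)} (h : Yml (w * w')) :
    hfun x w w' ∈ GM A x (Option (YT n b g)) := AltC_mem_GM _ x (mf_mem_GM x (yml_hw h))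

theorem hfun_alt (x : X → A.carrier) (w w' : FreeMonoid (X ⊕ YT n b g)) :
    AltF yco (hfun x w w') := AltC_altF _ _

theorem yc_ne_none {n b g : ℕ} (y : YT n b g) :
    (yc y : Option (Fin n ⊕ Fin g)) ≠ none := by
  rcases y with y | y
  · exact Option.some_ne_none _
  · exact Option.some_ne_none _

theorem mem_colG_yc {n b g : ℕ} (π : Equiv.Perm (YT n b g)) :
    π ∈ colG (yc : YT n b g → Option (Fin n ⊕ Fin g)) ↔ ∀ y, yc (π y) = yc y := by
  constructor
  · rintro ⟨h, _⟩; exact h
  · intro h
    exact ⟨h, fun y hy => absurd hy (yc_ne_none y)⟩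

theorem mem_colG_yco {n b g : ℕ} (π : Equiv.Perm (YT n b g)) :
    Equiv.optionCongr π ∈ colG (yco : Option (YT n b g) → Option (Fin n ⊕ Fin g)) ↔
      π ∈ colG (yc : YT n b g → Option (Fin n ⊕ Fin g)) := by
  rw [mem_colG_yc]
  constructor
  · rintro ⟨h, _⟩ y
    exact h (some y)
  · intro h
    refine ⟨fun o => ?_, fun o ho => ?_⟩
    · rcases o with _ | y
      · rfl
      · exact h y
    · rcases o with _ | y
      · rfl
      · exact absurd ho (yc_ne_none y)

theorem exists_optionCongr {n b g : ℕ} {π : Equiv.Perm (Option (YT n b g))}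
    (h : π ∈ colG (yco : Option (YT n b g) → Option (Fin n ⊕ Fin g))) :
    Equiv.optionCongr (Equiv.removeNone π) = π := by
  have h1 : π none = none := h.2 none rfl
  rw [map_equiv_removeNone, h1, Equiv.swap_self]
  rfl

theorem hfun_extd (x : X → A.carrier) (w w' : FreeMonoid (X ⊕ YT n b g))
    (v : YT n b g → A.carrier) (z : A.carrier) (w0 : FreeMonoid (X ⊕ YT n b g))
    (hz : ∀ v : YT n b g → A.carrier, ev A (Sum.elim x v) (mon F w0) = inc A z) :
    hfun x w w' (extd v z) = AltY (mf A x (w * w0 * w')) v := by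
  classical
  unfold hfun AltC AltY
  symm
  refine Finset.sum_bij' (fun π _ => Equiv.optionCongr π) (fun π _ => Equiv.removeNone π)
    ?_ ?_ ?_ ?_ ?_
  · intro π hπ
    rw [Finset.mem_filter] at hπ ⊢
    exact ⟨Finset.mem_univ _, (mem_colG_yco π).2 hπ.2⟩
  · intro π hπ
    rw [Finset.mem_filter] at hπ ⊢
    refine ⟨Finset.mem_univ _, (mem_colG_yco _).1 ?_⟩
    rw [exists_optionCongr hπ.2]
    exact hπ.2
  · intro π _
    exact Equiv.removeNone_optionCongr π
  · intro π hπ
    exact exists_optionCongr (Finset.mem_filter.1 hπ).2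
  · intro π _
    rw [Equiv.optionCongr_sign]
    congr 1
    unfold mf hw
    rw [mon_mul, mon_mul, mon_mul, mon_mul, map_mul, map_mul, map_mul, map_mul, hz, ← ren_mon,
      ← ren_mon, ev_ren, ev_ren]
    have h1 : (Sum.elim x (fun y => v (π y)) : X ⊕ YT n b g → A.carrier) =
        fun s => Sum.elim x (fun y => extd v z ((Equiv.optionCongr π) y)) (Sum.map id some s) := by
      funext s
      rcases s with s | s <;> rfl
    rw [← h1]
    congr 2
    rw [← FreeMonoid.ofList_singleton, ev_mon_ofList]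
    simp [extd]

end hole

end Pool.Agent.KEM.BAlt
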