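import Pool.Agent.KEM.Defs

/-!
# The algebra `BH`

`BC` is the polynomial ring of coefficients, acting on the space `MM` of alternating functions by
means of an action datum `BAct`; `Phi` is the pairing; `BCon` the congruence; `BH` the algebra.
-/

universe u

namespace Pool.Agent.KEM

open Pool.Agent.Helper29

variable {F : Type u} [Field F]

/-- Variables of the coefficient ring: `(w, j)` stands for `δ_1(w^(j+1))`. -/
abbrev BI (X : Type) (b l : ℕ) : Type := {w : List X // w ≠ [] ∧ w.length ≤ l} × Fin b

/-- The coefficient ring. -/
abbrev BC (F : Type u) [Field F] (X : Type) (b l : ℕ) : Type u := MvPolynomial (BI X b l) F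

/-- The free algebra over the coefficient ring in the generators and the alternating variables. -/
abbrev BFA (F : Type u) [Field F] (X : Type) (n b g l : ℕ) : Type u :=
  MonoidAlgebra (BC F X b l) (FreeMonoid (X ⊕ YT n b g))

/-- An action of the coefficient ring on the alternating functions by the operators `δ_1`. -/
structure BAct (A : AssocAlg F) {X : Type} (x : X → A.carrier) (n b g l : ℕ) where
  φ : BC F X b l →ₐ[F] Module.End F (MM A x n b g)
  hφ : ∀ (q : BI X b l) (i : Fin n) (m : MM A x n b g),
    ((φ (MvPolynomial.X q) m : MM A x n b g) : (YT n b g → A.carrier) → U A) =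
      delta i 1 (apow (wval x q.1.1) q.2) (m : (YT n b g → A.carrier) → U A)

open Classical in
/-- The alternation of a function over the colour classes. -/
noncomputable def AltY {A : AssocAlg F} {n b g : ℕ} (m : (YT n b g → A.carrier) → U A) :
    (YT n b g → A.carrier) → U A :=
  fun v => ∑ π ∈ Finset.univ.filter (fun π : Equiv.Perm (YT n b g) =>
      π ∈ colG (yc : YT n b g → Option (Fin n ⊕ Fin g))),
    (Equiv.Perm.sign π : ℤ) • m (fun y => v (π y))

variable {A : AssocAlg F} {X : Type} {x : X → A.carrier} {n b g l : ℕ}

open Classical in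
/-- The alternation of the function of a word (zero unless the word contains every variable of `Y`
exactly once). -/
noncomputable def PhiW (x : X → A.carrier) (w : FreeMonoid (X ⊕ YT n b g)) : MM A x n b g :=
  if h : Yml w ∧ AltY (mf A x w) ∈ MM A x n b g then ⟨AltY (mf A x w), h.2⟩ else 0

/-- The pairing. -/
noncomputable def Phi (α : BAct A x n b g l) (p : BFA F X n b g l) : MM A x n b g :=
  p.coeff.sum fun w c => α.φ c (PhiW x w)

theorem Phi_add (α : BAct A x n b g l) (p q : BFA F X n b g l) :
    Phi α (p + q) = Phi α p + Phi α q := by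
  classical
  unfold Phi
  rw [MonoidAlgebra.coeff_add, Finsupp.sum_add_index']
  · intro w; simp
  · intro w c c'; simp

theorem Phi_single (α : BAct A x n b g l) (w : FreeMonoid (X ⊕ YT n b g)) (c : BC F X b l) :
    Phi α (MonoidAlgebra.single w c) = α.φ c (PhiW x w) := by
  unfold Phi
  rw [MonoidAlgebra.coeff_single, Finsupp.sum_single_index]
  simp

theorem Phi_smul (α : BAct A x n b g l) (c : BC F X b l) (p : BFA F X n b g l) :
    Phi α (c • p) = α.φ c (Phi α p) := by
  induction p using MonoidAlgebra.induction_linear with
  | zero => simp [Phi]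
  | add p q hp hq => rw [smul_add, Phi_add, hp, hq, Phi_add, map_add]
  | single w d =>
    rw [MonoidAlgebra.smul_single, Phi_single, Phi_single, smul_eq_mul, map_mul]
    rfl

/-- The congruence: `p ~ q` when `p - q` is killed by the pairing with everything. -/
noncomputable def BCon (α : BAct A x n b g l) : RingCon (BFA F X n b g l) where
  r p q := ∀ s t, Phi α (s * p * t) = Phi α (s * q * t)
  iseqv :=
    { refl := fun _ _ _ => rfl
      symm := fun h s t => (h s t).symm
      trans := fun h h' s t => (h s t).trans (h' s t) }
  mul' := by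
    intro p q p' q' h h' s t
    have h1 := h s (p' * t)
    have h2 := h' (s * q) t
    rw [← mul_assoc, ← mul_assoc] at h1
    rw [← mul_assoc, ← mul_assoc, h1, mul_assoc s q p', ← mul_assoc s q p', h2, mul_assoc s q q']
  add' := by
    intro p q p' q' h h' s t
    rw [mul_add, add_mul, mul_add, add_mul, Phi_add, Phi_add, h s t, h' s t]

/-- The unital algebra `BFA / BCon`. -/
def BQ (α : BAct A x n b g l) : Type u := (BCon α).Quotient

noncomputable instance BQ.ring (α : BAct A x n b g l) : Ring (BQ α) :=
  inferInstanceAs (Ring (BCon α).Quotient)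

/-- The quotient map. -/
noncomputable def BQ.mk (α : BAct A x n b g l) : BFA F X n b g l →+* BQ α where
  toFun p := (p : (BCon α).Quotient)
  map_one' := rfl
  map_mul' _ _ := rfl
  map_zero' := rfl
  map_add' _ _ := rfl

theorem BQ.mk_surjective (α : BAct A x n b g l) : Function.Surjective (BQ.mk α) := by
  rintro ⟨p⟩; exact ⟨p, rfl⟩

theorem BQ.mk_eq_iff (α : BAct A x n b g l) {p q : BFA F X n b g l} :
    BQ.mk α p = BQ.mk α q ↔ ∀ s t, Phi α (s * p * t) = Phi α (s * q * t) :=
  (BCon α).eq

noncomputable instance BQ.algebra (α : BAct A x n b g l) : Algebra (BC F X b l) (BQ α) :=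
  RingHom.toAlgebra' ((BQ.mk α).comp (algebraMap (BC F X b l) (BFA F X n b g l))) (by
    intro c q
    obtain ⟨q, rfl⟩ := BQ.mk_surjective α q
    rw [RingHom.comp_apply, ← map_mul, ← map_mul, Algebra.commutes])

theorem BQ.mk_smul (α : BAct A x n b g l) (c : BC F X b l) (p : BFA F X n b g l) :
    BQ.mk α (c • p) = c • BQ.mk α p := by
  rw [Algebra.smul_def, Algebra.smul_def, map_mul]
  rfl

/-- The image of a word in the quotient. -/
noncomputable def bw (α : BAct A x n b g l) (w : FreeMonoid (X ⊕ YT n b g)) : BQ α :=
  BQ.mk α (MonoidAlgebra.single w 1)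

/-- The underlying type of `BH`: the subalgebra generated over the coefficient ring by the
letters. -/
def BT (α : BAct A x n b g l) : Type u :=
  NonUnitalAlgebra.adjoin (BC F X b l) (Set.range fun z => bw α (FreeMonoid.of z))

noncomputable instance BT.ring (α : BAct A x n b g l) : NonUnitalRing (BT α) :=
  NonUnitalSubalgebra.toNonUnitalRing (R := BC F X b l)
    (NonUnitalAlgebra.adjoin (BC F X b l) (Set.range fun z => bw α (FreeMonoid.of z)))

noncomputable instance BT.moduleC (α : BAct A x n b g l) : Module (BC F X b l) (BT α) :=
  NonUnitalSubalgebra.instModule (R := BC F X b l)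
    (S := NonUnitalAlgebra.adjoin (BC F X b l) (Set.range fun z => bw α (FreeMonoid.of z)))

theorem BT.smul_mul (α : BAct A x n b g l) (c : BC F X b l) (p q : BT α) :
    (c • p) * q = c • (p * q) :=
  Subtype.ext (smul_mul_assoc c p.1 q.1)

theorem BT.mul_smul (α : BAct A x n b g l) (c : BC F X b l) (p q : BT α) :
    p * (c • q) = c • (p * q) :=
  Subtype.ext (mul_smul_comm c p.1 q.1)

noncomputable instance BT.module (α : BAct A x n b g l) : Module F (BT α) :=
  Module.compHom (BT α) (algebraMap F (BC F X b l))

/-- The algebra of the page, section 6. -/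
noncomputable def BH (α : BAct A x n b g l) : AssocAlg F where
  carrier := BT α
  smul_mul c p q := BT.smul_mul α (algebraMap F (BC F X b l) c) p q
  mul_smul c p q := BT.mul_smul α (algebraMap F (BC F X b l) c) p q

/-- The value of an element of `BH` in the unital algebra `BQ`. -/
def BH.val (α : BAct A x n b g l) (p : (BH α).carrier) : BQ α := Subtype.val p

end Pool.Agent.KEM
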