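import Pool.Agent.KEM.Api

/-!
# Basic facts on substitution, multilinearity, consequences and alternation
-/

universe u

namespace Pool.Agent.KEM.Bas

open Pool.Agent.Helper29 Pool.Agent.KEM

variable {F : Type u} [Field F]

/-! ### Monomials -/

section mon

variable {Z Z' Z'' : Type}

theorem snd_inc (A : AssocAlg F) (a : A.carrier) : (inc A a).snd = a := rfl

theorem ev_mon_of (A : AssocAlg F) (v : Z → A.carrier) (z : Z) :
    ev A v (mon F (FreeMonoid.of z)) = inc A (v z) := by
  rw [ev_mon, FreeMonoid.toList_of, List.map_singleton, List.prod_singleton]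

theorem inc_wval (A : AssocAlg F) (v : Z → A.carrier) (l : List Z) (hl : l ≠ []) :
    inc A (wval v l) = (l.map fun z => inc A (v z)).prod := by
  induction l with
  | nil => exact absurd rfl hl
  | cons a l ih =>
    cases l with
    | nil => simp [wval]
    | cons b l =>
      rw [wval, inc_mul, ih (by simp), List.map_cons, List.map_cons, List.map_cons,
        List.prod_cons, List.prod_cons, List.prod_cons]

theorem ev_mon_wval (A : AssocAlg F) (v : Z → A.carrier) (l : List Z) (hl : l ≠ []) :
    ev A v (mon F (FreeMonoid.ofList l)) = inc A (wval v l) := by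
  rw [ev_mon_ofList, inc_wval A v l hl]

theorem ev_mon_wval' (A : AssocAlg F) (v : Z → A.carrier) (w : FreeMonoid Z)
    (hw : FreeMonoid.toList w ≠ []) : ev A v (mon F w) = inc A (wval v (FreeMonoid.toList w)) :=
  ev_mon_wval A v (FreeMonoid.toList w) hw

/-- The value of a word of which a letter is evaluated at `0` is `0`. -/
theorem wval_zero (A : AssocAlg F) (v : Z → A.carrier) (l : List Z) {z : Z} (hz : z ∈ l)
    (h0 : v z = 0) : wval v l = 0 := by
  have hl : l ≠ [] := List.ne_nil_of_mem hz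
  apply inc_injective A
  rw [inc_wval A v l hl, inc_zero]
  apply List.prod_eq_zero
  rw [List.mem_map]
  exact ⟨z, hz, by rw [h0, inc_zero]⟩

theorem wval_append {A : AssocAlg F} (v : Z → A.carrier) (l l' : List Z) (hl : l ≠ [])
    (hl' : l' ≠ []) : wval v (l ++ l') = wval v l * wval v l' := by
  apply inc_injective A
  rw [inc_mul, inc_wval A v _ (by simp [hl]), inc_wval A v l hl, inc_wval A v l' hl',
    List.map_append, List.prod_append]

theorem wval_singleton {A : AssocAlg F} (v : Z → A.carrier) (z : Z) : wval v [z] = v z := rfl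

/-- Two algebra homomorphisms on the free algebra that agree on the variables are equal. -/
theorem hom_ext {B : Type*} [Semiring B] [Algebra F B] {f g : FA F Z →ₐ[F] B}
    (h : ∀ z, f (mon F (FreeMonoid.of z)) = g (mon F (FreeMonoid.of z))) : f = g := by
  refine MonoidAlgebra.algHom_ext' ?_ ?_
  · refine FreeMonoid.hom_eq fun z => ?_
    exact h z
  · exact Subsingleton.elim _ _

/-! ### Renaming and substitution -/

theorem ren_of (f : Z → Z') (z : Z) :
    ren (F := F) f (mon F (FreeMonoid.of z)) = mon F (FreeMonoid.of (f z)) := by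
  rw [ren_mon, FreeMonoid.map_of]

theorem ren_one (p : FA F Z) : ren (⇑(1 : Equiv.Perm Z)) p = p := ren_id p

theorem ren_perm_mul (π ρ : Equiv.Perm Z) (p : FA F Z) :
    ren (⇑(π * ρ)) p = ren π (ren ρ p) := by
  rw [ren_ren]
  rfl

theorem sbst_of (s : Z → FA F Z') (z : Z) : sbst s (mon F (FreeMonoid.of z)) = s z := by
  rw [sbst_mon, FreeMonoid.toList_of, List.map_singleton, List.prod_singleton]

theorem ev_sbst (A : AssocAlg F) (s : Z → FA F Z') (v : Z' → A.carrier) (v' : Z → A.carrier)
    (h : ∀ z, ev A v (s z) = inc A (v' z)) (p : FA F Z) :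
    ev A v (sbst s p) = ev A v' p := by
  have : (ev A v).comp (sbst s) = ev A v' := hom_ext fun z => by
    rw [AlgHom.comp_apply, sbst_of, h, ev_mon_of]
  exact DFunLike.congr_fun this p

theorem ren_sbst (s : Z → FA F Z') (f : Z' → Z'') (p : FA F Z) :
    ren f (sbst s p) = sbst (fun z => ren f (s z)) p := by
  have : (ren (F := F) f).comp (sbst s) = sbst (fun z => ren f (s z)) := hom_ext fun z => by
    rw [AlgHom.comp_apply, sbst_of, sbst_of]
  exact DFunLike.congr_fun this p

theorem sbst_ren (f : Z → Z') (s : Z' → FA F Z'') (p : FA F Z) :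
    sbst s (ren f p) = sbst (fun z => s (f z)) p := by
  have : (sbst s).comp (ren (F := F) f) = sbst (fun z => s (f z)) := hom_ext fun z => by
    rw [AlgHom.comp_apply, ren_of, sbst_of, sbst_of]
  exact DFunLike.congr_fun this p

theorem sbst_sbst (s : Z → FA F Z') (t : Z' → FA F Z'') (p : FA F Z) :
    sbst t (sbst s p) = sbst (fun z => sbst t (s z)) p := by
  have : (sbst t).comp (sbst s) = sbst (fun z => sbst t (s z)) := hom_ext fun z => by
    rw [AlgHom.comp_apply, sbst_of, sbst_of]
  exact DFunLike.congr_fun this p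

end mon

/-! ### Multilinear polynomials -/

section ML

variable {Z Z' Z'' : Type}

theorem mon_mem_ML {w : FreeMonoid Z} (hw : MLW w) : mon F w ∈ ML F Z :=
  Submodule.subset_span ⟨w, hw, rfl⟩

/-- Induction on multilinear polynomials. -/
theorem ML_induction {P : FA F Z → Prop} (hm : ∀ w, MLW w → P (mon F w)) (h0 : P 0)
    (ha : ∀ p q, P p → P q → P (p + q)) (hs : ∀ (c : F) p, P p → P (c • p)) {p : FA F Z}
    (hp : p ∈ ML F Z) : P p := by
  refine Submodule.span_induction (p := fun p _ => P p) ?_ h0 (fun p q _ _ => ha p q)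
    (fun c p _ => hs c p) hp
  rintro _ ⟨w, hw, rfl⟩
  exact hm w hw

/-- The value of a multilinear polynomial lies in `A`. -/
theorem ev_ML (A : AssocAlg F) (v : Z → A.carrier) {p : FA F Z} (hp : p ∈ ML F Z) :
    ev A v p = inc A (evs A v p) := by
  have key : ∃ a, ev A v p = inc A a := by
    refine ML_induction (P := fun p => ∃ a, ev A v p = inc A a) ?_ ?_ ?_ ?_ hp
    · intro w hw
      exact ⟨_, ev_mon_wval' A v w hw.1⟩
    · exact ⟨0, by rw [map_zero, inc_zero]⟩
    · rintro p q ⟨a, ha⟩ ⟨b, hb⟩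
      exact ⟨a + b, by rw [map_add, ha, hb, inc_add]⟩
    · rintro c p ⟨a, ha⟩
      exact ⟨c • a, by rw [map_smul, ha, inc_smul]⟩
  obtain ⟨a, ha⟩ := key
  rw [evs, ha, snd_inc]

/-- A multilinear polynomial vanishes if one argument is `0`. -/
theorem ev_zero_arg (A : AssocAlg F) (v : Z → A.carrier) {p : FA F Z} (hp : p ∈ ML F Z) {z : Z}
    (h0 : v z = 0) : ev A v p = 0 := by
  refine ML_induction (P := fun p => ev A v p = 0) ?_ ?_ ?_ ?_ hp
  · intro w hw
    rw [ev_mon_wval' A v w hw.1, wval_zero A v _ (hw.2.2 z) h0, inc_zero]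
  · rw [map_zero]
  · intro p q h1 h2
    rw [map_add, h1, h2, add_zero]
  · intro c p h1
    rw [map_smul, h1, smul_zero]

theorem ren_mem_ML (f : Z ≃ Z') {p : FA F Z} (hp : p ∈ ML F Z) : ren f p ∈ ML F Z' := by
  refine ML_induction (P := fun p => ren f p ∈ ML F Z') ?_ ?_ ?_ ?_ hp
  · intro w hw
    rw [ren_mon]
    refine mon_mem_ML ⟨?_, ?_, fun z => ?_⟩
    · rw [FreeMonoid.toList_map]
      simpa using hw.1
    · rw [FreeMonoid.toList_map]
      exact hw.2.1.map f.injective
    · rw [FreeMonoid.toList_map, List.mem_map]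
      exact ⟨f.symm z, hw.2.2 _, by simp⟩
  · rw [map_zero]; exact Submodule.zero_mem _
  · intro p q h1 h2
    rw [map_add]; exact Submodule.add_mem _ h1 h2
  · intro c p h1
    rw [map_smul]; exact Submodule.smul_mem _ _ h1

/-- The substitution of words for the variables. -/
noncomputable def wsb (s : Z → List Z') : Z → FA F Z' := fun z => mon F (FreeMonoid.ofList (s z))

theorem sbst_wsb_mon (s : Z → List Z') (w : FreeMonoid Z) :
    sbst (wsb (F := F) s) (mon F w) = mon F (FreeMonoid.ofList ((FreeMonoid.toList w).flatMap s)) := by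
  induction w using FreeMonoid.inductionOn' with
  | one => rw [mon_one, map_one]; rfl
  | of_mul z w ih =>
    rw [mon_mul, map_mul, ih, sbst_of, wsb, ← mon_mul, FreeMonoid.toList_of_mul,
      List.flatMap_cons, FreeMonoid.ofList_append]

/-- Substitution of disjoint nonempty words for the variables preserves multilinearity. -/
theorem sbst_mem_ML (s : Z → List Z') (hs : ∀ z, s z ≠ []) (hn : ∀ z, (s z).Nodup) (g : Z' → Z)
    (hg : ∀ z' z, z' ∈ s z ↔ g z' = z) {p : FA F Z} (hp : p ∈ ML F Z) :
    sbst (wsb s) p ∈ ML F Z' := by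
  refine ML_induction (P := fun p => sbst (wsb s) p ∈ ML F Z') ?_ ?_ ?_ ?_ hp
  · intro w hw
    rw [sbst_wsb_mon]
    refine mon_mem_ML ⟨?_, ?_, fun z' => ?_⟩
    · rw [FreeMonoid.toList_ofList]
      intro h
      rw [List.flatMap_eq_nil_iff] at h
      obtain ⟨z, hz⟩ := List.exists_mem_of_ne_nil _ hw.1
      exact hs z (h z hz)
    · rw [FreeMonoid.toList_ofList, List.nodup_flatMap]
      refine ⟨fun z _ => hn z, hw.2.1.imp ?_⟩
      intro z z1 hzz1
      rw [Function.onFun, List.disjoint_left]
      intro y hy hy1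
      exact hzz1 (((hg y z).1 hy).symm.trans ((hg y z1).1 hy1))
    · rw [FreeMonoid.toList_ofList, List.mem_flatMap]
      exact ⟨g z', hw.2.2 _, (hg z' _).2 rfl⟩
  · rw [map_zero]; exact Submodule.zero_mem _
  · intro p q h1 h2
    rw [map_add]; exact Submodule.add_mem _ h1 h2
  · intro c p h1
    rw [map_smul]; exact Submodule.smul_mem _ _ h1

theorem ev_wsb (A : AssocAlg F) (s : Z → List Z') (hs : ∀ z, s z ≠ []) (v : Z' → A.carrier)
    (p : FA F Z) : ev A v (sbst (wsb s) p) = ev A (fun z => wval v (s z)) p :=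
  ev_sbst A _ v _ (fun z => ev_mon_wval A v (s z) (hs z)) p

/-! ### Consequences -/

theorem imp_refl (p : FA F Z) : Imp p p := fun _ h => h

theorem imp_trans {p : FA F Z} {q : FA F Z'} {r : FA F Z''} (h : Imp p q) (h' : Imp q r) :
    Imp p r := fun A hA => h' A (h A hA)

theorem imp_ren (f : Z → Z') (p : FA F Z) : Imp p (ren f p) := fun A h v => by
  rw [ev_ren]; exact h _

theorem imp_wsb (s : Z → List Z') (hs : ∀ z, s z ≠ []) (p : FA F Z) :
    Imp p (sbst (wsb s) p) := fun A h v => by
  rw [ev_wsb A s hs]; exact h _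

theorem imp_smul {p : FA F Z} {q : FA F Z'} (h : Imp p q) (c : F) : Imp p (c • q) :=
  fun A hA v => by rw [map_smul, h A hA v, smul_zero]

theorem imp_add {p : FA F Z} {q r : FA F Z'} (h : Imp p q) (h' : Imp p r) : Imp p (q + r) :=
  fun A hA v => by rw [map_add, h A hA v, h' A hA v, add_zero]

theorem imp_sum {ι : Type*} {p : FA F Z} (s : Finset ι) (q : ι → FA F Z')
    (h : ∀ i ∈ s, Imp p (q i)) : Imp p (∑ i ∈ s, q i) := fun A hA v => by
  rw [map_sum]
  exact Finset.sum_eq_zero fun i hi => h i hi A hA v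

/-! ### Alternation -/

variable [Fintype Z] [DecidableEq Z] {K : Type}

open Classical in
/-- The alternation in the classes of the colouring `c`. -/
noncomputable def altS (c : Z → Option K) (p : FA F Z) : FA F Z :=
  ∑ π ∈ Finset.univ.filter (fun π : Equiv.Perm Z => π ∈ colG c),
    (Equiv.Perm.sign π : ℤ) • ren π p

theorem altS_mem_ML (c : Z → Option K) {p : FA F Z} (hp : p ∈ ML F Z) : altS c p ∈ ML F Z := by
  refine Submodule.sum_mem _ fun π _ => ?_
  rw [← Int.cast_smul_eq_zsmul F]
  exact Submodule.smul_mem _ _ (ren_mem_ML π hp)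

theorem altS_alt (c : Z → Option K) (p : FA F Z) (ρ : Equiv.Perm Z) (hρ : ρ ∈ colG c) :
    ren ρ (altS c p) = (Equiv.Perm.sign ρ : ℤ) • altS c p := by
  classical
  rw [altS, map_sum, Finset.smul_sum]
  refine Finset.sum_bij' (fun π _ => ρ * π) (fun π _ => ρ⁻¹ * π) ?_ ?_ ?_ ?_ ?_
  · intro π hπ
    rw [Finset.mem_filter] at hπ ⊢
    exact ⟨Finset.mem_univ _, mul_mem hρ hπ.2⟩
  · intro π hπ
    rw [Finset.mem_filter] at hπ ⊢
    exact ⟨Finset.mem_univ _, mul_mem (inv_mem hρ) hπ.2⟩
  · intro π _
    rw [inv_mul_cancel_left]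
  · intro π _
    rw [mul_inv_cancel_left]
  · intro π _
    rw [map_zsmul, ren_perm_mul, Equiv.Perm.sign_mul, Units.val_mul, smul_smul, ← mul_assoc,
      Int.units_coe_mul_self, one_mul]

theorem imp_altS (c : Z → Option K) (p : FA F Z) : Imp p (altS c p) := by
  classical
  refine imp_sum _ _ fun π _ => ?_
  rw [← Int.cast_smul_eq_zsmul F]
  exact imp_smul (imp_ren π p) _

open Classical in
theorem ev_altS (A : AssocAlg F) (v : Z → A.carrier) (c : Z → Option K) (p : FA F Z) :
    ev A v (altS c p) = ∑ π ∈ Finset.univ.filter (fun π : Equiv.Perm Z => π ∈ colG c),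
      (Equiv.Perm.sign π : ℤ) • ev A (fun z => v (π z)) p := by
  rw [altS, map_sum]
  refine Finset.sum_congr rfl fun π _ => ?_
  rw [map_zsmul, ev_ren]

/-- The value of an alternation at a tuple for which only the trivial term survives. -/
theorem ev_altS_of (A : AssocAlg F) (v : Z → A.carrier) (c : Z → Option K) (p : FA F Z)
    (h : ∀ π ∈ colG c, π ≠ 1 → ev A (fun z => v (π z)) p = 0) :
    ev A v (altS c p) = ev A v p := by
  classical
  rw [ev_altS, Finset.sum_eq_single 1]
  · simp
  · intro π hπ hne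
    rw [h π (Finset.mem_filter.1 hπ).2 hne, smul_zero]
  · intro h1
    exact absurd (Finset.mem_filter.2 ⟨Finset.mem_univ _, one_mem _⟩) h1

theorem typed_altS {n b g : ℕ} {c : Z → Option (Fin n ⊕ Fin g)} (hc : Sizes n b g c)
    (p : FA F Z) : Typed (altS c p) n b g c := ⟨hc, altS_alt c p⟩

end ML

end Pool.Agent.KEM.Bas
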