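import Pool.Agent.KEM.Api

/-!
# General lemmas for row Bh1: homomorphisms out of the free algebra, expansion of multilinear
polynomials over a commutative ring, words in the generators
-/

universe u

namespace Pool.Agent.KEM

open Pool.Agent.Helper29

variable {F : Type u} [Field F]

namespace BhH

/-! ### Homomorphisms out of the free algebra -/

theorem FA_hom_ext {Z : Type} {B : Type*} [Semiring B] [Algebra F B] {f g : FA F Z →ₐ[F] B}
    (h : ∀ z, f (mon F (FreeMonoid.of z)) = g (mon F (FreeMonoid.of z))) : f = g := by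
  apply MonoidAlgebra.algHom_ext ?_ (by ext)
  intro w
  have h1 : ∀ k : FA F Z →ₐ[F] B, k (MonoidAlgebra.single w 1) =
      ((k : FA F Z →* B).comp (MonoidAlgebra.of F (FreeMonoid Z))) w := fun k => rfl
  rw [h1, h1]
  congr 1
  apply FreeMonoid.hom_eq
  intro z
  exact h z

/-- The homomorphism given by the values of the variables. -/
noncomputable def lft {Z : Type} {B : Type*} [Semiring B] [Algebra F B] (v : Z → B) :
    FA F Z →ₐ[F] B :=
  MonoidAlgebra.lift F B (FreeMonoid Z) (FreeMonoid.lift v)

theorem lft_mon {Z : Type} {B : Type*} [Semiring B] [Algebra F B] (v : Z → B)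
    (w : FreeMonoid Z) : lft v (mon F w) = FreeMonoid.lift v w := by
  rw [lft, mon, MonoidAlgebra.lift_single, one_smul]

theorem lft_of {Z : Type} {B : Type*} [Semiring B] [Algebra F B] (v : Z → B)
    (z : Z) : lft v (mon F (FreeMonoid.of z)) = v z := by
  rw [lft_mon, FreeMonoid.lift_eval_of]

theorem ev_eq_lft (A : AssocAlg F) {Z : Type} (v : Z → A.carrier) :
    ev A v = lft fun z => inc A (v z) := rfl

theorem sbst_eq_lft {Z Z' : Type} (s : Z → FA F Z') : sbst s = lft s := rfl

theorem sbst_of {Z Z' : Type} (s : Z → FA F Z') (z : Z) :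
    sbst s (mon F (FreeMonoid.of z)) = s z := lft_of s z

theorem ev_of (A : AssocAlg F) {Z : Type} (v : Z → A.carrier) (z : Z) :
    ev A v (mon F (FreeMonoid.of z)) = inc A (v z) := lft_of _ z

theorem hom_lft {Z : Type} {B B' : Type*} [Semiring B] [Algebra F B] [Semiring B'] [Algebra F B']
    (φ : B →ₐ[F] B') (v : Z → B) (p : FA F Z) : φ (lft v p) = lft (fun z => φ (v z)) p := by
  have : φ.comp (lft v) = lft fun z => φ (v z) := by
    apply FA_hom_ext
    intro z
    rw [AlgHom.comp_apply, lft_of, lft_of]
  rw [← this]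
  rfl

theorem hom_sbst {Z Z' : Type} {B' : Type*} [Semiring B'] [Algebra F B']
    (φ : FA F Z' →ₐ[F] B') (s : Z → FA F Z') (p : FA F Z) :
    φ (sbst s p) = lft (fun z => φ (s z)) p := hom_lft φ s p

theorem sbst_mon' {Z Z' : Type} (u : Z → FreeMonoid Z') (w : FreeMonoid Z) :
    sbst (fun z => mon F (u z)) (mon F w) = mon F (FreeMonoid.lift u w) := by
  rw [sbst_eq_lft, lft_mon]
  have : FreeMonoid.lift (fun z => mon F (u z)) =
      (MonoidAlgebra.of F (FreeMonoid Z')).comp (FreeMonoid.lift u) := by
    apply FreeMonoid.hom_eq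
    intro z
    rw [FreeMonoid.lift_eval_of, MonoidHom.comp_apply, FreeMonoid.lift_eval_of]
    rfl
  rw [this]
  rfl

/-! ### Polynomials without constant term -/

/-- The polynomials without constant term. -/
noncomputable def FA0 (F : Type u) [Field F] (Z : Type) : Submodule F (FA F Z) :=
  Submodule.span F {p | ∃ w : FreeMonoid Z, w ≠ 1 ∧ p = mon F w}

theorem mon_mem_FA0 {Z : Type} {w : FreeMonoid Z} (h : w ≠ 1) : mon F w ∈ FA0 F Z :=
  Submodule.subset_span ⟨w, h, rfl⟩

theorem ML_le_FA0 (Z : Type) : ML F Z ≤ FA0 F Z := by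
  refine Submodule.span_mono ?_
  rintro p ⟨w, hw, rfl⟩
  exact ⟨w, fun h => hw.1 (by rw [h]; rfl), rfl⟩

theorem eq_inc_of_fst {A : AssocAlg F} {x : U A} (h : x.fst = 0) : x = inc A x.snd := by
  have := Unitization.inl_fst_add_inr_snd_eq x
  rw [h, Unitization.inl_zero, zero_add] at this
  exact this.symm

theorem ev_FA0 (A : AssocAlg F) {Z : Type} (v : Z → A.carrier) {p : FA F Z}
    (hp : p ∈ FA0 F Z) : ev A v p = inc A (evs A v p) := by
  refine eq_inc_of_fst ?_
  induction hp using Submodule.span_induction with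
  | mem x hx =>
    obtain ⟨w, hw, rfl⟩ := hx
    cases w using FreeMonoid.casesOn with
    | one => exact absurd rfl hw
    | of_mul z w =>
      rw [mon_mul, map_mul, ev_of, Unitization.fst_mul]
      simp [inc]
  | zero => simp
  | add x y _ _ hx hy => rw [map_add, Unitization.fst_add, hx, hy, add_zero]
  | smul a x _ hx => rw [map_smul, Unitization.fst_smul, hx, smul_zero]

/-- Substitution of polynomials without constant term. -/
theorem ev_sbst (A : AssocAlg F) {Z Z' : Type} (v : Z' → A.carrier) (s : Z → FA F Z')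
    (hs : ∀ z, s z ∈ FA0 F Z') (p : FA F Z) :
    ev A v (sbst s p) = ev A (fun z => evs A v (s z)) p := by
  rw [hom_sbst, ev_eq_lft A (fun z => evs A v (s z))]
  congr 1
  congr 1
  funext z
  exact ev_FA0 A v (hs z)

theorem ren_sbst {Z Z' Z'' : Type} (f : Z' → Z'') (s : Z → FA F Z') (p : FA F Z) :
    ren f (sbst s p) = sbst (fun z => ren f (s z)) p := by
  rw [hom_sbst]
  rfl

theorem ren_mem_FA0 {Z Z' : Type} (f : Z → Z') {p : FA F Z} (hp : p ∈ FA0 F Z) :
    ren f p ∈ FA0 F Z' := by
  induction hp using Submodule.span_induction with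
  | mem x hx =>
    obtain ⟨w, hw, rfl⟩ := hx
    rw [ren_mon]
    refine mon_mem_FA0 ?_
    intro h
    apply hw
    have h2 : FreeMonoid.toList (FreeMonoid.map f w) = [] := by rw [h]; rfl
    rw [FreeMonoid.toList_map, List.map_eq_nil_iff] at h2
    exact h2
  | zero => rw [map_zero]; exact Submodule.zero_mem _
  | add x y _ _ hx hy => rw [map_add]; exact Submodule.add_mem _ hx hy
  | smul a x _ hx => rw [map_smul]; exact Submodule.smul_mem _ _ hx

/-! ### Words in the generators -/

theorem mul_mem_FA0 {Z : Type} {p q : FA F Z} (hp : p ∈ FA0 F Z) (hq : q ∈ FA0 F Z) :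
    p * q ∈ FA0 F Z := by
  induction hp using Submodule.span_induction with
  | mem x hx =>
    obtain ⟨w, hw, rfl⟩ := hx
    induction hq using Submodule.span_induction with
    | mem y hy =>
      obtain ⟨w', hw', rfl⟩ := hy
      rw [← mon_mul]
      refine mon_mem_FA0 ?_
      intro h
      have h2 : FreeMonoid.toList (w * w') = [] := by rw [h]; rfl
      rw [FreeMonoid.toList_mul, List.append_eq_nil_iff] at h2
      exact hw h2.1
    | zero => rw [mul_zero]; exact Submodule.zero_mem _
    | add x y _ _ hx hy => rw [mul_add]; exact Submodule.add_mem _ hx hy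
    | smul a x _ hx => rw [mul_smul_comm]; exact Submodule.smul_mem _ _ hx
  | zero => rw [zero_mul]; exact Submodule.zero_mem _
  | add x y _ _ hx hy => rw [add_mul]; exact Submodule.add_mem _ hx hy
  | smul a x _ hx => rw [smul_mul_assoc]; exact Submodule.smul_mem _ _ hx

/-- Every element is the value of a polynomial without constant term. -/
theorem exists_FA0 {A : AssocAlg F} {X : Type} {x : X → A.carrier} (hx : Gen A x)
    (a : A.carrier) : ∃ r ∈ FA0 F X, evs A x r = a := by
  have ha : a ∈ NonUnitalAlgebra.adjoin F (Set.range x) := by rw [hx]; trivial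
  induction ha using NonUnitalAlgebra.adjoin_induction with
  | mem a ha =>
    obtain ⟨z, rfl⟩ := ha
    have h1 : mon F (FreeMonoid.of z) ∈ FA0 F X := mon_mem_FA0 (FreeMonoid.of_ne_one z)
    refine ⟨mon F (FreeMonoid.of z), h1, ?_⟩
    apply inc_injective A
    rw [← ev_FA0 A x h1, ev_of]
  | add a b _ _ ha hb =>
    obtain ⟨r, hr, rfl⟩ := ha
    obtain ⟨s, hs, rfl⟩ := hb
    exact ⟨r + s, Submodule.add_mem _ hr hs, by rw [evs, map_add]; rfl⟩
  | zero => exact ⟨0, Submodule.zero_mem _, by rw [evs, map_zero]; rfl⟩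
  | mul a b _ _ ha hb =>
    obtain ⟨r, hr, rfl⟩ := ha
    obtain ⟨s, hs, rfl⟩ := hb
    refine ⟨r * s, mul_mem_FA0 hr hs, ?_⟩
    apply inc_injective A
    rw [← ev_FA0 A x (mul_mem_FA0 hr hs), map_mul, ev_FA0 A x hr, ev_FA0 A x hs, inc_mul]
  | smul c a _ ha =>
    obtain ⟨r, hr, rfl⟩ := ha
    exact ⟨c • r, Submodule.smul_mem _ _ hr, by rw [evs, map_smul]; rfl⟩

/-- Every element is in the span of the values of nonempty words. -/
theorem gen_span {A : AssocAlg F} {X : Type} {x : X → A.carrier} (hx : Gen A x)
    (a : A.carrier) :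
    a ∈ Submodule.span F {a | ∃ w : FreeMonoid X, w ≠ 1 ∧ a = evs A x (mon F w)} := by
  obtain ⟨r, hr, rfl⟩ := exists_FA0 hx a
  induction hr using Submodule.span_induction with
  | mem y hy =>
    obtain ⟨w, hw, rfl⟩ := hy
    exact Submodule.subset_span ⟨w, hw, rfl⟩
  | zero =>
    have : evs A x 0 = 0 := by rw [evs, map_zero]; rfl
    rw [this]; exact Submodule.zero_mem _
  | add y z _ _ hy hz =>
    have : evs A x (y + z) = evs A x y + evs A x z := by rw [evs, map_add]; rfl
    rw [this]; exact Submodule.add_mem _ hy hz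
  | smul c y _ hy =>
    have : evs A x (c • y) = c • evs A x y := by rw [evs, map_smul]; rfl
    rw [this]; exact Submodule.smul_mem _ _ hy

/-! ### Multilinear expansion over a commutative ring -/

section expand

variable {C : Type*} [CommRing C] [Algebra F C] {A : AssocAlg F} [Module C A.carrier]

/-- The map `a ↦ r a r'` on `A`, for `r, r'` in the unital hull. -/
def ctx (A : AssocAlg F) (r r' : U A) (a : A.carrier) : A.carrier :=
  (r * inc A a * r').snd

theorem ctx_eq (r r' : U A) (a : A.carrier) : r * inc A a * r' = inc A (ctx A r r' a) := by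
  apply eq_inc_of_fst
  rw [Unitization.fst_mul, Unitization.fst_mul]
  simp [inc]

theorem ctx_apply (r r' : U A) (a : A.carrier) :
    ctx A r r' a = r'.fst • (r.fst • a) + r'.fst • (r.snd * a) + (r.fst • a) * r'.snd +
      (r.snd * a) * r'.snd := by
  rw [ctx, Unitization.snd_mul, Unitization.snd_mul, Unitization.fst_mul]
  simp [inc, smul_add, add_mul, add_assoc]

theorem ctx_add (r r' : U A) (a b : A.carrier) :
    ctx A r r' (a + b) = ctx A r r' a + ctx A r r' b := by
  apply inc_injective A
  rw [inc_add, ← ctx_eq, ← ctx_eq, ← ctx_eq, inc_add, mul_add, add_mul]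

variable [IsScalarTower F C A.carrier] [IsScalarTower C A.carrier A.carrier]
    [SMulCommClass C A.carrier A.carrier]

theorem smul_comm_F (r : F) (c : C) (a : A.carrier) : r • c • a = c • r • a := by
  rw [← algebraMap_smul C r (c • a), ← algebraMap_smul C r a, smul_smul, smul_smul, mul_comm]

theorem ctx_smul (r r' : U A) (c : C) (a : A.carrier) :
    ctx A r r' (c • a) = c • ctx A r r' a := by
  rw [ctx_apply, ctx_apply]
  simp only [smul_add, mul_smul_comm, smul_mul_assoc, smul_comm_F (C := C)]

/-- The value of a multilinear polynomial is a `C`-linear function of each entry. -/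
theorem evs_lin {Z : Type} [DecidableEq Z] {p : FA F Z} (hp : p ∈ ML F Z) (v : Z → A.carrier)
    (z : Z) :
    ∃ φ : A.carrier →ₗ[C] A.carrier, ∀ x, evs A (Function.update v z x) p = φ x := by
  induction hp using Submodule.span_induction with
  | mem q hq =>
    obtain ⟨w, ⟨hne, hnd, hall⟩, rfl⟩ := hq
    obtain ⟨l1, l2, hl⟩ := List.append_of_mem (hall z)
    have hnd' := hnd
    rw [hl] at hnd'
    have h1 : z ∉ l1 ∧ z ∉ l2 := by
      rw [List.nodup_append] at hnd'
      refine ⟨fun h => ?_, ?_⟩
      · exact hnd'.2.2 z h z (by simp) rfl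
      · exact (List.nodup_cons.1 hnd'.2.1).1
    set r : U A := (l1.map fun y => inc A (v y)).prod with hr
    set r' : U A := (l2.map fun y => inc A (v y)).prod with hr'
    refine ⟨⟨⟨ctx A r r', ctx_add r r'⟩, ctx_smul r r'⟩, fun x => ?_⟩
    change evs A (Function.update v z x) (mon F w) = ctx A r r' x
    apply inc_injective A
    rw [← ctx_eq, ← ev_FA0 A _ (mon_mem_FA0 (fun h => hne (by rw [h]; rfl))), ev_mon, hl,
      List.map_append, List.map_cons, List.prod_append, List.prod_cons, Function.update_self]
    have e1 : (l1.map fun y => inc A (Function.update v z x y)) = l1.map fun y => inc A (v y) := by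
      apply List.map_congr_left
      intro a ha
      rw [Function.update_of_ne]
      rintro rfl
      exact h1.1 ha
    have e2 : (l2.map fun y => inc A (Function.update v z x y)) = l2.map fun y => inc A (v y) := by
      apply List.map_congr_left
      intro a ha
      rw [Function.update_of_ne]
      rintro rfl
      exact h1.2 ha
    rw [e1, e2, mul_assoc]
  | zero => exact ⟨0, fun x => by rw [evs, map_zero]; rfl⟩
  | add q q' _ _ h h' =>
    obtain ⟨φ, hφ⟩ := h
    obtain ⟨ψ, hψ⟩ := h'
    refine ⟨φ + ψ, fun x => ?_⟩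
    rw [LinearMap.add_apply, ← hφ, ← hψ, evs, map_add, Unitization.snd_add]
    rfl
  | smul r q _ h =>
    obtain ⟨φ, hφ⟩ := h
    refine ⟨(algebraMap F C r) • φ, fun x => ?_⟩
    rw [LinearMap.smul_apply, ← hφ, evs, map_smul, Unitization.snd_smul, algebraMap_smul]
    rfl

/-- Multilinear expansion. -/
theorem ml_expand' {N : Type*} [AddCommMonoid N] [Module C N] (χ : A.carrier →ₗ[C] N)
    {Z : Type} [Finite Z] {p : FA F Z} (hp : p ∈ ML F Z)
    (T : Z → Set A.carrier)
    (h : ∀ v : Z → A.carrier, (∀ z, v z ∈ T z) → χ (evs A v p) = 0) (v : Z → A.carrier)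
    (hv : ∀ z, v z ∈ Submodule.span C (T z)) : χ (evs A v p) = 0 := by
  classical
  have := Fintype.ofFinite Z
  have key : ∀ S : Finset Z, ∀ v : Z → A.carrier, (∀ z ∈ S, v z ∈ Submodule.span C (T z)) →
      (∀ z, z ∉ S → v z ∈ T z) → χ (evs A v p) = 0 := by
    intro S
    induction S using Finset.induction_on with
    | empty => exact fun v _ hv => h v (fun z => hv z (by simp))
    | insert z S hz ih =>
      intro v hv1 hv2
      obtain ⟨φ, hφ⟩ := evs_lin (C := C) hp v z
      have h3 : evs A v p = φ (v z) := by rw [← hφ, Function.update_eq_self]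
      rw [h3]
      have h4 : v z ∈ Submodule.span C (T z) := hv1 z (by simp)
      suffices aux : ∀ x ∈ Submodule.span C (T z), χ (φ x) = 0 from aux _ h4
      clear h3 h4
      intro x hx
      induction hx using Submodule.span_induction with
      | mem x hx =>
        rw [← hφ]
        apply ih
        · intro y hy
          by_cases hyz : y = z
          · exact absurd (hyz ▸ hy) hz
          · rw [Function.update_of_ne hyz]
            exact hv1 y (by simp [hy])
        · intro y hy
          by_cases hyz : y = z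
          · subst hyz; rw [Function.update_self]; exact hx
          · rw [Function.update_of_ne hyz]
            exact hv2 y (by simp [hyz, hy])
      | zero => rw [map_zero, map_zero]
      | add x y _ _ hx hy => rw [map_add, map_add, hx, hy, add_zero]
      | smul c x _ hx => rw [map_smul, map_smul, hx, smul_zero]
  exact key Finset.univ v (fun z _ => hv z) (fun z hz => absurd (Finset.mem_univ z) hz)

end expand

end BhH

end Pool.Agent.KEM
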