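import Pool.Agent.KEM.BDefs
import Pool.Agent.KEM.Bh0

/-!
# Row Bh1: the identities of the algebra `BH`
-/

universe u

namespace Pool.Agent.KEM

open Pool.Agent.Helper29

variable {F : Type u} [Field F]

namespace BhH

/-! ### Alternation -/

section alt

variable {A : AssocAlg F} {X : Type} {x : X → A.carrier} {n b g : ℕ}

theorem mf_perm (x : X → A.carrier) (w : FreeMonoid (X ⊕ YT n b g)) (π : YT n b g → YT n b g)
    (v : YT n b g → A.carrier) :
    mf A x w (fun y => v (π y)) = mf A x (FreeMonoid.map (Sum.map id π) w) v := by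
  rw [mf, mf, ← ren_mon, ev_ren]
  congr 2
  funext z
  cases z <;> rfl

theorem yml_iff {Y : Type} (w : FreeMonoid (X ⊕ Y)) :
    Yml w ↔ (∀ y, y ∈ (FreeMonoid.toList w).filterMap (fun s => Sum.elim (fun _ => none) some s)) ∧
      ((FreeMonoid.toList w).filterMap (fun s => Sum.elim (fun _ => none) some s)).Nodup := by
  rw [Yml]
  refine and_congr_left fun _ => forall_congr' fun y => ?_
  rw [List.mem_filterMap]
  constructor
  · intro h
    exact ⟨Sum.inr y, h, rfl⟩
  · rintro ⟨z, hz, h⟩
    cases z with
    | inl z => simp at h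
    | inr z =>
      rw [Sum.elim_inr, Option.some_inj] at h
      rw [← h]; exact hz

theorem yml_perm {w : FreeMonoid (X ⊕ YT n b g)} (h : Yml w) (π : Equiv.Perm (YT n b g)) :
    Yml (FreeMonoid.map (Sum.map id π) w) := by
  rw [yml_iff] at h ⊢
  have h1 : (FreeMonoid.toList (FreeMonoid.map (Sum.map id π) w)).filterMap
      (fun s : X ⊕ YT n b g => Sum.elim (fun _ => none) some s) =
      ((FreeMonoid.toList w).filterMap (fun s => Sum.elim (fun _ => none) some s)).map π := by
    rw [FreeMonoid.toList_map, List.filterMap_map, List.map_filterMap]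
    congr 1
    funext z
    cases z <;> rfl
  rw [h1]
  refine ⟨fun y => ?_, h.2.map π.injective⟩
  rw [List.mem_map]
  exact ⟨π.symm y, h.1 _, by simp⟩

theorem yml_congr {w w' : FreeMonoid (X ⊕ YT n b g)}
    (hp : (FreeMonoid.toList w).Perm (FreeMonoid.toList w')) (h : Yml w) : Yml w' := by
  rw [yml_iff] at h ⊢
  have h1 := hp.filterMap (fun s : X ⊕ YT n b g => Sum.elim (fun _ => none) some s)
  exact ⟨fun y => h1.mem_iff.1 (h.1 y), h1.nodup_iff.1 h.2⟩

theorem altY_altF (m : (YT n b g → A.carrier) → U A) :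
    AltF (yc : YT n b g → Option (Fin n ⊕ Fin g)) (AltY m) := by
  classical
  intro σ hσ v
  unfold AltY
  rw [Finset.smul_sum]
  refine Finset.sum_bij' (fun π _ => σ * π) (fun π _ => σ⁻¹ * π) ?_ ?_ ?_ ?_ ?_
  · intro π hπ
    rw [Finset.mem_filter] at hπ ⊢
    exact ⟨Finset.mem_univ _, (colG yc).mul_mem hσ hπ.2⟩
  · intro π hπ
    rw [Finset.mem_filter] at hπ ⊢
    exact ⟨Finset.mem_univ _, (colG yc).mul_mem ((colG yc).inv_mem hσ) hπ.2⟩
  · intro π _; simp
  · intro π _; simp
  · intro π _
    rw [Equiv.Perm.sign_mul, smul_smul]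
    have h1 : (Equiv.Perm.sign σ : ℤ) * ((Equiv.Perm.sign σ * Equiv.Perm.sign π : ℤˣ) : ℤ) =
        (Equiv.Perm.sign π : ℤ) := by
      rw [← Units.val_mul, ← mul_assoc, Int.units_mul_self, one_mul]
    rw [h1]
    rfl

theorem alty_mem (x : X → A.carrier) {w : FreeMonoid (X ⊕ YT n b g)} (hw : Yml w) :
    AltY (mf A x w) ∈ MM A x n b g := by
  classical
  refine ⟨?_, altY_altF _⟩
  have h1 : AltY (mf A x w) = ∑ π ∈ Finset.univ.filter (fun π : Equiv.Perm (YT n b g) =>
      π ∈ colG (yc : YT n b g → Option (Fin n ⊕ Fin g))),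
      (Equiv.Perm.sign π : ℤ) • mf A x (FreeMonoid.map (Sum.map id π) w) := by
    funext v
    rw [Finset.sum_apply]
    refine Finset.sum_congr rfl fun π _ => ?_
    rw [mf_perm]
    rfl
  rw [h1]
  refine Submodule.sum_mem _ fun π _ => ?_
  refine zsmul_mem ?_ _
  exact Submodule.subset_span ⟨_, yml_perm hw π, rfl⟩

theorem altY_add (m m' : (YT n b g → A.carrier) → U A) : AltY (m + m') = AltY m + AltY m' := by
  funext v
  simp only [AltY, Pi.add_apply, smul_add, Finset.sum_add_distrib]

theorem altY_smul (c : F) (m : (YT n b g → A.carrier) → U A) : AltY (c • m) = c • AltY m := by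
  funext v
  simp only [AltY, Pi.smul_apply, Finset.smul_sum]
  exact Finset.sum_congr rfl fun π _ => smul_comm _ _ _

theorem altY_zero : AltY (0 : (YT n b g → A.carrier) → U A) = 0 := by
  funext v
  simp only [AltY, Pi.zero_apply, smul_zero, Finset.sum_const_zero]

theorem eq_zero_of_altY [CharZero F] {m : (YT n b g → A.carrier) → U A}
    (ha : AltF (yc : YT n b g → Option (Fin n ⊕ Fin g)) m) (h : AltY m = 0) : m = 0 := by
  classical
  funext v
  have h1 := congrFun h v
  unfold AltY at h1
  have h2 : ∀ π ∈ Finset.univ.filter (fun π : Equiv.Perm (YT n b g) =>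
      π ∈ colG (yc : YT n b g → Option (Fin n ⊕ Fin g))),
      (Equiv.Perm.sign π : ℤ) • m (fun y => v (π y)) = m v := by
    intro π hπ
    rw [Finset.mem_filter] at hπ
    rw [ha π hπ.2 v, smul_smul, ← Units.val_mul, Int.units_mul_self, Units.val_one, one_smul]
  rw [Finset.sum_congr rfl h2, Finset.sum_const, ← Nat.cast_smul_eq_nsmul F] at h1
  have h3 : ((Finset.univ.filter (fun π : Equiv.Perm (YT n b g) =>
      π ∈ colG (yc : YT n b g → Option (Fin n ⊕ Fin g)))).card : F) ≠ 0 := by
    rw [Nat.cast_ne_zero]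
    apply Finset.card_ne_zero_of_mem (a := 1)
    rw [Finset.mem_filter]
    exact ⟨Finset.mem_univ _, (colG yc).one_mem⟩
  have h4 : ((Finset.univ.filter (fun π : Equiv.Perm (YT n b g) =>
      π ∈ colG (yc : YT n b g → Option (Fin n ⊕ Fin g)))).card : F) • m v = 0 := h1
  have h5 := congrArg (fun r => (((Finset.univ.filter (fun π : Equiv.Perm (YT n b g) =>
      π ∈ colG (yc : YT n b g → Option (Fin n ⊕ Fin g)))).card : F))⁻¹ • r) h4
  simp only [smul_smul, inv_mul_cancel₀ h3, one_smul, smul_zero] at h5
  exact h5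

end alt

/-! ### The pairing on polynomials with coefficients in `F` -/

section emb

variable {A : AssocAlg F} {X : Type} {x : X → A.carrier} {n b g l : ℕ}

/-- Extension of scalars. -/
noncomputable def emb (F : Type u) [Field F] (X : Type) (n b g l : ℕ) :
    FA F (X ⊕ YT n b g) →ₐ[F] BFA F X n b g l :=
  MonoidAlgebra.lift F (BFA F X n b g l) (FreeMonoid (X ⊕ YT n b g))
    (MonoidAlgebra.of (BC F X b l) (FreeMonoid (X ⊕ YT n b g)))

theorem emb_mon (w : FreeMonoid (X ⊕ YT n b g)) :
    emb F X n b g l (mon F w) = MonoidAlgebra.single w 1 := by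
  rw [emb, mon, MonoidAlgebra.lift_single, one_smul]
  rfl

theorem Phi_zero (α : BAct A x n b g l) : Phi α 0 = 0 := by
  simp [Phi]

theorem Phi_smulF (α : BAct A x n b g l) (c : F) (p : BFA F X n b g l) :
    Phi α (c • p) = c • Phi α p := by
  rw [← algebraMap_smul (BC F X b l) c p, Phi_smul, AlgHom.commutes]
  rfl

/-- The polynomials all of whose words contain every variable of `Y` exactly once. -/
noncomputable def YM (F : Type u) [Field F] (X : Type) (n b g : ℕ) :
    Submodule F (FA F (X ⊕ YT n b g)) :=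
  Submodule.span F {p | ∃ w, Yml w ∧ p = mon F w}

theorem Phi_emb (α : BAct A x n b g l) {q : FA F (X ⊕ YT n b g)} (hq : q ∈ YM F X n b g) :
    ((Phi α (emb F X n b g l q) : MM A x n b g) : (YT n b g → A.carrier) → U A) =
      AltY fun v => ev A (Sum.elim x v) q := by
  induction hq using Submodule.span_induction with
  | mem q hq =>
    obtain ⟨w, hw, rfl⟩ := hq
    rw [emb_mon, Phi_single, map_one, Module.End.one_apply, PhiW, dif_pos ⟨hw, alty_mem x hw⟩]
    rfl
  | zero =>
    rw [map_zero, Phi_zero]
    have : (fun v : YT n b g → A.carrier => ev A (Sum.elim x v) (0 : FA F (X ⊕ YT n b g))) = 0 := by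
      funext v; rw [map_zero]; rfl
    rw [this, altY_zero]
    rfl
  | add q q' _ _ h h' =>
    rw [map_add, Phi_add, Submodule.coe_add, h, h', ← altY_add]
    congr 1
    funext v
    rw [Pi.add_apply, map_add]
  | smul c q _ h =>
    rw [map_smul, Phi_smulF, Submodule.coe_smul, h, ← altY_smul]
    congr 1
    funext v
    rw [Pi.smul_apply, map_smul]

theorem Phi_emb_not (α : BAct A x n b g l) {q : FA F (X ⊕ YT n b g)}
    (hq : q ∈ Submodule.span F {p | ∃ w, ¬ Yml w ∧ p = mon F w}) :
    Phi α (emb F X n b g l q) = 0 := by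
  induction hq using Submodule.span_induction with
  | mem q hq =>
    obtain ⟨w, hw, rfl⟩ := hq
    rw [emb_mon, Phi_single, map_one, Module.End.one_apply, PhiW, dif_neg fun h => hw h.1]
  | zero => rw [map_zero, Phi_zero]
  | add q q' _ _ h h' => rw [map_add, Phi_add, h, h', add_zero]
  | smul c q _ h => rw [map_smul, Phi_smulF, h, smul_zero]

/-! ### The algebras `BQ` and `BH` over `F` -/

noncomputable instance BQ.algF (α : BAct A x n b g l) : Algebra F (BQ α) :=
  Algebra.compHom (BQ α) (algebraMap F (BC F X b l))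

/-- The quotient map, over `F`. -/
noncomputable def mkF (α : BAct A x n b g l) : BFA F X n b g l →ₐ[F] BQ α :=
  { BQ.mk α with
    commutes' := by
      intro r
      change BQ.mk α (algebraMap F (BFA F X n b g l) r) =
        BQ.mk α (algebraMap (BC F X b l) (BFA F X n b g l) (algebraMap F (BC F X b l) r))
      rw [← IsScalarTower.algebraMap_apply] }

theorem mkF_apply (α : BAct A x n b g l) (p : BFA F X n b g l) : mkF α p = BQ.mk α p := rfl

/-- The inclusion of `BH` in `BQ`. -/
noncomputable def iot (α : BAct A x n b g l) : (BH α).carrier →ₙₐ[F] BQ α where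
  toFun p := BH.val α p
  map_smul' _ _ := rfl
  map_zero' := rfl
  map_add' _ _ := rfl
  map_mul' _ _ := rfl

theorem iot_injective (α : BAct A x n b g l) : Function.Injective (iot α) :=
  Subtype.val_injective

/-- The extension to the unital hull. -/
noncomputable def The (α : BAct A x n b g l) : U (BH α) →ₐ[F] BQ α := (iot α).toAlgHom

theorem The_inc (α : BAct A x n b g l) (a : (BH α).carrier) : The α (inc (BH α) a) = iot α a := by
  change algebraMap F (BQ α) (inc (BH α) a).fst + iot α (inc (BH α) a).snd = iot α a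
  have h1 : (inc (BH α) a).fst = 0 := rfl
  have h2 : (inc (BH α) a).snd = a := rfl
  rw [h1, h2, map_zero, zero_add]

theorem The_ev (α : BAct A x n b g l) {Z : Type} (V : Z → (BH α).carrier) (p : FA F Z) :
    The α (ev (BH α) V p) = lft (fun z => iot α (V z)) p := by
  rw [ev_eq_lft, hom_lft]
  congr 1
  congr 1
  funext z
  exact The_inc α (V z)

/-- The values of polynomials in the letters. -/
theorem mk_sbst (α : BAct A x n b g l) {Z : Type} (V : Z → (BH α).carrier)
    (s : Z → FA F (X ⊕ YT n b g)) (h : ∀ z, iot α (V z) = mkF α (emb F X n b g l (s z)))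
    (p : FA F Z) : The α (ev (BH α) V p) = mkF α (emb F X n b g l (sbst s p)) := by
  rw [The_ev]
  have h1 := hom_sbst ((mkF α).comp (emb F X n b g l)) s p
  rw [AlgHom.comp_apply] at h1
  rw [h1]
  congr 1
  congr 1
  funext z
  exact h z

/-- The values of polynomials without constant term in the letters are in `BH`. -/
theorem exists_iot (α : BAct A x n b g l) {r : FA F (X ⊕ YT n b g)}
    (hr : r ∈ FA0 F (X ⊕ YT n b g)) : ∃ V : (BH α).carrier, iot α V = mkF α (emb F X n b g l r) := by
  induction hr using Submodule.span_induction with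
  | mem q hq =>
    obtain ⟨w, hw, rfl⟩ := hq
    induction w using FreeMonoid.recOn with
    | one => exact absurd rfl hw
    | of_mul z w ih =>
      have h1 : ∃ V : (BH α).carrier, iot α V = mkF α (emb F X n b g l (mon F (FreeMonoid.of z))) := by
        refine ⟨⟨bw α (FreeMonoid.of z), NonUnitalAlgebra.subset_adjoin _ ⟨z, rfl⟩⟩, ?_⟩
        rw [emb_mon]
        rfl
      by_cases hw1 : w = 1
      · subst hw1
        rw [mul_one]
        exact h1
      · obtain ⟨V, hV⟩ := h1
        obtain ⟨V', hV'⟩ := ih hw1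
        refine ⟨V * V', ?_⟩
        rw [map_mul, mon_mul, map_mul, map_mul, hV, hV']
  | zero => exact ⟨0, by rw [map_zero, map_zero, map_zero]⟩
  | add q q' _ _ h h' =>
    obtain ⟨V, hV⟩ := h
    obtain ⟨V', hV'⟩ := h'
    exact ⟨V + V', by rw [map_add, map_add, map_add, hV, hV']⟩
  | smul c q _ h =>
    obtain ⟨V, hV⟩ := h
    exact ⟨c • V, by rw [map_smul, map_smul, map_smul, hV]⟩

/-- Every element of `BH` is in the span of the nonempty words. -/
theorem bh_span (α : BAct A x n b g l) (a : (BH α).carrier) :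
    (a : BT α) ∈ Submodule.span (BC F X b l)
      {s : BT α | ∃ w : FreeMonoid (X ⊕ YT n b g), w ≠ 1 ∧ Subtype.val s = bw α w} := by
  obtain ⟨a, ha⟩ := a
  induction ha using NonUnitalAlgebra.adjoin_induction with
  | mem a ha =>
    obtain ⟨z, rfl⟩ := ha
    exact Submodule.subset_span ⟨FreeMonoid.of z, FreeMonoid.of_ne_one z, rfl⟩
  | add a a' ha' hb' ha hb => exact Submodule.add_mem _ ha hb
  | zero => exact Submodule.zero_mem _
  | mul a a' ha' hb' ha hb =>
    have key : ∀ s t : BT α, s ∈ Submodule.span (BC F X b l)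
        {s : BT α | ∃ w : FreeMonoid (X ⊕ YT n b g), w ≠ 1 ∧ Subtype.val s = bw α w} →
        t ∈ Submodule.span (BC F X b l)
        {s : BT α | ∃ w : FreeMonoid (X ⊕ YT n b g), w ≠ 1 ∧ Subtype.val s = bw α w} →
        s * t ∈ Submodule.span (BC F X b l)
        {s : BT α | ∃ w : FreeMonoid (X ⊕ YT n b g), w ≠ 1 ∧ Subtype.val s = bw α w} := by
      intro s t hs ht
      induction hs using Submodule.span_induction with
      | mem s hs =>
        obtain ⟨w, hw, hs⟩ := hs
        induction ht using Submodule.span_induction with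
        | mem t ht =>
          obtain ⟨w', hw', ht⟩ := ht
          refine Submodule.subset_span ⟨w * w', ?_, ?_⟩
          · intro h
            have h2 : FreeMonoid.toList (w * w') = [] := by rw [h]; rfl
            rw [FreeMonoid.toList_mul, List.append_eq_nil_iff] at h2
            exact hw h2.1
          · have h3 : Subtype.val (s * t) = Subtype.val s * Subtype.val t := rfl
            rw [h3, hs, ht, bw, bw, bw, ← map_mul, MonoidAlgebra.single_mul_single, mul_one]
        | zero => rw [mul_zero]; exact Submodule.zero_mem _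
        | add x y _ _ hx hy => rw [mul_add]; exact Submodule.add_mem _ hx hy
        | smul a x _ hx => rw [BT.mul_smul]; exact Submodule.smul_mem _ _ hx
      | zero => rw [zero_mul]; exact Submodule.zero_mem _
      | add x y _ _ hx hy => rw [add_mul]; exact Submodule.add_mem _ hx hy
      | smul a x _ hx => rw [BT.smul_mul]; exact Submodule.smul_mem _ _ hx
    exact key _ _ ha hb
  | smul c a ha' ha => exact Submodule.smul_mem _ _ ha

/-! ### `BH` satisfies the identities of `A` -/

theorem toList_lift {Z Z' : Type} (u : Z → FreeMonoid Z') (w : FreeMonoid Z) :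
    FreeMonoid.toList (FreeMonoid.lift u w) =
      (FreeMonoid.toList w).flatMap fun z => FreeMonoid.toList (u z) := by
  induction w using FreeMonoid.recOn with
  | one => rfl
  | of_mul z w ih =>
    rw [map_mul, FreeMonoid.lift_eval_of, FreeMonoid.toList_mul, ih, FreeMonoid.toList_mul,
      FreeMonoid.toList_of]
    rfl

theorem mlw_perm {Z : Type} {w w' : FreeMonoid Z} (h : MLW w) (h' : MLW w') :
    (FreeMonoid.toList w).Perm (FreeMonoid.toList w') :=
  (List.perm_ext_iff_of_nodup h.2.1 h'.2.1).2 fun z => by simp [h.2.2 z, h'.2.2 z]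

theorem span_sbst {Z : Type} {p : FA F Z} (hp : p ∈ ML F Z)
    (u : Z → FreeMonoid (X ⊕ YT n b g)) (a d : FreeMonoid (X ⊕ YT n b g))
    (S : Set (FA F (X ⊕ YT n b g)))
    (hS : ∀ w, MLW w → mon F (a * FreeMonoid.lift u w * d) ∈ S) :
    mon F a * sbst (fun z => mon F (u z)) p * mon F d ∈ Submodule.span F S := by
  induction hp using Submodule.span_induction with
  | mem q hq =>
    obtain ⟨w, hw, rfl⟩ := hq
    rw [sbst_mon', ← mon_mul, ← mon_mul]
    exact Submodule.subset_span (hS w hw)
  | zero => rw [map_zero, mul_zero, zero_mul]; exact Submodule.zero_mem _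
  | add q q' _ _ h h' =>
    rw [map_add, mul_add, add_mul]; exact Submodule.add_mem _ h h'
  | smul c q _ h =>
    rw [map_smul, mul_smul_comm, smul_mul_assoc]; exact Submodule.smul_mem _ _ h

/-- The pairing vanishes on substitutions in identities. -/
theorem Phi_idle (α : BAct A x n b g l) {Z : Type} {p : FA F Z} (hp : p ∈ ML F Z)
    (hA : Sat A p) (u : Z → FreeMonoid (X ⊕ YT n b g)) (hu : ∀ z, u z ≠ 1)
    (a d : FreeMonoid (X ⊕ YT n b g)) :
    Phi α (emb F X n b g l (mon F a * sbst (fun z => mon F (u z)) p * mon F d)) = 0 := by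
  by_cases hw0 : ∃ w : FreeMonoid Z, MLW w
  · obtain ⟨w0, hw0⟩ := hw0
    have hperm : ∀ w, MLW w →
        (FreeMonoid.toList (a * FreeMonoid.lift u w0 * d)).Perm
          (FreeMonoid.toList (a * FreeMonoid.lift u w * d)) := by
      intro w hw
      rw [FreeMonoid.toList_mul, FreeMonoid.toList_mul, FreeMonoid.toList_mul,
        FreeMonoid.toList_mul, toList_lift, toList_lift]
      exact ((List.Perm.flatMap_right _ (mlw_perm hw0 hw)).append_left _).append_right _
    by_cases hy : Yml (a * FreeMonoid.lift u w0 * d)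
    · have h1 : mon F a * sbst (fun z => mon F (u z)) p * mon F d ∈ YM F X n b g :=
        span_sbst hp u a d _ fun w hw => ⟨_, yml_congr (hperm w hw) hy, rfl⟩
      apply Subtype.ext
      rw [Phi_emb α h1]
      have h2 : (fun v : YT n b g → A.carrier => ev A (Sum.elim x v)
          (mon F a * sbst (fun z => mon F (u z)) p * mon F d)) = 0 := by
        funext v
        rw [map_mul, map_mul, ev_sbst A _ _ (fun z => mon_mem_FA0 (hu z)), hA, mul_zero, zero_mul]
        rfl
      rw [h2, altY_zero]
      rfl
    · refine Phi_emb_not α (span_sbst hp u a d _ fun w hw => ⟨_, fun h => hy ?_, rfl⟩)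
      exact yml_congr (hperm w hw).symm h
  · have : p = 0 := by
      have h1 : {p : FA F Z | ∃ w, MLW w ∧ p = mon F w} = ∅ := by
        ext q
        constructor
        · rintro ⟨w, hw, -⟩
          exact (hw0 ⟨w, hw⟩).elim
        · intro h; exact h.elim
      rw [ML, h1, Submodule.span_empty, Submodule.mem_bot] at hp
      exact hp
    rw [this, map_zero, mul_zero, zero_mul, map_zero, Phi_zero]

theorem mkF_eq_zero (α : BAct A x n b g l) {q : FA F (X ⊕ YT n b g)}
    (h : ∀ a d : FreeMonoid (X ⊕ YT n b g), Phi α (emb F X n b g l (mon F a * q * mon F d)) = 0) :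
    mkF α (emb F X n b g l q) = 0 := by
  rw [mkF_apply, ← map_zero (BQ.mk α), BQ.mk_eq_iff]
  intro s t
  rw [mul_zero, zero_mul, Phi_zero]
  induction s using MonoidAlgebra.induction_linear with
  | zero => rw [zero_mul, zero_mul, Phi_zero]
  | add s s' hs hs' => rw [add_mul, add_mul, Phi_add, hs, hs', add_zero]
  | single a c =>
    induction t using MonoidAlgebra.induction_linear with
    | zero => rw [mul_zero, Phi_zero]
    | add t t' ht ht' => rw [mul_add, Phi_add, ht, ht', add_zero]
    | single d c' =>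
      have h1 : (MonoidAlgebra.single a c : BFA F X n b g l) = c • emb F X n b g l (mon F a) := by
        rw [emb_mon, MonoidAlgebra.smul_single, smul_eq_mul, mul_one]
      have h2 : (MonoidAlgebra.single d c' : BFA F X n b g l) = c' • emb F X n b g l (mon F d) := by
        rw [emb_mon, MonoidAlgebra.smul_single, smul_eq_mul, mul_one]
      rw [h1, h2, smul_mul_assoc, smul_mul_assoc, mul_smul_comm, Phi_smul, Phi_smul, ← map_mul,
        ← map_mul, h, map_zero, map_zero]

theorem Phi_eq_zero (α : BAct A x n b g l) {q : FA F (X ⊕ YT n b g)}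
    (h : mkF α (emb F X n b g l q) = 0) : Phi α (emb F X n b g l q) = 0 := by
  rw [mkF_apply, ← map_zero (BQ.mk α), BQ.mk_eq_iff] at h
  have := h 1 1
  rwa [one_mul, mul_one, mul_zero, zero_mul, Phi_zero] at this

noncomputable instance bhModC (α : BAct A x n b g l) : Module (BC F X b l) (BH α).carrier :=
  BT.moduleC α

instance bhTower (α : BAct A x n b g l) : IsScalarTower F (BC F X b l) (BH α).carrier :=
  ⟨fun r c a => by
    change (r • c) • (a : BT α) = (algebraMap F (BC F X b l) r) • c • (a : BT α)
    rw [smul_smul, Algebra.smul_def]⟩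

instance bhTower' (α : BAct A x n b g l) :
    IsScalarTower (BC F X b l) (BH α).carrier (BH α).carrier :=
  ⟨fun c a a' => BT.smul_mul α c a a'⟩

instance bhComm (α : BAct A x n b g l) :
    SMulCommClass (BC F X b l) (BH α).carrier (BH α).carrier :=
  ⟨fun c a a' => (BT.mul_smul α c a a').symm⟩

theorem bh_idle (α : BAct A x n b g l) {Z : Type} [Finite Z] {p : FA F Z} (hp : p ∈ ML F Z)
    (hA : Sat A p) : Sat (BH α) p := by
  intro V
  rw [ev_FA0 (BH α) V (ML_le_FA0 Z hp)]
  have h1 : evs (BH α) V p = 0 := by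
    refine ml_expand' (C := BC F X b l) (LinearMap.id) hp
      (fun _ => {s : (BH α).carrier | ∃ w : FreeMonoid (X ⊕ YT n b g), w ≠ 1 ∧
        iot α s = bw α w}) ?_ V (fun z => bh_span α (V z))
    intro V hV
    choose u hu hu' using hV
    rw [LinearMap.id_apply]
    apply iot_injective α
    rw [map_zero, ← The_inc, ← ev_FA0 (BH α) V (ML_le_FA0 Z hp),
      mk_sbst α V (fun z => mon F (u z)) (fun z => by rw [hu', emb_mon]; rfl)]
    exact mkF_eq_zero α fun a d => Phi_idle α hp hA u hu a d
  rw [h1, inc_zero]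

end emb

end BhH

open BhH

variable {A : AssocAlg F} {X : Type} {x : X → A.carrier} {n b g l : ℕ}

theorem alty_mem {A : AssocAlg F} {X : Type} (x : X → A.carrier) {n b g : ℕ}
    {w : FreeMonoid (X ⊕ YT n b g)} (hw : Yml w) : AltY (mf A x w) ∈ MM A x n b g :=
  BhH.alty_mem x hw

theorem bh_idle (α : BAct A x n b g l) : IdLe A (BH α) := by
  intro Z p hp hA
  rcases finite_or_infinite Z with hZ | hZ
  · exact BhH.bh_idle α hp hA
  · have : p = 0 := by
      have h1 : {p : FA F Z | ∃ w, MLW w ∧ p = mon F w} = ∅ := by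
        ext q
        constructor
        · rintro ⟨w, hw, -⟩
          classical
          have h1 : (Set.univ : Set Z) ⊆ ↑(FreeMonoid.toList w).toFinset := by
            intro z _
            simp [hw.2.2 z]
          have := Set.finite_univ_iff.1 ((Finset.finite_toSet _).subset h1)
          exact not_finite Z
        · intro h; exact h.elim
      rw [ML, h1, Submodule.span_empty, Submodule.mem_bot] at hp
      exact hp
    rw [this]
    exact Sat.zero

end Pool.Agent.KEM
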