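import Pool.Agent.KEM.Bh1

/-!
# Row Bh1, second part: typed identities of the algebra `BH`
-/

universe u

namespace Pool.Agent.KEM

open Pool.Agent.Helper29

variable {F : Type u} [Field F]

namespace BhH

variable {A : AssocAlg F} {X : Type} {x : X → A.carrier} {n b g l : ℕ}

/-- The coloured variables are in bijection with `YT n b g`. -/
theorem exists_color {Z : Type} [Finite Z] {c : Z → Option (Fin n ⊕ Fin g)}
    (hc : Sizes n b g c) : ∃ f : YT n b g → Z, Function.Injective f ∧ (∀ y, c (f y) = yc y) ∧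
      ∀ z, c z ≠ none → z ∈ Set.range f := by
  have e1 : ∀ i, Nonempty ({z // c z = some (Sum.inl i)} ≃ Fin b) := fun i =>
    ⟨Finite.equivFinOfCardEq (hc.small i)⟩
  have e2 : ∀ j, Nonempty ({z // c z = some (Sum.inr j)} ≃ Fin (b + 1)) := fun j =>
    ⟨Finite.equivFinOfCardEq (hc.big j)⟩
  let ε₁ := fun i => (e1 i).some
  let ε₂ := fun j => (e2 j).some
  let f : YT n b g → Z := Sum.elim (fun q => ((ε₁ q.1).symm q.2).1) fun q => ((ε₂ q.1).symm q.2).1
  have hf : ∀ y, c (f y) = yc y := by
    rintro (⟨i, k⟩ | ⟨j, k⟩)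
    · exact ((ε₁ i).symm k).2
    · exact ((ε₂ j).symm k).2
  refine ⟨f, ?_, hf, ?_⟩
  · intro y y' h
    have h1 : (yc y : Option (Fin n ⊕ Fin g)) = yc y' := by rw [← hf, ← hf, h]
    rcases y with ⟨i, k⟩ | ⟨j, k⟩ <;> rcases y' with ⟨i', k'⟩ | ⟨j', k'⟩
    · have h2 : i = i' := by simpa [yc] using h1
      subst h2
      have h3 : (ε₁ i).symm k = (ε₁ i).symm k' := Subtype.ext h
      rw [(ε₁ i).symm.injective h3]
    · simp [yc] at h1
    · simp [yc] at h1
    · have h2 : j = j' := by simpa [yc] using h1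
      subst h2
      have h3 : (ε₂ j).symm k = (ε₂ j).symm k' := Subtype.ext h
      rw [(ε₂ j).symm.injective h3]
  · intro z hz
    rcases h : c z with _ | (i | j)
    · exact absurd h hz
    · refine ⟨Sum.inl (i, ε₁ i ⟨z, h⟩), ?_⟩
      change ((ε₁ i).symm (ε₁ i ⟨z, h⟩)).1 = z
      rw [Equiv.symm_apply_apply]
    · refine ⟨Sum.inr (j, ε₂ j ⟨z, h⟩), ?_⟩
      change ((ε₂ j).symm (ε₂ j ⟨z, h⟩)).1 = z
      rw [Equiv.symm_apply_apply]

open Classical in
/-- The substitution: coloured variables go to the letters of `YT n b g`, the other variables to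
words in `X`. -/
noncomputable def usub {Z : Type} (f : YT n b g → Z) (u : Z → FreeMonoid X) (z : Z) :
    FreeMonoid (X ⊕ YT n b g) :=
  if h : ∃ y, f y = z then FreeMonoid.of (Sum.inr h.choose) else FreeMonoid.map Sum.inl (u z)

theorem usub_apply {Z : Type} {f : YT n b g → Z} (hf : Function.Injective f)
    (u : Z → FreeMonoid X) (y : YT n b g) : usub f u (f y) = FreeMonoid.of (Sum.inr y) := by
  have h : ∃ y', f y' = f y := ⟨y, rfl⟩
  rw [usub, dif_pos h]
  congr 2
  exact hf h.choose_spec

theorem usub_not {Z : Type} {f : YT n b g → Z} (u : Z → FreeMonoid X) {z : Z}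
    (h : z ∉ Set.range f) : usub f u z = FreeMonoid.map Sum.inl (u z) := by
  rw [usub, dif_neg]
  exact h

theorem usub_ne_one {Z : Type} {f : YT n b g → Z} (hf : Function.Injective f)
    {u : Z → FreeMonoid X} (hu : ∀ z, u z ≠ 1) (z : Z) : usub f u z ≠ 1 := by
  by_cases h : z ∈ Set.range f
  · obtain ⟨y, rfl⟩ := h
    rw [usub_apply hf]
    exact FreeMonoid.of_ne_one _
  · rw [usub_not u h]
    intro h1
    apply hu z
    have h2 : FreeMonoid.toList (FreeMonoid.map (Sum.inl : X → X ⊕ YT n b g) (u z)) = [] := by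
      rw [h1]; rfl
    rw [FreeMonoid.toList_map, List.map_eq_nil_iff] at h2
    exact h2

/-- The list of the letters of `YT n b g` in a word. -/
def ylist {Y : Type} (w : FreeMonoid (X ⊕ Y)) : List Y :=
  (FreeMonoid.toList w).filterMap (fun s => Sum.elim (fun _ => none) some s)

theorem ylist_mul {Y : Type} (w w' : FreeMonoid (X ⊕ Y)) :
    ylist (w * w') = ylist w ++ ylist w' := by
  rw [ylist, FreeMonoid.toList_mul, List.filterMap_append]
  rfl

theorem ylist_inl {Y : Type} (w : FreeMonoid X) :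
    ylist (FreeMonoid.map (Sum.inl : X → X ⊕ Y) w) = [] := by
  rw [ylist, FreeMonoid.toList_map, List.filterMap_map, List.filterMap_eq_nil_iff]
  intro a _
  rfl

theorem ylist_usub {Z : Type} {f : YT n b g → Z} (hf : Function.Injective f)
    (u : Z → FreeMonoid X) (y : YT n b g) : ylist (usub f u (f y)) = [y] := by
  rw [usub_apply hf, ylist, FreeMonoid.toList_of]
  rfl

theorem ylist_usub_not {Z : Type} {f : YT n b g → Z} (u : Z → FreeMonoid X) {z : Z}
    (h : z ∉ Set.range f) : ylist (usub f u z) = [] := by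
  rw [usub_not u h, ylist_inl]

theorem yml_usub {Z : Type} {f : YT n b g → Z} (hf : Function.Injective f)
    (u : Z → FreeMonoid X) {w : FreeMonoid Z} (hw : MLW w) : Yml (FreeMonoid.lift (usub f u) w) := by
  rw [yml_iff, toList_lift, List.filterMap_flatMap]
  change (∀ y, y ∈ (FreeMonoid.toList w).flatMap fun z => ylist (usub f u z)) ∧
    ((FreeMonoid.toList w).flatMap fun z => ylist (usub f u z)).Nodup
  constructor
  · intro y
    rw [List.mem_flatMap]
    exact ⟨f y, hw.2.2 _, by rw [ylist_usub hf]; simp⟩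
  · rw [List.nodup_flatMap]
    constructor
    · intro z _
      by_cases h : z ∈ Set.range f
      · obtain ⟨y, rfl⟩ := h
        rw [ylist_usub hf]; simp
      · rw [ylist_usub_not u h]; simp
    · refine List.Pairwise.imp ?_ hw.2.1
      intro z z' hz
      change List.Disjoint (ylist (usub f u z)) (ylist (usub f u z'))
      by_cases h : z ∈ Set.range f
      · by_cases h' : z' ∈ Set.range f
        · obtain ⟨y, rfl⟩ := h
          obtain ⟨y', rfl⟩ := h'
          rw [ylist_usub hf, ylist_usub hf]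
          simp only [List.disjoint_singleton, List.mem_singleton]
          rintro rfl
          exact hz rfl
        · rw [ylist_usub_not u h']; simp
      · rw [ylist_usub_not u h]; simp

theorem mem_YM {Z : Type} {f : YT n b g → Z} (hf : Function.Injective f)
    (u : Z → FreeMonoid X) {p : FA F Z} (hp : p ∈ ML F Z) (K : FA F X) :
    sbst (fun z => mon F (usub f u z)) p * ren (Sum.inl : X → X ⊕ YT n b g) K ∈ YM F X n b g := by
  induction hp using Submodule.span_induction with
  | mem q hq =>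
    obtain ⟨w, hw, rfl⟩ := hq
    rw [sbst_mon']
    induction K using FA_induction with
    | h0 => rw [map_zero, mul_zero]; exact Submodule.zero_mem _
    | ha p q hp hq => rw [map_add, mul_add]; exact Submodule.add_mem _ hp hq
    | hs c k =>
      rw [map_smul, ren_mon, mul_smul_comm, ← mon_mul]
      refine Submodule.smul_mem _ _ (Submodule.subset_span ⟨_, ?_, rfl⟩)
      have h1 := yml_usub hf u hw
      rw [yml_iff] at h1 ⊢
      change (∀ y, y ∈ ylist _) ∧ (ylist _).Nodup
      rw [ylist_mul, ylist_inl, List.append_nil]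
      exact h1
  | zero => rw [map_zero, zero_mul]; exact Submodule.zero_mem _
  | add q q' _ _ h h' => rw [map_add, add_mul]; exact Submodule.add_mem _ h h'
  | smul c q _ h => rw [map_smul, smul_mul_assoc]; exact Submodule.smul_mem _ _ h

/-- The main lemma: a typed polynomial, times a polynomial in the generators. -/
theorem typed_zero [CharZero F] (α : BAct A x n b g l) {Z : Type} [Fintype Z] [DecidableEq Z]
    {p : FA F Z} {c : Z → Option (Fin n ⊕ Fin g)} (hp : p ∈ ML F Z) (ht : Typed p n b g c)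
    {f : YT n b g → Z} (hf : Function.Injective f) (hfc : ∀ y, c (f y) = yc y)
    (u : Z → FreeMonoid X) (hu : ∀ z, u z ≠ 1) (K : FA F X)
    (h : mkF α (emb F X n b g l (sbst (fun z => mon F (usub f u z)) p *
      ren (Sum.inl : X → X ⊕ YT n b g) K)) = 0) (v0 : Z → A.carrier)
    (hv0 : ∀ z, z ∉ Set.range f → v0 z = evs A x (mon F (u z))) :
    ev A v0 p * ev A x K = 0 := by
  have hs : ∀ z, mon F (usub f u z) ∈ FA0 F (X ⊕ YT n b g) := fun z =>
    mon_mem_FA0 (usub_ne_one hf hu z)
  have h1 := Phi_emb α (mem_YM hf u hp K)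
  rw [Phi_eq_zero α h] at h1
  have v1 : ∀ (v : YT n b g → A.carrier) y,
      evs A (Sum.elim x v) (mon F (usub f u (f y))) = v y := by
    intro v y
    apply inc_injective A
    rw [← ev_FA0 A _ (hs _), usub_apply hf, ev_of]
    rfl
  have v2 : ∀ (v : YT n b g → A.carrier) z, z ∉ Set.range f →
      evs A (Sum.elim x v) (mon F (usub f u z)) = evs A x (mon F (u z)) := by
    intro v z hz
    apply inc_injective A
    rw [← ev_FA0 A _ (hs _), ← ev_FA0 A _ (mon_mem_FA0 (hu z)), usub_not u hz, ← ren_mon, ev_ren]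
    rfl
  have hm : ∀ v : YT n b g → A.carrier, ev A (Sum.elim x v)
      (sbst (fun z => mon F (usub f u z)) p * ren (Sum.inl : X → X ⊕ YT n b g) K) =
      ev A (fun z => evs A (Sum.elim x v) (mon F (usub f u z))) p * ev A x K := by
    intro v
    rw [map_mul, ev_sbst A _ _ hs, ev_ren]
    rfl
  have halt : AltF (yc : YT n b g → Option (Fin n ⊕ Fin g)) (fun v : YT n b g → A.carrier =>
      ev A (Sum.elim x v)
      (sbst (fun z => mon F (usub f u z)) p * ren (Sum.inl : X → X ⊕ YT n b g) K)) := by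
    intro π hπ v
    change ev A (Sum.elim x fun y => v (π y)) _ = (Equiv.Perm.sign π : ℤ) • ev A (Sum.elim x v) _
    rw [hm, hm]
    set π' : Equiv.Perm Z := π.viaFintypeEmbedding ⟨f, hf⟩ with hπ'
    have e1 : ∀ y, π' (f y) = f (π y) := fun y =>
      Equiv.Perm.viaFintypeEmbedding_apply_image π ⟨f, hf⟩ y
    have e2 : ∀ z, z ∉ Set.range f → π' z = z := fun z hz =>
      Equiv.Perm.viaFintypeEmbedding_apply_notMem_range π ⟨f, hf⟩ hz
    have e3 : π' ∈ colG c := by
      constructor
      · intro z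
        by_cases hz : z ∈ Set.range f
        · obtain ⟨y, rfl⟩ := hz
          rw [e1, hfc, hfc, hπ.1]
        · rw [e2 z hz]
      · intro z hz
        apply e2
        rintro ⟨y, rfl⟩
        rw [hfc] at hz
        rcases y with y | y <;> simp [yc] at hz
    have e4 : Equiv.Perm.sign π' = Equiv.Perm.sign π :=
      Equiv.Perm.viaFintypeEmbedding_sign π ⟨f, hf⟩
    have e5 : (fun z => evs A (Sum.elim x fun y => v (π y)) (mon F (usub f u z))) =
        fun z => (fun z => evs A (Sum.elim x v) (mon F (usub f u z))) (π' z) := by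
      funext z
      by_cases hz : z ∈ Set.range f
      · obtain ⟨y, rfl⟩ := hz
        rw [v1]
        change _ = evs A (Sum.elim x v) (mon F (usub f u (π' (f y))))
        rw [e1, v1]
      · rw [v2 _ _ hz]
        change _ = evs A (Sum.elim x v) (mon F (usub f u (π' z)))
        rw [e2 z hz, v2 _ _ hz]
    rw [e5, ← ev_ren A π' (fun z => evs A (Sum.elim x v) (mon F (usub f u z))) p,
      ht.alt π' e3, map_zsmul, e4, smul_mul_assoc]
  have h2 := eq_zero_of_altY halt h1.symm
  have h3 := congrFun h2 fun y => v0 (f y)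
  change ev A _ _ = 0 at h3
  rw [hm] at h3
  have h4 : (fun z => evs A (Sum.elim x fun y => v0 (f y)) (mon F (usub f u z))) = v0 := by
    funext z
    by_cases hz : z ∈ Set.range f
    · obtain ⟨y, rfl⟩ := hz
      rw [v1]
    · rw [v2 _ _ hz, hv0 z hz]
  rwa [h4] at h3

/-- The multilinear expansion in the uncoloured variables. -/
theorem expand_zero [CharZero F] (hx : Gen A x) {Z : Type} [Fintype Z]
    {p : FA F Z} (hp : p ∈ ML F Z) (f : YT n b g → Z) (k : U A)
    (h : ∀ u : Z → FreeMonoid X, (∀ z, u z ≠ 1) → ∀ v0 : Z → A.carrier,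
      (∀ z, z ∉ Set.range f → v0 z = evs A x (mon F (u z))) → ev A v0 p * k = 0)
    (hX : ∃ w : FreeMonoid X, w ≠ 1)
    (v : Z → A.carrier) : ev A v p * k = 0 := by
  classical
  have h0 : ∀ a : A.carrier, inc A a * k = inc A (ctx A 1 k a) := fun a => by
    rw [← ctx_eq, one_mul]
  rw [ev_FA0 A v (ML_le_FA0 Z hp), h0, inc_eq_zero]
  let χ : A.carrier →ₗ[F] A.carrier :=
    ⟨⟨ctx A 1 k, ctx_add 1 k⟩, ctx_smul (C := F) 1 k⟩
  change χ (evs A v p) = 0
  refine ml_expand' (C := F) χ hp (fun z => if z ∈ Set.range f then Set.univ else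
    {a | ∃ w : FreeMonoid X, w ≠ 1 ∧ a = evs A x (mon F w)}) ?_ v ?_
  · intro v hv
    change ctx A 1 k (evs A v p) = 0
    apply inc_injective A
    rw [← h0, ← ev_FA0 A v (ML_le_FA0 Z hp), inc_zero]
    obtain ⟨w0, hw0⟩ := hX
    have : ∀ z, ∃ w : FreeMonoid X, w ≠ 1 ∧ (z ∉ Set.range f → v z = evs A x (mon F w)) := by
      intro z
      by_cases hz : z ∈ Set.range f
      · exact ⟨w0, hw0, fun h => absurd hz h⟩
      · have h1 := hv z
        rw [if_neg hz] at h1
        obtain ⟨w, hw, hw'⟩ := h1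
        exact ⟨w, hw, fun _ => hw'⟩
    choose u hu hu' using this
    exact h u hu v hu'
  · intro z
    by_cases hz : z ∈ Set.range f
    · simp only [if_pos hz]
      exact Submodule.subset_span (Set.mem_univ _)
    · simp only [if_neg hz]
      exact gen_span hx (v z)

theorem zero_of_empty (hx : Gen A x) (hX : ¬ ∃ w : FreeMonoid X, w ≠ 1) (a : A.carrier) :
    a = 0 := by
  have h1 := gen_span hx a
  have h2 : {a | ∃ w : FreeMonoid X, w ≠ 1 ∧ a = evs A x (mon F w)} = ∅ := by
    ext q
    constructor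
    · rintro ⟨w, hw, -⟩
      exact (hX ⟨w, hw⟩).elim
    · intro h; exact h.elim
  rw [h2, Submodule.span_empty, Submodule.mem_bot] at h1
  exact h1

end BhH

open BhH

variable {A : AssocAlg F} {X : Type} {x : X → A.carrier} {n b g l : ℕ}

theorem bh_ann' [CharZero F] (hx : Gen A x)
    (α : BAct A x n b g l) (Z : Type) [Fintype Z] [DecidableEq Z] (p : FA F Z)
    (c : Z → Option (Fin n ⊕ Fin g)) (hp : p ∈ ML F Z) (ht : Typed p n b g c)
    (Z' : Type) [Fintype Z'] (q : FA F Z') (h : Sat (BH α) q)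
    (v : Z → A.carrier) (v' : Z' → A.carrier) : ev A v p * ev A v' q = 0 := by
  by_cases hX : ∃ w : FreeMonoid X, w ≠ 1
  · obtain ⟨f, hf, hfc, hfs⟩ := exists_color ht.sizes
    choose r hr hr' using fun z => exists_FA0 hx (v' z)
    have hK : ev A v' q = ev A x (sbst r q) := by
      rw [ev_sbst A x r hr]
      congr 1
      congr 1
      funext z
      rw [hr']
    rw [hK]
    refine expand_zero hx hp f _ ?_ hX v
    intro u hu v0 hv0
    refine typed_zero α hp ht hf hfc u hu _ ?_ v0 hv0
    choose V hV using fun z => exists_iot α (ren_mem_FA0 (Sum.inl : X → X ⊕ YT n b g) (hr z))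
    have h1 := mk_sbst α V _ hV q
    rw [h V, map_zero, ← ren_sbst] at h1
    rw [map_mul, map_mul, ← h1, mul_zero]
  · rw [ev_FA0 A v (ML_le_FA0 Z hp), zero_of_empty hx hX (evs A v p), inc_zero, zero_mul]

theorem bh_type' [CharZero F] (hx : Gen A x)
    (α : BAct A x n b g l) (Z : Type) [Fintype Z] [DecidableEq Z] (p : FA F Z)
    (c : Z → Option (Fin n ⊕ Fin g)) (hp : p ∈ ML F Z) (ht : Typed p n b g c)
    (h : Sat (BH α) p) : Sat A p := by
  intro v
  by_cases hX : ∃ w : FreeMonoid X, w ≠ 1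
  · obtain ⟨f, hf, hfc, hfs⟩ := exists_color ht.sizes
    have hK : (1 : U A) = ev A x 1 := by rw [map_one]
    rw [← mul_one (ev A v p), hK]
    refine expand_zero hx hp f _ ?_ hX v
    intro u hu v0 hv0
    refine typed_zero α hp ht hf hfc u hu _ ?_ v0 hv0
    choose V hV using fun z => exists_iot α (mon_mem_FA0 (usub_ne_one hf hu z))
    have h1 := mk_sbst α V _ hV p
    rw [h V, map_zero] at h1
    rw [map_mul, map_mul, ← h1, zero_mul]
  · rw [ev_FA0 A v (ML_le_FA0 Z hp), zero_of_empty hx hX (evs A v p), inc_zero]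

theorem bh_ann [CharZero F] (hx : Gen A x) (_hne : Nonempty (YT n b g))
    (α : BAct A x n b g l) (Z : Type) [Fintype Z] [DecidableEq Z] (p : FA F Z)
    (c : Z → Option (Fin n ⊕ Fin g)) (hp : p ∈ ML F Z) (ht : Typed p n b g c)
    (Z' : Type) [Fintype Z'] (q : FA F Z') (h : Sat (BH α) q)
    (v : Z → A.carrier) (v' : Z' → A.carrier) : ev A v p * ev A v' q = 0 :=
  bh_ann' hx α Z p c hp ht Z' q h v v'

theorem bh_type [CharZero F] (hx : Gen A x) (_hne : Nonempty (YT n b g))
    (α : BAct A x n b g l) (Z : Type) [Fintype Z] [DecidableEq Z] (p : FA F Z)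
    (c : Z → Option (Fin n ⊕ Fin g)) (hp : p ∈ ML F Z) (ht : Typed p n b g c)
    (h : Sat (BH α) p) : Sat A p :=
  bh_type' hx α Z p c hp ht h

end Pool.Agent.KEM
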