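import Pool.Agent.KEM.Shi1

/-!
Spanning by short words (row Shi2 of the KEM project, MP_1a662b_al).
-/

namespace Pool.Agent.KEM

/-- A Shirshov bound `N(r, d, n)`. -/
noncomputable def shN (r d n : ℕ) : ℕ :=
  open Classical in
  if h : 1 ≤ d then (shirshov n d h r).choose else 0

theorem shN_spec {r d n : ℕ} (hd : 1 ≤ d) (w : List (Fin r)) (hw : shN r d n ≤ w.length) :
    ShGood n d w := by
  unfold shN at hw
  rw [dif_pos hd] at hw
  exact (shirshov n d hd r).choose_spec (Fin r) (by simp) w hw

theorem lex_append {α : Type*} [LT α] {l l' : List α} (h : List.Lex (· < ·) l l')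
    (hlen : l.length = l'.length) (q : List α) : List.Lex (· < ·) (l ++ q) (l' ++ q) := by
  induction h with
  | nil => simp at hlen
  | cons _ ih => exact List.Lex.cons (ih (by simpa using hlen))
  | rel h => exact List.Lex.rel h

/-- Abstract form: `W` is any function on words with values in a `C`-module. -/
theorem shi2_words {C M : Type*} [Semiring C] [AddCommMonoid M] [Module C M] {r d n N : ℕ}
    (hn : 1 ≤ n) (hN : ∀ w : List (Fin r), N ≤ w.length → ShGood n d w) (W : List (Fin r) → M)
    (hdiv : ∀ (p q : List (Fin r)) (u : Fin d → List (Fin r)), (∀ i, u i ≠ []) →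
      W (p ++ (List.ofFn u).flatten ++ q) ∈ Submodule.span C
        {m | ∃ s : Equiv.Perm (Fin d), s ≠ 1 ∧ m = W (p ++ (List.ofFn (u ∘ s)).flatten ++ q)})
    (hpow : ∀ p q v : List (Fin r), v ≠ [] → v.length ≤ N →
      W (p ++ (List.replicate n v).flatten ++ q) ∈ Submodule.span C
        {m | ∃ k, 1 ≤ k ∧ k < n ∧ m = W (p ++ (List.replicate k v).flatten ++ q)})
    (w : List (Fin r)) (hw : w ≠ []) :
    W w ∈ Submodule.span C {m | ∃ w' : List (Fin r), w' ≠ [] ∧ w'.length < N ∧ m = W w'} := by
  by_contra hbad
  set P : List (Fin r) → Prop := fun w => w ≠ [] ∧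
    W w ∉ Submodule.span C {m | ∃ w' : List (Fin r), w' ≠ [] ∧ w'.length < N ∧ m = W w'} with hP
  -- minimal length
  have hex : ∃ L, ∃ w, P w ∧ w.length = L := ⟨_, w, ⟨hw, hbad⟩, rfl⟩
  classical
  obtain ⟨w1, hw1, hL⟩ := Nat.find_spec hex
  have hmin : ∀ v, P v → Nat.find hex ≤ v.length := fun v hv => Nat.find_min' hex ⟨v, hv, rfl⟩
  -- lexicographically minimal of this length
  have hfin : {v : List (Fin r) | P v ∧ v.length = Nat.find hex}.Finite :=
    (List.finite_length_eq (Fin r) (Nat.find hex)).subset (fun v hv => hv.2)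
  obtain ⟨w0, ⟨⟨hw0, hw0b⟩, hw0L⟩, hw0min⟩ :=
    Set.exists_min_image _ (fun v : List (Fin r) => v) hfin ⟨w1, hw1, hL⟩
  have hlong : N ≤ w0.length := by
    by_contra h
    push Not at h
    exact hw0b (Submodule.subset_span ⟨w0, hw0, h, rfl⟩)
  have hshorter : ∀ v : List (Fin r), v ≠ [] → v.length < w0.length →
      W v ∈ Submodule.span C {m | ∃ w' : List (Fin r), w' ≠ [] ∧ w'.length < N ∧ m = W w'} := by
    intro v hv hlen
    by_contra h
    have := hmin v ⟨hv, h⟩
    omega
  have hlex : ∀ v : List (Fin r), v ≠ [] → v.length = w0.length → List.Lex (· < ·) v w0 →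
      W v ∈ Submodule.span C {m | ∃ w' : List (Fin r), w' ≠ [] ∧ w'.length < N ∧ m = W w'} := by
    intro v hv hlen hlt
    by_contra h
    have h1 : w0 ≤ v := hw0min v ⟨⟨hv, h⟩, by rw [hlen, hw0L]⟩
    exact absurd h1 (not_le.2 hlt)
  have hg := hN (w0.take N) (by rw [List.length_take]; omega)
  have hpre : w0.take N ++ w0.drop N = w0 := List.take_append_drop N w0
  have htl : (w0.take N).length = N := by rw [List.length_take]; omega
  rcases hg with ⟨v, hv, p, q, hpq⟩ | ⟨u, hu, ⟨p, q, hpq⟩, hs⟩
  · apply hw0b
    have hw0' : w0 = p ++ (List.replicate n v).flatten ++ (q ++ w0.drop N) := by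
      rw [← List.append_assoc, hpq, hpre]
    have hvl : v.length ≤ N := by
      have h1 : (p ++ (List.replicate n v).flatten ++ q).length = N := by rw [hpq, htl]
      rw [List.length_append, List.length_append, List.length_flatten, List.map_replicate,
        List.sum_replicate, smul_eq_mul] at h1
      have h2 : v.length ≤ n * v.length := Nat.le_mul_of_pos_left _ hn
      omega
    rw [hw0']
    refine Submodule.span_le.2 ?_ (hpow p (q ++ w0.drop N) v hv hvl)
    rintro _ ⟨k, hk1, hkn, rfl⟩
    apply hshorter
    · obtain ⟨k, rfl⟩ := Nat.exists_eq_succ_of_ne_zero (by omega : k ≠ 0)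
      simp [List.replicate_succ, hv]
    · have h3 : 0 < v.length := List.length_pos_iff.2 hv
      conv_rhs => rw [hw0']
      simp only [List.length_append, List.length_flatten, List.map_replicate, List.sum_replicate,
        smul_eq_mul]
      have h4 : k * v.length < n * v.length := Nat.mul_lt_mul_of_pos_right hkn h3
      omega
  · apply hw0b
    have hw0' : w0 = p ++ (List.ofFn u).flatten ++ (q ++ w0.drop N) := by
      rw [← List.append_assoc, hpq, hpre]
    rw [hw0']
    refine Submodule.span_le.2 ?_ (hdiv p (q ++ w0.drop N) u hu)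
    rintro _ ⟨s, hs1, rfl⟩
    have hperm : ((List.ofFn (u ∘ s)).flatten).Perm ((List.ofFn u).flatten) :=
      (Equiv.Perm.ofFn_comp_perm s u).flatten
    have hlen : (p ++ (List.ofFn (u ∘ s)).flatten ++ (q ++ w0.drop N)).length = w0.length := by
      conv_rhs => rw [hw0']
      simp only [List.length_append, hperm.length_eq]
    apply hlex _ _ hlen
    · conv_rhs => rw [hw0']
      rw [List.append_assoc, List.append_assoc]
      exact List.Lex.append_left _ (lex_append (hs s hs1) hperm.length_eq _) p
    · intro h
      rw [h] at hlen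
      exact hw0 (List.length_eq_zero_iff.1 hlen.symm)

/-- The product of a nonempty list in a nonunital ring (`0` for the empty list). -/
def lprod {S : Type*} [Mul S] [Zero S] : List S → S
  | [] => 0
  | a :: l => l.foldl (· * ·) a

theorem lprod_cons_cons {S : Type*} [NonUnitalRing S] (a b : S) (l : List S) :
    lprod (a :: b :: l) = a * lprod (b :: l) := by
  have : ∀ (l : List S) (a b : S), l.foldl (· * ·) (a * b) = a * l.foldl (· * ·) b := by
    intro l
    induction l with
    | nil => intro a b; rfl
    | cons c l ih =>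
      intro a b
      rw [List.foldl_cons, List.foldl_cons, mul_assoc, ih]
  exact this l a b

theorem lprod_append {S : Type*} [NonUnitalRing S] {l l' : List S} (h : l ≠ []) (h' : l' ≠ []) :
    lprod (l ++ l') = lprod l * lprod l' := by
  induction l with
  | nil => exact absurd rfl h
  | cons a l ih =>
    cases l with
    | nil =>
      cases l' with
      | nil => exact absurd rfl h'
      | cons b l' => rw [List.singleton_append, lprod_cons_cons]; rfl
    | cons b l =>
      rw [List.cons_append, List.cons_append, lprod_cons_cons, ← List.cons_append,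
        ih (by simp), lprod_cons_cons, mul_assoc]

/-- In the unitization the product of a nonempty list is the usual product. -/
theorem inr_lprod {C S : Type*} [CommRing C] [NonUnitalRing S] [Module C S]
    [IsScalarTower C S S] [SMulCommClass C S S] {l : List S} (h : l ≠ []) :
    ((lprod l : S) : Unitization C S) = (l.map fun a : S => (a : Unitization C S)).prod := by
  induction l with
  | nil => exact absurd rfl h
  | cons a l ih =>
    cases l with
    | nil => simp [lprod]
    | cons b l =>
      rw [lprod_cons_cons, Unitization.inr_mul, ih (by simp)]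
      simp only [List.map_cons, List.prod_cons]

theorem lprod_flatten {S : Type*} [NonUnitalRing S] :
    ∀ L : List (List S), L ≠ [] → (∀ l ∈ L, l ≠ []) → lprod L.flatten = lprod (L.map lprod) := by
  intro L
  induction L with
  | nil => intro h; exact absurd rfl h
  | cons l L ih =>
    intro _ hl
    cases L with
    | nil => simp [lprod]
    | cons l' L =>
      have h1 : (l' :: L).flatten ≠ [] := by
        rw [List.flatten_cons]
        intro h
        rw [List.append_eq_nil_iff] at h
        exact hl l' (by simp) h.1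
      rw [List.flatten_cons, lprod_append (hl l (by simp)) h1,
        ih (by simp) (fun a ha => hl a (by simp [ha]))]
      simp only [List.map_cons, lprod_cons_cons]

section nonunital

variable {C S : Type*} [CommRing C] [NonUnitalRing S] [Module C S] [IsScalarTower C S S]
  [SMulCommClass C S S]

variable (C) in
/-- Left multiplication by the product of `p` (the identity for `p = []`). -/
noncomputable def lctx (p : List S) : S →ₗ[C] S :=
  open Classical in
  if p = [] then LinearMap.id else LinearMap.mulLeft C (lprod p)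

variable (C) in
/-- Right multiplication by the product of `q` (the identity for `q = []`). -/
noncomputable def rctx (q : List S) : S →ₗ[C] S :=
  open Classical in
  if q = [] then LinearMap.id else LinearMap.mulRight C (lprod q)

theorem lprod_ctx {p l q : List S} (hl : l ≠ []) :
    lprod (p ++ l ++ q) = lctx C p (rctx C q (lprod l)) := by
  unfold lctx rctx
  by_cases hp : p = [] <;> by_cases hq : q = []
  · simp [hp, hq]
  · rw [if_pos hp, if_neg hq, hp, List.nil_append, lprod_append hl hq]; rfl
  · rw [if_neg hp, if_pos hq, hq, List.append_nil, lprod_append hp hl]; rfl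
  · rw [if_neg hp, if_neg hq, lprod_append (by simp [hp]) hq, lprod_append hp hl, mul_assoc]; rfl

theorem shi2_ctx {p q l : List S} (hl : l ≠ []) {T : Set (List S)} (hT : ∀ l' ∈ T, l' ≠ [])
    (h : lprod l ∈ Submodule.span C (lprod '' T)) :
    lprod (p ++ l ++ q) ∈ Submodule.span C ((fun l' => lprod (p ++ l' ++ q)) '' T) := by
  rw [lprod_ctx (C := C) hl]
  have h1 := Submodule.mem_map_of_mem (f := (lctx C p).comp (rctx C q)) h
  rw [Submodule.map_span] at h1
  refine Submodule.span_mono ?_ h1
  rintro _ ⟨_, ⟨l', hl', rfl⟩, rfl⟩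
  exact ⟨l', hl', by simp only [LinearMap.comp_apply]; exact lprod_ctx (hT l' hl')⟩

/-- **Row Shi2.**  Let the elements `x i` of the `C`-algebra `S` satisfy (on words) a monic identity
of degree `d` and let every word `v` of length at most `N = shN r d n` satisfy
`v ^ n ∈ ∑_{1 ≤ k < n} C v ^ k`.  Then every word is a combination of words of length `< N`. -/
theorem shi2 {r d n : ℕ} (hd : 1 ≤ d) (hn : 1 ≤ n) (x : Fin r → S)
    (hid : ∀ y : Fin d → S, lprod (List.ofFn y) ∈ Submodule.span C
      {m | ∃ s : Equiv.Perm (Fin d), s ≠ 1 ∧ m = lprod (List.ofFn (y ∘ s))})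
    (hpow : ∀ v : List (Fin r), v ≠ [] → v.length ≤ shN r d n →
      lprod (List.replicate n (lprod (v.map x))) ∈ Submodule.span C
        {m | ∃ k, 1 ≤ k ∧ k < n ∧ m = lprod (List.replicate k (lprod (v.map x)))})
    (w : List (Fin r)) (hw : w ≠ []) :
    lprod (w.map x) ∈ Submodule.span C
      {m | ∃ w' : List (Fin r), w' ≠ [] ∧ w'.length < shN r d n ∧ m = lprod (w'.map x)} := by
  apply shi2_words (W := fun w => lprod (w.map x)) hn (fun w hw => shN_spec hd w hw) _ _ w hw
  · intro p q u hu
    have hne : ∀ s : Equiv.Perm (Fin d), ((List.ofFn (u ∘ s)).flatten.map x) ≠ [] := by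
      intro s h
      rw [List.map_eq_nil_iff, List.flatten_eq_nil_iff] at h
      exact hu (s ⟨0, hd⟩) (h _ (List.mem_ofFn.2 ⟨⟨0, hd⟩, rfl⟩))
    have hval : ∀ s : Equiv.Perm (Fin d), lprod ((List.ofFn (u ∘ s)).flatten.map x) =
        lprod (List.ofFn ((fun i => lprod ((u i).map x)) ∘ s)) := by
      intro s
      rw [List.map_flatten, lprod_flatten, List.map_map, List.map_ofFn]
      · rfl
      · intro h
        rw [List.map_eq_nil_iff, List.ofFn_eq_nil_iff] at h
        omega
      · intro l hl
        obtain ⟨l, hl', rfl⟩ := List.mem_map.1 hl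
        rw [List.mem_ofFn] at hl'
        obtain ⟨i, rfl⟩ := hl'
        simpa using hu (s i)
    have hx := hid (fun i => lprod ((u i).map x))
    have hx1 : lprod ((List.ofFn u).flatten.map x) ∈ Submodule.span C
        (lprod '' {l | ∃ s : Equiv.Perm (Fin d), s ≠ 1 ∧ l = (List.ofFn (u ∘ s)).flatten.map x}) := by
      have e := hval 1
      rw [Equiv.Perm.coe_one, Function.comp_id, Function.comp_id] at e
      rw [e]
      refine Submodule.span_mono ?_ hx
      rintro _ ⟨s, hs, rfl⟩
      exact ⟨_, ⟨s, hs, rfl⟩, hval s⟩
    have hx2 := shi2_ctx (p := p.map x) (q := q.map x) (by simpa using hne 1) (by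
      rintro _ ⟨s, -, rfl⟩
      exact hne s) hx1
    rw [← List.map_append, ← List.map_append] at hx2
    refine Submodule.span_mono ?_ hx2
    rintro _ ⟨_, ⟨s, hs, rfl⟩, rfl⟩
    exact ⟨s, hs, by simp⟩
  · intro p q v hv hvN
    have hval : ∀ k, 1 ≤ k → lprod ((List.replicate k v).flatten.map x) =
        lprod (List.replicate k (lprod (v.map x))) := by
      intro k hk
      rw [List.map_flatten, lprod_flatten, List.map_map, List.map_replicate]
      · rfl
      · intro h
        rw [List.map_eq_nil_iff, List.replicate_eq_nil_iff] at h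
        omega
      · intro l hl
        obtain ⟨l, hl', rfl⟩ := List.mem_map.1 hl
        rw [List.eq_of_mem_replicate hl']
        simpa using hv
    have hne : ∀ k, 1 ≤ k → (List.replicate k v).flatten.map x ≠ [] := by
      intro k hk h
      rw [List.map_eq_nil_iff, List.flatten_eq_nil_iff] at h
      exact hv (h v (List.mem_replicate.2 ⟨by omega, rfl⟩))
    have hx := hpow v hv hvN
    have hx1 : lprod ((List.replicate n v).flatten.map x) ∈ Submodule.span C
        (lprod '' {l | ∃ k, 1 ≤ k ∧ k < n ∧ l = (List.replicate k v).flatten.map x}) := by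
      rw [hval n hn]
      refine Submodule.span_mono ?_ hx
      rintro _ ⟨k, hk, hkn, rfl⟩
      exact ⟨_, ⟨k, hk, hkn, rfl⟩, hval k hk⟩
    have hx2 := shi2_ctx (p := p.map x) (q := q.map x) (hne n hn) (by
      rintro _ ⟨k, hk, -, rfl⟩
      exact hne k hk) hx1
    rw [← List.map_append, ← List.map_append] at hx2
    refine Submodule.span_mono ?_ hx2
    rintro _ ⟨_, ⟨k, hk, hkn, rfl⟩, rfl⟩
    exact ⟨k, hk, hkn, by simp⟩

end nonunital

end Pool.Agent.KEM
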