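import Pool.Agent.KEM.Defs
import Pool.Agent.KEM.Shi2

/-!
Rows Shi1 and Shi2 of the KEM project in the form of the skeleton.
-/

universe u

namespace Pool.Agent.KEM.ShR

open Pool.Agent.Helper29

variable {F : Type u} [Field F]

theorem wval_eq {S X : Type*} [NonUnitalRing S] (x : X → S) :
    ∀ w : List X, wval x w = lprod (w.map x)
  | [] => rfl
  | [_] => rfl
  | a :: b :: l => by
    rw [wval, wval_eq x (b :: l)]
    simp only [List.map_cons, lprod_cons_cons]

/-- The words of multilinear polynomials in `Fin d`. -/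
theorem mlw_fin {d : ℕ} {w : FreeMonoid (Fin d)} (hw : MLW w) :
    ∃ s : Equiv.Perm (Fin d), w = FreeMonoid.ofList (List.ofFn s) := by
  obtain ⟨-, hnd, hall⟩ := hw
  have hp : (FreeMonoid.toList w).Perm (List.finRange d) :=
    (List.perm_ext_iff_of_nodup hnd (List.nodup_finRange d)).2 (fun a => by simp [hall a])
  have hlen : (FreeMonoid.toList w).length = d := by rw [hp.length_eq, List.length_finRange]
  set f : Fin d → Fin d := fun i => (FreeMonoid.toList w).get (i.cast hlen.symm) with hf
  have hinj : Function.Injective f := by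
    intro i j hij
    have := (List.nodup_iff_injective_get.1 hnd) hij
    simpa [Fin.ext_iff] using this
  refine ⟨Equiv.ofBijective f (Finite.injective_iff_bijective.1 hinj), ?_⟩
  apply FreeMonoid.toList.injective
  rw [FreeMonoid.toList_ofList]
  apply List.ext_get
  · simp [hlen]
  · intro i h1 h2
    simp [hf]

theorem ml_fin {d : ℕ} {p : FA F (Fin d)} (hp : p ∈ ML F (Fin d)) :
    p = ∑ s : Equiv.Perm (Fin d), p.coeff (FreeMonoid.ofList (List.ofFn s)) •
      mon F (FreeMonoid.ofList (List.ofFn s)) := by
  classical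
  induction hp using Submodule.span_induction with
  | mem q hq =>
    obtain ⟨w, hw, rfl⟩ := hq
    obtain ⟨t, rfl⟩ := mlw_fin hw
    rw [Finset.sum_eq_single t]
    · simp [mon]
    · intro s _ hs
      have : FreeMonoid.ofList (List.ofFn s) ≠ FreeMonoid.ofList (List.ofFn t) := by
        intro h
        apply hs
        have h1 := FreeMonoid.ofList.injective h
        exact Equiv.ext (fun i => congrFun (List.ofFn_injective h1) i)
      simp [mon, this.symm]
    · intro h
      exact absurd (Finset.mem_univ _) h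
  | zero => simp
  | add q q' _ _ h h' =>
    conv_lhs => rw [h, h']
    rw [← Finset.sum_add_distrib]
    refine Finset.sum_congr rfl (fun s _ => ?_)
    rw [MonoidAlgebra.coeff_add, Finsupp.add_apply, add_smul]
  | smul r q _ h =>
    conv_lhs => rw [h, Finset.smul_sum]
    refine Finset.sum_congr rfl (fun s _ => ?_)
    rw [MonoidAlgebra.coeff_smul, Finsupp.smul_apply, smul_eq_mul, mul_smul]

theorem ev_mon {A : AssocAlg F} {Z : Type} (v : Z → A.carrier) (l : List Z) (hl : l ≠ []) :
    ev A v (mon F (FreeMonoid.ofList l)) = inc A (wval v l) := by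
  rw [wval_eq]
  unfold inc
  rw [inr_lprod (C := F) (by simpa using hl)]
  simp [ev, mon, FreeMonoid.lift_apply, inc, List.map_map, Function.comp_def]

theorem pideg_span {S : AssocAlg F} {d : ℕ} (h : PIdeg S d) {C : Type u} [CommRing C]
    [Algebra F C] [Module C S.carrier] [IsScalarTower F C S.carrier] (hd : 0 < d)
    (y : Fin d → S.carrier) :
    lprod (List.ofFn y) ∈ Submodule.span C
      {m | ∃ s : Equiv.Perm (Fin d), s ≠ 1 ∧ m = lprod (List.ofFn (y ∘ s))} := by
  classical
  obtain ⟨p, hp, hp1, hs⟩ := h
  have h1 := hs y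
  rw [ml_fin hp, map_sum] at h1
  have hval : ∀ s : Equiv.Perm (Fin d),
      ev S y (mon F (FreeMonoid.ofList (List.ofFn s))) = inc S (lprod (List.ofFn (y ∘ s))) := by
    intro s
    rw [ev_mon _ _ (by rw [Ne, List.ofFn_eq_nil_iff]; omega), wval_eq, List.map_ofFn]
  have h2 : ∑ s : Equiv.Perm (Fin d), p.coeff (FreeMonoid.ofList (List.ofFn s)) •
      lprod (List.ofFn (y ∘ s)) = 0 := by
    have : inc S (∑ s : Equiv.Perm (Fin d), p.coeff (FreeMonoid.ofList (List.ofFn s)) •
        lprod (List.ofFn (y ∘ s))) = 0 := by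
      rw [← h1]
      have : ∀ a : S.carrier, inc S a = Unitization.inrHom F F S.carrier a := fun a => rfl
      rw [this, map_sum]
      refine Finset.sum_congr rfl (fun s _ => ?_)
      rw [map_smul, map_smul, hval]
      rfl
    exact Unitization.inr_injective (R := F) this
  rw [← Finset.add_sum_erase _ _ (Finset.mem_univ (1 : Equiv.Perm (Fin d)))] at h2
  have e1 : (FreeMonoid.ofList (List.ofFn ((1 : Equiv.Perm (Fin d)) : Fin d → Fin d)) :
      FreeMonoid (Fin d)) = FreeMonoid.ofList (List.finRange d) := by
    congr 1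
  rw [e1, hp1, one_smul, Equiv.Perm.coe_one, Function.comp_id] at h2
  rw [eq_neg_of_add_eq_zero_left h2]
  refine Submodule.neg_mem _ (Submodule.sum_mem _ (fun s hs => ?_))
  rw [Finset.mem_erase] at hs
  have := Submodule.smul_mem (Submodule.span C
    {m | ∃ s : Equiv.Perm (Fin d), s ≠ 1 ∧ m = lprod (List.ofFn (y ∘ s))})
    (algebraMap F C (p.coeff (FreeMonoid.ofList (List.ofFn s))))
    (Submodule.subset_span ⟨s, hs.1, rfl⟩)
  rwa [algebraMap_smul] at this

end Pool.Agent.KEM.ShR

namespace Pool.Agent.KEM

open Pool.Agent.Helper29 Pool.Agent.KEM.ShR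

variable {F : Type u} [Field F]

theorem shi1 (m d n : ℕ) (hd : 0 < d) (_hn : 0 < n) :
    ∃ N, ∀ w : List (Fin m), N ≤ w.length →
      (∃ v, v ≠ [] ∧ (List.replicate n v).flatten <:+: w) ∨ ∃ u, DDiv d u ∧ u <:+: w := by
  refine ⟨shN m d n, fun w hw => ?_⟩
  rcases shN_spec hd w hw with h | ⟨u, hu, hi, hs⟩
  · exact Or.inl h
  · exact Or.inr ⟨(List.ofFn u).flatten, ⟨u, hu, rfl, fun s hs1 => hs s hs1⟩, hi⟩

theorem shi2_row (m d n : ℕ) (hn : 0 < n) :
    ∃ N, ∀ (S : AssocAlg F) (C : Type u) [CommRing C] [Algebra F C] [Module C S.carrier]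
      [IsScalarTower F C S.carrier] [IsScalarTower C S.carrier S.carrier]
      [SMulCommClass C S.carrier S.carrier] (X : Type) [Fintype X] (x : X → S.carrier),
      Fintype.card X = m → PIdeg S d →
      (∀ w : List X, w ≠ [] → w.length ≤ N →
        wval x (List.replicate n w).flatten ∈
          Submodule.span C {s | ∃ k, 1 ≤ k ∧ k < n ∧ s = wval x (List.replicate k w).flatten}) →
      ∀ w : List X, w ≠ [] →
        wval x w ∈ Submodule.span C {s | ∃ u : List X, u ≠ [] ∧ u.length < N ∧ s = wval x u} := by
  refine ⟨shN m d n, fun S C _ _ _ _ _ _ X _ x hX hd hpow w hw => ?_⟩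
  rcases Nat.eq_zero_or_pos d with h0 | hd0
  · exfalso
    subst h0
    obtain ⟨p, hp, hp1, -⟩ := hd
    have : p = 0 := by
      have hempty : ML F (Fin 0) = ⊥ := by
        rw [ML, Submodule.span_eq_bot]
        rintro _ ⟨w, hw, rfl⟩
        exfalso
        obtain ⟨h1, -, -⟩ := hw
        cases h : FreeMonoid.toList w with
        | nil => exact h1 h
        | cons a l => exact a.elim0
      rw [hempty] at hp
      exact (Submodule.mem_bot F).1 hp
    rw [this] at hp1
    simp at hp1
  · have e : X ≃ Fin m := Fintype.equivFinOfCardEq hX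
    have hv : ∀ l : List (Fin m), lprod (l.map (x ∘ e.symm)) = wval x (l.map e.symm) := by
      intro l
      rw [wval_eq, List.map_map]
    have key := shi2 (C := C) (r := m) (d := d) (n := n) hd0 hn (x ∘ e.symm)
      (fun y => pideg_span hd hd0 y) ?_ (w.map e) (by simpa using hw)
    · rw [hv] at key
      have hw' : (w.map e).map e.symm = w := by rw [List.map_map]; simp
      rw [hw'] at key
      refine Submodule.span_mono ?_ key
      rintro _ ⟨w', hw1, hw2, rfl⟩
      exact ⟨w'.map e.symm, by simpa using hw1, by simpa using hw2, hv w'⟩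
    · intro v hv1 hv2
      have hval : ∀ k, 1 ≤ k → lprod (List.replicate k (lprod (v.map (x ∘ e.symm)))) =
          wval x (List.replicate k (v.map e.symm)).flatten := by
        intro k hk
        rw [wval_eq, List.map_flatten, lprod_flatten, List.map_map, List.map_replicate]
        · rw [Function.comp_apply, List.map_map]
        · intro h
          rw [List.map_eq_nil_iff, List.replicate_eq_nil_iff] at h
          omega
        · intro l hl
          obtain ⟨l, hl', rfl⟩ := List.mem_map.1 hl
          rw [List.eq_of_mem_replicate hl']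
          simpa using hv1
      rw [hval n hn]
      refine Submodule.span_mono ?_ (hpow (v.map e.symm) (by simpa using hv1) (by simpa using hv2))
      rintro _ ⟨k, hk, hkn, rfl⟩
      exact ⟨k, hk, hkn, (hval k hk).symm⟩

end Pool.Agent.KEM
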