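import Pool.Agent.KEM.VanGM

/-!
# Zubrilin's identities

The exchange identity `(E)` and the identity `Z1`.
-/

universe u

namespace Pool.Agent.KEM

open Pool.Agent.Helper29

variable {F : Type u} [Field F]

namespace Zub

/-- The colouring of `Y` defined by an injection of the variables of type `(n; b, g)`. -/
noncomputable def col {Y : Type} {n b g : ℕ} (f : YT n b g → Y) (y : Y) :
    Option (Fin n ⊕ Fin g) :=
  open Classical in if h : ∃ w, f w = y then yc h.choose else none

theorem col_apply {Y : Type} {n b g : ℕ} {f : YT n b g → Y} (hf : Function.Injective f)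
    (w : YT n b g) : col f (f w) = yc w := by
  have h : ∃ w', f w' = f w := ⟨w, rfl⟩
  rw [col, dif_pos h, hf h.choose_spec]

theorem col_none {Y : Type} {n b g : ℕ} {f : YT n b g → Y} {y : Y} (h : ∀ w, f w ≠ y) :
    col f y = none := by
  rw [col, dif_neg]
  push Not
  exact h

theorem exists_of_col {Y : Type} {n b g : ℕ} {f : YT n b g → Y} (hf : Function.Injective f)
    {y : Y} {q : Fin n ⊕ Fin g} (h : col f y = some q) : ∃ w, f w = y ∧ yc w = some q := by
  by_cases hy : ∃ w, f w = y
  · obtain ⟨w, rfl⟩ := hy
    exact ⟨w, rfl, by rw [← h, col_apply hf]⟩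
  · push Not at hy
    rw [col_none hy] at h
    simp at h

theorem sizes_yc (n b g : ℕ) : Sizes n b g (yc : YT n b g → _) := by
  constructor
  · intro i
    refine (Nat.card_congr (Equiv.ofBijective (fun t : Fin b =>
      (⟨Sum.inl (i, t), rfl⟩ : {z : YT n b g // yc z = some (Sum.inl i)})) ⟨?_, ?_⟩)).symm.trans
      (by simp)
    · intro t t' h
      have := Subtype.ext_iff.1 h
      simpa using this
    · rintro ⟨z, hz⟩
      rcases z with ⟨i', t⟩ | q
      · have : i' = i := by simpa [yc] using hz
        subst this
        exact ⟨t, rfl⟩
      · simp [yc] at hz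
  · intro j
    refine (Nat.card_congr (Equiv.ofBijective (fun t : Fin (b + 1) =>
      (⟨Sum.inr (j, t), rfl⟩ : {z : YT n b g // yc z = some (Sum.inr j)})) ⟨?_, ?_⟩)).symm.trans
      (by simp)
    · intro t t' h
      have := Subtype.ext_iff.1 h
      simpa using this
    · rintro ⟨z, hz⟩
      rcases z with q | ⟨j', t⟩
      · simp [yc] at hz
      · have : j' = j := by simpa [yc] using hz
        subst this
        exact ⟨t, rfl⟩

theorem sizes_col {Y : Type} {n b g : ℕ} {f : YT n b g → Y} (hf : Function.Injective f) :
    Sizes n b g (col f) := by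
  have e : ∀ q : Fin n ⊕ Fin g, Nat.card {z // col f z = some q} =
      Nat.card {z : YT n b g // yc z = some q} := by
    intro q
    refine (Nat.card_congr (Equiv.ofBijective
      (fun z => ⟨f z.1, by rw [col_apply hf]; exact z.2⟩) ⟨?_, ?_⟩)).symm
    · intro z z' h
      exact Subtype.ext (hf (Subtype.ext_iff.1 h))
    · rintro ⟨y, hy⟩
      obtain ⟨w, rfl, hw⟩ := exists_of_col hf hy
      exact ⟨⟨w, hw⟩, rfl⟩
  exact ⟨fun i => (e _).trans ((sizes_yc n b g).small i), fun j => (e _).trans ((sizes_yc n b g).big j)⟩

/-- The exchange identity `(E)`. -/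
theorem exchange [CharZero F] {A : AssocAlg F} {X Y : Type} [Fintype Y] [DecidableEq Y]
    (x : X → A.carrier) {n b g : ℕ} (hv : Van A n b (g + 1))
    {h : (Y → A.carrier) → U A} (hh : h ∈ GM A x Y) {f : YT n b (g + 1) → Y}
    (hf : Function.Injective f)
    (halt : ∀ π ∈ colG (col f), π (f (Sum.inr (Fin.last g, Fin.last b))) =
      f (Sum.inr (Fin.last g, Fin.last b)) →
      ∀ v : Y → A.carrier, h (fun y => v (π y)) = (Equiv.Perm.sign π : ℤ) • h v)
    (v : Y → A.carrier) :
    h v = ∑ t : Fin b, h (fun y => v (Equiv.swap (f (Sum.inr (Fin.last g, Fin.last b)))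
      (f (Sum.inr (Fin.last g, t.castSucc))) y)) := by
  set y₀ := f (Sum.inr (Fin.last g, Fin.last b)) with hy₀
  let s : Fin (b + 1) → Y := fun t => f (Sum.inr (Fin.last g, t))
  have hs : Function.Injective s := fun t t' h => by
    have := hf h
    simpa using this
  have hs0 : s (Fin.last b) = y₀ := rfl
  let G : (Y → A.carrier) → U A := fun v =>
    ∑ t : Fin (b + 1), (Equiv.Perm.sign (Equiv.swap y₀ (s t)) : ℤ) •
      h (fun y => v (Equiv.swap y₀ (s t) y))
  have hG0 : G = 0 := by
    have : Nonempty Y := ⟨y₀⟩
    refine vangm x hv (col f) (sizes_col hf) G ?_ ?_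
    · have : G = ∑ t : Fin (b + 1), (Equiv.Perm.sign (Equiv.swap y₀ (s t)) : ℤ) •
          (fun v : Y → A.carrier => h (fun y => v (Equiv.swap y₀ (s t) y))) := by
        funext v
        simp [G]
      rw [this]
      exact Submodule.sum_mem _ fun t _ => zsmul_mem (VG.gm_perm _ hh) _
    · intro π hπ v
      -- the action of `π` on the last big set
      have hex : ∀ t : Fin (b + 1), ∃ t' : Fin (b + 1), π (s t) = s t' := by
        intro t
        have h1 : col f (π (s t)) = some (Sum.inr (Fin.last g)) := by
          rw [hπ.1 (s t), col_apply hf]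
          rfl
        obtain ⟨w, hw, hw'⟩ := exists_of_col hf h1
        rcases w with q | ⟨j, t'⟩
        · simp [yc] at hw'
        · have : j = Fin.last g := by simpa [yc] using hw'
          subst this
          exact ⟨t', hw.symm⟩
      choose r hr using hex
      have hrinj : Function.Injective r := fun t t' h => by
        apply hs
        apply π.injective
        rw [hr, hr, h]
      have hrbij : Function.Bijective r := Finite.injective_iff_bijective.1 hrinj
      have hswap : ∀ t, Equiv.swap y₀ (s t) ∈ colG (col f) := by
        intro t
        have c0 : col f y₀ = some (Sum.inr (Fin.last g)) := col_apply hf _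
        have c1 : col f (s t) = some (Sum.inr (Fin.last g)) := col_apply hf _
        refine ⟨fun z => ?_, fun z hz => ?_⟩
        · rcases eq_or_ne z y₀ with rfl | h1
          · rw [Equiv.swap_apply_left, c0, c1]
          · rcases eq_or_ne z (s t) with rfl | h2
            · rw [Equiv.swap_apply_right, c0, c1]
            · rw [Equiv.swap_apply_of_ne_of_ne h1 h2]
        · refine Equiv.swap_apply_of_ne_of_ne ?_ ?_
          · rintro rfl
            rw [c0] at hz
            simp at hz
          · rintro rfl
            rw [c1] at hz
            simp at hz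
      have hterm : ∀ t, (Equiv.Perm.sign (Equiv.swap y₀ (s t)) : ℤ) •
          h (fun y => v (π (Equiv.swap y₀ (s t) y))) =
          (Equiv.Perm.sign π : ℤ) • ((Equiv.Perm.sign (Equiv.swap y₀ (s (r t))) : ℤ) •
            h (fun y => v (Equiv.swap y₀ (s (r t)) y))) := by
        intro t
        set ρ : Equiv.Perm Y := Equiv.swap y₀ (s (r t)) * π * Equiv.swap y₀ (s t) with hρ
        have hρm : ρ ∈ colG (col f) := mul_mem (mul_mem (hswap _) hπ) (hswap _)
        have hρ0 : ρ y₀ = y₀ := by
          simp [hρ, Equiv.Perm.mul_apply, hr]
        have h1 := halt ρ hρm hρ0 (fun y => v (Equiv.swap y₀ (s (r t)) y))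
        have h2 : (fun y => v (Equiv.swap y₀ (s (r t)) (ρ y))) =
            (fun y => v (π (Equiv.swap y₀ (s t) y))) := by
          funext y
          simp [hρ, Equiv.Perm.mul_apply]
        rw [← h2, h1, smul_smul, smul_smul]
        congr 1
        rw [hρ, Equiv.Perm.sign_mul, Equiv.Perm.sign_mul]
        have e : ∀ u : ℤˣ, (u : ℤ) * (u : ℤ) = 1 := fun u => by
          rw [← Units.val_mul, Int.units_mul_self]; rfl
        simp only [Units.val_mul]
        linear_combination (Equiv.Perm.sign π : ℤ) *
          (Equiv.Perm.sign (Equiv.swap y₀ (s (r t))) : ℤ) * e (Equiv.Perm.sign (Equiv.swap y₀ (s t)))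
      show ∑ t : Fin (b + 1), (Equiv.Perm.sign (Equiv.swap y₀ (s t)) : ℤ) •
        h (fun y => v (π (Equiv.swap y₀ (s t) y))) = (Equiv.Perm.sign π : ℤ) • G v
      rw [Finset.sum_congr rfl fun t _ => hterm t, ← Finset.smul_sum]
      congr 1
      exact Fintype.sum_bijective r hrbij _ _ fun t => rfl
  have h1 : G v = 0 := by rw [hG0]; rfl
  have h2 : ∀ t : Fin b, (Equiv.Perm.sign (Equiv.swap y₀ (s t.castSucc)) : ℤ) = -1 := by
    intro t
    have : y₀ ≠ s t.castSucc := by
      rw [← hs0]
      intro h
      exact absurd (hs h).symm (Fin.castSucc_lt_last t).ne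
    rw [Equiv.Perm.sign_swap this]
    rfl
  simp only [G] at h1
  rw [Fin.sum_univ_castSucc] at h1
  simp only [h2, hs0, Equiv.swap_self, Equiv.Perm.sign_refl, Equiv.refl_apply, Units.val_one,
    one_smul, neg_smul, Finset.sum_neg_distrib] at h1
  exact (neg_add_eq_zero.1 h1).symm

/-- A membership criterion. -/
theorem mem_colG_of {Y K K' : Type} {c' : Y → Option K'} {c : Y → Option K} {y₀ : Y}
    (h1 : ∀ z z', c' z = c' z' → c' z ≠ none → z ≠ y₀ → z' ≠ y₀ → c z = c z')
    (h2 : ∀ z, z ≠ y₀ → c z = none → c' z = none) {π : Equiv.Perm Y} (hπ : π ∈ colG c')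
    (h0 : π y₀ = y₀) : π ∈ colG c := by
  refine ⟨fun z => ?_, fun z hz => ?_⟩
  · by_cases hz : z = y₀
    · rw [hz, h0]
    · by_cases hc : c' z = none
      · rw [hπ.2 z hc]
      · refine h1 _ _ (hπ.1 z) (by rw [hπ.1 z]; exact hc) ?_ hz
        intro h
        exact hz (π.injective (h.trans h0.symm))
  · by_cases hz' : z = y₀
    · rw [hz', h0]
    · exact hπ.2 z (h2 z hz' hz)

theorem exists_avoid {n₁ n : ℕ} (hn : n₁ + 1 ≤ n) (i : Fin n) :
    ∃ e : Fin n₁ → Fin n, Function.Injective e ∧ ∀ k, e k ≠ i := by
  obtain ⟨n, rfl⟩ := Nat.exists_eq_add_of_le' (by omega : 1 ≤ n)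
  refine ⟨fun k => i.succAbove (Fin.castLE (by omega) k), ?_, fun k => Fin.succAbove_ne i _⟩
  intro k k' h
  exact Fin.castLE_injective _ (Fin.succAbove_right_injective h)

/-- The injection used for `Z1`. -/
def inj1 {n₁ n b g : ℕ} (e : Fin n₁ → Fin n) (i : Fin n) :
    YT n₁ b (g + 1) → Option (YT n b g)
  | Sum.inl q => some (Sum.inl (e q.1, q.2))
  | Sum.inr q => Fin.lastCases (motive := fun _ => Option (YT n b g))
      (Fin.lastCases (motive := fun _ => Option (YT n b g)) none
        (fun t => some (Sum.inl (i, t))) q.2)
      (fun j => some (Sum.inr (j, q.2))) q.1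

section

variable {n₁ n b g : ℕ} (e : Fin n₁ → Fin n) (i : Fin n)

theorem inj1_last : inj1 e i (Sum.inr (Fin.last g, Fin.last b)) = none := by
  simp [inj1]

theorem inj1_last_cast (t : Fin b) :
    inj1 (g := g) e i (Sum.inr (Fin.last g, t.castSucc)) = some (Sum.inl (i, t)) := by
  simp [inj1]

theorem inj1_cast (j : Fin g) (t : Fin (b + 1)) :
    inj1 e i (Sum.inr (j.castSucc, t)) = some (Sum.inr (j, t)) := by
  simp [inj1]

theorem inj1_injective (he : Function.Injective e) (hei : ∀ k, e k ≠ i) :
    Function.Injective (inj1 (b := b) (g := g) e i) := by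
  intro y y' h
  rcases y with ⟨k, t⟩ | ⟨j, t⟩
  · rcases y' with ⟨k', t'⟩ | ⟨j', t'⟩
    · have : e k = e k' ∧ t = t' := by simpa [inj1] using h
      rw [he this.1, this.2]
    · induction j' using Fin.lastCases with
      | last =>
        induction t' using Fin.lastCases with
        | last => rw [inj1_last] at h; simp [inj1] at h
        | cast t' =>
          rw [inj1_last_cast] at h
          have : e k = i ∧ t = t' := by simpa [inj1] using h
          exact absurd this.1 (hei k)
      | cast j' => rw [inj1_cast] at h; simp [inj1] at h
  · induction j using Fin.lastCases with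
    | last =>
      induction t using Fin.lastCases with
      | last =>
        rw [inj1_last] at h
        rcases y' with ⟨k', t'⟩ | ⟨j', t'⟩
        · simp [inj1] at h
        · induction j' using Fin.lastCases with
          | last =>
            induction t' using Fin.lastCases with
            | last => rfl
            | cast t' => rw [inj1_last_cast] at h; simp at h
          | cast j' => rw [inj1_cast] at h; simp at h
      | cast t =>
        rw [inj1_last_cast] at h
        rcases y' with ⟨k', t'⟩ | ⟨j', t'⟩
        · have : i = e k' ∧ t = t' := by simpa [inj1] using h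
          exact absurd this.1.symm (hei k')
        · induction j' using Fin.lastCases with
          | last =>
            induction t' using Fin.lastCases with
            | last => rw [inj1_last] at h; simp at h
            | cast t' =>
              rw [inj1_last_cast] at h
              have : t = t' := by simpa using h
              rw [this]
          | cast j' => rw [inj1_cast] at h; simp at h
    | cast j =>
      rw [inj1_cast] at h
      rcases y' with ⟨k', t'⟩ | ⟨j', t'⟩
      · simp [inj1] at h
      · induction j' using Fin.lastCases with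
        | last =>
          induction t' using Fin.lastCases with
          | last => rw [inj1_last] at h; simp at h
          | cast t' => rw [inj1_last_cast] at h; simp at h
        | cast j' =>
          rw [inj1_cast] at h
          have : j = j' ∧ t = t' := by simpa using h
          rw [this.1, this.2]

end

theorem colG_inj1 {n₁ n b g : ℕ} {e : Fin n₁ → Fin n} {i : Fin n}
    (he : Function.Injective e) (hei : ∀ k, e k ≠ i) {π : Equiv.Perm (Option (YT n b g))}
    (hπ : π ∈ colG (col (inj1 e i))) (h0 : π none = none) :
    π ∈ colG (fun o : Option (YT n b g) => o.bind yc) := by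
  refine mem_colG_of (y₀ := none) ?_ ?_ hπ h0
  · intro z z' hzz hz hz0 hz0'
    have hf := inj1_injective (b := b) (g := g) e i he hei
    obtain ⟨q, hq⟩ := Option.ne_none_iff_exists'.1 hz
    obtain ⟨w, rfl, hw⟩ := exists_of_col hf hq
    obtain ⟨w', rfl, hw'⟩ := exists_of_col hf (hzz ▸ hq)
    have hww : yc w = yc w' := hw.trans hw'.symm
    rcases w with ⟨k, t⟩ | ⟨j, t⟩
    · rcases w' with ⟨k', t'⟩ | ⟨j', t'⟩
      · have : k = k' := by simpa [yc] using hww
        subst this
        rfl
      · simp [yc] at hww
    · rcases w' with ⟨k', t'⟩ | ⟨j', t'⟩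
      · simp [yc] at hww
      · have : j = j' := by simpa [yc] using hww
        subst this
        induction j using Fin.lastCases with
        | last =>
          induction t using Fin.lastCases with
          | last => exact absurd (inj1_last e i) hz0
          | cast t =>
            induction t' using Fin.lastCases with
            | last => exact absurd (inj1_last e i) hz0'
            | cast t' => rw [inj1_last_cast, inj1_last_cast]; rfl
        | cast j => rw [inj1_cast, inj1_cast]; rfl
  · intro z hz hz'
    exfalso
    obtain ⟨y, rfl⟩ := Option.ne_none_iff_exists'.1 hz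
    rcases y with q | q <;> simp [yc] at hz'

theorem gm_iter {A : AssocAlg F} {X Y : Type} [DecidableEq Y] {x : X → A.carrier}
    (hx : Gen A x) (y₀ : Y) (a : A.carrier) {h : (Y → A.carrier) → U A} (hh : h ∈ GM A x Y)
    (k : ℕ) : (fun u => h (Function.update u y₀ ((fun s => a * s)^[k] (u y₀)))) ∈ GM A x Y := by
  induction k with
  | zero => simpa using hh
  | succ k ih =>
    have := VG.gm_lmul hx y₀ a ih
    refine cast ?_ this
    congr 1
    funext u
    simp

end Zub

open Zub

theorem zub1 [CharZero F] {A : AssocAlg F} {X : Type} (x : X → A.carrier) (hx : Gen A x)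
    {n b g n1 : ℕ} (hv : Van A n1 b (g + 1)) (hn : n1 + 1 ≤ n)
    (h : (Option (YT n b g) → A.carrier) → U A) (hh : h ∈ GM A x (Option (YT n b g)))
    (ha : AltF (fun o : Option (YT n b g) => o.bind yc) h)
    (i : Fin n) (a : A.carrier) (v : YT n b g → A.carrier) (z : A.carrier) :
    ∑ T : Finset (Fin b), (-1 : F) ^ T.card •
      h (extd (hit i a T v) ((fun s => a * s)^[b - T.card] z)) = 0 := by
  classical
  obtain ⟨e, he, hei⟩ := exists_avoid hn i
  let gg : Fin b → Finset (Fin b) → U A := fun t T =>
    h (extd (hit i a T (Function.update v (Sum.inl (i, t)) z))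
      ((fun s => a * s)^[b - T.card] (v (Sum.inl (i, t)))))
  have key : ∀ T : Finset (Fin b), h (extd (hit i a T v) ((fun s => a * s)^[b - T.card] z)) =
      ∑ t : Fin b, if t ∈ T then gg t (T.erase t) else gg t T := by
    intro T
    have h1 := exchange x hv (gm_iter hx none a hh (b - T.card)) (f := inj1 e i)
      (inj1_injective e i he hei) (by
        rw [inj1_last]
        intro π hπ h0 v
        have hm := colG_inj1 he hei hπ h0
        rw [← ha π hm]
        congr 1
        funext o
        by_cases ho : o = none
        · subst ho
          rw [h0]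
          simp [h0]
        · have ho' : π o ≠ none := fun h => ho (π.injective (h.trans h0.symm))
          rw [Function.update_of_ne ho, Function.update_of_ne ho']) (extd (hit i a T v) z)
    have e1 : Function.update (extd (hit i a T v) z) none
        ((fun s => a * s)^[b - T.card] (extd (hit i a T v) z none)) =
        extd (hit i a T v) ((fun s => a * s)^[b - T.card] z) := by
      funext o
      cases o with
      | none => simp [extd]
      | some y => rw [Function.update_of_ne (by simp)]; rfl
    simp only [e1] at h1
    rw [h1]
    refine Finset.sum_congr rfl fun t _ => ?_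
    rw [inj1_last, inj1_last_cast]
    by_cases ht : t ∈ T
    · rw [if_pos ht]
      simp only [gg]
      congr 1
      funext o
      cases o with
      | none =>
        have hc : b - (T.erase t).card = (b - T.card) + 1 := by
          have h2 := Finset.card_erase_of_mem ht
          have h3 : T.card ≤ b := (Finset.card_le_univ T).trans (by simp)
          have h4 : 0 < T.card := Finset.card_pos.2 ⟨t, ht⟩
          omega
        rw [Function.update_self, Equiv.swap_apply_left]
        simp only [extd, hc, Function.iterate_succ, Function.comp_apply]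
        simp [hit, ht]
      | some y =>
        rw [Function.update_of_ne (by simp)]
        simp only [extd]
        by_cases hy : y = Sum.inl (i, t)
        · subst hy
          rw [Equiv.swap_apply_right]
          simp [hit]
        · rw [Equiv.swap_apply_of_ne_of_ne (by simp) (by simpa using hy)]
          simp only
          rcases y with ⟨i', t'⟩ | q
          · have hne : (Sum.inl (i', t') : YT n b g) ≠ Sum.inl (i, t) := hy
            by_cases hi : i' = i
            · subst hi
              have htt : t' ≠ t := by
                rintro rfl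
                exact hy rfl
              simp [hit, htt]
            · simp [hit, hi]
          · simp [hit]
    · rw [if_neg ht]
      simp only [gg]
      congr 1
      funext o
      cases o with
      | none =>
        rw [Function.update_self, Equiv.swap_apply_left]
        simp only [extd]
        simp [hit, ht]
      | some y =>
        rw [Function.update_of_ne (by simp)]
        simp only [extd]
        by_cases hy : y = Sum.inl (i, t)
        · subst hy
          rw [Equiv.swap_apply_right]
          simp [hit, ht]
        · rw [Equiv.swap_apply_of_ne_of_ne (by simp) (by simpa using hy)]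
          simp only
          rcases y with ⟨i', t'⟩ | q
          · have hne : (Sum.inl (i', t') : YT n b g) ≠ Sum.inl (i, t) := hy
            by_cases hi : i' = i
            · subst hi
              have htt : t' ≠ t := by
                rintro rfl
                exact hy rfl
              simp [hit, htt]
            · simp [hit, hi]
          · simp [hit]
  simp only [key, Finset.smul_sum]
  rw [Finset.sum_comm]
  refine Finset.sum_eq_zero fun t _ => ?_
  refine Finset.sum_involution (fun T _ => if t ∈ T then T.erase t else insert t T) ?_ ?_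
    (fun _ _ => Finset.mem_univ _) ?_
  · intro T _
    by_cases ht : t ∈ T
    · have hc : T.card = (T.erase t).card + 1 := by
        have h2 := Finset.card_erase_of_mem ht
        have h4 : 0 < T.card := Finset.card_pos.2 ⟨t, ht⟩
        omega
      have h1 : t ∉ T.erase t := Finset.notMem_erase t T
      have h2 : (if t ∈ T then T.erase t else insert t T) = T.erase t := if_pos ht
      rw [h2, if_pos ht, if_neg h1, hc, pow_succ, mul_neg_one, neg_smul, neg_add_cancel]
    · have h1 : t ∈ insert t T := Finset.mem_insert_self t T
      have h2 : (if t ∈ T then T.erase t else insert t T) = insert t T := if_neg ht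
      rw [h2, if_neg ht, if_pos h1, Finset.card_insert_of_notMem ht, Finset.erase_insert ht,
        pow_succ, mul_neg_one, neg_smul, add_neg_cancel]
  · intro T _ _
    by_cases ht : t ∈ T
    · simp [ht]
    · simp [ht]
  · intro T _
    by_cases ht : t ∈ T
    · have h1 : t ∉ T.erase t := Finset.notMem_erase t T
      rw [if_pos ht, if_neg h1, Finset.insert_erase ht]
    · have h1 : t ∈ insert t T := Finset.mem_insert_self t T
      rw [if_neg ht, if_pos h1, Finset.erase_insert ht]

end Pool.Agent.KEM
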