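import Pool.Agent.KEM.BAlt
import Pool.Agent.KEM.Zub1
import Pool.Agent.KEM.ShiRow
import Pool.Agent.KEM.Bh1

/-!
# The algebra `BH`: the relation for words, finiteness over the coefficient ring
-/

universe u

namespace Pool.Agent.KEM.Bh2H

open Pool.Agent.Helper29 BAlt

variable {F : Type u} [Field F] {A : AssocAlg F} {X : Type} {x : X → A.carrier} {n b g l : ℕ}

theorem Phi_zero (α : BAct A x n b g l) : Phi α 0 = 0 := by
  have h := Phi_smul α 0 0
  rwa [zero_smul, map_zero, LinearMap.zero_apply] at h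

theorem bfa_single (w : FreeMonoid (X ⊕ YT n b g)) (c : BC F X b l) :
    (MonoidAlgebra.single w c : BFA F X n b g l) = c • MonoidAlgebra.single w 1 := by
  rw [MonoidAlgebra.smul_single, smul_eq_mul, mul_one]

/-- An element is zero in the quotient when its pairing with all pairs of words is zero. -/
theorem bq_zero (α : BAct A x n b g l) (p : BFA F X n b g l)
    (h : ∀ u u' : FreeMonoid (X ⊕ YT n b g),
      Phi α (MonoidAlgebra.single u 1 * p * MonoidAlgebra.single u' 1) = 0) :
    BQ.mk α p = 0 := by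
  rw [← map_zero (BQ.mk α), BQ.mk_eq_iff]
  intro s t
  rw [mul_zero, zero_mul, Phi_zero]
  induction s using MonoidAlgebra.induction_linear with
  | zero => rw [zero_mul, zero_mul, Phi_zero]
  | add s s' hs hs' => rw [add_mul, add_mul, Phi_add, hs, hs', add_zero]
  | single u c =>
    rw [bfa_single, smul_mul_assoc, smul_mul_assoc, Phi_smul]
    induction t using MonoidAlgebra.induction_linear with
    | zero => rw [mul_zero, Phi_zero, map_zero]
    | add s s' hs hs' => rw [mul_add, Phi_add, map_add, hs, hs', add_zero]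
    | single u' c' =>
      rw [bfa_single u', mul_smul_comm, Phi_smul, h, map_zero, map_zero]

theorem PhiW_of_not (x : X → A.carrier) {w : FreeMonoid (X ⊕ YT n b g)} (h : ¬ Yml w) :
    PhiW x w = 0 := by
  unfold PhiW
  rw [dif_neg]
  exact fun h' => h h'.1

theorem PhiW_coe (x : X → A.carrier) {w : FreeMonoid (X ⊕ YT n b g)} (h : Yml w) :
    ((PhiW x w : MM A x n b g) : (YT n b g → A.carrier) → U A) = AltY (mf A x w) := by
  unfold PhiW
  rw [dif_pos ⟨h, alty_mem x h⟩]

theorem bw_mul (α : BAct A x n b g l) (w w' : FreeMonoid (X ⊕ YT n b g)) :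
    bw α (w * w') = bw α w * bw α w' := by
  unfold bw
  rw [← map_mul, MonoidAlgebra.single_mul_single, mul_one]

theorem bw_one (α : BAct A x n b g l) : bw α 1 = 1 := map_one (BQ.mk α)

/-- A word with a repeated alternating variable is zero. -/
theorem bw_eq_zero (α : BAct A x n b g l) {w : FreeMonoid (X ⊕ YT n b g)} (h : ¬ (yl w).Nodup) :
    bw α w = 0 := by
  refine bq_zero α _ fun u u' => ?_
  rw [MonoidAlgebra.single_mul_single, MonoidAlgebra.single_mul_single, Phi_single, mul_one,
    mul_one, map_one, PhiW_of_not]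
  · rfl
  · intro hh
    rw [yml_iff, yl_mul, yl_mul] at hh
    exact h (List.Nodup.of_append_right (List.Nodup.of_append_left hh.2))

/-- The value of a nonempty word. -/
theorem prod_wval (x : X → A.carrier) : ∀ w : List X, w ≠ [] →
    (w.map fun z => inc A (x z)).prod = inc A (wval x w)
  | [], h => absurd rfl h
  | [a], _ => by simp [wval]
  | a :: b :: l, _ => by
    rw [List.map_cons, List.prod_cons, prod_wval x (b :: l) (List.cons_ne_nil _ _), wval, inc_mul]

theorem inc_iter (a z : A.carrier) (k : ℕ) :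
    inc A ((fun s => a * s)^[k] z) = inc A a ^ k * inc A z := by
  induction k with
  | zero => rw [Function.iterate_zero, id, pow_zero, one_mul]
  | succ k ih => rw [Function.iterate_succ_apply', inc_mul, ih, pow_succ', mul_assoc]

/-- The power of a word. -/
def wp (Y : Type) (w : List X) (k : ℕ) : FreeMonoid (X ⊕ Y) :=
  FreeMonoid.ofList (List.replicate k (w.map Sum.inl)).flatten

theorem wp_eq {Y : Type} (w : List X) (k : ℕ) : wp Y w k = FreeMonoid.ofList (w.map Sum.inl) ^ k := by
  induction k with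
  | zero => rfl
  | succ k ih =>
    rw [pow_succ', ← ih]
    rfl

theorem yl_wp {Y : Type} (w : List X) (k : ℕ) : yl (wp Y w k) = [] := by
  induction k with
  | zero => rfl
  | succ k ih => rw [wp_eq, pow_succ', yl_mul, yl_inl, ← wp_eq, ih]; rfl

theorem ev_wp {Y : Type} (x : X → A.carrier) (v : Y → A.carrier) (w : List X) (hw : w ≠ [])
    (k : ℕ) : ev A (Sum.elim x v) (mon F (wp Y w (k + 1))) =
      inc A ((fun s => wval x w * s)^[k] (wval x w)) := by
  have h1 : ev A (Sum.elim x v) (mon F (FreeMonoid.ofList (w.map Sum.inl) : FreeMonoid (X ⊕ Y))) =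
      inc A (wval x w) := by
    rw [ev_mon_ofList, List.map_map, ← prod_wval x w hw]
    rfl
  have h2 : ∀ (u : FreeMonoid (X ⊕ Y)) (j : ℕ), mon F (u ^ j) = mon F u ^ j := by
    intro u j
    induction j with
    | zero => rfl
    | succ j ih => rw [pow_succ', pow_succ', mon_mul, ih]
  rw [wp_eq, h2, map_pow, h1, inc_iter, pow_succ]

/-- Newton polynomials: the operators `δ_k` are given by the action. -/
def BNewt (α : BAct A x n b g l) : Prop :=
  ∀ (w : List X), w ≠ [] → w.length ≤ l → ∀ i : Fin n,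
    ∃ N : ℕ → BC F X b l, N 0 = 1 ∧ ∀ k ≤ b, ∀ m : MM A x n b g,
      ((α.φ (N k) m : MM A x n b g) : (YT n b g → A.carrier) → U A) =
        delta i k (wval x w) (m : (YT n b g → A.carrier) → U A)

/-- The main relation. -/
theorem bh_key [CharZero F] (hx : Gen A x) {n1 : ℕ} (hv : Van A n1 b (g + 1))
    (hn : n1 + 2 ≤ n) (α : BAct A x n b g l) (hb : BNewt α) (w : List X) (hw : w ≠ [])
    (hl : w.length ≤ l) :
    ∃ N : ℕ → BC F X b l, N 0 = 1 ∧
      ∑ k ∈ Finset.range (b + 1), (((-1 : F) ^ k) • N k) • bw α (wp _ w (b + 1 - k)) = 0 := by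
  classical
  have hn0 : 0 < n := by omega
  let i : Fin n := ⟨0, hn0⟩
  obtain ⟨N, hN0, hN⟩ := hb w hw hl i
  refine ⟨N, hN0, ?_⟩
  have h1 : ∑ k ∈ Finset.range (b + 1), (((-1 : F) ^ k) • N k) • bw α (wp _ w (b + 1 - k)) =
      BQ.mk α (∑ k ∈ Finset.range (b + 1),
        (((-1 : F) ^ k) • N k) • MonoidAlgebra.single (wp _ w (b + 1 - k)) 1) := by
    rw [map_sum]
    refine Finset.sum_congr rfl fun k _ => ?_
    rw [BQ.mk_smul]
    rfl
  rw [h1]
  refine bq_zero α _ fun u u' => ?_
  have h2 : Phi α (MonoidAlgebra.single u 1 * (∑ k ∈ Finset.range (b + 1),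
        (((-1 : F) ^ k) • N k) • MonoidAlgebra.single (wp _ w (b + 1 - k)) 1) *
        MonoidAlgebra.single u' 1) =
      ∑ k ∈ Finset.range (b + 1), ((-1 : F) ^ k) •
        α.φ (N k) (PhiW x (u * wp _ w (b + 1 - k) * u')) := by
    rw [Finset.mul_sum, Finset.sum_mul]
    have h3 : ∀ (s : Finset ℕ) (f : ℕ → BFA F X n b g l),
        Phi α (∑ k ∈ s, f k) = ∑ k ∈ s, Phi α (f k) := by
      intro s f
      induction s using Finset.induction_on with
      | empty => rw [Finset.sum_empty, Finset.sum_empty, Phi_zero]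
      | insert a s ha ih => rw [Finset.sum_insert ha, Finset.sum_insert ha, Phi_add, ih]
    rw [h3]
    refine Finset.sum_congr rfl fun k _ => ?_
    rw [mul_smul_comm, smul_mul_assoc, MonoidAlgebra.single_mul_single,
      MonoidAlgebra.single_mul_single, mul_one, mul_one, Phi_smul, Phi_single, map_one, map_smul,
      LinearMap.smul_apply]
    rfl
  rw [h2]
  by_cases hY : Yml (u * u')
  · have hY' : ∀ k, Yml (u * wp _ w k * u') := by
      intro k
      rw [yml_iff, yl_mul, yl_mul, yl_wp, List.append_nil, ← yl_mul, ← yml_iff]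
      exact hY
    apply Subtype.ext
    rw [Submodule.coe_sum]
    funext v
    rw [Finset.sum_apply]
    have hz := zub1 x hx hv (by omega : n1 + 1 ≤ n) (hfun x u u') (hfun_mem hY)
      (hfun_alt x u u') i (wval x w) v (wval x w)
    rw [← Finset.powerset_univ, Finset.sum_powerset, Finset.card_univ, Fintype.card_fin] at hz
    rw [Submodule.coe_zero, Pi.zero_apply, ← hz]
    refine Finset.sum_congr rfl fun k hk => ?_
    have hkb : k ≤ b := Nat.lt_succ_iff.1 (Finset.mem_range.1 hk)
    rw [Submodule.coe_smul, Pi.smul_apply, hN k hkb, PhiW_coe x (hY' _)]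
    unfold delta
    rw [Finset.smul_sum]
    refine Finset.sum_congr rfl fun T hT => ?_
    rw [(Finset.mem_powersetCard.1 hT).2]
    congr 1
    symm
    refine hfun_extd x u u' _ _ (wp _ w (b + 1 - k)) fun v' => ?_
    have : b + 1 - k = (b - k) + 1 := by omega
    rw [this, ev_wp x v' w hw]
  · refine Finset.sum_eq_zero fun k _ => ?_
    rw [PhiW_of_not, map_zero, smul_zero]
    rw [yml_iff, yl_mul, yl_mul, yl_wp, List.append_nil, ← yl_mul, ← yml_iff]
    exact hY

theorem bh_rel [CharZero F] (hx : Gen A x) {n1 : ℕ} (hv : Van A n1 b (g + 1))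
    (hn : n1 + 2 ≤ n) (α : BAct A x n b g l) (hb : BNewt α) (w : List X) (hw : w ≠ [])
    (hl : w.length ≤ l) :
    bw α (FreeMonoid.ofList (List.replicate (b + 1) (w.map Sum.inl)).flatten) ∈
      Submodule.span (BC F X b l) {s : BQ α | ∃ k, 1 ≤ k ∧ k < b + 1 ∧
        s = bw α (FreeMonoid.ofList (List.replicate k (w.map Sum.inl)).flatten)} := by
  obtain ⟨N, hN0, hN⟩ := bh_key hx hv hn α hb w hw hl
  rw [Finset.sum_range_succ'] at hN
  have h1 : bw α (wp _ w (b + 1)) =
      -∑ k ∈ Finset.range b, (((-1 : F) ^ (k + 1)) • N (k + 1)) •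
        bw α (wp _ w (b + 1 - (k + 1))) := by
    rw [eq_neg_iff_add_eq_zero, add_comm, ← hN, hN0, pow_zero, one_smul, one_smul, Nat.sub_zero]
  show bw α (wp _ w (b + 1)) ∈ _
  rw [h1]
  refine Submodule.neg_mem _ (Submodule.sum_mem _ fun k hk => ?_)
  rw [Finset.mem_range] at hk
  exact Submodule.smul_mem _ _ (Submodule.subset_span ⟨b + 1 - (k + 1), by omega, by omega, rfl⟩)

/-! ### Finiteness -/

noncomputable instance bhMod (α : BAct A x n b g l) : Module (BC F X b l) (BH α).carrier :=
  BT.moduleC α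

/-- The inclusion of the underlying module of `BH` in `BQ`. -/
def incl (α : BAct A x n b g l) : (BH α).carrier →ₗ[BC F X b l] BQ α where
  toFun p := Subtype.val p
  map_add' _ _ := rfl
  map_smul' _ _ := rfl

theorem incl_injective (α : BAct A x n b g l) : Function.Injective (incl α) :=
  fun _ _ h => Subtype.ext h

theorem incl_mul (α : BAct A x n b g l) (p q : (BH α).carrier) :
    incl α (p * q) = incl α p * incl α q := rfl

/-- The constants of `BH`. -/
noncomputable def xl (α : BAct A x n b g l) (a : X) : (BH α).carrier :=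
  (⟨bw α (FreeMonoid.of (Sum.inl a)), NonUnitalAlgebra.subset_adjoin _ ⟨Sum.inl a, rfl⟩⟩ : BT α)

theorem incl_wval (α : BAct A x n b g l) : ∀ w : List X, w ≠ [] →
    incl α (wval (xl α) w) = bw α (FreeMonoid.ofList (w.map Sum.inl))
  | [], h => absurd rfl h
  | [a], _ => rfl
  | a :: a' :: l', _ => by
    have h1 := incl_wval α (a' :: l') (List.cons_ne_nil _ _)
    have h2 : (FreeMonoid.ofList ((a :: a' :: l').map Sum.inl) : FreeMonoid (X ⊕ YT n b g)) =
        FreeMonoid.of (Sum.inl a) * FreeMonoid.ofList ((a' :: l').map Sum.inl) := rfl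
    rw [h2, bw_mul, ← h1]
    rfl

/-- The span of the short words. -/
noncomputable def V (α : BAct A x n b g l) (m : ℕ) : Submodule (BC F X b l) (BQ α) :=
  Submodule.span _ {s | ∃ w, (FreeMonoid.toList w).length ≤ m ∧ s = bw α w}

theorem V_mono (α : BAct A x n b g l) {m m' : ℕ} (h : m ≤ m') : V α m ≤ V α m' := by
  refine Submodule.span_mono ?_
  rintro s ⟨w, hw, rfl⟩
  exact ⟨w, hw.trans h, rfl⟩

theorem V_word (α : BAct A x n b g l) {m : ℕ} {w : FreeMonoid (X ⊕ YT n b g)}
    (h : (FreeMonoid.toList w).length ≤ m) : bw α w ∈ V α m := Submodule.subset_span ⟨w, h, rfl⟩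

theorem V_mul (α : BAct A x n b g l) {m m' : ℕ} {p q : BQ α} (hp : p ∈ V α m) (hq : q ∈ V α m') :
    p * q ∈ V α (m + m') := by
  have h : V α m * V α m' ≤ V α (m + m') := by
    unfold V
    rw [Submodule.span_mul_span]
    refine Submodule.span_mono ?_
    rintro s ⟨p, ⟨w, hw, rfl⟩, q, ⟨w', hw', rfl⟩, rfl⟩
    refine ⟨w * w', ?_, (bw_mul α w w').symm⟩
    rw [FreeMonoid.toList_mul, List.length_append]
    exact Nat.add_le_add hw hw'
  exact h (Submodule.mul_mem_mul hp hq)

theorem V_finite [Finite X] (α : BAct A x n b g l) (m : ℕ) :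
    Module.Finite (BC F X b l) (V α m) := by
  have hf : {s : BQ α | ∃ w, (FreeMonoid.toList w).length ≤ m ∧ s = bw α w}.Finite := by
    have h1 : {w : List (X ⊕ YT n b g) | w.length ≤ m}.Finite := List.finite_length_le _ _
    refine (h1.image fun w => bw α (FreeMonoid.ofList w)).subset ?_
    rintro s ⟨w, hw, rfl⟩
    exact ⟨FreeMonoid.toList w, hw, rfl⟩
  exact Module.Finite.span_of_finite _ hf

/-- Every word is in the span of the short words. -/
theorem word_mem (α : BAct A x n b g l) {N : ℕ}
    (hN : ∀ w : List X, w ≠ [] → bw α (FreeMonoid.ofList (w.map Sum.inl)) ∈ V α N)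
    (w : List (X ⊕ YT n b g)) : ∀ w0 : List X,
    bw α (FreeMonoid.ofList (w0.map Sum.inl ++ w)) ∈
      V α ((yl (FreeMonoid.ofList w)).length * (N + 1) + N) := by
  have hN' : ∀ w : List X, bw α (FreeMonoid.ofList (w.map Sum.inl)) ∈ V α N := by
    intro w
    by_cases h : w = []
    · subst h
      exact V_word α (Nat.zero_le _)
    · exact hN w h
  induction w with
  | nil =>
    intro w0
    rw [List.append_nil]
    refine V_mono α ?_ (hN' w0)
    exact Nat.le_add_left _ _
  | cons s w ih =>
    intro w0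
    rcases s with s | s
    · have h1 : w0.map Sum.inl ++ Sum.inl s :: w = (w0 ++ [s]).map Sum.inl ++ w := by simp
      rw [h1]
      exact ih _
    · have h1 : (FreeMonoid.ofList (w0.map Sum.inl ++ Sum.inr s :: w) :
          FreeMonoid (X ⊕ YT n b g)) = FreeMonoid.ofList (w0.map Sum.inl) *
            FreeMonoid.of (Sum.inr s) * FreeMonoid.ofList (([] : List X).map Sum.inl ++ w) := by
        rw [mul_assoc]
        rfl
      rw [h1, bw_mul, bw_mul]
      have h2 := V_mul α (V_mul α (hN' w0) (V_word α (m := 1)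
        (w := FreeMonoid.of (Sum.inr s)) (le_refl 1))) (ih [])
      refine V_mono α ?_ h2
      have h3 : (yl (FreeMonoid.ofList (Sum.inr s :: w) : FreeMonoid (X ⊕ YT n b g))).length =
        (yl (FreeMonoid.ofList w : FreeMonoid (X ⊕ YT n b g))).length + 1 := rfl
      rw [h3]
      ring_nf
      exact le_refl _

/-- `BH` is in the span of the short words. -/
theorem incl_mem (α : BAct A x n b g l) {N : ℕ}
    (hN : ∀ w : List X, w ≠ [] → bw α (FreeMonoid.ofList (w.map Sum.inl)) ∈ V α N)
    (p : (BH α).carrier) : incl α p ∈ V α (Fintype.card (YT n b g) * (N + 1) + N) := by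
  have h0 : ∀ w : FreeMonoid (X ⊕ YT n b g),
      bw α w ∈ V α (Fintype.card (YT n b g) * (N + 1) + N) := by
    intro w
    by_cases h : (yl w).Nodup
    · refine V_mono α ?_ (word_mem α hN (FreeMonoid.toList w) [])
      have h1 : (yl w).length ≤ Fintype.card (YT n b g) := h.length_le_card
      exact Nat.add_le_add_right (Nat.mul_le_mul_right _ h1) _
    · rw [bw_eq_zero α h]
      exact Submodule.zero_mem _
  have h2 : (Subtype.val p : BQ α) ∈ NonUnitalAlgebra.adjoin (BC F X b l)
      (Set.range fun z => bw α (FreeMonoid.of z)) := Subtype.property p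
  show (Subtype.val p : BQ α) ∈ _
  have h3 : ∀ q ∈ NonUnitalAlgebra.adjoin (BC F X b l)
      (Set.range fun z => bw α (FreeMonoid.of z)),
      q ∈ Submodule.span (BC F X b l) (Set.range (bw α)) := by
    intro q hq
    induction hq using NonUnitalAlgebra.adjoin_induction with
    | mem q hq =>
      obtain ⟨z, rfl⟩ := hq
      exact Submodule.subset_span ⟨_, rfl⟩
    | add q q' _ _ h h' => exact Submodule.add_mem _ h h'
    | zero => exact Submodule.zero_mem _
    | mul q q' _ _ h h' =>
      have h4 := Submodule.mul_mem_mul h h'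
      rw [Submodule.span_mul_span] at h4
      refine Submodule.span_mono ?_ h4
      rintro s ⟨_, ⟨w, rfl⟩, _, ⟨w', rfl⟩, rfl⟩
      exact ⟨w * w', bw_mul α w w'⟩
    | smul c q _ h => exact Submodule.smul_mem _ _ h
  refine Submodule.span_le.2 ?_ (h3 _ h2)
  rintro _ ⟨w, rfl⟩
  exact h0 w

theorem bh_fin [CharZero F] [Fintype X] (hx : Gen A x) {n1 : ℕ} (hv : Van A n1 b (g + 1))
    (hn : n1 + 2 ≤ n) {d : ℕ} (hpi : PIdeg A d) :
    ∃ l, ∀ α : BAct A x n b g l, BNewt α → CFin (BH α) := by
  obtain ⟨N, hN⟩ := shi2_row (F := F) (Fintype.card X) d (b + 1) (Nat.succ_pos b)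
  refine ⟨N, fun α hb => ?_⟩
  have t1 : IsScalarTower F (BC F X b N) (BH α).carrier := by
    refine ⟨fun c c' p => ?_⟩
    show (c • c') • p = (algebraMap F (BC F X b N) c) • (c' • p)
    rw [Algebra.smul_def, mul_smul]
  have t2 : IsScalarTower (BC F X b N) (BH α).carrier (BH α).carrier :=
    ⟨fun c p q => BT.smul_mul α c p q⟩
  have t3 : SMulCommClass (BC F X b N) (BH α).carrier (BH α).carrier :=
    ⟨fun c p q => (BT.mul_smul α c p q).symm⟩
  have hpi' : PIdeg (BH α) d := by
    obtain ⟨p, hp, hc, hs⟩ := hpi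
    exact ⟨p, hp, hc, bh_idle α _ p hp hs⟩
  have hne : ∀ (w : List X) (k : ℕ), w ≠ [] → 1 ≤ k → (List.replicate k w).flatten ≠ [] := by
    intro w k hw hk h
    rw [List.flatten_eq_nil_iff] at h
    exact hw (h w (List.mem_replicate.2 ⟨by omega, rfl⟩))
  have hmap : ∀ (w : List X) (k : ℕ), ((List.replicate k w).flatten.map Sum.inl :
      List (X ⊕ YT n b g)) = (List.replicate k (w.map Sum.inl)).flatten := by
    intro w k
    rw [List.map_flatten, List.map_replicate]
  have h1 := hN (BH α) (BC F X b N) X (xl α) rfl hpi' (by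
    intro w hw hl
    have h2 := bh_rel hx hv hn α hb w hw hl
    have h3 : incl α (wval (xl α) (List.replicate (b + 1) w).flatten) ∈
        (Submodule.span (BC F X b N) {s | ∃ k, 1 ≤ k ∧ k < b + 1 ∧
          s = wval (xl α) (List.replicate k w).flatten}).map (incl α) := by
      rw [incl_wval α _ (hne w _ hw (Nat.succ_pos b)), hmap]
      rw [Submodule.map_span]
      refine Submodule.span_mono ?_ h2
      rintro s ⟨k, hk, hk', rfl⟩
      exact ⟨_, ⟨k, hk, hk', rfl⟩, by rw [incl_wval α _ (hne w _ hw hk), hmap]⟩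
    obtain ⟨p, hp, hp'⟩ := h3
    rw [← incl_injective α hp']
    exact hp)
  have h2 : ∀ w : List X, w ≠ [] → bw α (FreeMonoid.ofList (w.map Sum.inl)) ∈ V α N := by
    intro w hw
    have h3 := Submodule.mem_map_of_mem (f := incl α) (h1 w hw)
    rw [Submodule.map_span] at h3
    have h4 := incl_wval α w hw
    rw [← h4]
    refine Submodule.span_mono ?_ h3
    rintro _ ⟨_, ⟨u, hu, hu', rfl⟩, rfl⟩
    refine ⟨FreeMonoid.ofList (u.map Sum.inl), ?_, incl_wval α u hu⟩
    rw [FreeMonoid.toList_ofList, List.length_map]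
    exact hu'.le
  have hfin := V_finite α (Fintype.card (YT n b g) * (N + 1) + N)
  have hfi : Finite (BI X b N) := by
    have h5 : {w : List X | w ≠ [] ∧ w.length ≤ N}.Finite :=
      (List.finite_length_le X N).subset fun w hw => hw.2
    have h6 : Finite {w : List X // w ≠ [] ∧ w.length ≤ N} := h5
    exact inferInstance
  refine ⟨BC F X b N, inferInstance, inferInstance, inferInstance, inferInstance,
    ⟨t1, t2, t3, ?_⟩⟩
  have hno : IsNoetherianRing (BC F X b N) := inferInstance
  have hno' : IsNoetherian (BC F X b N) (V α (Fintype.card (YT n b g) * (N + 1) + N)) :=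
    inferInstance
  refine Module.Finite.of_injective
    ((incl α).codRestrict (V α (Fintype.card (YT n b g) * (N + 1) + N)) (incl_mem α h2))
    fun p q h => incl_injective α ?_
  have h7 : (((incl α).codRestrict (V α (Fintype.card (YT n b g) * (N + 1) + N))
      (incl_mem α h2) p : V α _) : BQ α) = ((incl α).codRestrict
      (V α (Fintype.card (YT n b g) * (N + 1) + N)) (incl_mem α h2) q : V α _) := by rw [h]
  exact h7

end Pool.Agent.KEM.Bh2H
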