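import Pool.Agent.KEM.BActRow
import Pool.Agent.KEM.Bh1T
import Pool.Agent.KEM.Bh2

/-!
# Row Bhat: assembly
-/

universe u

namespace Pool.Agent.KEM

open Pool.Agent.Helper29

variable {F : Type u} [Field F]

theorem bhat [CharZero F] {A : AssocAlg F} (hA : FG A) (hpi : PI A) {n b g n1 : ℕ}
    (hv : Van A n1 b (g + 1)) (hn : n1 + 2 ≤ n) :
    ∃ B : AssocAlg F, CFin B ∧ IdLe A B ∧
      (∀ (Z : Type) [Fintype Z] [DecidableEq Z] (p : FA F Z) (c : Z → Option (Fin n ⊕ Fin g)),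
        p ∈ ML F Z → Typed p n b g c → Sat B p → Sat A p) ∧
      ∀ (Z : Type) [Fintype Z] [DecidableEq Z] (p : FA F Z) (c : Z → Option (Fin n ⊕ Fin g)),
        p ∈ ML F Z → Typed p n b g c → ∀ (Z' : Type) [Fintype Z'] (q : FA F Z'), Sat B q →
        ∀ (v : Z → A.carrier) (v' : Z' → A.carrier), ev A v p * ev A v' q = 0 := by
  obtain ⟨X, _, x, hx⟩ := hA
  obtain ⟨d, hd⟩ := hpi
  obtain ⟨l, hl⟩ := Bh2H.bh_fin (x := x) hx hv hn hd
  obtain ⟨α⟩ := bact x hx hv hn l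
  exact ⟨BH α, hl α fun w hw hwl i => bnewt α w hw hwl i, bh_idle α, fun Z _ _ p c hp ht h => bh_type' hx α Z p c hp ht h,
    fun Z _ _ p c hp ht Z' _ q hq v v' => bh_ann' hx α Z p c hp ht Z' q hq v v'⟩

end Pool.Agent.KEM
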