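import Pool.Agent.Helper29.SuperEval

/-!
# Project KEM, rows CF1 and CF2

An algebra which is a finite module over a finitely generated commutative `F`-algebra has the same
multilinear identities over `F` as a finite-dimensional algebra over an algebraically closed
extension field of `F`.
-/

set_option autoImplicit false
set_option linter.style.haveILetI false

universe u

namespace Pool.Agent.KEM

open scoped TensorProduct
open Pool.Agent.Helper29

/-- a field which contains a domain is flat over it -/
theorem flat_of_injective (P K : Type u) [CommRing P] [IsDomain P] [Field K] [Algebra P K]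
    (h : Function.Injective (algebraMap P K)) : Module.Flat P K := by
  haveI : FaithfulSMul P K := (faithfulSMul_iff_algebraMap_injective P K).2 h
  letI := FractionRing.liftAlgebra P K
  haveI : IsScalarTower P (FractionRing P) K := FractionRing.isScalarTower_liftAlgebra P K
  haveI : Module.Flat P (FractionRing P) := IsLocalization.flat (FractionRing P) (nonZeroDivisors P)
  exact Module.Flat.trans P (FractionRing P) K

/-- a torsion-free module embeds in its base change to a field which contains the domain -/
theorem tmul_one_ne_zero (P K M : Type u) [CommRing P] [IsDomain P] [Field K] [Algebra P K]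
    (h : Function.Injective (algebraMap P K)) [AddCommGroup M] [Module P M]
    (hM : ∀ (p : P) (m : M), p • m = 0 → p ≠ 0 → m = 0) (m : M) (hm : (1 : K) ⊗ₜ[P] m = 0) :
    m = 0 := by
  haveI := flat_of_injective P K h
  by_contra hne
  have hinj : Function.Injective (LinearMap.toSpanSingleton P M m) := by
    rw [injective_iff_map_eq_zero]
    intro p hp
    by_contra hp0
    exact hne (hM p m hp hp0)
  have h2 := Module.Flat.lTensor_preserves_injective_linearMap (M := K) _ hinj
  have h3 : (LinearMap.lTensor K (LinearMap.toSpanSingleton P M m)) ((1 : K) ⊗ₜ[P] (1 : P)) = 0 := by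
    rw [LinearMap.lTensor_tmul, LinearMap.toSpanSingleton_apply, one_smul, hm]
  have h4 : ((1 : K) ⊗ₜ[P] (1 : P)) = 0 := h2 (by rw [h3, map_zero])
  have h5 := congrArg (TensorProduct.rid P K) h4
  rw [TensorProduct.rid_tmul, one_smul, map_zero] at h5
  exact one_ne_zero h5

/-- the algebraically closed field we use -/
abbrev Om (F : Type u) [Field F] : Type u :=
  AlgebraicClosure (FractionRing (MvPolynomial ℕ F))


/-- the embedding of polynomial rings in the field -/
noncomputable def omHom (F : Type u) [Field F] (s : ℕ) : MvPolynomial (Fin s) F →ₐ[F] Om F :=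
  (IsScalarTower.toAlgHom F (MvPolynomial ℕ F) (Om F)).comp
    (MvPolynomial.rename (R := F) (Fin.val : Fin s → ℕ))

theorem omHom_injective (F : Type u) [Field F] (s : ℕ) : Function.Injective (omHom F s) := by
  have h1 : Function.Injective (algebraMap (MvPolynomial ℕ F) (Om F)) := by
    rw [IsScalarTower.algebraMap_eq (MvPolynomial ℕ F) (FractionRing (MvPolynomial ℕ F)) (Om F)]
    exact (algebraMap (FractionRing (MvPolynomial ℕ F)) (Om F)).injective.comp
      (IsFractionRing.injective (MvPolynomial ℕ F) (FractionRing (MvPolynomial ℕ F)))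
  exact h1.comp (MvPolynomial.rename_injective _ Fin.val_injective)

/-- an `F`-linear multiplicative additive map to matrices -/
structure IsRep (F : Type u) [Field F] {E : Type u} [NonUnitalRing E] [Module F E] {n : ℕ}
    (φ : E → Matrix (Fin n) (Fin n) (Om F)) : Prop where
  add : ∀ x y, φ (x + y) = φ x + φ y
  mul : ∀ x y, φ (x * y) = φ x * φ y
  smul : ∀ (a : F) (x), φ (a • x) = algebraMap F (Om F) a • φ x

section fitting

variable {F C E M : Type u} [Field F] [CommRing C] [Algebra F C] [Algebra.FiniteType F C]
  [Ring E] [Algebra C E] [AddCommGroup M] [Module C M] [Module E M] [IsScalarTower C E M]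
  [Module.Finite C M]

include F in
/-- central elements are injective or nilpotent on an irreducible module -/
theorem fitting (hirr : ∀ K₁ K₂ : Submodule E M, K₁ ⊓ K₂ = ⊥ → K₁ = ⊥ ∨ K₂ = ⊥) (c : C) :
    (∀ m : M, c • m = 0 → m = 0) ∨ ∃ n : ℕ, ∀ m : M, c ^ n • m = 0 := by
  have hN : IsNoetherianRing C := Algebra.FiniteType.isNoetherianRing F C
  have h1 : IsNoetherian C M := inferInstance
  have h2 : IsNoetherian E M := isNoetherian_of_tower C h1
  have hcomm : SMulCommClass C E M := IsScalarTower.to_smulCommClass
  set T : Module.End E M := DistribSMul.toLinearMap E M c with hT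
  have hTn : ∀ (n : ℕ) (m : M), (T ^ n) m = c ^ n • m := by
    intro n
    induction n with
    | zero => intro m; simp
    | succ k ih => intro m; rw [pow_succ, Module.End.mul_apply, ih, hT]; simp [pow_succ, mul_smul]
  obtain ⟨n, hn, hn1⟩ := ((Module.End.eventually_disjoint_ker_pow_range_pow T).and
    (Filter.eventually_ge_atTop 1)).exists
  rcases hirr _ _ (disjoint_iff.1 hn) with h | h
  · left
    intro m hm
    have h3 : m ∈ LinearMap.ker (T ^ n) := by
      obtain ⟨k, rfl⟩ := Nat.exists_eq_add_of_le' hn1
      rw [LinearMap.mem_ker, hTn, pow_succ, mul_smul, hm, smul_zero]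
    rw [h] at h3
    exact h3
  · right
    refine ⟨n, fun m => ?_⟩
    rw [← hTn]
    have h3 : (T ^ n) m ∈ LinearMap.range (T ^ n) := ⟨m, rfl⟩
    rw [h] at h3
    exact h3

end fitting

section rep

/-- an irreducible module gives a matrix representation -/
theorem exists_rep (F C E M : Type u) [Field F] [CommRing C] [Algebra F C]
    [Algebra.FiniteType F C] [Ring E] [Algebra C E] [Algebra F E] [IsScalarTower F C E]
    [AddCommGroup M] [Module C M] [Module E M] [IsScalarTower C E M]
    [Module.Finite C M] [Nontrivial M]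
    (hirr : ∀ K₁ K₂ : Submodule E M, K₁ ⊓ K₂ = ⊥ → K₁ = ⊥ ∨ K₂ = ⊥) :
    ∃ (n : ℕ) (φ : E → Matrix (Fin n) (Fin n) (Om F)), IsRep F φ ∧
      ∀ e, φ e = 0 → ∀ m : M, e • m = 0 := by
  have hfit := fitting (F := F) (C := C) hirr
  have hcomm : SMulCommClass C E M := IsScalarTower.to_smulCommClass
  -- the faithful quotient of `C`
  let I : Ideal C := Module.annihilator C M
  letI : Module (C ⧸ I) M := Module.quotientAnnihilator
  have hmk : ∀ (c : C) (m : M), (Ideal.Quotient.mk I c) • m = c • m := fun c m => rfl
  have htower : IsScalarTower C (C ⧸ I) M :=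
    ⟨fun c q m => by
      obtain ⟨d, rfl⟩ := Ideal.Quotient.mk_surjective q
      change (Ideal.Quotient.mk I (c * d)) • m = c • ((Ideal.Quotient.mk I d) • m)
      rw [hmk, hmk, mul_smul]⟩
  have hfinQ : Module.Finite (C ⧸ I) M := Module.Finite.of_restrictScalars_finite C (C ⧸ I) M
  have hnt : Nontrivial (C ⧸ I) := by
    refine Ideal.Quotient.nontrivial_iff.2 fun h => ?_
    obtain ⟨m, hm⟩ := exists_ne (0 : M)
    have h1 : (1 : C) ∈ I := by rw [h]; trivial
    exact hm (by simpa using (Module.mem_annihilator.1 h1) m)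
  obtain ⟨s, g, hg, hgf⟩ := exists_finite_inj_algHom_of_fg F (C ⧸ I)
  letI : Algebra (MvPolynomial (Fin s) F) (C ⧸ I) := g.toRingHom.toAlgebra
  haveI : Module.Finite (MvPolynomial (Fin s) F) (C ⧸ I) := hgf
  letI : Module (MvPolynomial (Fin s) F) M := Module.compHom M g.toRingHom
  have hP : ∀ (p : MvPolynomial (Fin s) F) (m : M), p • m = g p • m := fun p m => rfl
  haveI : IsScalarTower (MvPolynomial (Fin s) F) (C ⧸ I) M :=
    ⟨fun p q m => by rw [hP, Algebra.smul_def, mul_smul]; rfl⟩
  haveI : Module.Finite (MvPolynomial (Fin s) F) M := Module.Finite.trans (C ⧸ I) M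
  have hPE : ∀ (e : E) (p : MvPolynomial (Fin s) F) (m : M), e • p • m = p • e • m := by
    intro e p m
    obtain ⟨c, hc⟩ := Ideal.Quotient.mk_surjective (g p)
    rw [hP, hP, ← hc, hmk, hmk, smul_comm]
  have htf : ∀ (p : MvPolynomial (Fin s) F) (m : M), p • m = 0 → p ≠ 0 → m = 0 := by
    intro p m hpm hp
    obtain ⟨c, hc⟩ := Ideal.Quotient.mk_surjective (g p)
    rcases hfit c with h | ⟨n, hn⟩
    · exact h m (by rw [← hmk, hc, ← hP, hpm])
    · exfalso
      have h1 : c ^ n ∈ I := Module.mem_annihilator.2 hn
      have h2 : g (p ^ n) = 0 := by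
        rw [map_pow, ← hc, ← map_pow]
        exact Ideal.Quotient.eq_zero_iff_mem.2 h1
      exact pow_ne_zero n hp (hg (by rw [h2, map_zero]))
  letI : Algebra (MvPolynomial (Fin s) F) (Om F) := (omHom F s).toRingHom.toAlgebra
  have hinj : Function.Injective (algebraMap (MvPolynomial (Fin s) F) (Om F)) :=
    omHom_injective F s
  let T : E → M →ₗ[MvPolynomial (Fin s) F] M := fun e =>
    { toFun := fun m => e • m
      map_add' := fun x y => smul_add e x y
      map_smul' := fun p m => hPE e p m }
  let b := Module.finBasis (Om F) ((Om F) ⊗[MvPolynomial (Fin s) F] M)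
  refine ⟨_, fun e => LinearMap.toMatrix b b ((T e).baseChange (Om F)), ⟨?_, ?_, ?_⟩, ?_⟩
  · intro x y
    have h1 : T (x + y) = T x + T y := LinearMap.ext fun m => add_smul x y m
    rw [h1, LinearMap.baseChange_add, map_add]
  · intro x y
    have h1 : T (x * y) = T x ∘ₗ T y := LinearMap.ext fun m => mul_smul x y m
    rw [h1, LinearMap.baseChange_comp, LinearMap.toMatrix_comp b b b]
  · intro a x
    have h1 : T (a • x) = (MvPolynomial.C a : MvPolynomial (Fin s) F) • T x := by
      refine LinearMap.ext fun m => ?_
      change (a • x) • m = g (MvPolynomial.C a) • (x • m)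
      have h2 : g (MvPolynomial.C a) = Ideal.Quotient.mk I (algebraMap F C a) := by
        rw [← MvPolynomial.algebraMap_eq, AlgHom.commutes]
        rfl
      rw [h2, hmk, ← smul_assoc, algebraMap_smul]
    rw [h1, LinearMap.baseChange_smul]
    have h3 : ∀ (p : MvPolynomial (Fin s) F)
        (t : ((Om F) ⊗[MvPolynomial (Fin s) F] M) →ₗ[Om F] ((Om F) ⊗[MvPolynomial (Fin s) F] M)),
        p • t = (omHom F s p) • t := by
      intro p t
      refine LinearMap.ext fun v => ?_
      rw [LinearMap.smul_apply, LinearMap.smul_apply]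
      exact (algebraMap_smul (Om F) p (t v)).symm
    rw [h3, map_smul, ← MvPolynomial.algebraMap_eq, AlgHom.commutes]
  · intro e he m
    have h1 : (T e).baseChange (Om F) = 0 := (LinearMap.toMatrix b b).injective
      (he.trans (map_zero _).symm)
    have h2 : ((T e).baseChange (Om F)) ((1 : Om F) ⊗ₜ m) = 0 := by rw [h1]; rfl
    rw [LinearMap.baseChange_tmul] at h2
    exact tmul_one_ne_zero (MvPolynomial (Fin s) F) (Om F) M hinj htf _ h2

end rep

section main

/-- a unital algebra which is a finite module over a finitely generated commutative algebra embeds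
in a finite product of matrix algebras -/
theorem exists_reps (F C E : Type u) [Field F] [CommRing C] [Algebra F C]
    [Algebra.FiniteType F C] [Ring E] [Algebra C E] [Algebra F E] [IsScalarTower F C E]
    [Module.Finite C E] :
    ∃ (ι : Type u) (_ : Fintype ι) (n : ι → ℕ) (φ : ∀ i, E → Matrix (Fin (n i)) (Fin (n i)) (Om F)),
      (∀ i, IsRep F (φ i)) ∧ ∀ e, (∀ i, φ i e = 0) → e = 0 := by
  have hN : IsNoetherianRing C := Algebra.FiniteType.isNoetherianRing F C
  have h1 : IsNoetherian C E := inferInstance
  have h2 : IsNoetherian E E := isNoetherian_of_tower C h1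
  obtain ⟨S, hS, hirr⟩ := exists_infIrred_decomposition (⊥ : Submodule E E)
  have key : ∀ N : {N // N ∈ S}, ∃ (n : ℕ) (φ : E → Matrix (Fin n) (Fin n) (Om F)), IsRep F φ ∧
      ∀ e, φ e = 0 → e ∈ N.1 := by
    rintro ⟨N, hNS⟩
    have hN := hirr hNS
    have hnt : Nontrivial (E ⧸ N) :=
      Submodule.Quotient.nontrivial_iff.2 fun h => hN.1 (by rw [h]; exact isMax_top)
    obtain ⟨n, φ, hφ, hk⟩ := exists_rep F C E (E ⧸ N) (by
      intro K₁ K₂ hK
      have h3 : K₁.comap N.mkQ ⊓ K₂.comap N.mkQ = N := by
        rw [← Submodule.comap_inf, hK, Submodule.comap_bot, Submodule.ker_mkQ]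
      have h4 : ∀ K : Submodule E (E ⧸ N), K.comap N.mkQ = N → K = ⊥ := by
        intro K h
        rw [← Submodule.map_comap_eq_of_surjective N.mkQ_surjective K, h, Submodule.mkQ_map_self]
      rcases hN.2 h3 with h | h
      · exact Or.inl (h4 _ h)
      · exact Or.inr (h4 _ h))
    refine ⟨n, φ, hφ, fun e he => ?_⟩
    have h5 := hk e he (N.mkQ 1)
    rw [← map_smul, smul_eq_mul, mul_one] at h5
    exact (Submodule.Quotient.mk_eq_zero N).1 h5
  choose n φ hφ hk using key
  refine ⟨ULift.{u} {N // N ∈ S}, inferInstance, fun i => n i.down, fun i => φ i.down,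
    fun i => hφ i.down, fun e he => ?_⟩
  have h6 : e ∈ S.inf id := by
    rw [Submodule.mem_finsetInf]
    exact fun N hN => hk ⟨N, hN⟩ e (he ⟨⟨N, hN⟩⟩)
  rw [hS] at h6
  exact h6

/-- a non-unital algebra with an injective representation in a finite-dimensional algebra has the
same identities as the span of its image -/
theorem exists_fd_of_rep {F L : Type u} [Field F] [Field L] [Algebra F L] (B : AssocAlg F)
    (U : Type u) [Ring U] [Algebra L U] [Module.Finite L U] (ψ : B.carrier → U)
    (hadd : ∀ x y, ψ (x + y) = ψ x + ψ y) (hmul : ∀ x y, ψ (x * y) = ψ x * ψ y)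
    (hsmul : ∀ (a : F) (x), ψ (a • x) = algebraMap F L a • ψ x)
    (hinj : ∀ x, ψ x = 0 → x = 0) :
    ∃ A : AssocAlg L, Module.Finite L A.carrier ∧
      ∀ f : MLPoly F, (A.restrict F).Satisfies f ↔ B.Satisfies f := by
  let A0 : NonUnitalSubalgebra L U := NonUnitalAlgebra.adjoin L (Set.range ψ)
  have hψ : ∀ b, ψ b ∈ A0 := fun b => NonUnitalAlgebra.subset_adjoin L ⟨b, rfl⟩
  have hspan : ∀ x ∈ A0, x ∈ Submodule.span L (Set.range ψ) := by
    intro x hx
    have h1 : x ∈ A0.toSubmodule := hx
    rw [NonUnitalAlgebra.adjoin_eq_span] at h1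
    refine Submodule.span_mono ?_ h1
    let T : Subsemigroup U :=
      { carrier := Set.range ψ
        mul_mem' := by
          rintro _ _ ⟨b, rfl⟩ ⟨b', rfl⟩
          exact ⟨b * b', hmul b b'⟩ }
    exact (Subsemigroup.closure_le (S := T)).2 subset_rfl
  let A : AssocAlg L :=
    { carrier := A0
      smul_mul := fun c a b => smul_mul_assoc c a b
      mul_smul := fun c a b => mul_smul_comm c a b }
  have hfin : Module.Finite L A.carrier := by
    change Module.Finite L A0.toSubmodule
    infer_instance
  have hzero : ψ 0 = 0 := by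
    have h := hadd 0 0
    rw [add_zero] at h
    exact add_eq_left.1 h.symm
  have hsum : ∀ {ι : Type} (s : Finset ι) (v : ι → B.carrier),
      ψ (∑ i ∈ s, v i) = ∑ i ∈ s, ψ (v i) := by
    intro ι s v
    classical
    induction s using Finset.induction_on with
    | empty => simpa using hzero
    | insert i s hi ih => rw [Finset.sum_insert hi, Finset.sum_insert hi, hadd, ih]
  -- evaluation in the big algebra
  have hval : ∀ (f : MLPoly F) (b : Fin (f.n + 1) → B.carrier),
      evalML U (fun σ => algebraMap F L (f.coeff σ)) (fun i => ψ (b i)) =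
        ψ (∑ σ, f.coeff σ • nprod (fun i => b (σ i))) := by
    intro f b
    rw [evalML_apply, hsum]
    refine Finset.sum_congr rfl fun σ _ => ?_
    rw [hsmul, nprod_map ψ hmul]
  have hA : ∀ (f : MLPoly F) (a : Fin (f.n + 1) → A0),
      ((∑ σ, algebraMap F L (f.coeff σ) • nprod (fun i => a (σ i)) : A0) : U) =
        evalML U (fun σ => algebraMap F L (f.coeff σ)) (fun i => (a i : U)) := by
    intro f a
    rw [evalML_apply, AddSubmonoidClass.coe_finsetSum]
    refine Finset.sum_congr rfl fun σ _ => ?_
    change algebraMap F L (f.coeff σ) • ((nprod (fun i => a (σ i)) : A0) : U) = _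
    rw [nprod_map (fun x : A0 => (x : U)) (fun x y => rfl)]
  refine ⟨A, hfin, fun f => ⟨fun h b => ?_, fun h a => ?_⟩⟩
  · have h1 := h (fun i => (⟨ψ (b i), hψ (b i)⟩ : A0))
    have h2 : (∑ σ, algebraMap F L (f.coeff σ) •
        nprod (fun i => (⟨ψ (b (σ i)), hψ (b (σ i))⟩ : A0)) : A0) = 0 := h1
    have h3 := hA f (fun i => (⟨ψ (b i), hψ (b i)⟩ : A0))
    rw [h2] at h3
    refine hinj _ ?_
    rw [← hval f b]
    exact h3.symm
  · let a' : Fin (f.n + 1) → A0 := a
    have h4 : (evalML U (fun σ => algebraMap F L (f.coeff σ))) (fun i => (a' i : U)) = 0 := by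
      refine MultilinearMap_eq_zero_of_span _ (fun _ => Set.range ψ) (fun v hv => ?_) _
        (fun i => hspan _ (a' i).2)
      choose b hb using hv
      have : v = fun i => ψ (b i) := funext fun i => (hb i).symm
      rw [this, hval f b, h b, hzero]
    have h5 := hA f a'
    rw [h4] at h5
    exact Subtype.ext h5

/-- Rows CF1 and CF2. -/
theorem cfinite_fd (F C : Type u) [Field F] [CommRing C] [Algebra F C]
    [Algebra.FiniteType F C] (B : AssocAlg F) [Module C B.carrier] [IsScalarTower F C B.carrier]
    [IsScalarTower C B.carrier B.carrier] [SMulCommClass C B.carrier B.carrier]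
    [Module.Finite C B.carrier] :
    ∃ (L : Type u) (_ : Field L) (_ : Algebra F L) (_ : IsAlgClosed L) (A : AssocAlg L),
      Module.Finite L A.carrier ∧
      ∀ f : MLPoly F, (A.restrict F).Satisfies f ↔ B.Satisfies f := by
  haveI : Module.Finite C (Unitization C B.carrier) := by
    let e : (C × B.carrier) →ₗ[C] Unitization C B.carrier :=
      { toFun := fun p => Unitization.inl p.1 + Unitization.inr p.2
        map_add' := fun x y => by
          ext <;> simp
        map_smul' := fun c x => by
          ext <;> simp }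
    exact Module.Finite.of_surjective e fun x => ⟨(x.fst, x.snd), Unitization.inl_fst_add_inr_snd_eq x⟩
  obtain ⟨ι, _, n, φ, hφ, hk⟩ := exists_reps F C (Unitization C B.carrier)
  refine ⟨Om F, inferInstance, inferInstance, inferInstance, ?_⟩
  refine exists_fd_of_rep B (∀ i, Matrix (Fin (n i)) (Fin (n i)) (Om F))
    (fun b i => φ i (Unitization.inr b)) (fun x y => ?_) (fun x y => ?_) (fun a x => ?_)
    (fun x hx => ?_)
  · funext i
    rw [Unitization.inr_add]
    exact (hφ i).add _ _
  · funext i
    rw [Unitization.inr_mul]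
    exact (hφ i).mul _ _
  · funext i
    rw [Unitization.inr_smul]
    exact (hφ i).smul _ _
  · exact Unitization.inr_injective (R := C) (by
      rw [hk _ (fun i => congrFun hx i), Unitization.inr_zero])

end main

end Pool.Agent.KEM
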