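import Pool.Agent.KEM.Api

/-!
# Comparison of the multilinear polynomials `ML F Z` with `MLPoly F`
-/

universe u

namespace Pool.Agent.KEM

open Pool.Agent.Helper29

variable {F : Type u} [Field F]

/-- The word of a permutation. -/
def pword {N : ℕ} (τ : Equiv.Perm (Fin N)) : FreeMonoid (Fin N) := FreeMonoid.ofList (List.ofFn τ)

theorem mlw_pword {n : ℕ} (τ : Equiv.Perm (Fin (n + 1))) : MLW (pword τ) := by
  refine ⟨?_, ?_, ?_⟩
  · rw [pword, FreeMonoid.toList_ofList]
    intro h
    have := congrArg List.length h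
    simp at this
  · rw [pword, FreeMonoid.toList_ofList, List.nodup_ofFn]
    exact τ.injective
  · intro z
    rw [pword, FreeMonoid.toList_ofList, List.mem_ofFn]
    exact τ.surjective z

theorem pword_injective {n : ℕ} : Function.Injective (pword (N := n)) := by
  intro σ τ h
  have h1 : List.ofFn σ = List.ofFn τ := FreeMonoid.ofList.injective h
  have h2 := List.ofFn_injective h1
  exact Equiv.ext fun i => congrFun h2 i

/-- The polynomial with given coefficients. -/
noncomputable def polyOf {n : ℕ} (c : Equiv.Perm (Fin (n + 1)) → F) : FA F (Fin (n + 1)) :=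
  ∑ σ, c σ • mon F (pword σ)

theorem polyOf_mem {n : ℕ} (c : Equiv.Perm (Fin (n + 1)) → F) :
    polyOf c ∈ ML F (Fin (n + 1)) :=
  Submodule.sum_mem _ fun σ _ => Submodule.smul_mem _ _
    (Submodule.subset_span ⟨pword σ, mlw_pword σ, rfl⟩)

theorem inc_nprod (A : AssocAlg F) : ∀ {n : ℕ} (a : Fin (n + 1) → A.carrier),
    inc A (nprod a) = (List.ofFn fun i => inc A (a i)).prod
  | 0, a => by simp [nprod]
  | (n + 1), a => by
    have h : inc A (nprod a) = inc A (nprod fun i : Fin (n + 1) => a i.castSucc) *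
        inc A (a (Fin.last _)) := inc_mul A _ _
    rw [h, inc_nprod A, List.ofFn_succ' (fun i => inc A (a i)), List.concat_eq_append,
      List.prod_append, List.prod_singleton]

theorem ev_pword (A : AssocAlg F) {n : ℕ} (v : Fin (n + 1) → A.carrier)
    (σ : Equiv.Perm (Fin (n + 1))) :
    ev A v (mon F (pword σ)) = inc A (nprod fun i => v (σ i)) := by
  rw [pword, ev_mon_ofList, inc_nprod, List.map_ofFn]
  rfl

theorem ev_polyOf (A : AssocAlg F) {n : ℕ} (c : Equiv.Perm (Fin (n + 1)) → F)
    (v : Fin (n + 1) → A.carrier) :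
    ev A v (polyOf c) = inc A (∑ σ, c σ • nprod fun i => v (σ i)) := by
  rw [polyOf, map_sum, inc_sum]
  refine Finset.sum_congr rfl fun σ _ => ?_
  rw [map_smul, ev_pword, inc_smul]

theorem sat_polyOf (A : AssocAlg F) (f : MLPoly F) : Sat A (polyOf f.coeff) ↔ A.Satisfies f := by
  unfold Sat AssocAlg.Satisfies
  refine forall_congr' fun v => ?_
  rw [ev_polyOf, inc_eq_zero]

/-- A multilinear polynomial is zero or the renaming of a `polyOf`. -/
theorem exists_polyOf {Z : Type} {p : FA F Z} (hp : p ∈ ML F Z) (h0 : p ≠ 0) :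
    ∃ (n : ℕ) (e : Fin (n + 1) ≃ Z) (c : Equiv.Perm (Fin (n + 1)) → F), p = ren e (polyOf c) := by
  classical
  have h1 : ∃ w : FreeMonoid Z, MLW w := by
    by_contra hcon
    push Not at hcon
    apply h0
    have : ML F Z = ⊥ := by
      unfold ML
      rw [Submodule.span_eq_bot]
      rintro x ⟨w, hw, _⟩
      exact absurd hw (hcon w)
    rw [this] at hp
    exact (Submodule.mem_bot F).1 hp
  obtain ⟨w, hw1, hw2, hw3⟩ := h1
  obtain ⟨n, hn⟩ : ∃ n, (FreeMonoid.toList w).length = n + 1 :=
    Nat.exists_eq_succ_of_ne_zero (by rwa [Ne, List.length_eq_zero_iff])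
  let e : Fin (n + 1) ≃ Z := (finCongr hn.symm).trans
    (List.Nodup.getEquivOfForallMemList (FreeMonoid.toList w) hw2 hw3)
  refine ⟨n, e, ?_⟩
  clear h0
  unfold ML at hp
  induction hp using Submodule.span_induction with
  | mem x hx =>
    obtain ⟨u, ⟨hu1, hu2, hu3⟩, rfl⟩ := hx
    have hlen : (FreeMonoid.toList u).length = n + 1 := by
      rw [← hn]
      exact (List.perm_ext_iff_of_nodup hu2 hw2).2 (fun z => ⟨fun _ => hw3 z, fun _ => hu3 z⟩)
        |>.length_eq
    let e' : Fin (n + 1) ≃ Z := (finCongr hlen.symm).trans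
      (List.Nodup.getEquivOfForallMemList (FreeMonoid.toList u) hu2 hu3)
    refine ⟨Pi.single (e'.trans e.symm) 1, ?_⟩
    unfold polyOf
    rw [Finset.sum_eq_single (e'.trans e.symm)]
    · rw [Pi.single_eq_same, one_smul, ren_mon]
      congr 1
      apply FreeMonoid.toList.injective
      rw [FreeMonoid.toList_map, pword, FreeMonoid.toList_ofList, List.map_ofFn]
      refine List.ext_getElem (by rw [List.length_ofFn, hlen]) fun i h1 h2 => ?_
      rw [List.getElem_ofFn, Function.comp_apply]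
      have h3 : e ((e'.trans e.symm) ⟨i, by rwa [List.length_ofFn] at h2⟩) =
          e' ⟨i, by rwa [List.length_ofFn] at h2⟩ := e.apply_symm_apply _
      exact h3.symm
    · intro σ _ hσ
      rw [Pi.single_eq_of_ne hσ, zero_smul]
    · intro h; exact absurd (Finset.mem_univ _) h
  | zero => exact ⟨0, by simp [polyOf]⟩
  | add x y _ _ hx hy =>
    obtain ⟨c, hc⟩ := hx
    obtain ⟨c', hc'⟩ := hy
    refine ⟨c + c', ?_⟩
    rw [hc, hc', ← map_add]
    congr 1
    unfold polyOf
    rw [← Finset.sum_add_distrib]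
    exact Finset.sum_congr rfl fun σ _ => by rw [Pi.add_apply, add_smul]
  | smul a x _ hx =>
    obtain ⟨c, hc⟩ := hx
    refine ⟨a • c, ?_⟩
    rw [hc, ← map_smul]
    congr 1
    unfold polyOf
    rw [Finset.smul_sum]
    exact Finset.sum_congr rfl fun σ _ => by rw [Pi.smul_apply, smul_assoc]

theorem conv {A B : AssocAlg F} :
    IdLe A B ↔ ∀ f : MLPoly F, A.Satisfies f → B.Satisfies f := by
  constructor
  · intro h f hf
    exact (sat_polyOf B f).1 (h _ _ (polyOf_mem _) ((sat_polyOf A f).2 hf))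
  · intro h Z p hp hA
    by_cases h0 : p = 0
    · rw [h0]; exact Sat.zero
    · obtain ⟨n, e, c, rfl⟩ := exists_polyOf hp h0
      rw [sat_ren_equiv] at hA ⊢
      exact (sat_polyOf B ⟨n, c⟩).2 (h _ ((sat_polyOf A ⟨n, c⟩).1 hA))

theorem conv_list {B : AssocAlg F} (l : List (AssocAlg F))
    (h : ∀ (Z : Type) [Fintype Z] (p : FA F Z), p ∈ ML F Z → (∀ A ∈ l, Sat A p) → Sat B p)
    (f : MLPoly F) (hf : ∀ A ∈ l, A.Satisfies f) : B.Satisfies f :=
  (sat_polyOf B f).1 (h _ _ (polyOf_mem _) fun A hA => (sat_polyOf A f).2 (hf A hA))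

theorem conv_pi {A : AssocAlg F} (f : MLPoly F) (hf : A.Satisfies f)
    (h0 : ∃ σ, f.coeff σ ≠ 0) : PI A := by
  classical
  obtain ⟨τ, hτ⟩ := h0
  have hmon : ∀ σ : Equiv.Perm (Fin (f.n + 1)),
      ren (F := F) τ.symm (mon F (pword σ)) = mon F (pword (τ⁻¹ * σ)) := by
    intro σ
    rw [ren_mon]
    congr 1
    apply FreeMonoid.toList.injective
    rw [FreeMonoid.toList_map, pword, pword, FreeMonoid.toList_ofList, FreeMonoid.toList_ofList,
      List.map_ofFn]
    rfl
  have hren : ren τ.symm (polyOf f.coeff) = ∑ σ, f.coeff σ • mon F (pword (τ⁻¹ * σ)) := by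
    rw [polyOf, map_sum]
    exact Finset.sum_congr rfl fun σ _ => by rw [map_smul, hmon]
  refine ⟨f.n + 1, (f.coeff τ)⁻¹ • ren τ.symm (polyOf f.coeff), ?_, ?_, ?_⟩
  · rw [hren]
    refine Submodule.smul_mem _ _ (Submodule.sum_mem _ fun σ _ => Submodule.smul_mem _ _
      (Submodule.subset_span ⟨_, mlw_pword _, rfl⟩))
  · have h1 : FreeMonoid.ofList (List.finRange (f.n + 1)) = pword (1 : Equiv.Perm (Fin (f.n + 1))) := by
      rw [pword]
      congr 1
    rw [hren, h1, MonoidAlgebra.coeff_smul_apply, MonoidAlgebra.coeff_sum,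
      Finsupp.finsetSum_apply, Finset.sum_eq_single τ]
    · rw [inv_mul_cancel, MonoidAlgebra.coeff_smul_apply, mon, MonoidAlgebra.coeff_single,
        Finsupp.single_eq_same, smul_eq_mul, smul_eq_mul, mul_one, inv_mul_cancel₀ hτ]
    · intro σ _ hσ
      rw [MonoidAlgebra.coeff_smul_apply, mon, MonoidAlgebra.coeff_single,
        Finsupp.single_eq_of_ne, smul_zero]
      intro h2
      have h3 := pword_injective h2
      apply hσ
      exact (inv_mul_eq_one.1 h3.symm).symm
    · intro h; exact absurd (Finset.mem_univ _) h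
  · exact (((sat_polyOf A f).2 hf).ren _).smul _

end Pool.Agent.KEM
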