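import Pool.Agent.KEM.CF
import Pool.Agent.KEM.Conv

/-!
# Project KEM, row CF: the final form
-/

set_option autoImplicit false

universe u

namespace Pool.Agent.KEM

open Pool.Agent.Helper29

variable {F : Type u} [Field F]

theorem sat_iff_of_satisfies {A B : AssocAlg F} (h : ∀ f : MLPoly F, A.Satisfies f ↔ B.Satisfies f)
    {Z : Type} (p : FA F Z) (hp : p ∈ ML F Z) : Sat A p ↔ Sat B p :=
  ⟨(conv (A := A) (B := B)).2 (fun f => (h f).1) Z p hp,
    (conv (A := B) (B := A)).2 (fun f => (h f).2) Z p hp⟩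

theorem cf [CharZero F] {B : AssocAlg F} (hB : CFin B) :
    ∃ A : AssocAlg F, IsFD A ∧ ∀ (Z : Type) [Fintype Z] (p : FA F Z), p ∈ ML F Z →
      (Sat A p ↔ Sat B p) := by
  obtain ⟨C, _, _, _, _, ht, hs, hc, hf⟩ := hB
  obtain ⟨L, _, _, _, A, hA, h⟩ := cfinite_fd F C B
  let _ : Module L (A.restrict F).carrier := A.module
  have hfin : FinOver F L (A.restrict F) :=
    { tower := ⟨fun a l x => by
        rw [Algebra.smul_def]
        exact mul_smul (algebraMap F L a) l (x : A.carrier)⟩
      smul_mul := ⟨fun l x y => A.smul_mul l x y⟩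
      comm := ⟨fun l x y => (A.mul_smul l x y).symm⟩
      fin := hA }
  exact ⟨A.restrict F, ⟨L, inferInstance, inferInstance, inferInstance, A.module, hfin⟩,
    fun Z _ p hp => sat_iff_of_satisfies h p hp⟩

end Pool.Agent.KEM
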