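import Pool.Agent.KEM.Spar

/-!
# The Capelli identity

A finitely generated algebra with a multilinear identity satisfies all multilinear polynomials that
alternate in a large set of variables.
-/

set_option autoImplicit false

open Equiv

universe u

namespace Pool.Agent.KEM.Cp

open Pool.Agent.Helper29

variable {F : Type u} [Field F]

section multilinear

variable {V W : Type*} [AddCommGroup V] [Module F V] [AddCommGroup W] [Module F W]

theorem multilinear_zero {K : ℕ} (g : MultilinearMap F (fun _ : Fin K => V) W) (S : Set V)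
    (hS : Submodule.span F S = ⊤) (h : ∀ y, (∀ k, y k ∈ S) → g y = 0) (y : Fin K → V) :
    g y = 0 := by
  have key : ∀ (T : Finset (Fin K)) (y : Fin K → V), (∀ k, k ∉ T → y k ∈ S) → g y = 0 := by
    intro T
    induction T using Finset.induction_on with
    | empty => exact fun y hy => h y (fun k => hy k (Finset.notMem_empty k))
    | insert k T hk ih =>
      intro y hy
      have h1 : ∀ a : V, g (Function.update y k a) = 0 := by
        intro a
        have ha : a ∈ Submodule.span F S := by rw [hS]; trivial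
        induction ha using Submodule.span_induction with
        | mem a ha =>
          apply ih
          intro j hj
          by_cases hjk : j = k
          · subst hjk
            rw [Function.update_self]
            exact ha
          · rw [Function.update_of_ne hjk]
            apply hy
            rw [Finset.mem_insert]
            push Not
            exact ⟨hjk, hj⟩
        | zero => exact g.map_update_zero y k
        | add a b _ _ ha hb => rw [g.map_update_add, ha, hb, add_zero]
        | smul c a _ ha => rw [g.map_update_smul, ha, smul_zero]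
      have h2 := h1 (y k)
      rwa [Function.update_eq_self] at h2
  exact key Finset.univ y (fun k hk => absurd (Finset.mem_univ k) hk)

end multilinear

section lists

variable {A : AssocAlg F}

theorem spar_list {n : ℕ} {z : Perm (Fin n) → F}
    (hz : ∀ (ω : Equiv.Perm (Fin n)) (x : Fin n → A.carrier) (y : Fin n → U A),
        (∀ i : Fin n, i.val + 1 < n → ∃ a, y i = inc A a) →
        ∑ σ : Equiv.Perm (Fin n), z σ •
          (List.ofFn fun i => inc A (x (σ (ω i))) * y i).prod = 0)
    (L : List (Fin n × U A)) (hL : (L.map Prod.fst).Perm (List.finRange n))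
    (hL' : ∀ t ∈ L, ∃ a, t.2 = inc A a) (x : Fin n → A.carrier) :
    ∑ σ : Equiv.Perm (Fin n), z σ • (L.map (fun t => inc A (x (σ t.1)) * t.2)).prod = 0 := by
  obtain ⟨ω, hω⟩ := Rg.exists_perm_ofFn hL
  have hlen : L.length = n := by
    have := congrArg List.length hω
    simpa using this
  have h := hz ω x (fun i => (L.get (Fin.cast hlen.symm i)).2) (fun i _ =>
    hL' _ (List.get_mem _ _))
  rw [← h]
  refine Finset.sum_congr rfl fun σ _ => ?_
  congr 2
  apply List.ext_getElem
  · simp [hlen]
  · intro i h1 h2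
    have h3 : (L.map Prod.fst)[i]'(by simpa using h1) =
        (List.ofFn ω)[i]'(by simpa using h2) := by
      simp only [hω]
    simp only [List.getElem_map, List.getElem_ofFn] at h3
    simp [h3]

/-- a product of tokens `a * x_j * b` and `a * b` -/
theorem tokens {n : ℕ} (T : List (U A × Option (Fin n) × U A)) (hT : ∀ t ∈ T, ∃ b, t.2.2 = inc A b) :
    ∃ (c : U A) (L : List (Fin n × U A)), L.map Prod.fst = T.filterMap (fun t => t.2.1) ∧
      (∀ t ∈ L, ∃ a, t.2 = inc A a) ∧
      ∀ x : Fin n → U A, (T.map (fun t => t.1 * (t.2.1.elim 1 x) * t.2.2)).prod =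
        c * (L.map (fun t => x t.1 * t.2)).prod := by
  induction T with
  | nil => exact ⟨1, [], by simp, by simp, by simp⟩
  | cons t T ih =>
    obtain ⟨c, L, h1, h2, h3⟩ := ih (fun t ht => hT t (List.mem_cons_of_mem _ ht))
    obtain ⟨a, o, b⟩ := t
    obtain ⟨b', hb'⟩ := hT (a, o, b) (by simp)
    simp only at hb'
    cases o with
    | none =>
      refine ⟨a * b * c, L, ?_, h2, ?_⟩
      · rw [h1]; simp
      · intro x
        rw [List.map_cons, List.prod_cons, h3]
        simp [mul_assoc]
    | some j =>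
      obtain ⟨r, hr⟩ : ∃ r, b * c = inc A r := by
        obtain ⟨r, hr⟩ : ∃ r, inc A b' * c = inc A r := by
          refine ⟨(inc A b' * c).snd, ?_⟩
          apply Unitization.ext
          · simp [inc]
          · simp [inc]
        exact ⟨r, by rw [hb', hr]⟩
      refine ⟨a, (j, b * c) :: L, ?_, ?_, ?_⟩
      · rw [List.map_cons, h1]; simp
      · intro t ht
        rcases List.mem_cons.1 ht with rfl | ht
        · exact ⟨r, hr⟩
        · exact h2 t ht
      · intro x
        rw [List.map_cons, List.prod_cons, h3]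
        simp [mul_assoc]

end lists

section capelli

variable {A : AssocAlg F} {X : Type} (x : X → A.carrier)

/-- the value of a word -/
noncomputable def wpr (w : List X) : U A := (w.map (fun i => inc A (x i))).prod

theorem wpr_append (w w' : List X) : wpr x (w ++ w') = wpr x w * wpr x w' := by
  simp [wpr]

theorem wpr_nil : wpr x [] = 1 := by simp [wpr]

/-- the alternating sum of the products `w_{σ 0} z_0 w_{σ 1} z_1 ⋯` -/
noncomputable def cap {K : ℕ} (z : Fin K → A.carrier) (W : Fin K → List X) : U A :=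
  ∑ σ : Perm (Fin K), (Perm.sign σ : ℤ) • (List.ofFn (fun k => wpr x (W (σ k)) * inc A (z k))).prod

theorem cap_rel {n : ℕ} {ζ : Perm (Fin n) → F}
    (hζ : ∀ (ω : Equiv.Perm (Fin n)) (x : Fin n → A.carrier) (y : Fin n → U A),
        (∀ i : Fin n, i.val + 1 < n → ∃ a, y i = inc A a) →
        ∑ σ : Equiv.Perm (Fin n), ζ σ •
          (List.ofFn fun i => inc A (x (σ (ω i))) * y i).prod = 0)
    {K : ℕ} (z : Fin K → A.carrier) (pre : Fin K → List X) (o : Fin K → Option (Fin n))
    (ho : ∀ j, ∃ k, o k = some j) (ho' : ∀ j k k', o k = some j → o k' = some j → k = k')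
    (S : Fin n → List X) (hS : ∀ j, S j ≠ []) :
    ∑ s : Perm (Fin n), ζ s • cap x z (fun k => pre k ++ (o k).elim [] (fun j => S (s j))) = 0 := by
  unfold cap
  simp only [Finset.smul_sum]
  rw [Finset.sum_comm]
  apply Finset.sum_eq_zero
  intro p _
  have h1 : ∀ s : Perm (Fin n), ζ s • ((Perm.sign p : ℤ) • (List.ofFn (fun k =>
      wpr x (pre (p k) ++ (o (p k)).elim [] (fun j => S (s j))) * inc A (z k))).prod) =
      (Perm.sign p : ℤ) • (ζ s • (List.ofFn (fun k =>
      wpr x (pre (p k) ++ (o (p k)).elim [] (fun j => S (s j))) * inc A (z k))).prod) :=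
    fun s => smul_comm _ _ _
  simp only [h1]
  rw [← Finset.smul_sum]
  refine smul_eq_zero_of_right _ ?_
  choose xx hxx using fun j => exists_inc_list_prod x (S j) (hS j)
  let T : List (U A × Option (Fin n) × U A) :=
    (List.finRange K).map (fun k => (wpr x (pre (p k)), o (p k), inc A (z k)))
  obtain ⟨c, L, hL1, hL2, hL3⟩ := tokens (A := A) T (by
    intro t ht
    obtain ⟨k, _, rfl⟩ := List.mem_map.1 ht
    exact ⟨z k, rfl⟩)
  have hfm : T.filterMap (fun t => t.2.1) = (List.finRange K).filterMap (fun k => o (p k)) := by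
    simp only [T, List.filterMap_map]
    rfl
  have hperm : (L.map Prod.fst).Perm (List.finRange n) := by
    rw [hL1, hfm]
    have hnd : ((List.finRange K).filterMap (fun k => o (p k))).Nodup := by
      apply List.Nodup.filterMap _ (List.nodup_finRange K)
      intro a a' b hb hb'
      exact p.injective (ho' b _ _ hb hb')
    rw [List.perm_ext_iff_of_nodup hnd (List.nodup_finRange n)]
    intro j
    simp only [List.mem_filterMap, List.mem_finRange, true_and, iff_true]
    obtain ⟨k, hk⟩ := ho j
    exact ⟨p.symm k, by rw [p.apply_symm_apply, hk]⟩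
  have h2 : ∀ s : Perm (Fin n), (List.ofFn (fun k =>
      wpr x (pre (p k) ++ (o (p k)).elim [] (fun j => S (s j))) * inc A (z k))).prod =
      c * (L.map (fun t => inc A (xx (s t.1)) * t.2)).prod := by
    intro s
    rw [← hL3 (fun j => inc A (xx (s j)))]
    simp only [T, List.map_map, List.ofFn_eq_map]
    congr 2
    funext k
    simp only [Function.comp_apply, wpr_append]
    congr 2
    cases o (p k) with
    | none => simp [wpr_nil]
    | some j => simp [wpr, hxx]
  simp only [h2]
  have h3 : ∀ s : Perm (Fin n), ζ s • (c * (L.map (fun t => inc A (xx (s t.1)) * t.2)).prod) =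
      c * (ζ s • (L.map (fun t => inc A (xx (s t.1)) * t.2)).prod) := fun s => by
    rw [mul_smul_comm]
  simp only [h3]
  rw [← Finset.mul_sum, spar_list hζ L hperm hL2 xx, mul_zero]

theorem cap_eq_zero_of_eq {K : ℕ} (z : Fin K → A.carrier) (W : Fin K → List X) {k k' : Fin K}
    (hk : k ≠ k') (h : W k = W k') : cap x z W = 0 := by
  unfold cap
  refine Finset.sum_involution (fun σ _ => Equiv.swap k k' * σ) ?_ ?_ (fun _ _ => Finset.mem_univ _)
    ?_
  · intro σ _
    have h1 : ∀ i, W ((Equiv.swap k k' * σ) i) = W (σ i) := by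
      intro i
      rw [Perm.mul_apply]
      by_cases h1 : σ i = k
      · rw [h1, Equiv.swap_apply_left, h]
      · by_cases h2 : σ i = k'
        · rw [h2, Equiv.swap_apply_right, h]
        · rw [Equiv.swap_apply_of_ne_of_ne h1 h2]
    simp only [h1, Perm.sign_mul, Perm.sign_swap hk]
    simp
  · intro σ _ _ heq
    have h2 : Equiv.swap k k' = 1 := mul_eq_right.1 heq
    rw [Equiv.swap_eq_one_iff] at h2
    exact hk h2
  · intro σ _
    rw [← mul_assoc, Equiv.swap_mul_self, one_mul]

/-- rearrangement: moving suffixes of different lengths increases the sum of squares -/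
theorem sq_lt {n : ℕ} (a : Fin n → ℕ) (ha : StrictAnti a) (s : Perm (Fin n)) (hs : s ≠ 1) :
    ∑ j, (a j + ((j : ℕ) + 1)) ^ 2 < ∑ j, (a j + ((s j : ℕ) + 1)) ^ 2 := by
  have h1 : Antivary a (fun j : Fin n => (j : ℕ) + 1) := by
    intro i j hij
    have : i < j := by
      simp only [Nat.add_lt_add_iff_right] at hij
      exact hij
    exact (ha this).le
  have h2 : ¬ Antivary a ((fun j : Fin n => (j : ℕ) + 1) ∘ s) := by
    intro hA
    apply hs
    have hmono : Monotone s := by
      intro i j hij
      by_contra hlt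
      push Not at hlt
      have hne : i < j := lt_of_le_of_ne hij (fun h => by rw [h] at hlt; exact lt_irrefl _ hlt)
      have h3 := hA (i := j) (j := i) (by
        simp only [Function.comp_apply, Nat.add_lt_add_iff_right]
        exact hlt)
      exact absurd (ha hne) (not_lt.2 h3)
    have hsm : StrictMono s := hmono.strictMono_of_injective s.injective
    ext i
    have h4 : (hsm.orderIsoOfSurjective s s.surjective) = OrderIso.refl _ := Subsingleton.elim _ _
    have h5 := congrArg (fun e : Fin n ≃o Fin n => e i) h4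
    simp only [StrictMono.coe_orderIsoOfSurjective, OrderIso.refl_apply] at h5
    rw [h5]
    rfl
  have h3 := (Antivary.sum_mul_lt_sum_mul_comp_perm_iff (σ := s) h1).2 h2
  simp only [smul_eq_mul] at h3
  have h4 : ∑ j : Fin n, ((s j : ℕ) + 1) ^ 2 = ∑ j : Fin n, ((j : ℕ) + 1) ^ 2 :=
    Equiv.sum_comp s (fun j : Fin n => ((j : ℕ) + 1) ^ 2)
  have h5 : ∀ f : Fin n → ℕ, ∑ j, (a j + f j) ^ 2 =
      ∑ j, a j ^ 2 + 2 * ∑ j, a j * f j + ∑ j, f j ^ 2 := by
    intro f
    rw [Finset.mul_sum, ← Finset.sum_add_distrib, ← Finset.sum_add_distrib]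
    refine Finset.sum_congr rfl fun j _ => ?_
    ring
  rw [h5, h5, h4]
  omega

/-- sums over the indices, split along an embedding -/
theorem sum_split {n K : ℕ} (ι : Fin n ↪ Fin K) (f : Fin K → ℕ) :
    ∑ k, f k = ∑ k ∈ (Finset.univ.map ι)ᶜ, f k + ∑ j, f (ι j) := by
  rw [← Finset.sum_compl_add_sum (Finset.univ.map ι), Finset.sum_map]

/-- if many words are long, `cap` is a combination of values at tuples with larger sum of squares -/
theorem cap_step {n : ℕ} {ζ : Perm (Fin n) → F} (hζ1 : ζ 1 = 1)
    (hζ : ∀ (ω : Equiv.Perm (Fin n)) (x : Fin n → A.carrier) (y : Fin n → U A),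
        (∀ i : Fin n, i.val + 1 < n → ∃ a, y i = inc A a) →
        ∑ σ : Equiv.Perm (Fin n), ζ σ •
          (List.ofFn fun i => inc A (x (σ (ω i))) * y i).prod = 0)
    {K : ℕ} (z : Fin K → A.carrier) (W : Fin K → List X) (hW : ∀ k, W k ≠ [])
    (ι : Fin n ↪ Fin K) (hlen : ∀ j, n ≤ (W (ι j)).length)
    (hanti : ∀ i j, i < j → (W (ι j)).length ≤ (W (ι i)).length)
    (ih : ∀ W' : Fin K → List X, (∀ k, W' k ≠ []) →
      ∑ k, (W' k).length = ∑ k, (W k).length →
      ∑ k, (W k).length ^ 2 < ∑ k, (W' k).length ^ 2 → cap x z W' = 0) : cap x z W = 0 := by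
  classical
  let o : Fin K → Option (Fin n) := fun k => if h : ∃ j, ι j = k then some h.choose else none
  have ho1 : ∀ j, o (ι j) = some j := by
    intro j
    have h : ∃ j', ι j' = ι j := ⟨j, rfl⟩
    simp only [o, dif_pos h]
    exact congrArg some (ι.injective h.choose_spec)
  have ho2 : ∀ k, (∀ j, ι j ≠ k) → o k = none := by
    intro k hk
    have h : ¬ ∃ j, ι j = k := fun ⟨j, hj⟩ => hk j hj
    simp only [o, dif_neg h]
  have ho3 : ∀ j k, o k = some j → k = ι j := by
    intro j k hk
    by_cases h : ∃ j', ι j' = k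
    · obtain ⟨j', rfl⟩ := h
      rw [ho1] at hk
      rw [Option.some.inj hk]
    · rw [ho2 k (fun j hj => h ⟨j, hj⟩)] at hk
      exact absurd hk (by simp)
  let pre : Fin K → List X := fun k =>
    (o k).elim (W k) (fun j => (W k).take ((W k).length - ((j : ℕ) + 1)))
  let S : Fin n → List X := fun j =>
    (W (ι j)).drop ((W (ι j)).length - ((j : ℕ) + 1))
  have hSlen : ∀ j, (S j).length = (j : ℕ) + 1 := by
    intro j
    have := hlen j
    have := j.2
    simp only [S, List.length_drop]
    omega
  have hprelen : ∀ j, (pre (ι j)).length = (W (ι j)).length - ((j : ℕ) + 1) := by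
    intro j
    simp only [pre, ho1, Option.elim_some, List.length_take]
    omega
  have hpre : ∀ k, (∀ j, ι j ≠ k) → pre k = W k := by
    intro k hk
    simp only [pre, ho2 k hk, Option.elim_none]
  let WW : Perm (Fin n) → Fin K → List X := fun s k =>
    pre k ++ (o k).elim [] (fun j => S (s j))
  have hWW1 : ∀ s j, WW s (ι j) = pre (ι j) ++ S (s j) := by
    intro s j
    simp only [WW, ho1, Option.elim_some]
  have hWW2 : ∀ s k, (∀ j, ι j ≠ k) → WW s k = W k := by
    intro s k hk
    simp only [WW, ho2 k hk, Option.elim_none, List.append_nil, hpre k hk]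
  have hone : WW 1 = W := by
    funext k
    by_cases h : ∃ j, ι j = k
    · obtain ⟨j, rfl⟩ := h
      rw [hWW1]
      simp only [pre, ho1, Option.elim_some, S, Perm.coe_one, id_eq, List.take_append_drop]
    · exact hWW2 1 k (fun j hj => h ⟨j, hj⟩)
  have hne : ∀ s k, WW s k ≠ [] := by
    intro s k
    by_cases h : ∃ j, ι j = k
    · obtain ⟨j, rfl⟩ := h
      rw [hWW1]
      intro h0
      have := congrArg List.length h0
      rw [List.length_append, hSlen] at this
      simp at this
    · rw [hWW2 s k (fun j hj => h ⟨j, hj⟩)]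
      exact hW k
  have hlenWW : ∀ s j, (WW s (ι j)).length =
      ((W (ι j)).length - ((j : ℕ) + 1)) + ((s j : ℕ) + 1) := by
    intro s j
    rw [hWW1, List.length_append, hprelen, hSlen]
  have hcompl : ∀ s (g : ℕ → ℕ), ∑ k ∈ (Finset.univ.map ι)ᶜ, g (WW s k).length =
      ∑ k ∈ (Finset.univ.map ι)ᶜ, g (W k).length := by
    intro s g
    refine Finset.sum_congr rfl fun k hk => ?_
    rw [hWW2 s k]
    intro j hj
    rw [Finset.mem_compl] at hk
    exact hk (Finset.mem_map.2 ⟨j, Finset.mem_univ j, hj⟩)
  have htot : ∀ s, ∑ k, (WW s k).length = ∑ k, (W k).length := by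
    intro s
    have h1 := sum_split ι (fun k => (WW s k).length)
    have h2 := sum_split ι (fun k => (WW 1 k).length)
    have h3 := hcompl s id
    have h4 := hcompl 1 id
    simp only [id_eq] at h3 h4
    have h5 : ∑ j, (WW s (ι j)).length = ∑ j, (WW 1 (ι j)).length := by
      simp only [hlenWW, Finset.sum_add_distrib]
      rw [Equiv.sum_comp s (fun j : Fin n => (j : ℕ)), Equiv.sum_comp 1 (fun j : Fin n => (j : ℕ))]
    rw [hone] at h2 h5
    omega
  have hsq : ∀ s, s ≠ 1 → ∑ k, (W k).length ^ 2 < ∑ k, (WW s k).length ^ 2 := by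
    intro s hs
    have h1 := sum_split ι (fun k => (WW s k).length ^ 2)
    have h2 := sum_split ι (fun k => (WW 1 k).length ^ 2)
    have h3 := hcompl s (fun m => m ^ 2)
    have h4 := hcompl 1 (fun m => m ^ 2)
    have h5 := sq_lt (fun j => (W (ι j)).length - ((j : ℕ) + 1)) (by
      intro i j hij
      have h6 := hanti i j hij
      have h7 := hlen j
      have h8 := j.2
      have h9 : (i : ℕ) < (j : ℕ) := hij
      show (W (ι j)).length - ((j : ℕ) + 1) < (W (ι i)).length - ((i : ℕ) + 1)
      omega) s hs
    simp only [hlenWW, Perm.coe_one, id_eq] at h1 h2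
    rw [hone] at h2 h4
    rw [h1, h2]
    omega
  have hrel := cap_rel x hζ z pre o (fun j => ⟨ι j, ho1 j⟩)
    (fun j k k' h h' => by rw [ho3 j k h, ho3 j k' h']) S (fun j h0 => by
      have := hSlen j
      rw [h0] at this
      simp at this)
  have hrel' : ∑ s : Perm (Fin n), ζ s • cap x z (WW s) = 0 := hrel
  rw [← Finset.add_sum_erase _ _ (Finset.mem_univ (1 : Perm (Fin n))), hζ1, one_smul, hone,
    Finset.sum_eq_zero, add_zero] at hrel'
  · exact hrel'
  · intro s hs
    rw [ih (WW s) (hne s) (htot s) (hsq s (Finset.ne_of_mem_erase hs)), smul_zero]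

theorem exists_sorted {n K : ℕ} (f : Fin K → ℕ) (B : Finset (Fin K)) (hB : n ≤ B.card) :
    ∃ ι : Fin n ↪ Fin K, (∀ j, ι j ∈ B) ∧ ∀ i j, i < j → f (ι j) ≤ f (ι i) := by
  obtain ⟨B', hB', hc⟩ := Finset.exists_subset_card_eq hB
  let e : Fin n ↪ Fin K := (B'.orderEmbOfFin hc).toEmbedding
  let g : Fin n → ℕ := fun i => f (e i)
  refine ⟨⟨fun i => e (Tuple.sort g (Fin.rev i)), fun i j hij => ?_⟩, ?_, ?_⟩
  · exact Fin.rev_injective ((Tuple.sort g).injective (e.injective hij))
  · intro j
    exact hB' (Finset.orderEmbOfFin_mem _ hc _)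
  · intro i j hij
    have h := Tuple.monotone_sort g (Fin.rev_le_rev.2 hij.le)
    exact h

theorem cap_words [Fintype X] {n : ℕ} {ζ : Perm (Fin n) → F} (hζ1 : ζ 1 = 1)
    (hζ : ∀ (ω : Equiv.Perm (Fin n)) (x : Fin n → A.carrier) (y : Fin n → U A),
        (∀ i : Fin n, i.val + 1 < n → ∃ a, y i = inc A a) →
        ∑ σ : Equiv.Perm (Fin n), ζ σ •
          (List.ofFn fun i => inc A (x (σ (ω i))) * y i).prod = 0) :
    ∃ K : ℕ, ∀ (z : Fin K → A.carrier) (W : Fin K → List X), (∀ k, W k ≠ []) →
      cap x z W = 0 := by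
  classical
  have hfin : {l : List X | l.length < n}.Finite := List.finite_length_lt X n
  let sh : Finset (List X) := hfin.toFinset
  refine ⟨n + sh.card, fun z => ?_⟩
  have key : ∀ (m : ℕ) (T : ℕ) (W : Fin (n + sh.card) → List X), (∀ k, W k ≠ []) →
      ∑ k, (W k).length = T → (n + sh.card) * T ^ 2 - ∑ k, (W k).length ^ 2 = m →
      cap x z W = 0 := by
    intro m
    induction m using Nat.strong_induction_on with
    | _ m ih =>
      intro T W hW hT hm
      by_cases hB : n ≤ (Finset.univ.filter (fun k => n ≤ (W k).length)).card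
      · obtain ⟨ι, hι1, hι2⟩ := exists_sorted (fun k => (W k).length) _ hB
        refine cap_step x hζ1 hζ z W hW ι (fun j => ?_) hι2 (fun W' hW' h1 h2 => ?_)
        · have := hι1 j
          simpa using this
        · have hbound : ∑ k, (W' k).length ^ 2 ≤ (n + sh.card) * T ^ 2 := by
            have h3 : ∀ k ∈ (Finset.univ : Finset (Fin (n + sh.card))),
                (W' k).length ^ 2 ≤ T ^ 2 := by
              intro k hk
              apply Nat.pow_le_pow_left
              rw [← hT, ← h1]
              exact Finset.single_le_sum (f := fun k => (W' k).length)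
                (fun _ _ => Nat.zero_le _) hk
            have h4 := Finset.sum_le_card_nsmul _ _ _ h3
            rw [Finset.card_univ, Fintype.card_fin, smul_eq_mul] at h4
            exact h4
          exact ih ((n + sh.card) * T ^ 2 - ∑ k, (W' k).length ^ 2) (by omega) T W' hW'
            (by rw [h1, hT]) rfl
      · push Not at hB
        have hcard : sh.card < (Finset.univ.filter (fun k => ¬ n ≤ (W k).length)).card := by
          have h3 := Finset.card_filter_add_card_filter_not (s := (Finset.univ : Finset (Fin (n + sh.card)))) (fun k => n ≤ (W k).length)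
          rw [Finset.card_univ, Fintype.card_fin] at h3
          omega
        obtain ⟨k, hk, k', hk', hne, heq⟩ := Finset.exists_ne_map_eq_of_card_lt_of_maps_to hcard
          (f := W) (by
            intro k hk
            simp only [Finset.coe_filter, Finset.mem_univ, true_and, not_le, Set.mem_ofPred_eq] at hk
            simp only [sh, Set.Finite.coe_toFinset, Set.mem_ofPred_eq]
            exact hk)
        exact cap_eq_zero_of_eq x z W hne heq
  intro W hW
  exact key _ _ W hW rfl rfl

/-- the value of a nonempty word, in the algebra -/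
theorem exists_words_span (hx : Gen A x) :
    Submodule.span F {a : A.carrier | ∃ w : List X, w ≠ [] ∧ wpr x w = inc A a} = ⊤ := by
  rw [eq_top_iff]
  intro a _
  have ha : a ∈ NonUnitalAlgebra.adjoin F (Set.range x) := by
    rw [hx]
    trivial
  rw [← NonUnitalSubalgebra.mem_toSubmodule, NonUnitalAlgebra.adjoin_eq_span] at ha
  refine Submodule.span_mono ?_ ha
  intro b hb
  rw [SetLike.mem_coe] at hb
  induction hb using Subsemigroup.closure_induction with
  | mem b hb =>
    obtain ⟨i, rfl⟩ := hb
    exact ⟨[i], by simp, by simp [wpr]⟩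
  | mul b c _ _ hb hc =>
    obtain ⟨w, hw, hwb⟩ := hb
    obtain ⟨w', hw', hwc⟩ := hc
    exact ⟨w ++ w', by simp [hw], by rw [wpr_append, hwb, hwc, inc_mul]⟩

theorem cap_all [Fintype X] (hx : Gen A x) {n : ℕ} {ζ : Perm (Fin n) → F} (hζ1 : ζ 1 = 1)
    (hζ : ∀ (ω : Equiv.Perm (Fin n)) (x : Fin n → A.carrier) (y : Fin n → U A),
        (∀ i : Fin n, i.val + 1 < n → ∃ a, y i = inc A a) →
        ∑ σ : Equiv.Perm (Fin n), ζ σ •
          (List.ofFn fun i => inc A (x (σ (ω i))) * y i).prod = 0) :
    ∃ K : ℕ, ∀ (z : Fin K → A.carrier) (y : Fin K → A.carrier),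
      ∑ σ : Perm (Fin K), (Perm.sign σ : ℤ) •
        (List.ofFn (fun k => inc A (y (σ k)) * inc A (z k))).prod = 0 := by
  obtain ⟨K, hK⟩ := cap_words x hζ1 hζ
  refine ⟨K, fun z y => ?_⟩
  let Fm : MultilinearMap F (fun _ : Fin K => A.carrier) (U A) :=
    (MultilinearMap.mkPiAlgebraFin F K (U A)).compLinearMap
      (fun k => (LinearMap.mulRight F (inc A (z k))) ∘ₗ
        (Unitization.inrHom F F A.carrier))
  have hFm : ∀ y : Fin K → A.carrier, Fm y = (List.ofFn (fun k => inc A (y k) * inc A (z k))).prod := by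
    intro y
    simp only [Fm, MultilinearMap.compLinearMap_apply, MultilinearMap.mkPiAlgebraFin_apply]
    rfl
  let G : MultilinearMap F (fun _ : Fin K => A.carrier) (U A) :=
    ∑ σ : Perm (Fin K), (Perm.sign σ : ℤ) • Fm.domDomCongr σ
  have hG : ∀ y : Fin K → A.carrier, G y = ∑ σ : Perm (Fin K), (Perm.sign σ : ℤ) •
      (List.ofFn (fun k => inc A (y (σ k)) * inc A (z k))).prod := by
    intro y
    simp only [G, sum_apply, smul_apply, MultilinearMap.domDomCongr_apply, hFm]
  rw [← hG]
  apply multilinear_zero G _ (exists_words_span x hx)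
  intro y hy
  choose W hW1 hW2 using hy
  rw [hG, ← hK z W hW1]
  unfold cap
  simp only [hW2]

end capelli

section parse

theorem split_one {Z : Type*} (P : Z → Bool) {n : ℕ} : ∀ (w : List Z), n + 1 ≤ w.countP P →
    ∃ (a : List Z) (y : Z) (b : List Z), w = a ++ y :: b ∧ P y = true ∧ n ≤ b.countP P := by
  intro w
  induction w with
  | nil => intro h; simp at h
  | cons t w ih =>
    intro h
    by_cases ht : P t = true
    · refine ⟨[], t, w, rfl, ht, ?_⟩
      rw [List.countP_cons_of_pos ht] at h
      omega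
    · rw [List.countP_cons_of_neg ht] at h
      obtain ⟨a, y, b, h1, h2, h3⟩ := ih h
      exact ⟨t :: a, y, b, by rw [h1, List.cons_append], h2, h3⟩

theorem parse {Z : Type*} (P : Z → Bool) : ∀ (K : ℕ) (w : List Z), 2 * K ≤ w.countP P →
    ∃ (u : List Z) (y : Fin K → Z) (z : Fin K → List Z),
      w = u ++ (List.ofFn (fun k => y k :: z k)).flatten ∧ (∀ k, P (y k) = true) ∧
        ∀ k, z k ≠ [] := by
  intro K
  induction K with
  | zero => exact fun w _ => ⟨w, fun k => k.elim0, fun k => k.elim0, by simp,
      fun k => k.elim0, fun k => k.elim0⟩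
  | succ K ih =>
    intro w hw
    obtain ⟨a, y1, b, h1, h2, h3⟩ := split_one P (n := 2 * K + 1) w (by omega)
    obtain ⟨a', y2, b', h1', _, h3'⟩ := split_one P (n := 2 * K) b h3
    obtain ⟨u, y, z, h4, h5, h6⟩ := ih b' h3'
    refine ⟨a, Fin.cons y1 y, Fin.cons (a' ++ y2 :: u) z, ?_, ?_, ?_⟩
    · rw [h1, h1', h4, List.ofFn_succ]
      simp
    · intro k
      refine Fin.cases h2 (fun k => ?_) k
      exact h5 k
    · intro k
      refine Fin.cases ?_ (fun k => ?_) k
      · simp
      · exact h6 k

end parse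

section final

variable {A : AssocAlg F}

/-- the alternating sum over the permutations of the letters `y k` -/
theorem small_sum {K : ℕ} (hK : ∀ (z : Fin K → A.carrier) (y : Fin K → A.carrier),
      ∑ σ : Perm (Fin K), (Perm.sign σ : ℤ) •
        (List.ofFn (fun k => inc A (y (σ k)) * inc A (z k))).prod = 0)
    {Z : Type} [Fintype Z] [DecidableEq Z] (u : List Z) (y : Fin K ↪ Z) (z : Fin K → List Z)
    (hz : ∀ k, z k ≠ []) (hnd : (u ++ (List.ofFn (fun k => y k :: z k)).flatten).Nodup)
    (v : Z → A.carrier) :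
    ∑ σ : Perm (Fin K), (Perm.sign σ : ℤ) •
      ((u ++ (List.ofFn (fun k => y k :: z k)).flatten).map
        (fun t => inc A (v (σ.viaFintypeEmbedding y t)))).prod = 0 := by
  rw [List.nodup_append, List.nodup_flatten] at hnd
  obtain ⟨-, ⟨h1, h2⟩, h3⟩ := hnd
  have hu : ∀ t ∈ u, t ∉ Set.range y := by
    rintro t ht ⟨k, rfl⟩
    refine h3 _ ht (y k) ?_ rfl
    rw [List.mem_flatten]
    exact ⟨y k :: z k, by rw [List.mem_ofFn]; exact ⟨k, rfl⟩, by simp⟩
  have hzz : ∀ k, ∀ t ∈ z k, t ∉ Set.range y := by
    rintro k t ht ⟨j, rfl⟩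
    by_cases hjk : j = k
    · subst hjk
      have := h1 (y j :: z j) (by rw [List.mem_ofFn]; exact ⟨j, rfl⟩)
      rw [List.nodup_cons] at this
      exact this.1 ht
    · have h4 := List.pairwise_ofFn.1 h2
      rcases lt_or_gt_of_ne hjk with h | h
      · exact h4 h (a := y j) (by simp) (by simp [ht])
      · exact h4 h (a := y j) (by simp [ht]) (by simp)
  choose zz hzz2 using fun k => exists_inc_list_prod v (z k) (hz k)
  have h5 : ∀ σ : Perm (Fin K), ((u ++ (List.ofFn (fun k => y k :: z k)).flatten).map
        (fun t => inc A (v (σ.viaFintypeEmbedding y t)))).prod =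
      (u.map (fun t => inc A (v t))).prod *
        (List.ofFn (fun k => inc A (v (y (σ k))) * inc A (zz k))).prod := by
    intro σ
    rw [List.map_append, List.prod_append, List.map_flatten, List.prod_flatten, List.map_ofFn,
      List.map_ofFn]
    congr 1
    · congr 1
      apply List.map_congr_left
      intro t ht
      rw [Equiv.Perm.viaFintypeEmbedding_apply_notMem_range _ _ (hu t ht)]
    · congr 1
      congr 1
      funext k
      simp only [Function.comp_apply, List.map_cons, List.prod_cons,
        Equiv.Perm.viaFintypeEmbedding_apply_image]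
      congr 1
      rw [← hzz2]
      congr 1
      apply List.map_congr_left
      intro t ht
      rw [Equiv.Perm.viaFintypeEmbedding_apply_notMem_range _ _ (hzz k t ht)]
  simp only [h5]
  have h6 : ∀ σ : Perm (Fin K), (Perm.sign σ : ℤ) • ((u.map (fun t => inc A (v t))).prod *
        (List.ofFn (fun k => inc A (v (y (σ k))) * inc A (zz k))).prod) =
      (u.map (fun t => inc A (v t))).prod * ((Perm.sign σ : ℤ) •
        (List.ofFn (fun k => inc A (v (y (σ k))) * inc A (zz k))).prod) := fun σ => by
    rw [mul_smul_comm]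
  simp only [h6]
  rw [← Finset.mul_sum, hK zz (fun k => v (y k)), mul_zero]

theorem word_sum [CharZero F] {K : ℕ} (hK : ∀ (z : Fin K → A.carrier) (y : Fin K → A.carrier),
      ∑ σ : Perm (Fin K), (Perm.sign σ : ℤ) •
        (List.ofFn (fun k => inc A (y (σ k)) * inc A (z k))).prod = 0)
    {Z : Type} [Fintype Z] [DecidableEq Z] (c : Z → Option (Fin 1 ⊕ Fin 0)) (w : List Z)
    (hw : w.Nodup) (hc : 2 * K ≤ w.countP (fun t => decide (c t = some (Sum.inl 0))))
    (v : Z → A.carrier) [Fintype (colG c)] :
    ∑ π : colG c, (Perm.sign (π : Perm Z) : ℤ) •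
      (w.map (fun t => inc A (v ((π : Perm Z) t)))).prod = 0 := by
  obtain ⟨u, y0, z, h1, h2, h3⟩ := parse _ K w hc
  have hinj : Function.Injective y0 := by
    have h4 := hw
    rw [h1, List.nodup_append, List.nodup_flatten] at h4
    have h5 := List.pairwise_ofFn.1 h4.2.1.2
    intro i j hij
    by_contra hne
    rcases lt_or_gt_of_ne hne with h | h
    · exact h5 h (a := y0 i) (by simp) (by simp [hij])
    · exact h5 h (a := y0 i) (by simp [hij]) (by simp)
  let y : Fin K ↪ Z := ⟨y0, hinj⟩
  have hy : ∀ k, c (y k) = some (Sum.inl 0) := fun k => of_decide_eq_true (h2 k)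
  have h1' : u ++ (List.ofFn (fun k => y k :: z k)).flatten = w := h1.symm
  have hmem : ∀ σ : Perm (Fin K), σ.viaFintypeEmbedding y ∈ colG c := by
    intro σ
    refine ⟨fun t => ?_, fun t ht => ?_⟩
    · by_cases h : t ∈ Set.range y
      · obtain ⟨k, rfl⟩ := h
        rw [Equiv.Perm.viaFintypeEmbedding_apply_image, hy, hy]
      · rw [Equiv.Perm.viaFintypeEmbedding_apply_notMem_range _ _ h]
    · have h : t ∉ Set.range y := by
        rintro ⟨k, rfl⟩
        rw [hy] at ht
        exact absurd ht (by simp)
      rw [Equiv.Perm.viaFintypeEmbedding_apply_notMem_range _ _ h]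
  set S := ∑ π : colG c, (Perm.sign (π : Perm Z) : ℤ) •
      (w.map (fun t => inc A (v ((π : Perm Z) t)))).prod with hS
  have hS1 : ∀ σ : Perm (Fin K), S = ∑ π : colG c, (Perm.sign (π : Perm Z) : ℤ) •
      ((Perm.sign σ : ℤ) •
      (w.map (fun t => inc A (v ((π : Perm Z) (σ.viaFintypeEmbedding y t))))).prod) := by
    intro σ
    rw [hS, ← Equiv.sum_comp (Equiv.mulRight (⟨σ.viaFintypeEmbedding y, hmem σ⟩ : colG c))]
    refine Finset.sum_congr rfl fun π _ => ?_
    rw [smul_smul]
    congr 1
    rw [Equiv.coe_mulRight, Subgroup.coe_mul, Perm.sign_mul, Equiv.Perm.viaFintypeEmbedding_sign]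
    simp
  have hS2 : ∑ _σ : Perm (Fin K), S = 0 := by
    rw [Finset.sum_congr rfl (fun σ _ => hS1 σ), Finset.sum_comm]
    apply Finset.sum_eq_zero
    intro π _
    rw [← Finset.smul_sum]
    have h4 := small_sum hK u y z h3 (by rw [h1']; exact hw) (fun t => v ((π : Perm Z) t))
    rw [h1'] at h4
    rw [h4, smul_zero]
  rw [Finset.sum_const, Finset.card_univ, ← Nat.cast_smul_eq_nsmul F] at hS2
  refine (smul_eq_zero.1 hS2).resolve_left ?_
  rw [Fintype.card_perm]
  exact Nat.cast_ne_zero.2 (Nat.factorial_ne_zero _)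

theorem van_of_cap [CharZero F] {K : ℕ} (hK : ∀ (z : Fin K → A.carrier) (y : Fin K → A.carrier),
      ∑ σ : Perm (Fin K), (Perm.sign σ : ℤ) •
        (List.ofFn (fun k => inc A (y (σ k)) * inc A (z k))).prod = 0) :
    Van A 1 (2 * K) 0 := by
  classical
  intro Z _ _ p c hp ht v
  have hfin : Fintype (colG c) := Fintype.ofFinite _
  have h1 : ∀ q ∈ ML F Z, ∑ π : colG c, (Perm.sign (π : Perm Z) : ℤ) •
      ev A (fun t => v ((π : Perm Z) t)) q = 0 := by
    intro q hq
    unfold ML at hq
    induction hq using Submodule.span_induction with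
    | mem q hq =>
      obtain ⟨w, hw, rfl⟩ := hq
      have h2 := word_sum hK c (FreeMonoid.toList w) hw.2.1 (by
        have h3 := ht.sizes.small 0
        rw [Nat.card_eq_fintype_card, Fintype.card_subtype] at h3
        rw [← h3, List.countP_eq_length_filter, ← List.toFinset_card_of_nodup (hw.2.1.filter _)]
        apply Finset.card_le_card
        intro t ht'
        simp only [Finset.mem_filter, Finset.mem_univ, true_and] at ht'
        simp only [List.mem_toFinset, List.mem_filter, decide_eq_true_eq]
        exact ⟨hw.2.2 t, ht'⟩) v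
      rw [← h2]
      refine Finset.sum_congr rfl fun π _ => ?_
      rw [ev_mon]
    | zero => simp
    | add q q' _ _ h h' =>
      simp only [map_add, smul_add, Finset.sum_add_distrib, h, h', add_zero]
    | smul r q _ h =>
      have h2 : ∀ π : colG c, (Perm.sign (π : Perm Z) : ℤ) •
          ev A (fun t => v ((π : Perm Z) t)) (r • q) = r • ((Perm.sign (π : Perm Z) : ℤ) •
          ev A (fun t => v ((π : Perm Z) t)) q) := fun π => by
        rw [map_smul, smul_comm]
      simp only [h2]
      rw [← Finset.smul_sum, h, smul_zero]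
  have h2 : ∀ π : colG c, (Perm.sign (π : Perm Z) : ℤ) •
      ev A (fun t => v ((π : Perm Z) t)) p = ev A v p := by
    intro π
    rw [← ev_ren, ht.alt _ π.2, map_zsmul, smul_smul]
    rcases Int.units_eq_one_or (Perm.sign (π : Perm Z)) with h | h <;> rw [h] <;> simp
  have h3 := h1 p hp
  simp only [h2, Finset.sum_const, Finset.card_univ] at h3
  rw [← Nat.cast_smul_eq_nsmul F] at h3
  refine (smul_eq_zero.1 h3).resolve_left ?_
  exact Nat.cast_ne_zero.2 Fintype.card_ne_zero

end final

end Pool.Agent.KEM.Cp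

namespace Pool.Agent.KEM

open Pool.Agent.Helper29

variable {F : Type u} [Field F]

/-- **Row Cap** -/
theorem cap {A : AssocAlg F} [CharZero F] (hA : FG A) (h : PI A) : ∃ N, Van A 1 N 0 := by
  obtain ⟨X, hX, x, hx⟩ := hA
  obtain ⟨d, hd⟩ := h
  obtain ⟨n, -, ζ, hζ1, hζ⟩ := spar hd
  obtain ⟨K, hK⟩ := Cp.cap_all x hx hζ1 hζ
  exact ⟨2 * K, Cp.van_of_cap hK⟩

end Pool.Agent.KEM
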