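import Pool.Agent.KEM.Api

/-!
# Row Ent: homogeneous entries of a finite-dimensional algebra
-/

universe u

namespace Pool.Agent.KEM

open Pool.Agent.Helper29

/-! ### Words and evaluations -/

section words

theorem wval_cons {S X : Type*} [Zero S] [Mul S] (x : X → S) (a : X) {l : List X} (hl : l ≠ []) :
    wval x (a :: l) = x a * wval x l := by
  cases l with
  | nil => exact absurd rfl hl
  | cons b l => rfl

theorem wval_congr {S X : Type*} [Zero S] [Mul S] {x y : X → S} {l : List X}
    (h : ∀ a ∈ l, x a = y a) : wval x l = wval y l := by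
  induction l with
  | nil => rfl
  | cons a l ih =>
    by_cases hl : l = []
    · subst hl
      exact h a (by simp)
    · rw [wval_cons _ _ hl, wval_cons _ _ hl, h a (by simp), ih fun b hb => h b (by simp [hb])]

theorem wval_map {S X Y : Type*} [Zero S] [Mul S] (x : X → S) (f : Y → X) (l : List Y) :
    wval x (l.map f) = wval (fun y => x (f y)) l := by
  induction l with
  | nil => rfl
  | cons a l ih =>
    by_cases hl : l = []
    · subst hl
      rfl
    · rw [List.map_cons, wval_cons _ _ hl, wval_cons _ _ (by simpa using hl), ih]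

theorem wval_append {S X : Type*} [NonUnitalRing S] (x : X → S) {l l' : List X} (hl : l ≠ [])
    (hl' : l' ≠ []) : wval x (l ++ l') = wval x l * wval x l' := by
  induction l with
  | nil => exact absurd rfl hl
  | cons a l ih =>
    by_cases h : l = []
    · subst h
      rw [List.singleton_append, wval_cons _ _ hl']
      rfl
    · rw [List.cons_append, wval_cons _ _ (by simp [h]), wval_cons _ _ h, ih h, mul_assoc]

variable {F : Type u} [Field F]

theorem list_prod_inc (A : AssocAlg F) {Z : Type} (v : Z → A.carrier) {l : List Z} (hl : l ≠ []) :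
    (l.map fun z => inc A (v z)).prod = inc A (wval v l) := by
  induction l with
  | nil => exact absurd rfl hl
  | cons a l ih =>
    by_cases h : l = []
    · subst h
      simp [wval]
    · rw [List.map_cons, List.prod_cons, ih h, wval_cons _ _ h, inc_mul]

theorem ev_mon_ne (A : AssocAlg F) {Z : Type} (v : Z → A.carrier) {w : FreeMonoid Z}
    (hw : FreeMonoid.toList w ≠ []) : ev A v (mon F w) = inc A (wval v (FreeMonoid.toList w)) := by
  rw [ev_mon, list_prod_inc A v hw]

theorem inc_evs (A : AssocAlg F) {Z : Type} (v : Z → A.carrier) {p : FA F Z} (hp : p ∈ ML F Z) :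
    inc A (evs A v p) = ev A v p := by
  unfold ML at hp
  induction hp using Submodule.span_induction with
  | mem x hx =>
    obtain ⟨w, hw, rfl⟩ := hx
    rw [evs, ev_mon_ne A v hw.1]
    rfl
  | zero => rw [evs, map_zero]; exact Unitization.inr_zero F
  | add x y _ _ hx hy =>
    rw [map_add, ← hx, ← hy]
    have : evs A v (x + y) = evs A v x + evs A v y := by
      unfold evs; rw [map_add]; rfl
    rw [this]
    exact Unitization.inr_add F _ _
  | smul c x _ hx =>
    rw [map_smul, ← hx]
    have : evs A v (c • x) = c • evs A v x := by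
      unfold evs; rw [map_smul]; rfl
    rw [this]
    exact Unitization.inr_smul F _ _

theorem evs_eq_zero_iff (A : AssocAlg F) {Z : Type} (v : Z → A.carrier) {p : FA F Z}
    (hp : p ∈ ML F Z) : evs A v p = 0 ↔ ev A v p = 0 := by
  rw [← inc_evs A v hp]
  constructor
  · intro h; rw [h]; exact Unitization.inr_zero _
  · intro h
    apply inc_injective A
    rw [h]; exact (Unitization.inr_zero _).symm

theorem evs_mon (A : AssocAlg F) {Z : Type} (v : Z → A.carrier) {w : FreeMonoid Z}
    (hw : FreeMonoid.toList w ≠ []) : evs A v (mon F w) = wval v (FreeMonoid.toList w) := by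
  unfold evs
  rw [ev_mon_ne A v hw]
  rfl

theorem evs_add (A : AssocAlg F) {Z : Type} (v : Z → A.carrier) (p q : FA F Z) :
    evs A v (p + q) = evs A v p + evs A v q := by
  unfold evs; rw [map_add]; rfl

theorem evs_smul (A : AssocAlg F) {Z : Type} (v : Z → A.carrier) (c : F) (p : FA F Z) :
    evs A v (c • p) = c • evs A v p := by
  unfold evs; rw [map_smul]; rfl

theorem evs_zero (A : AssocAlg F) {Z : Type} (v : Z → A.carrier) :
    evs A v (0 : FA F Z) = 0 := by
  unfold evs; rw [map_zero]; rfl

end words

/-! ### Multilinearity -/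

section multilinear

variable {F L : Type u} [Field F] [Field L] [Algebra F L]

theorem wval_update_add {A : Type*} [NonUnitalRing A] {Z : Type*} [DecidableEq Z] (v : Z → A)
    (z : Z) (x y : A) {l : List Z} (hnd : l.Nodup) (hz : z ∈ l) :
    wval (Function.update v z (x + y)) l =
      wval (Function.update v z x) l + wval (Function.update v z y) l := by
  induction l with
  | nil => simp at hz
  | cons a l ih =>
    rw [List.nodup_cons] at hnd
    by_cases hl : l = []
    · subst hl
      have : z = a := by simpa using hz
      subst this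
      simp [wval]
    · rw [wval_cons _ _ hl, wval_cons _ _ hl, wval_cons _ _ hl]
      by_cases hza : z = a
      · subst hza
        have h : ∀ t, wval (Function.update v z t) l = wval v l := fun t =>
          wval_congr fun b hb => Function.update_of_ne (fun h => by subst h; exact hnd.1 hb) _ _
        rw [h, h, h, Function.update_self, Function.update_self, Function.update_self, add_mul]
      · have hz' : z ∈ l := by
          rcases List.mem_cons.1 hz with h | h
          · exact absurd h hza
          · exact h
        rw [ih hnd.2 hz', Function.update_of_ne (Ne.symm hza), Function.update_of_ne (Ne.symm hza),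
          Function.update_of_ne (Ne.symm hza), mul_add]

theorem wval_update_smul {A : Type*} [NonUnitalRing A] [Module L A] [IsScalarTower L A A]
    [SMulCommClass L A A] {Z : Type*} [DecidableEq Z] (v : Z → A)
    (z : Z) (c : L) (x : A) {l : List Z} (hnd : l.Nodup) (hz : z ∈ l) :
    wval (Function.update v z (c • x)) l = c • wval (Function.update v z x) l := by
  induction l with
  | nil => simp at hz
  | cons a l ih =>
    rw [List.nodup_cons] at hnd
    by_cases hl : l = []
    · subst hl
      have : z = a := by simpa using hz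
      subst this
      simp [wval]
    · rw [wval_cons _ _ hl, wval_cons _ _ hl]
      by_cases hza : z = a
      · subst hza
        have h : ∀ t, wval (Function.update v z t) l = wval v l := fun t =>
          wval_congr fun b hb => Function.update_of_ne (fun h => by subst h; exact hnd.1 hb) _ _
        rw [h, h, Function.update_self, Function.update_self, smul_mul_assoc]
      · have hz' : z ∈ l := by
          rcases List.mem_cons.1 hz with h | h
          · exact absurd h hza
          · exact h
        rw [ih hnd.2 hz', Function.update_of_ne (Ne.symm hza), Function.update_of_ne (Ne.symm hza),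
          mul_smul_comm]

theorem evs_update_add {A : AssocAlg F} {Z : Type} [DecidableEq Z] {p : FA F Z} (hp : p ∈ ML F Z)
    (v : Z → A.carrier) (z : Z) (x y : A.carrier) :
    evs A (Function.update v z (x + y)) p =
      evs A (Function.update v z x) p + evs A (Function.update v z y) p := by
  unfold ML at hp
  induction hp using Submodule.span_induction with
  | mem q hq =>
    obtain ⟨w, hw, rfl⟩ := hq
    rw [evs_mon A _ hw.1, evs_mon A _ hw.1, evs_mon A _ hw.1]
    exact wval_update_add v z x y hw.2.1 (hw.2.2 z)
  | zero => simp [evs_zero]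
  | add q r _ _ hq hr =>
    simp only [evs_add, hq, hr]
    abel
  | smul c q _ hq => simp only [evs_smul, hq, smul_add]

theorem evs_update_smul {A : AssocAlg F} [Module L A.carrier] (hA : FinOver F L A)
    {Z : Type} [DecidableEq Z] {p : FA F Z} (hp : p ∈ ML F Z)
    (v : Z → A.carrier) (z : Z) (c : L) (x : A.carrier) :
    evs A (Function.update v z (c • x)) p = c • evs A (Function.update v z x) p := by
  have := hA.tower
  have := hA.smul_mul
  have := hA.comm
  unfold ML at hp
  induction hp using Submodule.span_induction with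
  | mem q hq =>
    obtain ⟨w, hw, rfl⟩ := hq
    rw [evs_mon A _ hw.1, evs_mon A _ hw.1]
    exact wval_update_smul v z c x hw.2.1 (hw.2.2 z)
  | zero => simp [evs_zero]
  | add q r _ _ hq hr =>
    simp only [evs_add, hq, hr, smul_add]
  | smul d q _ hq =>
    simp only [evs_smul, hq]
    rw [← algebraMap_smul L d, ← algebraMap_smul L d, smul_comm]

/-- A multilinear polynomial that vanishes on a spanning set vanishes everywhere. -/
theorem evs_span {A : AssocAlg F} [Module L A.carrier] (hA : FinOver F L A)
    {Z : Type} [Finite Z] {p : FA F Z} (hp : p ∈ ML F Z) (S : Z → Set A.carrier)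
    (h : ∀ v : Z → A.carrier, (∀ z, v z ∈ S z) → evs A v p = 0)
    (v : Z → A.carrier) (hv : ∀ z, v z ∈ Submodule.span L (S z)) : evs A v p = 0 := by
  classical
  have := Fintype.ofFinite Z
  suffices H : ∀ (s : Finset Z) (v : Z → A.carrier), (∀ z ∈ s, v z ∈ Submodule.span L (S z)) →
      (∀ z ∉ s, v z ∈ S z) → evs A v p = 0 from
    H Finset.univ v (fun z _ => hv z) (fun z hz => absurd (Finset.mem_univ z) hz)
  intro s
  induction s using Finset.induction_on with
  | empty => intro v _ hv; exact h v fun z => hv z (by simp)
  | insert z s hz ih =>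
    intro v hv1 hv2
    have key : ∀ x ∈ Submodule.span L (S z), evs A (Function.update v z x) p = 0 := by
      intro x hx
      induction hx using Submodule.span_induction with
      | mem x hx =>
        apply ih
        · intro y hy
          have hyz : y ≠ z := fun h => hz (h ▸ hy)
          rw [Function.update_of_ne hyz]
          exact hv1 y (Finset.mem_insert_of_mem hy)
        · intro y hy
          by_cases hyz : y = z
          · subst hyz; rw [Function.update_self]; exact hx
          · rw [Function.update_of_ne hyz]
            apply hv2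
            simp [hyz, hy]
      | zero =>
        have := evs_update_smul hA hp v z (0 : L) 0
        rwa [zero_smul, zero_smul] at this
      | add x y _ _ hx hy => rw [evs_update_add hp, hx, hy, add_zero]
      | smul c x _ hx => rw [evs_update_smul hA hp, hx, smul_zero]
    have := key (v z) (hv1 z (by simp))
    rwa [Function.update_eq_self] at this

end multilinear

/-! ### The Peirce decomposition -/

section peirce

variable {L A : Type u} [Field L] [NonUnitalRing A] [Module L A] (W : WMData L A)

namespace WMData

theorem lmul_some (y : Σ i : Fin W.m, Fin (W.n i)) (x : A) :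
    W.lmul (some y) x = W.e y.1 y.2 y.2 * x := rfl

theorem lmul_none (x : A) :
    W.lmul none x = x - ∑ y : (Σ i : Fin W.m, Fin (W.n i)), W.e y.1 y.2 y.2 * x := rfl

theorem rmul_some (y : Σ i : Fin W.m, Fin (W.n i)) (x : A) :
    W.rmul (some y) x = x * W.e y.1 y.2 y.2 := rfl

theorem rmul_none (x : A) :
    W.rmul none x = x - ∑ y : (Σ i : Fin W.m, Fin (W.n i)), x * W.e y.1 y.2 y.2 := rfl

theorem sum_lmul (x : A) : ∑ l : W.Lab, W.lmul l x = x := by
  rw [Fintype.sum_option, lmul_none]
  simp only [lmul_some]
  abel

theorem sum_rmul (x : A) : ∑ l : W.Lab, W.rmul l x = x := by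
  rw [Fintype.sum_option, rmul_none]
  simp only [rmul_some]
  abel

theorem diag_mul (y y' : Σ i : Fin W.m, Fin (W.n i)) :
    W.e y.1 y.2 y.2 * W.e y'.1 y'.2 y'.2 = if y = y' then W.e y.1 y.2 y.2 else 0 := by
  obtain ⟨i, p⟩ := y
  obtain ⟨j, q⟩ := y'
  by_cases hij : i = j
  · subst hij
    by_cases hpq : p = q
    · subst hpq
      simp [W.e_mul]
    · simp [W.e_mul_ne _ _ _ _ _ hpq, hpq]
  · rw [W.e_mul_block _ _ _ _ _ _ hij, if_neg]
    intro h
    exact hij (congrArg Sigma.fst h)

theorem lmul_lmul (l l' : W.Lab) (x : A) :
    W.lmul l (W.lmul l' x) = if l = l' then W.lmul l x else 0 := by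
  have hS : ∀ y : (Σ i : Fin W.m, Fin (W.n i)),
      ∑ y' : (Σ i : Fin W.m, Fin (W.n i)), W.e y.1 y.2 y.2 * (W.e y'.1 y'.2 y'.2 * x) =
        W.e y.1 y.2 y.2 * x := by
    intro y
    simp_rw [← mul_assoc, diag_mul, ite_mul, zero_mul]
    simp
  have hS' : ∀ y' : (Σ i : Fin W.m, Fin (W.n i)),
      ∑ y : (Σ i : Fin W.m, Fin (W.n i)), W.e y.1 y.2 y.2 * (W.e y'.1 y'.2 y'.2 * x) =
        W.e y'.1 y'.2 y'.2 * x := by
    intro y
    simp_rw [← mul_assoc, diag_mul, ite_mul, zero_mul]
    simp
  cases l with
  | none =>
    cases l' with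
    | none =>
      rw [if_pos rfl, lmul_none, lmul_none]
      simp only [mul_sub, Finset.mul_sum, Finset.sum_sub_distrib]
      simp only [hS]
      abel
    | some y' =>
      rw [if_neg (by simp), lmul_none, lmul_some, hS', sub_self]
  | some y =>
    cases l' with
    | none =>
      rw [if_neg (by simp), lmul_some, lmul_none, mul_sub, Finset.mul_sum, hS, sub_self]
    | some y' =>
      rw [lmul_some, lmul_some, ← mul_assoc, diag_mul]
      by_cases h : y = y'
      · subst h; simp [lmul_some]
      · simp [h]

theorem rmul_rmul (l l' : W.Lab) (x : A) :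
    W.rmul l (W.rmul l' x) = if l = l' then W.rmul l x else 0 := by
  have hS : ∀ y : (Σ i : Fin W.m, Fin (W.n i)),
      ∑ y' : (Σ i : Fin W.m, Fin (W.n i)), (x * W.e y'.1 y'.2 y'.2) * W.e y.1 y.2 y.2 =
        x * W.e y.1 y.2 y.2 := by
    intro y
    simp_rw [mul_assoc, diag_mul, mul_ite, mul_zero]
    simp
  have hS' : ∀ y' : (Σ i : Fin W.m, Fin (W.n i)),
      ∑ y : (Σ i : Fin W.m, Fin (W.n i)), (x * W.e y'.1 y'.2 y'.2) * W.e y.1 y.2 y.2 =
        x * W.e y'.1 y'.2 y'.2 := by
    intro y
    simp_rw [mul_assoc, diag_mul, mul_ite, mul_zero]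
    simp
  cases l with
  | none =>
    cases l' with
    | none =>
      rw [if_pos rfl, rmul_none, rmul_none]
      simp only [sub_mul, Finset.sum_mul, Finset.sum_sub_distrib]
      simp only [hS]
      abel
    | some y' =>
      rw [if_neg (by simp), rmul_none, rmul_some, hS', sub_self]
  | some y =>
    cases l' with
    | none =>
      rw [if_neg (by simp), rmul_some, rmul_none, sub_mul, Finset.sum_mul, hS, sub_self]
    | some y' =>
      rw [rmul_some, rmul_some, mul_assoc, diag_mul]
      by_cases h : y' = y
      · subst h; simp [rmul_some]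
      · simp [h, Ne.symm h]

theorem lmul_rmul (l r : W.Lab) (x : A) : W.lmul l (W.rmul r x) = W.rmul r (W.lmul l x) := by
  cases l with
  | none =>
    cases r with
    | none =>
      simp only [lmul_none, rmul_none, mul_sub, sub_mul, Finset.mul_sum, Finset.sum_mul,
        Finset.sum_sub_distrib, mul_assoc]
      rw [Finset.sum_comm]
      abel
    | some y =>
      simp only [lmul_none, rmul_some, sub_mul, Finset.sum_mul, mul_assoc]
  | some y =>
    cases r with
    | none =>
      simp only [lmul_some, rmul_none, mul_sub, Finset.mul_sum, mul_assoc]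
    | some y' =>
      simp only [lmul_some, rmul_some, mul_assoc]

theorem rmul_mul (r : W.Lab) (x y : A) : W.rmul r x * y = x * W.lmul r y := by
  cases r with
  | none => simp only [rmul_none, lmul_none, sub_mul, mul_sub, Finset.sum_mul, Finset.mul_sum,
      mul_assoc]
  | some y' => simp only [rmul_some, lmul_some, mul_assoc]

theorem lmul_mul (l : W.Lab) (x y : A) : W.lmul l (x * y) = W.lmul l x * y := by
  cases l with
  | none => simp only [lmul_none, sub_mul, Finset.sum_mul, mul_assoc]
  | some y' => simp only [lmul_some, mul_assoc]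

theorem mul_rmul (r : W.Lab) (x y : A) : W.rmul r (x * y) = x * W.rmul r y := by
  cases r with
  | none => simp only [rmul_none, mul_sub, Finset.mul_sum, mul_assoc]
  | some y' => simp only [rmul_some, mul_assoc]

theorem lmul_mem (l : W.Lab) {x : A} (hx : x ∈ W.J) : W.lmul l x ∈ W.J := by
  cases l with
  | none =>
    rw [lmul_none]
    exact Submodule.sub_mem _ hx (Submodule.sum_mem _ fun y _ => W.J_left _ _ hx)
  | some y => exact W.J_left _ _ hx

theorem rmul_mem (l : W.Lab) {x : A} (hx : x ∈ W.J) : W.rmul l x ∈ W.J := by
  cases l with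
  | none =>
    rw [rmul_none]
    exact Submodule.sub_mem _ hx (Submodule.sum_mem _ fun y _ => W.J_right _ _ hx)
  | some y => exact W.J_right _ _ hx

theorem Ent.lmul_val (a : W.Ent) : W.lmul a.ll a.val = a.val := by
  cases a with
  | mu i p q => exact W.e_mul i p p q
  | rad l r x hx hl hr => exact hl

theorem Ent.rmul_val (a : W.Ent) : W.rmul a.rl a.val = a.val := by
  cases a with
  | mu i p q => exact W.e_mul i p q q
  | rad l r x hx hl hr => exact hr

theorem Ent.val_mem_J (a : W.Ent) (h : a.isRad = true) : a.val ∈ W.J := by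
  cases a with
  | mu i p q => simp [Ent.isRad] at h
  | rad l r x hx hl hr => exact hx

/-- The radical entry with labels `l`, `r` made of an element of `J`. -/
def cut (l r : W.Lab) (x : A) (hx : x ∈ W.J) : W.Ent :=
  Ent.rad l r (W.lmul l (W.rmul r x)) (W.lmul_mem l (W.rmul_mem r hx))
    (by rw [lmul_lmul, if_pos rfl])
    (by rw [lmul_rmul, rmul_rmul, if_pos rfl])

theorem sum_cut (x : A) (hx : x ∈ W.J) : ∑ l : W.Lab, ∑ r : W.Lab, (W.cut l r x hx).val = x := by
  rw [Finset.sum_comm]
  conv_rhs => rw [← W.sum_rmul x]
  refine Finset.sum_congr rfl fun r _ => ?_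
  exact W.sum_lmul _

end WMData

/-- the entries span -/
theorem ent_span {A : Type u} [NonUnitalRing A] [Module L A]
    [IsScalarTower L A A] [SMulCommClass L A A] (W : WMData L A) :
    Submodule.span L (Set.range (WMData.Ent.val : W.Ent → A)) = ⊤ := by
  rw [eq_top_iff, ← W.span_top]
  refine sup_le ?_ ?_
  · rw [Submodule.span_le]
    rintro _ ⟨i, p, q, rfl⟩
    exact Submodule.subset_span ⟨.mu i p q, rfl⟩
  · intro x hx
    rw [← W.sum_cut x hx]
    exact Submodule.sum_mem _ fun l _ => Submodule.sum_mem _ fun r _ =>
      Submodule.subset_span ⟨W.cut l r x hx, rfl⟩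

/-- the radical entries span the radical -/
theorem ent_span_J {A : Type u} [NonUnitalRing A] [Module L A]
    [IsScalarTower L A A] [SMulCommClass L A A] (W : WMData L A) :
    Submodule.span L {x : A | ∃ a : W.Ent, a.isRad = true ∧ x = a.val} = W.J := by
  apply le_antisymm
  · rw [Submodule.span_le]
    rintro _ ⟨a, ha, rfl⟩
    exact a.val_mem_J W ha
  · intro x hx
    rw [← W.sum_cut x hx]
    exact Submodule.sum_mem _ fun l _ => Submodule.sum_mem _ fun r _ =>
      Submodule.subset_span ⟨W.cut l r x hx, rfl, rfl⟩

theorem ent_mul {A : Type u} [NonUnitalRing A] [Module L A]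
    [IsScalarTower L A A] [SMulCommClass L A A] (W : WMData L A) (a b : W.Ent) :
    (a.rl ≠ b.ll → a.val * b.val = 0) ∧
      (a.rl = b.ll → ∃ w : W.Ent, w.val = a.val * b.val ∧ w.ll = a.ll ∧ w.rl = b.rl ∧
        w.isRad = (a.isRad || b.isRad)) := by
  constructor
  · intro h
    rw [← a.rmul_val W, W.rmul_mul, ← b.lmul_val W, W.lmul_lmul, if_neg h, mul_zero]
  · intro h
    have hl : W.lmul a.ll (a.val * b.val) = a.val * b.val := by
      rw [W.lmul_mul, a.lmul_val W]
    have hr : W.rmul b.rl (a.val * b.val) = a.val * b.val := by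
      rw [W.mul_rmul, b.rmul_val W]
    have hrad : (a.val * b.val) ∈ W.J → ∃ w : W.Ent, w.val = a.val * b.val ∧ w.ll = a.ll ∧
        w.rl = b.rl ∧ w.isRad = true := fun hJ => ⟨.rad a.ll b.rl _ hJ hl hr, rfl, rfl, rfl, rfl⟩
    cases ha : a.isRad with
    | true =>
      obtain ⟨w, h1, h2, h3, h4⟩ := hrad (W.J_right _ _ (a.val_mem_J W ha))
      exact ⟨w, h1, h2, h3, by rw [h4]; rfl⟩
    | false =>
      cases hb : b.isRad with
      | true =>
        obtain ⟨w, h1, h2, h3, h4⟩ := hrad (W.J_left _ _ (b.val_mem_J W hb))
        exact ⟨w, h1, h2, h3, by rw [h4]; rfl⟩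
      | false =>
        cases a with
        | rad l r x hx hl hr => simp [WMData.Ent.isRad] at ha
        | mu i p q =>
          cases b with
          | rad l r x hx hl hr => simp [WMData.Ent.isRad] at hb
          | mu j p' q' =>
            have h' : (⟨i, q⟩ : Σ i : Fin W.m, Fin (W.n i)) = ⟨j, p'⟩ := Option.some.inj h
            obtain ⟨h1, h2⟩ := Sigma.mk.inj h'
            subst h1
            have h3 := eq_of_heq h2
            subst h3
            exact ⟨.mu i p q', (W.e_mul i p q q').symm, rfl, rfl, rfl⟩

theorem ent_list {A : Type u} [NonUnitalRing A] [Module L A]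
    [IsScalarTower L A A] [SMulCommClass L A A] (W : WMData L A) (l : List W.Ent) (hl : l ≠ [])
    (h0 : wval WMData.Ent.val l ≠ 0) :
    (List.IsChain (fun a b : W.Ent => a.rl = b.ll) l) ∧ ∃ w : W.Ent, w.val = wval WMData.Ent.val l ∧
      w.ll = (l.head hl).ll ∧ w.rl = (l.getLast hl).rl ∧ w.isRad = l.any WMData.Ent.isRad := by
  induction l with
  | nil => exact absurd rfl hl
  | cons a l ih =>
    cases l with
    | nil => exact ⟨List.isChain_singleton a, a, rfl, rfl, rfl, by simp⟩
    | cons b l =>
      have hne : b :: l ≠ [] := by simp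
      rw [wval_cons _ _ hne] at h0
      obtain ⟨hch, w, hw1, hw2, hw3, hw4⟩ := ih hne (right_ne_zero_of_mul h0)
      rw [← hw1] at h0
      have hab : a.rl = w.ll := by
        by_contra h
        exact h0 ((ent_mul W a w).1 h)
      obtain ⟨w', h1, h2, h3, h4⟩ := (ent_mul W a w).2 hab
      rw [hw2] at hab
      refine ⟨List.isChain_cons_cons.2 ⟨hab, hch⟩, w', ?_, h2, ?_, ?_⟩
      · rw [wval_cons _ _ hne, ← hw1, h1]
      · rw [h3, hw3, List.getLast_cons hne]
      · rw [h4, hw4, List.any_cons (a := a)]

end peirce

/-! ### Evaluations at entries -/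

section eval

variable {F L : Type u} [Field F] [Field L] [Algebra F L]

theorem ent_eval {A : AssocAlg F} [Module L A.carrier] (hA : FinOver F L A)
    (W : WMData L A.carrier) {Z : Type} [Fintype Z] {p : FA F Z} (hp : p ∈ ML F Z)
    (h : ¬ Sat A p) : ∃ a : Z → W.Ent, ev A (fun z => (a z).val) p ≠ 0 := by
  have := hA.smul_mul
  have := hA.comm
  by_contra hcon
  push Not at hcon
  apply h
  intro v
  rw [← evs_eq_zero_iff A v hp]
  refine evs_span hA hp (fun _ => Set.range (WMData.Ent.val : W.Ent → A.carrier)) ?_ v ?_
  · intro v hv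
    choose a ha using hv
    have : v = fun z => (a z).val := by funext z; rw [ha]
    rw [this, evs_eq_zero_iff A _ hp]
    exact hcon a
  · intro z
    rw [ent_span W]
    trivial

theorem nprod_cons {A : Type u} [NonUnitalRing A] {n : ℕ} (a : A) (v : Fin (n + 1) → A) :
    nprod (Fin.cons a v : Fin (n + 2) → A) = a * nprod v := by
  induction n with
  | zero => rfl
  | succ n ih =>
    have h1 : nprod (Fin.cons a v : Fin (n + 3) → A) =
        nprod (fun i : Fin (n + 2) => (Fin.cons a v : Fin (n + 3) → A) i.castSucc) *
          (Fin.cons a v : Fin (n + 3) → A) (Fin.last _) := rfl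
    have h2 : (fun i : Fin (n + 2) => (Fin.cons a v : Fin (n + 3) → A) i.castSucc) =
        (Fin.cons a (fun i : Fin (n + 1) => v i.castSucc) : Fin (n + 2) → A) := by
      funext i
      refine Fin.cases rfl (fun i => ?_) i
      rw [← Fin.succ_castSucc, Fin.cons_succ, Fin.cons_succ]
    have h3 : (Fin.cons a v : Fin (n + 3) → A) (Fin.last _) = v (Fin.last _) := by
      rw [← Fin.succ_last, Fin.cons_succ]
    rw [h1, h2, h3, ih, mul_assoc]
    rfl

theorem mul_nprod {A : Type u} [NonUnitalRing A] {n : ℕ} (a : A) (v : Fin (n + 1) → A) :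
    a * nprod v = nprod (Function.update v 0 (a * v 0)) := by
  induction n with
  | zero => simp [nprod]
  | succ n ih =>
    have h1 : nprod v = nprod (fun i : Fin (n + 1) => v i.castSucc) * v (Fin.last _) := rfl
    have h2 : nprod (Function.update v 0 (a * v 0)) =
        nprod (fun i : Fin (n + 1) => (Function.update v 0 (a * v 0)) i.castSucc) *
          (Function.update v 0 (a * v 0)) (Fin.last _) := rfl
    rw [h1, h2, ← mul_assoc, ih, Function.update_of_ne (by simp [Fin.ext_iff])]
    congr 2
    funext i
    refine Fin.cases ?_ (fun i => ?_) i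
    · simp
    · rw [Function.update_of_ne (Fin.succ_ne_zero i), Function.update_of_ne]
      simp [Fin.ext_iff]

/-- A product with at least `k + 1` factors in `J` is a product of `k + 1` elements of `J`. -/
theorem wval_nprod {A : Type u} {L : Type u} [Field L] [NonUnitalRing A] [Module L A]
    (J : Submodule L A)
    (hl : ∀ a x, x ∈ J → a * x ∈ J) (hr : ∀ a x, x ∈ J → x * a ∈ J) {Z : Type*} (x : Z → A)
    (f : Z → Bool) (hf : ∀ z, f z = true → x z ∈ J) (l : List Z) (k : ℕ)
    (hk : k + 1 ≤ l.countP f) : ∃ v : Fin (k + 1) → A, (∀ i, v i ∈ J) ∧ wval x l = nprod v := by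
  induction l generalizing k with
  | nil => simp at hk
  | cons a l ih =>
    by_cases hne : l = []
    · subst hne
      have h1 : List.countP f [a] ≤ 1 := by
        rw [List.countP_singleton]; split <;> simp
      have hk0 : k = 0 := by omega
      subst hk0
      refine ⟨fun _ => x a, fun _ => hf a ?_, rfl⟩
      by_contra hfa
      rw [List.countP_singleton, if_neg hfa] at hk
      omega
    · rw [wval_cons _ _ hne]
      by_cases hfa : f a = true
      · rw [List.countP_cons, if_pos hfa] at hk
        cases k with
        | zero =>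
          exact ⟨fun _ => x a * wval x l, fun _ => hr _ _ (hf a hfa), rfl⟩
        | succ k =>
          obtain ⟨v, hv, hw⟩ := ih k (by omega)
          refine ⟨Fin.cons (x a) v, fun i => ?_, ?_⟩
          · refine Fin.cases ?_ (fun i => ?_) i
            · exact hf a hfa
            · exact hv i
          · rw [nprod_cons, hw]
      · rw [List.countP_cons, if_neg hfa] at hk
        obtain ⟨v, hv, hw⟩ := ih k (by omega)
        refine ⟨Function.update v 0 (x a * v 0), fun i => ?_, ?_⟩
        · by_cases hi : i = 0
          · subst hi; rw [Function.update_self]; exact hl _ _ (hv 0)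
          · rw [Function.update_of_ne hi]; exact hv i
        · rw [← mul_nprod, hw]

theorem ent_nil {A : AssocAlg F} [Module L A.carrier] (hA : FinOver F L A)
    (W : WMData L A.carrier) {Z : Type} [Fintype Z] {p : FA F Z} (hp : p ∈ ML F Z)
    (a : Z → W.Ent) (h : ev A (fun z => (a z).val) p ≠ 0) : WMData.radc a ≤ W.s := by
  classical
  by_contra hcon
  push Not at hcon
  apply h
  clear h
  unfold ML at hp
  induction hp using Submodule.span_induction with
  | mem q hq =>
    obtain ⟨w, hw, rfl⟩ := hq
    rw [ev_mon_ne A _ hw.1]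
    obtain ⟨v, hv, hwv⟩ := wval_nprod W.J W.J_left W.J_right (fun z => (a z).val)
      (fun z => (a z).isRad) (fun z hz => (a z).val_mem_J W hz) (FreeMonoid.toList w) W.s (by
        have h1 : (FreeMonoid.toList w).countP (fun z => (a z).isRad) = WMData.radc a := by
          unfold WMData.radc
          rw [List.countP_eq_length_filter]
          have hnd : ((FreeMonoid.toList w).filter fun z => (a z).isRad).Nodup :=
            hw.2.1.filter _
          rw [← List.toFinset_card_of_nodup hnd]
          congr 1
          ext z
          simp [hw.2.2 z]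
        rw [h1]
        exact hcon)
    rw [hwv, W.J_nil v hv]
    exact Unitization.inr_zero _
  | zero => exact map_zero _
  | add x y _ _ hx hy => rw [map_add, hx, hy, add_zero]
  | smul c x _ hx => rw [map_smul, hx, smul_zero]

end eval

end Pool.Agent.KEM
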