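import Pool.Agent.KEM.Bas

/-!
# The general attachment lemma

A nonzero value of a multilinear polynomial at homogeneous entries is turned into a nonzero value of
a typed consequence: products of matrix units are attached to suitable entries, and the polynomial is
alternated in the inserted matrix units and the radical entries.
-/

set_option linter.unusedSectionVars false
set_option linter.unusedVariables false

universe u

namespace Pool.Agent.KEM.GAL

open Pool.Agent.Helper29 Pool.Agent.KEM Pool.Agent.KEM.Bas

/-! ### Labels -/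

section labels

variable {L A : Type u} [Field L] [NonUnitalRing A] [Module L A] (W : WMData L A)

theorem lmul_val (a : W.Ent) : W.lmul a.ll a.val = a.val := by
  cases a with
  | mu i p q => exact W.e_mul i p p q
  | rad l r x hx hl hr => exact hl

theorem rmul_val (a : W.Ent) : W.rmul a.rl a.val = a.val := by
  cases a with
  | mu i p q => exact W.e_mul i p q q
  | rad l r x hx hl hr => exact hr

theorem e_diag (i : Fin W.m) (p q : Fin (W.n i)) (y : Σ i : Fin W.m, Fin (W.n i)) :
    W.e i p q * W.e y.1 y.2 y.2 = if y = ⟨i, q⟩ then W.e i p q else 0 := by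
  obtain ⟨j, q'⟩ := y
  by_cases hij : i = j
  · subst hij
    by_cases hq : q' = q
    · subst hq
      rw [if_pos rfl]
      exact W.e_mul i p q' q'
    · rw [if_neg (by simpa using hq)]
      exact W.e_mul_ne i p q q' q' (Ne.symm hq)
  · rw [if_neg (fun h => hij (congrArg Sigma.fst h).symm)]
    exact W.e_mul_block i j p q q' q' hij

theorem diag_e (i : Fin W.m) (p q : Fin (W.n i)) (y : Σ i : Fin W.m, Fin (W.n i)) :
    W.e y.1 y.2 y.2 * W.e i p q = if y = ⟨i, p⟩ then W.e i p q else 0 := by
  obtain ⟨j, q'⟩ := y
  by_cases hij : j = i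
  · subst hij
    by_cases hq : q' = p
    · subst hq
      rw [if_pos rfl]
      exact W.e_mul j q' q' q
    · rw [if_neg (by simpa using hq)]
      exact W.e_mul_ne j q' q' p q hq
  · rw [if_neg (fun h => hij (congrArg Sigma.fst h))]
    exact W.e_mul_block j i q' q' p q hij

theorem e_lmul (i : Fin W.m) (p q : Fin (W.n i)) (l : W.Lab) (x : A)
    (hl : l ≠ some ⟨i, q⟩) : W.e i p q * W.lmul l x = 0 := by
  cases l with
  | none =>
    change W.e i p q * (x - ∑ y : (Σ i : Fin W.m, Fin (W.n i)), W.e y.1 y.2 y.2 * x) = 0
    rw [mul_sub, Finset.mul_sum]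
    simp_rw [← mul_assoc, e_diag, ite_mul, zero_mul]
    simp
  | some y =>
    change W.e i p q * (W.e y.1 y.2 y.2 * x) = 0
    rw [← mul_assoc, e_diag, if_neg (fun h => hl (by rw [h])), zero_mul]

theorem rmul_e (i : Fin W.m) (p q : Fin (W.n i)) (l : W.Lab) (x : A)
    (hl : l ≠ some ⟨i, p⟩) : W.rmul l x * W.e i p q = 0 := by
  cases l with
  | none =>
    change (x - ∑ y : (Σ i : Fin W.m, Fin (W.n i)), x * W.e y.1 y.2 y.2) * W.e i p q = 0
    rw [sub_mul, Finset.sum_mul]
    simp_rw [mul_assoc, diag_e, mul_ite, mul_zero]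
    simp
  | some y =>
    change (x * W.e y.1 y.2 y.2) * W.e i p q = 0
    rw [mul_assoc, diag_e, if_neg (fun h => hl (by rw [h])), mul_zero]

theorem ll_of_ne (i : Fin W.m) (p q : Fin (W.n i)) (a : W.Ent) (h : W.e i p q * a.val ≠ 0) :
    a.ll = some ⟨i, q⟩ := by
  by_contra hne
  apply h
  rw [← lmul_val W a]
  exact e_lmul W i p q _ _ hne

theorem rl_of_ne (i : Fin W.m) (p q : Fin (W.n i)) (a : W.Ent) (h : a.val * W.e i p q ≠ 0) :
    a.rl = some ⟨i, p⟩ := by
  by_contra hne
  apply h
  rw [← rmul_val W a]
  exact rmul_e W i p q _ _ hne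

theorem left_unit {i : Fin W.m} {p : Fin (W.n i)} (a : W.Ent) (h : a.ll = some ⟨i, p⟩) :
    W.e i p p * a.val = a.val := by
  conv_rhs => rw [← lmul_val W a, h]
  rfl

theorem right_unit {i : Fin W.m} {p : Fin (W.n i)} (a : W.Ent) (h : a.rl = some ⟨i, p⟩) :
    a.val * W.e i p p = a.val := by
  conv_rhs => rw [← rmul_val W a, h]
  rfl

end labels

/-! ### The new variables -/

/-- Old variables and three new variables for each slot. -/
inductive GV (Z S : Type) : Type
  | x (z : Z) : GV Z S
  | w (s : S) : GV Z S
  | E (s : S) : GV Z S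
  | u (s : S) : GV Z S

/-- The new variables as a sum type. -/
def GV.equiv (Z S : Type) : GV Z S ≃ Z ⊕ (S ⊕ (S ⊕ S)) where
  toFun
    | .x z => Sum.inl z
    | .w s => Sum.inr (Sum.inl s)
    | .E s => Sum.inr (Sum.inr (Sum.inl s))
    | .u s => Sum.inr (Sum.inr (Sum.inr s))
  invFun
    | Sum.inl z => .x z
    | Sum.inr (Sum.inl s) => .w s
    | Sum.inr (Sum.inr (Sum.inl s)) => .E s
    | Sum.inr (Sum.inr (Sum.inr s)) => .u s
  left_inv := by rintro (z | s | s | s) <;> rfl
  right_inv := by rintro (z | s | s | s) <;> rfl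

instance (Z S : Type) [Fintype Z] [Fintype S] : Fintype (GV Z S) :=
  Fintype.ofEquiv _ (GV.equiv Z S).symm

noncomputable instance (Z S : Type) : DecidableEq (GV Z S) := Classical.decEq _

section words

variable {Z S : Type} [DecidableEq Z] [Fintype S] (tgt : S → Z) (side : S → Bool)

/-- The word of a slot. -/
def tri (Z : Type) {S : Type} (s : S) : List (GV Z S) := [.w s, .E s, .u s]

/-- The slots attached to `z` on a side. -/
noncomputable def slots (z : Z) (b : Bool) : List S :=
  (Finset.univ.filter fun s => tgt s = z ∧ side s = b).toList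

theorem mem_slots {z : Z} {b : Bool} {s : S} : s ∈ slots tgt side z b ↔ tgt s = z ∧ side s = b := by
  simp [slots]

theorem nodup_slots (z : Z) (b : Bool) : (slots tgt side z b).Nodup := Finset.nodup_toList _

/-- The word substituted for `z`. -/
noncomputable def gw (z : Z) : List (GV Z S) :=
  (slots tgt side z false).flatMap (tri Z) ++ (GV.x z :: (slots tgt side z true).flatMap (tri Z))

/-- The old variable to whose word a variable belongs. -/
def gb : GV Z S → Z
  | .x z => z
  | .w s => tgt s
  | .E s => tgt s
  | .u s => tgt s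

theorem mem_tri {y : GV Z S} {s : S} : y ∈ tri Z s ↔ y = .w s ∨ y = .E s ∨ y = .u s := by
  simp [tri]

theorem gw_ne_nil (z : Z) : gw tgt side z ≠ [] := by
  simp [gw]

theorem mem_gw (y : GV Z S) (z : Z) : y ∈ gw tgt side z ↔ gb tgt y = z := by
  have key : ∀ s : S, (s ∈ slots tgt side z false ∨ s ∈ slots tgt side z true) ↔ tgt s = z := by
    intro s
    rw [mem_slots, mem_slots]
    cases side s <;> simp
  rw [gw, List.mem_append, List.mem_cons, List.mem_flatMap, List.mem_flatMap]
  simp only [mem_tri]
  cases y with
  | x z' => simp [gb]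
  | w s => rw [gb, ← key s]; simp
  | E s => rw [gb, ← key s]; simp
  | u s => rw [gb, ← key s]; simp

theorem nodup_gw (z : Z) : (gw tgt side z).Nodup := by
  have h1 : ∀ b, ((slots tgt side z b).flatMap (tri Z)).Nodup := by
    intro b
    rw [List.nodup_flatMap]
    refine ⟨fun s _ => by simp [tri], (nodup_slots tgt side z b).imp ?_⟩
    intro s s' hss
    rw [Function.onFun, List.disjoint_left]
    intro y hy hy'
    rw [mem_tri] at hy hy'
    rcases hy with rfl | rfl | rfl <;> simp_all
  rw [gw, List.nodup_append, List.nodup_cons]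
  refine ⟨h1 false, ⟨?_, h1 true⟩, ?_⟩
  · rw [List.mem_flatMap]
    rintro ⟨s, -, hs⟩
    rw [mem_tri] at hs
    simp at hs
  · intro y hy y' hy' hyy
    subst hyy
    rw [List.mem_cons] at hy'
    rw [List.mem_flatMap] at hy
    obtain ⟨s, hs, hys⟩ := hy
    rw [mem_slots] at hs
    rcases hy' with rfl | hy'
    · rw [mem_tri] at hys; simp at hys
    · rw [List.mem_flatMap] at hy'
      obtain ⟨s', hs', hys'⟩ := hy'
      rw [mem_slots] at hs'
      rw [mem_tri] at hys hys'
      have : s = s' := by
        rcases hys with rfl | rfl | rfl <;> simp_all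
      subst this
      rw [hs.2] at hs'
      exact absurd hs'.2 (by simp)

end words

/-! ### Products -/

section products

variable {F : Type u} [Field F] {A : AssocAlg F} {Z S : Type} [DecidableEq Z] [Fintype S]
  (tgt : S → Z) (side : S → Bool)

theorem prod_flatMap_zero {M : Type*} [MonoidWithZero M] (f : GV Z S → M) (l : List S) (s : S)
    (hs : s ∈ l) (h : ((tri Z s).map f).prod = 0) : ((l.flatMap (tri Z)).map f).prod = 0 := by
  induction l with
  | nil => simp at hs
  | cons t l ih =>
    rw [List.flatMap_cons, List.map_append, List.prod_append]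
    rcases List.mem_cons.1 hs with rfl | hs
    · rw [h, zero_mul]
    · rw [ih hs, mul_zero]

theorem prod_flatMap_left {M : Type*} [Monoid M] (f : GV Z S → M) (l : List S) (m : M)
    (h : ∀ s ∈ l, ((tri Z s).map f).prod * m = m) : ((l.flatMap (tri Z)).map f).prod * m = m := by
  induction l with
  | nil => simp
  | cons t l ih =>
    rw [List.flatMap_cons, List.map_append, List.prod_append, mul_assoc,
      ih fun s hs => h s (List.mem_cons_of_mem _ hs), h t List.mem_cons_self]

theorem prod_flatMap_right {M : Type*} [Monoid M] (f : GV Z S → M) (l : List S) (m : M)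
    (h : ∀ s ∈ l, m * ((tri Z s).map f).prod = m) : m * ((l.flatMap (tri Z)).map f).prod = m := by
  induction l with
  | nil => simp
  | cons t l ih =>
    rw [List.flatMap_cons, List.map_append, List.prod_append, ← mul_assoc,
      h t List.mem_cons_self, ih fun s hs => h s (List.mem_cons_of_mem _ hs)]

theorem tri_prod (v : GV Z S → A.carrier) (s : S) :
    ((tri Z s).map fun y => inc A (v y)).prod = inc A (v (.w s) * v (.E s) * v (.u s)) := by
  rw [tri, List.map_cons, List.map_cons, List.map_cons, List.map_nil, List.prod_cons,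
    List.prod_cons, List.prod_cons, List.prod_nil, mul_one, inc_mul, inc_mul, mul_assoc]

/-- If the value of a slot is `0`, the value of the word is `0`. -/
theorem wval_gw_zero (v : GV Z S → A.carrier) (s : S)
    (h : v (.w s) * v (.E s) * v (.u s) = 0) : wval v (gw tgt side (tgt s)) = 0 := by
  apply inc_injective A
  rw [inc_wval A v _ (gw_ne_nil tgt side _), inc_zero, gw, List.map_append, List.map_cons,
    List.prod_append, List.prod_cons]
  have h' : ((tri Z s).map fun y => inc A (v y)).prod = 0 := by rw [tri_prod, h, inc_zero]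
  cases hs : side s with
  | false =>
    rw [prod_flatMap_zero (fun y => inc A (v y)) _ s ((mem_slots tgt side).2 ⟨rfl, hs⟩) h',
      zero_mul]
  | true =>
    rw [prod_flatMap_zero (fun y => inc A (v y)) (slots tgt side (tgt s) true) s
      ((mem_slots tgt side).2 ⟨rfl, hs⟩) h', mul_zero, mul_zero]

/-- If no slot is attached to `z`, the word of `z` is `z`. -/
theorem gw_of_not (z : Z) (h : ∀ s, tgt s ≠ z) : gw tgt side z = [GV.x z] := by
  have : ∀ b, slots tgt side z b = [] := fun b => by
    rw [List.eq_nil_iff_forall_not_mem]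
    intro s hs
    exact h s ((mem_slots tgt side).1 hs).1
  rw [gw, this, this]
  rfl

/-- If the values of the slots are absorbed, the value of the word of `z` is the value of `z`. -/
theorem wval_gw_of_absorb (v : GV Z S → A.carrier) (z : Z)
    (hl : ∀ s, tgt s = z → side s = false → v (.w s) * v (.E s) * v (.u s) * v (.x z) = v (.x z))
    (hr : ∀ s, tgt s = z → side s = true → v (.x z) * (v (.w s) * v (.E s) * v (.u s)) = v (.x z)) :
    wval v (gw tgt side z) = v (.x z) := by
  apply inc_injective A
  rw [inc_wval A v _ (gw_ne_nil tgt side _), gw, List.map_append, List.map_cons,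
    List.prod_append, List.prod_cons,
    prod_flatMap_right (fun y => inc A (v y)) (slots tgt side z true) (inc A (v (.x z))) ?_,
    prod_flatMap_left (fun y => inc A (v y)) (slots tgt side z false) (inc A (v (.x z))) ?_]
  · intro s hs
    rw [mem_slots] at hs
    rw [tri_prod, ← inc_mul, hl s hs.1 hs.2]
  · intro s hs
    rw [mem_slots] at hs
    rw [tri_prod, ← inc_mul, hr s hs.1 hs.2]

end products

/-! ### The colouring -/

section colours

variable {Z X : Type} [Fintype Z] [DecidableEq Z] [Fintype X] {μ ρ : ℕ} (R : Z → Bool)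
  (idx : {z // R z = true} ≃ Fin ρ)

/-- The colouring of the variables. -/
def gc : GV Z ((Fin μ ⊕ Fin ρ) × X) → Option (Fin μ ⊕ Fin ρ)
  | .x z => if h : R z = true then some (Sum.inr (idx ⟨z, h⟩)) else none
  | .w _ => none
  | .E s => some s.1
  | .u _ => none

theorem gc_x_of (z : Z) (h : R z = true) :
    gc (μ := μ) (X := X) R idx (.x z) = some (Sum.inr (idx ⟨z, h⟩)) := by
  rw [gc, dif_pos h]

theorem gc_x_not (z : Z) (h : R z ≠ true) : gc (μ := μ) (X := X) R idx (.x z) = none := by
  rw [gc, dif_neg h]

theorem gc_sizes : Sizes μ (Nat.card X) ρ (gc (μ := μ) (X := X) R idx) := by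
  constructor
  · intro i
    symm
    refine Nat.card_eq_of_bijective
      (fun x : X => (⟨.E (Sum.inl i, x), rfl⟩ :
        {z // gc (μ := μ) (X := X) R idx z = some (Sum.inl i)})) ⟨?_, ?_⟩
    · intro x y hxy
      have h1 := congrArg Subtype.val hxy
      injection h1 with h2
      exact (Prod.mk.inj h2).2
    · rintro ⟨y, hy⟩
      cases y with
      | x z =>
        by_cases h : R z = true
        · rw [gc_x_of R idx z h] at hy; simp at hy
        · rw [gc_x_not R idx z h] at hy; simp at hy
      | w s => simp [gc] at hy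
      | u s => simp [gc] at hy
      | E s =>
        obtain ⟨k, x⟩ := s
        have hk : k = Sum.inl i := by simpa [gc] using hy
        subst hk
        exact ⟨x, rfl⟩
  · intro j
    have hc : Nat.card X + 1 = Nat.card (Option X) := by
      rw [Nat.card_eq_fintype_card, Nat.card_eq_fintype_card, Fintype.card_option]
    rw [hc]
    symm
    refine Nat.card_eq_of_bijective
      (fun x : Option X => (match x with
        | none => ⟨.x (idx.symm j).1, by
            rw [gc_x_of R idx _ (idx.symm j).2]
            simp⟩
        | some x => ⟨.E (Sum.inr j, x), rfl⟩ :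
        {z // gc (μ := μ) (X := X) R idx z = some (Sum.inr j)})) ⟨?_, ?_⟩
    · intro x y hxy
      have h1 := congrArg Subtype.val hxy
      cases x with
      | none =>
        cases y with
        | none => rfl
        | some y => injection h1
      | some x =>
        cases y with
        | none => injection h1
        | some y =>
          injection h1 with h2
          rw [(Prod.mk.inj h2).2]
    · rintro ⟨y, hy⟩
      cases y with
      | x z =>
        by_cases h : R z = true
        · rw [gc_x_of R idx z h] at hy
          have h1 : idx ⟨z, h⟩ = j := by simpa using hy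
          refine ⟨none, Subtype.ext ?_⟩
          subst h1
          simp
        · rw [gc_x_not R idx z h] at hy; simp at hy
      | w s => simp [gc] at hy
      | u s => simp [gc] at hy
      | E s =>
        obtain ⟨k, x⟩ := s
        have hk : k = Sum.inr j := by simpa [gc] using hy
        subst hk
        exact ⟨some x, rfl⟩

end colours

/-! ### The attachment lemma -/

section main

variable {F L : Type u} [Field F] [Field L] [Algebra F L]

/-- The indices of the matrix units of the blocks in `P`. -/
abbrev MX {A : Type u} [NonUnitalRing A] [Module L A] (W : WMData L A) (P : Finset (Fin W.m)) :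
    Type := Σ i : {i // i ∈ P}, Fin (W.n i.1) × Fin (W.n i.1)

theorem card_MX {A : Type u} [NonUnitalRing A] [Module L A] (W : WMData L A)
    (P : Finset (Fin W.m)) : Nat.card (MX W P) = W.dP P := by
  rw [Nat.card_eq_fintype_card, Fintype.card_sigma, WMData.dP,
    ← Finset.sum_coe_sort P (fun i => W.n i ^ 2)]
  refine Finset.sum_congr rfl fun i _ => ?_
  rw [Fintype.card_prod, Fintype.card_fin, sq]

/-- The evaluation. -/
def gv {A : Type u} [NonUnitalRing A] [Module L A] (W : WMData L A) (P : Finset (Fin W.m))
    {Z T : Type} (a : Z → W.Ent) (pp : (i : {i // i ∈ P}) → Fin (W.n i.1)) :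
    GV Z (T × MX W P) → A
  | .x z => (a z).val
  | .w s => W.e s.2.1.1 (pp s.2.1) s.2.2.1
  | .E s => W.e s.2.1.1 s.2.2.1 s.2.2.2
  | .u s => W.e s.2.1.1 s.2.2.2 (pp s.2.1)

theorem gal {A : AssocAlg F} [Module L A.carrier] (W : WMData L A.carrier) {Z : Type} [Fintype Z]
    [DecidableEq Z] {p : FA F Z}
    (hp : p ∈ ML F Z) (a : Z → W.Ent) (h0 : ev A (fun z => (a z).val) p ≠ 0)
    (P : Finset (Fin W.m)) (at' : Fin W.m → Z) (side : Fin W.m → Bool)
    (hlab : ∀ i ∈ P, W.blk (if side i then (a (at' i)).rl else (a (at' i)).ll) = some i)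
    (hD : ∀ i ∈ P, (a (at' i)).isRad = true → W.blk (a (at' i)).ll ≠ W.blk (a (at' i)).rl)
    (hH : ∀ K : Finset Z, K.Nonempty → (∀ z ∈ K, (a z).isRad = true) → (∀ i ∈ P, at' i ∉ K) →
      ∀ v : Z → A.carrier, (∀ z ∈ K, ∃ i q r, v z = W.e i q r) →
        (∀ z, z ∉ K → (∀ i ∈ P, at' i ≠ z) → v z = (a z).val) → ev A v p = 0) (μ : ℕ) :
    ∃ (Z' : Type) (_ : Fintype Z') (_ : DecidableEq Z') (q : FA F Z')
      (c : Z' → Option (Fin μ ⊕ Fin (WMData.radc a))),
      q ∈ ML F Z' ∧ Typed q μ (W.dP P) (WMData.radc a) c ∧ Imp p q ∧ ¬ Sat A q := by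
  classical
  -- the labels
  have hpp : ∀ i : {i // i ∈ P}, ∃ q : Fin (W.n i.1),
      (if side i.1 then (a (at' i.1)).rl else (a (at' i.1)).ll) = some ⟨i.1, q⟩ := by
    rintro ⟨i, hi⟩
    have h := hlab i hi
    rw [WMData.blk, Option.map_eq_some_iff] at h
    obtain ⟨⟨i', q⟩, h1, h2⟩ := h
    have h3 : i' = i := h2
    subst h3
    exact ⟨q, h1⟩
  choose pp hpp using hpp
  -- the radical entries
  let R : Z → Bool := fun z => (a z).isRad
  have hcard : Fintype.card {z // R z = true} = WMData.radc a := by
    rw [Fintype.card_subtype, WMData.radc]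
  let idx : {z // R z = true} ≃ Fin (WMData.radc a) := Fintype.equivFinOfCardEq hcard
  let S : Type := (Fin μ ⊕ Fin (WMData.radc a)) × MX W P
  let tgt : S → Z := fun s => at' s.2.1.1
  let sd : S → Bool := fun s => side s.2.1.1
  let c : GV Z S → Option (Fin μ ⊕ Fin (WMData.radc a)) := gc R idx
  let v : GV Z S → A.carrier := gv W P a pp
  let f : FA F (GV Z S) := sbst (wsb (gw tgt sd)) p
  have hf : f ∈ ML F (GV Z S) := sbst_mem_ML (gw tgt sd) (gw_ne_nil tgt sd) (nodup_gw tgt sd)
    (gb tgt) (fun y z => mem_gw tgt sd y z) hp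
  refine ⟨GV Z S, inferInstance, inferInstance, altS c f, c, altS_mem_ML c hf, ?_, ?_, ?_⟩
  · have := gc_sizes (μ := μ) (X := MX W P) R idx
    rw [card_MX] at this
    exact typed_altS this f
  · exact imp_trans (imp_wsb _ (gw_ne_nil tgt sd) p) (imp_altS c f)
  · intro hsat
    apply h0
    have hev : ev A v (altS c f) = ev A v f := by
      refine ev_altS_of A v c f fun π hπ hne => ?_
      obtain ⟨hπ1, hπ2⟩ := hπ
      rw [ev_wsb A _ (gw_ne_nil tgt sd)]
      -- all slots are nonzero
      by_cases hall : ∀ s : S, v (π (.w s)) * v (π (.E s)) * v (π (.u s)) ≠ 0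
      swap
      · push Not at hall
        obtain ⟨s, hs⟩ := hall
        exact ev_zero_arg A _ hp (wval_gw_zero tgt sd (fun y => v (π y)) s hs)
      have hE : ∀ s : S, π (.E s) = .E s ∨ ∃ z, π (.E s) = .x z ∧ R z = true ∧
          (a z).ll = some ⟨s.2.1.1, s.2.2.1⟩ ∧ (a z).rl = some ⟨s.2.1.1, s.2.2.2⟩ := by
        intro s
        have hs := hall s
        rw [hπ2 (.w s) rfl, hπ2 (.u s) rfl] at hs
        have hcs : c (π (.E s)) = some s.1 := hπ1 (.E s)
        cases hy : π (.E s) with
        | x z =>
          rw [hy] at hs hcs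
          right
          refine ⟨z, rfl, ?_, ?_, ?_⟩
          · by_contra hR
            rw [show c (.x z) = none from gc_x_not R idx z hR] at hcs
            simp at hcs
          · exact ll_of_ne W _ (pp s.2.1) _ (a z) (left_ne_zero_of_mul hs)
          · refine rl_of_ne W _ _ (pp s.2.1) (a z) ?_
            rw [mul_assoc] at hs
            exact right_ne_zero_of_mul hs
        | w t => rw [hy] at hcs; simp [c, gc] at hcs
        | u t => rw [hy] at hcs; simp [c, gc] at hcs
        | E t =>
          left
          rw [hy] at hs hcs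
          have h1 : t.1 = s.1 := by simpa [c, gc] using hcs
          obtain ⟨k, ⟨i, hi⟩, r, d⟩ := s
          obtain ⟨k', ⟨i', hi'⟩, r', d'⟩ := t
          change k' = k at h1
          subst h1
          have h2 := ll_of_ne W _ _ _ (WMData.Ent.mu i' r' d') (left_ne_zero_of_mul hs)
          rw [mul_assoc] at hs
          have h3 := rl_of_ne W _ _ _ (WMData.Ent.mu i' r' d') (right_ne_zero_of_mul hs)
          change some (⟨i', r'⟩ : Σ i : Fin W.m, Fin (W.n i)) = some ⟨i, r⟩ at h2
          change some (⟨i', d'⟩ : Σ i : Fin W.m, Fin (W.n i)) = some ⟨i, d⟩ at h3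
          have h2' := Option.some.inj h2
          have h3' := Option.some.inj h3
          obtain ⟨h4, h5⟩ := Sigma.mk.inj h2'
          subst h4
          obtain ⟨-, h6⟩ := Sigma.mk.inj h3'
          rw [eq_of_heq h5, eq_of_heq h6]
      -- the moved radical entries
      let K : Finset Z := Finset.univ.filter fun z => R z = true ∧ π (.x z) ≠ .x z
      have hKne : K.Nonempty := by
        by_contra hK
        rw [Finset.not_nonempty_iff_eq_empty, Finset.filter_eq_empty_iff] at hK
        apply hne
        have hx : ∀ z, π (.x z) = .x z := by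
          intro z
          by_cases hR : R z = true
          · by_contra hz
            exact hK (Finset.mem_univ z) ⟨hR, hz⟩
          · exact hπ2 _ (gc_x_not R idx z hR)
        refine Equiv.ext fun y => ?_
        cases y with
        | x z => exact hx z
        | w s => exact hπ2 _ rfl
        | u s => exact hπ2 _ rfl
        | E s =>
          rcases hE s with h | ⟨z, h, -⟩
          · exact h
          · rw [← hx z] at h
            have := π.injective h
            cases this
      have hKat : ∀ z ∈ K, (∃ s : S, π (.x z) = .E s) ∧ W.blk (a z).ll = W.blk (a z).rl := by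
        intro z hz
        obtain ⟨-, hR, hz⟩ := Finset.mem_filter.1 hz
        have hcz : c (.x z) = some (Sum.inr (idx ⟨z, hR⟩)) := gc_x_of R idx z hR
        have huniq : ∀ z', c (.x z') = some (Sum.inr (idx ⟨z, hR⟩)) → z' = z := by
          intro z' h
          by_cases hR' : R z' = true
          · rw [show c (.x z') = some (Sum.inr (idx ⟨z', hR'⟩)) from gc_x_of R idx z' hR'] at h
            have h1 : idx ⟨z', hR'⟩ = idx ⟨z, hR⟩ := by simpa using h
            exact congrArg Subtype.val (idx.injective h1)
          · rw [show c (.x z') = none from gc_x_not R idx z' hR'] at h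
            simp at h
        constructor
        · have h1 : c (π (.x z)) = some (Sum.inr (idx ⟨z, hR⟩)) := by rw [hπ1, hcz]
          cases hy : π (.x z) with
          | x z' =>
            rw [hy] at h1
            exact absurd (by rw [hy, huniq z' h1]) hz
          | w t => rw [hy] at h1; simp [c, gc] at h1
          | u t => rw [hy] at h1; simp [c, gc] at h1
          | E t => exact ⟨t, rfl⟩
        · have h1 : c (π.symm (.x z)) = some (Sum.inr (idx ⟨z, hR⟩)) := by
            rw [← hπ1 (π.symm (.x z)), Equiv.apply_symm_apply, hcz]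
          cases hy : π.symm (.x z) with
          | x z' =>
            rw [hy] at h1
            have h2 := huniq z' h1
            subst h2
            exact absurd (by rw [Equiv.symm_apply_eq] at hy; exact hy.symm) hz
          | w t => rw [hy] at h1; simp [c, gc] at h1
          | u t => rw [hy] at h1; simp [c, gc] at h1
          | E t =>
            rw [Equiv.symm_apply_eq] at hy
            rcases hE t with h | ⟨z', h, -, hl, hr⟩
            · rw [h] at hy; cases hy
            · rw [h] at hy
              have h3 : z = z' := by injection hy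
              subst h3
              rw [hl, hr]
              rfl
      have hKno : ∀ i ∈ P, at' i ∉ K := by
        intro i hi hK
        obtain ⟨-, hb⟩ := hKat _ hK
        exact hD i hi (Finset.mem_filter.1 hK).2.1 hb
      have hword : ∀ z, (∀ i ∈ P, at' i ≠ z) →
          wval (fun y => v (π y)) (gw tgt sd z) = v (π (.x z)) := by
        intro z hz
        rw [gw_of_not tgt sd z fun s => hz s.2.1.1 s.2.1.2]
        rfl
      refine hH K hKne (fun z hz => (Finset.mem_filter.1 hz).2.1) hKno _ ?_ ?_
      · intro z hz
        obtain ⟨⟨s, hs⟩, -⟩ := hKat z hz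
        refine ⟨s.2.1.1, s.2.2.1, s.2.2.2, ?_⟩
        rw [hword z fun i hi h => hKno i hi (by rw [h]; exact hz), hs]
        rfl
      · intro z hz hat
        rw [hword z hat]
        have : π (.x z) = .x z := by
          by_contra hne'
          by_cases hR : R z = true
          · exact hz (Finset.mem_filter.2 ⟨Finset.mem_univ z, hR, hne'⟩)
          · exact hne' (hπ2 _ (gc_x_not R idx z hR))
        rw [this]
        rfl
    rw [hsat v, ev_wsb A _ (gw_ne_nil tgt sd)] at hev
    have htri : ∀ s : S, v (.w s) * v (.E s) * v (.u s) =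
        W.e s.2.1.1 (pp s.2.1) (pp s.2.1) := by
      intro s
      change W.e s.2.1.1 (pp s.2.1) s.2.2.1 * W.e s.2.1.1 s.2.2.1 s.2.2.2 *
        W.e s.2.1.1 s.2.2.2 (pp s.2.1) = _
      rw [W.e_mul, W.e_mul]
    have hfun : (fun z => wval v (gw tgt sd z)) = fun z => (a z).val := by
      funext z
      refine wval_gw_of_absorb tgt sd v z ?_ ?_
      · intro s hs hsd
        rw [htri]
        have h := hpp s.2.1
        have hsd' : side s.2.1.1 = false := hsd
        rw [hsd'] at h
        subst hs
        exact left_unit W (a (at' s.2.1.1)) (by simpa using h)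
      · intro s hs hsd
        rw [htri]
        have h := hpp s.2.1
        have hsd' : side s.2.1.1 = true := hsd
        rw [hsd'] at h
        subst hs
        exact right_unit W (a (at' s.2.1.1)) (by simpa using h)
    rw [hfun] at hev
    exact hev.symm

end main

end Pool.Agent.KEM.GAL

namespace Pool.Agent.KEM

open Pool.Agent.Helper29

variable {F L : Type u} [Field F] [Field L] [Algebra F L]

/-- **The general attachment lemma** (row GAL). -/
theorem gal [CharZero F] {A : AssocAlg F} [Module L A.carrier] (hA : FinOver F L A)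
    (W : WMData L A.carrier) {Z : Type} [Fintype Z] [DecidableEq Z] {p : FA F Z}
    (hp : p ∈ ML F Z) (a : Z → W.Ent) (h0 : ev A (fun z => (a z).val) p ≠ 0)
    (P : Finset (Fin W.m)) (at' : Fin W.m → Z) (side : Fin W.m → Bool)
    (hlab : ∀ i ∈ P, W.blk (if side i then (a (at' i)).rl else (a (at' i)).ll) = some i)
    (hD : ∀ i ∈ P, (a (at' i)).isRad = true → W.blk (a (at' i)).ll ≠ W.blk (a (at' i)).rl)
    (hH : ∀ K : Finset Z, K.Nonempty → (∀ z ∈ K, (a z).isRad = true) → (∀ i ∈ P, at' i ∉ K) →
      ∀ v : Z → A.carrier, (∀ z ∈ K, ∃ i q r, v z = W.e i q r) →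
        (∀ z, z ∉ K → (∀ i ∈ P, at' i ≠ z) → v z = (a z).val) → ev A v p = 0) (μ : ℕ) :
    ∃ (Z' : Type) (_ : Fintype Z') (_ : DecidableEq Z') (q : FA F Z')
      (c : Z' → Option (Fin μ ⊕ Fin (WMData.radc a))),
      q ∈ ML F Z' ∧ Typed q μ (W.dP P) (WMData.radc a) c ∧ Imp p q ∧ ¬ Sat A q :=
  GAL.gal W hp a h0 P at' side hlab hD hH μ

end Pool.Agent.KEM
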