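import Pool.Agent.KEM.ShiRow
import Pool.Agent.KEM.Ent
import Pool.Agent.KEM.GAL

/-!
`L`-multilinearity of the values of multilinear polynomials.
-/

universe u

namespace Pool.Agent.KEM.Cn

open Pool.Agent.Helper29 Pool.Agent.KEM.ShR

variable {F : Type u} [Field F]

theorem inc_add {A : AssocAlg F} (a b : A.carrier) : inc A (a + b) = inc A a + inc A b :=
  Unitization.inr_add F a b

theorem inc_smul {A : AssocAlg F} (c : F) (a : A.carrier) : inc A (c • a) = c • inc A a :=
  Unitization.inr_smul F c a

theorem inc_mul {A : AssocAlg F} (a b : A.carrier) : inc A (a * b) = inc A a * inc A b :=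
  Unitization.inr_mul F a b

theorem inc_zero {A : AssocAlg F} : inc A (0 : A.carrier) = 0 := Unitization.inr_zero F

theorem inc_injective {A : AssocAlg F} : Function.Injective (inc A) :=
  Unitization.inr_injective (R := F)

theorem inc_eq_zero {A : AssocAlg F} {a : A.carrier} : inc A a = 0 ↔ a = 0 := by
  rw [← inc_zero]
  exact inc_injective.eq_iff

/-- The value of a multilinear polynomial lies in the algebra itself. -/
theorem ev_eq_inc {A : AssocAlg F} {Z : Type} (v : Z → A.carrier) {p : FA F Z}
    (hp : p ∈ ML F Z) : ev A v p = inc A (evs A v p) := by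
  induction hp using Submodule.span_induction with
  | mem q hq =>
    obtain ⟨w, hw, rfl⟩ := hq
    have h := ShR.ev_mon (A := A) v (FreeMonoid.toList w) hw.1
    rw [FreeMonoid.ofList_toList] at h
    rw [evs, h]
    rfl
  | zero => simp [evs, inc_zero]
  | add q q' _ _ h h' =>
    rw [evs, map_add, Unitization.snd_add]
    conv_lhs => rw [h, h']
    rw [inc_add]
    rfl
  | smul r q _ h =>
    rw [evs, map_smul, Unitization.snd_smul]
    conv_lhs => rw [h]
    rw [inc_smul]
    rfl

theorem evs_mon {A : AssocAlg F} {Z : Type} (v : Z → A.carrier) {w : FreeMonoid Z}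
    (hw : FreeMonoid.toList w ≠ []) :
    evs A v (mon F w) = wval v (FreeMonoid.toList w) := by
  have h := ShR.ev_mon (A := A) v (FreeMonoid.toList w) hw
  rw [FreeMonoid.ofList_toList] at h
  rw [evs, h]
  rfl

variable {L : Type u} [Field L] [Algebra F L]

/-- The value of a multilinear polynomial is an `L`-linear function of each entry. -/
theorem evs_update {A : AssocAlg F} [Module L A.carrier] (hA : FinOver F L A) {Z : Type}
    [DecidableEq Z] {p : FA F Z} (hp : p ∈ ML F Z) (v : Z → A.carrier) (z : Z) :
    ∃ φ : A.carrier →ₗ[L] A.carrier, ∀ x, evs A (Function.update v z x) p = φ x := by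
  have := hA.tower
  have := hA.smul_mul
  have := hA.comm
  induction hp using Submodule.span_induction with
  | mem q hq =>
    obtain ⟨w, ⟨hne, hnd, hall⟩, rfl⟩ := hq
    obtain ⟨l1, l2, hl⟩ := List.append_of_mem (hall z)
    rw [hl] at hnd
    have h1 : z ∉ l1 ∧ z ∉ l2 := by
      rw [List.nodup_append] at hnd
      refine ⟨fun h => ?_, ?_⟩
      · exact hnd.2.2 z h z (by simp) rfl
      · exact (List.nodup_cons.1 hnd.2.1).1
    refine ⟨(lctx L (l1.map v)).comp (rctx L (l2.map v)), fun x => ?_⟩
    rw [evs_mon _ hne, hl, wval_eq]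
    have h2 : (l1 ++ z :: l2).map (Function.update v z x) = l1.map v ++ [x] ++ l2.map v := by
      have e1 : l1.map (Function.update v z x) = l1.map v := by
        apply List.map_congr_left
        intro a ha
        rw [Function.update_of_ne]
        rintro rfl
        exact h1.1 ha
      have e2 : l2.map (Function.update v z x) = l2.map v := by
        apply List.map_congr_left
        intro a ha
        rw [Function.update_of_ne]
        rintro rfl
        exact h1.2 ha
      rw [List.map_append, List.map_cons, e1, e2, Function.update_self]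
      simp
    rw [h2, lprod_ctx (C := L) (by simp)]
    rfl
  | zero => exact ⟨0, fun x => by simp [evs]⟩
  | add q q' _ _ h h' =>
    obtain ⟨φ, hφ⟩ := h
    obtain ⟨ψ, hψ⟩ := h'
    refine ⟨φ + ψ, fun x => ?_⟩
    rw [LinearMap.add_apply, ← hφ, ← hψ, evs, map_add, Unitization.snd_add]
    rfl
  | smul r q _ h =>
    obtain ⟨φ, hφ⟩ := h
    refine ⟨(algebraMap F L r) • φ, fun x => ?_⟩
    rw [LinearMap.smul_apply, ← hφ, evs, map_smul, Unitization.snd_smul, algebraMap_smul]
    rfl

/-- Multilinear expansion: a multilinear polynomial vanishes at tuples with entries in the spans of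
sets if it vanishes at the tuples with entries in the sets. -/
theorem ml_expand {A : AssocAlg F} [Module L A.carrier] (hA : FinOver F L A) {Z : Type}
    [Fintype Z] [DecidableEq Z] {p : FA F Z} (hp : p ∈ ML F Z) (T : Z → Set A.carrier)
    (h : ∀ v : Z → A.carrier, (∀ z, v z ∈ T z) → ev A v p = 0) (v : Z → A.carrier)
    (hv : ∀ z, v z ∈ Submodule.span L (T z)) : ev A v p = 0 := by
  have h' : ∀ v : Z → A.carrier, (∀ z, v z ∈ T z) → evs A v p = 0 := by
    intro v hv
    have := h v hv
    rw [ev_eq_inc v hp, inc_eq_zero] at this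
    exact this
  have key : ∀ S : Finset Z, ∀ v : Z → A.carrier, (∀ z ∈ S, v z ∈ Submodule.span L (T z)) →
      (∀ z, z ∉ S → v z ∈ T z) → evs A v p = 0 := by
    intro S
    induction S using Finset.induction_on with
    | empty => exact fun v _ hv => h' v (fun z => hv z (by simp))
    | insert z S hz ih =>
      intro v hv1 hv2
      obtain ⟨φ, hφ⟩ := evs_update hA hp v z
      have h3 : evs A v p = φ (v z) := by rw [← hφ, Function.update_eq_self]
      rw [h3]
      have h4 : v z ∈ Submodule.span L (T z) := hv1 z (by simp)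
      suffices aux : ∀ x ∈ Submodule.span L (T z), φ x = 0 from aux _ h4
      clear h3 h4
      intro x hx
      induction hx using Submodule.span_induction with
      | mem x hx =>
        rw [← hφ]
        apply ih
        · intro y hy
          by_cases hyz : y = z
          · exact absurd (hyz ▸ hy) hz
          · rw [Function.update_of_ne hyz]
            exact hv1 y (by simp [hy])
        · intro y hy
          by_cases hyz : y = z
          · subst hyz; rw [Function.update_self]; exact hx
          · rw [Function.update_of_ne hyz]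
            exact hv2 y (by simp [hyz, hy])
      | zero => exact map_zero φ
      | add x y _ _ hx hy => rw [map_add, hx, hy, add_zero]
      | smul c x _ hx => rw [map_smul, hx, smul_zero]
  rw [ev_eq_inc v hp, inc_eq_zero]
  exact key Finset.univ v (fun z _ => hv z) (fun z hz => absurd (Finset.mem_univ z) hz)


theorem exists_word {A : AssocAlg F} {Z : Type} {p : FA F Z} (hp : p ∈ ML F Z)
    (v : Z → A.carrier) (h : evs A v p ≠ 0) :
    ∃ w : FreeMonoid Z, MLW w ∧ wval v (FreeMonoid.toList w) ≠ 0 := by
  by_contra hbad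
  push Not at hbad
  apply h
  clear h
  induction hp using Submodule.span_induction with
  | mem q hq =>
    obtain ⟨w, hw, rfl⟩ := hq
    rw [evs_mon _ hw.1]
    exact hbad w hw
  | zero => simp [evs]
  | add q q' _ _ h h' =>
    have : evs A v (q + q') = evs A v q + evs A v q' := by
      rw [evs, map_add, Unitization.snd_add]; rfl
    rw [this, h, h', add_zero]
  | smul r q _ h =>
    have : evs A v (r • q) = r • evs A v q := by
      rw [evs, map_smul, Unitization.snd_smul]; rfl
    rw [this, h, smul_zero]

/-- In a chain of entries, a class of labels which occurs and is never mixed occurs everywhere. -/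
theorem chain_class {A : Type u} [NonUnitalRing A] [Module L A] {W : WMData L A}
    {Z : Type} (a : Z → W.Ent) (i : Fin W.m) (l : List Z)
    (hc : List.IsChain (fun x y : W.Ent => x.rl = y.ll) (l.map a))
    (h : ∀ z, W.blk (a z).ll = some i ↔ W.blk (a z).rl = some i) :
    ∀ x ∈ l, ∀ y ∈ l, W.blk (a x).ll = some i → W.blk (a y).ll = some i := by
  have h1 : List.IsChain (fun x y : Z => (W.blk (a x).ll = some i ↔ W.blk (a y).ll = some i)) l := by
    rw [List.isChain_map] at hc
    refine hc.imp (fun x y hxy => ?_)
    rw [h x, hxy]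
  have h2 : l.Pairwise (fun x y : Z => (W.blk (a x).ll = some i ↔ W.blk (a y).ll = some i)) := by
    have : IsTrans Z (fun x y : Z => (W.blk (a x).ll = some i ↔ W.blk (a y).ll = some i)) :=
      ⟨fun x y z h h' => h.trans h'⟩
    exact List.isChain_iff_pairwise.1 h1
  have : Std.Symm (fun x y : Z => (W.blk (a x).ll = some i ↔ W.blk (a y).ll = some i)) :=
    ⟨fun x y h => h.symm⟩
  intro x hx y hy hxi
  exact (List.Pairwise.forall_of_forall
    (R := fun x y : Z => (W.blk (a x).ll = some i ↔ W.blk (a y).ll = some i))
    (fun _ _ => Iff.rfl) h2 hx hy).1 hxi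

/-- In a word with nonzero value, some entry leads out of the class `i`. -/
theorem exists_exit {A : AssocAlg F} [Module L A.carrier] (hA : FinOver F L A)
    (W : WMData L A.carrier) {Z : Type} {p : FA F Z} (hp : p ∈ ML F Z) (a : Z → W.Ent)
    (h0 : evs A (fun z => (a z).val) p ≠ 0) (i : Fin W.m)
    (hi : ∃ z, W.blk (a z).ll = some i ∨ W.blk (a z).rl = some i)
    (hn : ¬ ∀ z, W.blk (a z).ll = some i ∧ W.blk (a z).rl = some i) :
    ∃ z, (W.blk (a z).ll = some i ∧ W.blk (a z).rl ≠ some i) ∨
      (W.blk (a z).ll ≠ some i ∧ W.blk (a z).rl = some i) := by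
  have := hA.tower
  have := hA.smul_mul
  have := hA.comm
  by_contra hbad
  push Not at hbad
  have hiff : ∀ z, W.blk (a z).ll = some i ↔ W.blk (a z).rl = some i := by
    intro z
    constructor
    · exact (hbad z).1
    · intro h
      by_contra h'
      exact (hbad z).2 h' h
  obtain ⟨w, hw, hwv⟩ := exists_word hp _ h0
  have hv : wval (fun z => (a z).val) (FreeMonoid.toList w) =
      wval WMData.Ent.val ((FreeMonoid.toList w).map a) := by
    rw [wval_eq, wval_eq, List.map_map]
    rfl
  rw [hv] at hwv
  obtain ⟨hc, -⟩ := ent_list W _ (by simpa using hw.1) hwv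
  have key := chain_class a i _ hc hiff
  obtain ⟨z, hz⟩ := hi
  have hz' : W.blk (a z).ll = some i := by
    rcases hz with h | h
    · exact h
    · exact (hiff z).2 h
  apply hn
  intro y
  have hy := key z (hw.2.2 z) y (hw.2.2 y) hz'
  exact ⟨hy, (hiff y).1 hy⟩

theorem radc_lt {L A : Type u} [Field L] [NonUnitalRing A] [Module L A] {W : WMData L A}
    {Z : Type} [Fintype Z] (a a' : Z → W.Ent) (z0 : Z) (h0 : (a z0).isRad = true)
    (h0' : (a' z0).isRad = false) (h : ∀ z, (a' z).isRad = true → (a z).isRad = true) :
    WMData.radc a' < WMData.radc a := by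
  apply Finset.card_lt_card
  rw [Finset.ssubset_iff_of_subset]
  · exact ⟨z0, by simp [h0], by simp [h0']⟩
  · intro z hz
    simp only [Finset.mem_filter, Finset.mem_univ, true_and] at hz ⊢
    exact h z hz

/-- Case II. -/
theorem con_two [CharZero F] {A : AssocAlg F} [Module L A.carrier] (hA : FinOver F L A)
    (W : WMData L A.carrier) {Z : Type} [Fintype Z] [DecidableEq Z] {p : FA F Z}
    (hp : p ∈ ML F Z) (a : Z → W.Ent) (h0 : ev A (fun z => (a z).val) p ≠ 0)
    (hmin : ∀ a' : Z → W.Ent, WMData.radc a' < WMData.radc a → ev A (fun z => (a' z).val) p = 0)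
    (hn : ∀ i, ¬ ∀ z, W.blk (a z).ll = some i ∧ W.blk (a z).rl = some i) (μ : ℕ) :
    ∃ (Z' : Type) (_ : Fintype Z') (_ : DecidableEq Z') (q : FA F Z')
      (c : Z' → Option (Fin μ ⊕ Fin (WMData.radc a))),
      q ∈ ML F Z' ∧ Typed q μ (W.dP (WMData.blocks a)) (WMData.radc a) c ∧ Imp p q ∧
        ¬ Sat A q := by
  classical
  have := hA.tower
  have := hA.smul_mul
  have := hA.comm
  have h0' : evs A (fun z => (a z).val) p ≠ 0 := by
    intro h
    rw [ev_eq_inc _ hp, h, inc_zero] at h0
    exact h0 rfl
  have hmix : ∀ x : W.Ent, W.blk x.ll ≠ W.blk x.rl → x.isRad = true := by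
    intro x hx
    cases x with
    | mu i q r => exact absurd rfl hx
    | rad _ _ _ _ _ _ => rfl
  have hex : ∀ i : Fin W.m, ∃ z, i ∈ WMData.blocks a → (W.blk (a z).ll = some i ∧
      W.blk (a z).rl ≠ some i) ∨ (W.blk (a z).ll ≠ some i ∧ W.blk (a z).rl = some i) := by
    intro i
    by_cases hi : i ∈ WMData.blocks a
    · have hi' : ∃ z, W.blk (a z).ll = some i ∨ W.blk (a z).rl = some i := by
        simpa [WMData.blocks] using hi
      obtain ⟨z, hz⟩ := exists_exit hA W hp a h0' i hi' (hn i)
      exact ⟨z, fun _ => hz⟩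
    · -- any `z`
      obtain ⟨w, hw, -⟩ := exists_word hp _ h0'
      obtain ⟨z, hz⟩ := List.exists_mem_of_ne_nil _ hw.1
      exact ⟨z, fun h => absurd h hi⟩
  choose at' hat using hex
  have hne : ∀ i ∈ WMData.blocks a, W.blk (a (at' i)).ll ≠ W.blk (a (at' i)).rl := by
    intro i hi h
    rcases hat i hi with ⟨h1, h2⟩ | ⟨h1, h2⟩
    · exact h2 (h ▸ h1)
    · exact h1 (h ▸ h2)
  refine gal hA W hp a h0 (WMData.blocks a) at'
    (fun i => decide (W.blk (a (at' i)).rl = some i)) ?_ ?_ ?_ μ
  · intro i hi
    rcases hat i hi with ⟨h1, h2⟩ | ⟨h1, h2⟩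
    · simp [h2, h1]
    · simp [h2]
  · intro i hi _
    exact hne i hi
  · intro K hK hKr hKat v hv1 hv2
    obtain ⟨z0, hz0⟩ := hK
    -- expand the arguments at the places `at' i`
    let T : Z → Set A.carrier := fun z =>
      if z ∈ K then {x | ∃ i q r, x = W.e i q r}
      else if ∃ i ∈ WMData.blocks a, at' i = z then Set.range (WMData.Ent.val : W.Ent → A.carrier)
      else {(a z).val}
    refine ml_expand hA hp T ?_ v ?_
    · intro v' hv'
      have hent : ∀ z, ∃ x : W.Ent, x.val = v' z ∧ (z ∈ K → x.isRad = false) ∧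
          (x.isRad = true → (a z).isRad = true) := by
        intro z
        have hz := hv' z
        by_cases hzK : z ∈ K
        · simp only [T, if_pos hzK] at hz
          obtain ⟨i, q, r, hx⟩ := hz
          exact ⟨.mu i q r, hx.symm, fun _ => rfl, fun h => absurd h (by simp [WMData.Ent.isRad])⟩
        · by_cases hzat : ∃ i ∈ WMData.blocks a, at' i = z
          · simp only [T, if_neg hzK, if_pos hzat] at hz
            obtain ⟨x, hx⟩ := hz
            refine ⟨x, hx, fun h => absurd h hzK, fun _ => ?_⟩
            obtain ⟨i, hi, rfl⟩ := hzat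
            exact hmix _ (hne i hi)
          · simp only [T, if_neg hzK, if_neg hzat] at hz
            exact ⟨a z, hz.symm, fun h => absurd h hzK, id⟩
      choose a' ha' using hent
      have e : v' = fun z => (a' z).val := funext (fun z => (ha' z).1.symm)
      rw [e]
      exact hmin a' (radc_lt a a' z0 (hKr z0 hz0) ((ha' z0).2.1 hz0) (fun z => (ha' z).2.2))
    · intro z
      by_cases hzK : z ∈ K
      · simp only [T, if_pos hzK]
        exact Submodule.subset_span (hv1 z hzK)
      · by_cases hzat : ∃ i ∈ WMData.blocks a, at' i = z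
        · simp only [T, if_neg hzK, if_pos hzat]
          rw [ent_span W]
          trivial
        · simp only [T, if_neg hzK, if_neg hzat]
          apply Submodule.subset_span
          push Not at hzat
          exact hv2 z hzK hzat

theorem algHom_ext' {Z : Type} {B : Type*} [Semiring B] [Algebra F B] {f g : FA F Z →ₐ[F] B}
    (h : ∀ w : FreeMonoid Z, f (mon F w) = g (mon F w)) : f = g := by
  apply AlgHom.ext
  intro p
  induction p using MonoidAlgebra.induction_linear with
  | zero => simp
  | add p q hp hq => rw [map_add, map_add, hp, hq]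
  | single w r =>
    have : (MonoidAlgebra.single w r : FA F Z) = r • mon F w := by simp [mon]
    rw [this, map_smul, map_smul, h]

theorem ren_id {Z : Type} (p : FA F Z) : ren (F := F) (id : Z → Z) p = p := by
  have h1 : (ren (F := F) (id : Z → Z)) = AlgHom.id F (FA F Z) := by
    apply algHom_ext'
    intro w
    simp [ren, mon]
  rw [h1]
  rfl

theorem ev_ren {A : AssocAlg F} {Z Z' : Type} (f : Z → Z') (v : Z' → A.carrier) (p : FA F Z) :
    ev A v (ren f p) = ev A (fun z => v (f z)) p := by
  have h : (ev A v).comp (ren f) = ev A (fun z => v (f z)) := by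
    apply algHom_ext'
    intro w
    simp [ren, ev, mon, FreeMonoid.lift_apply, List.map_map, Function.comp_def]
  rw [← h]
  rfl

/-- Multiply by a new variable on the left. -/
noncomputable def yp {Z : Type} (p : FA F Z) : FA F (Option Z) :=
  mon F (FreeMonoid.of none) * ren some p

theorem yp_ml {Z : Type} {p : FA F Z} (hp : p ∈ ML F Z) : yp p ∈ ML F (Option Z) := by
  induction hp using Submodule.span_induction with
  | mem q hq =>
    obtain ⟨w, ⟨hne, hnd, hall⟩, rfl⟩ := hq
    refine Submodule.subset_span ⟨FreeMonoid.of none * FreeMonoid.map some w, ⟨?_, ?_, ?_⟩, ?_⟩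
    · simp [FreeMonoid.toList_mul]
    · rw [FreeMonoid.toList_mul, FreeMonoid.toList_of, FreeMonoid.toList_map,
        List.singleton_append, List.nodup_cons]
      exact ⟨by simp, hnd.map (Option.some_injective Z)⟩
    · intro z
      rw [FreeMonoid.toList_mul, FreeMonoid.toList_of, FreeMonoid.toList_map,
        List.singleton_append]
      cases z with
      | none => simp
      | some z => simp [hall z]
    · simp [yp, ren, mon, MonoidAlgebra.single_mul_single]
  | zero => simp [yp]
  | add q q' _ _ h h' =>
    rw [yp, map_add, mul_add]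
    exact Submodule.add_mem _ h h'
  | smul r q _ h =>
    rw [yp, map_smul, mul_smul_comm]
    exact Submodule.smul_mem _ r h

theorem ev_yp {A : AssocAlg F} {Z : Type} (v : Option Z → A.carrier) (p : FA F Z) :
    ev A v (yp p) = inc A (v none) * ev A (fun z => v (some z)) p := by
  rw [yp, map_mul, ev_ren]
  congr 1
  simp [ev, mon, FreeMonoid.lift_apply]

theorem diag_mul {L A : Type u} [Field L] [NonUnitalRing A] [Module L A] {W : WMData L A}
    (x : W.Ent) (i : Fin W.m) (q : Fin (W.n i)) (hx : x.ll = some ⟨i, q⟩) :
    W.e i q q * x.val = x.val := by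
  cases x with
  | mu i' q' r' =>
    simp only [WMData.Ent.ll, Option.some.injEq, Sigma.mk.injEq] at hx
    obtain ⟨rfl, hx⟩ := hx
    obtain rfl := eq_of_heq hx
    exact W.e_mul _ _ _ _
  | rad l r x hx' hl hr =>
    have : l = some ⟨i, q⟩ := hx
    subst this
    exact hl

/-- If the left labels of all entries are in the block `i`, the value is reproduced by the unit of
the block. -/
theorem sum_diag {A : AssocAlg F} [Module L A.carrier] (hA : FinOver F L A)
    (W : WMData L A.carrier) {Z : Type} {p : FA F Z} (hp : p ∈ ML F Z) (a : Z → W.Ent)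
    (i : Fin W.m) (hi : ∀ z, W.blk (a z).ll = some i) :
    ∑ q, W.e i q q * evs A (fun z => (a z).val) p = evs A (fun z => (a z).val) p := by
  have := hA.tower
  have := hA.smul_mul
  have := hA.comm
  induction hp using Submodule.span_induction with
  | mem q hq =>
    obtain ⟨w, hw, rfl⟩ := hq
    rw [evs_mon _ hw.1]
    have hv : wval (fun z => (a z).val) (FreeMonoid.toList w) =
        wval WMData.Ent.val ((FreeMonoid.toList w).map a) := by
      rw [wval_eq, wval_eq, List.map_map]
      rfl
    rw [hv]
    by_cases h0 : wval WMData.Ent.val ((FreeMonoid.toList w).map a) = 0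
    · rw [h0]; simp
    · obtain ⟨-, x, hx, hxl, -⟩ := ent_list W _ (by simpa using hw.1) h0
      rw [← hx]
      have hb : W.blk x.ll = some i := by
        rw [hxl, List.head_map]
        exact hi _
      obtain ⟨q, hq⟩ : ∃ q, x.ll = some ⟨i, q⟩ := by
        cases hxx : x.ll with
        | none => rw [hxx] at hb; exact absurd hb (by simp [WMData.blk])
        | some y =>
          obtain ⟨i', q⟩ := y
          rw [hxx] at hb
          simp only [WMData.blk, Option.map_some, Option.some.injEq] at hb
          subst hb
          exact ⟨q, rfl⟩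
      rw [Finset.sum_eq_single q]
      · exact diag_mul x i q hq
      · intro q' _ hq'
        refine (ent_mul W (.mu i q' q') x).1 ?_
        rw [hq]
        simp only [WMData.Ent.rl, Ne, Option.some.injEq, Sigma.mk.injEq, heq_eq_eq, true_and]
        exact hq'
      · intro h
        exact absurd (Finset.mem_univ _) h
  | zero => simp [evs]
  | add q q' _ _ h h' =>
    have : evs A (fun z => (a z).val) (q + q') =
        evs A (fun z => (a z).val) q + evs A (fun z => (a z).val) q' := by
      rw [evs, map_add, Unitization.snd_add]; rfl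
    rw [this]
    simp only [mul_add, Finset.sum_add_distrib]
    rw [h, h']
  | smul r q _ h =>
    have : evs A (fun z => (a z).val) (r • q) = r • evs A (fun z => (a z).val) q := by
      rw [evs, map_smul, Unitization.snd_smul]; rfl
    rw [this]
    simp only [mul_smul_comm]
    rw [← Finset.smul_sum, h]

/-- Case I. -/
theorem con_one [CharZero F] {A : AssocAlg F} [Module L A.carrier] (hA : FinOver F L A)
    (W : WMData L A.carrier) {Z : Type} [Fintype Z] [DecidableEq Z] {p : FA F Z}
    (hp : p ∈ ML F Z) (a : Z → W.Ent) (h0 : ev A (fun z => (a z).val) p ≠ 0)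
    (hmin : ∀ a' : Z → W.Ent, WMData.radc a' < WMData.radc a → ev A (fun z => (a' z).val) p = 0)
    (i : Fin W.m) (hn : ∀ z, W.blk (a z).ll = some i ∧ W.blk (a z).rl = some i) (μ : ℕ) :
    ∃ (Z' : Type) (_ : Fintype Z') (_ : DecidableEq Z') (q : FA F Z')
      (c : Z' → Option (Fin μ ⊕ Fin (WMData.radc a))),
      q ∈ ML F Z' ∧ Typed q μ (W.dP (WMData.blocks a)) (WMData.radc a) c ∧ Imp p q ∧
        ¬ Sat A q := by
  classical
  have h0' : evs A (fun z => (a z).val) p ≠ 0 := by
    intro h
    rw [ev_eq_inc _ hp, h, inc_zero] at h0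
    exact h0 rfl
  obtain ⟨l, hl⟩ : ∃ l, W.e i l l * evs A (fun z => (a z).val) p ≠ 0 := by
    by_contra hbad
    push Not at hbad
    apply h0'
    rw [← sum_diag hA W hp a i (fun z => (hn z).1)]
    exact Finset.sum_eq_zero (fun q _ => hbad q)
  let a2 : Option Z → W.Ent := fun o => o.elim (.mu i l l) a
  have hrad : WMData.radc a2 = WMData.radc a := by
    rw [WMData.radc, WMData.radc]
    have : (Finset.univ.filter fun z => (a2 z).isRad = true) =
        (Finset.univ.filter fun z => (a z).isRad = true).map Function.Embedding.some := by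
      ext o
      cases o with
      | none => simp [a2, WMData.Ent.isRad]
      | some z => simp [a2]
    rw [this, Finset.card_map]
  have hbl : ∀ i' ∈ WMData.blocks a, i' = i := by
    intro i' hi'
    simp only [WMData.blocks, Finset.mem_filter, Finset.mem_univ, true_and] at hi'
    obtain ⟨z, hz | hz⟩ := hi'
    · rw [(hn z).1] at hz; exact (Option.some.inj hz).symm
    · rw [(hn z).2] at hz; exact (Option.some.inj hz).symm
  have key := gal hA W (yp_ml hp) a2 (by
      rw [ev_yp]
      have h1 : (fun z => (a2 (some z)).val) = fun z => (a z).val := rfl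
      rw [h1, ev_eq_inc _ hp]
      have h2 : (a2 none).val = W.e i l l := rfl
      rw [h2, ← inc_mul]
      intro h
      exact hl (inc_eq_zero.1 h)) (WMData.blocks a) (fun _ => none) (fun _ => false) (by
      intro i' hi'
      rw [hbl i' hi']
      rfl) (by
      intro i' hi' h
      exact absurd h (by simp [a2, WMData.Ent.isRad])) (by
      intro K hK hKr _ v hv1 hv2
      have hnone : none ∉ K := fun h => absurd (hKr none h) (by simp [a2, WMData.Ent.isRad])
      have hent : ∀ z, ∃ x : W.Ent, x.val = v (some z) ∧ (some z ∈ K → x.isRad = false) ∧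
          (x.isRad = true → (a z).isRad = true) := by
        intro z
        by_cases hz : some z ∈ K
        · obtain ⟨i', q, r, hx⟩ := hv1 _ hz
          exact ⟨.mu i' q r, hx.symm, fun _ => rfl, fun h => absurd h (by simp [WMData.Ent.isRad])⟩
        · exact ⟨a z, (hv2 (some z) hz (by simp)).symm, fun h => absurd h hz, id⟩
      choose a' ha' using hent
      obtain ⟨o, ho⟩ := hK
      obtain ⟨z0, rfl⟩ : ∃ z0, o = some z0 := by
        cases o with
        | none => exact absurd ho hnone
        | some z => exact ⟨z, rfl⟩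
      rw [ev_yp]
      have e : (fun z => v (some z)) = fun z => (a' z).val := funext (fun z => (ha' z).1.symm)
      rw [e, hmin a' (radc_lt a a' z0 (hKr _ ho) ((ha' z0).2.1 ho) (fun z => (ha' z).2.2)),
        mul_zero]) μ
  rw [hrad] at key
  obtain ⟨Z', i1, i2, q, c, hq, ht, himp, hns⟩ := key
  refine ⟨Z', i1, i2, q, c, hq, ht, fun B hB => himp B (fun v => ?_), hns⟩
  rw [ev_yp, hB, mul_zero]

end Pool.Agent.KEM.Cn

namespace Pool.Agent.KEM

open Pool.Agent.Helper29 Pool.Agent.KEM.Cn

variable {F L : Type u} [Field F] [Field L] [Algebra F L]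

/-- **Row Con** (page 12). -/
theorem con [CharZero F] {A : AssocAlg F} [Module L A.carrier] (hA : FinOver F L A)
    (W : WMData L A.carrier) {Z : Type} [Fintype Z] [DecidableEq Z] {p : FA F Z}
    (hp : p ∈ ML F Z) (a : Z → W.Ent) (h0 : ev A (fun z => (a z).val) p ≠ 0)
    (hmin : ∀ a' : Z → W.Ent, WMData.radc a' < WMData.radc a → ev A (fun z => (a' z).val) p = 0)
    (μ : ℕ) :
    ∃ (Z' : Type) (_ : Fintype Z') (_ : DecidableEq Z') (q : FA F Z')
      (c : Z' → Option (Fin μ ⊕ Fin (WMData.radc a))),
      q ∈ ML F Z' ∧ Typed q μ (W.dP (WMData.blocks a)) (WMData.radc a) c ∧ Imp p q ∧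
        ¬ Sat A q := by
  by_cases hn : ∃ i, ∀ z, W.blk (a z).ll = some i ∧ W.blk (a z).rl = some i
  · obtain ⟨i, hi⟩ := hn
    exact con_one hA W hp a h0 hmin i hi μ
  · push Not at hn
    exact con_two hA W hp a h0 hmin (fun i h => by
      obtain ⟨z, hz⟩ := hn i
      exact hz (h z).1 (h z).2) μ

end Pool.Agent.KEM
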