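import Mathlib
import Pool.Agent.Helper29.SDefs

/-!
# Definitions for the affine Kemer theorem

Polynomials are elements of the free unital algebra `FA F Z`; they are evaluated at elements of a
(non-unital) algebra `A : AssocAlg F`, with values in its unital hull `U A`.
-/

universe u

namespace Pool.Agent.KEM

open Pool.Agent.Helper29

variable {F : Type u} [Field F]

/-- The free unital algebra on `Z`. -/
abbrev FA (F : Type u) [Field F] (Z : Type) : Type u := MonoidAlgebra F (FreeMonoid Z)

/-- The unital hull `F + A`. -/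
abbrev U (A : AssocAlg F) : Type u := Unitization F A.carrier

/-- The inclusion of `A` in its unital hull. -/
def inc (A : AssocAlg F) (a : A.carrier) : U A := Unitization.inr a

/-- The monomial of a word. -/
noncomputable def mon (F : Type u) [Field F] {Z : Type} (w : FreeMonoid Z) : FA F Z :=
  MonoidAlgebra.single w 1

/-- The value of a polynomial at `v : Z → A`. -/
noncomputable def ev (A : AssocAlg F) {Z : Type} (v : Z → A.carrier) : FA F Z →ₐ[F] U A :=
  MonoidAlgebra.lift F (U A) (FreeMonoid Z) (FreeMonoid.lift fun z => inc A (v z))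

/-- The value of a polynomial without constant term, in `A` itself. -/
noncomputable def evs (A : AssocAlg F) {Z : Type} (v : Z → A.carrier) (p : FA F Z) : A.carrier :=
  (ev A v p).snd

/-- Renaming variables. -/
noncomputable def ren {Z Z' : Type} (f : Z → Z') : FA F Z →ₐ[F] FA F Z' :=
  MonoidAlgebra.mapDomainAlgHom F F (FreeMonoid.map f)

/-- Substituting polynomials for the variables. -/
noncomputable def sbst {Z Z' : Type} (s : Z → FA F Z') : FA F Z →ₐ[F] FA F Z' :=
  MonoidAlgebra.lift F (FA F Z') (FreeMonoid Z) (FreeMonoid.lift s)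

/-- `A` satisfies the identity `p = 0` (`p` not necessarily multilinear). -/
def Sat (A : AssocAlg F) {Z : Type} (p : FA F Z) : Prop := ∀ v : Z → A.carrier, ev A v p = 0

/-- A nonempty word containing every variable exactly once. -/
def MLW {Z : Type} (w : FreeMonoid Z) : Prop :=
  FreeMonoid.toList w ≠ [] ∧ (FreeMonoid.toList w).Nodup ∧ ∀ z, z ∈ FreeMonoid.toList w

/-- The multilinear polynomials in the variables `Z` (each variable exactly once). -/
noncomputable def ML (F : Type u) [Field F] (Z : Type) : Submodule F (FA F Z) :=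
  Submodule.span F {p | ∃ w, MLW w ∧ p = mon F w}

/-- Every multilinear identity of `A` is one of `B`, that is `B ∈ var A`. -/
def IdLe (A B : AssocAlg F) : Prop :=
  ∀ (Z : Type) (p : FA F Z), p ∈ ML F Z → Sat A p → Sat B p

/-- `q` is a consequence of `p`. -/
def Imp {Z Z' : Type} (p : FA F Z) (q : FA F Z') : Prop := ∀ A : AssocAlg F, Sat A p → Sat A q

/-- The permutations that preserve a partial colouring and fix the uncoloured elements. -/
def colG {Z K : Type} (c : Z → Option K) : Subgroup (Equiv.Perm Z) where
  carrier := {π | (∀ z, c (π z) = c z) ∧ ∀ z, c z = none → π z = z}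
  mul_mem' := by
    rintro a b ⟨ha, ha'⟩ ⟨hb, hb'⟩
    refine ⟨fun z => ?_, fun z hz => ?_⟩
    · rw [Equiv.Perm.mul_apply, ha, hb]
    · rw [Equiv.Perm.mul_apply, hb' z hz, ha' z hz]
  one_mem' := ⟨fun _ => rfl, fun _ _ => rfl⟩
  inv_mem' := by
    rintro a ⟨ha, ha'⟩
    refine ⟨fun z => ?_, fun z hz => ?_⟩
    · have := ha (a⁻¹ z)
      rw [Equiv.Perm.inv_def, Equiv.apply_symm_apply] at this
      exact this.symm
    · rw [Equiv.Perm.inv_eq_iff_eq]
      exact (ha' z hz).symm

/-- The class sizes of a colouring with `n` small sets of size `b` and `g` big sets of size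
`b + 1`; the remaining variables are uncoloured. -/
structure Sizes {Z : Type} (n b g : ℕ) (c : Z → Option (Fin n ⊕ Fin g)) : Prop where
  small : ∀ i, Nat.card {z // c z = some (Sum.inl i)} = b
  big : ∀ j, Nat.card {z // c z = some (Sum.inr j)} = b + 1

/-- `p` is alternating in each of the colour classes of `c`, which are `n` sets of size `b` and `g`
sets of size `b + 1`. -/
structure Typed {Z : Type} [Fintype Z] [DecidableEq Z] (p : FA F Z) (n b g : ℕ)
    (c : Z → Option (Fin n ⊕ Fin g)) : Prop where
  sizes : Sizes n b g c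
  alt : ∀ π ∈ colG c, ren π p = (Equiv.Perm.sign π : ℤ) • p

/-- `A` satisfies all multilinear polynomials of type `(n; b, g)`. -/
def Van (A : AssocAlg F) (n b g : ℕ) : Prop :=
  ∀ (Z : Type) [Fintype Z] [DecidableEq Z] (p : FA F Z) (c : Z → Option (Fin n ⊕ Fin g)),
    p ∈ ML F Z → Typed p n b g c → Sat A p

/-- `(b, g)` is the Kemer index of `A`. -/
structure HasIndex (A : AssocAlg F) (b g : ℕ) : Prop where
  not_van : ∀ n, ¬ Van A n b g
  van_g : ∃ n, Van A n b (g + 1)
  van_b : ∃ n, Van A n (b + 1) 0

/-- `A` is generated by the elements `x`. -/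
def Gen (A : AssocAlg F) {X : Type} (x : X → A.carrier) : Prop :=
  NonUnitalAlgebra.adjoin F (Set.range x) = ⊤

/-- `A` is finitely generated. -/
def FG (A : AssocAlg F) : Prop := ∃ (X : Type) (_ : Fintype X) (x : X → A.carrier), Gen A x

/-- `A` satisfies a multilinear identity `x_1 ⋯ x_d + ⋯ = 0` of degree `d`. -/
def PIdeg (A : AssocAlg F) (d : ℕ) : Prop :=
  ∃ p : FA F (Fin d), p ∈ ML F (Fin d) ∧
    p.coeff (FreeMonoid.ofList (List.finRange d)) = 1 ∧ Sat A p

/-- `A` is a PI algebra. -/
def PI (A : AssocAlg F) : Prop := ∃ d, PIdeg A d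

/-- The algebra `A` over `F` is also an algebra over the commutative `F`-algebra `C`, finite as a
module. -/
structure FinOver (F C : Type u) [Field F] [CommRing C] [Algebra F C] (A : AssocAlg F)
    [Module C A.carrier] : Prop where
  tower : IsScalarTower F C A.carrier
  smul_mul : IsScalarTower C A.carrier A.carrier
  comm : SMulCommClass C A.carrier A.carrier
  fin : Module.Finite C A.carrier

/-- `A` is a finite algebra over a finitely generated commutative `F`-algebra. -/
def CFin (A : AssocAlg F) : Prop :=
  ∃ (C : Type u) (_ : CommRing C) (_ : Algebra F C) (_ : Algebra.FiniteType F C)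
    (_ : Module C A.carrier), FinOver F C A

/-- `A` is a finite-dimensional algebra over an algebraically closed field containing `F`. -/
def IsFD (A : AssocAlg F) : Prop :=
  ∃ (L : Type u) (_ : Field L) (_ : IsAlgClosed L) (_ : Algebra F L)
    (_ : Module L A.carrier), FinOver F L A

/-- The span (in the unital hull) of the values of polynomials of type `(n; b, g)`, multiplied on both
sides by arbitrary elements of the unital hull. -/
noncomputable def VanSpan (A : AssocAlg F) (n b g : ℕ) : Submodule F (U A) :=
  Submodule.span F {r | ∃ (Z : Type) (_ : Fintype Z) (_ : DecidableEq Z) (t : FA F Z)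
    (c : Z → Option (Fin n ⊕ Fin g)) (v : Z → A.carrier) (s s' : U A),
    t ∈ ML F Z ∧ Typed t n b g c ∧ r = s * ev A v t * s'}

/-! ### Words -/

/-- The value of a nonempty word (list) in a non-unital ring; junk `0` at the empty word. -/
def wval {S X : Type*} [Zero S] [Mul S] (x : X → S) : List X → S
  | [] => 0
  | [a] => x a
  | a :: b :: l => x a * wval x (b :: l)

/-- `w` is `d`-divided: `w = u_1 ⋯ u_d` with nonempty `u_i`, and every nontrivial rearrangement of the
factors is lexicographically smaller. -/
def DDiv {α : Type*} [LinearOrder α] (d : ℕ) (w : List α) : Prop :=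
  ∃ us : Fin d → List α, (∀ i, us i ≠ []) ∧ w = (List.ofFn us).flatten ∧
    ∀ σ : Equiv.Perm (Fin d), σ ≠ 1 → (List.ofFn fun i => us (σ i)).flatten < w

/-! ### Functions: generalized multilinear functions with coefficients in the unital hull -/

/-- The word `w` contains each variable of `Y` exactly once. -/
def Yml {X Y : Type} (w : FreeMonoid (X ⊕ Y)) : Prop :=
  (∀ y, Sum.inr y ∈ FreeMonoid.toList w) ∧
    ((FreeMonoid.toList w).filterMap (fun s => Sum.elim (fun _ => none) some s)).Nodup

/-- The function `(Y → A) → U A` defined by a word in constants `x` and variables `Y`. -/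
noncomputable def mf (A : AssocAlg F) {X Y : Type} (x : X → A.carrier) (w : FreeMonoid (X ⊕ Y)) :
    (Y → A.carrier) → U A :=
  fun v => ev A (Sum.elim x v) (mon F w)

/-- The span of the functions of words that contain each variable of `Y` exactly once. -/
noncomputable def GM (A : AssocAlg F) {X : Type} (x : X → A.carrier) (Y : Type) :
    Submodule F ((Y → A.carrier) → U A) :=
  Submodule.span F {m | ∃ w : FreeMonoid (X ⊕ Y), Yml w ∧ m = mf A x w}

/-- The function `m` is alternating in the colour classes of `c`. -/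
def AltF {A : AssocAlg F} {Y K : Type} [Fintype Y] [DecidableEq Y] (c : Y → Option K)
    (m : (Y → A.carrier) → U A) : Prop :=
  ∀ π ∈ colG c, ∀ v : Y → A.carrier, m (fun y => v (π y)) = (Equiv.Perm.sign π : ℤ) • m v

/-- The variables of type `(n; b, g)`. -/
abbrev YT (n b g : ℕ) : Type := (Fin n × Fin b) ⊕ (Fin g × Fin (b + 1))

/-- The colouring of `YT n b g`. -/
def yc {n b g : ℕ} : YT n b g → Option (Fin n ⊕ Fin g)
  | Sum.inl q => some (Sum.inl q.1)
  | Sum.inr q => some (Sum.inr q.1)

/-- The alternating functions of type `(n; b, g)`. -/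
noncomputable def MM (A : AssocAlg F) {X : Type} (x : X → A.carrier) (n b g : ℕ) :
    Submodule F ((YT n b g → A.carrier) → U A) where
  carrier := {m | m ∈ GM A x (YT n b g) ∧ AltF yc m}
  add_mem' := by
    rintro m m' ⟨h, h'⟩ ⟨k, k'⟩
    refine ⟨Submodule.add_mem _ h k, fun π hπ v => ?_⟩
    rw [Pi.add_apply, Pi.add_apply, h' π hπ v, k' π hπ v, smul_add]
  zero_mem' := ⟨Submodule.zero_mem _, fun π _ v => by simp⟩
  smul_mem' := by
    rintro r m ⟨h, h'⟩
    refine ⟨Submodule.smul_mem _ r h, fun π hπ v => ?_⟩
    rw [Pi.smul_apply, Pi.smul_apply, h' π hπ v, smul_comm]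

/-- Multiply by `a` the variables `(i, t)`, `t ∈ T`. -/
def hit {A : AssocAlg F} {n b g : ℕ} (i : Fin n) (a : A.carrier) (T : Finset (Fin b))
    (v : YT n b g → A.carrier) : YT n b g → A.carrier
  | Sum.inl q => if q.1 = i ∧ q.2 ∈ T then a * v (Sum.inl q) else v (Sum.inl q)
  | Sum.inr q => v (Sum.inr q)

/-- Extend a tuple by one more element. -/
def extd {A : AssocAlg F} {Y : Type} (v : Y → A.carrier) (z : A.carrier) : Option Y → A.carrier
  | none => z
  | some y => v y

/-- `a ^ (j + 1)`. -/
def apow {A : AssocAlg F} (a : A.carrier) (j : ℕ) : A.carrier := (fun s => a * s)^[j] a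

/-- The operator `δ_k(a)` for the small set `i`. -/
def delta {A : AssocAlg F} {n b g : ℕ} (i : Fin n) (k : ℕ) (a : A.carrier)
    (m : (YT n b g → A.carrier) → U A) : (YT n b g → A.carrier) → U A :=
  fun v => ∑ T ∈ Finset.powersetCard k (Finset.univ : Finset (Fin b)), m (hit i a T v)

/-! ### Finite-dimensional algebras: matrix units, homogeneous elements -/

/-- Wedderburn-Malcev data of a finite-dimensional algebra. -/
structure WMData (L A : Type u) [Field L] [NonUnitalRing A] [Module L A] where
  m : ℕ
  n : Fin m → ℕ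
  npos : ∀ i, 0 < n i
  e : (i : Fin m) → Fin (n i) → Fin (n i) → A
  J : Submodule L A
  s : ℕ
  J_left : ∀ a x, x ∈ J → a * x ∈ J
  J_right : ∀ a x, x ∈ J → x * a ∈ J
  J_nil : ∀ v : Fin (s + 1) → A, (∀ i, v i ∈ J) → nprod v = 0
  e_mul : ∀ i p q r, e i p q * e i q r = e i p r
  e_mul_ne : ∀ i p q q' r, q ≠ q' → e i p q * e i q' r = 0
  e_mul_block : ∀ i j p q p' q', i ≠ j → e i p q * e j p' q' = 0
  span_top : Submodule.span L {a | ∃ i p q, a = e i p q} ⊔ J = ⊤
  li : LinearIndependent L
    (fun x : (Σ i : Fin m, Fin (n i) × Fin (n i)) => e x.1 x.2.1 x.2.2)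
  disj : Disjoint (Submodule.span L {a | ∃ i p q, a = e i p q}) J

namespace WMData

variable {L A : Type u} [Field L] [NonUnitalRing A] [Module L A] (W : WMData L A)

/-- Labels: a diagonal matrix unit, or `none` (the complementary idempotent). -/
abbrev Lab : Type := Option (Σ i : Fin W.m, Fin (W.n i))

/-- The block of a label. -/
def blk (l : W.Lab) : Option (Fin W.m) := l.map Sigma.fst

/-- Left multiplication by the idempotent of a label. -/
def lmul (l : W.Lab) (x : A) : A :=
  match l with
  | some ⟨i, p⟩ => W.e i p p * x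
  | none => x - ∑ y : (Σ i : Fin W.m, Fin (W.n i)), W.e y.1 y.2 y.2 * x

/-- Right multiplication by the idempotent of a label. -/
def rmul (l : W.Lab) (x : A) : A :=
  match l with
  | some ⟨i, p⟩ => x * W.e i p p
  | none => x - ∑ y : (Σ i : Fin W.m, Fin (W.n i)), x * W.e y.1 y.2 y.2

/-- Homogeneous entries: matrix units and radical elements with two labels. -/
inductive Ent : Type u
  | mu (i : Fin W.m) (p q : Fin (W.n i)) : Ent
  | rad (l r : W.Lab) (x : A) (hx : x ∈ W.J) (hl : W.lmul l x = x) (hr : W.rmul r x = x) : Ent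

variable {W}

/-- The element of an entry. -/
def Ent.val : W.Ent → A
  | .mu i p q => W.e i p q
  | .rad _ _ x _ _ _ => x

/-- The left label. -/
def Ent.ll : W.Ent → W.Lab
  | .mu i p _ => some ⟨i, p⟩
  | .rad l _ _ _ _ _ => l

/-- The right label. -/
def Ent.rl : W.Ent → W.Lab
  | .mu i _ q => some ⟨i, q⟩
  | .rad _ r _ _ _ _ => r

/-- Is the entry radical? -/
def Ent.isRad : W.Ent → Bool
  | .mu _ _ _ => false
  | .rad _ _ _ _ _ _ => true

/-- Both labels of the entry are `none` or in a block of `P`. -/
def Ent.InP (P : Finset (Fin W.m)) (a : W.Ent) : Prop :=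
  (∀ i, W.blk a.ll = some i → i ∈ P) ∧ ∀ i, W.blk a.rl = some i → i ∈ P

/-- The number of radical entries of a tuple. -/
def radc {Z : Type} [Fintype Z] (a : Z → W.Ent) : ℕ :=
  (Finset.univ.filter fun z => (a z).isRad = true).card

open Classical in
/-- The blocks occurring as blocks of labels of entries of a tuple. -/
noncomputable def blocks {Z : Type} (a : Z → W.Ent) : Finset (Fin W.m) :=
  Finset.univ.filter fun i => ∃ z, W.blk (a z).ll = some i ∨ W.blk (a z).rl = some i

variable (W)

/-- `d_P = ∑_{i ∈ P} n_i ^ 2`. -/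
def dP (P : Finset (Fin W.m)) : ℕ := ∑ i ∈ P, W.n i ^ 2

end WMData

/-- A finite-dimensional algebra over `L` with a surjection onto a unital algebra `S` with
nilpotent kernel. -/
structure Piece (F L : Type u) [Field F] [Field L] [Algebra F L] where
  D : AssocAlg F
  mod : Module L D.carrier
  fo : FinOver F L D
  S : Type u
  ring : Ring S
  alg : Algebra L S
  finS : Module.Finite L S
  π : D.carrier → S
  π_add : ∀ x y, π (x + y) = π x + π y
  π_smul : ∀ (c : L) (x), π (c • x) = c • π x
  π_mul : ∀ x y, π (x * y) = π x * π y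
  surj : Function.Surjective π
  s : ℕ
  nil : ∀ v : Fin (s + 1) → D.carrier, (∀ i, π (v i) = 0) → nprod v = 0

attribute [instance] Piece.mod Piece.ring Piece.alg

/-- The dimension of the semisimple part of a piece. -/
noncomputable def Piece.dim {F L : Type u} [Field F] [Field L] [Algebra F L] (P : Piece F L) : ℕ :=
  Module.finrank L P.S

open Classical in
/-- `(-1)^k` times the coefficient of degree `dim S - k` of the characteristic polynomial of the left
multiplication by `s` on `S` (`0` for `k > dim S`). -/
noncomputable def chc {L S : Type u} [Field L] [Ring S] [Algebra L S] (k : ℕ) (s : S) : L :=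
  if _ : Module.Finite L S then
    if k ≤ Module.finrank L S then
      (-1) ^ k * (LinearMap.charpoly (M := S) (R := L) (LinearMap.mulLeft L s)).coeff
        (Module.finrank L S - k)
    else 0
  else 0

/-- The values of a typed polynomial of type `(n; b, g)`, `n ≥ s0`, on the piece depend on the entries
in the small sets only through `π`. -/
def Piece.Dep {F L : Type u} [Field F] [Field L] [Algebra F L] (P : Piece F L) (s0 b g : ℕ) : Prop :=
  ∀ (n : ℕ) (Z : Type) [Fintype Z] [DecidableEq Z] (p : FA F Z) (c : Z → Option (Fin n ⊕ Fin g)),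
    s0 ≤ n → p ∈ ML F Z → Typed p n b g c → ∀ v v' : Z → P.D.carrier,
    (∀ z, v z = v' z ∨ ((∃ i, c z = some (Sum.inl i)) ∧ P.π (v z) = P.π (v' z))) →
    ev P.D v p = ev P.D v' p

end Pool.Agent.KEM
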