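import Pool.Agent.KEM.Mlin

/-!
Row Det (MP_1a662b_al): alternating functions on the semisimple part of a piece and the
coefficients of the characteristic polynomial.
-/

universe u

open Polynomial

namespace Pool.Agent.KEM

open Pool.Agent.Helper29

section linalg

variable {L S : Type*} [Field L] [AddCommGroup S] [Module L S]

theorem det_one_add [Module.Finite L S] (A : S →ₗ[L] S) {t : L} (ht : t ≠ 0) :
    LinearMap.det (1 + t • A) = ∑ k ∈ Finset.range (Module.finrank L S + 1),
      t ^ k * ((-1) ^ k * (LinearMap.charpoly A).coeff (Module.finrank L S - k)) := by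
  set m := Module.finrank L S with hm
  have h1 : (1 : S →ₗ[L] S) + t • A = (-t) • (algebraMap L (S →ₗ[L] S) (-t⁻¹) - A) := by
    ext s
    show s + t • A s = (-t) • (-t⁻¹ • s - A s)
    rw [smul_sub, smul_smul, neg_mul_neg, mul_inv_cancel₀ ht, one_smul, neg_smul, sub_neg_eq_add]
  rw [h1, LinearMap.det_smul, ← LinearMap.eval_charpoly, ← hm,
    Polynomial.eval_eq_sum_range, LinearMap.charpoly_natDegree, ← hm,
    ← Finset.sum_range_reflect, Finset.mul_sum]
  refine Finset.sum_congr rfl fun k hk => ?_
  have hk' : k ≤ m := Nat.lt_succ_iff.1 (Finset.mem_range.1 hk)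
  have e1 : m + 1 - 1 - k = m - k := by omega
  rw [e1]
  have e2 : (-t) ^ m = (-t) ^ k * (-t) ^ (m - k) := by
    rw [← pow_add]
    congr 1
    omega
  have e3 : (-t) ^ (m - k) * (-t⁻¹) ^ (m - k) = 1 := by
    rw [← mul_pow]
    have : -t * -t⁻¹ = 1 := by
      rw [neg_mul_neg, mul_inv_cancel₀ ht]
    rw [this, one_pow]
  calc (-t) ^ m * ((LinearMap.charpoly A).coeff (m - k) * (-t⁻¹) ^ (m - k))
      = (-t) ^ k * ((-t) ^ (m - k) * (-t⁻¹) ^ (m - k)) *
          (LinearMap.charpoly A).coeff (m - k) := by rw [e2]; ring
    _ = t ^ k * ((-1) ^ k * (LinearMap.charpoly A).coeff (m - k)) := by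
        rw [e3, neg_eq_neg_one_mul t, mul_pow]; ring

theorem alt_hit {ι : Type*} [Fintype ι] [DecidableEq ι] [Module.Finite L S] [Infinite L]
    (hι : Fintype.card ι = Module.finrank L S) (ψ : S [⋀^ι]→ₗ[L] L) (A : S →ₗ[L] S)
    (w : ι → S) (k : ℕ) :
    ∑ T ∈ Finset.powersetCard k (Finset.univ : Finset ι), ψ (T.piecewise (fun y => A (w y)) w) =
      (if k ≤ Module.finrank L S then
        (-1) ^ k * (LinearMap.charpoly A).coeff (Module.finrank L S - k) else 0) * ψ w := by
  set m := Module.finrank L S with hm
  obtain ⟨e⟩ : Nonempty (Module.Basis ι L S) := by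
    have e0 := Module.finBasis L S
    exact ⟨e0.reindex (Fintype.equivOfCardEq (by rw [Fintype.card_fin, hι, hm]))⟩
  have key : ∀ t : L, t ≠ 0 → (∑ T : Finset ι, ψ (T.piecewise (fun y => A (w y)) w) * t ^ T.card)
      = ∑ k ∈ Finset.range (m + 1),
        ((-1) ^ k * (LinearMap.charpoly A).coeff (m - k)) * ψ w * t ^ k := by
    intro t ht
    have h1 : ψ (fun y => w y + t • A (w y)) =
        ∑ T : Finset ι, ψ (T.piecewise (fun y => A (w y)) w) * t ^ T.card := by
      have h2 := ψ.toMultilinearMap.map_add_univ (fun y => t • A (w y)) w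
      have h3 : (fun y => t • A (w y)) + w = fun y => w y + t • A (w y) := by
        funext y
        exact add_comm _ _
      rw [h3] at h2
      refine h2.trans (Finset.sum_congr rfl fun T _ => ?_)
      have h4 := ψ.toMultilinearMap.map_piecewise_smul (fun _ => t)
        (T.piecewise (fun y => A (w y)) w) T
      have h5 : T.piecewise (fun i => t • T.piecewise (fun y => A (w y)) w i)
          (T.piecewise (fun y => A (w y)) w) = T.piecewise (fun y => t • A (w y)) w := by
        funext y
        by_cases hy : y ∈ T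
        · simp [Finset.piecewise_eq_of_mem, hy]
        · simp [Finset.piecewise_eq_of_notMem, hy]
      rw [h5] at h4
      refine h4.trans ?_
      rw [Finset.prod_const, smul_eq_mul, mul_comm]
      rfl
    have h6 : ψ (fun y => w y + t • A (w y)) = LinearMap.det (1 + t • A) * ψ w := by
      have h7 : (fun y => w y + t • A (w y)) = (1 + t • A : S →ₗ[L] S) ∘ w := by
        funext y
        simp
      rw [h7, AlternatingMap.eq_smul_basis_det e ψ]
      simp only [AlternatingMap.smul_apply, smul_eq_mul]
      rw [Module.Basis.det_comp]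
      ring
    rw [← h1, h6, det_one_add A ht, Finset.sum_mul]
    refine Finset.sum_congr rfl fun k _ => ?_
    ring
  set P : L[X] := ∑ T : Finset ι, C (ψ (T.piecewise (fun y => A (w y)) w)) * X ^ T.card with hP
  set Q : L[X] := ∑ k ∈ Finset.range (m + 1),
    C (((-1) ^ k * (LinearMap.charpoly A).coeff (m - k)) * ψ w) * X ^ k with hQ
  have hPQ : P = Q := by
    apply Polynomial.eq_of_infinite_eval_eq
    refine Set.Infinite.mono (s := {t : L | t ≠ 0}) ?_ ?_
    · intro t ht
      show P.eval t = Q.eval t
      rw [hP, hQ, Polynomial.eval_finsetSum, Polynomial.eval_finsetSum]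
      simp only [Polynomial.eval_mul, Polynomial.eval_C, Polynomial.eval_pow, Polynomial.eval_X]
      exact key t ht
    · have : {t : L | t ≠ 0} = ({0} : Set L)ᶜ := by
        ext t
        simp
      rw [this]
      exact (Set.finite_singleton (0 : L)).infinite_compl
  have hc := congrArg (fun p : L[X] => p.coeff k) hPQ
  simp only [hP, hQ, Polynomial.finsetSum_coeff, Polynomial.coeff_C_mul, Polynomial.coeff_X_pow]
    at hc
  rw [Finset.powersetCard_eq_filter, Finset.powerset_univ, Finset.sum_filter]
  have h8 : (∑ T : Finset ι, if T.card = k then ψ (T.piecewise (fun y => A (w y)) w) else 0) =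
      ∑ T : Finset ι, ψ (T.piecewise (fun y => A (w y)) w) * (if k = T.card then 1 else 0) := by
    refine Finset.sum_congr rfl fun T _ => ?_
    by_cases h : T.card = k
    · simp [h]
    · have h' : ¬ k = T.card := fun e => h e.symm
      simp [h, h']
  rw [h8, hc]
  by_cases hk : k ≤ m
  · rw [if_pos hk, Finset.sum_eq_single k]
    · simp
    · intro j _ hj
      simp [Ne.symm hj]
    · intro h
      exact absurd (Finset.mem_range.2 (by omega)) h
  · rw [if_neg hk, zero_mul]
    refine Finset.sum_eq_zero fun j hj => ?_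
    have : k ≠ j := by
      rintro rfl
      exact hk (Nat.lt_succ_iff.1 (Finset.mem_range.1 hj))
    simp [this]

end linalg

theorem chc_eq {L : Type u} [Field L] {S : Type u} [Ring S] [Algebra L S] [Module.Finite L S]
    (k : ℕ) (s : S) : chc (L := L) k s = if k ≤ Module.finrank L S then
      (-1) ^ k * (LinearMap.charpoly (M := S) (R := L) (LinearMap.mulLeft L s)).coeff
        (Module.finrank L S - k) else 0 := by
  unfold chc
  rw [dif_pos (inferInstance : Module.Finite L S)]

/-- Cayley-Hamilton for `chc` -/
theorem row_chc {L : Type u} [Field L] {S : Type u} [Ring S] [Algebra L S] [Module.Finite L S]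
    {b : ℕ} (hb : Module.finrank L S ≤ b) (s : S) :
    ∑ k ∈ Finset.range (b + 1), ((-1 : L) ^ k * chc (L := L) k s) • s ^ (b - k) = 0 := by
  set m := Module.finrank L S with hm
  have h1 : ∑ k ∈ Finset.range (b + 1), ((-1 : L) ^ k * chc (L := L) k s) • s ^ (b - k) =
      ∑ k ∈ Finset.range (m + 1), ((-1 : L) ^ k * chc (L := L) k s) • s ^ (b - k) := by
    symm
    refine Finset.sum_subset ?_ ?_
    · intro k hk
      rw [Finset.mem_range] at hk ⊢
      omega
    · intro k _ hk
      have : ¬ k ≤ m := by
        intro h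
        exact hk (Finset.mem_range.2 (by omega))
      rw [chc_eq, if_neg this, mul_zero, zero_smul]
  rw [h1]
  have h2 : ∀ k ∈ Finset.range (m + 1), ((-1 : L) ^ k * chc (L := L) k s) • s ^ (b - k) =
      s ^ (b - m) * ((LinearMap.charpoly (M := S) (R := L) (Algebra.lmul L S s)).coeff (m - k) •
        s ^ (m - k)) := by
    intro k hk
    have hk' : k ≤ m := Nat.lt_succ_iff.1 (Finset.mem_range.1 hk)
    rw [chc_eq, if_pos hk', ← mul_assoc, ← mul_pow, mul_neg_one, neg_neg, one_pow,
      one_mul, mul_smul_comm, ← pow_add]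
    have e : b - m + (m - k) = b - k := by omega
    rw [e]
    rfl
  rw [Finset.sum_congr rfl h2, ← Finset.mul_sum]
  have h3 := Algebra.aeval_self_charpoly_lmul (R := L) s
  rw [Polynomial.aeval_eq_sum_range, LinearMap.charpoly_natDegree, ← hm,
    ← Finset.sum_range_reflect] at h3
  have h4 : ∑ k ∈ Finset.range (m + 1),
      (LinearMap.charpoly (M := S) (R := L) (Algebra.lmul L S s)).coeff (m - k) • s ^ (m - k) =
      0 := by
    rw [← h3]
    refine Finset.sum_congr rfl fun k _ => ?_
    have : m + 1 - 1 - k = m - k := by omega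
    rw [this]
  rw [h4, mul_zero]

variable {F L : Type u} [Field F] [Field L] [Algebra F L]

/-- A multilinear alternating function that factors through `π` is an alternating map on `S`. -/
theorem exists_alt {L S D Y : Type*} [Field L] [AddCommGroup S] [Module L S] [AddCommGroup D]
    [Module L D] [iY : DecidableEq Y] (π : D → S) (π_add : ∀ x y, π (x + y) = π x + π y)
    (π_smul : ∀ (c : L) (x), π (c • x) = c • π x) (surj : Function.Surjective π)
    (Φ : (Y → D) → D) (hdep : ∀ w w' : Y → D, (∀ y, π (w y) = π (w' y)) → Φ w = Φ w')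
    (hadd : ∀ (w : Y → D) (y : Y) (x x' : D), Φ (Function.update w y (x + x')) =
      Φ (Function.update w y x) + Φ (Function.update w y x'))
    (hsmul : ∀ (w : Y → D) (y : Y) (c : L) (x : D), Φ (Function.update w y (c • x)) =
      c • Φ (Function.update w y x))
    (halt : ∀ (w : Y → D) (y y' : Y), w y = w y' → y ≠ y' → Φ w = 0) (f : D →ₗ[L] L) :
    ∃ ψ : S [⋀^Y]→ₗ[L] L, ∀ w : Y → D, f (Φ w) = ψ fun y => π (w y) := by
  obtain ⟨σ, hσ⟩ : ∃ σ : S → D, ∀ s, π (σ s) = s :=
    ⟨Function.surjInv surj, Function.surjInv_eq surj⟩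
  have e : ∀ (w : Y → S) (y : Y) (x : S) (d : D), π d = x →
      Φ (fun y' => σ (Function.update w y x y')) =
        Φ (Function.update (fun y' => σ (w y')) y d) := by
    intro w y x d hd
    refine hdep _ _ fun y' => ?_
    by_cases h : y' = y
    · subst h
      rw [Function.update_self, Function.update_self, hσ, hd]
    · rw [Function.update_of_ne h, Function.update_of_ne h]
  refine ⟨{ toFun := fun w => f (Φ fun y => σ (w y))
            map_update_add' := ?_
            map_update_smul' := ?_
            map_eq_zero_of_eq' := ?_ }, fun w => ?_⟩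
  · intro inst w y s t
    have hinst : inst = iY := Subsingleton.elim _ _
    subst hinst
    rw [e w y s (σ s) (hσ s), e w y t (σ t) (hσ t), ← map_add, ← hadd,
      e w y (s + t) (σ s + σ t) (by rw [π_add, hσ, hσ])]
  · intro inst w y c t
    have hinst : inst = iY := Subsingleton.elim _ _
    subst hinst
    rw [e w y t (σ t) (hσ t), ← map_smul, ← hsmul,
      e w y (c • t) (c • σ t) (by rw [π_smul, hσ])]
  · intro w y y' hw hne
    have h1 : Φ (fun y => σ (w y)) = 0 := halt _ y y' (congrArg σ hw) hne
    show f (Φ fun y => σ (w y)) = 0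
    rw [h1, map_zero]
  · show f (Φ w) = f (Φ fun y => σ (π (w y)))
    rw [hdep w (fun y => σ (π (w y))) fun y => (hσ _).symm]

section rep

variable {Z D K : Type*} [DecidableEq K]

/-- Replace the entries of colour `k`. -/
def rep (c : Z → Option K) (k : K) (v : Z → D) (w : {z // c z = some k} → D) : Z → D := fun z =>
  if h : c z = some k then w ⟨z, h⟩ else v z

theorem rep_pos {c : Z → Option K} {k : K} (v : Z → D) (w : {z // c z = some k} → D) {z : Z}
    (h : c z = some k) : rep c k v w z = w ⟨z, h⟩ := dif_pos h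

theorem rep_neg {c : Z → Option K} {k : K} (v : Z → D) (w : {z // c z = some k} → D) {z : Z}
    (h : ¬ c z = some k) : rep c k v w z = v z := dif_neg h

theorem rep_update [DecidableEq Z] (c : Z → Option K) (k : K) (v : Z → D) (w : {z // c z = some k} → D)
    (y : {z // c z = some k}) (x : D) :
    rep c k v (Function.update w y x) = Function.update (rep c k v w) y.1 x := by
  funext z
  by_cases hz : z = y.1
  · subst hz
    rw [rep_pos _ _ y.2, Function.update_self, Function.update_self]
  · rw [Function.update_of_ne hz]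
    by_cases hc : c z = some k
    · rw [rep_pos _ _ hc, rep_pos _ _ hc, Function.update_of_ne]
      intro e
      exact hz (congrArg Subtype.val e)
    · rw [rep_neg _ _ hc, rep_neg _ _ hc]

theorem rep_self (c : Z → Option K) (k : K) (v : Z → D) :
    rep c k v (fun y => v y.1) = v := by
  funext z
  by_cases hc : c z = some k
  · rw [rep_pos _ _ hc]
  · rw [rep_neg _ _ hc]

end rep

theorem row_det (Q : Piece F L) {s0 b g : ℕ} (hb : Q.dim = b) (hd : Q.Dep s0 b g) {n : ℕ}
    (hn : s0 ≤ n) {Z : Type} [Fintype Z] [DecidableEq Z] {p : FA F Z} (hp : p ∈ ML F Z)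
    {c : Z → Option (Fin n ⊕ Fin g)} (ht : Typed p n b g c) (i : Fin n)
    (v : Z → Q.D.carrier) (a : Q.D.carrier) (k : ℕ) [CharZero F] :
    ∑ T ∈ Finset.powersetCard k (Finset.univ.filter fun z => c z = some (Sum.inl i)),
      evs Q.D (fun z => if z ∈ T then a * v z else v z) p =
        chc (L := L) k (Q.π a) • evs Q.D v p := by
  have := Q.fo.tower
  have := Q.fo.smul_mul
  have := Q.fo.comm
  have := Q.finS
  have : CharZero L := charZero_of_injective_algebraMap (algebraMap F L).injective
  have hY : Fintype.card {z // c z = some (Sum.inl i)} = Module.finrank L Q.S := by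
    have := ht.sizes.small i
    rw [Nat.card_eq_fintype_card] at this
    exact this.trans hb.symm
  -- it suffices to test with functionals
  rw [← sub_eq_zero]
  refine (Module.forall_dual_apply_eq_zero_iff L _).1 fun f => ?_
  rw [map_sub, sub_eq_zero, map_sum, map_smul, smul_eq_mul]
  obtain ⟨ψ, hψ⟩ := exists_alt Q.π Q.π_add Q.π_smul Q.surj
    (fun w => evs Q.D (rep c (Sum.inl i) v w) p)
    (by
      intro w w' h
      show evs Q.D (rep c (Sum.inl i) v w) p = evs Q.D (rep c (Sum.inl i) v w') p
      unfold evs
      rw [hd n Z p c hn hp ht (rep c (Sum.inl i) v w) (rep c (Sum.inl i) v w') ?_]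
      intro z
      by_cases hz : c z = some (Sum.inl i)
      · right
        refine ⟨⟨i, hz⟩, ?_⟩
        rw [rep_pos _ _ hz, rep_pos _ _ hz, h]
      · left
        rw [rep_neg _ _ hz, rep_neg _ _ hz])
    (by
      intro w y x x'
      show evs Q.D (rep c (Sum.inl i) v (Function.update w y (x + x'))) p =
        evs Q.D (rep c (Sum.inl i) v (Function.update w y x)) p +
        evs Q.D (rep c (Sum.inl i) v (Function.update w y x')) p
      rw [rep_update, rep_update, rep_update]
      exact Mlin.evs_update_add Q.D hp _ _ _ _)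
    (by
      intro w y r x
      show evs Q.D (rep c (Sum.inl i) v (Function.update w y (r • x))) p =
        r • evs Q.D (rep c (Sum.inl i) v (Function.update w y x)) p
      rw [rep_update, rep_update]
      exact Mlin.evs_update_smul Q.D hp _ _ _ _)
    (by
      intro w y y' hw hne
      refine Mlin.evs_eq_zero_of_eq Q.D ht _ y.2 y'.2 (fun e => hne (Subtype.ext e)) ?_
      rw [rep_pos _ _ y.2, rep_pos _ _ y'.2]
      exact hw) f
  have hψ' : ∀ w : {z // c z = some (Sum.inl i)} → Q.D.carrier,
      f (evs Q.D (rep c (Sum.inl i) v w) p) = ψ fun y => Q.π (w y) := hψ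
  have hmain := alt_hit hY ψ (LinearMap.mulLeft L (Q.π a)) (fun y => Q.π (v y.1)) k
  have hr : ψ (fun y => Q.π (v y.1)) = f (evs Q.D v p) := by
    rw [← hψ', rep_self]
  rw [chc_eq, ← hr, ← hmain]
  have hmapf : (Finset.univ.filter fun z => c z = some (Sum.inl i)) =
      (Finset.univ : Finset {z // c z = some (Sum.inl i)}).map
        (Function.Embedding.subtype _) := by
    ext z
    simp only [Finset.mem_filter, Finset.mem_univ, true_and, Finset.mem_map,
      Function.Embedding.subtype_apply]
    exact ⟨fun h => ⟨⟨z, h⟩, rfl⟩, fun ⟨y, hy⟩ => hy ▸ y.2⟩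
  rw [hmapf, Finset.powersetCard_map, Finset.sum_map]
  refine Finset.sum_congr rfl fun T _ => ?_
  have h9 : (fun z => if z ∈ (Finset.mapEmbedding (Function.Embedding.subtype
      fun z => c z = some (Sum.inl i))).toEmbedding T then a * v z else v z) =
      rep c (Sum.inl i) v (fun y => if y ∈ T then a * v y.1 else v y.1) := by
    funext z
    show (if z ∈ T.map (Function.Embedding.subtype fun z => c z = some (Sum.inl i)) then a * v z
      else v z) = _
    by_cases hz : c z = some (Sum.inl i)
    · rw [rep_pos _ _ hz]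
      have : z ∈ T.map (Function.Embedding.subtype fun z => c z = some (Sum.inl i)) ↔
          (⟨z, hz⟩ : {z // c z = some (Sum.inl i)}) ∈ T := by
        constructor
        · intro h
          obtain ⟨y, hy, e⟩ := Finset.mem_map.1 h
          have : y = ⟨z, hz⟩ := Subtype.ext e
          rwa [← this]
        · intro h
          exact Finset.mem_map.2 ⟨_, h, rfl⟩
      by_cases h : (⟨z, hz⟩ : {z // c z = some (Sum.inl i)}) ∈ T
      · rw [if_pos (this.2 h), if_pos h]
      · rw [if_neg (fun h' => h (this.1 h')), if_neg h]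
    · rw [rep_neg _ _ hz, if_neg]
      intro h
      obtain ⟨y, _, e⟩ := Finset.mem_map.1 h
      exact hz (e ▸ y.2)
  rw [h9, hψ']
  congr 1
  funext y
  by_cases hy : y ∈ T
  · rw [if_pos hy, Finset.piecewise_eq_of_mem _ _ _ hy, Q.π_mul]
    rfl
  · rw [if_neg hy, Finset.piecewise_eq_of_notMem _ _ _ hy]

end Pool.Agent.KEM
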