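import Pool.Agent.KEM.Ent

/-!
# Row EntAlt: typed polynomials at homogeneous entries
-/

universe u

namespace Pool.Agent.KEM

open Pool.Agent.Helper29

theorem swap_mem_colG {Z K : Type} [DecidableEq Z] {c : Z → Option K} {z z' : Z} {k : K}
    (hz : c z = some k) (hz' : c z' = some k) : Equiv.swap z z' ∈ colG c := by
  constructor
  · intro y
    by_cases h : y = z
    · subst h; rw [Equiv.swap_apply_left, hz, hz']
    · by_cases h' : y = z'
      · subst h'; rw [Equiv.swap_apply_right, hz, hz']
      · rw [Equiv.swap_apply_of_ne_of_ne h h']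
  · intro y hy
    have h : y ≠ z := by rintro rfl; rw [hz] at hy; exact absurd hy (by simp)
    have h' : y ≠ z' := by rintro rfl; rw [hz'] at hy; exact absurd hy (by simp)
    exact Equiv.swap_apply_of_ne_of_ne h h'

variable {F L : Type u} [Field F] [Field L] [Algebra F L]

/-- A polynomial alternating in `z`, `z'` vanishes if the two variables have the same value. -/
theorem ev_eq_zero_of_swap [CharZero F] {A : AssocAlg F} {Z K : Type} [Fintype Z] [DecidableEq Z]
    {p : FA F Z} {c : Z → Option K}
    (ht : ∀ π ∈ colG c, ren π p = (Equiv.Perm.sign π : ℤ) • p) {z z' : Z} {k : K} (hne : z ≠ z')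
    (hz : c z = some k) (hz' : c z' = some k) (v : Z → A.carrier) (hv : v z = v z') :
    ev A v p = 0 := by
  have h1 := ht _ (swap_mem_colG hz hz')
  have h2 : ev A v (ren (Equiv.swap z z') p) = ev A v p := by
    rw [ev_ren]
    congr 1
    congr 1
    funext y
    by_cases h : y = z
    · subst h; rw [Equiv.swap_apply_left, hv]
    · by_cases h' : y = z'
      · subst h'; rw [Equiv.swap_apply_right, hv]
      · rw [Equiv.swap_apply_of_ne_of_ne h h']
  rw [h1, Equiv.Perm.sign_swap hne] at h2
  rw [map_zsmul] at h2
  have h3 : (2 : F) • ev A v p = 0 := by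
    rw [two_smul]
    have h4 : ((-1 : ℤˣ) : ℤ) • ev A v p = - ev A v p := by simp
    rw [h4] at h2
    nth_rewrite 1 [← h2]
    abel
  rcases smul_eq_zero.1 h3 with h | h
  · exact absurd h two_ne_zero
  · exact h

theorem Ent_mu_of_not_rad {A : Type u} [NonUnitalRing A] [Module L A] {W : WMData L A}
    (a : W.Ent) (h : a.isRad = false) : ∃ i p q, a = WMData.Ent.mu i p q := by
  cases a with
  | mu i p q => exact ⟨i, p, q, rfl⟩
  | rad l r x hx hl hr => simp [WMData.Ent.isRad] at h

theorem entalt [CharZero F] {A : AssocAlg F} [Module L A.carrier] (_hA : FinOver F L A)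
    (W : WMData L A.carrier) {Z : Type} [Fintype Z] [DecidableEq Z] {p : FA F Z}
    {n b g : ℕ} {c : Z → Option (Fin n ⊕ Fin g)} (ht : Typed p n b g c)
    (a : Z → W.Ent) (h : ev A (fun z => (a z).val) p ≠ 0) (P : Finset (Fin W.m))
    (hP : ∀ z, (a z).InP P) :
    (∀ k, (∀ z, c z = some k → (a z).isRad = false) → Nat.card {z // c z = some k} ≤ W.dP P) ∧
    (WMData.radc a < n → b ≤ W.dP P) ∧
    (W.dP P ≤ b → g ≤ WMData.radc a) ∧
    (W.dP P ≤ b → WMData.radc a ≤ g → ∀ z, (a z).isRad = true → ∃ j, c z = some (Sum.inr j)) := by
  classical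
  have h1 : ∀ k, (∀ z, c z = some k → (a z).isRad = false) →
      Nat.card {z // c z = some k} ≤ W.dP P := by
    intro k hk
    have hex : ∀ z : {z // c z = some k}, ∃ x : (Σ i : Fin W.m, Fin (W.n i) × Fin (W.n i)),
        a z.1 = WMData.Ent.mu x.1 x.2.1 x.2.2 := by
      intro z
      obtain ⟨i, q, r, hz⟩ := Ent_mu_of_not_rad (a z.1) (hk z.1 z.2)
      exact ⟨⟨i, q, r⟩, hz⟩
    choose T hT using hex
    have hinj : Function.Injective T := by
      intro z z' hzz
      by_contra hne
      apply h
      refine ev_eq_zero_of_swap ht.alt (k := k) (z := z.1) (z' := z'.1)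
        (fun h => hne (Subtype.ext h)) z.2 z'.2 _ ?_
      rw [hT z, hT z', hzz]
    have hmem : ∀ z, T z ∈ P.sigma (fun i => (Finset.univ : Finset (Fin (W.n i) × Fin (W.n i)))) := by
      intro z
      rw [Finset.mem_sigma]
      refine ⟨?_, Finset.mem_univ _⟩
      apply (hP z.1).1
      rw [hT z]
      rfl
    rw [Nat.card_eq_fintype_card, ← Finset.card_univ,
      ← Finset.card_image_of_injective _ hinj]
    have hsub : Finset.univ.image T ⊆
        P.sigma (fun i => (Finset.univ : Finset (Fin (W.n i) × Fin (W.n i)))) := by
      intro x hx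
      obtain ⟨z, -, rfl⟩ := Finset.mem_image.1 hx
      exact hmem z
    refine (Finset.card_le_card hsub).trans (le_of_eq ?_)
    rw [Finset.card_sigma]
    unfold WMData.dP
    refine Finset.sum_congr rfl fun i _ => ?_
    rw [Finset.card_univ, Fintype.card_prod, Fintype.card_fin, sq]
  -- big classes contain radical entries
  have hbig : W.dP P ≤ b → ∀ j : Fin g, ∃ z, (a z).isRad = true ∧ c z = some (Sum.inr j) := by
    intro hb j
    by_contra hcon
    push Not at hcon
    have := h1 (Sum.inr j) (fun z hz => by
      by_contra h'
      exact hcon z (by simpa using h') hz)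
    rw [ht.sizes.big j] at this
    omega
  refine ⟨h1, ?_, ?_, ?_⟩
  · intro hrad
    -- some small class has no radical entry
    have hex : ∃ i : Fin n, ∀ z, c z = some (Sum.inl i) → (a z).isRad = false := by
      by_contra hcon
      push Not at hcon
      choose z hz hz' using hcon
      have hinj : Function.Injective z := by
        intro i i' hii
        have h2 := hz i
        rw [hii, hz i'] at h2
        simpa using h2.symm
      have : n ≤ WMData.radc a := by
        unfold WMData.radc
        rw [← Fintype.card_fin n, ← Finset.card_univ, ← Finset.card_image_of_injective _ hinj]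
        apply Finset.card_le_card
        intro y hy
        obtain ⟨i, -, rfl⟩ := Finset.mem_image.1 hy
        rw [Finset.mem_filter]
        exact ⟨Finset.mem_univ _, by simpa using hz' i⟩
      omega
    obtain ⟨i, hi⟩ := hex
    have := h1 (Sum.inl i) hi
    rwa [ht.sizes.small i] at this
  · intro hb
    choose z hz hz' using hbig hb
    have hinj : Function.Injective z := by
      intro i i' hii
      have h2 := hz' i
      rw [hii, hz' i'] at h2
      simpa using h2.symm
    unfold WMData.radc
    calc g = (Finset.univ.image z).card := by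
          rw [Finset.card_image_of_injective _ hinj, Finset.card_univ, Fintype.card_fin]
      _ ≤ _ := by
        apply Finset.card_le_card
        intro y hy
        obtain ⟨i, -, rfl⟩ := Finset.mem_image.1 hy
        rw [Finset.mem_filter]
        exact ⟨Finset.mem_univ _, hz i⟩
  · intro hb hrg y hy
    choose z hz hz' using hbig hb
    have hinj : Function.Injective z := by
      intro i i' hii
      have h2 := hz' i
      rw [hii, hz' i'] at h2
      simpa using h2.symm
    have hsub : Finset.univ.image z ⊆ Finset.univ.filter fun z => (a z).isRad = true := by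
      intro y hy
      obtain ⟨i, -, rfl⟩ := Finset.mem_image.1 hy
      rw [Finset.mem_filter]
      exact ⟨Finset.mem_univ _, hz i⟩
    have heq : Finset.univ.image z = Finset.univ.filter fun z => (a z).isRad = true := by
      apply Finset.eq_of_subset_of_card_le hsub
      rw [Finset.card_image_of_injective _ hinj, Finset.card_univ, Fintype.card_fin]
      exact hrg
    have : y ∈ Finset.univ.image z := by
      rw [heq, Finset.mem_filter]
      exact ⟨Finset.mem_univ _, hy⟩
    obtain ⟨j, -, rfl⟩ := Finset.mem_image.1 this
    exact ⟨j, hz' j⟩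

end Pool.Agent.KEM
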