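import Pool.Agent.KEM.Bas
import Pool.Agent.KEM.Ent

/-!
# Elementary facts on `Van` and `HasIndex`
-/

universe u

namespace Pool.Agent.KEM

open Pool.Agent.Helper29

variable {F : Type u} [Field F]

/-- Forgetting part of the structure of a typed polynomial. -/
theorem Typed.restrict {Z : Type} [Fintype Z] [DecidableEq Z] {p : FA F Z} {n b g n' b' g' : ℕ}
    {c' : Z → Option (Fin n' ⊕ Fin g')} (h : Typed p n' b' g' c')
    (c : Z → Option (Fin n ⊕ Fin g)) (hc : Sizes n b g c)
    (ι : Fin n ⊕ Fin g → Fin n' ⊕ Fin g')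
    (h1 : ∀ z k, c z = some k → c' z = some (ι k)) : Typed p n b g c := by
  refine ⟨hc, fun π hπ => h.alt π ⟨fun z => ?_, fun z hz => ?_⟩⟩
  · cases hcz : c z with
    | none => rw [hπ.2 z hcz]
    | some k => rw [h1 z k hcz, h1 (π z) k (by rw [hπ.1 z, hcz])]
  · cases hcz : c z with
    | none => exact hπ.2 z hcz
    | some k => rw [h1 z k hcz] at hz; exact absurd hz (by simp)

theorem van_mono {A : AssocAlg F} {n n' b g g' : ℕ} (h : Van A n b g) (hn : n ≤ n')
    (hg : g ≤ g') : Van A n' b g' := by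
  intro Z _ _ p c' hp ht
  let c : Z → Option (Fin n ⊕ Fin g) := fun z => (c' z).bind fun k =>
    match k with
    | Sum.inl i => if h : i.1 < n then some (Sum.inl ⟨i.1, h⟩) else none
    | Sum.inr j => if h : j.1 < g then some (Sum.inr ⟨j.1, h⟩) else none
  have hl : ∀ z i, c z = some (Sum.inl i) ↔ c' z = some (Sum.inl (Fin.castLE hn i)) := by
    intro z i
    rcases hcz : c' z with _ | ⟨i' | j'⟩
    · simp [c, hcz]
    · by_cases hi : i'.1 < n
      · simp only [c, hcz, Option.bind_some, hi, dite_true, Option.some.injEq, Sum.inl.injEq,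
          Fin.ext_iff, Fin.val_castLE]
      · simp only [c, hcz, Option.bind_some, hi, dite_false, Option.some.injEq, Sum.inl.injEq,
          Fin.ext_iff, Fin.val_castLE, reduceCtorEq, false_iff]
        intro h'; exact hi (h' ▸ i.2)
    · by_cases hi : j'.1 < g <;>
      simp [c, hcz, hi]
  have hr : ∀ z i, c z = some (Sum.inr i) ↔ c' z = some (Sum.inr (Fin.castLE hg i)) := by
    intro z i
    rcases hcz : c' z with _ | ⟨i' | j'⟩
    · simp [c, hcz]
    · by_cases hi : i'.1 < n <;>
      simp [c, hcz, hi]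
    · by_cases hi : j'.1 < g
      · simp only [c, hcz, Option.bind_some, hi, dite_true, Option.some.injEq, Sum.inr.injEq,
          Fin.ext_iff, Fin.val_castLE]
      · simp only [c, hcz, Option.bind_some, hi, dite_false, Option.some.injEq, Sum.inr.injEq,
          Fin.ext_iff, Fin.val_castLE, reduceCtorEq, false_iff]
        intro h'; exact hi (h' ▸ i.2)
  refine h Z p c hp (ht.restrict c ⟨fun i => ?_, fun i => ?_⟩
    (Sum.map (Fin.castLE hn) (Fin.castLE hg)) ?_)
  · rw [← ht.sizes.small (Fin.castLE hn i)]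
    exact Nat.card_congr (Equiv.subtypeEquivRight fun z => hl z i)
  · rw [← ht.sizes.big (Fin.castLE hg i)]
    exact Nat.card_congr (Equiv.subtypeEquivRight fun z => hr z i)
  · rintro z (k | k) hk
    · exact (hl z k).1 hk
    · exact (hr z k).1 hk

theorem van_mono_b {A : AssocAlg F} {n b b' : ℕ} (h : Van A n b 0) (hb : b ≤ b') :
    Van A n b' 0 := by
  classical
  intro Z _ _ p c' hp ht
  have key : ∀ i : Fin n, ∃ s : Finset Z, s ⊆ Finset.univ.filter (fun z => c' z = some (Sum.inl i)) ∧
      s.card = b := by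
    intro i
    apply Finset.exists_subset_card_eq
    rw [← Fintype.card_subtype, ← Nat.card_eq_fintype_card, ht.sizes.small i]
    exact hb
  choose s hs hsc using key
  have hs' : ∀ i z, z ∈ s i → c' z = some (Sum.inl i) := fun i z hz =>
    (Finset.mem_filter.1 (hs i hz)).2
  let c : Z → Option (Fin n ⊕ Fin 0) := fun z =>
    match c' z with
    | some (Sum.inl i) => if z ∈ s i then some (Sum.inl i) else none
    | _ => none
  have hc : ∀ z i, c z = some (Sum.inl i) ↔ z ∈ s i := by
    intro z i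
    rcases hcz : c' z with _ | ⟨i' | j'⟩
    · simp only [c, hcz, reduceCtorEq, false_iff]
      intro hz; rw [hs' i z hz] at hcz; exact absurd hcz (by simp)
    · by_cases hz : z ∈ s i'
      · simp only [c, hcz, hz, if_true, Option.some.injEq, Sum.inl.injEq]
        constructor
        · rintro rfl; exact hz
        · intro h'
          have := hs' i z h'
          rw [hcz] at this
          simpa using this
      · simp only [c, hcz, hz, if_false, reduceCtorEq, false_iff]
        intro h'
        have := hs' i z h'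
        rw [hcz] at this
        simp at this
        exact hz (this ▸ h')
    · exact j'.elim0
  refine h Z p c hp (ht.restrict c ⟨fun i => ?_, fun i => i.elim0⟩ id ?_)
  · rw [← hsc i, Nat.card_congr (Equiv.subtypeEquivRight fun z => hc z i)]
    simp
  · rintro z (k | k) hk
    · exact hs' k z ((hc z k).1 hk)
    · exact k.elim0

theorem not_van_zero {A : AssocAlg F} (h0 : ∃ x : A.carrier, x ≠ 0) (n : ℕ) : ¬ Van A n 0 0 := by
  intro h
  obtain ⟨x, hx⟩ := h0
  have h1 := h (Fin 1) (mon F (FreeMonoid.of 0)) (fun _ => none) ?_ ?_ (fun _ => x)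
  · rw [Bas.ev_mon_of] at h1
    exact hx (inc_eq_zero.1 h1)
  · refine Bas.mon_mem_ML ⟨?_, ?_, fun z => ?_⟩
    · simp
    · simp
    · rw [Subsingleton.elim z 0]; simp
  · refine ⟨⟨fun i => ?_, fun i => i.elim0⟩, fun π _ => ?_⟩
    · simp
    · have : π = 1 := Subsingleton.elim _ _
      subst this
      rw [Bas.ren_one]; simp

theorem van_big {A : AssocAlg F} {n b : ℕ} (h : Van A n (b + 1) 0) : Van A 0 b n := by
  intro Z _ _ p c' hp ht
  let c : Z → Option (Fin n ⊕ Fin 0) := fun z => (c' z).map fun k =>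
    match k with
    | Sum.inl i => i.elim0
    | Sum.inr j => Sum.inl j
  have hc : ∀ z i, c z = some (Sum.inl i) ↔ c' z = some (Sum.inr i) := by
    intro z i
    rcases hcz : c' z with _ | ⟨i' | j'⟩
    · simp [c, hcz]
    · exact i'.elim0
    · simp [c, hcz]
  refine h Z p c hp (ht.restrict c ⟨fun i => ?_, fun i => i.elim0⟩
    (fun k => match k with
      | Sum.inl i => Sum.inr i
      | Sum.inr j => j.elim0) ?_)
  · rw [← ht.sizes.big i]
    exact Nat.card_congr (Equiv.subtypeEquivRight fun z => hc z i)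
  · rintro z (k | k) hk
    · exact (hc z k).1 hk
    · exact k.elim0

theorem idx_exists {A : AssocAlg F} (h0 : ∃ x : A.carrier, x ≠ 0) {N : ℕ}
    (h : Van A 1 N 0) : ∃ b g, HasIndex A b g := by
  classical
  have h1 : ∃ b, ∃ n, Van A n b 0 := ⟨N, 1, h⟩
  obtain ⟨n0, hn0⟩ := Nat.find_spec h1
  have hpos : Nat.find h1 ≠ 0 := by
    intro h'
    rw [h'] at hn0
    exact not_van_zero h0 n0 hn0
  obtain ⟨b, hb⟩ := Nat.exists_eq_succ_of_ne_zero hpos
  have hmin : ∀ n, ¬ Van A n b 0 := by
    intro n hn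
    exact Nat.find_min h1 (m := b) (by omega) ⟨n, hn⟩
  rw [hb] at hn0
  have h2 : ∃ g, ∃ n, Van A n b g := ⟨n0, 0, van_big hn0⟩
  obtain ⟨n1, hn1⟩ := Nat.find_spec h2
  have hpos' : Nat.find h2 ≠ 0 := by
    intro h'
    rw [h'] at hn1
    exact hmin n1 hn1
  obtain ⟨g, hg⟩ := Nat.exists_eq_succ_of_ne_zero hpos'
  refine ⟨b, g, ⟨fun n hn => ?_, ⟨n1, ?_⟩, ⟨n0, hn0⟩⟩⟩
  · exact Nat.find_min h2 (m := g) (by omega) ⟨n, hn⟩
  · rw [hg] at hn1; exact hn1

theorem Van.of_idLe {A B : AssocAlg F} (h : IdLe A B) {n b g : ℕ} (hv : Van A n b g) :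
    Van B n b g := fun Z _ _ p c hp ht => h Z p hp (hv Z p c hp ht)

theorem idx_le {A B : AssocAlg F} (h : IdLe A B) {b g b' g' : ℕ} (hA : HasIndex A b g)
    (hB : HasIndex B b' g') : b' < b ∨ (b' = b ∧ g' ≤ g) := by
  rcases lt_trichotomy b' b with hlt | heq | hgt
  · exact Or.inl hlt
  · subst heq
    refine Or.inr ⟨rfl, ?_⟩
    by_contra hg
    obtain ⟨n, hn⟩ := hA.van_g
    exact hB.not_van n (van_mono (hn.of_idLe h) le_rfl (by omega))
  · exfalso
    obtain ⟨n, hn⟩ := hA.van_b
    exact hB.not_van n (van_mono (van_mono_b (hn.of_idLe h) (show b + 1 ≤ b' by omega)) le_rfl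
      (Nat.zero_le _))

theorem idx_lt {B : AssocAlg F} {b g b' g' : ℕ}
    (hB : HasIndex B b' g') (h : b' < b ∨ (b' = b ∧ g' < g)) : ∃ n, Van B n b g := by
  rcases h with h | ⟨rfl, h⟩
  · obtain ⟨n, hn⟩ := hB.van_b
    exact ⟨n, van_mono (van_mono_b hn (show b' + 1 ≤ b by omega)) le_rfl (Nat.zero_le _)⟩
  · obtain ⟨n, hn⟩ := hB.van_g
    exact ⟨n, van_mono hn le_rfl h⟩

/-- A typed polynomial vanishes if two entries of one class coincide. -/
theorem Typed.eq_zero_of_eq [CharZero F] {A : AssocAlg F} {Z : Type} [Fintype Z] [DecidableEq Z]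
    {p : FA F Z} {n b g : ℕ} {c : Z → Option (Fin n ⊕ Fin g)} (ht : Typed p n b g c)
    (v : Z → A.carrier) {z z' : Z} (hz : z ≠ z') (hc : c z = c z') (hc0 : c z ≠ none)
    (hv : v z = v z') : ev A v p = 0 := by
  have hmem : Equiv.swap z z' ∈ colG c := by
    refine ⟨fun y => ?_, fun y hy => ?_⟩
    · rcases eq_or_ne y z with rfl | hyz
      · rw [Equiv.swap_apply_left, hc]
      · rcases eq_or_ne y z' with rfl | hyz'
        · rw [Equiv.swap_apply_right, hc]
        · rw [Equiv.swap_apply_of_ne_of_ne hyz hyz']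
    · apply Equiv.swap_apply_of_ne_of_ne
      · rintro rfl; exact hc0 hy
      · rintro rfl; exact hc0 (hc.trans hy)
  have h1 := congrArg (ev A v) (ht.alt _ hmem)
  rw [ev_ren, Equiv.Perm.sign_swap hz] at h1
  have h2 : (fun y => v (Equiv.swap z z' y)) = v := by
    funext y
    rcases eq_or_ne y z with rfl | hyz
    · rw [Equiv.swap_apply_left, hv]
    · rcases eq_or_ne y z' with rfl | hyz'
      · rw [Equiv.swap_apply_right, hv]
      · rw [Equiv.swap_apply_of_ne_of_ne hyz hyz']
  rw [h2] at h1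
  simp only [Units.val_neg, Units.val_one, neg_smul, one_smul, map_neg] at h1
  have h3 : (2 : F) • ev A v p = 0 := by
    rw [two_smul]
    nth_rewrite 1 [h1]
    exact neg_add_cancel _
  exact (smul_eq_zero.1 h3).resolve_left two_ne_zero

theorem fd_van [CharZero F] {A : AssocAlg F} (hA : IsFD A) : ∃ N, 0 < N ∧ Van A 1 N 0 := by
  classical
  obtain ⟨L, _, _, _, _, hF⟩ := hA
  have := hF.fin
  refine ⟨Module.finrank L A.carrier + 1, Nat.succ_pos _, fun Z _ _ p c hp ht => ?_⟩
  intro v
  rw [Bas.ev_ML A v hp]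
  rw [inc_eq_zero]
  let B := Module.finBasis L A.carrier
  refine evs_span hF hp (fun _ => Set.range B) (fun w hw => ?_) v (fun z => ?_)
  · choose k hk using hw
    have hcard : Fintype.card (Fin (Module.finrank L A.carrier)) <
        Fintype.card {z // c z = some (Sum.inl 0)} := by
      rw [← Nat.card_eq_fintype_card (α := {z // c z = some (Sum.inl 0)}), ht.sizes.small 0,
        Fintype.card_fin]
      exact Nat.lt_succ_self _
    obtain ⟨⟨z, hz⟩, ⟨z', hz'⟩, hne, heq⟩ := Fintype.exists_ne_map_eq_of_card_lt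
      (fun z : {z // c z = some (Sum.inl 0)} => k z.1) hcard
    have h0 := ht.eq_zero_of_eq w (z := z) (z' := z') (fun h => hne (Subtype.ext h))
      (hz.trans hz'.symm) (by rw [hz]; simp) (by
        rw [← hk z, ← hk z']
        exact congrArg B heq)
    rw [Bas.ev_ML A w hp] at h0
    exact inc_eq_zero.1 h0
  · rw [B.span_eq]; trivial

theorem pi_of_van {A : AssocAlg F} {N : ℕ} (hN : 0 < N) (h : Van A 1 N 0) : PI A := by
  classical
  let c : Fin N → Option (Fin 1 ⊕ Fin 0) := fun _ => some (Sum.inl 0)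
  have hc : Sizes 1 N 0 c := by
    refine ⟨fun i => ?_, fun i => i.elim0⟩
    rw [Subsingleton.elim i 0]
    simp [c]
  let w : FreeMonoid (Fin N) := FreeMonoid.ofList (List.finRange N)
  have hw : MLW w := by
    refine ⟨?_, ?_, fun z => ?_⟩
    · simp only [w, FreeMonoid.toList_ofList]
      intro h'
      have := congrArg List.length h'
      simp at this
      omega
    · exact List.nodup_finRange N
    · exact List.mem_finRange z
  have hp : Bas.altS c (mon F w) ∈ ML F (Fin N) := Bas.altS_mem_ML c (Bas.mon_mem_ML hw)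
  refine ⟨N, Bas.altS c (mon F w), hp, ?_, h _ _ c hp (Bas.typed_altS hc _)⟩
  have hall : ∀ π : Equiv.Perm (Fin N), π ∈ colG c := fun π => ⟨fun _ => rfl, fun _ h' => by
    simp [c] at h'⟩
  rw [Bas.altS, MonoidAlgebra.coeff_sum, Finsupp.finsetSum_apply]
  rw [Finset.sum_eq_single 1]
  · rw [Bas.ren_one]; simp [mon, w]
  · intro π _ hne
    rw [ren_mon, ← Int.cast_smul_eq_zsmul F]
    have : (FreeMonoid.map π w) ≠ w := by
      intro h'
      apply hne
      have h2 : (List.finRange N).map π = List.finRange N := h'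
      ext i
      have h3 := congrArg (fun l => l[i.1]?) h2
      simp at h3
      exact congrArg Fin.val (by simpa using h3)
    simp only [mon, MonoidAlgebra.smul_single, MonoidAlgebra.coeff_single]
    exact Finsupp.single_eq_of_ne (Ne.symm this)
  · intro h'
    exact absurd (Finset.mem_filter.2 ⟨Finset.mem_univ _, hall 1⟩) h'

theorem fd_pi [CharZero F] {A : AssocAlg F} (hA : IsFD A) : PI A ∧ ∃ N, Van A 1 N 0 := by
  obtain ⟨N, hN, h⟩ := fd_van hA
  exact ⟨pi_of_van hN h, N, h⟩

end Pool.Agent.KEM
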