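import Pool.Agent.KEM.Api

/-!
# Multilinearization (row LIN)
-/

universe u

namespace Pool.Agent.KEM

open Pool.Agent.Helper29

variable {F : Type u} [Field F]

section mlws

variable (Y : Type) [Fintype Y]

theorem finite_mlw : {w : FreeMonoid Y | MLW w}.Finite := by
  classical
  have h : Function.Injective (fun w : {w : FreeMonoid Y // MLW w} =>
      (⟨FreeMonoid.toList w.1, w.2.2.1⟩ : {l : List Y // l.Nodup})) := by
    intro w w' h
    have h1 := congrArg Subtype.val h
    exact Subtype.ext (FreeMonoid.toList.injective h1)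
  have h2 : Finite {w : FreeMonoid Y // MLW w} := Finite.of_injective _ h
  exact Set.finite_coe_iff.1 h2

/-- The multilinear words. -/
noncomputable def mlws : Finset (FreeMonoid Y) := (finite_mlw Y).toFinset

variable {Y}

theorem mem_mlws {w : FreeMonoid Y} : w ∈ mlws Y ↔ MLW w := by
  rw [mlws, Set.Finite.mem_toFinset]; rfl

/-- The multilinear part. -/
noncomputable def mlpart : FA F Y →ₗ[F] FA F Y where
  toFun q := ∑ u ∈ mlws Y, q.coeff u • mon F u
  map_add' p q := by
    rw [← Finset.sum_add_distrib]
    exact Finset.sum_congr rfl fun u _ => by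
      rw [MonoidAlgebra.coeff_add, Finsupp.add_apply, add_smul]
  map_smul' c q := by
    rw [RingHom.id_apply, Finset.smul_sum]
    exact Finset.sum_congr rfl fun u _ => by
      rw [MonoidAlgebra.coeff_smul_apply, smul_assoc]

theorem mlpart_apply (q : FA F Y) : mlpart q = ∑ u ∈ mlws Y, q.coeff u • mon F u := rfl

theorem mlpart_mem (q : FA F Y) : mlpart q ∈ ML F Y :=
  Submodule.sum_mem _ fun u hu => Submodule.smul_mem _ _
    (Submodule.subset_span ⟨u, mem_mlws.1 hu, rfl⟩)

omit [Fintype Y] in
theorem FA_eq_sum (q : FA F Y) : q = ∑ u ∈ q.coeff.support, q.coeff u • mon F u := by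
  conv_lhs => rw [← MonoidAlgebra.sum_coeff_single q]
  unfold Finsupp.sum
  refine Finset.sum_congr rfl fun u _ => ?_
  rw [mon, MonoidAlgebra.smul_single, smul_eq_mul, mul_one]

omit [Fintype Y] in
theorem ev_scale (A : AssocAlg F) (v : Y → A.carrier) (t : Y → F) (u : FreeMonoid Y) :
    ev A (fun y => t y • v y) (mon F u) =
      ((FreeMonoid.toList u).map t).prod • ev A v (mon F u) := by
  rw [ev_mon, ev_mon]
  induction FreeMonoid.toList u with
  | nil => simp
  | cons y l ih =>
    rw [List.map_cons, List.prod_cons, ih, List.map_cons, List.prod_cons, List.map_cons,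
      List.prod_cons, inc_smul, smul_mul_smul_comm]

open Classical in
/-- The exponents of a word. -/
noncomputable def cnt (u : FreeMonoid Y) : Y →₀ ℕ :=
  Finsupp.equivFunOnFinite.symm fun y => (FreeMonoid.toList u).count y

open Classical in
theorem cnt_apply (u : FreeMonoid Y) (y : Y) : cnt u y = (FreeMonoid.toList u).count y := rfl

theorem list_map_prod (u : FreeMonoid Y) (t : Y → F) :
    ((FreeMonoid.toList u).map t).prod = ∏ y, t y ^ cnt u y := by
  classical
  rw [Finset.prod_list_map_count]
  refine (Finset.prod_subset (Finset.subset_univ _) fun y _ hy => ?_).trans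
    (Finset.prod_congr rfl fun y _ => by rw [cnt_apply])
  rw [List.count_eq_zero_of_not_mem (by simpa using hy), pow_zero]

theorem mlw_iff_cnt [Nonempty Y] (u : FreeMonoid Y) :
    MLW u ↔ cnt u = Finsupp.equivFunOnFinite.symm fun _ => 1 := by
  classical
  constructor
  · rintro ⟨_, h2, h3⟩
    ext y
    rw [cnt_apply]
    exact List.count_eq_one_of_mem h2 (h3 y)
  · intro h
    have h1 : ∀ y, (FreeMonoid.toList u).count y = 1 := fun y => by
      rw [← cnt_apply, h]; rfl
    have h3 : ∀ y, y ∈ FreeMonoid.toList u := fun y => by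
      rw [← List.count_pos_iff, h1 y]; exact Nat.one_pos
    refine ⟨?_, List.nodup_iff_count_le_one.2 fun y => (h1 y).le, h3⟩
    obtain ⟨y⟩ := ‹Nonempty Y›
    exact List.ne_nil_of_mem (h3 y)

theorem ev_mlpart_eq_zero [Infinite F] [Nonempty Y] (A : AssocAlg F) (v : Y → A.carrier)
    (q : FA F Y) (h : ∀ t : Y → F, ev A (fun y => t y • v y) q = 0) :
    ev A v (mlpart q) = 0 := by
  classical
  refine (Module.forall_dual_apply_eq_zero_iff F _).1 fun φ => ?_
  let Q : MvPolynomial Y F := ∑ u ∈ q.coeff.support,
    MvPolynomial.monomial (cnt u) (q.coeff u * φ (ev A v (mon F u)))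
  have hQ : Q = 0 := by
    refine MvPolynomial.funext fun t => ?_
    rw [map_zero, ← map_zero φ, ← h t, map_sum]
    conv_rhs => rw [FA_eq_sum q]
    rw [map_sum, map_sum]
    refine Finset.sum_congr rfl fun u _ => ?_
    rw [MvPolynomial.eval_monomial, map_smul, map_smul, ev_scale, map_smul, list_map_prod,
      smul_eq_mul, smul_eq_mul, Finsupp.prod_fintype _ _ (fun _ => pow_zero _)]
    ring
  have h1 := congrArg (MvPolynomial.coeff (Finsupp.equivFunOnFinite.symm fun _ : Y => 1)) hQ
  rw [MvPolynomial.coeff_zero, MvPolynomial.coeff_sum] at h1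
  simp only [MvPolynomial.coeff_monomial] at h1
  rw [mlpart_apply, map_sum, map_sum, ← h1]
  have h2 : ∀ u, (if cnt u = Finsupp.equivFunOnFinite.symm (fun _ : Y => 1) then
      q.coeff u * φ (ev A v (mon F u)) else 0) =
      if u ∈ mlws Y then φ (ev A v (q.coeff u • mon F u)) else 0 := by
    intro u
    by_cases hu : MLW u
    · rw [if_pos ((mlw_iff_cnt u).1 hu), if_pos (mem_mlws.2 hu), map_smul, map_smul, smul_eq_mul]
    · rw [if_neg fun h' => hu ((mlw_iff_cnt u).2 h'), if_neg fun h' => hu (mem_mlws.1 h')]
  rw [Finset.sum_congr rfl fun u _ => h2 u, ← Finset.sum_filter, Finset.filter_mem_eq_inter]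
  symm
  refine Finset.sum_subset Finset.inter_subset_right fun u hu hu' => ?_
  have h3 : q.coeff u = 0 := by
    by_contra hne
    exact hu' (Finset.mem_inter.2 ⟨Finsupp.mem_support_iff.2 hne, hu⟩)
  rw [h3, zero_smul, map_zero, map_zero]

end mlws

section split

variable {X : Type} [Fintype X] (d : X → ℕ)

/-- Replace each variable `x` by the sum of the `d x` variables over it. -/
noncomputable def split : FA F X →ₐ[F] FA F (Σ x, Fin (d x)) :=
  sbst fun x => ∑ j, mon F (FreeMonoid.of ⟨x, j⟩)

theorem coeff_of_mul_one {Y : Type} (y : Y) (q : FA F Y) :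
    (mon F (FreeMonoid.of y) * q).coeff 1 = 0 := by
  refine MonoidAlgebra.coeff_single_mul_of_forall_mul_ne _ _ fun w hw => ?_
  have := congrArg (fun w => (FreeMonoid.toList w).length) hw
  simp at this

theorem coeff_of_mul {Y : Type} [DecidableEq Y] (y z : Y) (q : FA F Y) (u : FreeMonoid Y) :
    (mon F (FreeMonoid.of y) * q).coeff (FreeMonoid.of z * u) =
      if y = z then q.coeff u else 0 := by
  split_ifs with h
  · subst h
    rw [mon, MonoidAlgebra.coeff_single_mul_mul, one_mul]
  · refine MonoidAlgebra.coeff_single_mul_of_forall_mul_ne _ _ fun w hw => ?_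
    have := congrArg FreeMonoid.toList hw
    rw [FreeMonoid.toList_of_mul, FreeMonoid.toList_of_mul] at this
    exact h (List.cons_eq_cons.1 this).1

omit [Fintype X] in
theorem split_mon_of_mul (x : X) (w : FreeMonoid X) :
    split d (mon F (FreeMonoid.of x * w)) =
      ∑ j, mon F (FreeMonoid.of (⟨x, j⟩ : Σ x, Fin (d x))) * split d (mon F w) := by
  rw [mon_mul, map_mul, ← Finset.sum_mul]
  congr 1
  rw [split, sbst_mon, FreeMonoid.toList_of, List.map_singleton, List.prod_singleton]

open Classical in
theorem coeff_split_mon (w : FreeMonoid X) : ∀ u : FreeMonoid (Σ x, Fin (d x)),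
    (split d (mon F w)).coeff u = if FreeMonoid.map Sigma.fst u = w then 1 else 0 := by
  induction w using FreeMonoid.inductionOn' with
  | one =>
    intro u
    rw [mon_one, map_one, MonoidAlgebra.one_def, MonoidAlgebra.coeff_single, Finsupp.single_apply]
    refine if_congr ?_ rfl rfl
    constructor
    · rintro rfl; exact map_one _
    · intro h
      have := congrArg FreeMonoid.toList h
      rw [FreeMonoid.toList_map, FreeMonoid.toList_one, List.map_eq_nil_iff] at this
      exact (FreeMonoid.toList.injective this).symm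
  | of_mul x w ih =>
    intro u
    rw [split_mon_of_mul, MonoidAlgebra.coeff_sum, Finsupp.finsetSum_apply]
    induction u using FreeMonoid.inductionOn' with
    | one =>
      rw [Finset.sum_eq_zero fun j _ => coeff_of_mul_one _ _, if_neg]
      intro h
      have := congrArg (fun w => (FreeMonoid.toList w).length) h
      simp at this
    | of_mul y u _ =>
      simp only [coeff_of_mul, ih]
      obtain ⟨x', j'⟩ := y
      have h1 : FreeMonoid.map Sigma.fst (FreeMonoid.of (⟨x', j'⟩ : Σ x, Fin (d x)) * u) =
          FreeMonoid.of x' * FreeMonoid.map Sigma.fst u := by rw [map_mul, FreeMonoid.map_of]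
      rw [h1]
      by_cases hx : x = x'
      · subst hx
        rw [Finset.sum_eq_single j']
        · rw [if_pos rfl]
          refine if_congr ?_ rfl rfl
          constructor
          · rintro rfl; rfl
          · intro h
            have := congrArg FreeMonoid.toList h
            rw [FreeMonoid.toList_of_mul, FreeMonoid.toList_of_mul] at this
            exact FreeMonoid.toList.injective (List.cons_eq_cons.1 this).2
        · intro j _ hj
          rw [if_neg]
          intro h
          exact hj (by simpa using h)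
        · intro h; exact absurd (Finset.mem_univ _) h
      · have h2 : ¬ FreeMonoid.of x' * FreeMonoid.map Sigma.fst u = FreeMonoid.of x * w := by
          intro h
          have := congrArg FreeMonoid.toList h
          rw [FreeMonoid.toList_of_mul, FreeMonoid.toList_of_mul] at this
          exact hx (List.cons_eq_cons.1 this).1.symm
        rw [if_neg h2, Finset.sum_eq_zero]
        intro j _
        rw [if_neg]
        intro h
        exact hx (congrArg Sigma.fst h)

theorem coeff_split (p : FA F X) (u : FreeMonoid (Σ x, Fin (d x))) :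
    (split d p).coeff u = p.coeff (FreeMonoid.map Sigma.fst u) := by
  classical
  induction p using FA_induction with
  | h0 => rw [map_zero]; rfl
  | ha p q hp hq =>
    rw [map_add, MonoidAlgebra.coeff_add, MonoidAlgebra.coeff_add, Finsupp.add_apply,
      Finsupp.add_apply, hp, hq]
  | hs c w =>
    rw [map_smul, MonoidAlgebra.coeff_smul_apply, MonoidAlgebra.coeff_smul_apply,
      coeff_split_mon, mon, MonoidAlgebra.coeff_single, Finsupp.single_apply]
    congr 1
    exact if_congr eq_comm rfl rfl

theorem ev_split (A : AssocAlg F) (v : (Σ x, Fin (d x)) → A.carrier) (p : FA F X) :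
    ev A v (split d p) = ev A (fun x => ∑ j, v ⟨x, j⟩) p := by
  have h : (ev A v).toLinearMap ∘ₗ (split (F := F) d).toLinearMap =
      (ev A fun x => ∑ j, v ⟨x, j⟩).toLinearMap := by
    refine FA_lin_ext fun w => ?_
    show ev A v (split d (mon F w)) = ev A (fun x => ∑ j, v ⟨x, j⟩) (mon F w)
    rw [split, sbst_mon, map_list_prod, ev_mon, List.map_map]
    congr 2
    funext x
    rw [Function.comp_apply, map_sum, inc_sum]
    refine Finset.sum_congr rfl fun j _ => ?_
    rw [ev_mon, FreeMonoid.toList_of, List.map_singleton, List.prod_singleton]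
  exact LinearMap.congr_fun h p

/-- The multilinearization operator. -/
noncomputable def theta : FA F X →ₗ[F] FA F (Σ x, Fin (d x)) :=
  mlpart ∘ₗ (split d).toLinearMap

theorem theta_apply (p : FA F X) :
    theta d p = ∑ u ∈ mlws (Σ x, Fin (d x)), p.coeff (FreeMonoid.map Sigma.fst u) • mon F u := by
  rw [theta, LinearMap.comp_apply, mlpart_apply]
  exact Finset.sum_congr rfl fun u _ => by rw [← coeff_split]; rfl

theorem theta_mem (p : FA F X) : theta d p ∈ ML F (Σ x, Fin (d x)) := mlpart_mem _

theorem sat_theta [CharZero F] (hd : ∃ x, d x ≠ 0) {A : AssocAlg F} {p : FA F X}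
    (hp : Sat A p) : Sat A (theta d p) := by
  obtain ⟨x, hx⟩ := hd
  have : Nonempty (Σ x, Fin (d x)) := ⟨⟨x, ⟨0, Nat.pos_of_ne_zero hx⟩⟩⟩
  intro v
  refine ev_mlpart_eq_zero A v _ fun t => ?_
  show ev A _ (split d p) = 0
  rw [ev_split]
  exact hp _

end split

section count

variable {X Y : Type} [Fintype Y]

theorem mlw_perm {u u' : FreeMonoid Y} (hu : MLW u) (hu' : MLW u') :
    (FreeMonoid.toList u).Perm (FreeMonoid.toList u') :=
  (List.perm_ext_iff_of_nodup hu.2.1 hu'.2.1).2 fun z => ⟨fun _ => hu'.2.2 z, fun _ => hu.2.2 z⟩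

theorem mlw_of_perm {u u' : FreeMonoid Y} (hu : MLW u)
    (h : (FreeMonoid.toList u).Perm (FreeMonoid.toList u')) : MLW u' := by
  refine ⟨fun h0 => hu.1 ?_, h.nodup_iff.1 hu.2.1, fun z => h.mem_iff.1 (hu.2.2 z)⟩
  rw [h0] at h
  exact h.eq_nil

theorem mlw_map_perm {u : FreeMonoid Y} (hu : MLW u) (g : Equiv.Perm Y) :
    MLW (FreeMonoid.map g u) := by
  refine ⟨?_, ?_, ?_⟩
  · rw [FreeMonoid.toList_map]
    intro h
    exact hu.1 (List.map_eq_nil_iff.1 h)
  · rw [FreeMonoid.toList_map]
    exact hu.2.1.map g.injective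
  · intro z
    rw [FreeMonoid.toList_map, List.mem_map]
    exact ⟨g.symm z, hu.2.2 _, g.apply_symm_apply z⟩

theorem exists_perm_map {u u' : FreeMonoid Y} (hu : MLW u) (hu' : MLW u') :
    ∃ g : Equiv.Perm Y, FreeMonoid.map g u = u' := by
  classical
  have hlen := (mlw_perm hu hu').length_eq
  let e := List.Nodup.getEquivOfForallMemList (FreeMonoid.toList u) hu.2.1 hu.2.2
  let e' := List.Nodup.getEquivOfForallMemList (FreeMonoid.toList u') hu'.2.1 hu'.2.2
  refine ⟨e.symm.trans ((finCongr hlen).trans e'), ?_⟩
  apply FreeMonoid.toList.injective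
  rw [FreeMonoid.toList_map]
  refine List.ext_getElem (by rw [List.length_map, hlen]) fun i h1 h2 => ?_
  rw [List.getElem_map]
  have h3 : i < (FreeMonoid.toList u).length := by rwa [List.length_map] at h1
  have h4 : (FreeMonoid.toList u)[i] = e ⟨i, h3⟩ := rfl
  rw [h4, Equiv.trans_apply, Equiv.symm_apply_apply]
  rfl

theorem map_eq_imp {u : FreeMonoid Y} (hu : MLW u) {g g' : Y → X}
    (h : FreeMonoid.map g u = FreeMonoid.map g' u) : g = g' := by
  funext y
  have h1 := congrArg FreeMonoid.toList h
  rw [FreeMonoid.toList_map, FreeMonoid.toList_map] at h1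
  exact List.map_inj_left.1 h1 y (hu.2.2 y)

open Classical in
/-- A word that is the image of a multilinear word: the set of its preimages. -/
theorem card_fiber [Fintype X] (f : Y → X) {u : FreeMonoid Y} (hu : MLW u) :
    ((mlws Y).filter fun u' => FreeMonoid.map f u' = FreeMonoid.map f u).card =
      ∏ x, (Fintype.card {y // f y = x}).factorial := by
  rw [← DomMulAct.stabilizer_card f, ← Fintype.card_coe]
  symm
  refine Fintype.card_of_bijective (f := fun g : {g : Equiv.Perm Y // f ∘ g = f} =>
    (⟨FreeMonoid.map g.1 u, Finset.mem_filter.2 ⟨mem_mlws.2 (mlw_map_perm hu g.1), ?_⟩⟩ :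
      {u' // u' ∈ (mlws Y).filter fun u' => FreeMonoid.map f u' = FreeMonoid.map f u})) ⟨?_, ?_⟩
  · apply FreeMonoid.toList.injective
    rw [FreeMonoid.toList_map, FreeMonoid.toList_map, FreeMonoid.toList_map, List.map_map, g.2]
  · intro g g' h
    have h1 := congrArg Subtype.val h
    exact Subtype.ext (Equiv.ext fun y => congrFun (map_eq_imp hu h1) y)
  · rintro ⟨u', hu'⟩
    rw [Finset.mem_filter, mem_mlws] at hu'
    obtain ⟨g, hg⟩ := exists_perm_map hu hu'.1
    refine ⟨⟨g, ?_⟩, Subtype.ext hg⟩
    refine map_eq_imp hu ?_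
    rw [← hu'.2, ← hg]
    apply FreeMonoid.toList.injective
    rw [FreeMonoid.toList_map, FreeMonoid.toList_map, FreeMonoid.toList_map, List.map_map]

open Classical in
theorem count_map_mlw (f : Y → X) {u : FreeMonoid Y} (hu : MLW u) (x : X) :
    (FreeMonoid.toList (FreeMonoid.map f u)).count x = Fintype.card {y // f y = x} := by
  have h1 : (FreeMonoid.toList u).Perm (Finset.univ : Finset Y).toList :=
    (List.perm_ext_iff_of_nodup hu.2.1 (Finset.nodup_toList _)).2
      fun z => ⟨fun _ => by simp, fun _ => hu.2.2 z⟩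
  rw [FreeMonoid.toList_map, (h1.map f).count_eq, ← Multiset.coe_count, ← Multiset.map_coe,
    Finset.coe_toList, Multiset.count_map, Fintype.card_subtype]
  rw [Finset.card_def, Finset.filter_val]
  congr 1
  exact Multiset.filter_congr fun y _ => eq_comm

open Classical in
theorem exists_mlw_map [Nonempty Y] (f : Y → X) (w : FreeMonoid X)
    (hw : ∀ x, (FreeMonoid.toList w).count x = Fintype.card {y // f y = x}) :
    ∃ u : FreeMonoid Y, MLW u ∧ FreeMonoid.map f u = w := by
  let u0 : FreeMonoid Y := FreeMonoid.ofList (Finset.univ : Finset Y).toList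
  have hu0 : MLW u0 := by
    refine ⟨?_, ?_, fun z => ?_⟩
    · rw [FreeMonoid.toList_ofList]
      obtain ⟨y⟩ := ‹Nonempty Y›
      exact List.ne_nil_of_mem (Finset.mem_toList.2 (Finset.mem_univ y))
    · rw [FreeMonoid.toList_ofList]; exact Finset.nodup_toList _
    · rw [FreeMonoid.toList_ofList]; exact Finset.mem_toList.2 (Finset.mem_univ z)
  have h1 : (FreeMonoid.toList w).Perm (FreeMonoid.toList (FreeMonoid.map f u0)) := by
    rw [List.perm_iff_count]
    intro x
    rw [hw, count_map_mlw f hu0]
  have h2 : List.Forall₂ (fun a b => a = f b) (FreeMonoid.toList (FreeMonoid.map f u0))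
      (FreeMonoid.toList u0) := by
    rw [FreeMonoid.toList_map, List.forall₂_map_left_iff, List.forall₂_same]
    intro y _; rfl
  obtain ⟨l, hl1, hl2⟩ := List.perm_comp_forall₂ h1 h2
  refine ⟨FreeMonoid.ofList l, mlw_of_perm hu0 hl2.symm, ?_⟩
  apply FreeMonoid.toList.injective
  rw [FreeMonoid.toList_map, FreeMonoid.toList_ofList]
  clear hl2 h1 hw
  revert hl1
  generalize FreeMonoid.toList w = L
  intro hl1
  induction hl1 with
  | nil => rfl
  | cons h _ ih => rw [List.map_cons, ih, h]

end count

section main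

open Classical in
/-- The part of multidegree `d`. -/
noncomputable def comp {X : Type} (d : X → ℕ) (p : FA F X) : FA F X :=
  MonoidAlgebra.ofCoeff (p.coeff.filter fun w => ∀ x, (FreeMonoid.toList w).count x = d x)

open Classical in
theorem coeff_comp {X : Type} (d : X → ℕ) (p : FA F X) (w : FreeMonoid X) :
    (comp d p).coeff w = if ∀ x, (FreeMonoid.toList w).count x = d x then p.coeff w else 0 :=
  Finsupp.filter_apply _ _ _

open Classical in
theorem ren_theta {X : Type} [Fintype X] (d : X → ℕ) (hd : ∃ x, d x ≠ 0) (p : FA F X) :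
    ren Sigma.fst (theta d p) = (∏ x, ((d x).factorial : F)) • comp d p := by
  obtain ⟨x0, hx0⟩ := hd
  have : Nonempty (Σ x, Fin (d x)) := ⟨⟨x0, ⟨0, Nat.pos_of_ne_zero hx0⟩⟩⟩
  have hcard : ∀ x, Fintype.card {y : Σ x, Fin (d x) // y.1 = x} = d x := by
    intro x
    rw [Fintype.card_congr (Equiv.sigmaSubtype x), Fintype.card_fin]
  refine MonoidAlgebra.ext (Finsupp.ext fun w => ?_)
  rw [MonoidAlgebra.coeff_smul_apply, coeff_comp, theta_apply, map_sum,
    MonoidAlgebra.coeff_sum, Finsupp.finsetSum_apply]
  have h1 : ∀ u : FreeMonoid (Σ x, Fin (d x)),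
      (ren (F := F) Sigma.fst (p.coeff (FreeMonoid.map Sigma.fst u) • mon F u)).coeff w =
      if FreeMonoid.map Sigma.fst u = w then p.coeff w else 0 := by
    intro u
    rw [map_smul, ren_mon, MonoidAlgebra.coeff_smul_apply, mon, MonoidAlgebra.coeff_single,
      Finsupp.single_apply]
    split_ifs with h
    · rw [h, smul_eq_mul, mul_one]
    · rw [smul_zero]
  rw [Finset.sum_congr rfl fun u _ => h1 u, ← Finset.sum_filter, Finset.sum_const]
  split_ifs with hw
  · obtain ⟨u, hu, huw⟩ := exists_mlw_map (Sigma.fst : (Σ x, Fin (d x)) → X) w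
      (fun x => by rw [hw, hcard])
    have h2 := card_fiber (Sigma.fst : (Σ x, Fin (d x)) → X) hu
    rw [huw] at h2
    rw [h2, nsmul_eq_mul, smul_eq_mul, Nat.cast_prod]
    congr 1
    exact Finset.prod_congr rfl fun x _ => by rw [hcard]
  · have h2 : ((mlws (Σ x, Fin (d x))).filter fun u => FreeMonoid.map Sigma.fst u = w) = ∅ := by
      rw [Finset.filter_eq_empty_iff]
      intro u hu huw
      apply hw
      intro x
      rw [← huw, count_map_mlw _ (mem_mlws.1 hu), hcard]
    rw [h2, Finset.card_empty, zero_smul, smul_zero]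

theorem lin1 [CharZero F] {X : Type} [Fintype X] (d : X → ℕ) (hd : ∃ x, d x ≠ 0) :
    ∃ θ : FA F X →ₗ[F] FA F (Σ x, Fin (d x)),
      (∀ p, θ p ∈ ML F (Σ x, Fin (d x))) ∧
      (∀ (A : AssocAlg F) (p : FA F X), Sat A p → Sat A (θ p)) ∧
      ∀ p, ren Sigma.fst (θ p) = (∏ x, ((d x).factorial : F)) • comp d p :=
  ⟨theta d, theta_mem d, fun _ _ hp => sat_theta d hd hp, ren_theta d hd⟩

/-- The constant term of a polynomial is the scalar part of its values. -/
theorem ev_fst (A : AssocAlg F) {Z : Type} (v : Z → A.carrier) (p : FA F Z) :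
    (ev A v p).fst = p.coeff 1 := by
  classical
  induction p using FA_induction with
  | h0 => rw [map_zero]; rfl
  | ha p q hp hq =>
    rw [map_add, MonoidAlgebra.coeff_add, Finsupp.add_apply, Unitization.fst_add, hp, hq]
  | hs c w =>
    rw [map_smul, Unitization.fst_smul, MonoidAlgebra.coeff_smul_apply, ev_mon, mon,
      MonoidAlgebra.coeff_single, Finsupp.single_apply]
    congr 1
    by_cases hw : FreeMonoid.toList w = []
    · have h1 : w = 1 := FreeMonoid.toList.injective hw
      rw [if_pos h1, hw, List.map_nil, List.prod_nil, Unitization.fst_one]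
    · have h1 : w ≠ 1 := fun h => hw (by rw [h]; rfl)
      rw [if_neg h1]
      obtain ⟨a, ha⟩ := exists_inc_list_prod v (FreeMonoid.toList w) hw
      rw [ha]
      exact Unitization.fst_inr F a

theorem Sat.coeff_one {A : AssocAlg F} {Z : Type} {p : FA F Z} (hp : Sat A p) :
    p.coeff 1 = 0 := by
  rw [← ev_fst A (fun _ => 0) p, hp, Unitization.fst_zero]

open Classical in
/-- A polynomial is the sum of its multihomogeneous components. -/
theorem eq_sum_comp {X : Type} [Fintype X] (p : FA F X) :
    p = ∑ d ∈ p.coeff.support.image (fun w x => (FreeMonoid.toList w).count x), comp d p := by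
  refine MonoidAlgebra.ext (Finsupp.ext fun w => ?_)
  rw [MonoidAlgebra.coeff_sum, Finsupp.finsetSum_apply]
  simp only [coeff_comp]
  by_cases hw : p.coeff w = 0
  · rw [hw]
    simp
  · rw [Finset.sum_eq_single fun x => (FreeMonoid.toList w).count x]
    · rw [if_pos fun _ => rfl]
    · intro d _ hd
      rw [if_neg]
      intro h
      exact hd (funext fun x => (h x).symm)
    · intro h
      exact absurd (Finset.mem_image.2 ⟨w, Finsupp.mem_support_iff.2 hw, rfl⟩) h

theorem sat_comp [CharZero F] {A B : AssocAlg F} (h : IdLe A B) {X : Type} [Fintype X]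
    (d : X → ℕ) {p : FA F X} (hp : Sat A p) : Sat B (comp d p) := by
  classical
  by_cases hd : ∃ x, d x ≠ 0
  · have h1 : Sat B (theta d p) := h _ _ (theta_mem d p) (sat_theta d hd hp)
    have h2 := h1.ren Sigma.fst
    rw [ren_theta d hd] at h2
    refine h2.of_smul (Finset.prod_ne_zero_iff.2 fun x _ => ?_)
    exact Nat.cast_ne_zero.2 (Nat.factorial_ne_zero _)
  · push Not at hd
    have h1 : comp d p = 0 := by
      refine MonoidAlgebra.ext (Finsupp.ext fun w => ?_)
      rw [coeff_comp, MonoidAlgebra.coeff_zero, Finsupp.zero_apply]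
      split_ifs with hw
      · have h2 : w = 1 := by
          apply FreeMonoid.toList.injective
          rw [FreeMonoid.toList_one]
          refine List.eq_nil_iff_forall_not_mem.2 fun x hx => ?_
          have := hw x
          rw [hd x] at this
          exact List.count_eq_zero.1 this hx
        rw [h2, hp.coeff_one]
      · rfl
    rw [h1]
    exact Sat.zero

theorem lin2 [CharZero F] {A B : AssocAlg F} (h : IdLe A B) {X : Type} [Fintype X]
    (p : FA F X) (hp : Sat A p) : Sat B p := by
  classical
  rw [eq_sum_comp p]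
  exact Sat.sum fun d _ => sat_comp h d hp

end main

end Pool.Agent.KEM
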