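import Pool.Agent.KEM.StarCore
import Pool.Agent.KEM.Idx
import Pool.Agent.KEM.Det
import Pool.Agent.KEM.Abar
import Pool.Agent.KEM.ShiRow
import Pool.Agent.KEM.LIN

/-!
# Row Star
-/

universe u

namespace Pool.Agent.KEM.SR

open Pool.Agent.Helper29

variable {F : Type u} [Field F] {L : Type u} [Field L] [Algebra F L]

section W

variable {ι : Type} (Q : ι → Piece F L) (X : Type)

/-- The points. -/
abbrev Pt : Type u := X → ∀ i, (Q i).D.carrier

/-- The functions on the points with values in the product of the pieces. -/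
def WC : Type u := Pt Q X → ∀ i, (Q i).D.carrier

instance : NonUnitalRing (WC Q X) := inferInstanceAs (NonUnitalRing (Pt Q X → ∀ i, (Q i).D.carrier))

instance : Module F (WC Q X) := inferInstanceAs (Module F (Pt Q X → ∀ i, (Q i).D.carrier))

/-- The scalar functions. -/
abbrev KK : Type u := Pt Q X → ι → L

instance : Module (KK Q X) (WC Q X) where
  smul c w := fun pt i => c pt i • w pt i
  one_smul w := by
    funext pt i
    exact one_smul L _
  mul_smul c c' w := by
    funext pt i
    exact mul_smul (c pt i) (c' pt i) (w pt i)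
  smul_zero c := by
    funext pt i
    exact smul_zero (c pt i)
  smul_add c w w' := by
    funext pt i
    exact smul_add (c pt i) (w pt i) (w' pt i)
  add_smul c c' w := by
    funext pt i
    exact add_smul (c pt i) (c' pt i) (w pt i)
  zero_smul w := by
    funext pt i
    exact zero_smul L _

theorem KK_smul_apply (c : KK Q X) (w : WC Q X) (pt : Pt Q X) (i : ι) :
    (c • w) pt i = c pt i • w pt i := rfl

/-- The algebra of functions. -/
def WA : AssocAlg F where
  carrier := WC Q X
  smul_mul r a b := by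
    funext pt i
    exact (Q i).D.smul_mul r (a pt i) (b pt i)
  mul_smul r a b := by
    funext pt i
    exact (Q i).D.mul_smul r (a pt i) (b pt i)

instance : Module (KK Q X) (WA Q X).carrier := inferInstanceAs (Module (KK Q X) (WC Q X))

instance : IsScalarTower F (KK Q X) (WA Q X).carrier := ⟨fun r c w => by
  funext pt i
  have := (Q i).fo.tower
  exact smul_assoc r (c pt i) ((w : WC Q X) pt i)⟩

instance : IsScalarTower (KK Q X) (WA Q X).carrier (WA Q X).carrier := ⟨fun c w w' => by
  funext pt i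
  have := (Q i).fo.smul_mul
  exact smul_mul_assoc (c pt i) ((w : WC Q X) pt i) ((w' : WC Q X) pt i)⟩

instance : SMulCommClass (KK Q X) (WA Q X).carrier (WA Q X).carrier := ⟨fun c w w' => by
  funext pt i
  have := (Q i).fo.comm
  exact (mul_smul_comm (c pt i) ((w : WC Q X) pt i) ((w' : WC Q X) pt i)).symm⟩

/-- The generic elements. -/
def gx (x : X) : (WA Q X).carrier := fun pt => pt x

/-- Evaluation at a point and a component. -/
def evp (pt : Pt Q X) (i : ι) : (WA Q X).carrier →ₙₐ[F] (Q i).D.carrier where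
  toFun w := (w : WC Q X) pt i
  map_add' _ _ := rfl
  map_zero' := rfl
  map_smul' _ _ := rfl
  map_mul' _ _ := rfl

theorem evs_gx (r : FA F X) (pt : Pt Q X) (i : ι) :
    (evs (WA Q X) (gx Q X) r : WC Q X) pt i = evs (Q i).D (fun x => pt x i) r := by
  have := evs_map (evp Q X pt i) (gx Q X) r
  exact this.symm

theorem sat_WA {Z : Type} {p : FA F Z} (h0 : aug p = 0) (h : ∀ i, Sat (Q i).D p) :
    Sat (WA Q X) p := by
  intro v
  rw [ev_eq_zero_iff]
  refine ⟨h0, ?_⟩
  funext pt i
  have h1 := evs_map (evp Q X pt i) v p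
  have h2 := h i (fun z => evp Q X pt i (v z))
  rw [ev_eq_zero_iff] at h2
  rw [h2.2] at h1
  exact h1.symm

theorem sat_of_WA {Z : Type} {p : FA F Z} (h : Sat (WA Q X) p) (i : ι) : Sat (Q i).D p := by
  classical
  refine sat_of_surjective (evp Q X (fun _ _ => 0) i) ?_ h
  intro d
  refine ⟨fun _ => Pi.single i d, ?_⟩
  change (Pi.single i d : ∀ i, (Q i).D.carrier) i = d
  rw [Pi.single_eq_same]

theorem sat_of_gx {r : FA F X} (h : ev (WA Q X) (gx Q X) r = 0) : Sat (WA Q X) r := by
  intro v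
  rw [ev_eq_zero_iff] at h ⊢
  refine ⟨h.1, ?_⟩
  funext pt i
  have h1 := evs_map (evp Q X pt i) v r
  have h2 := evs_gx Q X r (fun x => (v x : WC Q X) pt) i
  rw [h.2] at h2
  change evp Q X pt i (evs (WA Q X) v r) = 0
  rw [← h1]
  exact h2.symm

end W

theorem chc_zero {S : Type u} [Ring S] [Algebra L S] [Module.Finite L S] (s : S) :
    chc (L := L) 0 s = 1 := by
  unfold chc
  rw [dif_pos (inferInstance : Module.Finite L S), if_pos (Nat.zero_le _), pow_zero, one_mul,
    Nat.sub_zero]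
  have h := LinearMap.charpoly_monic (LinearMap.mulLeft L s)
  have h2 := LinearMap.charpoly_natDegree (LinearMap.mulLeft L s)
  rw [← h2]
  exact h

section stab

/-- The linear map `y ↦ α y β`. -/
theorem sandwich_sum {A : AssocAlg F} (α β : U A) {J : Type*} (s : Finset J)
    (y : J → A.carrier) :
    (α * inc A (∑ j ∈ s, y j) * β).snd = ∑ j ∈ s, (α * inc A (y j) * β).snd := by
  classical
  induction s using Finset.induction_on with
  | empty =>
    rw [Finset.sum_empty, Finset.sum_empty]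
    have : inc A (0 : A.carrier) = 0 := rfl
    rw [this, mul_zero, zero_mul]
    rfl
  | insert a s ha ih => rw [Finset.sum_insert ha, Finset.sum_insert ha, snd_sandwich_add, ih]

theorem piece_stab [CharZero F] (Q : Piece F L) {s0 n b g : ℕ} (h1 : Q.dim ≤ b)
    (h2 : Q.dim < b → Van Q.D s0 b g) (h3 : Q.dim = b → Q.Dep s0 b g) (hn : s0 ≤ n)
    {Z : Type} [Fintype Z] [DecidableEq Z] {f : FA F Z} (hf : f ∈ ML F Z)
    {c : Z → Option (Fin n ⊕ Fin g)} (ht : Typed f n b g c) (i0 : Fin n) {X : Type}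
    (η : X → Q.D.carrier) (α γ : FA F X) (s : Z → FA F X) (hs : ∀ z, aug (s z) = 0)
    (w : List X) (hw : w ≠ []) (k : ℕ) :
    evs Q.D η (∑ T ∈ Finset.powersetCard k (Finset.univ.filter fun z => c z = some (Sum.inl i0)),
      α * sbst (fun z => if z ∈ T then mon F (FreeMonoid.ofList w) * s z else s z) f * γ) =
    chc (L := L) k (Q.π (wval η w)) • evs Q.D η (α * sbst s f * γ) := by
  have i1 := Q.fo.tower
  have i2 := Q.fo.smul_mul
  have i3 := Q.fo.comm
  have e1 : ∀ T : Finset Z,
      evs Q.D η (α * sbst (fun z => if z ∈ T then mon F (FreeMonoid.ofList w) * s z else s z) f * γ) =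
      (ev Q.D η α * inc Q.D (evs Q.D (fun z => if z ∈ T then wval η w * evs Q.D η (s z)
        else evs Q.D η (s z)) f) * ev Q.D η γ).snd := by
    intro T
    have e0 : ∀ r : FA F X, evs Q.D η r = (ev Q.D η r).snd := fun r => rfl
    rw [e0, map_mul, map_mul, ev_sbst Q.D _ η (fun z => if z ∈ T then wval η w * evs Q.D η (s z)
        else evs Q.D η (s z)) ?_ f, ev_eq Q.D _ (ML_aug hf)]
    · intro z
      by_cases hz : z ∈ T
      · rw [if_pos hz, if_pos hz, map_mul, ev_list Q.D η w hw, ev_eq Q.D η (hs z)]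
        exact (Unitization.inr_mul F _ _).symm
      · rw [if_neg hz, if_neg hz, ev_eq Q.D η (hs z)]
  have e2 : evs Q.D η (α * sbst s f * γ) =
      (ev Q.D η α * inc Q.D (evs Q.D (fun z => evs Q.D η (s z)) f) * ev Q.D η γ).snd := by
    have := e1 ∅
    simpa using this
  rw [← evl_apply, map_sum]
  simp only [evl_apply]
  rw [Finset.sum_congr rfl fun T _ => e1 T, ← sandwich_sum, e2, ← snd_sandwich_smul]
  congr 4
  refine congrArg (inc Q.D) ?_
  rcases lt_or_eq_of_le h1 with h | h
  · have hv : Sat Q.D f := (van_mono (h2 h) hn le_rfl) Z f c hf ht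
    have h0 : ∀ v : Z → Q.D.carrier, evs Q.D v f = 0 := fun v => by
      have := hv v
      rw [ev_eq_zero_iff] at this
      exact this.2
    rw [h0, smul_zero]
    exact Finset.sum_eq_zero fun T _ => h0 _
  · exact row_det Q h (h3 h) hn hf ht i0 _ _ k

end stab

/-! ### The relation between powers -/

section power

/-- `w^j` for a word `w`. -/
abbrev rw' {X : Type} (w : List X) (j : ℕ) : List X := (List.replicate j w).flatten

theorem rw'_ne {X : Type} {w : List X} (hw : w ≠ []) {j : ℕ} (hj : j ≠ 0) : rw' w j ≠ [] := by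
  obtain ⟨j, rfl⟩ := Nat.exists_eq_succ_of_ne_zero hj
  unfold rw'
  rw [List.replicate_succ, List.flatten_cons]
  simp [hw]

theorem wval_pow {X : Type} {T : Type*} [NonUnitalRing T] (x : X → T) {w : List X} (hw : w ≠ [])
    (j : ℕ) : wval x (rw' w (j + 2)) = wval x w * wval x (rw' w (j + 1)) := by
  have : rw' w (j + 2) = w ++ rw' w (j + 1) := by
    unfold rw'
    rw [List.replicate_succ, List.flatten_cons]
  rw [this, wval_append x hw (rw'_ne hw (Nat.succ_ne_zero j))]

theorem wval_one {X : Type} {T : Type*} [NonUnitalRing T] (x : X → T) (w : List X) :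
    wval x (rw' w 1) = wval x w := by
  unfold rw'
  rw [List.replicate_one, List.flatten_singleton]

/-- the values of powers of words in a homomorphic image which is unital -/
theorem map_wval_pow {X : Type} {T S : Type*} [NonUnitalRing T] [Ring S] (x : X → T) (f : T → S)
    (hf : ∀ a b, f (a * b) = f a * f b) {w : List X} (hw : w ≠ []) (j : ℕ) :
    f (wval x (rw' w (j + 1))) = f (wval x w) ^ (j + 1) := by
  induction j with
  | zero => rw [zero_add, wval_one, pow_one]
  | succ j ih => rw [wval_pow x hw, hf, ih, pow_succ' (f (wval x w)) (j + 1)]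

theorem nprod_const_zero {T : Type u} [NonUnitalRing T] {y : T} {m : ℕ}
    (h : nprod (fun _ : Fin (m + 1) => y) = 0) {m' : ℕ} (hm : m ≤ m') :
    nprod (fun _ : Fin (m' + 1) => y) = 0 := by
  induction m', hm using Nat.le_induction with
  | base => exact h
  | succ m' _ ih =>
    change nprod (fun _ : Fin (m' + 1) => y) * y = 0
    rw [ih, zero_mul]

theorem inr_pow {R T : Type u} [CommRing R] [NonUnitalRing T] [Module R T] [IsScalarTower R T T]
    [SMulCommClass R T T] (y : T) (m : ℕ) :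
    (Unitization.inr y : Unitization R T) ^ (m + 1) =
      Unitization.inr (nprod (fun _ : Fin (m + 1) => y)) := by
  induction m with
  | zero => exact pow_one _
  | succ m ih =>
    rw [pow_succ, ih, ← Unitization.inr_mul]
    rfl

open Polynomial in
theorem power_rel {C T : Type u} [CommRing C] [NonUnitalRing T] [Module C T] [IsScalarTower C T T]
    [SMulCommClass C T T] {V : Type} (x : V → T) {w : List V} (hw : w ≠ []) (b m : ℕ)
    (κ : ℕ → C) (h0 : κ 0 = 1)
    (hy : nprod (fun _ : Fin (m + 1) =>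
      ∑ k ∈ Finset.range (b + 1), ((-1) ^ k * κ k) • wval x (rw' w (b + 1 - k))) = 0) :
    wval x (rw' w ((b + 1) * (m + 1))) ∈
      Submodule.span C {s | ∃ k, 1 ≤ k ∧ k < (b + 1) * (m + 1) ∧ s = wval x (rw' w k)} := by
  cases subsingleton_or_nontrivial C with
  | inl hC =>
    have := Module.subsingleton C T
    rw [Subsingleton.elim (wval x (rw' w ((b + 1) * (m + 1)))) 0]
    exact Submodule.zero_mem _
  | inr hC =>
  set a : Unitization C T := Unitization.inr (wval x w) with ha
  have hpow : ∀ j : ℕ, a ^ (j + 1) = Unitization.inr (wval x (rw' w (j + 1))) := by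
    intro j
    exact (map_wval_pow x (fun t => (Unitization.inr t : Unitization C T))
      (fun s t => Unitization.inr_mul C s t) hw j).symm
  let χ : C[X] := X ^ (b + 1) + ∑ k ∈ Finset.range b, Polynomial.C ((-1) ^ (k + 1) * κ (k + 1)) *
    X ^ (b - k)
  have hdeg : degree (∑ k ∈ Finset.range b, Polynomial.C ((-1) ^ (k + 1) * κ (k + 1)) *
    X ^ (b - k)) ≤ b := by
    refine (degree_sum_le _ _).trans (Finset.sup_le fun k _ => ?_)
    refine (degree_C_mul_X_pow_le _ _).trans ?_
    exact_mod_cast Nat.sub_le b k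
  have hdeg' : degree (∑ k ∈ Finset.range b, Polynomial.C ((-1) ^ (k + 1) * κ (k + 1)) *
      X ^ (b - k)) < (b + 1 : ℕ) := lt_of_le_of_lt hdeg (by exact_mod_cast Nat.lt_succ_self b)
  have hmon : χ.Monic := monic_X_pow_add (n := b + 1) hdeg'
  have hnat : χ.natDegree = b + 1 := by
    refine natDegree_eq_of_degree_eq_some ?_
    rw [degree_add_eq_left_of_degree_lt (by rw [degree_X_pow]; exact hdeg'), degree_X_pow]
  have hχ0 : χ.coeff 0 = 0 := by
    rw [coeff_zero_eq_eval_zero]
    simp only [χ, eval_add, eval_pow, eval_X, eval_finset_sum, eval_mul, eval_C]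
    rw [zero_pow (Nat.succ_ne_zero b), zero_add]
    refine Finset.sum_eq_zero fun k hk => ?_
    rw [zero_pow (Nat.sub_ne_zero_of_lt (Finset.mem_range.1 hk)), mul_zero]
  have haev : aeval a χ = Unitization.inr (∑ k ∈ Finset.range (b + 1), ((-1) ^ k * κ k) •
      wval x (rw' w (b + 1 - k))) := by
    simp only [χ, map_add, map_pow, aeval_X, map_sum, map_mul, aeval_C]
    have hinr : ∀ (s : Finset ℕ) (f : ℕ → T), (Unitization.inr (∑ k ∈ s, f k) : Unitization C T) =
        ∑ k ∈ s, Unitization.inr (f k) := fun s f => map_sum (Unitization.inrHom C C T) f s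
    rw [Finset.sum_range_succ', Unitization.inr_add, pow_zero, one_mul, h0, one_smul, Nat.sub_zero,
      ← hpow, hinr, add_comm]
    congr 1
    refine Finset.sum_congr rfl fun k hk => ?_
    have hk' := Finset.mem_range.1 hk
    obtain ⟨j, hj⟩ : ∃ j, b - k = j + 1 := ⟨b - k - 1, by omega⟩
    have hj' : b + 1 - (k + 1) = j + 1 := by omega
    rw [hj, hj', hpow, Unitization.inr_smul C, Algebra.smul_def, map_mul, map_pow]
  have hz : aeval a (χ ^ (m + 1)) = 0 := by
    rw [map_pow, haev, inr_pow, hy]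
    rfl
  have hmon2 : (χ ^ (m + 1)).Monic := hmon.pow _
  have hnat2 : (χ ^ (m + 1)).natDegree = (b + 1) * (m + 1) := by
    rw [hmon.natDegree_pow, hnat, mul_comm]
  have hc0 : (χ ^ (m + 1)).coeff 0 = 0 := by
    rw [coeff_zero_eq_eval_zero, eval_pow, ← coeff_zero_eq_eval_zero, hχ0,
      zero_pow (Nat.succ_ne_zero m)]
  have hsum := hmon2.as_sum
  rw [hsum, map_add, map_pow, aeval_X, map_sum, hnat2] at hz
  obtain ⟨N, hN⟩ : ∃ N, (b + 1) * (m + 1) = N + 1 :=
    ⟨(b + 1) * (m + 1) - 1,
      (Nat.succ_pred_eq_of_pos (Nat.mul_pos (Nat.succ_pos b) (Nat.succ_pos m))).symm⟩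
  rw [hN] at hz ⊢
  rw [Finset.sum_range_succ', hpow] at hz
  have h1 : ∀ i ∈ Finset.range N, (aeval a) (Polynomial.C ((χ ^ (m + 1)).coeff (i + 1)) *
      X ^ (i + 1)) = Unitization.inr ((χ ^ (m + 1)).coeff (i + 1) • wval x (rw' w (i + 1))) := by
    intro i _
    rw [map_mul, aeval_C, map_pow, aeval_X, hpow, Unitization.inr_smul, Algebra.smul_def]
  have hinr : ∀ (s : Finset ℕ) (f : ℕ → T), (Unitization.inr (∑ k ∈ s, f k) : Unitization C T) =
      ∑ k ∈ s, Unitization.inr (f k) := fun s f => map_sum (Unitization.inrHom C C T) f s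
  rw [Finset.sum_congr rfl h1, hc0, Polynomial.C_0, zero_mul, map_zero, add_zero, ← hinr,
    ← Unitization.inr_add] at hz
  have h2 := congrArg (fun t : Unitization C T => t.snd) hz
  simp only [Unitization.snd_inr, Unitization.snd_zero] at h2
  rw [eq_neg_of_add_eq_zero_left h2]
  refine Submodule.neg_mem _ (Submodule.sum_mem _ fun i hi => Submodule.smul_mem _ _
    (Submodule.subset_span ⟨i + 1, Nat.le_add_left 1 i, ?_, rfl⟩))
  have := Finset.mem_range.1 hi
  omega

end power

theorem map_wval {X : Type} {T S : Type*} [NonUnitalRing T] [NonUnitalRing S] (x : X → T)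
    (f : T → S) (hf : ∀ a b, f (a * b) = f a * f b) {w : List X} (hw : w ≠ []) :
    f (wval x w) = wval (fun y => f (x y)) w := by
  induction w with
  | nil => exact absurd rfl hw
  | cons a l ih =>
    by_cases hl : l = []
    · subst hl
      rfl
    · rw [wval_cons x a hl, wval_cons _ a hl, hf, ih hl]

theorem map_nprod {T S : Type u} [Mul T] [Mul S] (f : T → S)
    (hf : ∀ a b, f (a * b) = f a * f b) {m : ℕ} (y : Fin (m + 1) → T) :
    f (nprod y) = nprod fun i => f (y i) := by
  induction m with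
  | zero => rfl
  | succ m ih =>
    change f (nprod (fun i => y i.castSucc) * y (Fin.last _)) = _
    rw [hf, ih]
    rfl

section final

variable {ι : Type} (Q : ι → Piece F L) (X : Type)

/-- The coefficient functions. -/
noncomputable def kap (w : List X) (k : ℕ) : KK Q X := fun pt i =>
  chc (L := L) k ((Q i).π (wval (fun x => pt x i) w))

/-- The set of coefficient functions. -/
def GG (b N : ℕ) : Set (KK Q X) :=
  {c | ∃ (w : List X) (k : ℕ), w ≠ [] ∧ w.length ≤ N ∧ k ≤ b ∧ c = kap Q X w k}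

theorem GG_finite [Finite X] (b N : ℕ) : (GG Q X b N).Finite := by
  have h1 : {l : List X | l.length ≤ N}.Finite := List.finite_length_le X N
  have h2 : {k : ℕ | k ≤ b}.Finite := Set.finite_le_nat b
  refine ((h1.prod h2).image (fun q => kap Q X q.1 q.2)).subset ?_
  rintro c ⟨w, k, -, hw, hk, rfl⟩
  exact ⟨(w, k), ⟨hw, hk⟩, rfl⟩

theorem wval_gx {w : List X} (hw : w ≠ []) (pt : Pt Q X) (i : ι) :
    (wval (gx Q X) w : WC Q X) pt i = wval (fun x => pt x i) w :=
  map_wval (gx Q X) (fun y : WC Q X => y pt i) (fun _ _ => rfl) hw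

variable {Q X} in
theorem piece_pi (i : ι) {b : ℕ} (hb : (Q i).dim ≤ b) (η : X → (Q i).D.carrier) {w : List X}
    (hw : w ≠ []) : (Q i).π (∑ k ∈ Finset.range (b + 1),
      ((-1) ^ k * chc (L := L) k ((Q i).π (wval η w))) • wval η (rw' w (b + 1 - k))) = 0 := by
  have := (Q i).finS
  have hsum : ∀ (s : Finset ℕ) (f : ℕ → (Q i).D.carrier),
      (Q i).π (∑ k ∈ s, f k) = ∑ k ∈ s, (Q i).π (f k) := by
    intro s f
    let φ : (Q i).D.carrier →+ (Q i).S := AddMonoidHom.mk' (Q i).π (Q i).π_add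
    exact map_sum φ f s
  rw [hsum]
  have h1 : ∀ k ∈ Finset.range (b + 1), (Q i).π (((-1) ^ k * chc (L := L) k ((Q i).π (wval η w))) •
      wval η (rw' w (b + 1 - k))) = (Q i).π (wval η w) *
        (((-1) ^ k * chc (L := L) k ((Q i).π (wval η w))) • (Q i).π (wval η w) ^ (b - k)) := by
    intro k hk
    have hk' := Finset.mem_range.1 hk
    have : b + 1 - k = (b - k) + 1 := by omega
    rw [(Q i).π_smul, this, map_wval_pow η (Q i).π (Q i).π_mul hw, pow_succ', mul_smul_comm]
  rw [Finset.sum_congr rfl h1, ← Finset.mul_sum, row_chc hb, mul_zero]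

/-- The polynomials of type `(n; b, g)` that are identities of `R`. -/
def PP (R : AssocAlg F) (n b g : ℕ) (Z : Type) : Set (FA F Z) :=
  {f | f ∈ ML F Z ∧ Sat R f ∧ ∃ (_ : Fintype Z) (_ : DecidableEq Z)
    (c : Z → Option (Fin n ⊕ Fin g)), Typed f n b g c}

theorem stab [CharZero F] {R : AssocAlg F} {s0 n b g N : ℕ} (hQ : ∀ i, (Q i).dim ≤ b ∧
    ((Q i).dim < b → Van (Q i).D s0 b g) ∧ ((Q i).dim = b → (Q i).Dep s0 b g)) (hn : s0 ≤ n)
    (hn0 : 0 < n) (c : Algebra.adjoin F (GG Q X b N)) :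
    ∀ r ∈ JJ (PP R n b g) X, ∃ r' ∈ JJ (PP R n b g) X,
      evs (WA Q X) (gx Q X) r' = c • evs (WA Q X) (gx Q X) r := by
  obtain ⟨c, hc⟩ := c
  change ∀ r ∈ JJ (PP R n b g) X, ∃ r' ∈ JJ (PP R n b g) X,
      evs (WA Q X) (gx Q X) r' = c • evs (WA Q X) (gx Q X) r
  induction hc using Algebra.adjoin_induction with
  | mem c h =>
    obtain ⟨w, k, hw, -, -, rfl⟩ := h
    intro r hr
    unfold JJ at hr
    induction hr using Submodule.span_induction with
    | mem r h =>
      obtain ⟨Z, f, s, α, γ, ⟨hf, hfR, i1, i2, c, ht⟩, hs, rfl⟩ := h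
      refine ⟨∑ T ∈ Finset.powersetCard k (Finset.univ.filter fun z =>
        c z = some (Sum.inl (⟨0, hn0⟩ : Fin n))),
        α * sbst (fun z => if z ∈ T then mon F (FreeMonoid.ofList w) * s z else s z) f * γ,
        Submodule.sum_mem _ fun T _ => Submodule.subset_span
          ⟨Z, f, _, α, γ, ⟨hf, hfR, i1, i2, c, ht⟩, fun z => ?_, rfl⟩, ?_⟩
      · by_cases hz : z ∈ T
        · rw [if_pos hz, map_mul, hs, mul_zero]
        · rw [if_neg hz, hs]
      · funext pt i
        rw [evs_gx, piece_stab (Q i) (hQ i).1 (hQ i).2.1 (hQ i).2.2 hn hf ht ⟨0, hn0⟩ _ α γ s hs w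
          hw k]
        change _ = kap Q X w k pt i • (evs (WA Q X) (gx Q X) (α * sbst s f * γ) : WC Q X) pt i
        rw [evs_gx]
        rfl
    | zero =>
      refine ⟨0, Submodule.zero_mem _, ?_⟩
      rw [← evl_apply, map_zero, smul_zero]
    | add p q _ _ hp hq =>
      obtain ⟨p', hp', h1⟩ := hp
      obtain ⟨q', hq', h2⟩ := hq
      refine ⟨p' + q', Submodule.add_mem _ hp' hq', ?_⟩
      rw [← evl_apply, ← evl_apply, map_add, map_add, smul_add, evl_apply, evl_apply, evl_apply,
        evl_apply, h1, h2]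
    | smul t p _ hp =>
      obtain ⟨p', hp', h1⟩ := hp
      refine ⟨t • p', Submodule.smul_mem _ _ hp', ?_⟩
      rw [← evl_apply, ← evl_apply, map_smul, map_smul, evl_apply, evl_apply, h1, smul_comm]
  | algebraMap t =>
    intro r hr
    refine ⟨t • r, Submodule.smul_mem _ _ hr, ?_⟩
    rw [← evl_apply, map_smul, evl_apply, algebraMap_smul]
  | add c c' _ _ h h' =>
    intro r hr
    obtain ⟨p, hp, h1⟩ := h r hr
    obtain ⟨q, hq, h2⟩ := h' r hr
    refine ⟨p + q, Submodule.add_mem _ hp hq, ?_⟩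
    rw [← evl_apply, map_add, evl_apply, evl_apply, h1, h2, add_smul]
  | mul c c' _ _ h h' =>
    intro r hr
    obtain ⟨q, hq, h2⟩ := h' r hr
    obtain ⟨p, hp, h1⟩ := h q hq
    exact ⟨p, hp, by rw [h1, h2, mul_smul]⟩

end final

end Pool.Agent.KEM.SR

namespace Pool.Agent.KEM

open Pool.Agent.Helper29 SR

variable {F : Type u} [Field F]

theorem star [CharZero F] {R A : AssocAlg F} (hR : FG R) (hA : IsFD A) (hle : IdLe A R)
    {b g : ℕ} (hi : HasIndex A b g) :
    ∃ s0, ∀ n, s0 ≤ n → ∃ B : AssocAlg F, CFin B ∧ IdLe A B ∧ IdLe B R ∧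
      ∀ (Z : Type) [Fintype Z] [DecidableEq Z] (p : FA F Z) (c : Z → Option (Fin n ⊕ Fin g)),
        p ∈ ML F Z → Typed p n b g c → Sat R p → Sat B p := by
  obtain ⟨⟨d, p0, hp0, hc0, hs0⟩, -⟩ := fd_pi hA
  obtain ⟨L, fL, aL, algL, mL, hA'⟩ := hA
  obtain ⟨s0, ι, fι, Q, hQ, hQ'⟩ := abar hA' hi
  obtain ⟨X, fX, x, hx⟩ := hR
  have hPI : PIdeg (WA Q X) d :=
    ⟨p0, hp0, hc0, sat_WA Q X (ML_aug hp0) fun i => (hQ _ _ hp0).1 hs0 i⟩
  let m : ℕ := ∑ i, (Q i).s
  have hm : ∀ i, (Q i).s ≤ m := fun i =>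
    Finset.single_le_sum (f := fun i => (Q i).s) (fun _ _ => Nat.zero_le _) (Finset.mem_univ i)
  obtain ⟨N, hN⟩ := shi2_row (F := F) (Fintype.card X) d ((b + 1) * (m + 1))
    (Nat.mul_pos (Nat.succ_pos b) (Nat.succ_pos m))
  refine ⟨max s0 1, fun n hn => ?_⟩
  have hn1 : s0 ≤ n := le_trans (le_max_left _ _) hn
  have hn2 : 0 < n := lt_of_lt_of_le Nat.one_pos (le_trans (le_max_right _ _) hn)
  have t1 : IsScalarTower F (Algebra.adjoin F (GG Q X b N)) (WA Q X).carrier := ⟨fun r c w => by
    change (r • (c : KK Q X)) • w = r • (c : KK Q X) • w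
    rw [smul_assoc]⟩
  have t2 : IsScalarTower (Algebra.adjoin F (GG Q X b N)) (WA Q X).carrier (WA Q X).carrier :=
    ⟨fun c w w' => smul_mul_assoc (c : KK Q X) w w'⟩
  have t3 : SMulCommClass (Algebra.adjoin F (GG Q X b N)) (WA Q X).carrier (WA Q X).carrier :=
    ⟨fun c w w' => (mul_smul_comm (c : KK Q X) w w').symm⟩
  have hspan := hN (WA Q X) (Algebra.adjoin F (GG Q X b N)) X (gx Q X) rfl hPI (by
    intro w hw hl
    refine power_rel (gx Q X) hw b m (fun k => if h : k ≤ b then ⟨kap Q X w k,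
      Algebra.mem_adjoin_of_mem ⟨w, k, hw, hl, h, rfl⟩⟩ else 0) ?_ ?_
    · rw [dif_pos (Nat.zero_le b)]
      refine Subtype.ext ?_
      funext pt i
      have := (Q i).finS
      exact chc_zero _
    · funext pt i
      refine (map_nprod (fun y : WC Q X => y pt i) (fun _ _ => rfl) _).trans ?_
      refine nprod_const_zero ((Q i).nil _ fun _ => ?_) (hm i)
      have h1 := piece_pi i (hQ' i).1 (fun x => pt x i) hw
      rw [← h1]
      refine congrArg (Q i).π ?_
      change evp Q X pt i (∑ k ∈ Finset.range (b + 1), _) = _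
      rw [map_sum]
      refine Finset.sum_congr rfl fun k hk => ?_
      have hk' := Nat.lt_succ_iff.1 (Finset.mem_range.1 hk)
      rw [dif_pos hk', ← wval_gx Q X (rw'_ne hw (by omega))]
      rfl)
  have hfin : Module.Finite (Algebra.adjoin F (GG Q X b N))
      (MW (Algebra.adjoin F (GG Q X b N)) (gx Q X)) := by
    have h1 : MW (Algebra.adjoin F (GG Q X b N)) (gx Q X) =
        Submodule.span (Algebra.adjoin F (GG Q X b N))
          {s | ∃ u : List X, u ≠ [] ∧ u.length < N ∧ s = wval (gx Q X) u} := by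
      refine le_antisymm ?_ ?_
      · refine Submodule.span_le.2 ?_
        rintro _ ⟨w, hw, rfl⟩
        exact hspan w hw
      · refine Submodule.span_mono ?_
        rintro _ ⟨w, hw, -, rfl⟩
        exact ⟨w, hw, rfl⟩
    rw [Module.Finite.iff_fg, h1]
    refine Submodule.fg_span (((List.finite_length_le X N).image (wval (gx Q X))).subset ?_)
    rintro _ ⟨w, -, hw, rfl⟩
    exact ⟨w, hw.le, rfl⟩
  have hWR : IdLe (WA Q X) R := by
    intro Z p hp hW
    rcases ML_finite hp with rfl | hZ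
    · exact fun v => map_zero _
    · have := Fintype.ofFinite Z
      exact hle Z p hp ((hQ Z p hp).2 fun i => sat_of_WA Q X hW i)
  have hft : Algebra.FiniteType F (Algebra.adjoin F (GG Q X b N)) := by
    rw [← Subalgebra.fg_iff_finiteType]
    exact Subalgebra.fg_def.2 ⟨_, GG_finite Q X b N, rfl⟩
  obtain ⟨B, h1, h2, h3, h4⟩ := star_core (C := Algebra.adjoin F (GG Q X b N)) hx (gx Q X)
    (fun r h => lin2 hWR r (sat_of_gx Q X h) x) (PP R n b g) (fun _ _ h => h.1)
    (fun _ _ h => h.2.1) (stab Q X hQ' hn1 hn2) hfin hft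
  refine ⟨B, h1, ?_, h3, ?_⟩
  · intro Z p hp hpA
    rcases ML_finite hp with rfl | hZ
    · exact fun v => map_zero _
    · have := Fintype.ofFinite Z
      exact h2 Z p (sat_WA Q X (ML_aug hp) fun i => (hQ _ _ hp).1 hpA i)
  · intro Z i1 i2 p c hp ht hpR
    exact h4 Z p ⟨hp, hpR, i1, i2, c, ht⟩

end Pool.Agent.KEM
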