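import Pool.Agent.KEM.Main2
import Pool.Agent.KEM.Star

/-!
Row Main (MP_1a662b_al): the identities of a finitely generated PI algebra follow from those of
finitely many algebras that are finite over a finitely generated commutative algebra.
-/

universe u

namespace Pool.Agent.KEM

open Pool.Agent.Helper29

variable {F : Type u} [Field F]

theorem Main.starStmt [CharZero F] : Main.StarStmt F :=
  fun _ _ hR hA hle _ _ hi => star hR hA hle hi

theorem main [CharZero F] {R : AssocAlg F} (hR : FG R) (hpi : PI R) :
    ∃ l : List (AssocAlg F), (∀ B ∈ l, CFin B ∧ IdLe R B) ∧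
      ∀ (Z : Type) [Fintype Z] (p : FA F Z), p ∈ ML F Z → (∀ B ∈ l, Sat B p) → Sat R p :=
  Main.row_main_of_star Main.starStmt hR hpi

end Pool.Agent.KEM
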