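import Pool.Agent.KEM.Defs
import Pool.Agent.Helper29.SuperAss

/-!
# Rows VarR and Gen2: purely even free superalgebras; finitely many finite-dimensional algebras
-/

universe u

namespace Pool.Agent.KEM

open Pool.Agent.Helper29

variable {F : Type u} [Field F]

/-- On a purely even superalgebra the superizations of `f` vanish when `f` is an identity. -/
theorem svanish_even (A : SuperAlg F) (h0 : A.part 0 = ⊤) (h1 : A.part 1 = ⊥) (f : MLPoly F) :
    A.SVanish f ↔ A.toAssocAlg.Satisfies f := by
  have key : ∀ a : Fin (f.n + 1) → A.carrier,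
      evalML A.carrier (skoef f (fun _ => 0)) a = ∑ σ, f.coeff σ • nprod (fun i => a (σ i)) := by
    intro a
    rw [evalML_apply]
    refine Finset.sum_congr rfl (fun σ _ => ?_)
    rw [skoef, koszul_zero, mul_one]
  constructor
  · intro h a
    rw [← key]
    exact h (fun _ => 0) a (fun i => by rw [h0]; trivial)
  · intro h ε a ha
    by_cases hε : ∀ i, ε i = 0
    · have : ε = fun _ => 0 := funext hε
      subst this
      rw [key]
      exact h a
    · push Not at hε
      obtain ⟨i, hi⟩ := hε
      have hi1 : ε i = 1 := by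
        generalize ε i = y at hi
        revert y
        decide
      have h2 := ha i
      rw [hi1, h1, Submodule.mem_bot] at h2
      exact (evalML A.carrier (skoef f ε)).map_coord_zero i h2

theorem svanish_triv (A : AssocAlg F) (f : MLPoly F) : A.triv.SVanish f ↔ A.Satisfies f := by
  refine svanish_even A.triv ?_ ?_ f
  · show (if (0 : ZMod 2) = 0 then (⊤ : Submodule F A.carrier) else ⊥) = ⊤
    rw [if_pos rfl]
  · show (if (1 : ZMod 2) = 0 then (⊤ : Submodule F A.carrier) else ⊥) = ⊥
    rw [if_neg (by decide)]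

/-! ### Row Gen2 -/

theorem exists_bound_fd [CharZero F] {R : AssocAlg F} {A : AssocAlg F} (hA : IsFD A)
    (hV : A ∈ var {R}) : ∃ N, ∀ f : MLPoly F, ¬ A.Satisfies f → ∀ s, N ≤ s →
      ¬ (freeSuper (var {R}) 2 s).SVanish f := by
  obtain ⟨L, _, _, _, hmod, hfin⟩ := hA
  have : CharZero L := charZero_of_injective_algebraMap (algebraMap F L).injective
  letI i0 : Module L A.triv.carrier := hmod
  have i1 : IsScalarTower F L A.triv.carrier := hfin.tower
  have i2 : IsScalarTower L A.triv.carrier A.triv.carrier := hfin.smul_mul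
  have i3 : SMulCommClass L A.triv.carrier A.triv.carrier := hfin.comm
  have i4 : Module.Finite L A.triv.carrier := hfin.fin
  obtain ⟨N, hN⟩ := hasStruct_of_algClosed A.triv L two_ne_zero (by
    intro i c a ha
    by_cases h : i = 0
    · subst h
      exact A.mem_triv _
    · have hb : A.triv.part i = ⊥ := if_neg h
      rw [hb] at ha ⊢
      have ha' : a = 0 := (Submodule.mem_bot F).1 ha
      rw [ha', smul_zero]
      exact Submodule.zero_mem _)
  refine ⟨1 + N, fun f hf s hs => ?_⟩
  have hAV : A.triv.envelope ∈ var {R} := by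
    rw [mem_var_singleton] at hV ⊢
    intro g hg
    rw [SuperAlg.satisfies_iff, svanish_triv]
    exact hV g hg
  obtain ⟨T, ε, hT, hG⟩ := hN.good hAV (f := f) (by rw [svanish_triv]; exact hf)
  exact hG.not_SVanish_odd (isVariety_var _) ((Nat.add_le_add_left hT 1).trans hs)

theorem gen2 [CharZero F] {R : AssocAlg F} (l : List (AssocAlg F))
    (h : ∀ A ∈ l, IsFD A ∧ A ∈ var {R})
    (h' : ∀ f : MLPoly F, (∀ A ∈ l, A.Satisfies f) → R.Satisfies f) :
    ∃ s, GeneratedBy (var {R}) 2 s := by
  have hN : ∃ N, ∀ A ∈ l, ∀ f : MLPoly F, ¬ A.Satisfies f → ∀ s, N ≤ s →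
      ¬ (freeSuper (var {R}) 2 s).SVanish f := by
    clear h'
    induction l with
    | nil => exact ⟨0, fun A hA => absurd hA (List.not_mem_nil)⟩
    | cons A l ih =>
      obtain ⟨N, hN⟩ := ih (fun B hB => h B (List.mem_cons_of_mem _ hB))
      obtain ⟨hA, hAV⟩ := h A List.mem_cons_self
      obtain ⟨M, hM⟩ := exists_bound_fd hA hAV
      refine ⟨max N M, fun B hB f hf s hs => ?_⟩
      rcases List.mem_cons.1 hB with rfl | hB
      · exact hM f hf s ((le_max_right _ _).trans hs)
      · exact hN B hB f hf s ((le_max_left _ _).trans hs)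
  obtain ⟨N, hN⟩ := hN
  refine ⟨N, freeSuper (var {R}) 2 N, freeGen _ 2 N,
    isFreeSuper_freeSuper (isVariety_var _) 2 N, ?_⟩
  have hmem : (freeSuper (var {R}) 2 N).envelope ∈ var {R} :=
    freeSuper_mem (isVariety_var _) 2 N
  ext C
  rw [mem_var_singleton, mem_var_singleton]
  rw [mem_var_singleton] at hmem
  constructor
  · intro hC f hf
    refine hC f (h' f fun A hA => ?_)
    by_contra hcon
    rw [SuperAlg.satisfies_iff] at hf
    exact hN A hA f hcon N le_rfl hf
  · intro hC f hf
    exact hC f (hmem f hf)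

/-! ### Row VarR -/

theorem wordParity_even {r : ℕ} (w : FreeSemigroup (Fin r ⊕ Fin 0)) : wordParity w = 0 := by
  have h1 : ∀ t : Fin r ⊕ Fin 0, letterParity t = 0 := by
    rintro (t | t)
    · rfl
    · exact t.elim0
  unfold wordParity
  rw [h1, zero_add]
  apply List.sum_eq_zero
  intro x hx
  obtain ⟨t, _, rfl⟩ := List.mem_map.1 hx
  exact h1 t

theorem freePart_one (V : Set (AssocAlg F)) (r : ℕ) : (freeSuper V r 0).part 1 = ⊥ := by
  rw [eq_bot_iff]
  intro x hx
  obtain ⟨p, hp, rfl⟩ := mem_freePart.1 hx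
  have : wordPart F r 0 1 = ⊥ := by
    rw [wordPart, Submodule.span_eq_bot]
    rintro y ⟨w, hw, _⟩
    rw [wordParity_even] at hw
    exact absurd hw (by decide)
  rw [this, Submodule.mem_bot] at hp
  rw [hp, map_zero]
  exact Submodule.zero_mem _

theorem freePart_zero (V : Set (AssocAlg F)) (r : ℕ) : (freeSuper V r 0).part 0 = ⊤ := by
  have := (freeSuper V r 0).isCompl.sup_eq_top
  rwa [freePart_one, sup_bot_eq] at this

theorem gen_freeGen (V : Set (AssocAlg F)) (r s : ℕ) :
    Gen (freeSuper V r s).toAssocAlg (freeGen V r s) := by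
  unfold Gen
  rw [eq_top_iff]
  rintro x -
  obtain ⟨p, rfl⟩ := superMk_surjective V r s x
  induction p using MonoidAlgebra.induction_linear with
  | zero => rw [map_zero]; exact zero_mem _
  | add p q hp hq => rw [map_add]; exact add_mem hp hq
  | single w c =>
    have h1 : (MonoidAlgebra.single w c : MonoidAlgebra F (FreeSemigroup (Fin r ⊕ Fin s))) =
        c • MonoidAlgebra.single w 1 := by simp
    rw [h1, map_smul]
    refine SMulMemClass.smul_mem c ?_
    induction w using FreeSemigroup.recOnMul with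
    | ih1 t => exact NonUnitalAlgebra.subset_adjoin F ⟨t, rfl⟩
    | ih2 x y hx hy =>
      have h2 : (MonoidAlgebra.single (FreeSemigroup.of x * y) 1 :
          MonoidAlgebra F (FreeSemigroup (Fin r ⊕ Fin s))) =
          MonoidAlgebra.single (FreeSemigroup.of x) 1 * MonoidAlgebra.single y 1 := by
        rw [MonoidAlgebra.single_mul_single, mul_one]
      rw [h2, map_mul]
      exact mul_mem (hx (by simp)) (hy (by simp))

/-- Two free superalgebras satisfy the same superidentities. -/
theorem svanish_of_free {V : Set (AssocAlg F)} {r s : ℕ} {D D' : SuperAlg F}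
    {x : Fin r ⊕ Fin s → D.carrier} {x' : Fin r ⊕ Fin s → D'.carrier}
    (hD : IsFreeSuper V D x) (hD' : IsFreeSuper V D' x') {f : MLPoly F} (h : D.SVanish f) :
    D'.SVanish f := by
  obtain ⟨φ, ⟨hφ, hφx⟩, -⟩ := hD.lift D' hD'.mem x' hD'.hom
  obtain ⟨ψ, ⟨hψ, hψx⟩, -⟩ := hD'.lift D hD.mem x hD.hom
  have hid : ∀ y, φ (ψ y) = y := by
    obtain ⟨χ, -, huniq⟩ := hD'.lift D' hD'.mem x' hD'.hom
    have e1 := huniq (fun y => φ (ψ y)) ⟨⟨fun a b => by rw [hψ.add, hφ.add],
      fun c a => by rw [hψ.smul, hφ.smul], fun a b => by rw [hψ.mul, hφ.mul],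
      fun i a ha => hφ.part i _ (hψ.part i a ha)⟩, fun t => (congrArg φ (hψx t)).trans (hφx t)⟩
    have e2 := huniq (fun y => y) ⟨⟨fun _ _ => rfl, fun _ _ => rfl, fun _ _ => rfl,
      fun _ _ ha => ha⟩, fun _ => rfl⟩
    intro y
    exact congrFun (e1.trans e2.symm) y
  intro ε a ha
  let Φ : D.carrier →ₙₐ[F] D'.carrier :=
    { toFun := φ
      map_smul' := hφ.smul
      map_zero' := by
        have := hφ.smul 0 0
        rwa [zero_smul, zero_smul] at this
      map_add' := hφ.add
      map_mul' := hφ.mul }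
  have h1 := evalML_map Φ (skoef f ε) (fun i => ψ (a i))
  rw [h ε (fun i => ψ (a i)) (fun i => hψ.part _ _ (ha i)), map_zero] at h1
  have h2 : (fun i => Φ (ψ (a i))) = a := funext fun i => hid (a i)
  rw [h2] at h1
  exact h1.symm

theorem varr [CharZero F] {V : Set (AssocAlg F)} {r : ℕ} (h : GeneratedBy V r 0) :
    ∃ R : AssocAlg F, FG R ∧ V = var {R} := by
  obtain ⟨D, x, hD, hV⟩ := h
  have hVar : IsVariety V := by rw [hV]; exact isVariety_var _
  have hD' := isFreeSuper_freeSuper hVar r 0
  refine ⟨(freeSuper V r 0).toAssocAlg, ⟨Fin r ⊕ Fin 0, inferInstance, freeGen V r 0,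
    gen_freeGen V r 0⟩, ?_⟩
  have key : ∀ f : MLPoly F, D.envelope.Satisfies f ↔
      (freeSuper V r 0).toAssocAlg.Satisfies f := by
    intro f
    rw [SuperAlg.satisfies_iff, ← svanish_even _ (freePart_zero V r) (freePart_one V r)]
    exact ⟨svanish_of_free hD hD', svanish_of_free hD' hD⟩
  have : V = var {(freeSuper V r 0).toAssocAlg} := by
    conv_lhs => rw [hV]
    ext C
    rw [mem_var_singleton, mem_var_singleton]
    exact ⟨fun hC f hf => hC f ((key f).2 hf), fun hC f hf => hC f ((key f).1 hf)⟩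
  exact this

end Pool.Agent.KEM
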