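import Pool.Agent.Helper29.SuperAss
import Pool.Agent.KEM.Conv
import Pool.Agent.KEM.CFw
import Pool.Agent.KEM.Main
import Pool.Agent.KEM.VarGen

/-!
# Assembly
-/

universe u

namespace Pool.Agent.KEM

open Pool.Agent.Helper29

variable {F : Type u} [Field F]

theorem final [CharZero F] (V : Set (AssocAlg F)) (r : ℕ) (hr : 3 ≤ r) :
    basicSpectrum V ≠ {(r, 0)} := by
  intro hV
  have hmem : (r, 0) ∈ basicSpectrum V := by rw [hV]; exact rfl
  obtain ⟨R, hR, rfl⟩ := varr hmem.1
  have hlow : ∀ p ∈ basicSpectrum (var {R}), ¬ p.1 ≤ 2 := by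
    intro p hp
    rw [hV, Set.mem_singleton_iff] at hp
    subst hp
    exact fun h => absurd h (by omega)
  by_cases hpi : ∃ f : MLPoly F, R.Satisfies f ∧ ∃ σ, f.coeff σ ≠ 0
  · obtain ⟨f, hf, h0⟩ := hpi
    obtain ⟨l, hl, hl'⟩ := main hR (conv_pi f hf h0)
    have key : ∀ B ∈ l, ∃ A : AssocAlg F, IsFD A ∧ ∀ (Z : Type) [Fintype Z] (p : FA F Z),
        p ∈ ML F Z → (Sat A p ↔ Sat B p) := fun B hB => cf (hl B hB).1
    have hlist : ∃ l' : List (AssocAlg F), (∀ A ∈ l', IsFD A ∧ ∃ B ∈ l, ∀ (Z : Type) [Fintype Z]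
        (p : FA F Z), p ∈ ML F Z → (Sat A p ↔ Sat B p)) ∧
        ∀ B ∈ l, ∃ A ∈ l', ∀ (Z : Type) [Fintype Z] (p : FA F Z), p ∈ ML F Z →
          (Sat A p ↔ Sat B p) := by
      clear hl' hl
      induction l with
      | nil => exact ⟨[], by simp, by simp⟩
      | cons B l ih =>
        obtain ⟨l', h1, h2⟩ := ih fun B hB => key B (List.mem_cons_of_mem _ hB)
        obtain ⟨A, hA, hAB⟩ := key B (by simp)
        refine ⟨A :: l', ?_, ?_⟩
        · intro A' hA'
          rcases List.mem_cons.1 hA' with rfl | hA'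
          · exact ⟨hA, B, by simp, hAB⟩
          · obtain ⟨h3, B', hB', h4⟩ := h1 A' hA'
            exact ⟨h3, B', List.mem_cons_of_mem _ hB', h4⟩
        · intro B' hB'
          rcases List.mem_cons.1 hB' with rfl | hB'
          · exact ⟨A, by simp, hAB⟩
          · obtain ⟨A', hA', h4⟩ := h2 B' hB'
            exact ⟨A', List.mem_cons_of_mem _ hA', h4⟩
    obtain ⟨l', h1, h2⟩ := hlist
    obtain ⟨s, hs⟩ := gen2 (R := R) l' (fun A hA => by
      obtain ⟨h3, B, hB, h4⟩ := h1 A hA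
      refine ⟨h3, ?_⟩
      rw [mem_var_singleton]
      intro f hf
      refine conv_list (B := A) [R] (fun Z _ p hp h5 => ?_) f (fun A' hA' => ?_)
      · exact (h4 Z p hp).2 ((hl B hB).2 Z p hp (h5 R (by simp)))
      · rw [List.mem_singleton] at hA'
        rw [hA']; exact hf) (by
      intro f hf
      refine conv_list (B := R) l' (fun Z _ p hp h5 => ?_) f hf
      refine hl' Z p hp fun B hB => ?_
      obtain ⟨A, hA, h6⟩ := h2 B hB
      exact (h6 Z p hp).1 (h5 A hA))
    obtain ⟨r', s', h3, h4, h5⟩ := exists_basicSuperrank hs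
    exact hlow (r', s') h5 h3
  · have huniv : var {R} = Set.univ := by
      rw [Set.eq_univ_iff_forall]
      intro A
      rw [mem_var_singleton]
      intro f hf a
      have h0 : ∀ σ, f.coeff σ = 0 := by
        intro σ
        by_contra h
        exact hpi ⟨f, hf, σ, h⟩
      exact Finset.sum_eq_zero fun σ _ => by rw [h0 σ, zero_smul]
    have hb : HasBounds (var {R}) := by
      rw [huniv]; exact bound_univ
    obtain ⟨p, hp, hp2⟩ := hb.1
    exact hlow p hp hp2

end Pool.Agent.KEM
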