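import Pool.Agent.KEM.Api

/-!
# Homomorphisms and the relatively free algebra
-/

universe u

namespace Pool.Agent.KEM

open Pool.Agent.Helper29

variable {F : Type u} [Field F]

/-- The extension of a homomorphism to the unital hulls. -/
noncomputable def umap {A B : AssocAlg F} (φ : A.carrier →ₙₐ[F] B.carrier) : U A →ₐ[F] U B :=
  Unitization.lift ((Unitization.inrNonUnitalAlgHom F B.carrier).comp φ)

theorem umap_inc {A B : AssocAlg F} (φ : A.carrier →ₙₐ[F] B.carrier) (a : A.carrier) :
    umap φ (inc A a) = inc B (φ a) := by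
  have := Unitization.lift_symm_apply_apply (umap φ) a
  have h2 : Unitization.lift.symm (umap φ) = (Unitization.inrNonUnitalAlgHom F B.carrier).comp φ :=
    Equiv.symm_apply_apply _ _
  rw [h2] at this
  exact this.symm

theorem umap_inl {A B : AssocAlg F} (φ : A.carrier →ₙₐ[F] B.carrier) (c : F) :
    umap φ (Unitization.inl c) = Unitization.inl c := by
  exact (umap φ).commutes c

theorem umap_eq {A B : AssocAlg F} (φ : A.carrier →ₙₐ[F] B.carrier) (s : U A) :
    umap φ s = Unitization.inl s.fst + inc B (φ s.snd) := by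
  conv_lhs => rw [← Unitization.inl_fst_add_inr_snd_eq s]
  rw [map_add, umap_inl]
  congr 1
  exact umap_inc φ s.snd

theorem umap_fst {A B : AssocAlg F} (φ : A.carrier →ₙₐ[F] B.carrier) (s : U A) :
    (umap φ s).fst = s.fst := by
  rw [umap_eq]; simp [inc]

theorem umap_snd {A B : AssocAlg F} (φ : A.carrier →ₙₐ[F] B.carrier) (s : U A) :
    (umap φ s).snd = φ s.snd := by
  rw [umap_eq]; simp [inc]

theorem ev_umap {A B : AssocAlg F} (φ : A.carrier →ₙₐ[F] B.carrier) {Z : Type}
    (v : Z → A.carrier) (p : FA F Z) :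
    ev B (fun z => φ (v z)) p = umap φ (ev A v p) := by
  have h : ev B (fun z => φ (v z)) = (umap φ).comp (ev A v) := by
    apply MonoidAlgebra.algHom_ext'
    · apply FreeMonoid.hom_eq
      intro z
      simp [ev, umap_inc]
    · ext
  rw [h]; rfl

theorem Sat.of_surjective {A B : AssocAlg F} (φ : A.carrier →ₙₐ[F] B.carrier)
    (hφ : Function.Surjective φ) {Z : Type} {p : FA F Z} (h : Sat A p) : Sat B p := by
  intro v
  choose w hw using fun z => hφ (v z)
  have : v = fun z => φ (w z) := funext fun z => (hw z).symm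
  rw [this, ev_umap, h w, map_zero]

/-- Identities pass to algebras with a jointly injective family of homomorphisms. -/
theorem Sat.of_injective {A : AssocAlg F} {ι : Type*} {B : ι → AssocAlg F}
    (φ : (i : ι) → A.carrier →ₙₐ[F] (B i).carrier)
    (hφ : ∀ a, (∀ i, φ i a = 0) → a = 0) {Z : Type} {p : FA F Z} (hc : (∃ v : Z → A.carrier, (ev A v p).fst = 0) ∨ Nonempty ι)
    (v : Z → A.carrier) (h : ∀ i, ev (B i) (fun z => φ i (v z)) p = 0) : ev A v p = 0 := by
  have h1 : ∀ i, umap (φ i) (ev A v p) = 0 := fun i => by rw [← ev_umap, h i]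
  have h2 : (ev A v p).snd = 0 := hφ _ fun i => by rw [← umap_snd, h1 i]; rfl
  have h3 : (ev A v p).fst = 0 := by
    rcases hc with ⟨v', hv'⟩ | ⟨⟨i⟩⟩
    · have key : ∀ w : Z → A.carrier, (ev A w p).fst =
          (MonoidAlgebra.lift F F (FreeMonoid Z) (FreeMonoid.lift fun _ => (0 : F))) p := by
        intro w
        have : (Unitization.fstHom F A.carrier).comp (ev A w) =
            MonoidAlgebra.lift F F (FreeMonoid Z) (FreeMonoid.lift fun _ => (0 : F)) := by
          apply MonoidAlgebra.algHom_ext'
          · apply FreeMonoid.hom_eq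
            intro z
            simp [ev, inc]
          · ext
        exact congrArg (fun f : FA F Z →ₐ[F] F => f p) this
      rw [key v, ← key v', hv']
    · rw [← umap_fst (φ i), h1 i]; rfl
  exact Unitization.ext h3 h2

end Pool.Agent.KEM
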