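import Pool.Agent.KEM.Defs

/-!
# Lewin's theorem for two C-finite algebras, and products of C-finite algebras
-/

universe u

namespace Pool.Agent.KEM

open Pool.Agent.Helper29 TensorProduct

variable {F : Type u} [Field F]

namespace Lew

/-! ### Linear algebra over a field -/

section lin

theorem tensor_zero {P Q : Type*} [AddCommGroup P] [Module F P] [AddCommGroup Q] [Module F Q]
    (t : P ⊗[F] Q) (h : ∀ ψ : P →ₗ[F] F, TensorProduct.lid F Q (ψ.rTensor Q t) = 0) : t = 0 := by
  classical
  let b := Module.Basis.ofVectorSpace F P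
  have key : ∀ (s : P ⊗[F] Q) (i), (TensorProduct.equivFinsuppOfBasisLeft b) s i =
      TensorProduct.lid F Q ((b.coord i).rTensor Q s) := by
    intro s i
    induction s with
    | zero => simp
    | tmul p q => simp
    | add x y hx hy => rw [map_add, Finsupp.add_apply, hx, hy, map_add, map_add]
  apply (TensorProduct.equivFinsuppOfBasisLeft b (N := Q)).injective
  rw [map_zero]
  ext i
  rw [key, h]
  rfl

theorem ker_lemma {I I' P Q H H' : Type*} [AddCommGroup P] [Module F P] [AddCommGroup Q]
    [Module F Q] [AddCommGroup H] [Module F H] [AddCommGroup H'] [Module F H']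
    (α : I → P →ₗ[F] H) (β : I' → Q →ₗ[F] H') (πU : P →ₗ[F] P) (πW : Q →ₗ[F] Q)
    (hU : ∀ u, (∀ i, α i u = 0) → πU u = 0) (hW : ∀ w, (∀ i, β i w = 0) → πW w = 0)
    (x : P ⊗[F] Q) (hx : ∀ i i', TensorProduct.map (α i) (β i') x = 0) :
    TensorProduct.map πU πW x = 0 := by
  apply tensor_zero
  intro ψ
  have e1 : ∀ x : P ⊗[F] Q, TensorProduct.lid F Q (ψ.rTensor Q (TensorProduct.map πU πW x)) =
      πW (TensorProduct.lid F Q ((ψ ∘ₗ πU).rTensor Q x)) := by
    intro x
    induction x with
    | zero => simp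
    | tmul p q => simp
    | add x y hx hy => simp only [map_add, hx, hy]
  rw [e1]
  apply hW
  intro i'
  rw [← Module.forall_dual_apply_eq_zero_iff F]
  intro φ
  have e2 : ∀ x : P ⊗[F] Q, φ (β i' (TensorProduct.lid F Q ((ψ ∘ₗ πU).rTensor Q x))) =
      ψ (πU (TensorProduct.rid F P ((φ ∘ₗ β i').lTensor P x))) := by
    intro x
    induction x with
    | zero => simp
    | tmul p q => simp [mul_comm]
    | add x y hx hy => simp only [map_add, hx, hy]
  rw [e2, hU, map_zero]
  intro i
  have e3 : ∀ x : P ⊗[F] Q, α i (TensorProduct.rid F P ((φ ∘ₗ β i').lTensor P x)) =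
      TensorProduct.rid F H (φ.lTensor H (TensorProduct.map (α i) (β i') x)) := by
    intro x
    induction x with
    | zero => simp
    | tmul p q => simp
    | add x y hx hy => simp only [map_add, hx, hy]
  rw [e3, hx, map_zero, map_zero]

/-- a projection onto a subspace -/
theorem exists_proj {P : Type*} [AddCommGroup P] [Module F P] (W : Submodule F P) :
    ∃ e : P →ₗ[F] P, (∀ x, e x ∈ W) ∧ ∀ x ∈ W, e x = x := by
  obtain ⟨W', h⟩ := W.exists_isCompl
  refine ⟨W.subtype ∘ₗ Submodule.projectionOnto W W' h, fun x => ?_, fun x hx => ?_⟩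
  · simp
  · have := congrArg Subtype.val (Submodule.projectionOnto_apply_left h ⟨x, hx⟩)
    exact this

end lin

/-! ### The free algebra -/

section free

variable {Z : Type}

/-- a variable -/
noncomputable abbrev XX (F : Type u) [Field F] {Z : Type} (z : Z) : FA F Z :=
  mon F (FreeMonoid.of z)

theorem FA.ind {motive : FA F Z → Prop} (hC : ∀ c : F, motive (algebraMap F _ c))
    (hX : ∀ z, motive (XX F z))
    (hadd : ∀ p q, motive p → motive q → motive (p + q))
    (hmul : ∀ p q, motive p → motive q → motive (p * q)) (p : FA F Z) : motive p := by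
  have h1 : motive 1 := by
    have := hC 1
    rwa [map_one] at this
  have hw : ∀ w : FreeMonoid Z, motive (mon F w) := by
    intro w
    induction w using FreeMonoid.inductionOn' with
    | one => exact h1
    | of_mul z w ih =>
      have : mon F (FreeMonoid.of z * w) = mon F (FreeMonoid.of z) * mon F w := by
        simp [mon, MonoidAlgebra.single_mul_single]
      rw [this]
      exact hmul _ _ (hX z) ih
  induction p using MonoidAlgebra.induction_linear with
  | zero =>
    have := hC 0
    rwa [map_zero] at this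
  | add f g hf hg => exact hadd f g hf hg
  | single w c =>
    have : (MonoidAlgebra.single w c : FA F Z) = algebraMap F _ c * mon F w := by
      simp [mon, MonoidAlgebra.single_mul_single]
    rw [this]
    exact hmul _ _ (hC c) (hw w)

/-- Algebra homomorphisms of the free algebra agree if they agree on the variables. -/
theorem FA.hom_ext {R : Type*} [Ring R] [Algebra F R] {f g : FA F Z →ₐ[F] R}
    (h : ∀ z, f (XX F z) = g (XX F z)) : f = g := by
  apply AlgHom.ext
  intro p
  induction p using FA.ind with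
  | hC c => rw [AlgHom.commutes, AlgHom.commutes]
  | hX z => exact h z
  | hadd p q hp hq => rw [map_add, map_add, hp, hq]
  | hmul p q hp hq => rw [map_mul, map_mul, hp, hq]

theorem ev_XX (A : AssocAlg F) (v : Z → A.carrier) (z : Z) : ev A v (XX F z) = inc A (v z) := by
  simp [ev, mon]

/-- The upper triangular representation. -/
noncomputable def Th (s : Z → FA F Z ⊗[F] FA F Z) :
    FA F Z →ₐ[F] Matrix (Fin 2) (Fin 2) (FA F Z ⊗[F] FA F Z) :=
  MonoidAlgebra.lift F _ (FreeMonoid Z)
    (FreeMonoid.lift fun z => !![XX F z ⊗ₜ 1, s z; 0, 1 ⊗ₜ XX F z])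

theorem Th_XX (s : Z → FA F Z ⊗[F] FA F Z) (z : Z) :
    Th s (XX F z) = !![XX F z ⊗ₜ 1, s z; 0, 1 ⊗ₜ XX F z] := by
  simp [Th, mon]

theorem Th_diag (s : Z → FA F Z ⊗[F] FA F Z) (p : FA F Z) :
    Th s p 0 0 = p ⊗ₜ 1 ∧ Th s p 1 0 = 0 ∧ Th s p 1 1 = 1 ⊗ₜ p := by
  induction p using FA.ind with
  | hC c =>
    rw [AlgHom.commutes]
    refine ⟨?_, ?_, ?_⟩
    · rw [Matrix.algebraMap_matrix_apply]
      simp [Algebra.TensorProduct.algebraMap_apply]
    · rw [Matrix.algebraMap_matrix_apply]
      simp
    · rw [Matrix.algebraMap_matrix_apply]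
      simp only [if_true, Algebra.algebraMap_eq_smul_one, TensorProduct.tmul_smul]
      rfl
  | hX z => rw [Th_XX]; simp
  | hadd p q hp hq =>
    rw [map_add]
    refine ⟨?_, ?_, ?_⟩
    · rw [Matrix.add_apply, hp.1, hq.1, TensorProduct.add_tmul]
    · rw [Matrix.add_apply, hp.2.1, hq.2.1, add_zero]
    · rw [Matrix.add_apply, hp.2.2, hq.2.2, TensorProduct.tmul_add]
  | hmul p q hp hq =>
    rw [map_mul]
    refine ⟨?_, ?_, ?_⟩
    · rw [Matrix.mul_apply, Fin.sum_univ_two, hp.1, hq.1, hq.2.1, mul_zero, add_zero,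
        Algebra.TensorProduct.tmul_mul_tmul, one_mul]
    · rw [Matrix.mul_apply, Fin.sum_univ_two, hp.2.1, hq.2.1, mul_zero, zero_mul, add_zero]
    · rw [Matrix.mul_apply, Fin.sum_univ_two, hp.2.1, hp.2.2, hq.2.2, zero_mul, zero_add,
        Algebra.TensorProduct.tmul_mul_tmul, one_mul]

theorem Th_mul (s : Z → FA F Z ⊗[F] FA F Z) (p q : FA F Z) :
    Th s (p * q) 0 1 = (p ⊗ₜ 1) * Th s q 0 1 + Th s p 0 1 * (1 ⊗ₜ q) := by
  rw [map_mul, Matrix.mul_apply, Fin.sum_univ_two, (Th_diag s p).1, (Th_diag s q).2.2]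

open Classical in
/-- The universal derivation, component `j`. -/
noncomputable def DD (j : Z) (p : FA F Z) : FA F Z ⊗[F] FA F Z :=
  Th (fun z => if z = j then 1 else 0) p 0 1

theorem DD_sum [Fintype Z] (p : FA F Z) :
    ∑ j, (DD j p * (XX F j ⊗ₜ 1) - (1 ⊗ₜ XX F j) * DD j p) = p ⊗ₜ[F] 1 - 1 ⊗ₜ[F] p := by
  classical
  induction p using FA.ind with
  | hC c =>
    have : ∀ j : Z, DD j (algebraMap F (FA F Z) c) = 0 := by
      intro j
      rw [DD, AlgHom.commutes, Matrix.algebraMap_matrix_apply]
      simp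
    simp only [this, zero_mul, mul_zero, sub_zero, Finset.sum_const_zero]
    rw [Algebra.algebraMap_eq_smul_one, TensorProduct.smul_tmul, sub_self]
  | hX z =>
    have : ∀ j : Z, DD j (XX F z) = if z = j then 1 else 0 := by
      intro j
      rw [DD, Th_XX]
      simp
    simp only [this]
    rw [Finset.sum_eq_single z]
    · simp
    · intro j _ hj
      rw [if_neg (Ne.symm hj), zero_mul, mul_zero, sub_zero]
    · intro h
      exact absurd (Finset.mem_univ z) h
  | hadd p q hp hq =>
    have : ∀ j : Z, DD j (p + q) = DD j p + DD j q := by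
      intro j
      rw [DD, map_add, Matrix.add_apply, DD, DD]
    simp only [this, add_mul, mul_add]
    rw [TensorProduct.add_tmul, TensorProduct.tmul_add]
    rw [show (p ⊗ₜ[F] (1 : FA F Z) + q ⊗ₜ[F] 1 - ((1 : FA F Z) ⊗ₜ[F] p + 1 ⊗ₜ[F] q)) =
      (p ⊗ₜ[F] (1 : FA F Z) - 1 ⊗ₜ[F] p) + (q ⊗ₜ[F] 1 - 1 ⊗ₜ[F] q) by abel]
    rw [← hp, ← hq, ← Finset.sum_add_distrib]
    refine Finset.sum_congr rfl fun j _ => ?_
    abel
  | hmul p q hp hq =>
    have h1 : ∀ j : Z, DD j (p * q) * (XX F j ⊗ₜ[F] 1) - (1 ⊗ₜ[F] XX F j) * DD j (p * q) =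
        (p ⊗ₜ[F] 1) * (DD j q * (XX F j ⊗ₜ[F] 1) - (1 ⊗ₜ[F] XX F j) * DD j q) +
        (DD j p * (XX F j ⊗ₜ[F] 1) - (1 ⊗ₜ[F] XX F j) * DD j p) * (1 ⊗ₜ[F] q) := by
      intro j
      have h2 : DD j (p * q) = (p ⊗ₜ 1) * DD j q + DD j p * (1 ⊗ₜ q) := Th_mul _ p q
      have h3 : ((1 : FA F Z) ⊗ₜ[F] q) * (XX F j ⊗ₜ[F] 1) = (XX F j ⊗ₜ[F] 1) * (1 ⊗ₜ[F] q) := by
        rw [Algebra.TensorProduct.tmul_mul_tmul, Algebra.TensorProduct.tmul_mul_tmul]
        simp
      have h4 : ((1 : FA F Z) ⊗ₜ[F] XX F j) * (p ⊗ₜ[F] 1) = (p ⊗ₜ[F] 1) * (1 ⊗ₜ[F] XX F j) := by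
        rw [Algebra.TensorProduct.tmul_mul_tmul, Algebra.TensorProduct.tmul_mul_tmul]
        simp
      rw [h2, add_mul, mul_add, mul_sub, sub_mul]
      rw [mul_assoc (DD j p), h3, ← mul_assoc ((1 : FA F Z) ⊗ₜ[F] XX F j) (p ⊗ₜ[F] 1), h4]
      simp only [mul_assoc]
      abel
    simp only [h1]
    rw [Finset.sum_add_distrib, ← Finset.mul_sum, ← Finset.sum_mul, hp, hq, mul_sub, sub_mul]
    simp only [Algebra.TensorProduct.tmul_mul_tmul, one_mul, mul_one]
    abel

/-- `μ (x (a ⊗ 1)) = μ ((1 ⊗ a) x)` -/
theorem mu_comm (x : FA F Z ⊗[F] FA F Z) (a : FA F Z) :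
    LinearMap.mul' F (FA F Z) (x * (a ⊗ₜ 1)) = LinearMap.mul' F (FA F Z) ((1 ⊗ₜ a) * x) := by
  induction x with
  | zero => simp
  | tmul p q => simp [mul_assoc]
  | add x y hx hy => rw [add_mul, mul_add, map_add, map_add, hx, hy]

theorem lewin_core [Fintype Z] {I I' H H' : Type*} [Ring H] [Algebra F H] [Ring H'] [Algebra F H']
    [Nontrivial H] [Nontrivial H'] [Nonempty I] [Nonempty I']
    (α : I → FA F Z →ₐ[F] H) (β : I' → FA F Z →ₐ[F] H') (p : FA F Z)
    (hp : ∀ i i' (s : Z → FA F Z ⊗[F] FA F Z), (∀ z, s z = 0 ∨ s z = 1) →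
      (Algebra.TensorProduct.map (α i) (β i')).mapMatrix (Th s p) = 0) :
    p ∈ Submodule.span F {q | ∃ s w : FA F Z, (∀ i, α i s = 0) ∧ (∀ i', β i' w = 0) ∧
      q = s * w} := by
  classical
  let U : Submodule F (FA F Z) := ⨅ i, LinearMap.ker (α i).toLinearMap
  let W : Submodule F (FA F Z) := ⨅ i, LinearMap.ker (β i).toLinearMap
  have hU : ∀ x, x ∈ U ↔ ∀ i, α i x = 0 := fun x => by simp [U]
  have hW : ∀ x, x ∈ W ↔ ∀ i, β i x = 0 := fun x => by simp [W]
  obtain ⟨eU, eU1, eU2⟩ := exists_proj U
  obtain ⟨eW, eW1, eW2⟩ := exists_proj W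
  let πU : FA F Z →ₗ[F] FA F Z := LinearMap.id - eU
  let πW : FA F Z →ₗ[F] FA F Z := LinearMap.id - eW
  -- `p` is in `U` and in `W`
  have hpU : p ∈ U := by
    rw [hU]
    intro i
    obtain ⟨i'⟩ := ‹Nonempty I'›
    have h := congrFun (congrFun (hp i i' (fun _ => 0) (fun _ => Or.inl rfl)) 0) 0
    rw [AlgHom.mapMatrix_apply, Matrix.map_apply, (Th_diag _ p).1] at h
    simp only [Algebra.TensorProduct.map_tmul, map_one] at h
    exact (Algebra.TensorProduct.includeLeft_injective (R := F) (S := F) (A := H) (B := H')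
      (algebraMap F H').injective) (by simpa using h)
  have hpW : p ∈ W := by
    rw [hW]
    intro i'
    obtain ⟨i⟩ := ‹Nonempty I›
    have h := congrFun (congrFun (hp i i' (fun _ => 0) (fun _ => Or.inl rfl)) 1) 1
    rw [AlgHom.mapMatrix_apply, Matrix.map_apply, (Th_diag _ p).2.2] at h
    simp only [Algebra.TensorProduct.map_tmul, map_one] at h
    exact (Algebra.TensorProduct.includeRight_injective (R := F) (A := H) (B := H')
      (algebraMap F H).injective) (by simpa using h)
  -- the derivations
  have hD : ∀ j, TensorProduct.map πU πW (DD j p) = 0 := by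
    intro j
    refine ker_lemma (fun i => (α i).toLinearMap) (fun i => (β i).toLinearMap) πU πW ?_ ?_ _ ?_
    · intro u hu
      simp only [πU, LinearMap.sub_apply, LinearMap.id_apply]
      rw [eU2 u ((hU u).2 hu), sub_self]
    · intro u hu
      simp only [πW, LinearMap.sub_apply, LinearMap.id_apply]
      rw [eW2 u ((hW u).2 hu), sub_self]
    · intro i i'
      have h := congrFun (congrFun (hp i i' (fun z => if z = j then 1 else 0)
        (fun z => by by_cases hz : z = j <;> simp [hz])) 0) 1
      rw [AlgHom.mapMatrix_apply, Matrix.map_apply] at h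
      exact h
  have hsplit : ∀ x : FA F Z ⊗[F] FA F Z, x = eU.rTensor (FA F Z) x +
      (TensorProduct.map πU eW x + TensorProduct.map πU πW x) := by
    intro x
    induction x with
    | zero => simp
    | tmul a b =>
      simp only [LinearMap.rTensor_tmul, TensorProduct.map_tmul]
      rw [← TensorProduct.tmul_add, show eW b + πW b = b by simp [πW],
        ← TensorProduct.add_tmul, show eU a + πU a = a by simp [πU]]
    | add x y hx hy =>
      simp only [map_add]
      nth_rewrite 1 [hx, hy]
      abel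
  have hDs : ∀ j, DD j p = eU.rTensor (FA F Z) (DD j p) + TensorProduct.map πU eW (DD j p) := by
    intro j
    have := hsplit (DD j p)
    rwa [hD j, add_zero] at this
  -- the element `e`
  set e : FA F Z ⊗[F] FA F Z := p ⊗ₜ 1 - ∑ j, (eU.rTensor (FA F Z) (DD j p) * (XX F j ⊗ₜ 1) -
    (1 ⊗ₜ XX F j) * eU.rTensor (FA F Z) (DD j p)) with he
  have he2 : e = 1 ⊗ₜ p + ∑ j, (TensorProduct.map πU eW (DD j p) * (XX F j ⊗ₜ 1) -
      (1 ⊗ₜ XX F j) * TensorProduct.map πU eW (DD j p)) := by
    have h := DD_sum p
    have h' : ∑ j, (DD j p * (XX F j ⊗ₜ 1) - (1 ⊗ₜ XX F j) * DD j p) =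
        ∑ j, (eU.rTensor (FA F Z) (DD j p) * (XX F j ⊗ₜ 1) -
          (1 ⊗ₜ XX F j) * eU.rTensor (FA F Z) (DD j p)) +
        ∑ j, (TensorProduct.map πU eW (DD j p) * (XX F j ⊗ₜ 1) -
          (1 ⊗ₜ XX F j) * TensorProduct.map πU eW (DD j p)) := by
      rw [← Finset.sum_add_distrib]
      refine Finset.sum_congr rfl fun j _ => ?_
      conv_lhs => rw [hDs j]
      rw [add_mul, mul_add]
      abel
    rw [h'] at h
    rw [he]
    rw [sub_eq_iff_eq_add]
    rw [← sub_eq_iff_eq_add'.2 (eq_add_of_sub_eq h.symm)]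
    abel
  -- `U` is a right ideal, `W` a left ideal
  have hUr : ∀ a b, a ∈ U → a * b ∈ U := by
    intro a b ha
    rw [hU] at ha ⊢
    intro i
    rw [map_mul, ha i, zero_mul]
  have hWl : ∀ a b, b ∈ W → a * b ∈ W := by
    intro a b hb
    rw [hW] at hb ⊢
    intro i
    rw [map_mul, hb i, mul_zero]
  have r1 : ∀ (x : FA F Z ⊗[F] FA F Z) (a : FA F Z), eU.rTensor (FA F Z)
      (eU.rTensor (FA F Z) x * (a ⊗ₜ 1)) = eU.rTensor (FA F Z) x * (a ⊗ₜ 1) := by
    intro x a
    induction x with
    | zero => simp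
    | tmul p q =>
      simp only [LinearMap.rTensor_tmul, Algebra.TensorProduct.tmul_mul_tmul]
      rw [eU2 _ (hUr _ a (eU1 p))]
    | add x y hx hy => simp only [map_add, add_mul, hx, hy]
  have r2 : ∀ (x : FA F Z ⊗[F] FA F Z) (a : FA F Z), eU.rTensor (FA F Z)
      ((1 ⊗ₜ a) * eU.rTensor (FA F Z) x) = (1 ⊗ₜ a) * eU.rTensor (FA F Z) x := by
    intro x a
    induction x with
    | zero => simp
    | tmul p q =>
      simp only [LinearMap.rTensor_tmul, Algebra.TensorProduct.tmul_mul_tmul, one_mul]
      rw [eU2 _ (eU1 p)]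
    | add x y hx hy => simp only [map_add, mul_add, hx, hy]
  have l1 : ∀ (x : FA F Z ⊗[F] FA F Z) (a : FA F Z), eW.lTensor (FA F Z)
      (TensorProduct.map πU eW x * (a ⊗ₜ 1)) = TensorProduct.map πU eW x * (a ⊗ₜ 1) := by
    intro x a
    induction x with
    | zero => simp
    | tmul p q =>
      simp only [LinearMap.lTensor_tmul, TensorProduct.map_tmul,
        Algebra.TensorProduct.tmul_mul_tmul, mul_one]
      rw [eW2 _ (eW1 q)]
    | add x y hx hy => simp only [map_add, add_mul, hx, hy]
  have l2 : ∀ (x : FA F Z ⊗[F] FA F Z) (a : FA F Z), eW.lTensor (FA F Z)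
      ((1 ⊗ₜ a) * TensorProduct.map πU eW x) = (1 ⊗ₜ a) * TensorProduct.map πU eW x := by
    intro x a
    induction x with
    | zero => simp
    | tmul p q =>
      simp only [LinearMap.lTensor_tmul, TensorProduct.map_tmul,
        Algebra.TensorProduct.tmul_mul_tmul, one_mul]
      rw [eW2 _ (hWl a _ (eW1 q))]
    | add x y hx hy => simp only [map_add, mul_add, hx, hy]
  have eUe : eU.rTensor (FA F Z) e = e := by
    rw [he, map_sub, map_sum, LinearMap.rTensor_tmul, eU2 p hpU]
    simp only [map_sub, r1, r2]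
  have eWe : eW.lTensor (FA F Z) e = e := by
    rw [he2, map_add, map_sum, LinearMap.lTensor_tmul, eW2 p hpW]
    simp only [map_sub, l1, l2]
  have hmu : LinearMap.mul' F (FA F Z) e = p := by
    rw [he, map_sub, map_sum]
    simp only [map_sub, mu_comm, sub_self, Finset.sum_const_zero, sub_zero]
    simp
  have hmem : ∀ x : FA F Z ⊗[F] FA F Z, LinearMap.mul' F (FA F Z)
      (eW.lTensor (FA F Z) (eU.rTensor (FA F Z) x)) ∈
      Submodule.span F {q | ∃ s w : FA F Z, (∀ i, α i s = 0) ∧ (∀ i', β i' w = 0) ∧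
        q = s * w} := by
    intro x
    induction x with
    | zero => simp
    | tmul a b =>
      simp only [LinearMap.rTensor_tmul, LinearMap.lTensor_tmul, LinearMap.mul'_apply]
      exact Submodule.subset_span ⟨eU a, eW b, (hU _).1 (eU1 a), (hW _).1 (eW1 b), rfl⟩
    | add x y hx hy =>
      simp only [map_add]
      exact Submodule.add_mem _ hx hy
  have := hmem e
  rwa [eUe, eWe, hmu] at this

end free

/-! ### The algebra -/

/-- The algebra of 2 x 2 matrices over a unital algebra. -/
def matAlg (F : Type u) [Field F] (R : Type u) [Ring R] [Algebra F R] : AssocAlg F where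
  carrier := Matrix (Fin 2) (Fin 2) R
  smul_mul := fun c a b => smul_mul_assoc c a b
  mul_smul := fun c a b => mul_smul_comm c a b

theorem cfin_matAlg (R E : Type u) [Ring R] [Algebra F R] [CommRing E] [Algebra F E]
    [Algebra E R] [IsScalarTower F E R] [Algebra.FiniteType F E] [Module.Finite E R] :
    CFin (matAlg F R) := by
  let m : Module E (matAlg F R).carrier := inferInstanceAs (Module E (Matrix (Fin 2) (Fin 2) R))
  refine ⟨E, inferInstance, inferInstance, inferInstance, m, ?_⟩
  exact
    { tower := inferInstanceAs (IsScalarTower F E (Matrix (Fin 2) (Fin 2) R))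
      smul_mul := inferInstanceAs (IsScalarTower E (Matrix (Fin 2) (Fin 2) R)
        (Matrix (Fin 2) (Fin 2) R))
      comm := inferInstanceAs (SMulCommClass E (Matrix (Fin 2) (Fin 2) R)
        (Matrix (Fin 2) (Fin 2) R))
      fin := inferInstanceAs (Module.Finite E (Fin 2 → Fin 2 → R)) }

/-- The evaluation in the unital algebra itself. -/
theorem ev_matAlg (R : Type u) [Ring R] [Algebra F R] {Z : Type}
    (φ : FA F Z →ₐ[F] Matrix (Fin 2) (Fin 2) R) (p : FA F Z) (h : Sat (matAlg F R) p) :
    φ p = 0 := by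
  let κ : U (matAlg F R) →ₐ[F] Matrix (Fin 2) (Fin 2) R :=
    Unitization.lift (NonUnitalAlgHom.id F (Matrix (Fin 2) (Fin 2) R))
  have h1 : κ.comp (ev (matAlg F R) (fun z => φ (XX F z))) = φ := by
    apply FA.hom_ext
    intro z
    rw [AlgHom.comp_apply, ev_XX]
    change algebraMap F _ (Unitization.inr (φ (XX F z))).fst +
      (Unitization.inr (φ (XX F z)) : Unitization F (Matrix (Fin 2) (Fin 2) R)).snd = _
    rw [Unitization.fst_inr, Unitization.snd_inr, map_zero, zero_add]
  rw [← h1, AlgHom.comp_apply, h, map_zero]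

/-! ### The unital hull over `C` -/

section hull

variable (B : AssocAlg F) (C : Type u) [CommRing C] [Algebra F C] [Module C B.carrier]
  [IsScalarTower F C B.carrier] [IsScalarTower C B.carrier B.carrier]
  [SMulCommClass C B.carrier B.carrier]

/-- The map of unital hulls. -/
noncomputable def jj : U B →ₐ[F] Unitization C B.carrier :=
  Unitization.lift
    { toFun := fun x => Unitization.inr x
      map_smul' := fun c x => by
        ext <;> simp
      map_zero' := by simp
      map_add' := fun x y => by simp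
      map_mul' := fun x y => by simp }

theorem jj_injective [Nontrivial C] : Function.Injective (jj B C) := by
  rw [injective_iff_map_eq_zero]
  intro x hx
  have h : algebraMap F (Unitization C B.carrier) x.fst + Unitization.inr x.snd = 0 := hx
  rw [Unitization.algebraMap_eq_inl_comp] at h
  have h1 := congrArg (fun y => y.fst) h
  have h2 := congrArg (fun y => y.snd) h
  simp at h1 h2
  ext
  · exact h1
  · exact h2

omit [Algebra F C] [IsScalarTower F C B.carrier] [IsScalarTower C B.carrier B.carrier]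
  [SMulCommClass C B.carrier B.carrier] in
theorem finite_hull [Module.Finite C B.carrier] : Module.Finite C (Unitization C B.carrier) := by
  let f : (C × B.carrier) →ₗ[C] Unitization C B.carrier :=
    { toFun := fun x => Unitization.inl x.1 + Unitization.inr x.2
      map_add' := fun x y => by
        ext <;> simp
      map_smul' := fun c x => by
        ext <;> simp }
  refine Module.Finite.of_surjective f fun x => ⟨(x.fst, x.snd), ?_⟩
  ext <;> simp [f]

end hull

/-! ### The tensor product -/

section tens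

variable {H H' C C' : Type u} [Ring H] [Algebra F H] [Ring H'] [Algebra F H'] [CommRing C]
  [Algebra F C] [CommRing C'] [Algebra F C'] [Algebra C H] [Algebra C' H'] [IsScalarTower F C H]
  [IsScalarTower F C' H']

/-- The structure map. -/
noncomputable def sm (F H H' C C' : Type u) [Field F] [Ring H] [Algebra F H] [Ring H']
    [Algebra F H'] [CommRing C]
    [Algebra F C] [CommRing C'] [Algebra F C'] [Algebra C H] [Algebra C' H'] [IsScalarTower F C H]
    [IsScalarTower F C' H'] : C ⊗[F] C' →ₐ[F] H ⊗[F] H' :=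
  Algebra.TensorProduct.map (IsScalarTower.toAlgHom F C H) (IsScalarTower.toAlgHom F C' H')

theorem sm_comm (e : C ⊗[F] C') (r : H ⊗[F] H') : sm F H H' C C' e * r = r * sm F H H' C C' e := by
  induction e with
  | zero => simp
  | tmul a b =>
    induction r with
    | zero => simp
    | tmul c d => simp [sm, Algebra.commutes]
    | add x y hx hy => rw [mul_add, add_mul, hx, hy]
  | add x y hx hy => rw [map_add, mul_add, add_mul, hx, hy]

theorem cfin_tens [Algebra.FiniteType F C] [Algebra.FiniteType F C'] [Module.Finite C H]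
    [Module.Finite C' H'] : CFin (matAlg F (H ⊗[F] H')) := by
  let _ : Algebra (C ⊗[F] C') (H ⊗[F] H') := (sm F H H' C C').toRingHom.toAlgebra' sm_comm
  have : IsScalarTower F (C ⊗[F] C') (H ⊗[F] H') := by
    refine IsScalarTower.of_algebraMap_eq fun x => ?_
    exact ((sm F H H' C C').commutes x).symm
  have : Algebra.FiniteType F (C ⊗[F] C') :=
    Algebra.FiniteType.trans (S := C) inferInstance inferInstance
  have : Module.Finite (C ⊗[F] C') (H ⊗[F] H') := by
    classical
    obtain ⟨s, hs⟩ := (Module.finite_def (R := C) (M := H)).1 inferInstance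
    obtain ⟨s', hs'⟩ := (Module.finite_def (R := C') (M := H')).1 inferInstance
    refine ⟨⟨(s ×ˢ s').image fun x => x.1 ⊗ₜ[F] x.2, ?_⟩⟩
    rw [eq_top_iff]
    rintro x -
    set N := Submodule.span (C ⊗[F] C')
      (((s ×ˢ s').image fun x => x.1 ⊗ₜ[F] x.2 : Finset (H ⊗[F] H')) : Set (H ⊗[F] H')) with hN
    have hsm : ∀ (c : C) (c' : C') (h : H) (h' : H'),
        (c ⊗ₜ[F] c') • (h ⊗ₜ[F] h') = (c • h) ⊗ₜ[F] (c' • h') := by
      intro c c' h h'
      change sm F H H' C C' (c ⊗ₜ[F] c') * (h ⊗ₜ[F] h') = _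
      simp [sm, Algebra.smul_def]
    have key : ∀ (h : H) (h' : H'), h ⊗ₜ[F] h' ∈ N := by
      intro h h'
      have hh : h ∈ Submodule.span C (s : Set H) := by rw [hs]; trivial
      have hh' : h' ∈ Submodule.span C' (s' : Set H') := by rw [hs']; trivial
      induction hh using Submodule.span_induction with
      | zero => simp
      | add a b _ _ ha hb => rw [TensorProduct.add_tmul]; exact N.add_mem ha hb
      | smul c a _ ha =>
        have := N.smul_mem (c ⊗ₜ[F] (1 : C')) ha
        rwa [hsm, one_smul] at this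
      | mem a ha =>
        induction hh' using Submodule.span_induction with
        | zero => simp
        | add b c _ _ hb hc => rw [TensorProduct.tmul_add]; exact N.add_mem hb hc
        | smul c b _ hb =>
          have := N.smul_mem ((1 : C) ⊗ₜ[F] c) hb
          rwa [hsm, one_smul] at this
        | mem b hb =>
          refine Submodule.subset_span ?_
          rw [Finset.coe_image]
          exact ⟨(a, b), by simpa using ⟨ha, hb⟩, rfl⟩
    induction x with
    | zero => exact N.zero_mem
    | tmul h h' => exact key h h'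
    | add x y hx hy => exact N.add_mem hx hy
  exact cfin_matAlg (H ⊗[F] H') (C ⊗[F] C')

end tens

/-- A C-finite algebra is finite over a nonzero finitely generated commutative algebra. -/
theorem nontriv {B : AssocAlg F} (hB : CFin B) :
    ∃ (C : Type u) (_ : CommRing C) (_ : Algebra F C) (_ : Algebra.FiniteType F C)
      (_ : Module C B.carrier), FinOver F C B ∧ Nontrivial C := by
  obtain ⟨C, i1, i2, i3, i4, h⟩ := hB
  rcases subsingleton_or_nontrivial C with hC | hC
  · have : Subsingleton B.carrier := Module.subsingleton C B.carrier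
    exact ⟨F, inferInstance, inferInstance, inferInstance, inferInstance,
      { tower := inferInstance
        smul_mul := inferInstance
        comm := inferInstance
        fin := inferInstance }, inferInstance⟩
  · exact ⟨C, i1, i2, i3, i4, h, hC⟩

/-- The product of two algebras. -/
def prodAlg (B B' : AssocAlg F) : AssocAlg F where
  carrier := B.carrier × B'.carrier
  smul_mul := fun c a b => smul_mul_assoc c a b
  mul_smul := fun c a b => mul_smul_comm c a b

/-- The map of unital hulls of a homomorphism. -/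
noncomputable def Umap {A A' : AssocAlg F} (f : A.carrier →ₙₐ[F] A'.carrier) : U A →ₐ[F] U A' :=
  Unitization.lift ((Unitization.inrNonUnitalAlgHom F A'.carrier).comp f)

theorem Umap_ev {A A' : AssocAlg F} (f : A.carrier →ₙₐ[F] A'.carrier) {Z : Type}
    (v : Z → A.carrier) (p : FA F Z) : Umap f (ev A v p) = ev A' (fun z => f (v z)) p := by
  have : (Umap f).comp (ev A v) = ev A' (fun z => f (v z)) := by
    apply FA.hom_ext
    intro z
    rw [AlgHom.comp_apply, ev_XX, ev_XX]
    change algebraMap F _ (Unitization.inr (v z) : U A).fst +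
      inc A' (f (Unitization.inr (v z) : U A).snd) = _
    rw [Unitization.fst_inr, Unitization.snd_inr, map_zero, zero_add]
  rw [← this, AlgHom.comp_apply]

theorem Umap_fst {A A' : AssocAlg F} (f : A.carrier →ₙₐ[F] A'.carrier) (x : U A) :
    (Umap f x).fst = x.fst := by
  change (algebraMap F (U A') x.fst + inc A' (f x.snd)).fst = _
  simp [inc, Unitization.algebraMap_eq_inl]

theorem Umap_snd {A A' : AssocAlg F} (f : A.carrier →ₙₐ[F] A'.carrier) (x : U A) :
    (Umap f x).snd = f x.snd := by
  change (algebraMap F (U A') x.fst + inc A' (f x.snd)).snd = _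
  simp [inc, Unitization.algebraMap_eq_inl]

theorem cfin_prod {B B' : AssocAlg F} (hB : CFin B) (hB' : CFin B') : CFin (prodAlg B B') := by
  obtain ⟨C, _, _, _, _, h⟩ := hB
  obtain ⟨C', _, _, _, _, h'⟩ := hB'
  have := h.tower
  have := h.smul_mul
  have := h.comm
  have := h.fin
  have := h'.tower
  have := h'.smul_mul
  have := h'.comm
  have := h'.fin
  let m1 : Module (C × C') B.carrier := Module.compHom _ (RingHom.fst C C')
  let m2 : Module (C × C') B'.carrier := Module.compHom _ (RingHom.snd C C')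
  have s1 : ∀ (c : C × C') (b : B.carrier), c • b = c.1 • b := fun _ _ => rfl
  have s2 : ∀ (c : C × C') (b : B'.carrier), c • b = c.2 • b := fun _ _ => rfl
  have t1 : IsScalarTower F (C × C') B.carrier := ⟨fun r c b => by
    rw [s1, s1, Prod.smul_fst, smul_assoc]⟩
  have t2 : IsScalarTower F (C × C') B'.carrier := ⟨fun r c b => by
    rw [s2, s2, Prod.smul_snd, smul_assoc]⟩
  have t3 : IsScalarTower (C × C') B.carrier B.carrier := ⟨fun c a b => by
    rw [s1, s1, smul_assoc]⟩
  have t4 : IsScalarTower (C × C') B'.carrier B'.carrier := ⟨fun c a b => by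
    rw [s2, s2, smul_assoc]⟩
  have t5 : SMulCommClass (C × C') B.carrier B.carrier := ⟨fun c a b => by
    rw [s1, s1, smul_comm]⟩
  have t6 : SMulCommClass (C × C') B'.carrier B'.carrier := ⟨fun c a b => by
    rw [s2, s2, smul_comm]⟩
  have f1 : Module.Finite (C × C') B.carrier := by
    obtain ⟨s, hs⟩ := (Module.finite_def (R := C) (M := B.carrier)).1 inferInstance
    refine ⟨⟨s, ?_⟩⟩
    rw [eq_top_iff]
    rintro x -
    have hx : x ∈ Submodule.span C (s : Set B.carrier) := by rw [hs]; trivial
    induction hx using Submodule.span_induction with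
    | zero => exact Submodule.zero_mem _
    | add a b _ _ ha hb => exact Submodule.add_mem _ ha hb
    | smul c a _ ha => exact Submodule.smul_mem _ ((c, 0) : C × C') ha
    | mem a ha => exact Submodule.subset_span ha
  have f2 : Module.Finite (C × C') B'.carrier := by
    obtain ⟨s, hs⟩ := (Module.finite_def (R := C') (M := B'.carrier)).1 inferInstance
    refine ⟨⟨s, ?_⟩⟩
    rw [eq_top_iff]
    rintro x -
    have hx : x ∈ Submodule.span C' (s : Set B'.carrier) := by rw [hs]; trivial
    induction hx using Submodule.span_induction with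
    | zero => exact Submodule.zero_mem _
    | add a b _ _ ha hb => exact Submodule.add_mem _ ha hb
    | smul c a _ ha => exact Submodule.smul_mem _ ((0, c) : C × C') ha
    | mem a ha => exact Submodule.subset_span ha
  let m : Module (C × C') (prodAlg B B').carrier :=
    inferInstanceAs (Module (C × C') (B.carrier × B'.carrier))
  refine ⟨C × C', inferInstance, inferInstance, inferInstance, m, ?_⟩
  exact
    { tower := inferInstanceAs (IsScalarTower F (C × C') (B.carrier × B'.carrier))
      smul_mul := inferInstanceAs (IsScalarTower (C × C') (B.carrier × B'.carrier)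
        (B.carrier × B'.carrier))
      comm := inferInstanceAs (SMulCommClass (C × C') (B.carrier × B'.carrier)
        (B.carrier × B'.carrier))
      fin := inferInstanceAs (Module.Finite (C × C') (B.carrier × B'.carrier)) }

end Lew

open Lew

theorem lew {B B' : AssocAlg F} (hB : CFin B) (hB' : CFin B') :
    ∃ T : AssocAlg F, CFin T ∧ ∀ (Z : Type) [Fintype Z] (p : FA F Z), Sat T p →
      p ∈ Submodule.span F {q | ∃ s w : FA F Z, Sat B s ∧ Sat B' w ∧ q = s * w} := by
  obtain ⟨C, _, _, _, _, h, _⟩ := nontriv hB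
  obtain ⟨C', _, _, _, _, h', _⟩ := nontriv hB'
  have := h.tower
  have := h.smul_mul
  have := h.comm
  have := h.fin
  have := h'.tower
  have := h'.smul_mul
  have := h'.comm
  have := h'.fin
  have := finite_hull B C
  have := finite_hull B' C'
  have : IsScalarTower F C (Unitization C B.carrier) := IsScalarTower.of_algebraMap_eq' rfl
  have : IsScalarTower F C' (Unitization C' B'.carrier) := IsScalarTower.of_algebraMap_eq' rfl
  refine ⟨matAlg F (Unitization C B.carrier ⊗[F] Unitization C' B'.carrier),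
    cfin_tens (C := C) (C' := C'), fun Z _ p hp => ?_⟩
  have key := lewin_core (I := Z → B.carrier) (I' := Z → B'.carrier)
    (fun v => (jj B C).comp (ev B v)) (fun v => (jj B' C').comp (ev B' v)) p
    (fun v v' s _ => ev_matAlg _ ((Algebra.TensorProduct.map ((jj B C).comp (ev B v))
      ((jj B' C').comp (ev B' v'))).mapMatrix.comp (Th s)) p hp)
  refine Submodule.span_mono ?_ key
  rintro q ⟨s, w, hs, hw, rfl⟩
  refine ⟨s, w, fun v => jj_injective B C ?_, fun v => jj_injective B' C' ?_, rfl⟩
  · rw [map_zero]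
    exact hs v
  · rw [map_zero]
    exact hw v

/-- product of two C-finite algebras -/
theorem prod_cfin {B B' : AssocAlg F} (hB : CFin B) (hB' : CFin B') :
    ∃ T : AssocAlg F, CFin T ∧ ∀ (Z : Type) (p : FA F Z), Sat T p ↔ Sat B p ∧ Sat B' p := by
  refine ⟨prodAlg B B', cfin_prod hB hB', fun Z p => ⟨fun h => ⟨fun v => ?_, fun v => ?_⟩,
    fun h v => ?_⟩⟩
  · have := Umap_ev (A := prodAlg B B') (A' := B) (NonUnitalAlgHom.fst F B.carrier B'.carrier)
      (fun z => (v z, 0)) p
    rw [h, map_zero] at this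
    exact this.symm
  · have := Umap_ev (A := prodAlg B B') (A' := B') (NonUnitalAlgHom.snd F B.carrier B'.carrier)
      (fun z => (0, v z)) p
    rw [h, map_zero] at this
    exact this.symm
  · have h1 := Umap_ev (A := prodAlg B B') (A' := B) (NonUnitalAlgHom.fst F B.carrier B'.carrier)
      v p
    have h2 := Umap_ev (A := prodAlg B B') (A' := B') (NonUnitalAlgHom.snd F B.carrier B'.carrier)
      v p
    rw [h.1] at h1
    rw [h.2] at h2
    apply Unitization.ext
    · rw [← Umap_fst (A' := B) (NonUnitalAlgHom.fst F B.carrier B'.carrier)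
        (ev (prodAlg B B') v p), h1]
      rfl
    · refine Prod.ext ?_ ?_
      · have := Umap_snd (A := prodAlg B B') (A' := B)
          (NonUnitalAlgHom.fst F B.carrier B'.carrier) (ev (prodAlg B B') v p)
        rw [h1] at this
        exact this.symm
      · have := Umap_snd (A := prodAlg B B') (A' := B')
          (NonUnitalAlgHom.snd F B.carrier B'.carrier) (ev (prodAlg B B') v p)
        rw [h2] at this
        exact this.symm

end Pool.Agent.KEM
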