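import Pool.Agent.KEM.Mlin
import Pool.Agent.KEM.Api

/-!
Row Main (MP_1a662b_al), part 0: the step of the main induction, with all inputs as hypotheses.
-/

universe u

namespace Pool.Agent.KEM.Main

open Pool.Agent.Helper29 Pool.Agent.KEM

variable {F : Type u} [Field F]

/-! ### Elementary facts -/

theorem IdLe.refl (A : AssocAlg F) : IdLe A A := fun _ _ _ h => h

theorem IdLe.trans {A B C : AssocAlg F} (h : IdLe A B) (h' : IdLe B C) : IdLe A C :=
  fun Z p hp hA => h' Z p hp (h Z p hp hA)

theorem PI.of_idLe {A B : AssocAlg F} (h : IdLe A B) (hA : PI A) : PI B := by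
  obtain ⟨d, p, hp, h1, h2⟩ := hA
  exact ⟨d, p, hp, h1, h _ p hp h2⟩

theorem Van.of_idLe {A B : AssocAlg F} (h : IdLe A B) {n b g : ℕ} (hA : Van A n b g) :
    Van B n b g := fun Z _ _ p c hp ht => h Z p hp (hA Z p c hp ht)

theorem HasIndex.of_idLe {A B : AssocAlg F} (h : IdLe A B) (h' : IdLe B A) {b g : ℕ}
    (hA : HasIndex A b g) : HasIndex B b g where
  not_van n hn := hA.not_van n (Van.of_idLe h' hn)
  van_g := hA.van_g.imp fun _ hn => Van.of_idLe h hn
  van_b := hA.van_b.imp fun _ hn => Van.of_idLe h hn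

/-! ### Generators -/

/-- The elements of a generated algebra are combinations of words. -/
theorem span_words {R : AssocAlg F} {X : Type} {x : X → R.carrier} (hx : Gen R x)
    (r : R.carrier) : r ∈ Submodule.span F {s | ∃ w : List X, w ≠ [] ∧ s = wval x w} := by
  have hr : r ∈ NonUnitalAlgebra.adjoin F (Set.range x) := by
    unfold Gen at hx
    rw [hx]
    trivial
  induction hr using NonUnitalAlgebra.adjoin_induction with
  | mem s hs =>
    obtain ⟨t, rfl⟩ := hs
    exact Submodule.subset_span ⟨[t], by simp, rfl⟩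
  | add a b _ _ ha hb => exact Submodule.add_mem _ ha hb
  | zero => exact Submodule.zero_mem _
  | smul c a _ ha => exact Submodule.smul_mem _ c ha
  | mul a b h1 h2 ha hb =>
    clear h1 h2
    induction ha using Submodule.span_induction with
    | mem a ha =>
      obtain ⟨w, hw, rfl⟩ := ha
      induction hb using Submodule.span_induction with
      | mem b hb =>
        obtain ⟨w', hw', rfl⟩ := hb
        exact Submodule.subset_span ⟨w ++ w', by simp [hw], (Mlin.wval_append x hw hw').symm⟩
      | zero => rw [mul_zero]; exact Submodule.zero_mem _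
      | add b b' _ _ hb hb' => rw [mul_add]; exact Submodule.add_mem _ hb hb'
      | smul c b _ hb => rw [mul_smul_comm]; exact Submodule.smul_mem _ c hb
    | zero => rw [zero_mul]; exact Submodule.zero_mem _
    | add a a' _ _ ha ha' => rw [add_mul]; exact Submodule.add_mem _ ha ha'
    | smul c a _ ha => rw [smul_mul_assoc]; exact Submodule.smul_mem _ c ha

/-- Every element is the value at the generators of a polynomial all of whose values lie in the
algebra. -/
theorem exists_poly {R : AssocAlg F} {X : Type} {x : X → R.carrier} (hx : Gen R x)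
    (r : R.carrier) : ∃ q : FA F X, ev R x q = inc R r ∧
      ∀ (B : AssocAlg F) (v : X → B.carrier), ev B v q = inc B (evs B v q) := by
  have hr := span_words hx r
  induction hr using Submodule.span_induction with
  | mem s hs =>
    obtain ⟨w, hw, rfl⟩ := hs
    refine ⟨mon F (FreeMonoid.ofList w), Mlin.ev_mon_inc R x _ hw, fun B v => ?_⟩
    rw [evs, Mlin.ev_mon_inc B v (FreeMonoid.ofList w) hw]
    rfl
  | zero => exact ⟨0, by rw [map_zero]; rfl, fun B v => by rw [evs, map_zero]; rfl⟩
  | add a b _ _ ha hb =>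
    obtain ⟨q, hq, hq'⟩ := ha
    obtain ⟨p, hp, hp'⟩ := hb
    refine ⟨q + p, by rw [map_add, hq, hp, inc_add], fun B v => ?_⟩
    rw [Mlin.evs_add, map_add, inc_add, ← hq', ← hp']
  | smul c a _ ha =>
    obtain ⟨q, hq, hq'⟩ := ha
    refine ⟨c • q, by rw [map_smul, hq, inc_smul], fun B v => ?_⟩
    rw [Mlin.evs_smul, map_smul, inc_smul, ← hq']

/-- Every element of the unital hull is the value at the generators of a polynomial. -/
theorem exists_poly_U {R : AssocAlg F} {X : Type} {x : X → R.carrier} (hx : Gen R x)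
    (r : U R) : ∃ q : FA F X, ev R x q = r := by
  obtain ⟨q, hq, -⟩ := exists_poly hx r.snd
  refine ⟨algebraMap F (FA F X) r.fst + q, ?_⟩
  rw [map_add, hq, AlgHom.commutes]
  exact Unitization.inl_fst_add_inr_snd_eq r

/-- Elements of `VanSpan` are values at the generators of polynomials which vanish on every algebra
that satisfies the typed polynomials. -/
theorem exists_lift {R : AssocAlg F} {X : Type} {x : X → R.carrier} (hx : Gen R x) {n b g : ℕ}
    {r : U R} (hr : r ∈ VanSpan R n b g) : ∃ q : FA F X, ev R x q = r ∧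
      ∀ B : AssocAlg F, Van B n b g → Sat B q := by
  unfold VanSpan at hr
  induction hr using Submodule.span_induction with
  | mem r hr =>
    obtain ⟨Z, _, _, t, c, v, s, s', ht, hty, rfl⟩ := hr
    choose q hq hq' using fun z => exists_poly hx (v z)
    obtain ⟨a, ha⟩ := exists_poly_U hx s
    obtain ⟨a', ha'⟩ := exists_poly_U hx s'
    have he : ∀ (B : AssocAlg F) (u : X → B.carrier),
        ev B u (sbst q t) = ev B (fun z => evs B u (q z)) t := fun B u =>
      Mlin.ev_sbst B q u (fun z => hq' z B u) t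
    refine ⟨a * sbst q t * a', ?_, fun B hB u => ?_⟩
    · rw [map_mul, map_mul, ha, ha', he]
      congr 3
      congr 1
      funext z
      rw [evs, hq]
      rfl
    · rw [map_mul, map_mul, he, hB Z t c ht hty, mul_zero, zero_mul]
  | zero => exact ⟨0, map_zero _, fun B _ u => map_zero _⟩
  | add r r' _ _ h h' =>
    obtain ⟨q, hq, hq'⟩ := h
    obtain ⟨p, hp, hp'⟩ := h'
    exact ⟨q + p, by rw [map_add, hq, hp], fun B hB u => by
      rw [map_add, hq' B hB, hp' B hB, add_zero]⟩
  | smul c r _ h =>
    obtain ⟨q, hq, hq'⟩ := h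
    exact ⟨c • q, by rw [map_smul, hq], fun B hB u => by rw [map_smul, hq' B hB, smul_zero]⟩

/-! ### Multilinear expansion -/

/-- A multilinear polynomial which vanishes on all tuples of words in the generators is an
identity. -/
theorem sat_of_words {R : AssocAlg F} {X : Type} {x : X → R.carrier} (hx : Gen R x) {Z : Type}
    [Fintype Z] {p : FA F Z} (hp : p ∈ ML F Z)
    (h : ∀ w : Z → List X, (∀ z, w z ≠ []) → ev R (fun z => wval x (w z)) p = 0) :
    Sat R p := by
  classical
  have key : ∀ T : Finset Z, ∀ v : Z → R.carrier,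
      (∀ z, z ∉ T → ∃ w : List X, w ≠ [] ∧ v z = wval x w) → evs R v p = 0 := by
    intro T
    induction T using Finset.induction_on with
    | empty =>
      intro v hv
      choose w hw hw' using fun z => hv z (Finset.notMem_empty z)
      have hv' : v = fun z => wval x (w z) := funext hw'
      rw [hv']
      exact (Mlin.ev_eq_zero_iff R _ hp).1 (h w hw)
    | insert z T hz ih =>
      intro v hv
      have h1 : ∀ r : R.carrier, evs R (Function.update v z r) p = 0 := by
        intro r
        have hr := span_words hx r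
        induction hr using Submodule.span_induction with
        | mem r hr =>
          obtain ⟨w, hw, rfl⟩ := hr
          refine ih _ fun z' hz' => ?_
          by_cases e : z' = z
          · subst e
            exact ⟨w, hw, Function.update_self _ _ _⟩
          · rw [Function.update_of_ne e]
            exact hv z' (by simp [e, hz'])
        | zero =>
          have := Mlin.evs_update_smul R (L := F) hp v z 0 0
          rwa [zero_smul, zero_smul] at this
        | add r r' _ _ hr hr' => rw [Mlin.evs_update_add R hp, hr, hr', add_zero]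
        | smul c r _ hr => rw [Mlin.evs_update_smul R (L := F) hp, hr, smul_zero]
      rw [← Function.update_eq_self z v]
      exact h1 _
  intro v
  rw [Mlin.ev_eq_zero_iff R v hp]
  exact key Finset.univ v fun z hz => absurd (Finset.mem_univ z) hz

/-! ### Multidegrees -/

open Classical in
/-- Polynomials of multidegree `d`. -/
noncomputable def Deg (F : Type u) [Field F] {X : Type} (d : X → ℕ) : Submodule F (FA F X) :=
  Submodule.span F {p | ∃ w : FreeMonoid X,
    (∀ x, (FreeMonoid.toList w).count x = d x) ∧ p = mon F w}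

open Classical in
/-- The multidegree of a multilinear polynomial at words. -/
theorem sbst_mem_Deg {X Z : Type} [Fintype Z] (w : Z → List X) {p : FA F Z} (hp : p ∈ ML F Z) :
    sbst (fun z => mon F (FreeMonoid.ofList (w z))) p ∈ Deg F fun x => ∑ z, (w z).count x := by
  unfold ML at hp
  induction hp using Submodule.span_induction with
  | mem p hp =>
    obtain ⟨m, hm, rfl⟩ := hp
    refine Submodule.subset_span ⟨FreeMonoid.ofList ((FreeMonoid.toList m).flatMap w), ?_, ?_⟩
    · intro x
      show (FreeMonoid.toList (FreeMonoid.ofList ((FreeMonoid.toList m).flatMap w))).count x =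
        ∑ z, (w z).count x
      rw [FreeMonoid.toList_ofList, List.count_flatMap]
      have h1 : Finset.univ = (FreeMonoid.toList m).toFinset := by
        ext z
        simp [hm.2.2 z]
      rw [h1, List.sum_toFinset _ hm.2.1]
      rfl
    · rw [Mlin.sbst_mon]
      induction (FreeMonoid.toList m) with
      | nil => rfl
      | cons z l ih =>
        rw [List.map_cons, List.prod_cons, ih, List.flatMap_cons, FreeMonoid.ofList_append,
          mon_mul]
  | zero => rw [map_zero]; exact Submodule.zero_mem _
  | add p q _ _ hp hq => rw [map_add]; exact Submodule.add_mem _ hp hq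
  | smul c p _ hp => rw [map_smul]; exact Submodule.smul_mem _ c hp

/-- A multilinear identity implies the polynomials obtained by substituting words. -/
theorem sat_sbst {B : AssocAlg F} {X Z : Type} (w : Z → List X) (hw : ∀ z, w z ≠ [])
    {p : FA F Z} (hp : Sat B p) : Sat B (sbst (fun z => mon F (FreeMonoid.ofList (w z))) p) := by
  intro v
  rw [Mlin.ev_sbst B _ v (fun z => ?_)]
  · exact hp _
  · rw [evs, Mlin.ev_mon_inc B v (FreeMonoid.ofList (w z)) (hw z)]
    rfl

/-- The statement of row LIN that is used here. -/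
def LinStmt (F : Type u) [Field F] (X : Type) [Fintype X] : Prop :=
  ∀ d : X → ℕ, (∃ x, d x ≠ 0) →
    ∃ θ : FA F X →ₗ[F] FA F (Σ x, Fin (d x)),
      (∀ p, θ p ∈ ML F (Σ x, Fin (d x))) ∧
      (∀ (A : AssocAlg F) (p : FA F X), Sat A p → Sat A (θ p)) ∧
      ∀ p ∈ Deg F d, ren Sigma.fst (θ p) = (∏ x, ((d x).factorial : F)) • p

/-- The conclusion of row Phx. -/
def PhxStmt (A : AssocAlg F) (n b g : ℕ) : Prop :=
  ∀ (Z : Type) [Fintype Z] [DecidableEq Z] (z : FA F Z), z ∈ ML F Z →
    (∀ B : AssocAlg F, Van B n b g → Sat B z) → ¬ Sat A z → ∀ μ : ℕ,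
    ∃ (Z' : Type) (_ : Fintype Z') (_ : DecidableEq Z') (q : FA F Z')
      (c : Z' → Option (Fin μ ⊕ Fin g)),
      q ∈ ML F Z' ∧ Typed q μ b g c ∧ Imp z q ∧ ¬ Sat A q

/-- The step of the main induction. -/
theorem main_key [CharZero F] {R A S0 Bh : AssocAlg F} {X : Type} [Fintype X]
    {x : X → R.carrier} (hx : Gen R x) (hrel : ∀ p : FA F X, ev R x p = 0 → Sat R p)
    {b g n : ℕ} (hlin : LinStmt F X) (hAR : IdLe A R) (hphx : PhxStmt A n b g)
    (huse : ∀ (Z : Type) [Fintype Z] [DecidableEq Z] (p : FA F Z)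
      (c : Z → Option (Fin n ⊕ Fin g)), p ∈ ML F Z → Typed p n b g c → Sat R p → Sat A p)
    (hquo : ∀ (Z : Type) (p : FA F Z), Sat S0 p → ∀ v : Z → R.carrier,
      ev R v p ∈ VanSpan R n b g)
    (hRB : IdLe R Bh)
    (hBh : ∀ (Z : Type) [Fintype Z] [DecidableEq Z] (p : FA F Z)
      (c : Z → Option (Fin n ⊕ Fin g)), p ∈ ML F Z → Typed p n b g c → Sat Bh p → Sat R p)
    {Z : Type} [Fintype Z] {f : FA F Z} (hf : f ∈ ML F Z) (h0 : Sat S0 f) (hB : Sat Bh f) :
    Sat R f := by
  classical
  refine sat_of_words hx hf fun w hw => ?_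
  by_contra hne
  -- the polynomial `f(w)`
  set p0 : FA F X := sbst (fun z => mon F (FreeMonoid.ofList (w z))) f with hp0
  have hev : ev R x p0 = ev R (fun z => wval x (w z)) f := by
    rw [hp0, Mlin.ev_sbst R _ x (fun z => ?_)]
    · congr 2
      funext z
      exact Mlin.evs_mon R x (w := FreeMonoid.ofList (w z)) (hw z)
    · rw [evs, Mlin.ev_mon_inc R x (FreeMonoid.ofList (w z)) (hw z)]
      rfl
  have hp0ne : ev R x p0 ≠ 0 := by rwa [hev]
  obtain ⟨s, hs, hsV⟩ := exists_lift hx (hev ▸ hquo Z f h0 _ : ev R x p0 ∈ VanSpan R n b g)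
  have hi : Sat R (p0 - s) := hrel _ (by rw [map_sub, hs, sub_self])
  -- the multidegree
  set d : X → ℕ := fun x => ∑ z, (w z).count x with hd
  have hdeg : p0 ∈ Deg F d := sbst_mem_Deg w hf
  have hd0 : ∃ x, d x ≠ 0 := by
    by_contra hcon
    push Not at hcon
    have hZ : IsEmpty Z := by
      refine ⟨fun z => ?_⟩
      obtain ⟨y, hy⟩ := List.exists_mem_of_ne_nil _ (hw z)
      have h1 : (w z).count y = 0 := by
        have := hcon y
        rw [hd] at this
        exact (Finset.sum_eq_zero_iff.1 this) z (Finset.mem_univ z)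
      exact (List.count_eq_zero.1 h1) hy
    have : f = 0 := by
      unfold ML at hf
      have hempty : {p : FA F Z | ∃ w, MLW w ∧ p = mon F w} = ∅ := by
        ext p
        simp only [Set.mem_ofPred_eq, Set.mem_empty_iff_false, iff_false]
        rintro ⟨m, hm, -⟩
        obtain ⟨z, -⟩ := List.exists_mem_of_ne_nil _ hm.1
        exact hZ.elim z
      rw [hempty, Submodule.span_empty] at hf
      exact (Submodule.mem_bot F).1 hf
    exact hne (by rw [this, map_zero])
  obtain ⟨θ, θ1, θ2, θ3⟩ := hlin d hd0
  -- the polynomial `z`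
  have hz1 : ∀ B : AssocAlg F, Van B n b g → Sat B (θ s) := fun B hBV => θ2 B s (hsV B hBV)
  have hz2 : ∀ B : AssocAlg F, IdLe R B → Sat B f → Sat B (θ s) := by
    intro B hRB' hBf
    have h1 : Sat B (θ p0) := θ2 B p0 (sat_sbst w hw hBf)
    have h2 : Sat B (θ (p0 - s)) := hRB' _ _ (θ1 _) (θ2 R _ hi)
    have h3 : θ s = θ p0 - θ (p0 - s) := by rw [map_sub]; abel
    rw [h3]
    exact h1.sub h2
  have hz3 : ¬ Sat R (θ s) := by
    intro h
    have h1 : Sat R (θ p0) := by
      have h3 : θ p0 = θ s + θ (p0 - s) := by rw [map_sub]; abel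
      rw [h3]
      exact h.add (θ2 R _ hi)
    have h4 : Sat R (ren Sigma.fst (θ p0)) := h1.ren _
    rw [θ3 p0 hdeg] at h4
    have h5 : (∏ x, ((d x).factorial : F)) ≠ 0 :=
      Finset.prod_ne_zero_iff.2 fun x _ => Nat.cast_ne_zero.2 (Nat.factorial_ne_zero _)
    exact hp0ne ((Sat.of_smul h5 h4) x)
  have hzA : ¬ Sat A (θ s) := fun h => hz3 (hAR _ _ (θ1 _) h)
  obtain ⟨Z', _, _, q, c, hq, hty, himp, hqA⟩ :=
    hphx (Σ x, Fin (d x)) (θ s) (θ1 s) hz1 hzA n
  have hqR : ¬ Sat R q := fun h => hqA (huse Z' q c hq hty h)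
  exact hqR (hBh Z' q c hq hty (himp Bh (hz2 Bh hRB hB)))

end Pool.Agent.KEM.Main
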