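import Pool.Agent.KEM.Main0

/-!
Row Main (MP_1a662b_al), part 1: the main induction, with the rows it uses as hypotheses.
-/

universe u

namespace Pool.Agent.KEM.Main

open Pool.Agent.Helper29 Pool.Agent.KEM

/-- The rows that are used in the main induction. -/
structure Rows (F : Type u) [Field F] : Prop where
  lin : ∀ (X : Type) [Fintype X], LinStmt F X
  cap : ∀ A : AssocAlg F, FG A → PI A → ∃ N, Van A 1 N 0
  idx_exists : ∀ A : AssocAlg F, (∃ x : A.carrier, x ≠ 0) → ∀ N : ℕ, Van A 1 N 0 →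
    ∃ b g, HasIndex A b g
  idx_le : ∀ A B : AssocAlg F, IdLe A B → ∀ b g b' g' : ℕ, HasIndex A b g → HasIndex B b' g' →
    b' < b ∨ (b' = b ∧ g' ≤ g)
  use : ∀ R : AssocAlg F, FG R → PI R → (∃ x : R.carrier, x ≠ 0) →
    ∃ (A : AssocAlg F) (b g n0 : ℕ), IsFD A ∧ IdLe A R ∧ HasIndex A b g ∧ HasIndex R b g ∧
      ∀ n, n0 ≤ n → ∀ (Z : Type) [Fintype Z] [DecidableEq Z] (p : FA F Z)
        (c : Z → Option (Fin n ⊕ Fin g)), p ∈ ML F Z → Typed p n b g c → Sat R p → Sat A p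
  phx : ∀ A : AssocAlg F, IsFD A → ∀ b g : ℕ, HasIndex A b g → ∃ s, ∀ n, s ≤ n →
    PhxStmt A n b g
  quo : ∀ (A : AssocAlg F) (n b g : ℕ),
    ∃ B : AssocAlg F, IdLe A B ∧ (FG A → FG B) ∧ Van B n b g ∧
      ∀ (Z : Type) (p : FA F Z), Sat B p → ∀ v : Z → A.carrier, ev A v p ∈ VanSpan A n b g
  bhat : ∀ A : AssocAlg F, FG A → PI A → ∀ n b g n1 : ℕ, Van A n1 b (g + 1) → n1 + 2 ≤ n →
    ∃ B : AssocAlg F, CFin B ∧ IdLe A B ∧
      ∀ (Z : Type) [Fintype Z] [DecidableEq Z] (p : FA F Z) (c : Z → Option (Fin n ⊕ Fin g)),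
        p ∈ ML F Z → Typed p n b g c → Sat B p → Sat A p
  rel : ∀ R : AssocAlg F, FG R →
    ∃ (R' : AssocAlg F) (X : Type) (_ : Fintype X) (x : X → R'.carrier), Gen R' x ∧
      IdLe R R' ∧ IdLe R' R ∧ ∀ p : FA F X, ev R' x p = 0 → Sat R' p

variable {F : Type u} [Field F]

/-- The conclusion of row Main. -/
def Concl (R : AssocAlg F) : Prop :=
  ∃ l : List (AssocAlg F), (∀ B ∈ l, CFin B ∧ IdLe R B) ∧
    ∀ (Z : Type) [Fintype Z] (p : FA F Z), p ∈ ML F Z → (∀ B ∈ l, Sat B p) → Sat R p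

theorem concl_of_zero {R : AssocAlg F} (h : ¬ ∃ x : R.carrier, x ≠ 0) : Concl R := by
  push Not at h
  refine ⟨[], by simp, fun Z _ p hp _ v => ?_⟩
  rw [Mlin.ev_eq_zero_iff R v hp]
  exact h _

theorem sat_iff_of_ML_equiv {R R' : AssocAlg F} (h : IdLe R R') (h' : IdLe R' R) {Z : Type}
    {p : FA F Z} (hp : p ∈ ML F Z) : Sat R p ↔ Sat R' p := ⟨h Z p hp, h' Z p hp⟩

theorem main_of [CharZero F] (H : Rows F) (b : ℕ) : ∀ (g : ℕ) (R : AssocAlg F), FG R → PI R →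
    HasIndex R b g → Concl R := by
  induction b using Nat.strong_induction_on with
  | _ b ihb =>
  intro g
  induction g using Nat.strong_induction_on with
  | _ g ihg =>
  intro R0 hR0 hpi0 hidx0
  obtain ⟨R, X, _, x, hx, hle, hle', hrel⟩ := H.rel R0 hR0
  have hRfg : FG R := ⟨X, inferInstance, x, hx⟩
  have hRpi : PI R := PI.of_idLe hle hpi0
  have hidx : HasIndex R b g := HasIndex.of_idLe hle hle' hidx0
  suffices hR : Concl R by
    obtain ⟨l, hl1, hl2⟩ := hR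
    exact ⟨l, fun B hB => ⟨(hl1 B hB).1, IdLe.trans hle (hl1 B hB).2⟩,
      fun Z _ p hp hall => hle' Z p hp (hl2 Z p hp hall)⟩
  by_cases hne : ∃ x : R.carrier, x ≠ 0
  swap
  · exact concl_of_zero hne
  obtain ⟨A, b', g', n0, hA, hAR, hAidx, hRidx, huse⟩ := H.use R hRfg hRpi hne
  have hb : b' = b ∧ g' = g := by
    have h1 := H.idx_le R R (IdLe.refl R) b' g' b g hRidx hidx
    have h2 := H.idx_le R R (IdLe.refl R) b g b' g' hidx hRidx
    omega
  obtain ⟨rfl, rfl⟩ := hb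
  obtain ⟨s, hs⟩ := H.phx A hA b' g' hAidx
  obtain ⟨n1, hn1⟩ := hidx.van_g
  set n := max n0 (max s (n1 + 2)) with hn
  have hn0 : n0 ≤ n := le_max_left _ _
  have hns : s ≤ n := (le_max_left _ _).trans (le_max_right _ _)
  have hn12 : n1 + 2 ≤ n := (le_max_right _ _).trans (le_max_right _ _)
  obtain ⟨S0, hS1, hS2, hS3, hS4⟩ := H.quo R n b' g'
  obtain ⟨Bh, hB1, hB2, hB3⟩ := H.bhat R hRfg hRpi n b' g' n1 hn1 hn12
  -- the quotient has a smaller index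
  have hS : Concl S0 := by
    by_cases hne' : ∃ x : S0.carrier, x ≠ 0
    swap
    · exact concl_of_zero hne'
    have hSpi : PI S0 := PI.of_idLe hS1 hRpi
    obtain ⟨N, hN⟩ := H.cap S0 (hS2 hRfg) hSpi
    obtain ⟨b2, g2, hi2⟩ := H.idx_exists S0 hne' N hN
    have h3 := H.idx_le R S0 hS1 b' g' b2 g2 hidx hi2
    have h4 : ¬ (b2 = b' ∧ g2 = g') := by
      rintro ⟨rfl, rfl⟩
      exact hi2.not_van n hS3
    rcases h3 with h3 | ⟨h3, h3'⟩
    · exact ihb b2 h3 g2 S0 (hS2 hRfg) hSpi hi2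
    · subst h3
      have h5 : g2 < g' := lt_of_le_of_ne h3' fun e => h4 ⟨rfl, e⟩
      exact ihg g2 h5 S0 (hS2 hRfg) hSpi hi2
  obtain ⟨l, hl1, hl2⟩ := hS
  refine ⟨Bh :: l, ?_, fun Z _ f hf hall => ?_⟩
  · intro B hB
    rcases List.mem_cons.1 hB with rfl | hB
    · exact ⟨hB1, hB2⟩
    · exact ⟨(hl1 B hB).1, IdLe.trans hS1 (hl1 B hB).2⟩
  · have h0 : Sat S0 f := hl2 Z f hf fun B hB => hall B (List.mem_cons_of_mem _ hB)
    exact main_key hx hrel (H.lin X) hAR (hs n hns) (huse n hn0) hS4 hB2 hB3 hf h0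
      (hall Bh List.mem_cons_self)

theorem main_of' [CharZero F] (H : Rows F) {R : AssocAlg F} (hR : FG R) (hpi : PI R) :
    Concl R := by
  by_cases hne : ∃ x : R.carrier, x ≠ 0
  · obtain ⟨N, hN⟩ := H.cap R hR hpi
    obtain ⟨b, g, hi⟩ := H.idx_exists R hne N hN
    exact main_of H b g R hR hpi hi
  · exact concl_of_zero hne

end Pool.Agent.KEM.Main
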