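import Pool.Agent.KEM.Defs

/-!
# Project KEM, row WM: matrix units in finite-dimensional algebras

Wedderburn-Malcev data (matrix units and the radical) of a finite-dimensional, not necessarily
unital, algebra over an algebraically closed field.
-/

set_option autoImplicit false
set_option linter.style.haveILetI false

universe u

namespace Pool.Agent.KEM

open Pool.Agent.Helper29

section lift

variable {R S : Type*} [Ring R] [Ring S]

/-- lifting of a pair of mutually inverse elements between two idempotents -/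
theorem lift_pair (f : R →+* S) (hf : Function.Surjective f)
    (hnil : ∀ x, f x = 0 → IsNilpotent x) {E G : R} (hE : E * E = E) (hG : G * G = G)
    {a b : S} (hab : a * b = f E) (hba : b * a = f G) (hEa : f E * a = a) (haG : a * f G = a)
    (hGb : f G * b = b) (hbE : b * f E = b) :
    ∃ y x : R, f y = a ∧ f x = b ∧ y * x = E ∧ x * y = G ∧ E * y = y ∧ y * G = y ∧
      G * x = x ∧ x * E = x := by
  obtain ⟨a0, ha0⟩ := hf a
  obtain ⟨b0, hb0⟩ := hf b
  set a1 := E * a0 * G with ha1
  set b1 := G * b0 * E with hb1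
  have fa1 : f a1 = a := by rw [ha1, map_mul, map_mul, ha0, hEa, haG]
  have fb1 : f b1 = b := by rw [hb1, map_mul, map_mul, hb0, hGb, hbE]
  have Ea1 : E * a1 = a1 := by rw [ha1, ← mul_assoc, ← mul_assoc, hE]
  have a1G : a1 * G = a1 := by rw [ha1, mul_assoc, hG]
  have Gb1 : G * b1 = b1 := by rw [hb1, ← mul_assoc, ← mul_assoc, hG]
  have b1E : b1 * E = b1 := by rw [hb1, mul_assoc, hE]
  set j := E - a1 * b1 with hj
  have fj : f j = 0 := by rw [hj, map_sub, map_mul, fa1, fb1, hab, sub_self]
  have Ej : E * j = j := by rw [hj, mul_sub, hE, ← mul_assoc, Ea1]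
  have jE : j * E = j := by rw [hj, sub_mul, hE, mul_assoc, b1E]
  obtain ⟨v, hv⟩ := (hnil j fj).isUnit_one_sub
  have hcomm : E * (v : R) = v * E := by
    rw [hv, mul_sub, sub_mul, Ej, jE, mul_one, one_mul]
  have hcomm' : E * (↑v⁻¹ : R) = ↑v⁻¹ * E := by
    calc E * (↑v⁻¹ : R) = ↑v⁻¹ * (v * E) * ↑v⁻¹ := by rw [← mul_assoc (↑v⁻¹ : R), v.inv_mul, one_mul]
      _ = ↑v⁻¹ * (E * v) * ↑v⁻¹ := by rw [hcomm]
      _ = ↑v⁻¹ * E := by rw [mul_assoc, mul_assoc, v.mul_inv, mul_one]
  have fv : f (v : R) = 1 := by rw [hv, map_sub, fj, map_one, sub_zero]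
  have fv' : f (↑v⁻¹ : R) = 1 := by
    have h := congrArg f v.inv_mul
    rw [map_mul, fv, mul_one, map_one] at h
    exact h
  have hab1 : a1 * b1 = E * v := by
    rw [hv, mul_sub, Ej, mul_one, hj]; abel
  have hyx : (↑v⁻¹ * a1) * b1 = E := by
    rw [mul_assoc, hab1, hcomm, ← mul_assoc, v.inv_mul, one_mul]
  have hEy : E * (↑v⁻¹ * a1) = ↑v⁻¹ * a1 := by
    rw [← mul_assoc, hcomm', mul_assoc, Ea1]
  have hyG : (↑v⁻¹ * a1) * G = ↑v⁻¹ * a1 := by rw [mul_assoc, a1G]
  set y := (↑v⁻¹ : R) * a1 with hy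
  have fy : f y = a := by rw [hy, map_mul, fv', fa1, one_mul]
  have hg : (G - b1 * y) * (G - b1 * y) = G - b1 * y := by
    have e1 : (b1 * y) * (b1 * y) = b1 * y := by
      calc (b1 * y) * (b1 * y) = b1 * (y * b1) * y := by simp only [mul_assoc]
        _ = b1 * y := by rw [hyx, b1E]
    have e2 : G * (b1 * y) = b1 * y := by rw [← mul_assoc, Gb1]
    have e3 : (b1 * y) * G = b1 * y := by rw [mul_assoc, hyG]
    rw [mul_sub, sub_mul, sub_mul, hG, e1, e2, e3]; abel
  have hg0 : G - b1 * y = 0 := by
    obtain ⟨n, hn⟩ := hnil (G - b1 * y) (by rw [map_sub, map_mul, fb1, fy, hba, sub_self])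
    have hpow : ∀ k : ℕ, (G - b1 * y) ^ (k + 1) = G - b1 * y := by
      intro k
      induction k with
      | zero => rw [zero_add, pow_one]
      | succ k ih => rw [pow_succ, ih, hg]
    rw [← hpow n, pow_succ, hn, zero_mul]
  exact ⟨y, b1, fy, fb1, hyx, (sub_eq_zero.1 hg0).symm, hEy, hyG, Gb1, b1E⟩

end lift

section unital

variable {L C : Type u} [Field L] [Ring C] [Algebra L C]

/-- matrix units of a product of matrix algebras -/
def mue (L : Type u) [Field L] {n : ℕ} (d : Fin n → ℕ) (i : Fin n) (p q : Fin (d i)) :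
    Π i, Matrix (Fin (d i)) (Fin (d i)) L := Pi.single i (Matrix.single p q 1)

theorem mue_mul {n : ℕ} {d : Fin n → ℕ} (i : Fin n) (p q r : Fin (d i)) :
    mue L d i p q * mue L d i q r = mue L d i p r := by
  unfold mue
  rw [← Pi.single_mul, Matrix.single_mul_single_same, one_mul]

theorem mue_mul_ne {n : ℕ} {d : Fin n → ℕ} (i : Fin n) (p q q' r : Fin (d i)) (h : q ≠ q') :
    mue L d i p q * mue L d i q' r = 0 := by
  unfold mue
  rw [← Pi.single_mul, Matrix.single_mul_single_of_ne _ _ _ _ h, Pi.single_zero]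

theorem mue_mul_block {n : ℕ} {d : Fin n → ℕ} (i j : Fin n) (p q : Fin (d i)) (p' q' : Fin (d j))
    (h : i ≠ j) : mue L d i p q * mue L d j p' q' = 0 := by
  unfold mue
  funext k
  rw [Pi.mul_apply, Pi.zero_apply]
  by_cases hk : k = i
  · subst hk
    rw [Pi.single_eq_of_ne h, mul_zero]
  · rw [Pi.single_eq_of_ne hk, zero_mul]

theorem mue_basis {n : ℕ} (d : Fin n → ℕ) (x : Σ i : Fin n, Fin (d i) × Fin (d i)) :
    Pi.basis (fun i => Matrix.stdBasis L (Fin (d i)) (Fin (d i))) x = mue L d x.1 x.2.1 x.2.2 := by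
  rw [Pi.basis_apply]
  unfold mue
  rw [← Matrix.stdBasis_eq_single]

theorem mue_sum {n : ℕ} (d : Fin n → ℕ) :
    ∑ x : (Σ i : Fin n, Fin (d i)), mue L d x.1 x.2 x.2 = 1 := by
  classical
  funext i
  rw [Finset.sum_apply, Fintype.sum_sigma, Finset.sum_eq_single i]
  · simp only [mue, Pi.single_eq_same]
    rw [Pi.one_apply]
    ext k l
    rw [Matrix.sum_apply]
    simp only [Matrix.single_apply, Matrix.one_apply]
    by_cases hkl : k = l
    · subst hkl; simp
    · rw [if_neg hkl]
      refine Finset.sum_eq_zero (fun m _ => ?_)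
      rw [if_neg]
      rintro ⟨rfl, rfl⟩
      exact hkl rfl
  · intro j _ hj
    refine Finset.sum_eq_zero (fun k _ => ?_)
    simp only [mue, Pi.single_eq_of_ne hj.symm]
  · intro h; exact absurd (Finset.mem_univ i) h

/-- matrix units lift modulo a nil ideal -/
theorem lift_mue {n : ℕ} (d : Fin n → ℕ) (f : C →ₐ[L] Π i, Matrix (Fin (d i)) (Fin (d i)) L)
    (hf : Function.Surjective f) (hnil : ∀ x, f x = 0 → IsNilpotent x) :
    ∃ e : (i : Fin n) → Fin (d i) → Fin (d i) → C,
      (∀ i p q, f (e i p q) = mue L d i p q) ∧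
      (∀ i p q r, e i p q * e i q r = e i p r) ∧
      (∀ i p q q' r, q ≠ q' → e i p q * e i q' r = 0) ∧
      (∀ i j p q p' q', i ≠ j → e i p q * e j p' q' = 0) ∧
      ∑ x : (Σ i : Fin n, Fin (d i)), e x.1 x.2 x.2 = 1 := by
  classical
  have hid : CompleteOrthogonalIdempotents
      (fun x : (Σ i : Fin n, Fin (d i)) => mue L d x.1 x.2 x.2) :=
    { idem := fun x => mue_mul x.1 x.2 x.2 x.2
      ortho := by
        rintro ⟨i, p⟩ ⟨j, q⟩ hxy
        by_cases hij : i = j
        · subst hij
          refine mue_mul_ne i p p q q ?_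
          rintro rfl
          exact hxy rfl
        · exact mue_mul_block i j p p q q hij
      complete := mue_sum d }
  obtain ⟨E, hE, hfE⟩ := CompleteOrthogonalIdempotents.lift_of_isNilpotent_ker
    (f : C →+* Π i, Matrix (Fin (d i)) (Fin (d i)) L)
    (fun x hx => hnil x hx) hid (fun x => hf _)
  have hfE' : ∀ i p, f (E ⟨i, p⟩) = mue L d i p p := fun i p => congrFun hfE ⟨i, p⟩
  have hex : ∀ (i : Fin n) (o p : Fin (d i)), ∃ y x : C, f y = mue L d i o p ∧
      f x = mue L d i p o ∧ y * x = E ⟨i, o⟩ ∧ x * y = E ⟨i, p⟩ ∧ E ⟨i, o⟩ * y = y ∧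
      y * E ⟨i, p⟩ = y ∧ E ⟨i, p⟩ * x = x ∧ x * E ⟨i, o⟩ = x := by
    intro i o p
    refine lift_pair (f : C →+* Π i, Matrix (Fin (d i)) (Fin (d i)) L) hf hnil
      (hE.idem _) (hE.idem _) ?_ ?_ ?_ ?_ ?_ ?_
    · exact (mue_mul i o p o).trans (hfE' i o).symm
    · exact (mue_mul i p o p).trans (hfE' i p).symm
    · exact (congrArg (· * _) (hfE' i o)).trans (mue_mul i o o p)
    · exact (congrArg (_ * ·) (hfE' i p)).trans (mue_mul i o p p)
    · exact (congrArg (· * _) (hfE' i p)).trans (mue_mul i p p o)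
    · exact (congrArg (_ * ·) (hfE' i o)).trans (mue_mul i p o o)
  choose y x hy hx hyx hxy hEy hyE hEx hxE using hex
  -- the first index of a block
  let o : (i : Fin n) → Fin (d i) → Fin (d i) := fun i p =>
    ⟨0, lt_of_le_of_lt (Nat.zero_le _) p.isLt⟩
  have ho : ∀ i p q, o i p = o i q := fun i p q => rfl
  refine ⟨fun i p q => x i (o i p) p * y i (o i p) q, ?_, ?_, ?_, ?_, ?_⟩
  · intro i p q
    rw [map_mul, hx, hy, mue_mul]
  · intro i p q r
    show x i (o i p) p * y i (o i p) q * (x i (o i p) q * y i (o i p) r) =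
      x i (o i p) p * y i (o i p) r
    rw [mul_assoc, ← mul_assoc (y i (o i p) q), hyx, hEy]
  · intro i p q q' r hq
    have h0 : y i (o i p) q * x i (o i q') q' = 0 := by
      rw [← hyE i (o i p) q, ← hEx i (o i q') q', mul_assoc, ← mul_assoc (E ⟨i, q⟩),
        hE.ortho (by rintro h; exact hq (by simpa using h)), zero_mul, mul_zero]
    show x i (o i p) p * y i (o i p) q * (x i (o i q') q' * y i (o i q') r) = 0
    rw [mul_assoc, ← mul_assoc (y i (o i p) q), h0, zero_mul, mul_zero]
  · intro i j p q p' q' hij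
    have h0 : y i (o i p) q * x j (o j p') p' = 0 := by
      rw [← hyE i (o i p) q, ← hEx j (o j p') p', mul_assoc, ← mul_assoc (E ⟨i, q⟩),
        hE.ortho (by rintro h; exact hij (congrArg Sigma.fst h)), zero_mul, mul_zero]
    show x i (o i p) p * y i (o i p) q * (x j (o j p') p' * y j (o j p') q') = 0
    rw [mul_assoc, ← mul_assoc (y i (o i p) q), h0, zero_mul, mul_zero]
  · have : ∀ z : (Σ i : Fin n, Fin (d i)),
        x z.1 (o z.1 z.2) z.2 * y z.1 (o z.1 z.2) z.2 = E z := fun z => hxy z.1 _ z.2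
    simp only [this]
    exact hE.complete

end unital

section main

variable {L A : Type u} [Field L] [NonUnitalRing A] [Module L A] [IsScalarTower L A A]
  [SMulCommClass L A A]

theorem inr_nprod_mem (J : Ideal (Unitization L A)) [J.IsTwoSided] : ∀ (s : ℕ) (v : Fin (s + 1) → A),
    (∀ i, (Unitization.inr (v i) : Unitization L A) ∈ J) →
      (Unitization.inr (nprod v) : Unitization L A) ∈ J ^ (s + 1)
  | 0, v, h => by
    rw [zero_add, Submodule.pow_one]
    exact h 0
  | s + 1, v, h => by
    have h1 := inr_nprod_mem J s (fun i => v i.castSucc) (fun i => h _)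
    have h2 : (Unitization.inr (nprod v) : Unitization L A) =
        Unitization.inr (nprod fun i => v i.castSucc) * Unitization.inr (v (Fin.last _)) := by
      rw [← Unitization.inr_mul]; rfl
    rw [h2, Ideal.IsTwoSided.pow_add, Submodule.pow_one]
    exact Ideal.mul_mem_mul h1 (h _)

theorem wm (L A : Type u) [Field L] [IsAlgClosed L] [NonUnitalRing A] [Module L A]
    [IsScalarTower L A A] [SMulCommClass L A A] [Module.Finite L A] : Nonempty (WMData L A) := by
  classical
  have : Module.Finite L (Unitization L A) :=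
    Module.Finite.equiv (Unitization.linearEquiv L L A).symm
  have : IsArtinianRing (Unitization L A) := IsArtinianRing.of_finite L _
  obtain ⟨N, hN⟩ := IsSemiprimaryRing.isNilpotent (R := Unitization L A)
  set J := Ring.jacobson (Unitization L A) with hJdef
  have : IsArtinianRing (Unitization L A ⧸ J) := IsArtinianRing.of_finite L _
  have : IsSemisimpleRing (Unitization L A ⧸ J) :=
    IsArtinianRing.isSemisimpleRing_iff_jacobson.2 (Ring.jacobson_quotient_jacobson _)
  obtain ⟨n, d, hd, ⟨φ⟩⟩ :=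
    IsSemisimpleRing.exists_algEquiv_pi_matrix_of_isAlgClosed L (Unitization L A ⧸ J)
  let f : Unitization L A →ₐ[L] Π i, Matrix (Fin (d i)) (Fin (d i)) L :=
    (φ : (Unitization L A ⧸ J) →ₐ[L] _).comp (Ideal.Quotient.mkₐ L J)
  have hf : Function.Surjective f := φ.surjective.comp Ideal.Quotient.mk_surjective
  have hker : ∀ x, f x = 0 ↔ x ∈ J := by
    intro x
    have h1 : f x = φ (Ideal.Quotient.mk J x) := rfl
    rw [h1, EmbeddingLike.map_eq_zero_iff, Ideal.Quotient.eq_zero_iff_mem]
  have hnilJ : ∀ x ∈ J, x ^ N = 0 := by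
    intro x hx
    have h3 : x ^ N ∈ J ^ N := Ideal.pow_mem_pow hx N
    rwa [hN] at h3
  obtain ⟨e, hfe, hmul, hne, hblock, hsum⟩ :=
    lift_mue d f hf (fun x hx => ⟨N, hnilJ x ((hker x).1 hx)⟩)
  -- the character
  let χ : Unitization L A →ₐ[L] L := Unitization.fstHom L A
  have hχJ : ∀ x ∈ J, χ x = 0 := by
    intro x hx
    have h4 := congrArg χ (hnilJ x hx)
    rw [map_pow, map_zero] at h4
    exact eq_zero_of_pow_eq_zero h4
  have hχ1 : ∑ x : (Σ i : Fin n, Fin (d i)), χ (e x.1 x.2 x.2) = 1 := by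
    rw [← map_sum, hsum, map_one]
  obtain ⟨⟨i0, p0⟩, -, hi0⟩ := Finset.exists_ne_zero_of_sum_ne_zero (hχ1.trans_ne one_ne_zero)
  dsimp only at hi0
  -- all other blocks lie in `A`
  have hother : ∀ i p q, i ≠ i0 → χ (e i p q) = 0 := by
    intro i p q hi
    have h1 : χ (e i0 p0 p0) * χ (e i p q) = 0 := by
      rw [← map_mul, hblock i0 i p0 p0 p q hi.symm, map_zero]
    exact (mul_eq_zero.1 h1).resolve_left hi0
  have hd1 : ∀ p : Fin (d i0), p = p0 := by
    intro p
    by_contra hp
    have h1 : χ (e i0 p0 p) * χ (e i0 p p0) = χ (e i0 p0 p0) := by rw [← map_mul, hmul]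
    have h2 : χ (e i0 p0 p0) * χ (e i0 p p) = 0 := by
      rw [← map_mul, hne i0 p0 p0 p p (Ne.symm hp), map_zero]
    have h3 : χ (e i0 p p) = 0 := (mul_eq_zero.1 h2).resolve_left hi0
    have h4 : χ (e i0 p p0) * χ (e i0 p0 p) = χ (e i0 p p) := by rw [← map_mul, hmul]
    rw [mul_comm, h4, h3] at h1
    exact hi0 h1.symm
  -- the block indices
  let σ : Fin (Fintype.card {i : Fin n // i ≠ i0}) → Fin n := fun t =>
    ((Fintype.equivFin {i : Fin n // i ≠ i0}).symm t).1
  have hσne : ∀ t, σ t ≠ i0 := fun t => ((Fintype.equivFin {i : Fin n // i ≠ i0}).symm t).2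
  have hσinj : Function.Injective σ := Subtype.val_injective.comp (Equiv.injective _)
  have hσsurj : ∀ i, i ≠ i0 → ∃ t, σ t = i := by
    intro i hi
    refine ⟨Fintype.equivFin {i : Fin n // i ≠ i0} ⟨i, hi⟩, ?_⟩
    simp only [σ, Equiv.symm_apply_apply]
  let e' : (t : Fin (Fintype.card {i : Fin n // i ≠ i0})) → Fin (d (σ t)) → Fin (d (σ t)) → A :=
    fun t p q => (e (σ t) p q).snd
  have he' : ∀ t p q, (Unitization.inr (e' t p q) : Unitization L A) = e (σ t) p q := by
    intro t p q
    have h1 : (e (σ t) p q).fst = 0 := hother (σ t) p q (hσne t)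
    conv_rhs => rw [← Unitization.inl_fst_add_inr_snd_eq (e (σ t) p q), h1, Unitization.inl_zero,
      zero_add]
  have hinr : Function.Injective (Unitization.inr : A → Unitization L A) :=
    Unitization.inr_injective
  let JA : Submodule L A :=
    { carrier := {a | (Unitization.inr a : Unitization L A) ∈ J}
      add_mem' := by
        intro a b ha hb
        show (Unitization.inr (a + b) : Unitization L A) ∈ J
        rw [Unitization.inr_add]
        exact J.add_mem ha hb
      zero_mem' := by
        show (Unitization.inr 0 : Unitization L A) ∈ J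
        rw [Unitization.inr_zero]
        exact J.zero_mem
      smul_mem' := by
        intro c a ha
        show (Unitization.inr (c • a) : Unitization L A) ∈ J
        have h1 : (Unitization.inr (c • a) : Unitization L A) =
            algebraMap L (Unitization L A) c * Unitization.inr a := by
          rw [← Algebra.smul_def, Unitization.inr_smul]
        rw [h1]
        exact J.mul_mem_left _ ha }
  have hJA : ∀ a, a ∈ JA ↔ (Unitization.inr a : Unitization L A) ∈ J := fun a => Iff.rfl
  -- linear independence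
  let g : A →ₗ[L] Π i, Matrix (Fin (d i)) (Fin (d i)) L :=
    f.toLinearMap.comp (Unitization.inrHom L L A)
  have hg : ∀ a, g a = f (Unitization.inr a) := fun a => rfl
  have hgJ : ∀ a, g a = 0 ↔ a ∈ JA := fun a => by rw [hg, hker, hJA]
  have hli : LinearIndependent L (g ∘ fun x : (Σ i : Fin (Fintype.card {i : Fin n // i ≠ i0}),
      Fin (d (σ i)) × Fin (d (σ i))) => e' x.1 x.2.1 x.2.2) := by
    let τ : (Σ i : Fin (Fintype.card {i : Fin n // i ≠ i0}), Fin (d (σ i)) × Fin (d (σ i))) →
        (Σ i : Fin n, Fin (d i) × Fin (d i)) := fun x => ⟨σ x.1, x.2⟩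
    have hτ : Function.Injective τ := by
      rintro ⟨i, x⟩ ⟨j, y⟩ h
      have h1 : σ i = σ j := congrArg Sigma.fst h
      have h2 : i = j := hσinj h1
      subst h2
      have h3 : x = y := by simpa [τ] using h
      rw [h3]
    have h1 := (Pi.basis (fun i => Matrix.stdBasis L (Fin (d i)) (Fin (d i)))).linearIndependent.comp
      τ hτ
    have h2 : (g ∘ fun x : (Σ i : Fin (Fintype.card {i : Fin n // i ≠ i0}),
        Fin (d (σ i)) × Fin (d (σ i))) => e' x.1 x.2.1 x.2.2) =
        (Pi.basis (fun i => Matrix.stdBasis L (Fin (d i)) (Fin (d i)))) ∘ τ := by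
      funext x
      rw [Function.comp_apply, Function.comp_apply, hg, he', hfe, mue_basis]
    rw [h2]
    exact h1
  refine ⟨{
    m := Fintype.card {i : Fin n // i ≠ i0}
    n := fun t => d (σ t)
    npos := fun t => Nat.pos_of_ne_zero (hd (σ t)).out
    e := e'
    J := JA
    s := N
    J_left := ?_
    J_right := ?_
    J_nil := ?_
    e_mul := ?_
    e_mul_ne := ?_
    e_mul_block := ?_
    span_top := ?_
    li := LinearIndependent.of_comp g hli
    disj := ?_ }⟩
  · intro a x hx
    rw [hJA, Unitization.inr_mul]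
    exact J.mul_mem_left _ hx
  · intro a x hx
    rw [hJA, Unitization.inr_mul]
    exact J.mul_mem_right _ hx
  · intro v hv
    have h1 := Ideal.pow_le_pow_right (Nat.le_succ N) (inr_nprod_mem J N v hv)
    rw [hN] at h1
    exact hinr (h1.trans (Unitization.inr_zero L).symm)
  · intro i p q r
    apply hinr
    rw [Unitization.inr_mul, he', he', he', hmul]
  · intro i p q q' r hq
    apply hinr
    rw [Unitization.inr_mul, he', he', hne _ _ _ _ _ hq, Unitization.inr_zero]
  · intro i j p q p' q' hij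
    apply hinr
    rw [Unitization.inr_mul, he', he', hblock _ _ _ _ _ _ (fun h => hij (hσinj h)),
      Unitization.inr_zero]
  · rw [eq_top_iff]
    rintro a -
    have hb : ∀ c : Π i, Matrix (Fin (d i)) (Fin (d i)) L,
        c = ∑ x : (Σ i : Fin n, Fin (d i) × Fin (d i)), c x.1 x.2.1 x.2.2 • mue L d x.1 x.2.1 x.2.2 := by
      intro c
      conv_lhs => rw [← (Pi.basis (fun i => Matrix.stdBasis L (Fin (d i)) (Fin (d i)))).sum_repr c]
      refine Finset.sum_congr rfl (fun x _ => ?_)
      rw [mue_basis]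
      congr 1
    set c := f (Unitization.inr a) with hc
    set z : Unitization L A :=
      ∑ x : (Σ i : Fin n, Fin (d i) × Fin (d i)), c x.1 x.2.1 x.2.2 • e x.1 x.2.1 x.2.2 with hz
    have hfz : f z = c := by
      rw [hz, map_sum]
      conv_rhs => rw [hb c]
      refine Finset.sum_congr rfl (fun x _ => ?_)
      rw [map_smul, hfe]
    have hzJ : Unitization.inr a - z ∈ J := by
      rw [← hker, map_sub, hfz, sub_self]
    have hχz : χ z = 0 := by
      have h1 := hχJ _ hzJ
      have h2 : χ (Unitization.inr a : Unitization L A) = 0 := rfl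
      rw [map_sub, h2, zero_sub, neg_eq_zero] at h1
      exact h1
    have hc0 : c i0 p0 p0 = 0 := by
      rw [hz, map_sum, Finset.sum_eq_single (⟨i0, (p0, p0)⟩ : Σ i : Fin n, Fin (d i) × Fin (d i))]
        at hχz
      · rw [map_smul, smul_eq_mul] at hχz
        exact (mul_eq_zero.1 hχz).resolve_right hi0
      · rintro ⟨i, p, q⟩ - hx
        rw [map_smul, smul_eq_mul]
        dsimp only
        rw [hother i p q (by
          rintro rfl
          exact hx (by rw [hd1 p, hd1 q])), mul_zero]
      · intro h; exact absurd (Finset.mem_univ _) h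
    have hzspan : z.snd ∈ Submodule.span L {a | ∃ i p q, a = e' i p q} := by
      have h1 : z.snd = ∑ x : (Σ i : Fin n, Fin (d i) × Fin (d i)),
          c x.1 x.2.1 x.2.2 • (e x.1 x.2.1 x.2.2).snd := by
        have h2 : z.snd = Unitization.sndHom L L A z := rfl
        rw [h2, hz, map_sum]
        refine Finset.sum_congr rfl (fun x _ => ?_)
        rw [map_smul]
        rfl
      rw [h1]
      refine Submodule.sum_mem _ (fun x _ => ?_)
      obtain ⟨i, p, q⟩ := x
      dsimp only
      by_cases hi : i = i0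
      · subst hi
        rw [hd1 p, hd1 q, hc0, zero_smul]
        exact Submodule.zero_mem _
      · obtain ⟨t, rfl⟩ := hσsurj i hi
        exact Submodule.smul_mem _ _ (Submodule.subset_span ⟨t, p, q, rfl⟩)
    have hfst : (Unitization.inr a - z : Unitization L A).fst = 0 := hχJ _ hzJ
    have ha : a = z.snd + (Unitization.inr a - z : Unitization L A).snd := by
      have h1 : (Unitization.inr a - z : Unitization L A).snd = a - z.snd :=
        map_sub (Unitization.sndHom L L A) (Unitization.inr a) z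
      rw [h1]; abel
    rw [ha]
    refine Submodule.add_mem_sup hzspan ?_
    rw [hJA]
    have h2 : (Unitization.inr (Unitization.inr a - z : Unitization L A).snd : Unitization L A) =
        Unitization.inr a - z := by
      conv_rhs => rw [← Unitization.inl_fst_add_inr_snd_eq (Unitization.inr a - z), hfst,
        Unitization.inl_zero, zero_add]
    rw [h2]
    exact hzJ
  · have hset : {a | ∃ i p q, a = e' i p q} = Set.range
        (fun x : (Σ i : Fin (Fintype.card {i : Fin n // i ≠ i0}),
          Fin (d (σ i)) × Fin (d (σ i))) => e' x.1 x.2.1 x.2.2) := by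
      ext a
      constructor
      · rintro ⟨i, p, q, rfl⟩
        exact ⟨⟨i, (p, q)⟩, rfl⟩
      · rintro ⟨⟨i, p, q⟩, rfl⟩
        exact ⟨i, p, q, rfl⟩
    rw [hset, Submodule.disjoint_def]
    intro a ha haJ
    obtain ⟨c, rfl⟩ := (Submodule.mem_span_range_iff_exists_fun L).1 ha
    have h1 := (hgJ _).2 haJ
    rw [map_sum] at h1
    have h2 := Fintype.linearIndependent_iff.1 hli c (by
      rw [← h1]
      refine Finset.sum_congr rfl (fun x _ => ?_)
      rw [map_smul, Function.comp_apply])
    refine Finset.sum_eq_zero (fun x _ => ?_)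
    rw [h2 x, zero_smul]

end main

end Pool.Agent.KEM
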