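import Pool.Agent.KEM.EntAlt
import Pool.Agent.KEM.APk
import Pool.Agent.KEM.WM
import Pool.Agent.KEM.Idx
import Pool.Agent.KEM.Constr

/-!
# Row Phx: the Phoenix property
-/

universe u

namespace Pool.Agent.KEM

open Pool.Agent.Helper29

section

variable {F L : Type u} [Field F] [Field L] [Algebra F L]

theorem inP_blocks {A : Type u} [NonUnitalRing A] [Module L A] {W : WMData L A} {Z : Type}
    [Fintype Z] (a : Z → W.Ent) (z : Z) : (a z).InP (WMData.blocks a) := by
  constructor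
  · intro i hi
    simp only [WMData.blocks, Finset.mem_filter, Finset.mem_univ, true_and]
    exact ⟨z, Or.inl hi⟩
  · intro i hi
    simp only [WMData.blocks, Finset.mem_filter, Finset.mem_univ, true_and]
    exact ⟨z, Or.inr hi⟩

/-- A nonzero evaluation with the least number of radical entries. -/
theorem exists_min_eval {A : AssocAlg F} [Module L A.carrier] (hA : FinOver F L A)
    (W : WMData L A.carrier) {Z : Type} [Fintype Z] {p : FA F Z} (hp : p ∈ ML F Z)
    (h : ¬ Sat A p) : ∃ a : Z → W.Ent, ev A (fun z => (a z).val) p ≠ 0 ∧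
      ∀ a' : Z → W.Ent, WMData.radc a' < WMData.radc a → ev A (fun z => (a' z).val) p = 0 := by
  classical
  have hex : ∃ k, ∃ a : Z → W.Ent, WMData.radc a = k ∧ ev A (fun z => (a z).val) p ≠ 0 := by
    obtain ⟨a, ha⟩ := ent_eval hA W hp h
    exact ⟨_, a, rfl, ha⟩
  obtain ⟨a, ha, ha'⟩ := Nat.find_spec hex
  refine ⟨a, ha', fun a' hlt => ?_⟩
  by_contra hcon
  rw [ha] at hlt
  exact Nat.find_min hex hlt ⟨a', rfl, hcon⟩

/-- Lemma 1: the blocks of a nonzero evaluation with the least number of radical entries. -/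
theorem min_eval_bound [CharZero F] {A : AssocAlg F} [Module L A.carrier] (hA : FinOver F L A)
    (W : WMData L A.carrier) {b g : ℕ} (hi : HasIndex A b g) {Z : Type} [Fintype Z]
    [DecidableEq Z] {p : FA F Z} (hp : p ∈ ML F Z) (a : Z → W.Ent)
    (h0 : ev A (fun z => (a z).val) p ≠ 0)
    (hmin : ∀ a' : Z → W.Ent, WMData.radc a' < WMData.radc a → ev A (fun z => (a' z).val) p = 0) :
    W.dP (WMData.blocks a) ≤ b ∧ (W.dP (WMData.blocks a) = b → WMData.radc a ≤ g) := by
  constructor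
  · by_contra hcon
    push Not at hcon
    obtain ⟨n0, hn0⟩ := hi.van_b
    obtain ⟨Z', i1, i2, q, c, hq, hty, -, hns⟩ := con hA W hp a h0 hmin n0
    exact hns (van_mono (van_mono_b hn0 hcon) le_rfl (Nat.zero_le _) Z' q c hq hty)
  · intro heq
    by_contra hcon
    push Not at hcon
    obtain ⟨n0, hn0⟩ := hi.van_g
    obtain ⟨Z', i1, i2, q, c, hq, hty, -, hns⟩ := con hA W hp a h0 hmin n0
    rw [heq] at hty
    exact hns (van_mono hn0 le_rfl hcon Z' q c hq hty)

end

theorem phx {F : Type u} [Field F] [CharZero F] {A : AssocAlg F} (hA : IsFD A) {b g : ℕ}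
    (hi : HasIndex A b g) :
    ∃ s, ∀ n, s ≤ n → ∀ (Z : Type) [Fintype Z] [DecidableEq Z] (z : FA F Z), z ∈ ML F Z →
      (∀ B : AssocAlg F, Van B n b g → Sat B z) → ¬ Sat A z → ∀ μ : ℕ,
      ∃ (Z' : Type) (_ : Fintype Z') (_ : DecidableEq Z') (q : FA F Z')
        (c : Z' → Option (Fin μ ⊕ Fin g)),
        q ∈ ML F Z' ∧ Typed q μ b g c ∧ Imp z q ∧ ¬ Sat A q := by
  obtain ⟨L, i1, i2, i3, i4, hfin⟩ := hA
  have := hfin.tower
  have := hfin.smul_mul
  have := hfin.comm
  have := hfin.fin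
  obtain ⟨W⟩ := wm L A.carrier
  refine ⟨W.s + 1, fun n hn Z _ _ z hz himp hns μ => ?_⟩
  obtain ⟨a, ha, hmin⟩ := exists_min_eval hfin W hz hns
  have hrho : WMData.radc a ≤ W.s := ent_nil hfin W hz a ha
  obtain ⟨hb1, hb2⟩ := min_eval_bound hfin W hi hz a ha hmin
  obtain ⟨Q, gv, -, -, -, -, hsat⟩ := apk hfin W (WMData.blocks a) (WMData.radc a)
  have hQz : ¬ Sat Q.D z := by
    rw [hsat Z z hz]
    intro h
    exact ha (h a (inP_blocks a) le_rfl)
  have hQv : ¬ Van Q.D n b g := fun h => hQz (himp Q.D h)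
  unfold Van at hQv
  push Not at hQv
  obtain ⟨Z1, j1, j2, t, c, ht, hty, htn⟩ := hQv
  rw [hsat Z1 t ht] at htn
  push Not at htn
  obtain ⟨a', ha'P, ha'r, ha'0⟩ := htn
  obtain ⟨-, e2, e3, -⟩ := entalt hfin W hty a' ha'0 (WMData.blocks a) ha'P
  have h1 : b ≤ W.dP (WMData.blocks a) := e2 (by omega)
  have h2 : g ≤ WMData.radc a := (e3 hb1).trans ha'r
  have h3 : W.dP (WMData.blocks a) = b := le_antisymm hb1 h1
  have h4 : WMData.radc a = g := le_antisymm (hb2 h3) h2
  have := con hfin W hz a ha hmin μ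
  rw [h3, h4] at this
  exact this

end Pool.Agent.KEM
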