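import Pool.Agent.KEM.Hom

/-!
# The relatively free algebra
-/

universe u

namespace Pool.Agent.KEM

open Pool.Agent.Helper29

variable {F : Type u} [Field F]

/-- The algebra of functions `I → R`. -/
def funAlg (R : AssocAlg F) (I : Type u) : AssocAlg F where
  carrier := I → R.carrier
  smul_mul c a b := funext fun i => R.smul_mul c (a i) (b i)
  mul_smul c a b := funext fun i => R.mul_smul c (a i) (b i)

/-- Evaluation at a point. -/
def funEval (R : AssocAlg F) (I : Type u) (i : I) : (funAlg R I).carrier →ₙₐ[F] R.carrier where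
  toFun f := f i
  map_smul' _ _ := rfl
  map_zero' := rfl
  map_add' _ _ := rfl
  map_mul' _ _ := rfl

/-- The inclusion of a subalgebra. -/
def genIncl (B : AssocAlg F) (s : Set B.carrier) : (B.gen s).carrier →ₙₐ[F] B.carrier where
  toFun f := f.1
  map_smul' _ _ := rfl
  map_zero' := rfl
  map_add' _ _ := rfl
  map_mul' _ _ := rfl

theorem genIncl_injective (B : AssocAlg F) (s : Set B.carrier) :
    Function.Injective (genIncl B s) := fun _ _ h => Subtype.ext h

/-- The subalgebra generated by `s` is generated by the elements of `s`. -/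
theorem gen_gen (B : AssocAlg F) {X : Type} (x : X → B.carrier) :
    Gen (B.gen (Set.range x))
      (fun i => (⟨x i, NonUnitalAlgebra.subset_adjoin F ⟨i, rfl⟩⟩ : GenAlg B (Set.range x))) := by
  unfold Gen
  rw [eq_top_iff]
  rintro ⟨a, ha⟩ -
  have key : ∀ a (ha : a ∈ NonUnitalAlgebra.adjoin F (Set.range x)),
      (⟨a, ha⟩ : GenAlg B (Set.range x)) ∈
        (NonUnitalAlgebra.adjoin F (Set.range fun i =>
          (⟨x i, NonUnitalAlgebra.subset_adjoin F ⟨i, rfl⟩⟩ : (B.gen (Set.range x)).carrier)) :
            NonUnitalSubalgebra F (B.gen (Set.range x)).carrier) := by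
    intro a ha
    induction ha using NonUnitalAlgebra.adjoin_induction with
    | mem a h =>
      obtain ⟨i, rfl⟩ := h
      exact NonUnitalAlgebra.subset_adjoin F ⟨i, rfl⟩
    | zero => exact zero_mem _
    | add a b ha hb h1 h2 => exact add_mem h1 h2
    | mul a b ha hb h1 h2 => exact mul_mem h1 h2
    | smul c a ha h => exact NonUnitalSubalgebra.smul_mem' _ c h
  exact key a ha

/-- A homomorphism whose values contain generators is surjective. -/
theorem surjective_of_gen {A B : AssocAlg F} (φ : A.carrier →ₙₐ[F] B.carrier) {X : Type}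
    {x : X → B.carrier} (hx : Gen B x) (h : ∀ i, ∃ a, φ a = x i) : Function.Surjective φ := by
  intro b
  have hb : b ∈ NonUnitalAlgebra.adjoin F (Set.range x) := by
    rw [show NonUnitalAlgebra.adjoin F (Set.range x) = ⊤ from hx]
    trivial
  induction hb using NonUnitalAlgebra.adjoin_induction with
  | mem a ha => obtain ⟨i, rfl⟩ := ha; exact h i
  | zero => exact ⟨0, map_zero φ⟩
  | add a b _ _ h1 h2 =>
    obtain ⟨a, rfl⟩ := h1; obtain ⟨b, rfl⟩ := h2; exact ⟨a + b, map_add φ a b⟩
  | mul a b _ _ h1 h2 =>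
    obtain ⟨a, rfl⟩ := h1; obtain ⟨b, rfl⟩ := h2; exact ⟨a * b, map_mul φ a b⟩
  | smul c a _ h1 =>
    obtain ⟨a, rfl⟩ := h1; exact ⟨c • a, map_smul φ c a⟩

/-- The relatively free algebra of `R`: the functions on `R^X` generated by the coordinates. -/
theorem rel {R : AssocAlg F} (hR : FG R) :
    ∃ (R' : AssocAlg F) (X : Type) (_ : Fintype X) (x : X → R'.carrier), Gen R' x ∧
      IdLe R R' ∧ IdLe R' R ∧ ∀ p : FA F X, ev R' x p = 0 → Sat R' p := by
  obtain ⟨X, hX, x0, hx0⟩ := hR
  let B := funAlg R (X → R.carrier)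
  let c : X → B.carrier := fun i v => v i
  let R' := B.gen (Set.range c)
  let x : X → R'.carrier := fun i => (⟨c i, NonUnitalAlgebra.subset_adjoin F ⟨i, rfl⟩⟩ : GenAlg B (Set.range c))
  let φ : (v : X → R.carrier) → R'.carrier →ₙₐ[F] R.carrier :=
    fun v => (funEval R _ v).comp (genIncl B _)
  have hφx : ∀ v i, φ v (x i) = v i := fun v i => rfl
  have hinj : ∀ a : R'.carrier, (∀ v, φ v a = 0) → a = 0 := by
    intro a ha
    apply genIncl_injective B
    funext v
    exact ha v
  have hsurj : Function.Surjective (φ x0) := by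
    apply surjective_of_gen (φ x0) hx0
    intro i
    exact ⟨x i, hφx x0 i⟩
  refine ⟨R', X, hX, x, gen_gen B c, ?_, ?_, ?_⟩
  · intro Z p hp h v
    exact Sat.of_injective φ hinj (Or.inr ⟨x0⟩) v fun w => h _
  · intro Z p hp h
    exact Sat.of_surjective (φ x0) hsurj h
  · intro p hp w
    refine Sat.of_injective φ hinj (Or.inr ⟨x0⟩) w fun v => ?_
    have h1 : (fun z => φ v (w z)) = fun i => φ (fun z => φ v (w z)) (x i) := by
      funext i; rw [hφx]
    rw [h1, ev_umap, hp, map_zero]

end Pool.Agent.KEM
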