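import Pool.Agent.KEM.StA0
import Pool.Agent.KEM.BhatRow
import Pool.Agent.KEM.LIN
import Pool.Agent.KEM.Lew
import Pool.Agent.KEM.Cap

/-!
# A finitely generated PI algebra satisfies the identities of a C-finite algebra (row StA)
-/

universe u

namespace Pool.Agent.KEM

open Pool.Agent.Helper29

open QuoH StAH

variable {F : Type u} [Field F]

theorem sta_aux [CharZero F] (N : ℕ) : ∀ A : AssocAlg F, FG A → PI A → Van A 1 N 0 →
    ∃ B : AssocAlg F, CFin B ∧ IdLe B A := by
  induction N with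
  | zero =>
    intro A _ _ h
    refine ⟨zeroAlg F, zeroAlg_cfin, fun Z p hp _ v => ?_⟩
    rw [eq_inc_of_fst (fst_ev_of_mem_ML A v hp), van_zero h (ev A v p).snd, inc_zero]
  | succ n ih =>
    intro A hA hpi hv
    obtain ⟨Bh, hBh, hBh1, -, hBh3⟩ := bhat hA hpi (n := 2) (b := n) (g := 0) (n1 := 0)
      (van_recolour hv) le_rfl
    obtain ⟨B1, hB1, hB1fg, hB1v, hB1q⟩ := quo A 1 n 0
    have hB1pi : PI B1 := by
      obtain ⟨d, p, hp, hp1, hp2⟩ := hpi
      exact ⟨d, p, hp, hp1, hB1 _ p hp hp2⟩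
    obtain ⟨A', hA', hA'1⟩ := ih B1 (hB1fg hA) hB1pi hB1v
    obtain ⟨P, hP, hP1⟩ := prod_cfin hBh hA'
    obtain ⟨T1, hT1, hT1'⟩ := lew hP hP
    obtain ⟨T2, hT2, hT2'⟩ := lew hT1 hP
    refine ⟨T2, hT2, fun Z p hp hs v => ?_⟩
    rcases finite_or_infinite Z with hZ | hZ
    · have := Fintype.ofFinite Z
      have key : ∀ s1 s2 s3 : FA F Z, Sat P s1 → Sat P s2 → Sat P s3 →
          ev A v s1 * ev A v s2 * ev A v s3 = 0 := by
        intro s1 s2 s3 h1 h2 h3
        have m : ∀ s : FA F Z, Sat P s → ev A v s ∈ Submodule.span F (VanVal A 1 n 0) := by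
          intro s hs
          apply vanSpan_le
          exact hB1q Z s (lin2 hA'1 s ((hP1 Z s).1 hs).2) v
        refine mul_span_zero (fun x hx y hy => ?_) (m s1 h1) (m s2 h2)
        obtain ⟨Z', i1, i2, t, c, v', ht, htt, he⟩ := vanVal_mul A n hx hy
        rw [he]
        exact hBh3 Z' t c ht htt Z s3 ((hP1 Z s3).1 h3).1 v' v
      have l1 : ∀ w : FA F Z, Sat P w → ∀ s : FA F Z, Sat T1 s → ev A v (s * w) = 0 := by
        intro w hw s hs1
        have l2 : Submodule.span F {q | ∃ s w : FA F Z, Sat P s ∧ Sat P w ∧ q = s * w} ≤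
            LinearMap.ker ((LinearMap.mulRight F (ev A v w)).comp (ev A v).toLinearMap) := by
          refine Submodule.span_le.2 ?_
          rintro q ⟨s1, s2, h1, h2, rfl⟩
          rw [SetLike.mem_coe, LinearMap.mem_ker]
          change ev A v (s1 * s2) * ev A v w = 0
          rw [map_mul]
          exact key s1 s2 w h1 h2 hw
        rw [map_mul]
        exact LinearMap.mem_ker.1 (l2 (hT1' Z s hs1))
      have l3 : Submodule.span F {q | ∃ s w : FA F Z, Sat T1 s ∧ Sat P w ∧ q = s * w} ≤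
          LinearMap.ker (ev A v).toLinearMap := by
        refine Submodule.span_le.2 ?_
        rintro q ⟨s, w, h1, h2, rfl⟩
        rw [SetLike.mem_coe, LinearMap.mem_ker]
        exact l1 w h2 s h1
      exact LinearMap.mem_ker.1 (l3 (hT2' Z p hs))
    · rw [ML_infinite hp, map_zero]

theorem sta [CharZero F] {A : AssocAlg F} (hA : FG A) (hpi : PI A) :
    ∃ B : AssocAlg F, CFin B ∧ IdLe B A := by
  obtain ⟨N, hN⟩ := cap hA hpi
  exact sta_aux N A hA hpi hN

end Pool.Agent.KEM
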