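import Pool.Agent.KEM.Defs
import Pool.Agent.KEM.Api
import Pool.Agent.KEM.Bas

/-!
# Row Use (page 15, USE): iterate (*)
-/

universe u

namespace Pool.Agent.KEM

open Pool.Agent.Helper29 Pool.Agent.KEM.Bas

variable {F : Type u} [Field F]

namespace UseAux

theorem ML_eq_zero {Z : Type} (hZ : ¬ Finite Z) {p : FA F Z} (hp : p ∈ ML F Z) : p = 0 := by
  induction hp using Submodule.span_induction with
  | mem p h =>
    obtain ⟨w, hw, rfl⟩ := h
    exact absurd (Set.finite_univ_iff.1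
      ((List.finite_toSet (FreeMonoid.toList w)).subset fun z _ => hw.2.2 z)) hZ
  | zero => rfl
  | add p q _ _ h1 h2 => rw [h1, h2, add_zero]
  | smul c p _ h => rw [h, smul_zero]

theorem idLe_of {A B : AssocAlg F}
    (h : ∀ (Z : Type) [Fintype Z] (p : FA F Z), p ∈ ML F Z → Sat A p → Sat B p) : IdLe A B := by
  intro Z p hp hs
  by_cases hZ : Finite Z
  · have := Fintype.ofFinite Z
    exact h Z p hp hs
  · rw [ML_eq_zero hZ hp]
    exact Sat.zero

theorem idLe_trans {A B C : AssocAlg F} (h : IdLe A B) (h' : IdLe B C) : IdLe A C :=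
  fun Z p hp hs => h' Z p hp (h Z p hp hs)

theorem mlw_unit : MLW (FreeMonoid.of () : FreeMonoid Unit) := by
  refine ⟨?_, ?_, ?_⟩
  · rw [FreeMonoid.toList_of]
    exact List.cons_ne_nil _ _
  · rw [FreeMonoid.toList_of]
    exact List.nodup_singleton _
  · intro z
    rw [FreeMonoid.toList_of]
    exact List.mem_singleton.2 rfl

theorem ne_of_idLe {A R : AssocAlg F} (h : IdLe A R) (h0 : ∃ x : R.carrier, x ≠ 0) :
    ∃ x : A.carrier, x ≠ 0 := by
  by_contra hA
  push Not at hA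
  obtain ⟨x, hx⟩ := h0
  apply hx
  have h1 : Sat A (mon F (FreeMonoid.of ())) := by
    intro v
    rw [ev_mon_of, hA (v ()), inc_zero]
  have h2 := h Unit _ (mon_mem_ML mlw_unit) h1 (fun _ => x)
  rw [ev_mon_of] at h2
  exact inc_eq_zero.1 h2

/-- Forgetting some of the small sets. -/
theorem typed_restrict {Z : Type} [Fintype Z] [DecidableEq Z] {p : FA F Z} {n n0 b g : ℕ}
    (hn : n0 ≤ n) {c : Z → Option (Fin n ⊕ Fin g)} (h : Typed p n b g c) :
    ∃ c' : Z → Option (Fin n0 ⊕ Fin g), Typed p n0 b g c' := by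
  classical
  let r : Fin n ⊕ Fin g → Option (Fin n0 ⊕ Fin g) := fun s =>
    match s with
    | Sum.inl i => if h : i.val < n0 then some (Sum.inl ⟨i.val, h⟩) else none
    | Sum.inr j => some (Sum.inr j)
  have hr1 : ∀ s i, r s = some (Sum.inl i) ↔ s = Sum.inl (Fin.castLE hn i) := by
    intro s i
    constructor
    · intro hs
      rcases s with s | s
      · by_cases hs' : s.val < n0
        · have h2 : r (Sum.inl s) = some (Sum.inl ⟨s.val, hs'⟩) := dif_pos hs'
          rw [h2] at hs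
          have h3 := Sum.inl.inj (Option.some.inj hs)
          rw [← h3]
          rfl
        · have h2 : r (Sum.inl s) = none := dif_neg hs'
          rw [h2] at hs
          cases hs
      · have h2 : r (Sum.inr s) = some (Sum.inr s) := rfl
        rw [h2] at hs
        cases hs
    · rintro rfl
      have h2 : (Fin.castLE hn i).val < n0 := i.isLt
      exact dif_pos h2
  have hr2 : ∀ s j, r s = some (Sum.inr j) ↔ s = Sum.inr j := by
    intro s j
    constructor
    · intro hs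
      rcases s with s | s
      · by_cases hs' : s.val < n0
        · have h2 : r (Sum.inl s) = some (Sum.inl ⟨s.val, hs'⟩) := dif_pos hs'
          rw [h2] at hs
          cases hs
        · have h2 : r (Sum.inl s) = none := dif_neg hs'
          rw [h2] at hs
          cases hs
      · have h2 : r (Sum.inr s) = some (Sum.inr s) := rfl
        rw [h2] at hs
        have h3 := Sum.inr.inj (Option.some.inj hs)
        rw [h3]
    · rintro rfl
      rfl
  let c' : Z → Option (Fin n0 ⊕ Fin g) := fun z => (c z).bind r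
  have hc1 : ∀ z i, c' z = some (Sum.inl i) ↔ c z = some (Sum.inl (Fin.castLE hn i)) := by
    intro z i
    constructor
    · intro hz
      obtain ⟨s, hs, hs'⟩ := Option.bind_eq_some_iff.1 hz
      rw [hs, (hr1 s i).1 hs']
    · intro hz
      exact Option.bind_eq_some_iff.2 ⟨_, hz, (hr1 _ i).2 rfl⟩
  have hc2 : ∀ z j, c' z = some (Sum.inr j) ↔ c z = some (Sum.inr j) := by
    intro z j
    constructor
    · intro hz
      obtain ⟨s, hs, hs'⟩ := Option.bind_eq_some_iff.1 hz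
      rw [hs, (hr2 s j).1 hs']
    · intro hz
      exact Option.bind_eq_some_iff.2 ⟨_, hz, (hr2 _ j).2 rfl⟩
  refine ⟨c', ⟨fun i => ?_, fun j => ?_⟩, fun π hπ => h.alt π ⟨fun z => ?_, fun z hz => ?_⟩⟩
  · rw [← h.sizes.small (Fin.castLE hn i)]
    exact Nat.card_congr (Equiv.subtypeEquivRight fun z => hc1 z i)
  · rw [← h.sizes.big j]
    exact Nat.card_congr (Equiv.subtypeEquivRight fun z => hc2 z j)
  · rcases hz : c' z with _ | s
    · rw [hπ.2 z hz]
    · have h1 := hπ.1 z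
      rw [hz] at h1
      rcases s with i | j
      · rw [(hc1 _ i).1 h1, (hc1 _ i).1 hz]
      · rw [(hc2 _ j).1 h1, (hc2 _ j).1 hz]
  · apply hπ.2 z
    have h2 : c' z = (c z).bind r := rfl
    rw [h2, hz]
    rfl

theorem use_aux {R : AssocAlg F} (h0 : ∃ x : R.carrier, x ≠ 0)
    (hsta : ∃ B : AssocAlg F, CFin B ∧ IdLe B R)
    (hcf : ∀ B : AssocAlg F, CFin B → ∃ A : AssocAlg F, IsFD A ∧
      ∀ (Z : Type) [Fintype Z] (p : FA F Z), p ∈ ML F Z → (Sat A p ↔ Sat B p))
    (hcap : ∃ N, Van R 1 N 0)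
    (hfd : ∀ A : AssocAlg F, IsFD A → ∃ N, Van A 1 N 0)
    (hmono : ∀ (A : AssocAlg F) (n n' b g : ℕ), Van A n b g → n ≤ n' → Van A n' b g)
    (hex : ∀ (A : AssocAlg F) (N : ℕ), (∃ x : A.carrier, x ≠ 0) → Van A 1 N 0 →
      ∃ b g, HasIndex A b g)
    (hle : ∀ (A B : AssocAlg F), IdLe A B → ∀ b g b' g' : ℕ, HasIndex A b g →
      HasIndex B b' g' → b' < b ∨ (b' = b ∧ g' ≤ g))
    (hlt : ∀ (B : AssocAlg F) (b g b' g' : ℕ), HasIndex B b' g' →
      (b' < b ∨ (b' = b ∧ g' < g)) → ∃ n, Van B n b g)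
    (hstar : ∀ A : AssocAlg F, IsFD A → IdLe A R → ∀ b g : ℕ, HasIndex A b g →
      ∃ s0, ∀ n, s0 ≤ n → ∃ B : AssocAlg F, CFin B ∧ IdLe A B ∧ IdLe B R ∧
        ∀ (Z : Type) [Fintype Z] [DecidableEq Z] (p : FA F Z) (c : Z → Option (Fin n ⊕ Fin g)),
          p ∈ ML F Z → Typed p n b g c → Sat R p → Sat B p) :
    ∃ (A : AssocAlg F) (b g n0 : ℕ), IsFD A ∧ IdLe A R ∧ HasIndex A b g ∧ HasIndex R b g ∧
      ∀ n, n0 ≤ n → ∀ (Z : Type) [Fintype Z] [DecidableEq Z] (p : FA F Z)
        (c : Z → Option (Fin n ⊕ Fin g)), p ∈ ML F Z → Typed p n b g c → Sat R p → Sat A p := by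
  -- from a C-finite algebra to a finite-dimensional one
  have hcf' : ∀ B : AssocAlg F, CFin B → ∃ A : AssocAlg F, IsFD A ∧ IdLe A B ∧ IdLe B A := by
    intro B hB
    obtain ⟨A, hA, h⟩ := hcf B hB
    exact ⟨A, hA, idLe_of fun Z _ p hp hs => (h Z p hp).1 hs,
      idLe_of fun Z _ p hp hs => (h Z p hp).2 hs⟩
  have hidx : ∀ A : AssocAlg F, IsFD A → IdLe A R → ∃ b g, HasIndex A b g := by
    intro A hA hAR
    obtain ⟨N, hN⟩ := hfd A hA
    exact hex A N (ne_of_idLe hAR h0) hN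
  obtain ⟨NR, hNR⟩ := hcap
  obtain ⟨bR, gR, hR⟩ := hex R NR h0 hNR
  -- the one step statement
  have step : ∀ A : AssocAlg F, IsFD A → IdLe A R → ∀ b g : ℕ, HasIndex A b g →
      ∃ s0, ∀ n, s0 ≤ n → ∃ B : AssocAlg F, IsFD B ∧ IdLe A B ∧ IdLe B R ∧
        ∀ (Z : Type) [Fintype Z] [DecidableEq Z] (p : FA F Z) (c : Z → Option (Fin n ⊕ Fin g)),
          p ∈ ML F Z → Typed p n b g c → Sat R p → Sat B p := by
    intro A hA hAR b g hbg
    obtain ⟨s0, hs0⟩ := hstar A hA hAR b g hbg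
    refine ⟨s0, fun n hn => ?_⟩
    obtain ⟨B, hB, hAB, hBR, hT⟩ := hs0 n hn
    obtain ⟨B', hB', h1, h2⟩ := hcf' B hB
    exact ⟨B', hB', idLe_trans hAB h2, idLe_trans h1 hBR,
      fun Z _ _ p c hp ht hs => h2 Z p hp (hT Z p c hp ht hs)⟩
  -- an algebra whose index is the index of `R`
  have key : ∀ b g : ℕ, ∀ A : AssocAlg F, IsFD A → IdLe A R → HasIndex A b g →
      ∃ A' : AssocAlg F, IsFD A' ∧ IdLe A' R ∧ HasIndex A' bR gR := by
    intro b
    induction b using Nat.strong_induction_on with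
    | _ b ihb =>
    intro g
    induction g using Nat.strong_induction_on with
    | _ g ihg =>
    intro A hA hAR hbg
    rcases hle A R hAR b g bR gR hbg hR with hlt1 | ⟨hb, hg⟩
    · -- smaller index
      obtain ⟨n1, hn1⟩ := hlt R b g bR gR hR (Or.inl hlt1)
      obtain ⟨s0, hs0⟩ := step A hA hAR b g hbg
      obtain ⟨B, hB, hAB, hBR, hT⟩ := hs0 (max n1 s0) (le_max_right _ _)
      have hV : Van B (max n1 s0) b g := fun Z _ _ p c hp ht =>
        hT Z p c hp ht (hmono R n1 _ b g hn1 (le_max_left _ _) Z p c hp ht)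
      obtain ⟨b', g', hb'⟩ := hidx B hB hBR
      rcases hle A B hAB b g b' g' hbg hb' with h1 | ⟨h1, h2⟩
      · exact ihb b' h1 g' B hB hBR hb'
      · subst h1
        rcases lt_or_eq_of_le h2 with h3 | h3
        · exact ihg g' h3 B hB hBR hb'
        · subst h3
          exact absurd hV (hb'.not_van _)
    · subst hb
      rcases lt_or_eq_of_le hg with hg | hg
      · obtain ⟨n1, hn1⟩ := hlt R bR g bR gR hR (Or.inr ⟨rfl, hg⟩)
        obtain ⟨s0, hs0⟩ := step A hA hAR bR g hbg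
        obtain ⟨B, hB, hAB, hBR, hT⟩ := hs0 (max n1 s0) (le_max_right _ _)
        have hV : Van B (max n1 s0) bR g := fun Z _ _ p c hp ht =>
          hT Z p c hp ht (hmono R n1 _ bR g hn1 (le_max_left _ _) Z p c hp ht)
        obtain ⟨b', g', hb'⟩ := hidx B hB hBR
        rcases hle A B hAB bR g b' g' hbg hb' with h1 | ⟨h1, h2⟩
        · exact ihb b' h1 g' B hB hBR hb'
        · subst h1
          rcases lt_or_eq_of_le h2 with h3 | h3
          · exact ihg g' h3 B hB hBR hb'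
          · subst h3
            exact absurd hV (hb'.not_van _)
      · subst hg
        exact ⟨A, hA, hAR, hbg⟩
  obtain ⟨B0, hB0, hB0R⟩ := hsta
  obtain ⟨A0, hA0, hA0B, -⟩ := hcf' B0 hB0
  have hA0R := idLe_trans hA0B hB0R
  obtain ⟨b0, g0, hi0⟩ := hidx A0 hA0 hA0R
  obtain ⟨A, hA, hAR, hAi⟩ := key b0 g0 A0 hA0 hA0R hi0
  obtain ⟨s0, hs0⟩ := step A hA hAR bR gR hAi
  obtain ⟨B, hB, hAB, hBR, hT⟩ := hs0 s0 le_rfl
  refine ⟨B, bR, gR, s0, hB, hBR, ?_, hR, ?_⟩
  · obtain ⟨b', g', hb'⟩ := hidx B hB hBR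
    have h1 := hle A B hAB bR gR b' g' hAi hb'
    have h2 := hle B R hBR b' g' bR gR hb' hR
    have h3 : b' = bR := by omega
    have h4 : g' = gR := by omega
    subst h3 h4
    exact hb'
  · intro n hn Z _ _ p c hp ht hs
    obtain ⟨c', hc'⟩ := typed_restrict hn ht
    exact hT Z p c' hp hc' hs

end UseAux

end Pool.Agent.KEM
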