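import Pool.Agent.KEM.Main1
import Pool.Agent.KEM.StA
import Pool.Agent.KEM.Phx
import Pool.Agent.KEM.CFw
import Pool.Agent.KEM.UseAux
import Pool.Agent.KEM.Rel
import Pool.Agent.KEM.LIN

/-!
Row Main (MP_1a662b_al), part 2: all inputs except row Star.
-/

universe u

namespace Pool.Agent.KEM.Main

open Pool.Agent.Helper29 Pool.Agent.KEM

variable {F : Type u} [Field F]

theorem comp_eq_self {X : Type} {d : X → ℕ} {p : FA F X} (hp : p ∈ Deg F d) : comp d p = p := by
  classical
  unfold Deg at hp
  have h : ∀ w ∈ p.coeff.support, ∀ x, (FreeMonoid.toList w).count x = d x := by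
    induction hp using Submodule.span_induction with
    | mem p hp =>
      obtain ⟨m, hm, rfl⟩ := hp
      intro w hw x
      have : w = m := by
        by_contra hne
        rw [Finsupp.mem_support_iff] at hw
        exact hw (by unfold mon; simp [MonoidAlgebra.coeff_single, Ne.symm hne])
      rw [this]
      exact hm x
    | zero => intro w hw; simp at hw
    | add p q _ _ hp hq =>
      intro w hw
      rcases Finset.mem_union.1 (Finsupp.support_add hw) with h | h
      · exact hp w h
      · exact hq w h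
    | smul c p _ hp =>
      intro w hw
      exact hp w (Finsupp.support_smul hw)
  unfold comp
  have : (p.coeff.filter fun w => ∀ x, (FreeMonoid.toList w).count x = d x) = p.coeff := by
    rw [Finsupp.filter_eq_self_iff]
    intro w hw
    exact h w (Finsupp.mem_support_iff.2 hw)
  rw [this]

/-- Row Star. -/
def StarStmt (F : Type u) [Field F] : Prop :=
  ∀ R A : AssocAlg F, FG R → IsFD A → IdLe A R → ∀ b g : ℕ, HasIndex A b g →
    ∃ s0, ∀ n, s0 ≤ n → ∃ B : AssocAlg F, CFin B ∧ IdLe A B ∧ IdLe B R ∧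
      ∀ (Z : Type) [Fintype Z] [DecidableEq Z] (p : FA F Z) (c : Z → Option (Fin n ⊕ Fin g)),
        p ∈ ML F Z → Typed p n b g c → Sat R p → Sat B p

theorem rows [CharZero F] (hstar : StarStmt F) : Rows F where
  lin X _ d hd := by
    obtain ⟨θ, h1, h2, h3⟩ := lin1 (F := F) d hd
    exact ⟨θ, h1, h2, fun p hp => by rw [h3, comp_eq_self hp]⟩
  cap A hA h := cap hA h
  idx_exists A h0 N h := idx_exists h0 h
  idx_le A B h b g b' g' hA hB := idx_le h hA hB
  use R hR hpi h0 := UseAux.use_aux h0 (sta hR hpi) (fun B hB => cf hB) (cap hR hpi)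
    (fun A hA => (fd_pi hA).2) (fun A n n' b g h hn => van_mono h hn le_rfl)
    (fun A N h0 h => idx_exists h0 h) (fun A B h b g b' g' hA hB => idx_le h hA hB)
    (fun B b g b' g' hB h => idx_lt hB h)
    (fun A hA hAR b g hi => hstar R A hR hA hAR b g hi)
  phx A hA b g hi := phx hA hi
  quo A n b g := quo A n b g
  bhat A hA hpi n b g n1 hv hn := by
    obtain ⟨B, h1, h2, h3, -⟩ := bhat hA hpi hv hn
    exact ⟨B, h1, h2, h3⟩
  rel R hR := rel hR

theorem row_main_of_star [CharZero F] (hstar : StarStmt F) {R : AssocAlg F} (hR : FG R)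
    (hpi : PI R) :
    ∃ l : List (AssocAlg F), (∀ B ∈ l, CFin B ∧ IdLe R B) ∧
      ∀ (Z : Type) [Fintype Z] (p : FA F Z), p ∈ ML F Z → (∀ B ∈ l, Sat B p) → Sat R p :=
  main_of' (rows hstar) hR hpi

end Pool.Agent.KEM.Main
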