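import Pool.Agent.KEM.Defs

/-!
Basic lemmas on evaluation (MP_1a662b_al): monomials, renaming, substitution, multilinearity.
-/

universe u

namespace Pool.Agent.KEM.Mlin

open Pool.Agent.Helper29

section words

variable {S Z : Type*}

theorem wval_congr [Zero S] [Mul S] {v v' : Z → S} :
    ∀ l : List Z, (∀ z ∈ l, v z = v' z) → wval v l = wval v' l
  | [], _ => rfl
  | [a], h => h a (by simp)
  | a :: b :: l, h => by
    show v a * wval v (b :: l) = v' a * wval v' (b :: l)
    rw [h a (by simp), wval_congr (b :: l) fun z hz => h z (List.mem_cons_of_mem _ hz)]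

theorem wval_map [Zero S] [Mul S] {Z' : Type*} (v : Z → S) (f : Z' → Z) :
    ∀ l : List Z', wval v (l.map f) = wval (v ∘ f) l
  | [] => rfl
  | [_] => rfl
  | a :: b :: l => by
    show v (f a) * wval v ((b :: l).map f) = v (f a) * wval (v ∘ f) (b :: l)
    rw [wval_map v f (b :: l)]

theorem wval_cons [NonUnitalRing S] (v : Z → S) (a : Z) {l : List Z} (hl : l ≠ []) :
    wval v (a :: l) = v a * wval v l := by
  cases l with
  | nil => exact absurd rfl hl
  | cons b l => rfl

theorem wval_append [NonUnitalRing S] (v : Z → S) {l l' : List Z} (h : l ≠ []) (h' : l' ≠ []) :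
    wval v (l ++ l') = wval v l * wval v l' := by
  induction l with
  | nil => exact absurd rfl h
  | cons a l ih =>
    rcases eq_or_ne l [] with rfl | hl
    · rw [List.singleton_append, wval_cons v a h']
      rfl
    · rw [List.cons_append, wval_cons v a (by simp [hl]), ih hl, wval_cons v a hl, mul_assoc]

/-- multiplicative maps commute with `wval` -/
theorem map_wval {S' : Type*} [NonUnitalRing S] [NonUnitalRing S'] (φ : S → S')
    (h0 : φ 0 = 0) (hφ : ∀ x y, φ (x * y) = φ x * φ y) (v : Z → S) :
    ∀ l : List Z, φ (wval v l) = wval (fun z => φ (v z)) l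
  | [] => h0
  | [_] => rfl
  | a :: b :: l => by
    show φ (v a * wval v (b :: l)) = φ (v a) * wval (fun z => φ (v z)) (b :: l)
    rw [hφ, map_wval φ h0 hφ v (b :: l)]

theorem wval_update_add [DecidableEq Z] [NonUnitalRing S] (v : Z → S) (z : Z) (x y : S) :
    ∀ l : List Z, l.count z = 1 →
      wval (Function.update v z (x + y)) l =
        wval (Function.update v z x) l + wval (Function.update v z y) l
  | [], h => by simp at h
  | [a], h => by
    have : a = z := by
      by_contra hne
      rw [List.count_singleton] at h
      simp [hne] at h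
    subst this
    simp [wval]
  | a :: b :: l, h => by
    show Function.update v z (x + y) a * wval (Function.update v z (x + y)) (b :: l) =
      Function.update v z x a * wval (Function.update v z x) (b :: l) +
      Function.update v z y a * wval (Function.update v z y) (b :: l)
    by_cases ha : a = z
    · subst ha
      have h0 : a ∉ b :: l := by
        rw [List.count_cons_self] at h
        exact List.count_eq_zero.1 (by omega)
      have hc : ∀ t : S, wval (Function.update v a t) (b :: l) = wval v (b :: l) := fun t =>
        wval_congr _ fun z hz => Function.update_of_ne (ne_of_mem_of_not_mem hz h0) _ _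
      rw [hc, hc, hc, Function.update_self, Function.update_self, Function.update_self, add_mul]
    · have h1 : (b :: l).count z = 1 := by
        rw [List.count_cons_of_ne ha] at h
        exact h
      rw [wval_update_add v z x y (b :: l) h1, Function.update_of_ne ha, Function.update_of_ne ha,
        Function.update_of_ne ha, mul_add]

theorem wval_update_smul [DecidableEq Z] {L : Type*} [NonUnitalRing S] [SMul L S]
    [IsScalarTower L S S] [SMulCommClass L S S] (v : Z → S) (z : Z) (c : L) (x : S) :
    ∀ l : List Z, l.count z = 1 →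
      wval (Function.update v z (c • x)) l = c • wval (Function.update v z x) l
  | [], h => by simp at h
  | [a], h => by
    have : a = z := by
      by_contra hne
      rw [List.count_singleton] at h
      simp [hne] at h
    subst this
    simp [wval]
  | a :: b :: l, h => by
    show Function.update v z (c • x) a * wval (Function.update v z (c • x)) (b :: l) =
      c • (Function.update v z x a * wval (Function.update v z x) (b :: l))
    by_cases ha : a = z
    · subst ha
      have h0 : a ∉ b :: l := by
        rw [List.count_cons_self] at h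
        exact List.count_eq_zero.1 (by omega)
      have hc : ∀ t : S, wval (Function.update v a t) (b :: l) = wval v (b :: l) := fun t =>
        wval_congr _ fun z hz => Function.update_of_ne (ne_of_mem_of_not_mem hz h0) _ _
      rw [hc, hc, Function.update_self, Function.update_self, smul_mul_assoc]
    · have h1 : (b :: l).count z = 1 := by
        rw [List.count_cons_of_ne ha] at h
        exact h
      rw [wval_update_smul v z c x (b :: l) h1, Function.update_of_ne ha,
        Function.update_of_ne ha, mul_smul_comm]

end words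

variable {F : Type u} [Field F]

/-- Algebra homomorphisms from the free algebra are equal if they agree on the variables. -/
theorem fa_hom_ext {Z : Type} {B : Type*} [Semiring B] [Algebra F B] {f g : FA F Z →ₐ[F] B}
    (h : ∀ z, f (mon F (FreeMonoid.of z)) = g (mon F (FreeMonoid.of z))) : f = g := by
  apply MonoidAlgebra.algHom_ext'
  · apply FreeMonoid.hom_eq
    intro z
    exact h z
  · exact Subsingleton.elim _ _

theorem ev_mon (A : AssocAlg F) {Z : Type} (v : Z → A.carrier) (w : FreeMonoid Z) :
    ev A v (mon F w) = ((FreeMonoid.toList w).map fun z => inc A (v z)).prod := by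
  unfold ev mon
  rw [MonoidAlgebra.lift_single, one_smul, FreeMonoid.lift_apply]

theorem prod_inc (A : AssocAlg F) {Z : Type} (v : Z → A.carrier) :
    ∀ l : List Z, l ≠ [] → (l.map fun z => inc A (v z)).prod = inc A (wval v l)
  | [], h => absurd rfl h
  | [a], _ => by simp [wval]
  | a :: b :: l, _ => by
    rw [List.map_cons, List.prod_cons, prod_inc A v (b :: l) (by simp)]
    exact (Unitization.inr_mul F (v a) (wval v (b :: l))).symm

theorem ev_mon_inc (A : AssocAlg F) {Z : Type} (v : Z → A.carrier) (w : FreeMonoid Z)
    (hw : FreeMonoid.toList w ≠ []) :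
    ev A v (mon F w) = inc A (wval v (FreeMonoid.toList w)) := by
  rw [ev_mon, prod_inc A v _ hw]

theorem inc_injective (A : AssocAlg F) : Function.Injective (inc A) := fun a b h => by
  exact Unitization.inr_injective h

theorem inc_zero (A : AssocAlg F) : inc A 0 = 0 := rfl

theorem inc_add (A : AssocAlg F) (a b : A.carrier) : inc A (a + b) = inc A a + inc A b :=
  Unitization.inr_add F a b

theorem inc_smul (A : AssocAlg F) (c : F) (a : A.carrier) : inc A (c • a) = c • inc A a :=
  Unitization.inr_smul F c a

theorem inc_mul (A : AssocAlg F) (a b : A.carrier) : inc A (a * b) = inc A a * inc A b :=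
  Unitization.inr_mul F a b

/-- The value of a multilinear polynomial is in `A`. -/
theorem ev_ML (A : AssocAlg F) {Z : Type} (v : Z → A.carrier) {p : FA F Z} (hp : p ∈ ML F Z) :
    ev A v p = inc A (evs A v p) := by
  unfold ML at hp
  induction hp using Submodule.span_induction with
  | mem p hp =>
    obtain ⟨w, hw, rfl⟩ := hp
    rw [evs, ev_mon_inc A v w hw.1]
    rfl
  | zero => rw [evs, map_zero]; rfl
  | add p q _ _ hp hq =>
    rw [evs, map_add, hp, hq, ← inc_add]
    rfl
  | smul c p _ hp =>
    rw [evs, map_smul, hp, ← inc_smul]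
    rfl

theorem ev_eq_zero_iff (A : AssocAlg F) {Z : Type} (v : Z → A.carrier) {p : FA F Z}
    (hp : p ∈ ML F Z) : ev A v p = 0 ↔ evs A v p = 0 := by
  rw [ev_ML A v hp]
  exact ⟨fun h => inc_injective A (h.trans (inc_zero A).symm), fun h => by rw [h, inc_zero]⟩

theorem evs_mon (A : AssocAlg F) {Z : Type} (v : Z → A.carrier) {w : FreeMonoid Z}
    (hw : FreeMonoid.toList w ≠ []) :
    evs A v (mon F w) = wval v (FreeMonoid.toList w) := by
  rw [evs, ev_mon_inc A v w hw]
  rfl

theorem evs_add (A : AssocAlg F) {Z : Type} (v : Z → A.carrier) (p q : FA F Z) :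
    evs A v (p + q) = evs A v p + evs A v q := by
  rw [evs, map_add]
  rfl

theorem evs_smul (A : AssocAlg F) {Z : Type} (v : Z → A.carrier) (c : F) (p : FA F Z) :
    evs A v (c • p) = c • evs A v p := by
  rw [evs, map_smul]
  rfl

theorem evs_zero (A : AssocAlg F) {Z : Type} (v : Z → A.carrier) :
    evs A v (0 : FA F Z) = 0 := by
  rw [evs, map_zero]
  rfl

theorem evs_sum (A : AssocAlg F) {ι : Type*} {Y : Type} (v : Y → A.carrier) (s : Finset ι)
    (p : ι → FA F Y) : evs A v (∑ i ∈ s, p i) = ∑ i ∈ s, evs A v (p i) := by
  classical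
  induction s using Finset.induction_on with
  | empty => simpa using evs_zero A v
  | insert a s ha ih => rw [Finset.sum_insert ha, Finset.sum_insert ha, evs_add, ih]

theorem MLW.count {Z : Type} [DecidableEq Z] {w : FreeMonoid Z} (hw : MLW w) (z : Z) :
    (FreeMonoid.toList w).count z = 1 :=
  List.count_eq_one_of_mem hw.2.1 (hw.2.2 z)

/-- The value of a multilinear polynomial is additive in each variable. -/
theorem evs_update_add (A : AssocAlg F) {Z : Type} [DecidableEq Z] {p : FA F Z}
    (hp : p ∈ ML F Z) (v : Z → A.carrier) (z : Z) (x y : A.carrier) :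
    evs A (Function.update v z (x + y)) p =
      evs A (Function.update v z x) p + evs A (Function.update v z y) p := by
  unfold ML at hp
  induction hp using Submodule.span_induction with
  | mem p hp =>
    obtain ⟨w, hw, rfl⟩ := hp
    rw [evs_mon A _ hw.1, evs_mon A _ hw.1, evs_mon A _ hw.1]
    exact wval_update_add v z x y _ (MLW.count hw z)
  | zero => rw [evs_zero, evs_zero, evs_zero, add_zero]
  | add p q _ _ hp hq => rw [evs_add, evs_add, evs_add, hp, hq]; abel
  | smul c p _ hp => rw [evs_smul, evs_smul, evs_smul, hp, smul_add]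

/-- The value of a multilinear polynomial is homogeneous in each variable. -/
theorem evs_update_smul (A : AssocAlg F) {L : Type*} [CommRing L] [Algebra F L]
    [Module L A.carrier] [IsScalarTower F L A.carrier] [IsScalarTower L A.carrier A.carrier]
    [SMulCommClass L A.carrier A.carrier] {Z : Type} [DecidableEq Z] {p : FA F Z}
    (hp : p ∈ ML F Z) (v : Z → A.carrier) (z : Z) (c : L) (x : A.carrier) :
    evs A (Function.update v z (c • x)) p = c • evs A (Function.update v z x) p := by
  unfold ML at hp
  induction hp using Submodule.span_induction with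
  | mem p hp =>
    obtain ⟨w, hw, rfl⟩ := hp
    rw [evs_mon A _ hw.1, evs_mon A _ hw.1]
    exact wval_update_smul v z c x _ (MLW.count hw z)
  | zero => rw [evs_zero, evs_zero, smul_zero]
  | add p q _ _ hp hq => rw [evs_add, evs_add, hp, hq, smul_add]
  | smul r p _ hp =>
    rw [evs_smul, evs_smul, hp, ← algebraMap_smul L r, ← algebraMap_smul L r, smul_smul,
      smul_smul, mul_comm]

/-- The value of a multilinear polynomial as a multilinear map over `L`. -/
noncomputable def evMulti (A : AssocAlg F) (L : Type*) [CommRing L] [Algebra F L]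
    [Module L A.carrier] [IsScalarTower F L A.carrier] [IsScalarTower L A.carrier A.carrier]
    [SMulCommClass L A.carrier A.carrier] {Z : Type} (p : FA F Z) (hp : p ∈ ML F Z) :
    MultilinearMap L (fun _ : Z => A.carrier) A.carrier where
  toFun v := evs A v p
  map_update_add' v z x y := evs_update_add A hp v z x y
  map_update_smul' v z c x := evs_update_smul A hp v z c x

theorem ev_ren (A : AssocAlg F) {Z Z' : Type} (f : Z → Z') (v : Z' → A.carrier) (p : FA F Z) :
    ev A v (ren f p) = ev A (v ∘ f) p := by
  have h : (ev A v).comp (ren f) = ev A (v ∘ f) := by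
    refine fa_hom_ext fun z => ?_
    simp [ev, ren, mon, MonoidAlgebra.mapDomainAlgHom]
  exact DFunLike.congr_fun h p

theorem evs_ren (A : AssocAlg F) {Z Z' : Type} (f : Z → Z') (v : Z' → A.carrier) (p : FA F Z) :
    evs A v (ren f p) = evs A (v ∘ f) p := by
  rw [evs, ev_ren]
  rfl

theorem ren_mon {Z Z' : Type} (f : Z → Z') (w : FreeMonoid Z) :
    ren f (mon F w) = mon F (FreeMonoid.map f w) := by
  unfold ren mon
  simp [MonoidAlgebra.mapDomainAlgHom]

theorem ren_ren {Z Z' Z'' : Type} (f : Z → Z') (g : Z' → Z'') (p : FA F Z) :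
    ren g (ren f p) = ren (g ∘ f) p := by
  have h : (ren (F := F) g).comp (ren f) = ren (g ∘ f) := by
    refine fa_hom_ext fun z => ?_
    simp [ren, mon, MonoidAlgebra.mapDomainAlgHom]
  exact DFunLike.congr_fun h p

theorem ren_id {Z : Type} (p : FA F Z) : ren (id : Z → Z) p = p := by
  have h : ren (F := F) (id : Z → Z) = AlgHom.id F _ := by
    refine fa_hom_ext fun z => ?_
    simp [ren, mon, MonoidAlgebra.mapDomainAlgHom]
  exact DFunLike.congr_fun h p

theorem sbst_mon {Z Z' : Type} (s : Z → FA F Z') (w : FreeMonoid Z) :
    sbst s (mon F w) = ((FreeMonoid.toList w).map s).prod := by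
  unfold sbst mon
  rw [MonoidAlgebra.lift_single, one_smul, FreeMonoid.lift_apply]

/-- The value of a polynomial at elements of the unital hull. -/
noncomputable def evU (A : AssocAlg F) {Z : Type} (v : Z → U A) : FA F Z →ₐ[F] U A :=
  MonoidAlgebra.lift F (U A) (FreeMonoid Z) (FreeMonoid.lift v)

theorem ev_eq_evU (A : AssocAlg F) {Z : Type} (v : Z → A.carrier) :
    ev A v = evU A (fun z => inc A (v z)) := rfl

theorem evU_sbst (A : AssocAlg F) {Z Z' : Type} (s : Z → FA F Z') (v : Z' → U A) (p : FA F Z) :
    evU A v (sbst s p) = evU A (fun z => evU A v (s z)) p := by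
  have h : (evU A v).comp (sbst s) = evU A (fun z => evU A v (s z)) := by
    refine fa_hom_ext fun z => ?_
    simp [evU, sbst, mon]
  exact DFunLike.congr_fun h p

theorem ev_sbst (A : AssocAlg F) {Z Z' : Type} (s : Z → FA F Z') (v : Z' → A.carrier)
    (hs : ∀ z, ev A v (s z) = inc A (evs A v (s z))) (p : FA F Z) :
    ev A v (sbst s p) = ev A (fun z => evs A v (s z)) p := by
  rw [ev_eq_evU, evU_sbst, ev_eq_evU]
  congr 2
  funext z
  rw [← hs z]
  rfl

/-- Renaming by a bijection preserves multilinear polynomials. -/
theorem ren_ML {Z Z' : Type} (f : Z ≃ Z') {p : FA F Z} (hp : p ∈ ML F Z) :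
    ren f p ∈ ML F Z' := by
  unfold ML at hp
  induction hp using Submodule.span_induction with
  | mem p hp =>
    obtain ⟨w, hw, rfl⟩ := hp
    rw [ren_mon]
    refine Submodule.subset_span ⟨_, ⟨?_, ?_, ?_⟩, rfl⟩
    · rw [FreeMonoid.toList_map]
      simpa using hw.1
    · rw [FreeMonoid.toList_map]
      exact hw.2.1.map f.injective
    · intro z
      rw [FreeMonoid.toList_map]
      exact List.mem_map.2 ⟨f.symm z, hw.2.2 _, f.apply_symm_apply z⟩
  | zero => rw [map_zero]; exact Submodule.zero_mem _
  | add p q _ _ hp hq => rw [map_add]; exact Submodule.add_mem _ hp hq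
  | smul c p _ hp => rw [map_smul]; exact Submodule.smul_mem _ c hp

/-- Values of a typed polynomial under a permutation preserving the colours. -/
theorem ev_perm (A : AssocAlg F) {Z : Type} [Fintype Z] [DecidableEq Z] {p : FA F Z} {n b g : ℕ}
    {c : Z → Option (Fin n ⊕ Fin g)} (ht : Typed p n b g c) (π : Equiv.Perm Z) (hπ : π ∈ colG c)
    (v : Z → A.carrier) : ev A (v ∘ π) p = (Equiv.Perm.sign π : ℤ) • ev A v p := by
  rw [← ev_ren, ht.alt π hπ, map_zsmul]

theorem evs_perm (A : AssocAlg F) {Z : Type} [Fintype Z] [DecidableEq Z] {p : FA F Z} {n b g : ℕ}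
    {c : Z → Option (Fin n ⊕ Fin g)} (ht : Typed p n b g c) (π : Equiv.Perm Z) (hπ : π ∈ colG c)
    (v : Z → A.carrier) : evs A (v ∘ π) p = (Equiv.Perm.sign π : ℤ) • evs A v p := by
  rw [evs, ev_perm A ht π hπ]
  rfl

theorem swap_mem_colG {Z K : Type} [DecidableEq Z] {c : Z → Option K} {x y : Z} {k : K}
    (hx : c x = some k) (hy : c y = some k) : Equiv.swap x y ∈ colG c := by
  refine ⟨fun z => ?_, fun z hz => ?_⟩
  · rcases eq_or_ne z x with rfl | h1
    · rw [Equiv.swap_apply_left, hx, hy]
    · rcases eq_or_ne z y with rfl | h2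
      · rw [Equiv.swap_apply_right, hx, hy]
      · rw [Equiv.swap_apply_of_ne_of_ne h1 h2]
  · refine Equiv.swap_apply_of_ne_of_ne ?_ ?_
    · rintro rfl
      rw [hx] at hz
      exact absurd hz (by simp)
    · rintro rfl
      rw [hy] at hz
      exact absurd hz (by simp)

/-- A typed polynomial vanishes when two entries in the same class are equal. -/
theorem evs_eq_zero_of_eq [CharZero F] (A : AssocAlg F) {Z : Type} [Fintype Z] [DecidableEq Z]
    {p : FA F Z} {n b g : ℕ} {c : Z → Option (Fin n ⊕ Fin g)} (ht : Typed p n b g c)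
    (v : Z → A.carrier) {x y : Z} {k : Fin n ⊕ Fin g} (hx : c x = some k) (hy : c y = some k)
    (hne : x ≠ y) (hv : v x = v y) : evs A v p = 0 := by
  have h1 := evs_perm A ht (Equiv.swap x y) (swap_mem_colG hx hy) v
  have h2 : v ∘ Equiv.swap x y = v := by
    funext z
    rcases eq_or_ne z x with rfl | h1
    · simp [hv]
    · rcases eq_or_ne z y with rfl | h2
      · simp [hv]
      · simp [Equiv.swap_apply_of_ne_of_ne h1 h2]
  rw [h2, Equiv.Perm.sign_swap hne] at h1
  have h3 : evs A v p = - evs A v p := by
    rw [Units.val_neg, Units.val_one, neg_smul, one_smul] at h1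
    exact h1
  have h4 : (2 : F) • evs A v p = 0 := by
    rw [two_smul]
    nth_rewrite 2 [h3]
    exact add_neg_cancel _
  exact (smul_eq_zero.1 h4).resolve_left two_ne_zero

end Pool.Agent.KEM.Mlin
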