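import Pool.Agent.KEM.Defs

/-!
# The quotient by the ideal of values of typed polynomials (row Quo)
-/

universe u

namespace Pool.Agent.KEM

open Pool.Agent.Helper29

namespace QuoH

variable {F : Type u} [Field F]

/-! ### Basic facts about evaluation -/

theorem ev_mon (A : AssocAlg F) {Z : Type} (v : Z → A.carrier) (w : FreeMonoid Z) :
    ev A v (mon F w) = FreeMonoid.lift (fun z => inc A (v z)) w := by
  rw [ev, mon, MonoidAlgebra.lift_single, one_smul]

/-- The extension of a homomorphism to the unital hulls. -/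
noncomputable def umap {A B : AssocAlg F} (φ : A.carrier →ₙₐ[F] B.carrier) : U A →ₐ[F] U B :=
  (((Unitization.inrNonUnitalAlgHom F B.carrier).comp φ)).toAlgHom

theorem umap_inc {A B : AssocAlg F} (φ : A.carrier →ₙₐ[F] B.carrier) (a : A.carrier) :
    umap φ (inc A a) = inc B (φ a) := by
  change algebraMap F (U B) (inc A a).fst + inc B (φ (inc A a).snd) = inc B (φ a)
  have h1 : (inc A a).fst = 0 := rfl
  have h2 : (inc A a).snd = a := rfl
  rw [h1, h2, map_zero, zero_add]

theorem ev_comp {A B : AssocAlg F} (φ : A.carrier →ₙₐ[F] B.carrier) {Z : Type}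
    (v : Z → A.carrier) (p : FA F Z) : ev B (fun z => φ (v z)) p = umap φ (ev A v p) := by
  have : (ev B fun z => φ (v z)) = (umap φ).comp (ev A v) := by
    apply MonoidAlgebra.algHom_ext ?_ (by ext)
    intro w
    rw [AlgHom.comp_apply]
    have h1 := ev_mon A v w
    have h2 := ev_mon B (fun z => φ (v z)) w
    rw [mon] at h1 h2
    rw [h1, h2]
    have : FreeMonoid.lift (fun z => inc B (φ (v z))) =
        ((umap φ : U A →* U B)).comp (FreeMonoid.lift fun z => inc A (v z)) := by
      apply FreeMonoid.hom_eq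
      intro z
      simp [umap_inc]
    rw [this]
    rfl
  rw [this]
  rfl

theorem eq_inc_of_fst {A : AssocAlg F} {x : U A} (h : x.fst = 0) : x = inc A x.snd := by
  have := Unitization.inl_fst_add_inr_snd_eq x
  rw [h, Unitization.inl_zero, zero_add] at this
  exact this.symm

theorem fst_lift (A : AssocAlg F) {Z : Type} (v : Z → A.carrier) (w : FreeMonoid Z) :
    FreeMonoid.toList w ≠ [] → (FreeMonoid.lift (fun z => inc A (v z)) w : U A).fst = 0 := by
  cases w using FreeMonoid.casesOn with
  | one => intro h; exact absurd rfl h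
  | of_mul z w =>
    intro _
    rw [map_mul, FreeMonoid.lift_eval_of, Unitization.fst_mul]
    simp [inc]

theorem fst_ev_of_mem_ML (A : AssocAlg F) {Z : Type} (v : Z → A.carrier) {p : FA F Z}
    (hp : p ∈ ML F Z) : (ev A v p).fst = 0 := by
  induction hp using Submodule.span_induction with
  | mem x hx =>
    obtain ⟨w, hw, rfl⟩ := hx
    rw [ev_mon]
    exact fst_lift A v w hw.1
  | zero => simp
  | add x y _ _ hx hy => rw [map_add, Unitization.fst_add, hx, hy, add_zero]
  | smul a x _ hx => rw [map_smul, Unitization.fst_smul, hx, smul_zero]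

/-! ### Quotients -/

/-- The quotient of an algebra by an ideal. -/
noncomputable def quoAlg (A : AssocAlg F) (I : Submodule F A.carrier)
    (hl : ∀ a x, x ∈ I → a * x ∈ I) (hr : ∀ a x, x ∈ I → x * a ∈ I) : AssocAlg F where
  carrier := A.carrier ⧸ I
  ring :=
    { (inferInstance : AddCommGroup (A.carrier ⧸ I)) with
      mul := fun x y => Quotient.liftOn₂' x y
        (fun a b => (Submodule.Quotient.mk (a * b) : A.carrier ⧸ I)) (by
          intro a b a' b' h h'
          rw [Submodule.quotientRel_def] at h h'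
          rw [Submodule.Quotient.eq]
          have : a * b - a' * b' = (a - a') * b + a' * (b - b') := by
            rw [sub_mul, mul_sub]; abel
          rw [this]
          exact I.add_mem (hr _ _ h) (hl _ _ h'))
      left_distrib := by
        rintro ⟨a⟩ ⟨b⟩ ⟨c⟩
        exact congrArg Submodule.Quotient.mk (mul_add a b c)
      right_distrib := by
        rintro ⟨a⟩ ⟨b⟩ ⟨c⟩
        exact congrArg Submodule.Quotient.mk (add_mul a b c)
      zero_mul := by
        rintro ⟨a⟩
        exact congrArg Submodule.Quotient.mk (zero_mul a)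
      mul_zero := by
        rintro ⟨a⟩
        exact congrArg Submodule.Quotient.mk (mul_zero a)
      mul_assoc := by
        rintro ⟨a⟩ ⟨b⟩ ⟨c⟩
        exact congrArg Submodule.Quotient.mk (mul_assoc a b c) }
  module := (inferInstance : Module F (A.carrier ⧸ I))
  smul_mul := by
    rintro c ⟨a⟩ ⟨b⟩
    exact congrArg Submodule.Quotient.mk (A.smul_mul c a b)
  mul_smul := by
    rintro c ⟨a⟩ ⟨b⟩
    exact congrArg Submodule.Quotient.mk (A.mul_smul c a b)

/-- The projection to the quotient. -/
noncomputable def quoMk (A : AssocAlg F) (I : Submodule F A.carrier)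
    (hl : ∀ a x, x ∈ I → a * x ∈ I) (hr : ∀ a x, x ∈ I → x * a ∈ I) :
    A.carrier →ₙₐ[F] (quoAlg A I hl hr).carrier where
  toFun a := (Submodule.Quotient.mk a : A.carrier ⧸ I)
  map_smul' _ _ := rfl
  map_zero' := rfl
  map_add' _ _ := rfl
  map_mul' _ _ := rfl

theorem quoMk_surjective (A : AssocAlg F) (I : Submodule F A.carrier)
    (hl : ∀ a x, x ∈ I → a * x ∈ I) (hr : ∀ a x, x ∈ I → x * a ∈ I) :
    Function.Surjective (quoMk A I hl hr) :=
  Submodule.Quotient.mk_surjective I

theorem quoMk_eq_zero (A : AssocAlg F) (I : Submodule F A.carrier)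
    (hl : ∀ a x, x ∈ I → a * x ∈ I) (hr : ∀ a x, x ∈ I → x * a ∈ I) (a : A.carrier) :
    quoMk A I hl hr a = 0 ↔ a ∈ I :=
  Submodule.Quotient.mk_eq_zero I

/-! ### Surjective homomorphisms -/

theorem sat_of_surj {A B : AssocAlg F} (φ : A.carrier →ₙₐ[F] B.carrier)
    (hφ : Function.Surjective φ) {Z : Type} {p : FA F Z} (h : Sat A p) : Sat B p := by
  intro v
  choose v' hv' using fun z => hφ (v z)
  have : v = fun z => φ (v' z) := funext fun z => (hv' z).symm
  rw [this, ev_comp, h v', map_zero]

theorem gen_of_surj {A B : AssocAlg F} (φ : A.carrier →ₙₐ[F] B.carrier)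
    (hφ : Function.Surjective φ) {X : Type} (x : X → A.carrier) (h : Gen A x) :
    Gen B fun i => φ (x i) := by
  have h1 := NonUnitalAlgHom.map_adjoin F A.carrier φ (Set.range x)
  rw [Gen] at h ⊢
  rw [h, NonUnitalAlgebra.map_top] at h1
  have h2 : NonUnitalAlgHom.range φ = ⊤ :=
    NonUnitalAlgebra.eq_top_iff.2 fun x => hφ x
  have h3 : (φ '' Set.range x) = Set.range fun i => φ (x i) := by
    rw [← Set.range_comp]; rfl
  rw [← h3, ← h1, h2]

theorem vanSpan_mul_left (A : AssocAlg F) (n b g : ℕ) (a : U A) {x : U A}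
    (hx : x ∈ VanSpan A n b g) : a * x ∈ VanSpan A n b g := by
  induction hx using Submodule.span_induction with
  | mem x hx =>
    obtain ⟨Z, i1, i2, t, c, v, s, s', ht, htt, rfl⟩ := hx
    refine Submodule.subset_span ⟨Z, i1, i2, t, c, v, a * s, s', ht, htt, ?_⟩
    simp only [mul_assoc]
  | zero => rw [mul_zero]; exact Submodule.zero_mem _
  | add x y _ _ hx hy => rw [mul_add]; exact Submodule.add_mem _ hx hy
  | smul r x _ hx => rw [mul_smul_comm]; exact Submodule.smul_mem _ _ hx

theorem vanSpan_mul_right (A : AssocAlg F) (n b g : ℕ) (a : U A) {x : U A}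
    (hx : x ∈ VanSpan A n b g) : x * a ∈ VanSpan A n b g := by
  induction hx using Submodule.span_induction with
  | mem x hx =>
    obtain ⟨Z, i1, i2, t, c, v, s, s', ht, htt, rfl⟩ := hx
    refine Submodule.subset_span ⟨Z, i1, i2, t, c, v, s, s' * a, ht, htt, ?_⟩
    simp only [mul_assoc]
  | zero => rw [zero_mul]; exact Submodule.zero_mem _
  | add x y _ _ hx hy => rw [add_mul]; exact Submodule.add_mem _ hx hy
  | smul r x _ hx => rw [smul_mul_assoc]; exact Submodule.smul_mem _ _ hx

theorem inc_add (A : AssocAlg F) (a b : A.carrier) : inc A (a + b) = inc A a + inc A b :=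
  Unitization.inr_add F a b

theorem inc_mul (A : AssocAlg F) (a b : A.carrier) : inc A (a * b) = inc A a * inc A b :=
  Unitization.inr_mul F a b

theorem inc_smul (A : AssocAlg F) (c : F) (b : A.carrier) : inc A (c • b) = c • inc A b :=
  Unitization.inr_smul F c b

theorem inc_zero (A : AssocAlg F) : inc A 0 = 0 :=
  Unitization.inr_zero F

theorem inc_injective (A : AssocAlg F) : Function.Injective (inc A) :=
  Unitization.inr_injective

theorem fst_umap {A B : AssocAlg F} (φ : A.carrier →ₙₐ[F] B.carrier) (x : U A) :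
    (umap φ x).fst = x.fst := by
  induction x using Unitization.ind with
  | inl_add_inr r a =>
    rw [map_add]
    have h1 : umap φ (Unitization.inr a : U A) = inc B (φ a) := umap_inc φ a
    have h2 : umap φ (Unitization.inl r : U A) = Unitization.inl r := by
      have := (umap φ).commutes r
      rwa [Unitization.algebraMap_eq_inl, Unitization.algebraMap_eq_inl] at this
    rw [h1, h2]
    simp [inc]

/-- The ideal of the values of typed polynomials. -/
noncomputable def vanIdeal (A : AssocAlg F) (n b g : ℕ) : Submodule F A.carrier where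
  carrier := {a | inc A a ∈ VanSpan A n b g}
  add_mem' := by
    intro a b ha hb
    rw [Set.mem_ofPred_eq, inc_add]
    exact Submodule.add_mem _ ha hb
  zero_mem' := by
    rw [Set.mem_ofPred_eq, inc_zero]
    exact Submodule.zero_mem _
  smul_mem' := by
    intro c a ha
    rw [Set.mem_ofPred_eq, inc_smul]
    exact Submodule.smul_mem _ _ ha

end QuoH

open QuoH

variable {F : Type u} [Field F]

theorem quo (A : AssocAlg F) (n b g : ℕ) :
    ∃ B : AssocAlg F, IdLe A B ∧ (FG A → FG B) ∧ Van B n b g ∧
      ∀ (Z : Type) (p : FA F Z), Sat B p → ∀ v : Z → A.carrier, ev A v p ∈ VanSpan A n b g := by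
  have hl : ∀ a x, x ∈ vanIdeal A n b g → a * x ∈ vanIdeal A n b g := by
    intro a x hx
    change inc A (a * x) ∈ VanSpan A n b g
    rw [inc_mul]
    exact vanSpan_mul_left A n b g _ hx
  have hr : ∀ a x, x ∈ vanIdeal A n b g → x * a ∈ vanIdeal A n b g := by
    intro a x hx
    change inc A (x * a) ∈ VanSpan A n b g
    rw [inc_mul]
    exact vanSpan_mul_right A n b g _ hx
  have hs := quoMk_surjective A (vanIdeal A n b g) hl hr
  refine ⟨quoAlg A (vanIdeal A n b g) hl hr, fun Z p _ h => sat_of_surj _ hs h, ?_, ?_, ?_⟩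
  · rintro ⟨X, i, x, hx⟩
    exact ⟨X, i, _, gen_of_surj _ hs x hx⟩
  · intro Z _ _ p c hp ht v
    choose v' hv' using fun z => hs (v z)
    have : v = fun z => quoMk A (vanIdeal A n b g) hl hr (v' z) := funext fun z => (hv' z).symm
    rw [this, ev_comp]
    have h0 := fst_ev_of_mem_ML A v' hp
    have h1 := eq_inc_of_fst h0
    rw [h1, umap_inc]
    have h2 : (ev A v' p).snd ∈ vanIdeal A n b g := by
      change inc A (ev A v' p).snd ∈ VanSpan A n b g
      rw [← h1]
      exact Submodule.subset_span ⟨Z, _, _, p, c, v', 1, 1, hp, ht, by simp⟩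
    rw [(quoMk_eq_zero A _ hl hr _).2 h2, inc_zero]
  · intro Z p hp v
    have h0 := hp fun z => quoMk A (vanIdeal A n b g) hl hr (v z)
    rw [ev_comp] at h0
    have h1 : (ev A v p).fst = 0 := by
      rw [← fst_umap (quoMk A (vanIdeal A n b g) hl hr), h0]
      rfl
    have h2 := eq_inc_of_fst h1
    rw [h2, umap_inc] at h0
    have h3 : quoMk A (vanIdeal A n b g) hl hr (ev A v p).snd = 0 := by
      apply inc_injective
      rw [h0, inc_zero]
    rw [quoMk_eq_zero] at h3
    rw [h2]
    exact h3

end Pool.Agent.KEM
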