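import Mathlib

/-!
# Regev's theorem in the form of Latyshev

A multilinear identity of degree `d` on a multiplicatively closed set `M` bounds the dimension of
the space of functions given by the words of length `N` by `(d - 1) ^ (2 N)`.
-/

set_option autoImplicit false

open Equiv

namespace Pool.Agent.KEM.Rg

/-! ### Blocks -/

theorem exists_blocks {ι : Type*} : ∀ (l : List ι) {d : ℕ} (q : Fin d → ι),
    (List.ofFn q).Sublist l → ∃ (u : List ι) (r : Fin d → List ι),
      l = u ++ (List.ofFn (fun i => q i :: r i)).flatten := by
  intro l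
  induction l with
  | nil =>
    intro d q h
    have hd : d = 0 := by
      have := h.length_le
      simpa using this
    subst hd
    exact ⟨[], fun i => [], by simp⟩
  | cons a l ih =>
    intro d q h
    cases d with
    | zero => exact ⟨a :: l, fun i => [], by simp⟩
    | succ d =>
      rw [List.ofFn_succ] at h
      cases h with
      | cons _ h =>
        rw [← List.ofFn_succ] at h
        obtain ⟨u, r, hr⟩ := ih q h
        exact ⟨a :: u, r, by rw [hr, List.cons_append]⟩
      | cons_cons _ h =>
        obtain ⟨u, r, hr⟩ := ih (fun i => q i.succ) h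
        refine ⟨[], Fin.cons u r, ?_⟩
        rw [List.ofFn_succ]
        simp only [List.nil_append, List.flatten_cons, Fin.cons_zero, Fin.cons_succ, List.cons_append]
        rw [← hr]

/-- at the first block which differs, the block starts with a smaller letter -/
theorem lex_blocks {ι : Type*} [LinearOrder ι] {d : ℕ} (q : Fin d → ι) (hq : StrictAnti q)
    (r : Fin d → List ι) (s : Perm (Fin d)) (hs : s ≠ 1) (u : List ι) :
    List.Lex (· < ·) (u ++ (List.ofFn (fun i => q (s i) :: r (s i))).flatten)
      (u ++ (List.ofFn (fun i => q i :: r i)).flatten) := by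
  apply List.Lex.append_left
  have hne : (Finset.univ.filter (fun i => s i ≠ i)).Nonempty := by
    by_contra h
    apply hs
    ext i
    have := Finset.not_nonempty_iff_eq_empty.1 h
    have h2 : i ∉ Finset.univ.filter (fun i => s i ≠ i) := by rw [this]; simp
    simp only [Finset.mem_filter, Finset.mem_univ, true_and, not_not] at h2
    rw [h2]; rfl
  obtain ⟨j, hj, hmin⟩ : ∃ j, s j ≠ j ∧ ∀ i < j, s i = i := by
    refine ⟨(Finset.univ.filter (fun i => s i ≠ i)).min' hne, ?_, ?_⟩
    · have := Finset.min'_mem _ hne
      simpa using this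
    · intro i hi
      by_contra h
      exact absurd (Finset.min'_le _ i (by simpa using h)) (not_le.2 hi)
  have hlt : j < s j := by
    rcases lt_trichotomy j (s j) with h | h | h
    · exact h
    · exact absurd h.symm hj
    · have := hmin (s j) h
      exact absurd (s.injective this) hj
  set B := List.ofFn (fun i => q i :: r i) with hB
  set B' := List.ofFn (fun i => q (s i) :: r (s i)) with hB'
  have hlen : B.length = d := by simp [hB]
  have hlen' : B'.length = d := by simp [hB']
  have htake : B'.take j = B.take j := by
    apply List.ext_getElem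
    · simp [hlen, hlen']
    · intro i h1 h2
      rw [List.getElem_take, List.getElem_take]
      have hij : i < (j : ℕ) := by
        have := h1
        rw [List.length_take] at this
        exact lt_of_lt_of_le this (min_le_left _ _)
      simp only [hB, hB', List.getElem_ofFn]
      rw [hmin ⟨i, by omega⟩ (by exact hij)]
  have h1 : B.drop j = (q j :: r j) :: B.drop (j + 1) := by
    rw [List.drop_eq_getElem_cons (by rw [hlen]; exact j.2)]
    simp [hB]
  have h2 : B'.drop j = (q (s j) :: r (s j)) :: B'.drop (j + 1) := by
    rw [List.drop_eq_getElem_cons (by rw [hlen']; exact j.2)]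
    simp [hB']
  rw [← List.take_append_drop j B, ← List.take_append_drop j B', htake, h1, h2,
    List.flatten_append, List.flatten_append]
  apply List.Lex.append_left
  rw [List.flatten_cons, List.flatten_cons, List.cons_append, List.cons_append]
  exact List.Lex.rel (hq hlt)

theorem exists_perm_ofFn {N : ℕ} {l : List (Fin N)} (h : l.Perm (List.finRange N)) :
    ∃ t : Perm (Fin N), l = List.ofFn t := by
  have hlen : l.length = N := by rw [h.length_eq, List.length_finRange]
  have hnd : l.Nodup := (h.nodup_iff).2 (List.nodup_finRange N)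
  have hinj : Function.Injective (fun i : Fin N => l.get (Fin.cast hlen.symm i)) := by
    intro i j hij
    have := List.nodup_iff_injective_get.1 hnd hij
    exact Fin.cast_injective _ this
  refine ⟨Equiv.ofBijective _ (Finite.injective_iff_bijective.1 hinj), ?_⟩
  apply List.ext_getElem
  · simp [hlen]
  · intro i h1 h2
    simp

/-! ### Words without long decreasing subsequences -/

/-- all strictly decreasing subsequences of `t` have length `< d` -/
def GoodPerm {N : ℕ} (d : ℕ) (t : Perm (Fin N)) : Prop :=
  ∀ S : Finset (Fin N), StrictAntiOn t (S : Set (Fin N)) → S.card < d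

open Classical in
/-- the sets of positions ending in `p` on which `t` is decreasing -/
noncomputable def endSets {N : ℕ} (t : Perm (Fin N)) (p : Fin N) : Finset (Finset (Fin N)) :=
  Finset.univ.filter (fun S => StrictAntiOn t (S : Set (Fin N)) ∧ p ∈ S ∧ ∀ i ∈ S, i ≤ p)

/-- the colour of a position: the length of a longest decreasing subsequence which ends there -/
noncomputable def colour {N : ℕ} (t : Perm (Fin N)) (p : Fin N) : ℕ :=
  (endSets t p).sup Finset.card

theorem mem_endSets {N : ℕ} {t : Perm (Fin N)} {p : Fin N} {S : Finset (Fin N)} :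
    S ∈ endSets t p ↔ StrictAntiOn t (S : Set (Fin N)) ∧ p ∈ S ∧ ∀ i ∈ S, i ≤ p := by
  simp [endSets]

theorem singleton_mem_endSets {N : ℕ} (t : Perm (Fin N)) (p : Fin N) : {p} ∈ endSets t p := by
  rw [mem_endSets]
  refine ⟨?_, by simp, by simp⟩
  simp

theorem one_le_colour {N : ℕ} (t : Perm (Fin N)) (p : Fin N) : 1 ≤ colour t p := by
  have h := Finset.le_sup (f := Finset.card) (singleton_mem_endSets t p)
  rw [Finset.card_singleton] at h
  exact h

theorem colour_lt {N d : ℕ} {t : Perm (Fin N)} (ht : GoodPerm d t) (p : Fin N) :
    colour t p < d := by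
  obtain ⟨S, hS, h⟩ := Finset.exists_mem_eq_sup (endSets t p) ⟨_, singleton_mem_endSets t p⟩
    Finset.card
  rw [colour, h]
  exact ht S (mem_endSets.1 hS).1

theorem colour_lt_colour {N : ℕ} {t : Perm (Fin N)} {p p' : Fin N} (hp : p < p')
    (ht : t p' < t p) : colour t p < colour t p' := by
  obtain ⟨S, hS, h⟩ := Finset.exists_mem_eq_sup (endSets t p) ⟨_, singleton_mem_endSets t p⟩
    Finset.card
  obtain ⟨h1, h2, h3⟩ := mem_endSets.1 hS
  have hp' : p' ∉ S := fun hh => absurd (h3 _ hh) (not_le.2 hp)
  have hle : ∀ i ∈ S, t p ≤ t i := by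
    intro i hi
    rcases (h3 i hi).lt_or_eq with h4 | h4
    · exact (h1 (by exact_mod_cast hi) (by exact_mod_cast h2) h4).le
    · rw [h4]
  have hmem : insert p' S ∈ endSets t p' := by
    rw [mem_endSets]
    refine ⟨?_, Finset.mem_insert_self _ _, ?_⟩
    · intro a ha b hb hab
      simp only [Finset.coe_insert, Set.mem_insert_iff, Finset.mem_coe] at ha hb
      rcases ha with rfl | ha
      · rcases hb with rfl | hb
        · exact absurd hab (lt_irrefl _)
        · exact absurd (lt_trans hab (lt_of_le_of_lt (h3 _ hb) hp)) (lt_irrefl _)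
      · rcases hb with rfl | hb
        · exact lt_of_lt_of_le ht (hle a ha)
        · exact h1 (by exact_mod_cast ha) (by exact_mod_cast hb) hab
    · intro i hi
      rcases Finset.mem_insert.1 hi with rfl | hi
      · exact le_rfl
      · exact (lt_of_le_of_lt (h3 i hi) hp).le
  have h5 := Finset.le_sup (f := Finset.card) hmem
  rw [Finset.card_insert_of_notMem hp'] at h5
  rw [colour, h]
  exact h5

theorem perm_eq_of_colour {N : ℕ} {t t' : Perm (Fin N)} (h1 : ∀ p, colour t p = colour t' p)
    (h2 : ∀ v, colour t (t.symm v) = colour t' (t'.symm v)) : t = t' := by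
  by_contra hne
  have hex : ∃ p, t p ≠ t' p := by
    by_contra h
    push Not at h
    exact hne (Equiv.ext h)
  have hne' : (Finset.univ.filter (fun i => t i ≠ t' i)).Nonempty := by
    obtain ⟨p, hp⟩ := hex
    exact ⟨p, by simpa using hp⟩
  obtain ⟨p, hp, hmin⟩ : ∃ j, t j ≠ t' j ∧ ∀ i < j, t i = t' i := by
    refine ⟨(Finset.univ.filter (fun i => t i ≠ t' i)).min' hne', ?_, ?_⟩
    · have := Finset.min'_mem _ hne'
      simpa using this
    · intro i hi
      by_contra h
      exact absurd (Finset.min'_le _ i (by simpa using h)) (not_le.2 hi)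
  have key : ∀ (f g : Perm (Fin N)), (∀ p, colour f p = colour g p) →
      (∀ v, colour f (f.symm v) = colour g (g.symm v)) → (∀ i < p, f i = g i) →
      f p < g p → False := by
    intro f g k1 k2 k3 k4
    have k5 : g (g.symm (f p)) = f p := g.apply_symm_apply _
    have k6 := k2 (f p)
    rw [f.symm_apply_apply, k1 p] at k6
    rcases lt_trichotomy (g.symm (f p)) p with k | k | k
    · have := k3 _ k
      rw [k5] at this
      exact absurd (f.injective this) (ne_of_lt k)
    · rw [k] at k5
      exact absurd k5 (ne_of_gt k4)
    · have := colour_lt_colour (t := g) k (by rw [k5]; exact k4)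
      omega
  rcases lt_or_gt_of_ne hp with h | h
  · exact key t t' h1 h2 hmin h
  · exact key t' t (fun p => (h1 p).symm) (fun v => (h2 v).symm) (fun i hi => (hmin i hi).symm) h

theorem ncard_goodPerm_le (N d : ℕ) :
    {t : Perm (Fin N) | GoodPerm d t}.ncard ≤ (d - 1) ^ (2 * N) := by
  classical
  let φ : {t : Perm (Fin N) // GoodPerm d t} → (Fin N → Fin (d - 1)) × (Fin N → Fin (d - 1)) :=
    fun t => (fun p => ⟨colour t.1 p - 1, by
        have := colour_lt t.2 p
        have := one_le_colour t.1 p
        omega⟩, fun v => ⟨colour t.1 (t.1.symm v) - 1, by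
        have := colour_lt t.2 (t.1.symm v)
        have := one_le_colour t.1 (t.1.symm v)
        omega⟩)
  have hφ : Function.Injective φ := by
    rintro ⟨t, ht⟩ ⟨t', ht'⟩ h
    simp only [φ, Prod.mk.injEq] at h
    obtain ⟨h1, h2⟩ := h
    apply Subtype.ext
    apply perm_eq_of_colour
    · intro p
      change colour t p = colour t' p
      have h3 : colour t p - 1 = colour t' p - 1 := congrArg Fin.val (congrFun h1 p)
      have := one_le_colour t p
      have := one_le_colour t' p
      omega
    · intro v
      change colour t (t.symm v) = colour t' (t'.symm v)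
      have h3 : colour t (t.symm v) - 1 = colour t' (t'.symm v) - 1 :=
        congrArg Fin.val (congrFun h2 v)
      have := one_le_colour t (t.symm v)
      have := one_le_colour t' (t'.symm v)
      omega
  have h := Fintype.card_le_of_injective φ hφ
  rw [Fintype.card_prod, Fintype.card_fun, Fintype.card_fin, Fintype.card_fin] at h
  have h3 : {t : Perm (Fin N) | GoodPerm d t}.ncard = Fintype.card {t : Perm (Fin N) // GoodPerm d t} := by
    rw [← Nat.card_eq_fintype_card]
    rfl
  rw [h3, two_mul, pow_add]
  exact h

/-! ### Regev's theorem in the form of Latyshev -/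

section span

variable {F A : Type*} [Field F] [Ring A] [Algebra F A] (M : Subsemigroup A)

/-- the function given by the word `t` -/
def wordFun {N : ℕ} (t : Perm (Fin N)) : (Fin N → M) → A :=
  fun x => (List.ofFn (fun i => (x (t i) : A))).prod

theorem prod_mem_of_ne_nil {l : List A} (h : ∀ a ∈ l, a ∈ M) (hl : l ≠ []) : l.prod ∈ M := by
  induction l with
  | nil => exact absurd rfl hl
  | cons a l ih =>
    rcases l with _ | ⟨b, l⟩
    · simpa using h a (by simp)
    · rw [List.prod_cons]
      exact M.mul_mem (h a (by simp)) (ih (fun a ha => h a (List.mem_cons_of_mem _ ha)) (by simp))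

/-- `l` is the word of a good permutation or can be replaced by smaller words -/
theorem not_goodPerm {N d : ℕ} {t : Perm (Fin N)} (h : ¬ GoodPerm d t) :
    ∃ q : Fin d → Fin N, StrictAnti q ∧ (List.ofFn q).Sublist (List.ofFn t) := by
  unfold GoodPerm at h
  push Not at h
  obtain ⟨S, hS, hd⟩ := h
  obtain ⟨S', hS', hc⟩ := Finset.exists_subset_card_eq hd
  refine ⟨fun i => t (S'.orderEmbOfFin hc i), ?_, ?_⟩
  · intro i j hij
    apply hS
    · exact_mod_cast hS' (Finset.orderEmbOfFin_mem _ _ _)
    · exact_mod_cast hS' (Finset.orderEmbOfFin_mem _ _ _)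
    · exact (S'.orderEmbOfFin hc).strictMono hij
  · rw [List.sublist_iff_exists_fin_orderEmbedding_get_eq]
    have e1 : (List.ofFn (fun i => t (S'.orderEmbOfFin hc i))).length = d := by simp
    have e2 : (List.ofFn t).length = N := by simp
    refine ⟨(Fin.castOrderIso e1).toOrderEmbedding.trans ((S'.orderEmbOfFin hc).trans
      (Fin.castOrderIso e2.symm).toOrderEmbedding), ?_⟩
    intro ix
    simp
    rfl

theorem wordFun_mem {d : ℕ} {a : Perm (Fin d) → F} (ha : a 1 = 1)
    (hid : ∀ x : Fin d → A, (∀ i, x i ∈ M) →
      ∑ s, a s • (List.ofFn (fun i => x (s i))).prod = 0) {N : ℕ} (t : Perm (Fin N)) :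
    wordFun M t ∈ Submodule.span F (wordFun M '' {t : Perm (Fin N) | GoodPerm d t}) := by
  have : IsTrans (Perm (Fin N)) (fun s t => List.Lex (· < ·) (List.ofFn s) (List.ofFn t)) :=
    ⟨fun a b c h1 h2 => List.lt_trans h1 h2⟩
  have : Std.Irrefl (fun s t : Perm (Fin N) => List.Lex (· < ·) (List.ofFn s) (List.ofFn t)) :=
    ⟨fun a => List.lt_irrefl _⟩
  have wf : WellFounded (fun s t : Perm (Fin N) => List.Lex (· < ·) (List.ofFn s) (List.ofFn t)) :=
    Finite.wellFounded_of_trans_of_irrefl _
  induction t using wf.induction with
  | _ t ih =>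
    by_cases hg : GoodPerm d t
    · exact Submodule.subset_span ⟨t, hg, rfl⟩
    · obtain ⟨q, hq, hsub⟩ := not_goodPerm hg
      obtain ⟨u, r, hur⟩ := exists_blocks _ q hsub
      have hperm : ∀ s : Perm (Fin d), ∃ t' : Perm (Fin N),
          u ++ (List.ofFn (fun i => q (s i) :: r (s i))).flatten = List.ofFn t' := by
        intro s
        apply exists_perm_ofFn
        have h1 : (List.ofFn (fun i => q (s i) :: r (s i))).Perm
            (List.ofFn (fun i => q i :: r i)) :=
          Equiv.Perm.ofFn_comp_perm s (fun i => q i :: r i)
        have h2 : (u ++ (List.ofFn (fun i => q (s i) :: r (s i))).flatten).Perm (List.ofFn t) := by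
          rw [hur]
          exact List.Perm.append_left u h1.flatten
        refine h2.trans ?_
        have h3 := Equiv.Perm.ofFn_comp_perm t (id : Fin N → Fin N)
        rw [List.ofFn_id] at h3
        exact h3
      choose T hT using hperm
      have hT1 : T 1 = t := by
        have h1 := hT 1
        simp only [Equiv.Perm.coe_one, id_eq] at h1
        rw [← hur] at h1
        exact (Equiv.coe_fn_injective (List.ofFn_injective h1)).symm
      have hsum : ∑ s, a s • wordFun M (T s) = 0 := by
        funext x
        have h1 := hid (fun i => ((q i :: r i).map (fun j => (x j : A))).prod) (fun i => by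
          apply prod_mem_of_ne_nil M
          · intro a ha
            obtain ⟨j, _, rfl⟩ := List.mem_map.1 ha
            exact (x j).2
          · simp)
        have h2 : ∀ s, wordFun M (T s) x = (u.map (fun j => (x j : A))).prod *
            (List.ofFn (fun i => ((q (s i) :: r (s i)).map (fun j => (x j : A))).prod)).prod := by
          intro s
          have h3 : wordFun M (T s) x = ((List.ofFn (T s)).map (fun j => (x j : A))).prod := by
            rw [wordFun, List.map_ofFn]
            rfl
          rw [h3, ← hT s, List.map_append, List.prod_append, List.map_flatten, List.prod_flatten,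
            List.map_ofFn, List.map_ofFn]
          rfl
        rw [Finset.sum_apply]
        simp only [Pi.smul_apply, h2, Pi.zero_apply]
        have h4 : ∀ s : Perm (Fin d), a s • ((u.map (fun j => (x j : A))).prod *
            (List.ofFn (fun i => ((q (s i) :: r (s i)).map (fun j => (x j : A))).prod)).prod) =
            (u.map (fun j => (x j : A))).prod * (a s •
            (List.ofFn (fun i => ((q (s i) :: r (s i)).map (fun j => (x j : A))).prod)).prod) := by
          intro s
          rw [mul_smul_comm]
        simp only [h4]
        rw [← Finset.mul_sum, h1, mul_zero]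
      rw [← Finset.add_sum_erase _ _ (Finset.mem_univ (1 : Perm (Fin d))), ha, one_smul, hT1] at hsum
      rw [eq_neg_of_add_eq_zero_left hsum]
      apply Submodule.neg_mem
      apply Submodule.sum_mem
      intro s hs
      apply Submodule.smul_mem
      apply ih
      rw [← hT s, hur]
      exact lex_blocks q hq r s (Finset.ne_of_mem_erase hs) u

/-- **Regev's bound**: the words span a space of dimension at most `(d - 1) ^ (2 N)` -/
theorem finrank_span_wordFun_le {d : ℕ} {a : Perm (Fin d) → F} (ha : a 1 = 1)
    (hid : ∀ x : Fin d → A, (∀ i, x i ∈ M) →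
      ∑ s, a s • (List.ofFn (fun i => x (s i))).prod = 0) (N : ℕ) :
    Module.finrank F (Submodule.span F (Set.range (wordFun M (N := N)))) ≤ (d - 1) ^ (2 * N) := by
  have h : Submodule.span F (Set.range (wordFun M (N := N))) =
      Submodule.span F (wordFun M '' {t : Perm (Fin N) | GoodPerm d t}) := by
    apply le_antisymm
    · rw [Submodule.span_le]
      rintro _ ⟨t, rfl⟩
      exact wordFun_mem M ha hid t
    · exact Submodule.span_mono (Set.image_subset_range _ _)
  rw [h]
  refine le_trans ?_ (ncard_goodPerm_le N d)
  have hfin : (wordFun M '' {t : Perm (Fin N) | GoodPerm d t}).Finite := Set.toFinite _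
  have := hfin.fintype
  refine le_trans (finrank_span_le_card _) ?_
  rw [Set.toFinset_card, ← Nat.card_eq_fintype_card]
  exact Set.ncard_image_le (Set.toFinite _)

end span

end Pool.Agent.KEM.Rg
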