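import Mathlib

/-!
Shirshov's lemma (row Shi1 of the KEM project, MP_1a662b_al): every long word over a finite ordered
alphabet contains an `n`-th power or a `d`-divided factor.
-/

namespace Pool.Agent.KEM

/-- `w` has a factor `v^n`, `v` nonempty, or a `d`-divided factor `u 0 ... u (d-1)`: all `u i` are
nonempty and every nontrivial permutation of the `u i` gives a lexicographically smaller word. -/
def ShGood {α : Type*} [LT α] (n d : ℕ) (w : List α) : Prop :=
  (∃ v : List α, v ≠ [] ∧ (List.replicate n v).flatten <:+: w) ∨
  ∃ u : Fin d → List α, (∀ i, u i ≠ []) ∧ (List.ofFn u).flatten <:+: w ∧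
    ∀ s : Equiv.Perm (Fin d), s ≠ 1 →
      List.Lex (· < ·) (List.ofFn (u ∘ s)).flatten (List.ofFn u).flatten

theorem ShGood.of_infix {α : Type*} [LT α] {n d : ℕ} {v w : List α} (h : ShGood n d v)
    (hvw : v <:+: w) : ShGood n d w := by
  rcases h with ⟨u, hu, h⟩ | ⟨u, hu, h, h'⟩
  · exact Or.inl ⟨u, hu, h.trans hvw⟩
  · exact Or.inr ⟨u, hu, h.trans hvw, h'⟩

theorem lex_map {α β : Type*} [LT α] [LT β] {f : α → β} (hf : ∀ a b, a < b → f a < f b)
    {l l' : List α} (h : List.Lex (· < ·) l l') : List.Lex (· < ·) (l.map f) (l'.map f) := by
  induction h with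
  | nil => exact List.Lex.nil
  | cons _ ih => exact List.Lex.cons ih
  | rel h => exact List.Lex.rel (hf _ _ h)

theorem infix_map {α β : Type*} (f : α → β) {l l' : List α} (h : l <:+: l') :
    l.map f <:+: l'.map f := by
  obtain ⟨p, q, rfl⟩ := h
  exact ⟨p.map f, q.map f, by simp⟩

theorem infix_flatten {α : Type*} {l l' : List (List α)} (h : l <:+: l') :
    l.flatten <:+: l'.flatten := by
  obtain ⟨p, q, rfl⟩ := h
  exact ⟨p.flatten, q.flatten, by simp⟩

theorem ShGood.map {α β : Type*} [LT α] [LT β] {f : α → β} (hf : ∀ a b, a < b → f a < f b)
    {n d : ℕ} {w : List α} (h : ShGood n d w) : ShGood n d (w.map f) := by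
  rcases h with ⟨u, hu, h⟩ | ⟨u, hu, h, h'⟩
  · refine Or.inl ⟨u.map f, by simpa using hu, ?_⟩
    have := infix_map f h
    rwa [List.map_flatten, List.map_replicate] at this
  · refine Or.inr ⟨fun i => (u i).map f, fun i => by simpa using hu i, ?_, fun s hs => ?_⟩
    · have := infix_map f h
      rw [List.map_flatten, List.map_ofFn] at this
      exact this
    · have := lex_map hf (h' s hs)
      rw [List.map_flatten, List.map_ofFn, List.map_flatten, List.map_ofFn] at this
      exact this

/-- A block: a nonempty word without `x` followed by a positive power of `x`. -/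
def IsBlock {α : Type*} (x : α) (b : List α) : Prop :=
  ∃ v : List α, ∃ j : ℕ, v ≠ [] ∧ x ∉ v ∧ 1 ≤ j ∧ b = v ++ List.replicate j x

theorem exists_blocks {α : Type*} (x : α) (w : List α) :
    ∃ (k : ℕ) (bs : List (List α)) (v : List α), w = List.replicate k x ++ bs.flatten ++ v ∧
      x ∉ v ∧ ∀ b ∈ bs, IsBlock x b := by
  classical
  induction w with
  | nil => exact ⟨0, [], [], by simp⟩
  | cons a w ih =>
    obtain ⟨k, bs, v, hw, hv, hb⟩ := ih
    by_cases ha : a = x
    · subst ha
      exact ⟨k + 1, bs, v, by rw [hw]; simp [List.replicate_succ], hv, hb⟩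
    · rcases Nat.eq_zero_or_pos k with hk | hk
      · subst hk
        cases bs with
        | nil =>
          refine ⟨0, [], a :: v, by rw [hw]; simp, ?_, by simp⟩
          simp only [List.mem_cons, not_or]
          exact ⟨fun h => ha h.symm, hv⟩
        | cons b bs =>
          obtain ⟨u, j, hu, hxu, hj, rfl⟩ := hb b (by simp)
          refine ⟨0, ((a :: u) ++ List.replicate j x) :: bs, v, by rw [hw]; simp, hv, ?_⟩
          intro c hc
          rcases List.mem_cons.1 hc with rfl | hc
          · refine ⟨a :: u, j, by simp, ?_, hj, rfl⟩
            simp only [List.mem_cons, not_or]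
            exact ⟨fun h => ha h.symm, hxu⟩
          · exact hb c (by simp [hc])
      · refine ⟨0, ([a] ++ List.replicate k x) :: bs, v, by rw [hw]; simp, hv, ?_⟩
        intro c hc
        rcases List.mem_cons.1 hc with rfl | hc
        · refine ⟨[a], k, by simp, ?_, hk, rfl⟩
          simp only [List.mem_singleton]
          exact fun h => ha h.symm
        · exact hb c hc

theorem IsBlock.ne_nil {α : Type*} {x : α} {b : List α} (h : IsBlock x b) : b ≠ [] := by
  obtain ⟨v, j, hv, -, -, rfl⟩ := h
  simp [hv]

/-- The first letter of a block is smaller than the largest letter `x`. -/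
theorem IsBlock.head {α : Type*} [LinearOrder α] {x : α} (hx : ∀ a : α, a ≤ x) {b : List α}
    (h : IsBlock x b) : ∃ (a : α) (b' : List α), b = a :: b' ∧ a < x := by
  obtain ⟨v, j, hv, hxv, -, rfl⟩ := h
  cases v with
  | nil => exact absurd rfl hv
  | cons a v =>
    refine ⟨a, v ++ List.replicate j x, by simp, lt_of_le_of_ne (hx a) ?_⟩
    rintro rfl
    simp at hxv

/-- A block ends with `x`. -/
theorem IsBlock.last {α : Type*} {x : α} {b : List α} (h : IsBlock x b) :
    ∃ b' : List α, b = b' ++ [x] := by
  obtain ⟨v, j, -, -, hj, rfl⟩ := h
  obtain ⟨j, rfl⟩ := Nat.exists_eq_succ_of_ne_zero (by omega : j ≠ 0)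
  exact ⟨v ++ List.replicate j x, by rw [List.replicate_succ', List.append_assoc]⟩

theorem IsBlock.append {α : Type*} {x : α} {b e : List α} (h : IsBlock x b)
    (h' : IsBlock x (b ++ e)) : ∀ a ∈ e, a = x := by
  obtain ⟨v, j, hv, hxv, hj, rfl⟩ := h
  obtain ⟨v', j', hv', hxv', hj', h⟩ := h'
  -- `v'` is a prefix of `v ++ x^j`, hence of `v` by `x ∉ v'`
  have hlen : v'.length ≤ v.length := by
    by_contra hc
    push Not at hc
    apply hxv'
    have h1 : (v ++ List.replicate j x ++ e)[v.length]? = some x := by
      rw [List.append_assoc, List.getElem?_append_right le_rfl]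
      obtain ⟨j, rfl⟩ := Nat.exists_eq_succ_of_ne_zero (by omega : j ≠ 0)
      simp [List.replicate_succ]
    rw [h, List.getElem?_append_left hc] at h1
    exact List.mem_of_getElem? h1
  intro a ha
  have h2 : (v ++ List.replicate j x ++ e).drop v'.length = List.replicate j' x := by
    rw [h]; simp
  have h3 : a ∈ (v ++ List.replicate j x ++ e).drop v'.length := by
    rw [List.append_assoc, List.drop_append_of_le_length hlen]
    simp [ha]
  rw [h2] at h3
  exact List.eq_of_mem_replicate h3

/-- Lexicographic comparison of lists of blocks implies comparison of the words. -/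
theorem blocks_lex {α : Type*} [LinearOrder α] {x : α} (hx : ∀ a : α, a ≤ x) :
    ∀ (P Q : List (List α)), (∀ b ∈ P, IsBlock x b) → (∀ b ∈ Q, IsBlock x b) →
      P.flatten.length = Q.flatten.length →
      List.Lex (fun b c : List α => List.Lex (· < ·) b c) P Q →
      List.Lex (· < ·) P.flatten Q.flatten := by
  intro P Q hP hQ hlen h
  induction h with
  | nil =>
    rename_i b bs
    exfalso
    have := (hQ b (by simp)).ne_nil
    simp only [List.flatten_nil, List.length_nil, List.flatten_cons, List.length_append] at hlen
    have : 0 < b.length := List.length_pos_iff.2 this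
    omega
  | cons h ih =>
    rename_i b P Q
    rw [List.flatten_cons, List.flatten_cons]
    apply List.Lex.append_left
    apply ih (fun c hc => hP c (by simp [hc])) (fun c hc => hQ c (by simp [hc]))
    simpa using hlen
  | rel h =>
    rename_i b P c Q
    have hb := hP b (by simp)
    have hc := hQ c (by simp)
    have hP' : ∀ d ∈ P, IsBlock x d := fun d hd => hP d (by simp [hd])
    rw [List.flatten_cons, List.flatten_cons] at *
    clear hP hQ
    -- either a first difference or a proper prefix
    have key : ∀ (b c : List α), List.Lex (· < ·) b c →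
        (∃ (p : List α) (y z : α) (b' c' : List α), b = p ++ y :: b' ∧ c = p ++ z :: c' ∧ y < z) ∨
        ∃ (z : α) (e : List α), c = b ++ z :: e := by
      intro b c h
      induction h with
      | nil =>
        rename_i z e
        exact Or.inr ⟨z, e, rfl⟩
      | cons h ih =>
        rename_i a _ _
        rcases ih with ⟨p, y, z, b', c', rfl, rfl, hyz⟩ | ⟨z, e, rfl⟩
        · exact Or.inl ⟨a :: p, y, z, b', c', rfl, rfl, hyz⟩
        · exact Or.inr ⟨z, e, rfl⟩
      | rel h =>
        rename_i y b' z c'
        exact Or.inl ⟨[], y, z, b', c', rfl, rfl, h⟩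
    rcases key b c h with ⟨p, y, z, b', c', rfl, rfl, hyz⟩ | ⟨z, e, rfl⟩
    · rw [List.append_assoc, List.append_assoc]
      apply List.Lex.append_left
      exact List.Lex.rel hyz
    · rw [List.append_assoc]
      apply List.Lex.append_left
      have hz : z = x := hb.append hc z (by simp)
      subst hz
      -- the remaining word is nonempty and starts with a small letter
      cases P with
      | nil => simp at hlen
      | cons d P =>
        obtain ⟨a, d', rfl, ha⟩ := (hP' d (by simp)).head hx
        rw [List.flatten_cons, List.cons_append, List.cons_append]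
        exact List.Lex.rel ha

/-- The number of words of length less than `B` is finite and bounded in terms of the size of the
alphabet. -/
theorem card_words {α : Type*} [Finite α] {m : ℕ} (hm : Nat.card α ≤ m) (B : ℕ) :
    Finite {b : List α // b.length < B} ∧
      Nat.card {b : List α // b.length < B} ≤ (m + 1) ^ B := by
  classical
  let F : {b : List α // b.length < B} → (Fin B → Option α) := fun b i => b.1[(i : ℕ)]?
  have hF : Function.Injective F := by
    rintro ⟨b, hb⟩ ⟨c, hc⟩ h
    apply Subtype.ext
    apply List.ext_getElem?
    intro i
    by_cases hi : i < B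
    · exact congrFun h ⟨i, hi⟩
    · rw [List.getElem?_eq_none (by dsimp only; omega),
        List.getElem?_eq_none (by dsimp only; omega)]
  refine ⟨Finite.of_injective F hF, (Nat.card_le_card_of_injective F hF).trans ?_⟩
  rw [Nat.card_fun]
  have : Nat.card (Option α) = Nat.card α + 1 := Finite.card_option
  rw [this, Nat.card_eq_fintype_card (α := Fin B), Fintype.card_fin]
  exact Nat.pow_le_pow_left (by omega) B

/-- Words without the letter `x` are words over the smaller alphabet. -/
theorem exists_restrict {α : Type*} (x : α) (v : List α) (hv : x ∉ v) :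
    ∃ v' : List {a : α // a ≠ x}, v'.map Subtype.val = v := by
  induction v with
  | nil => exact ⟨[], rfl⟩
  | cons a v ih =>
    simp only [List.mem_cons, not_or] at hv
    obtain ⟨v', hv'⟩ := ih hv.2
    exact ⟨⟨a, fun h => hv.1 h.symm⟩ :: v', by simp [hv']⟩

theorem exists_lift {α : Type*} (B : ℕ) (bs : List (List α)) (h : ∀ b ∈ bs, b.length < B) :
    ∃ bs' : List {b : List α // b.length < B}, bs'.map Subtype.val = bs := by
  induction bs with
  | nil => exact ⟨[], rfl⟩
  | cons b bs ih =>
    obtain ⟨bs', hbs⟩ := ih (fun c hc => h c (by simp [hc]))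
    exact ⟨⟨b, h b (by simp)⟩ :: bs', by simp [hbs]⟩

theorem exists_max {α : Type*} [LinearOrder α] [Finite α] [Nonempty α] :
    ∃ x : α, ∀ a : α, a ≤ x := by
  obtain ⟨x, hx⟩ := Finite.exists_max (fun a : α => a)
  exact ⟨x, hx⟩

/-- From a `d`-divided factor in blocks (not at the beginning) to a `(d+1)`-divided factor. -/
theorem divided_succ {α : Type*} [LinearOrder α] {x : α} (hx : ∀ a : α, a ≤ x) {d : ℕ}
    (u : Fin d → List (List α)) (hu : ∀ i, u i ≠ []) (hb : ∀ i, ∀ b ∈ u i, IsBlock x b)
    (hs : ∀ s : Equiv.Perm (Fin d), s ≠ 1 →
      List.Lex (fun b c : List α => List.Lex (· < ·) b c) (List.ofFn (u ∘ s)).flatten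
        (List.ofFn u).flatten)
    (s : Equiv.Perm (Fin (d + 1))) (hs1 : s ≠ 1) :
    List.Lex (· < ·)
      (List.ofFn ((Fin.cons [x] (fun i => (u i).flatten) : Fin (d + 1) → List α) ∘ s)).flatten
      (List.ofFn (Fin.cons [x] (fun i => (u i).flatten) : Fin (d + 1) → List α)).flatten := by
  set U : Fin (d + 1) → List α := Fin.cons [x] (fun i => (u i).flatten) with hU
  have hR : (List.ofFn U).flatten = x :: (List.ofFn u).flatten.flatten := by
    rw [List.ofFn_succ, List.flatten_cons, List.flatten_flatten, List.map_ofFn]
    simp only [hU, Fin.cons_zero, Fin.cons_succ, List.singleton_append]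
    rfl
  obtain ⟨⟨p, e⟩, rfl⟩ := Equiv.Perm.decomposeFin.symm.surjective s
  rcases Fin.eq_zero_or_eq_succ p with rfl | ⟨i, rfl⟩
  · -- `x` stays in front
    have he : e ≠ 1 := by
      rintro rfl
      apply hs1
      rw [Equiv.Perm.decomposeFin_symm_of_one, Equiv.swap_self]
      rfl
    have hL : (List.ofFn (U ∘ Equiv.Perm.decomposeFin.symm (0, e))).flatten =
        x :: (List.ofFn (u ∘ e)).flatten.flatten := by
      rw [List.ofFn_succ, List.flatten_cons, List.flatten_flatten, List.map_ofFn]
      simp only [hU, Function.comp_apply, Equiv.Perm.decomposeFin_symm_apply_zero,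
        Equiv.Perm.decomposeFin_symm_apply_succ, Equiv.swap_self, Equiv.refl_apply, Fin.cons_zero,
        Fin.cons_succ, List.singleton_append]
      rfl
    rw [hL, hR]
    apply List.Lex.cons
    have hperm : (List.ofFn (u ∘ e)).Perm (List.ofFn u) := Equiv.Perm.ofFn_comp_perm e u
    apply blocks_lex hx _ _ _ _ _ (hs e he)
    · intro b hb'
      rw [List.mem_flatten] at hb'
      obtain ⟨l, hl, hbl⟩ := hb'
      rw [List.mem_ofFn] at hl
      obtain ⟨i, rfl⟩ := hl
      exact hb _ b hbl
    · intro b hb'
      rw [List.mem_flatten] at hb'
      obtain ⟨l, hl, hbl⟩ := hb'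
      rw [List.mem_ofFn] at hl
      obtain ⟨i, rfl⟩ := hl
      exact hb _ b hbl
    · exact hperm.flatten.flatten.length_eq
  · -- `x` moves away from the front
    have h0 : ∃ (a : α) (r : List α),
        (List.ofFn (U ∘ Equiv.Perm.decomposeFin.symm (i.succ, e))).flatten = a :: r ∧ a < x := by
      rw [List.ofFn_succ, List.flatten_cons]
      simp only [hU, Function.comp_apply, Equiv.Perm.decomposeFin_symm_apply_zero, Fin.cons_succ]
      have hui := hu i
      have hbi := hb i
      cases hc : u i with
      | nil => exact absurd hc hui
      | cons b l =>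
        rw [hc] at hbi
        obtain ⟨a, b', rfl, ha⟩ := (hbi b (by simp)).head hx
        exact ⟨a, _, by rw [List.flatten_cons, List.cons_append, List.cons_append], ha⟩
    obtain ⟨a, r, har, hax⟩ := h0
    rw [har, hR]
    exact List.Lex.rel hax

theorem lex_map' {α β : Type*} {r : α → α → Prop} {t : β → β → Prop} {f : α → β}
    (hf : ∀ a b, r a b → t (f a) (f b)) {l l' : List α} (h : List.Lex r l l') :
    List.Lex t (l.map f) (l'.map f) := by
  induction h with
  | nil => exact List.Lex.nil
  | cons _ ih => exact List.Lex.cons ih
  | rel h => exact List.Lex.rel (hf _ _ h)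

theorem blocks_last {α : Type*} {x : α} :
    ∀ (P : List (List α)), P ≠ [] → (∀ b ∈ P, IsBlock x b) → ∃ r : List α, P.flatten = r ++ [x] := by
  intro P hP hb
  obtain ⟨P', b, rfl⟩ : ∃ P' b, P = P' ++ [b] :=
    ⟨P.dropLast, P.getLast hP, (List.dropLast_append_getLast hP).symm⟩
  obtain ⟨b', rfl⟩ := (hb b (by simp)).last
  exact ⟨P'.flatten ++ b', by simp⟩

theorem length_flatten_le {α : Type*} (B : ℕ) :
    ∀ (P : List (List α)), (∀ b ∈ P, b.length < B) → P.flatten.length ≤ P.length * B := by
  intro P
  induction P with
  | nil => simp
  | cons b P ih =>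
    intro h
    rw [List.flatten_cons, List.length_append, List.length_cons, Nat.add_mul, Nat.one_mul]
    have h1 := ih (fun c hc => h c (by simp [hc]))
    have h2 := h b (by simp)
    omega

/-- **Shirshov's lemma.** -/
theorem shirshov (n : ℕ) : ∀ d : ℕ, 1 ≤ d → ∀ m : ℕ, ∃ N : ℕ, ∀ (α : Type) [LinearOrder α]
    [Finite α], Nat.card α ≤ m → ∀ w : List α, N ≤ w.length → ShGood n d w := by
  intro d hd
  induction d, hd using Nat.le_induction with
  | base =>
    intro m
    refine ⟨1, fun α _ _ _ w hw => ?_⟩
    cases w with
    | nil => simp at hw
    | cons a w =>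
      refine Or.inr ⟨fun _ => [a], by simp, ⟨[], w, by simp⟩, fun s hs => ?_⟩
      exact absurd (Subsingleton.elim s 1) hs
  | succ d hd ihd =>
    intro m
    induction m with
    | zero =>
      refine ⟨1, fun α _ _ hα w hw => ?_⟩
      have : IsEmpty α := by
        rcases isEmpty_or_nonempty α with h | h
        · exact h
        · have : 0 < Nat.card α := Nat.card_pos
          omega
      cases w with
      | nil => simp at hw
      | cons a w => exact isEmptyElim a
    | succ m ihm =>
      obtain ⟨N1, hN1⟩ := ihm
      obtain ⟨N2, hN2⟩ := ihd ((m + 2) ^ (N1 + n))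
      refine ⟨n + N1 + (N2 + 1) * (N1 + n) + 1, fun α _ _ hα w hw => ?_⟩
      have : Nonempty α := by
        cases w with
        | nil => simp at hw
        | cons a w => exact ⟨a⟩
      obtain ⟨x, hx⟩ := exists_max (α := α)
      by_contra hbad
      have hpow : ¬ (List.replicate n x <:+: w) := by
        intro h
        exact hbad (Or.inl ⟨[x], by simp, by simpa using h⟩)
      have hshort : ∀ v : List α, x ∉ v → v <:+: w → v.length < N1 := by
        intro v hv hvw
        by_contra hlen
        push Not at hlen
        obtain ⟨v', rfl⟩ := exists_restrict x v hv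
        have hcard : Nat.card {a : α // a ≠ x} ≤ m := by
          classical
          have : Nat.card {a : α // a ≠ x} < Nat.card α := by
            apply Finite.card_subtype_lt (x := x)
            simp
          omega
        have h := hN1 {a : α // a ≠ x} hcard v' (by simpa using hlen)
        exact hbad ((h.map (f := Subtype.val) (fun a b h => h)).of_infix hvw)
      obtain ⟨k, bs, v, hwd, hxv, hb⟩ := exists_blocks x w
      have hk : k < n := by
        by_contra h
        push Not at h
        apply hpow
        obtain ⟨k, rfl⟩ := Nat.exists_eq_add_of_le h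
        refine ⟨[], List.replicate k x ++ (bs.flatten ++ v), ?_⟩
        rw [hwd, List.replicate_add]
        simp only [List.nil_append, List.append_assoc]
      have hv : v.length < N1 := hshort v hxv ⟨List.replicate k x ++ bs.flatten, [], by simp [hwd]⟩
      have hbs : bs.flatten <:+: w := ⟨List.replicate k x, v, by rw [hwd]⟩
      have hblen : ∀ b ∈ bs, b.length < N1 + n := by
        intro b hbb
        have hbi : b <:+: w := by
          refine List.IsInfix.trans ?_ hbs
          obtain ⟨p, q, rfl⟩ := List.append_of_mem hbb
          exact ⟨p.flatten, q.flatten, by simp⟩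
        obtain ⟨u, j, hu, hxu, hj, rfl⟩ := hb b hbb
        have h1 : u.length < N1 := hshort u hxu (List.IsInfix.trans ⟨[], List.replicate j x, by simp⟩ hbi)
        have h2 : j < n := by
          by_contra h
          push Not at h
          apply hpow
          refine List.IsInfix.trans ?_ hbi
          obtain ⟨j, rfl⟩ := Nat.exists_eq_add_of_le h
          rw [List.replicate_add]
          exact ⟨u, List.replicate j x, by simp⟩
        simp only [List.length_append, List.length_replicate]
        omega
      have hcount : N2 + 1 ≤ bs.length := by
        by_contra h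
        push Not at h
        have h1 := length_flatten_le _ bs hblen
        have h2 : bs.length * (N1 + n) ≤ (N2 + 1) * (N1 + n) := Nat.mul_le_mul_right _ (by omega)
        have h3 : w.length = k + bs.flatten.length + v.length := by
          rw [hwd]; simp [add_assoc]
        omega
      obtain ⟨bs', hbs'⟩ := exists_lift (N1 + n) bs hblen
      cases bs' with
      | nil =>
        rw [List.map_nil] at hbs'
        rw [← hbs'] at hcount
        simp at hcount
      | cons b0 bs'' =>
        have hlen'' : N2 ≤ bs''.length := by
          have : bs.length = bs''.length + 1 := by rw [← hbs']; simp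
          omega
        obtain ⟨hfin, hcard⟩ := card_words (α := α) (m := m + 1) hα (N1 + n)
        have hg := hN2 {b : List α // b.length < N1 + n} hcard bs'' hlen''
        have hblock : ∀ b ∈ b0 :: bs'', IsBlock x b.1 := by
          intro b hbm
          apply hb
          rw [← hbs']
          exact List.mem_map_of_mem hbm
        have hwd2 : w = List.replicate k x ++ ((b0 :: bs'').map Subtype.val).flatten ++ v := by
          rw [hbs']; exact hwd
        rcases hg with ⟨V, hV, hVi⟩ | ⟨u, hu, hui, hus⟩
        · apply hbad
          have hVb : ∀ b ∈ V, b ∈ b0 :: bs'' ∨ n = 0 := by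
            intro b hbV
            rcases Nat.eq_zero_or_pos n with h0 | h0
            · exact Or.inr h0
            · left
              obtain ⟨p, q, hpq⟩ := hVi
              rw [← hpq]
              obtain ⟨n', rfl⟩ := Nat.exists_eq_succ_of_ne_zero (by omega : n ≠ 0)
              simp [List.replicate_succ, hbV]
          rcases Nat.eq_zero_or_pos n with h0 | h0
          · subst h0
            exact Or.inl ⟨[x], by simp, by simp⟩
          · refine Or.inl ⟨(V.map Subtype.val).flatten, ?_, ?_⟩
            · cases V with
              | nil => exact absurd rfl hV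
              | cons b V =>
                have hb1 : IsBlock x b.1 :=
                  hblock b ((hVb b (by simp)).resolve_right (by omega))
                rw [List.map_cons, List.flatten_cons]
                intro h
                rw [List.append_eq_nil_iff] at h
                exact hb1.ne_nil h.1
            · have h1 := infix_flatten (infix_map Subtype.val hVi)
              rw [List.map_flatten, List.map_replicate, List.flatten_flatten,
                List.map_replicate] at h1
              refine h1.trans ?_
              rw [hwd2]
              exact ⟨List.replicate k x ++ b0.1, v, by simp⟩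
        · apply hbad
          obtain ⟨p, q, hpq⟩ := hui
          set u' : Fin d → List (List α) := fun i => (u i).map Subtype.val with hu'
          have hubs : ∀ i, ∀ b ∈ u i, b ∈ bs'' := by
            intro i b hbu
            rw [← hpq]
            simp only [List.mem_append, List.mem_flatten, List.mem_ofFn]
            exact Or.inl (Or.inr ⟨u i, ⟨i, rfl⟩, hbu⟩)
          have hu'b : ∀ i, ∀ b ∈ u' i, IsBlock x b := by
            intro i b hbu
            rw [hu'] at hbu
            obtain ⟨b, hb', rfl⟩ := List.mem_map.1 hbu
            exact hblock b (by simp [hubs i b hb'])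
          have hmapof : ∀ f : Fin d → List {b : List α // b.length < N1 + n},
              (List.ofFn fun i => (f i).map Subtype.val).flatten =
                (List.ofFn f).flatten.map Subtype.val := by
            intro f
            rw [List.map_flatten, List.map_ofFn]
            rfl
          have hs' : ∀ s : Equiv.Perm (Fin d), s ≠ 1 →
              List.Lex (fun b c : List α => List.Lex (· < ·) b c) (List.ofFn (u' ∘ s)).flatten
                (List.ofFn u').flatten := by
            intro s hs
            have h1 := lex_map' (f := Subtype.val)
              (t := fun b c : List α => List.Lex (· < ·) b c) (fun a b h => h) (hus s hs)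
            rw [← hmapof, ← hmapof] at h1
            exact h1
          refine Or.inr ⟨Fin.cons [x] (fun i => (u' i).flatten), ?_, ?_,
            divided_succ hx u' (fun i h => hu i (List.map_eq_nil_iff.1 h)) hu'b hs'⟩
          · intro i
            refine Fin.cases ?_ (fun i => ?_) i
            · simp
            · rw [Fin.cons_succ]
              have h1 := hu i
              have h2 := hu'b i
              rw [hu'] at h2 ⊢
              cases hc : u i with
              | nil => exact absurd hc h1
              | cons b l =>
                simp only [hc, List.map_cons] at h2 ⊢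
                rw [List.flatten_cons]
                intro h
                rw [List.append_eq_nil_iff] at h
                exact (h2 b.1 (by simp)).ne_nil h.1
          · obtain ⟨r, hr⟩ := blocks_last (x := x) ((b0 :: p).map Subtype.val) (by simp) (by
              intro b hbm
              obtain ⟨b, hb', rfl⟩ := List.mem_map.1 hbm
              apply hblock
              rw [← hpq]
              rcases List.mem_cons.1 hb' with rfl | hb'
              · simp
              · simp [hb'])
            have hR : (List.ofFn (Fin.cons [x] (fun i => (u' i).flatten) :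
                Fin (d + 1) → List α)).flatten = x :: (List.ofFn u').flatten.flatten := by
              rw [List.ofFn_succ, List.flatten_cons, List.flatten_flatten, List.map_ofFn]
              simp only [Fin.cons_zero, Fin.cons_succ, List.singleton_append]
              rfl
            rw [hR, hwd2, ← hpq, hu', hmapof]
            refine ⟨List.replicate k x ++ r, (q.map Subtype.val).flatten ++ v, ?_⟩
            have e1 : (List.map Subtype.val (b0 :: (p ++ (List.ofFn u).flatten ++ q))).flatten =
                (List.map Subtype.val (b0 :: p)).flatten ++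
                  ((List.ofFn u).flatten.map Subtype.val).flatten ++
                    (q.map Subtype.val).flatten := by
              simp
            rw [e1, hr]
            simp

end Pool.Agent.KEM
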