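import Pool.Agent.KEM.Reg
import Pool.Agent.KEM.Api

/-!
# A sparse identity

From a multilinear identity on a multiplicatively closed set `M`: there are coefficients `z σ` with
`z 1 = 1`, such that `∑ z σ • x_{σ(ω 0)} y_0 x_{σ(ω 1)} y_1 ⋯ x_{σ(ω (n-1))} = 0` on `M`, for every
permutation `ω`.
-/

set_option autoImplicit false

open Equiv

namespace Pool.Agent.KEM.Rg

section

variable {F A : Type*} [Field F] [Ring A] [Algebra F A] (M : Subsemigroup A)

/-- `x_{σ 0} y_0 x_{σ 1} y_1 ⋯ y_{m-1} x_{σ m}` -/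
def ilFun {m : ℕ} (σ : Perm (Fin (m + 1))) : (Fin (m + 1) → M) × (Fin m → M) → A :=
  fun v => (List.ofFn (fun i : Fin m => (v.1 (σ i.castSucc) : A) * (v.2 i : A))).prod *
    (v.1 (σ (Fin.last m)) : A)

theorem flatten_pairs {α : Type*} : ∀ {m : ℕ} (f g : Fin m → α),
    ((List.ofFn (fun i => [f i, g i])).flatten).Perm (List.ofFn f ++ List.ofFn g) := by
  intro m
  induction m with
  | zero => intro f g; simp
  | succ m ih =>
    intro f g
    rw [List.ofFn_succ, List.ofFn_succ (f := f), List.ofFn_succ (f := g), List.flatten_cons]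
    have h := ih (fun i => f i.succ) (fun i => g i.succ)
    simp only [List.cons_append, List.nil_append]
    refine List.Perm.cons _ ?_
    exact (h.cons (g 0)).trans List.perm_middle.symm

/-- the interlaced word -/
def ilWord {m : ℕ} (σ : Perm (Fin (m + 1))) : List (Fin (m + 1 + m)) :=
  (List.ofFn (fun i : Fin m => [Fin.castAdd m (σ i.castSucc), Fin.natAdd (m + 1) i])).flatten ++
    [Fin.castAdd m (σ (Fin.last m))]

theorem ilWord_perm {m : ℕ} (σ : Perm (Fin (m + 1))) :
    (ilWord σ).Perm (List.finRange (m + 1 + m)) := by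
  have h1 := flatten_pairs (fun i : Fin m => Fin.castAdd m (σ i.castSucc))
    (fun i : Fin m => Fin.natAdd (m + 1) i)
  have h2 : (List.ofFn (fun i : Fin (m + 1) => Fin.castAdd m (σ i))) =
      List.ofFn (fun i : Fin m => Fin.castAdd m (σ i.castSucc)) ++ [Fin.castAdd m (σ (Fin.last m))] := by
    rw [List.ofFn_succ', List.concat_eq_append]
  have h3 : (List.ofFn (fun i : Fin (m + 1) => Fin.castAdd m (σ i))).Perm
      (List.ofFn (fun i : Fin (m + 1) => Fin.castAdd m i)) :=
    Equiv.Perm.ofFn_comp_perm σ (fun i => Fin.castAdd m i)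
  have h4 : List.finRange (m + 1 + m) = List.ofFn (fun i : Fin (m + 1) => Fin.castAdd m i) ++
      List.ofFn (fun i : Fin m => Fin.natAdd (m + 1) i) := by
    rw [← List.ofFn_id]
    rw [List.ofFn_add]
    rfl
  rw [h4, ilWord]
  refine (h1.append_right _).trans ?_
  rw [List.append_assoc]
  refine (List.Perm.append_left _ List.perm_append_comm).trans ?_
  rw [← List.append_assoc, ← h2]
  exact h3.append_right _

/-- the tuple of all letters -/
def letters {m : ℕ} (v : (Fin (m + 1) → M) × (Fin m → M)) : Fin (m + 1 + m) → M :=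
  Fin.append v.1 v.2

theorem exists_wordFun_eq {m : ℕ} (σ : Perm (Fin (m + 1))) :
    ∃ t : Perm (Fin (m + 1 + m)), ∀ v : (Fin (m + 1) → M) × (Fin m → M),
      ilFun M σ v = wordFun M t (letters M v) := by
  obtain ⟨t, ht⟩ := exists_perm_ofFn (ilWord_perm σ)
  refine ⟨t, fun v => ?_⟩
  have h3 : wordFun M t (letters M v) =
      ((List.ofFn t).map (fun j => (letters M v j : A))).prod := by
    rw [wordFun, List.map_ofFn]
    rfl
  rw [h3, ← ht, ilWord, List.map_append, List.prod_append, List.map_flatten, List.prod_flatten,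
    List.map_ofFn, List.map_ofFn]
  simp [letters, ilFun, Function.comp_def]

/-- the span of the interlaced words -/
def ilSpan (F : Type*) {A : Type*} [Field F] [Ring A] [Algebra F A] (M : Subsemigroup A) (m : ℕ) :
    Submodule F ((Fin (m + 1) → M) × (Fin m → M) → A) :=
  Submodule.span F (Set.range (ilFun M (m := m)))

instance (m : ℕ) : Module.Finite F (ilSpan F M m) := by
  unfold ilSpan
  exact Module.Finite.span_of_finite F (Set.finite_range _)

theorem finrank_ilSpan_le {d : ℕ} {a : Perm (Fin d) → F} (ha : a 1 = 1)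
    (hid : ∀ x : Fin d → A, (∀ i, x i ∈ M) →
      ∑ s, a s • (List.ofFn (fun i => x (s i))).prod = 0) (m : ℕ) :
    Module.finrank F (ilSpan F M m) ≤ (d - 1) ^ (2 * (m + 1 + m)) := by
  let P : ((Fin (m + 1 + m) → M) → A) →ₗ[F] ((Fin (m + 1) → M) × (Fin m → M) → A) :=
    LinearMap.funLeft F A (letters M)
  have hle : ilSpan F M m ≤ (Submodule.span F (Set.range (wordFun M (N := m + 1 + m)))).map P := by
    unfold ilSpan
    rw [Submodule.span_le]
    rintro _ ⟨σ, rfl⟩
    obtain ⟨t, ht⟩ := exists_wordFun_eq M σ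
    refine ⟨wordFun M t, Submodule.subset_span ⟨t, rfl⟩, ?_⟩
    funext v
    exact (ht v).symm
  have : Module.Finite F (Submodule.span F (Set.range (wordFun M (N := m + 1 + m)))) :=
    Module.Finite.span_of_finite F (Set.finite_range _)
  refine (Submodule.finrank_mono hle).trans ?_
  exact (Submodule.finrank_map_le _ _).trans (finrank_span_wordFun_le M ha hid (m + 1 + m))

/-- the action of a permutation on the functions -/
def renT (F : Type*) {A : Type*} [Field F] [Ring A] [Algebra F A] (M : Subsemigroup A) {m : ℕ}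
    (p : Perm (Fin (m + 1))) :
    ((Fin (m + 1) → M) × (Fin m → M) → A) →ₗ[F] ((Fin (m + 1) → M) × (Fin m → M) → A) :=
  LinearMap.funLeft F A (fun v => (fun i => v.1 (p i), v.2))

theorem renT_ilFun {m : ℕ} (p σ : Perm (Fin (m + 1))) :
    renT F M p (ilFun M σ) = ilFun M (p * σ) := by
  funext v
  simp [renT, ilFun, LinearMap.funLeft_apply]

theorem renT_mem {m : ℕ} (p : Perm (Fin (m + 1))) :
    ∀ f ∈ ilSpan F M m, renT F M p f ∈ ilSpan F M m := by
  intro f hf
  unfold ilSpan at hf ⊢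
  induction hf using Submodule.span_induction with
  | mem x hx =>
    obtain ⟨σ, rfl⟩ := hx
    rw [renT_ilFun]
    exact Submodule.subset_span ⟨_, rfl⟩
  | zero => rw [map_zero]; exact Submodule.zero_mem _
  | add x z _ _ h1 h2 => rw [map_add]; exact Submodule.add_mem _ h1 h2
  | smul c x _ h => rw [map_smul]; exact Submodule.smul_mem _ _ h

theorem exists_dep {K V ι : Type*} [Field K] [AddCommGroup V] [Module K V] [Module.Finite K V]
    [Fintype ι] (T : ι → (V →ₗ[K] V)) (h : (Module.finrank K V) ^ 2 < Fintype.card ι) :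
    ∃ g : ι → K, (∀ x, ∑ i, g i • T i x = 0) ∧ ∃ i, g i ≠ 0 := by
  have hdep : ¬ LinearIndependent K T := by
    intro hli
    have h1 := hli.fintype_card_le_finrank
    rw [Module.finrank_linearMap, ← sq] at h1
    omega
  obtain ⟨g, hg, hp⟩ := Fintype.not_linearIndependent_iff.1 hdep
  refine ⟨g, fun x => ?_, hp⟩
  have h1 := congrArg (fun S => S x) hg
  simpa using h1

theorem exists_sparse {d : ℕ} {a : Perm (Fin d) → F} (ha : a 1 = 1)
    (hid : ∀ x : Fin d → A, (∀ i, x i ∈ M) →
      ∑ s, a s • (List.ofFn (fun i => x (s i))).prod = 0) :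
    ∃ (m : ℕ) (z : Perm (Fin (m + 1)) → F), z 1 = 1 ∧
      ∀ (ω : Perm (Fin (m + 1))) (v : (Fin (m + 1) → M) × (Fin m → M)),
        ∑ σ, z σ • ilFun M (σ * ω) v = 0 := by
  obtain ⟨m, hm⟩ : ∃ m : ℕ, ((d - 1) ^ (2 * (m + 1 + m))) ^ 2 < (m + 1).factorial := by
    obtain ⟨n, hn, hn1⟩ := ((Nat.eventually_mul_pow_lt_factorial_sub 1 ((d - 1) ^ 8) 0).and
      (Filter.eventually_ge_atTop 1)).exists
    obtain ⟨m, rfl⟩ : ∃ m, n = m + 1 := ⟨n - 1, by omega⟩
    refine ⟨m, lt_of_le_of_lt ?_ hn⟩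
    rw [one_mul, ← pow_mul, ← pow_mul]
    rcases Nat.eq_zero_or_pos (d - 1) with h | h
    · rw [h, zero_pow (by omega)]
      exact Nat.zero_le _
    · exact Nat.pow_le_pow_right h (by omega)
  have hcard : (Module.finrank F (ilSpan F M m)) ^ 2 < Fintype.card (Perm (Fin (m + 1))) := by
    rw [Fintype.card_perm, Fintype.card_fin]
    exact lt_of_le_of_lt (Nat.pow_le_pow_left (finrank_ilSpan_le M ha hid m) 2) hm
  obtain ⟨g, hg, p0, hp0⟩ := exists_dep
    (fun p : Perm (Fin (m + 1)) => (renT F M p).restrict (renT_mem M p)) hcard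
  have hg' : ∀ (ω : Perm (Fin (m + 1))) (v : (Fin (m + 1) → M) × (Fin m → M)),
      ∑ σ, g σ • ilFun M (σ * ω) v = 0 := by
    intro ω v
    have h1 := hg ⟨ilFun M ω, Submodule.subset_span ⟨ω, rfl⟩⟩
    have h2 : ∑ σ, g σ • ilFun M (σ * ω) = 0 := by
      have h3 := congrArg Subtype.val h1
      rw [Submodule.coe_sum] at h3
      simp only [Submodule.coe_smul, LinearMap.coe_restrict_apply, renT_ilFun,
        Submodule.coe_zero] at h3
      exact h3
    have h4 := congrFun h2 v
    rw [Finset.sum_apply] at h4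
    exact h4
  refine ⟨m, fun σ => (g p0)⁻¹ * g (σ * p0), ?_, ?_⟩
  · show (g p0)⁻¹ * g (1 * p0) = 1
    rw [one_mul, inv_mul_cancel₀ hp0]
  · intro ω v
    have h1 := hg' (p0⁻¹ * ω) v
    rw [← Equiv.sum_comp (Equiv.mulRight p0)] at h1
    simp only [Equiv.coe_mulRight, mul_assoc, mul_inv_cancel_left] at h1
    simp only [mul_smul]
    rw [← Finset.smul_sum, h1, smul_zero]

end

/-! ### The statements for algebras -/

universe u

section alg

open Pool.Agent.Helper29

variable {F : Type u} [Field F]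

/-- the algebra in its unital hull -/
def incSet (A : AssocAlg F) : Subsemigroup (U A) where
  carrier := Set.range (inc A)
  mul_mem' := by
    rintro _ _ ⟨a, rfl⟩ ⟨b, rfl⟩
    exact ⟨a * b, inc_mul A a b⟩

theorem mem_incSet {A : AssocAlg F} {x : U A} : x ∈ incSet A ↔ ∃ a, inc A a = x := Iff.rfl

theorem perm_of_MLW {N : ℕ} {w : FreeMonoid (Fin N)} (h : MLW w) :
    ∃ t : Perm (Fin N), w = FreeMonoid.ofList (List.ofFn t) := by
  have h1 : (FreeMonoid.toList w).Perm (List.finRange N) := by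
    rw [List.perm_ext_iff_of_nodup h.2.1 (List.nodup_finRange N)]
    intro a
    simp [h.2.2 a]
  obtain ⟨t, ht⟩ := exists_perm_ofFn h1
  exact ⟨t, by rw [← ht]; rfl⟩

theorem ofFn_perm_injective {N : ℕ} :
    Function.Injective (fun t : Perm (Fin N) => FreeMonoid.ofList (List.ofFn t)) := by
  intro t t' h
  have h1 : List.ofFn t = List.ofFn t' := FreeMonoid.ofList.injective h
  exact Equiv.coe_fn_injective (List.ofFn_injective h1)

/-- a multilinear polynomial in `Fin N` is a combination of the words of the permutations -/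
theorem mem_ML_fin {N : ℕ} {p : FA F (Fin N)} (hp : p ∈ ML F (Fin N)) :
    p = ∑ t : Perm (Fin N), p.coeff (FreeMonoid.ofList (List.ofFn t)) •
      mon F (FreeMonoid.ofList (List.ofFn t)) := by
  classical
  unfold ML at hp
  induction hp using Submodule.span_induction with
  | mem x hx =>
    obtain ⟨w, hw, rfl⟩ := hx
    obtain ⟨t, rfl⟩ := perm_of_MLW hw
    rw [Finset.sum_eq_single t]
    · simp [mon]
    · intro t' _ hne
      have : FreeMonoid.ofList (List.ofFn t) ≠ FreeMonoid.ofList (List.ofFn t') :=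
        fun h => hne (ofFn_perm_injective h).symm
      simp [mon, this]
    · intro h
      exact absurd (Finset.mem_univ _) h
  | zero => simp
  | add x z _ _ h1 h2 =>
    conv_lhs => rw [h1, h2]
    rw [← Finset.sum_add_distrib]
    refine Finset.sum_congr rfl fun t _ => ?_
    rw [← add_smul]
    rfl
  | smul c x _ h =>
    conv_lhs => rw [h]
    rw [Finset.smul_sum]
    refine Finset.sum_congr rfl fun t _ => ?_
    rw [smul_smul]
    rfl

theorem exists_coeff {A : AssocAlg F} {d : ℕ} (h : PIdeg A d) :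
    ∃ a : Perm (Fin d) → F, a 1 = 1 ∧ ∀ x : Fin d → U A, (∀ i, x i ∈ incSet A) →
      ∑ s, a s • (List.ofFn (fun i => x (s i))).prod = 0 := by
  obtain ⟨p, hp, h1, hs⟩ := h
  refine ⟨fun t => p.coeff (FreeMonoid.ofList (List.ofFn t)), ?_, ?_⟩
  · show p.coeff (FreeMonoid.ofList (List.ofFn (fun i : Fin d => i))) = 1
    rw [show (fun i : Fin d => i) = id from rfl, List.ofFn_id]
    exact h1
  · intro x hx
    choose v hv using fun i => mem_incSet.1 (hx i)
    have h2 := hs v
    rw [mem_ML_fin hp, map_sum] at h2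
    simp only [map_smul, ev_mon] at h2
    rw [← h2]
    refine Finset.sum_congr rfl fun t _ => ?_
    congr 1
    rw [show FreeMonoid.toList (FreeMonoid.ofList (List.ofFn t)) = List.ofFn t from rfl,
      List.map_ofFn]
    congr 2
    funext i
    exact (hv (t i)).symm

end alg

end Pool.Agent.KEM.Rg

namespace Pool.Agent.KEM

open Pool.Agent.Helper29 Rg

universe u

variable {F : Type u} [Field F]

/-- **Row Reg** -/
theorem reg {A : AssocAlg F} {d : ℕ} (h : PIdeg A d) (N : ℕ) :
    ∃ s : Finset (Equiv.Perm (Fin N)), s.card ≤ (d - 1) ^ (2 * N) ∧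
      ∀ τ : Equiv.Perm (Fin N), ∃ a : Equiv.Perm (Fin N) → F,
        Sat A (mon F (FreeMonoid.ofList (List.ofFn τ)) -
          ∑ σ ∈ s, a σ • mon F (FreeMonoid.ofList (List.ofFn σ))) := by
  classical
  obtain ⟨a, ha, hid⟩ := exists_coeff h
  let s : Finset (Perm (Fin N)) := Finset.univ.filter (GoodPerm d)
  refine ⟨s, ?_, ?_⟩
  · have h1 := ncard_goodPerm_le N d
    have h2 : {t : Perm (Fin N) | GoodPerm d t}.ncard = s.card := by
      rw [← Set.ncard_coe_finset]
      congr 1
      ext t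
      simp [s]
    omega
  · intro τ
    have h1 := wordFun_mem (incSet A) ha hid τ
    have h3 : {t : Perm (Fin N) | GoodPerm d t} = (s : Set (Perm (Fin N))) := by
      ext t
      simp [s]
    rw [h3, Submodule.mem_span_image_finset_iff_exists_fun] at h1
    obtain ⟨c0, hc0⟩ := h1
    obtain ⟨c, hc⟩ : ∃ c : Perm (Fin N) → F,
        ∑ σ ∈ s, c σ • wordFun (incSet A) σ = wordFun (incSet A) τ := by
      refine ⟨fun σ => if hσ : σ ∈ s then c0 ⟨σ, hσ⟩ else 0, ?_⟩
      rw [← hc0, ← Finset.sum_coe_sort]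
      refine Finset.sum_congr rfl fun i _ => ?_
      simp
    refine ⟨c, fun v => ?_⟩
    rw [map_sub, map_sum]
    simp only [map_smul, ev_mon]
    have h2 : ∀ σ : Perm (Fin N),
        ((FreeMonoid.toList (FreeMonoid.ofList (List.ofFn σ))).map (fun z => inc A (v z))).prod =
        wordFun (incSet A) σ (fun i => ⟨inc A (v i), ⟨v i, rfl⟩⟩) := by
      intro σ
      rw [show FreeMonoid.toList (FreeMonoid.ofList (List.ofFn σ)) = List.ofFn σ from rfl,
        List.map_ofFn]
      rfl
    simp only [h2]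
    rw [← hc, Finset.sum_apply]
    simp

/-- **Row Spar** -/
theorem spar {A : AssocAlg F} {d : ℕ} (h : PIdeg A d) :
    ∃ n : ℕ, 0 < n ∧ ∃ z : Equiv.Perm (Fin n) → F, z 1 = 1 ∧
      ∀ (ω : Equiv.Perm (Fin n)) (x : Fin n → A.carrier) (y : Fin n → U A),
        (∀ i : Fin n, i.val + 1 < n → ∃ a, y i = inc A a) →
        ∑ σ : Equiv.Perm (Fin n), z σ •
          (List.ofFn fun i => inc A (x (σ (ω i))) * y i).prod = 0 := by
  obtain ⟨a, ha, hid⟩ := exists_coeff h
  obtain ⟨m, z, hz, hs⟩ := exists_sparse (incSet A) ha hid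
  refine ⟨m + 1, Nat.succ_pos m, z, hz, fun ω x y hy => ?_⟩
  choose y' hy' using fun i : Fin m => hy i.castSucc (by simp)
  have h1 := hs ω (fun i => ⟨inc A (x i), ⟨x i, rfl⟩⟩, fun i => ⟨inc A (y' i), ⟨y' i, rfl⟩⟩)
  have h2 : ∀ σ : Perm (Fin (m + 1)), (List.ofFn fun i => inc A (x (σ (ω i))) * y i).prod =
      ilFun (incSet A) (σ * ω) (fun i => ⟨inc A (x i), ⟨x i, rfl⟩⟩,
        fun i => ⟨inc A (y' i), ⟨y' i, rfl⟩⟩) * y (Fin.last m) := by
    intro σ
    rw [List.ofFn_succ', List.concat_eq_append, List.prod_append, ilFun]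
    simp only [List.prod_cons, List.prod_nil, mul_one, Perm.coe_mul, Function.comp_apply, hy',
      mul_assoc]
  simp only [h2]
  have h3 : ∀ σ : Perm (Fin (m + 1)), z σ • (ilFun (incSet A) (σ * ω)
      (fun i => ⟨inc A (x i), ⟨x i, rfl⟩⟩, fun i => ⟨inc A (y' i), ⟨y' i, rfl⟩⟩) * y (Fin.last m)) =
      (z σ • ilFun (incSet A) (σ * ω) (fun i => ⟨inc A (x i), ⟨x i, rfl⟩⟩,
        fun i => ⟨inc A (y' i), ⟨y' i, rfl⟩⟩)) * y (Fin.last m) := by
    intro σ
    rw [smul_mul_assoc]
  simp only [h3]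
  rw [← Finset.sum_mul, h1, zero_mul]

end Pool.Agent.KEM
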