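import Pool.Agent.KEM.Quo

/-!
# Products of typed polynomials (for row StA)
-/

universe u

namespace Pool.Agent.KEM

open Pool.Agent.Helper29

namespace StAH

open QuoH

variable {F : Type u} [Field F]

/-! ### Renaming and evaluation -/

theorem ren_mon {Z Z' : Type} (f : Z → Z') (w : FreeMonoid Z) :
    ren f (mon F w) = mon F (FreeMonoid.map f w) := by
  rw [ren, mon, mon]
  exact MonoidAlgebra.mapDomain_single

theorem ren_ren {Z Z' Z'' : Type} (f : Z → Z') (g : Z' → Z'') (p : FA F Z) :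
    ren g (ren f p) = ren (fun z => g (f z)) p := by
  induction p using MonoidAlgebra.induction_linear with
  | zero => simp
  | add x y hx hy => rw [map_add, map_add, hx, hy, map_add]
  | single w r =>
    have h : (MonoidAlgebra.single w r : FA F Z) = r • mon F w := by
      rw [mon, MonoidAlgebra.smul_single, smul_eq_mul, mul_one]
    rw [h, map_smul, map_smul, map_smul, ren_mon, ren_mon, ren_mon]
    congr 2
    exact FreeMonoid.map_map

theorem ev_ren (A : AssocAlg F) {Z Z' : Type} (f : Z → Z') (v : Z' → A.carrier) (p : FA F Z) :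
    ev A v (ren f p) = ev A (fun z => v (f z)) p := by
  induction p using MonoidAlgebra.induction_linear with
  | zero => simp
  | add x y hx hy => rw [map_add, map_add, hx, hy, map_add]
  | single w r =>
    have h : (MonoidAlgebra.single w r : FA F Z) = r • mon F w := by
      rw [mon, MonoidAlgebra.smul_single, smul_eq_mul, mul_one]
    rw [h, map_smul, map_smul, map_smul, ren_mon, ev_mon, ev_mon]
    congr 1
    have : (FreeMonoid.lift fun z => inc A (v (f z))) =
        (FreeMonoid.lift fun z => inc A (v z)).comp (FreeMonoid.map f) := by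
      apply FreeMonoid.hom_eq
      intro z
      simp
    rw [this]
    rfl

/-! ### Products -/

theorem mem_ML_mul {Z₁ Z₂ : Type} {p : FA F Z₁} {q : FA F Z₂} (hp : p ∈ ML F Z₁)
    (hq : q ∈ ML F Z₂) :
    ren (Sum.inl : Z₁ → Z₁ ⊕ Z₂) p * ren (Sum.inr : Z₂ → Z₁ ⊕ Z₂) q ∈ ML F (Z₁ ⊕ Z₂) := by
  induction hp using Submodule.span_induction with
  | mem x hx =>
    obtain ⟨w, hw, rfl⟩ := hx
    induction hq using Submodule.span_induction with
    | mem y hy =>
      obtain ⟨w', hw', rfl⟩ := hy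
      rw [ren_mon, ren_mon]
      refine Submodule.subset_span ⟨FreeMonoid.map Sum.inl w * FreeMonoid.map Sum.inr w', ?_, ?_⟩
      · rw [MLW, FreeMonoid.toList_mul, FreeMonoid.toList_map, FreeMonoid.toList_map]
        refine ⟨?_, ?_, ?_⟩
        · intro h
          rw [List.append_eq_nil_iff] at h
          exact hw.1 (List.map_eq_nil_iff.1 h.1)
        · rw [List.nodup_append]
          refine ⟨hw.2.1.map Sum.inl_injective, hw'.2.1.map Sum.inr_injective, ?_⟩
          intro a ha b hb
          obtain ⟨a', _, rfl⟩ := List.mem_map.1 ha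
          obtain ⟨b', _, rfl⟩ := List.mem_map.1 hb
          simp
        · intro z
          rw [List.mem_append]
          cases z with
          | inl z => exact Or.inl (List.mem_map_of_mem (hw.2.2 z))
          | inr z => exact Or.inr (List.mem_map_of_mem (hw'.2.2 z))
      · rw [mon, mon, mon, MonoidAlgebra.single_mul_single, mul_one]
    | zero => rw [map_zero, mul_zero]; exact Submodule.zero_mem _
    | add x y _ _ hx hy => rw [map_add, mul_add]; exact Submodule.add_mem _ hx hy
    | smul a x _ hx => rw [map_smul, mul_smul_comm]; exact Submodule.smul_mem _ _ hx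
  | zero => rw [map_zero, zero_mul]; exact Submodule.zero_mem _
  | add x y _ _ hx hy => rw [map_add, add_mul]; exact Submodule.add_mem _ hx hy
  | smul a x _ hx => rw [map_smul, smul_mul_assoc]; exact Submodule.smul_mem _ _ hx

/-- Alternation in the colour classes. -/
def Alt {Z K : Type} [Fintype Z] [DecidableEq Z] (p : FA F Z) (c : Z → Option K) : Prop :=
  ∀ π ∈ colG c, ren π p = (Equiv.Perm.sign π : ℤ) • p

/-- The colouring of the disjoint union. -/
def cmul {Z₁ Z₂ K₁ K₂ K : Type} (f₁ : K₁ → K) (f₂ : K₂ → K) (c₁ : Z₁ → Option K₁)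
    (c₂ : Z₂ → Option K₂) : Z₁ ⊕ Z₂ → Option K :=
  Sum.elim (fun z => (c₁ z).map f₁) (fun z => (c₂ z).map f₂)

theorem alt_mul {Z₁ Z₂ K₁ K₂ K : Type} [Fintype Z₁] [DecidableEq Z₁] [Fintype Z₂]
    [DecidableEq Z₂] {f₁ : K₁ → K} {f₂ : K₂ → K} (h₁ : Function.Injective f₁)
    (h₂ : Function.Injective f₂) (h₁₂ : ∀ a b, f₁ a ≠ f₂ b) {c₁ : Z₁ → Option K₁}
    {c₂ : Z₂ → Option K₂} {p : FA F Z₁} {q : FA F Z₂} (hp : Alt p c₁) (hq : Alt q c₂) :
    Alt (ren (Sum.inl : Z₁ → Z₁ ⊕ Z₂) p * ren (Sum.inr : Z₂ → Z₁ ⊕ Z₂) q)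
      (cmul f₁ f₂ c₁ c₂) := by
  intro π hπ
  have hl : ∀ z₁, ∃ y, π (Sum.inl z₁) = Sum.inl y := by
    intro z₁
    cases h : π (Sum.inl z₁) with
    | inl y => exact ⟨y, rfl⟩
    | inr y =>
      exfalso
      have h3 := hπ.1 (Sum.inl z₁)
      rw [h] at h3
      simp only [cmul, Sum.elim_inl, Sum.elim_inr] at h3
      cases h4 : c₁ z₁ with
      | none =>
        have := hπ.2 (Sum.inl z₁) (by simp [cmul, h4])
        rw [h] at this
        exact absurd this (by simp)
      | some k =>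
        rw [h4, Option.map_some] at h3
        cases h5 : c₂ y with
        | none => rw [h5] at h3; simp at h3
        | some k' =>
          rw [h5, Option.map_some] at h3
          exact h₁₂ _ _ (Option.some_injective _ h3).symm
  have hr : ∀ z₂, ∃ y, π (Sum.inr z₂) = Sum.inr y := by
    intro z₂
    cases h : π (Sum.inr z₂) with
    | inr y => exact ⟨y, rfl⟩
    | inl y =>
      exfalso
      have h3 := hπ.1 (Sum.inr z₂)
      rw [h] at h3
      simp only [cmul, Sum.elim_inl, Sum.elim_inr] at h3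
      cases h4 : c₂ z₂ with
      | none =>
        have := hπ.2 (Sum.inr z₂) (by simp [cmul, h4])
        rw [h] at this
        exact absurd this (by simp)
      | some k =>
        rw [h4, Option.map_some] at h3
        cases h5 : c₁ y with
        | none => rw [h5] at h3; simp at h3
        | some k' =>
          rw [h5, Option.map_some] at h3
          exact h₁₂ _ _ (Option.some_injective _ h3)
  obtain ⟨π₁, π₂, hπe⟩ : ∃ (π₁ : Equiv.Perm Z₁) (π₂ : Equiv.Perm Z₂),
      π = Equiv.Perm.sumCongr π₁ π₂ := by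
    choose g₁ hg₁ using hl
    choose g₂ hg₂ using hr
    have i₁ : Function.Injective g₁ := by
      intro a b hab
      apply Sum.inl_injective
      apply π.injective
      rw [hg₁, hg₁, hab]
    have i₂ : Function.Injective g₂ := by
      intro a b hab
      apply Sum.inr_injective
      apply π.injective
      rw [hg₂, hg₂, hab]
    refine ⟨Equiv.ofBijective g₁ (Finite.injective_iff_bijective.1 i₁),
      Equiv.ofBijective g₂ (Finite.injective_iff_bijective.1 i₂), ?_⟩
    ext z
    cases z with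
    | inl z => simp [hg₁]
    | inr z => simp [hg₂]
  subst hπe
  have m₁ : π₁ ∈ colG c₁ := by
    refine ⟨fun z => ?_, fun z hz => ?_⟩
    · have h3 := hπ.1 (Sum.inl z)
      simp only [cmul, Equiv.Perm.sumCongr_apply, Sum.map_inl, Sum.elim_inl] at h3
      exact Option.map_injective h₁ h3
    · have h3 := hπ.2 (Sum.inl z) (by simp [cmul, hz])
      simpa using h3
  have m₂ : π₂ ∈ colG c₂ := by
    refine ⟨fun z => ?_, fun z hz => ?_⟩
    · have h3 := hπ.1 (Sum.inr z)
      simp only [cmul, Equiv.Perm.sumCongr_apply, Sum.map_inr, Sum.elim_inr] at h3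
      exact Option.map_injective h₂ h3
    · have h3 := hπ.2 (Sum.inr z) (by simp [cmul, hz])
      simpa using h3
  rw [map_mul, ren_ren, ren_ren]
  have e₁ : (fun z => (Equiv.Perm.sumCongr π₁ π₂) (Sum.inl z : Z₁ ⊕ Z₂)) =
      fun z => (Sum.inl (π₁ z) : Z₁ ⊕ Z₂) := by
    funext z; simp
  have e₂ : (fun z => (Equiv.Perm.sumCongr π₁ π₂) (Sum.inr z : Z₁ ⊕ Z₂)) =
      fun z => (Sum.inr (π₂ z) : Z₁ ⊕ Z₂) := by
    funext z; simp
  rw [e₁, e₂, ← ren_ren (fun z => π₁ z) Sum.inl, ← ren_ren (fun z => π₂ z) Sum.inr, hp π₁ m₁,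
    hq π₂ m₂, map_zsmul, map_zsmul, Equiv.Perm.sign_sumCongr, smul_mul_smul_comm, Units.val_mul]

theorem card_cmul_left {Z₁ Z₂ K₁ K₂ K : Type} {f₁ : K₁ → K} {f₂ : K₂ → K}
    (h₁ : Function.Injective f₁) (h₁₂ : ∀ a b, f₁ a ≠ f₂ b) (c₁ : Z₁ → Option K₁)
    (c₂ : Z₂ → Option K₂) (k : K₁) :
    Nat.card {z // cmul f₁ f₂ c₁ c₂ z = some (f₁ k)} = Nat.card {z // c₁ z = some k} := by
  symm
  refine Nat.card_congr (Equiv.ofBijective (fun z => ⟨Sum.inl z.1, ?_⟩) ⟨?_, ?_⟩)
  · simp [cmul, z.2]
  · intro a b hab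
    apply Subtype.ext
    exact Sum.inl_injective (congrArg Subtype.val hab)
  · rintro ⟨z, hz⟩
    cases z with
    | inl z =>
      refine ⟨⟨z, ?_⟩, rfl⟩
      simp only [cmul, Sum.elim_inl, Option.map_eq_some_iff] at hz
      obtain ⟨k', hk', hk⟩ := hz
      rw [hk', h₁ hk]
    | inr z =>
      simp only [cmul, Sum.elim_inr, Option.map_eq_some_iff] at hz
      obtain ⟨k', hk', hk⟩ := hz
      exact absurd hk.symm (h₁₂ _ _)

theorem card_cmul_right {Z₁ Z₂ K₁ K₂ K : Type} {f₁ : K₁ → K} {f₂ : K₂ → K}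
    (h₂ : Function.Injective f₂) (h₁₂ : ∀ a b, f₁ a ≠ f₂ b) (c₁ : Z₁ → Option K₁)
    (c₂ : Z₂ → Option K₂) (k : K₂) :
    Nat.card {z // cmul f₁ f₂ c₁ c₂ z = some (f₂ k)} = Nat.card {z // c₂ z = some k} := by
  symm
  refine Nat.card_congr (Equiv.ofBijective (fun z => ⟨Sum.inr z.1, ?_⟩) ⟨?_, ?_⟩)
  · simp [cmul, z.2]
  · intro a b hab
    apply Subtype.ext
    exact Sum.inr_injective (congrArg Subtype.val hab)
  · rintro ⟨z, hz⟩
    cases z with
    | inr z =>
      refine ⟨⟨z, ?_⟩, rfl⟩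
      simp only [cmul, Sum.elim_inr, Option.map_eq_some_iff] at hz
      obtain ⟨k', hk', hk⟩ := hz
      rw [hk', h₂ hk]
    | inl z =>
      simp only [cmul, Sum.elim_inl, Option.map_eq_some_iff] at hz
      obtain ⟨k', hk', hk⟩ := hz
      exact absurd hk (h₁₂ _ _)

/-! ### One variable -/

/-- The polynomial `x`. -/
noncomputable def X1 (F : Type u) [Field F] : FA F Unit := mon F (FreeMonoid.of ())

theorem X1_mem : X1 F ∈ ML F Unit := by
  refine Submodule.subset_span ⟨FreeMonoid.of (), ⟨?_, ?_, ?_⟩, rfl⟩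
  · rw [FreeMonoid.toList_of]; simp
  · rw [FreeMonoid.toList_of]; simp
  · intro z
    rw [FreeMonoid.toList_of]; simp

theorem ev_X1 (A : AssocAlg F) (v : Unit → A.carrier) : ev A v (X1 F) = inc A (v ()) := by
  rw [X1, ev_mon, FreeMonoid.lift_eval_of]

theorem X1_alt : Alt (X1 F) (fun _ : Unit => (none : Option Empty)) := by
  intro π _
  have : π = 1 := Subsingleton.elim _ _
  subst this
  rw [Equiv.Perm.sign_one]
  have h : ((1 : ℤˣ) : ℤ) = 1 := rfl
  rw [h, one_smul, X1, ren_mon]
  congr 1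

/-- Multiplication by a new variable on the left. -/
theorem typed_left {Z : Type} [Fintype Z] [DecidableEq Z] {p : FA F Z} {n b g : ℕ}
    {c : Z → Option (Fin n ⊕ Fin g)} (hp : p ∈ ML F Z) (ht : Typed p n b g c) :
    ∃ (c' : Unit ⊕ Z → Option (Fin n ⊕ Fin g)) (p' : FA F (Unit ⊕ Z)), p' ∈ ML F (Unit ⊕ Z) ∧
      Typed p' n b g c' ∧ ∀ (A : AssocAlg F) (v : Z → A.carrier) (a : A.carrier),
        ev A (Sum.elim (fun _ => a) v) p' = inc A a * ev A v p := by
  refine ⟨cmul Empty.elim id (fun _ => none) c, _, mem_ML_mul X1_mem hp, ⟨⟨?_, ?_⟩, ?_⟩, ?_⟩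
  · intro i
    rw [← ht.sizes.small i]
    exact card_cmul_right (fun a b h => h) (fun a => a.elim) _ _ (Sum.inl i)
  · intro i
    rw [← ht.sizes.big i]
    exact card_cmul_right (fun a b h => h) (fun a => a.elim) _ _ (Sum.inr i)
  · exact alt_mul (fun a => a.elim) (fun a b h => h) (fun a => a.elim) X1_alt ht.alt
  · intro A v a
    rw [map_mul, ev_ren, ev_ren, ev_X1]
    rfl

/-- Multiplication by a new variable on the right. -/
theorem typed_right {Z : Type} [Fintype Z] [DecidableEq Z] {p : FA F Z} {n b g : ℕ}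
    {c : Z → Option (Fin n ⊕ Fin g)} (hp : p ∈ ML F Z) (ht : Typed p n b g c) :
    ∃ (c' : Z ⊕ Unit → Option (Fin n ⊕ Fin g)) (p' : FA F (Z ⊕ Unit)), p' ∈ ML F (Z ⊕ Unit) ∧
      Typed p' n b g c' ∧ ∀ (A : AssocAlg F) (v : Z → A.carrier) (a : A.carrier),
        ev A (Sum.elim v (fun _ => a)) p' = ev A v p * inc A a := by
  refine ⟨cmul id Empty.elim c (fun _ => none), _, mem_ML_mul hp X1_mem, ⟨⟨?_, ?_⟩, ?_⟩, ?_⟩
  · intro i
    rw [← ht.sizes.small i]
    exact card_cmul_left (fun a b h => h) (fun _ a => a.elim) _ _ (Sum.inl i)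
  · intro i
    rw [← ht.sizes.big i]
    exact card_cmul_left (fun a b h => h) (fun _ a => a.elim) _ _ (Sum.inr i)
  · exact alt_mul (fun a b h => h) (fun a => a.elim) (fun _ a => a.elim) ht.alt X1_alt
  · intro A v a
    rw [map_mul, ev_ren, ev_ren, ev_X1]
    rfl

/-- The values of typed polynomials. -/
def VanVal (A : AssocAlg F) (n b g : ℕ) : Set (U A) :=
  {r | ∃ (Z : Type) (_ : Fintype Z) (_ : DecidableEq Z) (t : FA F Z)
    (c : Z → Option (Fin n ⊕ Fin g)) (v : Z → A.carrier),
    t ∈ ML F Z ∧ Typed t n b g c ∧ r = ev A v t}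

theorem vanVal_left (A : AssocAlg F) (n b g : ℕ) {x : U A} (hx : x ∈ VanVal A n b g) (s : U A) :
    s * x ∈ Submodule.span F (VanVal A n b g) := by
  obtain ⟨Z, i1, i2, t, c, v, ht, htt, rfl⟩ := hx
  rw [← Unitization.inl_fst_add_inr_snd_eq s, add_mul]
  refine Submodule.add_mem _ ?_ ?_
  · rw [← Unitization.algebraMap_eq_inl, ← Algebra.smul_def]
    exact Submodule.smul_mem _ _ (Submodule.subset_span ⟨Z, i1, i2, t, c, v, ht, htt, rfl⟩)
  · obtain ⟨c', p', h1, h2, h3⟩ := typed_left ht htt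
    refine Submodule.subset_span ⟨Unit ⊕ Z, inferInstance, inferInstance, p', c',
      Sum.elim (fun _ => s.snd) v, h1, h2, ?_⟩
    rw [h3]
    rfl

theorem vanVal_right (A : AssocAlg F) (n b g : ℕ) {x : U A} (hx : x ∈ VanVal A n b g) (s : U A) :
    x * s ∈ Submodule.span F (VanVal A n b g) := by
  obtain ⟨Z, i1, i2, t, c, v, ht, htt, rfl⟩ := hx
  rw [← Unitization.inl_fst_add_inr_snd_eq s, mul_add]
  refine Submodule.add_mem _ ?_ ?_
  · rw [← Unitization.algebraMap_eq_inl, ← Algebra.commutes, ← Algebra.smul_def]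
    exact Submodule.smul_mem _ _ (Submodule.subset_span ⟨Z, i1, i2, t, c, v, ht, htt, rfl⟩)
  · obtain ⟨c', p', h1, h2, h3⟩ := typed_right ht htt
    refine Submodule.subset_span ⟨Z ⊕ Unit, inferInstance, inferInstance, p', c',
      Sum.elim v (fun _ => s.snd), h1, h2, ?_⟩
    rw [h3]
    rfl

theorem vanSpan_le (A : AssocAlg F) (n b g : ℕ) :
    VanSpan A n b g ≤ Submodule.span F (VanVal A n b g) := by
  refine Submodule.span_le.2 ?_
  rintro r ⟨Z, i1, i2, t, c, v, s, s', ht, htt, rfl⟩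
  have h1 : s * ev A v t ∈ Submodule.span F (VanVal A n b g) :=
    vanVal_left A n b g ⟨Z, i1, i2, t, c, v, ht, htt, rfl⟩ s
  change s * ev A v t * s' ∈ Submodule.span F (VanVal A n b g)
  generalize s * ev A v t = x at h1
  induction h1 using Submodule.span_induction with
  | mem x hx => exact vanVal_right A n b g hx s'
  | zero => rw [zero_mul]; exact Submodule.zero_mem _
  | add x y _ _ hx hy => rw [add_mul]; exact Submodule.add_mem _ hx hy
  | smul a x _ hx => rw [smul_mul_assoc]; exact Submodule.smul_mem _ _ hx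

/-- The product of two values of type `(1; b, 0)` is a value of type `(2; b, 0)`. -/
theorem vanVal_mul (A : AssocAlg F) (b : ℕ) {x y : U A} (hx : x ∈ VanVal A 1 b 0)
    (hy : y ∈ VanVal A 1 b 0) : x * y ∈ VanVal A 2 b 0 := by
  obtain ⟨Z, i1, i2, t, c, v, ht, htt, rfl⟩ := hx
  obtain ⟨Z', i1', i2', t', c', v', ht', htt', rfl⟩ := hy
  have k1 : Function.Injective (Sum.map (fun _ : Fin 1 => (0 : Fin 2)) (id : Fin 0 → Fin 0)) := by
    decide
  have k2 : Function.Injective (Sum.map (fun _ : Fin 1 => (1 : Fin 2)) (id : Fin 0 → Fin 0)) := by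
    decide
  have k12 : ∀ a b, (Sum.map (fun _ : Fin 1 => (0 : Fin 2)) (id : Fin 0 → Fin 0)) a ≠
      (Sum.map (fun _ : Fin 1 => (1 : Fin 2)) (id : Fin 0 → Fin 0)) b := by
    decide
  refine ⟨Z ⊕ Z', inferInstance, inferInstance, _,
    cmul (Sum.map (fun _ : Fin 1 => (0 : Fin 2)) (id : Fin 0 → Fin 0))
      (Sum.map (fun _ : Fin 1 => (1 : Fin 2)) (id : Fin 0 → Fin 0)) c c', Sum.elim v v',
      mem_ML_mul ht ht', ⟨⟨?_, ?_⟩, alt_mul k1 k2 k12 htt.alt htt'.alt⟩, ?_⟩
  · intro i
    rcases (by omega : i.val = 0 ∨ i.val = 1) with h | h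
    · have : i = 0 := Fin.ext h
      subst this
      rw [← htt.sizes.small 0]
      exact card_cmul_left k1 k12 c c' (Sum.inl 0)
    · have : i = 1 := Fin.ext h
      subst this
      rw [← htt'.sizes.small 0]
      exact card_cmul_right k2 k12 c c' (Sum.inl 0)
  · intro i
    exact i.elim0
  · rw [map_mul, ev_ren, ev_ren]
    rfl

/-! ### Recolouring -/

theorem van_recolour {A : AssocAlg F} {n : ℕ} (h : Van A 1 (n + 1) 0) : Van A 0 n 1 := by
  intro Z _ _ p c hp ht
  have hc : ∀ z, c z = none ∨ c z = some (Sum.inr 0) := by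
    intro z
    cases h3 : c z with
    | none => exact Or.inl rfl
    | some k =>
      cases k with
      | inl i => exact i.elim0
      | inr i => right; rw [Subsingleton.elim i 0]
  refine h Z p (fun z => (c z).map fun _ => Sum.inl 0) hp ⟨⟨?_, fun j => j.elim0⟩, ?_⟩
  · intro i
    rw [← ht.sizes.big 0]
    apply Nat.card_congr
    apply Equiv.subtypeEquivRight
    intro z
    rcases hc z with h3 | h3
    · simp [h3]
    · simp [h3, Subsingleton.elim i 0]
  · intro π hπ
    apply ht.alt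
    refine ⟨fun z => ?_, fun z hz => hπ.2 z (by simp [hz])⟩
    have h3 := hπ.1 z
    rcases hc z with h4 | h4 <;> rcases hc (π z) with h5 | h5
    · rw [h4, h5]
    · simp [h4, h5] at h3
    · simp [h4, h5] at h3
    · rw [h4, h5]

/-- The zero algebra. -/
def zeroAlg (F : Type u) [Field F] : AssocAlg F where
  carrier := PUnit.{u + 1}
  smul_mul := fun _ _ _ => rfl
  mul_smul := fun _ _ _ => rfl

theorem zeroAlg_cfin : CFin (zeroAlg F) := by
  refine ⟨F, inferInstance, inferInstance, inferInstance, (zeroAlg F).module, ⟨?_, ?_, ?_, ?_⟩⟩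
  · exact ⟨fun _ _ _ => rfl⟩
  · exact ⟨fun _ _ _ => rfl⟩
  · exact ⟨fun _ _ _ => rfl⟩
  · exact (inferInstance : Module.Finite F PUnit.{u + 1})

theorem van_zero {A : AssocAlg F} (h : Van A 1 0 0) (a : A.carrier) : a = 0 := by
  have := h Unit (X1 F) (fun _ => none) X1_mem ⟨⟨fun i => ?_, fun j => j.elim0⟩, ?_⟩ fun _ => a
  · rw [ev_X1] at this
    apply inc_injective
    rw [this, inc_zero]
  · simp
  · intro π _
    have : π = 1 := Subsingleton.elim _ _
    subst this
    rw [Equiv.Perm.sign_one]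
    have h : ((1 : ℤˣ) : ℤ) = 1 := rfl
    rw [h, one_smul, X1, ren_mon]
    congr 1

theorem mul_span_zero {R : Type u} [Ring R] [Algebra F R] {S T : Set R} {c : R}
    (h : ∀ x ∈ S, ∀ y ∈ T, x * y * c = 0) {x y : R} (hx : x ∈ Submodule.span F S)
    (hy : y ∈ Submodule.span F T) : x * y * c = 0 := by
  induction hx using Submodule.span_induction with
  | mem x hx =>
    induction hy using Submodule.span_induction with
    | mem y hy => exact h x hx y hy
    | zero => rw [mul_zero, zero_mul]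
    | add y y' _ _ hy hy' => rw [mul_add, add_mul, hy, hy', add_zero]
    | smul r y _ hy => rw [mul_smul_comm, smul_mul_assoc, hy, smul_zero]
  | zero => rw [zero_mul, zero_mul]
  | add y y' _ _ hy hy' => rw [add_mul, add_mul, hy, hy', add_zero]
  | smul r y _ hy => rw [smul_mul_assoc, smul_mul_assoc, hy, smul_zero]

theorem ML_infinite {Z : Type} [Infinite Z] {p : FA F Z} (hp : p ∈ ML F Z) : p = 0 := by
  induction hp using Submodule.span_induction with
  | mem x hx =>
    obtain ⟨w, hw, rfl⟩ := hx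
    classical
    exfalso
    have : Finite Z := by
      have h1 : (Set.univ : Set Z) ⊆ ↑(FreeMonoid.toList w).toFinset := by
        intro z _
        simp [hw.2.2 z]
      exact Set.finite_univ_iff.1 ((Finset.finite_toSet _).subset h1)
    exact not_finite Z
  | zero => rfl
  | add x y _ _ hx hy => rw [hx, hy, add_zero]
  | smul a x _ hx => rw [hx, smul_zero]

end StAH

end Pool.Agent.KEM
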