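import Pool.Agent.KEM.Defs

/-!
# Basic facts on evaluations (used for the row Star)
-/

universe u

namespace Pool.Agent.KEM.SR

open Pool.Agent.Helper29

variable {F : Type u} [Field F]

/-- The constant term. -/
noncomputable def aug {Z : Type} : FA F Z →ₐ[F] F :=
  MonoidAlgebra.lift F F (FreeMonoid Z) (FreeMonoid.lift fun _ => 0)

theorem hom_ext {Z : Type} {S : Type*} [Semiring S] [Algebra F S] {f g : FA F Z →ₐ[F] S}
    (h : ∀ z, f (mon F (FreeMonoid.of z)) = g (mon F (FreeMonoid.of z))) : f = g := by
  refine MonoidAlgebra.algHom_ext (fun w => ?_) ?_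
  · induction w using FreeMonoid.inductionOn with
    | one =>
      have : (MonoidAlgebra.single (1 : FreeMonoid Z) (1 : F)) = 1 := rfl
      rw [this, map_one, map_one]
    | of z => exact h z
    | mul a b ha hb =>
      have : (MonoidAlgebra.single (a * b) (1 : F)) =
        MonoidAlgebra.single a 1 * MonoidAlgebra.single b 1 := by
        rw [MonoidAlgebra.single_mul_single, one_mul]
      rw [this, map_mul, map_mul, ha, hb]
  · ext

theorem mon_one {Z : Type} : mon F (1 : FreeMonoid Z) = 1 := rfl

theorem mon_mul {Z : Type} (a b : FreeMonoid Z) : mon F (a * b) = mon F a * mon F b := by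
  unfold mon
  rw [MonoidAlgebra.single_mul_single, one_mul]

theorem mon_span {Z : Type} : Submodule.span F (Set.range fun w : FreeMonoid Z => mon F w) = ⊤ := by
  rw [eq_top_iff]
  rintro p -
  induction p using MonoidAlgebra.induction_linear with
  | zero => exact Submodule.zero_mem _
  | add f g hf hg => exact Submodule.add_mem _ hf hg
  | single a b =>
    have : (MonoidAlgebra.single a b : FA F Z) = b • mon F a := by
      unfold mon
      rw [MonoidAlgebra.smul_single, smul_eq_mul, mul_one]
    rw [this]
    exact Submodule.smul_mem _ _ (Submodule.subset_span ⟨a, rfl⟩)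

@[simp] theorem ev_of (A : AssocAlg F) {Z : Type} (v : Z → A.carrier) (z : Z) :
    ev A v (mon F (FreeMonoid.of z)) = inc A (v z) := by
  unfold ev mon
  rw [MonoidAlgebra.lift_single, one_smul, FreeMonoid.lift_eval_of]

@[simp] theorem aug_of {Z : Type} (z : Z) : aug (mon F (FreeMonoid.of z)) = 0 := by
  unfold aug mon
  rw [MonoidAlgebra.lift_single, one_smul, FreeMonoid.lift_eval_of]

theorem fst_ev (A : AssocAlg F) {Z : Type} (v : Z → A.carrier) (p : FA F Z) :
    (ev A v p).fst = aug p := by
  have : (Unitization.fstHom F A.carrier).comp (ev A v) = aug := by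
    refine hom_ext fun z => ?_
    rw [AlgHom.comp_apply, ev_of, aug_of]
    rfl
  rw [← this]
  rfl

theorem ev_eq (A : AssocAlg F) {Z : Type} (v : Z → A.carrier) {p : FA F Z} (h : aug p = 0) :
    ev A v p = inc A (evs A v p) := by
  refine Unitization.ext ?_ ?_
  · rw [fst_ev, h]
    rfl
  · rfl

theorem ev_eq_zero_iff (A : AssocAlg F) {Z : Type} (v : Z → A.carrier) (p : FA F Z) :
    ev A v p = 0 ↔ aug p = 0 ∧ evs A v p = 0 := by
  constructor
  · intro h
    refine ⟨?_, ?_⟩
    · rw [← fst_ev A v, h]
      rfl
    · unfold evs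
      rw [h]
      rfl
  · rintro ⟨h, h'⟩
    rw [ev_eq A v h, h']
    rfl

theorem mon_aug {Z : Type} {w : FreeMonoid Z} (h : FreeMonoid.toList w ≠ []) :
    aug (mon F w) = 0 := by
  induction w using FreeMonoid.casesOn with
  | one => exact absurd rfl h
  | of_mul z w => rw [mon_mul, map_mul, aug_of, zero_mul]

theorem ML_aug {Z : Type} {p : FA F Z} (hp : p ∈ ML F Z) : aug p = 0 := by
  unfold ML at hp
  induction hp using Submodule.span_induction with
  | mem p h =>
    obtain ⟨w, hw, rfl⟩ := h
    exact mon_aug hw.1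
  | zero => exact map_zero _
  | add p q _ _ hp hq => rw [map_add, hp, hq, add_zero]
  | smul a p _ hp => rw [map_smul, hp, smul_zero]

theorem ML_finite {Z : Type} {p : FA F Z} (hp : p ∈ ML F Z) : p = 0 ∨ Finite Z := by
  by_cases h : ∃ w : FreeMonoid Z, MLW w
  · obtain ⟨w, -, -, h⟩ := h
    right
    have : (Set.univ : Set Z) ⊆ {z | z ∈ FreeMonoid.toList w} := fun z _ => h z
    exact Set.finite_univ_iff.1 ((List.finite_toSet _).subset this)
  · left
    have : ML F Z = ⊥ := by
      unfold ML
      rw [Submodule.span_eq_bot]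
      rintro _ ⟨w, hw, -⟩
      exact absurd ⟨w, hw⟩ h
    rw [this] at hp
    exact (Submodule.mem_bot F).1 hp

section map

variable {A B : AssocAlg F}

/-- The unital extension of a homomorphism. -/
noncomputable def umap (φ : A.carrier →ₙₐ[F] B.carrier) : U A →ₐ[F] U B :=
  Unitization.lift ((Unitization.inrNonUnitalAlgHom F B.carrier).comp φ)

theorem umap_apply (φ : A.carrier →ₙₐ[F] B.carrier) (x : U A) :
    umap φ x = Unitization.mk (x.fst, φ x.snd) := by
  refine Unitization.ext ?_ ?_
  · change (algebraMap F (Unitization F B.carrier) x.fst + _).fst = x.fst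
    simp [Unitization.algebraMap_eq_inl]
  · change (algebraMap F (Unitization F B.carrier) x.fst + _).snd = φ x.snd
    simp [Unitization.algebraMap_eq_inl]

theorem umap_inc (φ : A.carrier →ₙₐ[F] B.carrier) (a : A.carrier) :
    umap φ (inc A a) = inc B (φ a) := by
  rw [umap_apply]
  rfl

theorem ev_map (φ : A.carrier →ₙₐ[F] B.carrier) {Z : Type} (v : Z → A.carrier) (p : FA F Z) :
    ev B (fun z => φ (v z)) p = umap φ (ev A v p) := by
  have : ev B (fun z => φ (v z)) = (umap φ).comp (ev A v) := by
    refine hom_ext fun z => ?_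
    rw [AlgHom.comp_apply, ev_of, ev_of, umap_inc]
  rw [this]
  rfl

theorem evs_map (φ : A.carrier →ₙₐ[F] B.carrier) {Z : Type} (v : Z → A.carrier) (p : FA F Z) :
    evs B (fun z => φ (v z)) p = φ (evs A v p) := by
  unfold evs
  rw [ev_map, umap_apply]

theorem sat_of_injective (φ : A.carrier →ₙₐ[F] B.carrier) (h : Function.Injective φ) {Z : Type}
    {p : FA F Z} (hp : Sat B p) : Sat A p := by
  intro v
  have := hp fun z => φ (v z)
  rw [ev_eq_zero_iff, evs_map] at this
  rw [ev_eq_zero_iff]
  exact ⟨this.1, h (by rw [this.2, map_zero])⟩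

theorem sat_of_surjective (φ : A.carrier →ₙₐ[F] B.carrier) (h : Function.Surjective φ) {Z : Type}
    {p : FA F Z} (hp : Sat A p) : Sat B p := by
  intro v
  choose w hw using fun z => h (v z)
  have := hp w
  rw [ev_eq_zero_iff] at this
  rw [ev_eq_zero_iff]
  refine ⟨this.1, ?_⟩
  have h2 : v = fun z => φ (w z) := by
    funext z
    rw [hw]
  rw [h2, evs_map, this.2, map_zero]

end map

theorem ev_sbst (A : AssocAlg F) {Z X : Type} (s : Z → FA F X) (x : X → A.carrier)
    (v : Z → A.carrier) (h : ∀ z, ev A x (s z) = inc A (v z)) (p : FA F Z) :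
    ev A x (sbst s p) = ev A v p := by
  have : (ev A x).comp (sbst s) = ev A v := by
    refine hom_ext fun z => ?_
    rw [AlgHom.comp_apply, ev_of, ← h z]
    congr 1
    unfold sbst mon
    rw [MonoidAlgebra.lift_single, one_smul, FreeMonoid.lift_eval_of]
  rw [← this]
  rfl

@[simp] theorem sbst_of {Z X : Type} (s : Z → FA F X) (z : Z) :
    sbst s (mon F (FreeMonoid.of z)) = s z := by
  unfold sbst mon
  rw [MonoidAlgebra.lift_single, one_smul, FreeMonoid.lift_eval_of]

theorem gen_ev {A : AssocAlg F} {X : Type} {x : X → A.carrier} (hx : Gen A x) (a : A.carrier) :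
    ∃ q : FA F X, aug q = 0 ∧ ev A x q = inc A a := by
  have ha : a ∈ NonUnitalAlgebra.adjoin F (Set.range x) := by
    rw [hx]
    trivial
  induction ha using NonUnitalAlgebra.adjoin_induction with
  | mem a ha =>
    obtain ⟨y, rfl⟩ := ha
    exact ⟨mon F (FreeMonoid.of y), aug_of _, ev_of _ _ _⟩
  | add a b _ _ ha hb =>
    obtain ⟨p, hp, hp'⟩ := ha
    obtain ⟨q, hq, hq'⟩ := hb
    refine ⟨p + q, by rw [map_add, hp, hq, add_zero], ?_⟩
    rw [map_add, hp', hq']
    exact (Unitization.inr_add F a b).symm
  | zero => exact ⟨0, map_zero _, by rw [map_zero]; rfl⟩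
  | mul a b _ _ ha hb =>
    obtain ⟨p, hp, hp'⟩ := ha
    obtain ⟨q, hq, hq'⟩ := hb
    refine ⟨p * q, by rw [map_mul, hp, zero_mul], ?_⟩
    rw [map_mul, hp', hq']
    exact (Unitization.inr_mul F a b).symm
  | smul r a _ ha =>
    obtain ⟨p, hp, hp'⟩ := ha
    refine ⟨r • p, by rw [map_smul, hp, smul_zero], ?_⟩
    rw [map_smul, hp']
    exact (Unitization.inr_smul F r a).symm

theorem wval_cons {S X : Type*} [Zero S] [Mul S] (x : X → S) (a : X) {l : List X} (h : l ≠ []) :
    wval x (a :: l) = x a * wval x l := by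
  cases l with
  | nil => exact absurd rfl h
  | cons b l => rfl

theorem ev_list (A : AssocAlg F) {X : Type} (x : X → A.carrier) (l : List X) (hl : l ≠ []) :
    ev A x (mon F (FreeMonoid.ofList l)) = inc A (wval x l) := by
  induction l with
  | nil => exact absurd rfl hl
  | cons a l ih =>
    by_cases h : l = []
    · subst h
      exact ev_of A x a
    · have : FreeMonoid.ofList (a :: l) = FreeMonoid.of a * FreeMonoid.ofList l := rfl
      rw [this, mon_mul, map_mul, ev_of, ih h, wval_cons x a h]
      exact (Unitization.inr_mul F _ _).symm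

theorem wval_append {S X : Type*} [NonUnitalRing S] (x : X → S) {l l' : List X} (h : l ≠ [])
    (h' : l' ≠ []) : wval x (l ++ l') = wval x l * wval x l' := by
  induction l with
  | nil => exact absurd rfl h
  | cons a l ih =>
    by_cases hl : l = []
    · subst hl
      rw [List.singleton_append, wval_cons x a h']
      rfl
    · rw [List.cons_append, wval_cons x a (by simp [h']), ih hl, wval_cons x a hl, mul_assoc]

/-! ### Multilinearity -/

section multi

variable (A : AssocAlg F)

theorem ev_congr {Z : Type} (w : FreeMonoid Z) (v v' : Z → A.carrier)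
    (h : ∀ z ∈ FreeMonoid.toList w, v z = v' z) : ev A v (mon F w) = ev A v' (mon F w) := by
  induction w using FreeMonoid.recOn with
  | one => rw [mon_one, map_one, map_one]
  | of_mul z w ih =>
    rw [mon_mul, map_mul, map_mul, ev_of, ev_of]
    have h1 : FreeMonoid.toList (FreeMonoid.of z * w) = z :: FreeMonoid.toList w := rfl
    rw [h1] at h
    rw [h z (by simp), ih fun y hy => h y (by simp [hy])]

/-- The value of a multilinear polynomial as a function of one variable. -/
theorem ml_update {Z : Type} [DecidableEq Z] {p : FA F Z} (hp : p ∈ ML F Z) (v : Z → A.carrier)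
    (z : Z) : ∃ (n : ℕ) (α β : Fin n → U A), ∀ y : A.carrier,
      ev A (Function.update v z y) p = ∑ j, α j * inc A y * β j := by
  unfold ML at hp
  induction hp using Submodule.span_induction with
  | mem p h =>
    obtain ⟨w, hw, rfl⟩ := h
    obtain ⟨l1, l2, h12⟩ := List.append_of_mem (hw.2.2 z)
    have h3 : w = FreeMonoid.ofList l1 * (FreeMonoid.of z * FreeMonoid.ofList l2) := by
      rw [← FreeMonoid.ofList_toList w, h12]
      rfl
    have hnd := hw.2.1
    rw [h12] at hnd
    have hnd' := List.nodup_append.1 hnd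
    have hz1 : z ∉ l1 := fun h => hnd'.2.2 z h z (by simp) rfl
    have hz2 : z ∉ l2 := (List.nodup_cons.1 hnd'.2.1).1
    refine ⟨1, fun _ => ev A v (mon F (FreeMonoid.ofList l1)),
      fun _ => ev A v (mon F (FreeMonoid.ofList l2)), fun y => ?_⟩
    rw [h3, mon_mul, mon_mul, map_mul, map_mul, ev_of, Function.update_self, Fin.sum_univ_one,
      ev_congr A (FreeMonoid.ofList l1) (Function.update v z y) v, ev_congr A (FreeMonoid.ofList l2)
        (Function.update v z y) v, mul_assoc]
    · intro t ht
      exact Function.update_of_ne (fun h : t = z => hz2 (by rw [← h]; exact ht)) _ _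
    · intro t ht
      exact Function.update_of_ne (fun h : t = z => hz1 (by rw [← h]; exact ht)) _ _
  | zero => exact ⟨0, Fin.elim0, Fin.elim0, fun y => by simp⟩
  | add p q _ _ hp hq =>
    obtain ⟨n, α, β, h⟩ := hp
    obtain ⟨n', α', β', h'⟩ := hq
    refine ⟨n + n', Fin.append α α', Fin.append β β', fun y => ?_⟩
    rw [map_add, h, h', Fin.sum_univ_add]
    simp
  | smul a p _ hp =>
    obtain ⟨n, α, β, h⟩ := hp
    refine ⟨n, fun j => a • α j, β, fun y => ?_⟩
    rw [map_smul, h, Finset.smul_sum]
    refine Finset.sum_congr rfl fun j _ => ?_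
    rw [smul_mul_assoc, smul_mul_assoc]

variable {A} {C : Type*} [CommRing C] [Algebra F C] [Module C A.carrier]
  [IsScalarTower F C A.carrier] [IsScalarTower C A.carrier A.carrier]
  [SMulCommClass C A.carrier A.carrier]

theorem snd_sandwich (α β : U A) (y : A.carrier) :
    (α * inc A y * β).snd = (α.fst * β.fst) • y + β.fst • (α.snd * y) + α.fst • (y * β.snd) +
      α.snd * y * β.snd := by
  have h1 : (inc A y).fst = 0 := rfl
  have h2 : (inc A y).snd = y := rfl
  simp only [Unitization.snd_mul, Unitization.fst_mul, h1, h2, mul_zero, zero_smul, zero_add,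
    add_zero, add_mul, smul_add, smul_mul_assoc]
  rw [smul_smul, mul_comm β.fst α.fst]
  abel

theorem fst_sandwich (α β : U A) (y : A.carrier) : (α * inc A y * β).fst = 0 := by
  have h1 : (inc A y).fst = 0 := rfl
  simp only [Unitization.fst_mul, h1, mul_zero, zero_mul]

theorem snd_sandwich_smul (c : C) (α β : U A) (y : A.carrier) :
    (α * inc A (c • y) * β).snd = c • (α * inc A y * β).snd := by
  have h : ∀ (r : F) (y : A.carrier), r • c • y = c • r • y := fun r y => by
    rw [← algebraMap_smul C r y, ← algebraMap_smul C r (c • y), smul_smul, smul_smul, mul_comm]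
  simp only [snd_sandwich, smul_add, mul_smul_comm, smul_mul_assoc, h]

theorem snd_sandwich_add (α β : U A) (y y' : A.carrier) :
    (α * inc A (y + y') * β).snd = (α * inc A y * β).snd + (α * inc A y' * β).snd := by
  have : inc A (y + y') = inc A y + inc A y' := Unitization.inr_add F y y'
  rw [this, mul_add, add_mul]
  rfl

theorem evs_update_add {Z : Type} [DecidableEq Z] {p : FA F Z} (hp : p ∈ ML F Z)
    (v : Z → A.carrier) (z : Z) (y y' : A.carrier) :
    evs A (Function.update v z (y + y')) p =
      evs A (Function.update v z y) p + evs A (Function.update v z y') p := by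
  obtain ⟨n, α, β, h⟩ := ml_update A hp v z
  unfold evs
  have h2 : ∑ j, α j * inc A (y + y') * β j = (∑ j, α j * inc A y * β j) +
      ∑ j, α j * inc A y' * β j := by
    rw [← Finset.sum_add_distrib]
    refine Finset.sum_congr rfl fun j _ => ?_
    have : inc A (y + y') = inc A y + inc A y' := Unitization.inr_add F y y'
    rw [this, mul_add, add_mul]
  rw [h, h, h, h2]
  rfl

theorem snd_sum {ι : Type*} (s : Finset ι) (f : ι → U A) :
    (∑ j ∈ s, f j : U A).snd = ∑ j ∈ s, (f j).snd :=
  map_sum (Unitization.sndHom (S := F) (R := F) (A := A.carrier)) f s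

theorem evs_update_smul {Z : Type} [DecidableEq Z] {p : FA F Z} (hp : p ∈ ML F Z)
    (v : Z → A.carrier) (z : Z) (c : C) (y : A.carrier) :
    evs A (Function.update v z (c • y)) p = c • evs A (Function.update v z y) p := by
  obtain ⟨n, α, β, h⟩ := ml_update A hp v z
  unfold evs
  rw [h, h, snd_sum, snd_sum, Finset.smul_sum]
  refine Finset.sum_congr rfl fun j _ => snd_sandwich_smul c _ _ _

end multi

end Pool.Agent.KEM.SR
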