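import Pool.Agent.KEM.StarQuo

/-!
# The core of the row Star: the quotient of a subalgebra of `W` that has `R` as a quotient
-/

universe u

namespace Pool.Agent.KEM.SR

open Pool.Agent.Helper29

variable {F : Type u} [Field F]

/-- The ideal of the free algebra generated by the values of the polynomials in `P`. -/
noncomputable def JJ (P : ∀ Z : Type, Set (FA F Z)) (X : Type) : Submodule F (FA F X) :=
  Submodule.span F {r | ∃ (Z : Type) (f : FA F Z) (s : Z → FA F X) (a c : FA F X), f ∈ P Z ∧
    (∀ z, aug (s z) = 0) ∧ r = a * sbst s f * c}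

theorem JJ_mul_left {P : ∀ Z : Type, Set (FA F Z)} {X : Type} (a : FA F X) {r : FA F X}
    (hr : r ∈ JJ P X) : a * r ∈ JJ P X := by
  unfold JJ at hr
  induction hr using Submodule.span_induction with
  | mem r h =>
    obtain ⟨Z, f, s, b, c, hf, hs, rfl⟩ := h
    exact Submodule.subset_span ⟨Z, f, s, a * b, c, hf, hs, by simp only [mul_assoc]⟩
  | zero => rw [mul_zero]; exact Submodule.zero_mem _
  | add p q _ _ hp hq => rw [mul_add]; exact Submodule.add_mem _ hp hq
  | smul t p _ hp => rw [mul_smul_comm]; exact Submodule.smul_mem _ _ hp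

theorem JJ_mul_right {P : ∀ Z : Type, Set (FA F Z)} {X : Type} (a : FA F X) {r : FA F X}
    (hr : r ∈ JJ P X) : r * a ∈ JJ P X := by
  unfold JJ at hr
  induction hr using Submodule.span_induction with
  | mem r h =>
    obtain ⟨Z, f, s, b, c, hf, hs, rfl⟩ := h
    exact Submodule.subset_span ⟨Z, f, s, b, c * a, hf, hs, by simp only [mul_assoc]⟩
  | zero => rw [zero_mul]; exact Submodule.zero_mem _
  | add p q _ _ hp hq => rw [add_mul]; exact Submodule.add_mem _ hp hq
  | smul t p _ hp => rw [smul_mul_assoc]; exact Submodule.smul_mem _ _ hp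

theorem aug_sbst {Z X : Type} (s : Z → FA F X) (hs : ∀ z, aug (s z) = 0) (p : FA F Z) :
    aug (sbst s p) = aug p := by
  have : (aug (F := F)).comp (sbst s) = aug := by
    refine hom_ext fun z => ?_
    rw [AlgHom.comp_apply, aug_of, sbst_of, hs]
  rw [← this]
  rfl

theorem JJ_aug {P : ∀ Z : Type, Set (FA F Z)} {X : Type} {r : FA F X}
    (hP : ∀ Z, ∀ f ∈ P Z, aug f = 0) (hr : r ∈ JJ P X) : aug r = 0 := by
  unfold JJ at hr
  induction hr using Submodule.span_induction with
  | mem r h =>
    obtain ⟨Z, f, s, b, c, hf, hs, rfl⟩ := h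
    rw [map_mul, map_mul, aug_sbst s hs, hP Z f hf, mul_zero, zero_mul]
  | zero => exact map_zero _
  | add p q _ _ hp hq => rw [map_add, hp, hq, add_zero]
  | smul a p _ hp => rw [map_smul, hp, smul_zero]

theorem JJ_sat {P : ∀ Z : Type, Set (FA F Z)} {X : Type} {r : FA F X} {R : AssocAlg F}
    (hP : ∀ Z, ∀ f ∈ P Z, Sat R f) (hr : r ∈ JJ P X) (x : X → R.carrier) : ev R x r = 0 := by
  unfold JJ at hr
  induction hr using Submodule.span_induction with
  | mem r h =>
    obtain ⟨Z, f, s, b, c, hf, hs, rfl⟩ := h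
    rw [map_mul, map_mul, ev_sbst R s x (fun z => evs R x (s z)) (fun z => ev_eq R x (hs z)),
      hP Z f hf, mul_zero, zero_mul]
  | zero => exact map_zero _
  | add p q _ _ hp hq => rw [map_add, hp, hq, add_zero]
  | smul a p _ hp => rw [map_smul, hp, smul_zero]

theorem lmon_aug {Z : Type} {w : List Z} (h : w ≠ []) : aug (mon F (FreeMonoid.ofList w)) = 0 :=
  mon_aug (w := FreeMonoid.ofList w) h

/-- `evs` as a linear map. -/
noncomputable def evl (A : AssocAlg F) {Z : Type} (v : Z → A.carrier) : FA F Z →ₗ[F] A.carrier :=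
  (Unitization.sndHom F F A.carrier).comp (ev A v).toLinearMap

theorem evl_apply (A : AssocAlg F) {Z : Type} (v : Z → A.carrier) (p : FA F Z) :
    evl A v p = evs A v p := rfl

theorem evs_mul (A : AssocAlg F) {Z : Type} (v : Z → A.carrier) {p q : FA F Z} (hp : aug p = 0)
    (hq : aug q = 0) : evs A v (p * q) = evs A v p * evs A v q := by
  unfold evs
  rw [map_mul, Unitization.snd_mul, fst_ev, fst_ev, hp, hq, zero_smul, zero_smul, zero_add,
    zero_add]

theorem evs_list (A : AssocAlg F) {X : Type} (x : X → A.carrier) (l : List X) (hl : l ≠ []) :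
    evs A x (mon F (FreeMonoid.ofList l)) = wval x l := by
  unfold evs
  rw [ev_list A x l hl]
  rfl

variable {W : AssocAlg F} {C : Type u} [CommRing C] [Algebra F C] [Module C W.carrier]
  [IsScalarTower F C W.carrier] [IsScalarTower C W.carrier W.carrier]
  [SMulCommClass C W.carrier W.carrier]

variable (C) in
/-- The `C`-span of the words. -/
noncomputable def MW {X : Type} (ξ : X → W.carrier) : Submodule C W.carrier :=
  Submodule.span C {y | ∃ w : List X, w ≠ [] ∧ y = wval ξ w}

omit [IsScalarTower C W.carrier W.carrier] [SMulCommClass C W.carrier W.carrier] in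
theorem evs_mem_MW {X : Type} (ξ : X → W.carrier) (r : FA F X) : evs W ξ r ∈ MW C ξ := by
  have hr : r ∈ Submodule.span F (Set.range fun w : FreeMonoid X => mon F w) := by
    rw [mon_span]
    trivial
  induction hr using Submodule.span_induction with
  | mem r h =>
    obtain ⟨w, rfl⟩ := h
    change evs W ξ (mon F w) ∈ MW C ξ
    by_cases hw : FreeMonoid.toList w = []
    · have : w = 1 := hw
      rw [this, mon_one]
      unfold evs
      rw [map_one]
      exact Submodule.zero_mem _
    · rw [← FreeMonoid.ofList_toList w, evs_list W ξ _ hw]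
      exact Submodule.subset_span ⟨_, hw, rfl⟩
  | zero =>
    rw [← evl_apply, map_zero]
    exact Submodule.zero_mem _
  | add p q _ _ hp hq =>
    rw [← evl_apply, map_add]
    exact Submodule.add_mem _ hp hq
  | smul a p _ hp =>
    rw [← evl_apply, map_smul, ← algebraMap_smul C a]
    exact Submodule.smul_mem _ _ hp

theorem MW_mul {X : Type} (ξ : X → W.carrier) {a b : W.carrier} (ha : a ∈ MW C ξ)
    (hb : b ∈ MW C ξ) : a * b ∈ MW C ξ := by
  unfold MW at ha
  induction ha using Submodule.span_induction with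
  | mem a h =>
    obtain ⟨w, hw, rfl⟩ := h
    unfold MW at hb
    induction hb using Submodule.span_induction with
    | mem b h =>
      obtain ⟨w', hw', rfl⟩ := h
      rw [← wval_append ξ hw hw']
      exact Submodule.subset_span ⟨_, by simp [hw], rfl⟩
    | zero => rw [mul_zero]; exact Submodule.zero_mem _
    | add p q _ _ hp hq => rw [mul_add]; exact Submodule.add_mem _ hp hq
    | smul t p _ hp => rw [mul_smul_comm]; exact Submodule.smul_mem _ _ hp
  | zero => rw [zero_mul]; exact Submodule.zero_mem _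
  | add p q _ _ hp hq => rw [add_mul]; exact Submodule.add_mem _ hp hq
  | smul t p _ hp => rw [smul_mul_assoc]; exact Submodule.smul_mem _ _ hp

theorem evs_update_mem {Z : Type} [DecidableEq Z] {f : FA F Z} (hf : f ∈ ML F Z)
    {X : Type} {ξ : X → W.carrier} (I : Submodule C W.carrier)
    (G : Set W.carrier) (hG : ∀ w : List X, w ≠ [] → wval ξ w ∈ G)
    (h0 : ∀ v : Z → W.carrier, (∀ z, v z ∈ G) → evs W v f ∈ I) (K : Finset Z) :
    ∀ v : Z → W.carrier, (∀ z ∈ K, v z ∈ MW C ξ) → (∀ z, z ∉ K → v z ∈ G) → evs W v f ∈ I := by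
  induction K using Finset.induction_on with
  | empty =>
    intro v _ h
    exact h0 v fun z => h z (by simp)
  | insert z K hz ih =>
    intro v h1 h2
    have key : ∀ y ∈ MW C ξ, evs W (Function.update v z y) f ∈ I := by
      intro y hy
      unfold MW at hy
      induction hy using Submodule.span_induction with
      | mem y h =>
        obtain ⟨w, hw, rfl⟩ := h
        refine ih _ ?_ ?_
        · intro t ht
          have : t ≠ z := fun h => hz (by rw [← h]; exact ht)
          rw [Function.update_of_ne this]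
          exact h1 t (by simp [ht])
        · intro t ht
          by_cases htz : t = z
          · subst htz
            rw [Function.update_self]
            exact hG w hw
          · rw [Function.update_of_ne htz]
            exact h2 t (by simp [ht, htz])
      | zero =>
        have : evs W (Function.update v z ((0 : C) • (0 : W.carrier))) f =
            (0 : C) • evs W (Function.update v z (0 : W.carrier)) f :=
          evs_update_smul hf v z (0 : C) 0
        rw [zero_smul, zero_smul] at this
        rw [this]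
        exact Submodule.zero_mem _
      | add p q _ _ hp hq =>
        rw [evs_update_add hf]
        exact Submodule.add_mem _ hp hq
      | smul t p _ hp =>
        rw [evs_update_smul hf]
        exact Submodule.smul_mem _ _ hp
    have := key (v z) (h1 z (by simp))
    rwa [Function.update_eq_self] at this

theorem star_core {R : AssocAlg F} {X : Type} {x : X → R.carrier} (hx : Gen R x)
    (ξ : X → W.carrier) (hfull : ∀ r : FA F X, ev W ξ r = 0 → ev R x r = 0)
    (P : ∀ Z : Type, Set (FA F Z)) (hPML : ∀ Z, ∀ f ∈ P Z, f ∈ ML F Z)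
    (hPR : ∀ Z, ∀ f ∈ P Z, Sat R f)
    (hst : ∀ (c : C), ∀ r ∈ JJ P X, ∃ r' ∈ JJ P X, evs W ξ r' = c • evs W ξ r)
    (hfin : Module.Finite C (MW C ξ)) (hC : Algebra.FiniteType F C) :
    ∃ B : AssocAlg F, CFin B ∧ (∀ (Z : Type) (p : FA F Z), Sat W p → Sat B p) ∧ IdLe B R ∧
      ∀ (Z : Type) [Finite Z], ∀ f ∈ P Z, Sat B f := by
  have hPa : ∀ Z, ∀ f ∈ P Z, aug f = 0 := fun Z f hf => ML_aug (hPML Z f hf)
  let I : Submodule C W.carrier :=
    { (JJ P X).map (evl W ξ) with
      smul_mem' := by
        rintro c _ ⟨r, hr, rfl⟩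
        obtain ⟨r', hr', h⟩ := hst c r hr
        exact ⟨r', hr', h⟩ }
  have hI : ∀ y, y ∈ I ↔ ∃ r ∈ JJ P X, evs W ξ r = y := fun y => Iff.rfl
  have hl : ∀ a ∈ MW C ξ, ∀ b ∈ I, a * b ∈ I := by
    intro a ha b hb
    unfold MW at ha
    induction ha using Submodule.span_induction with
    | mem a h =>
      obtain ⟨w, hw, rfl⟩ := h
      obtain ⟨r, hr, rfl⟩ := (hI b).1 hb
      refine (hI _).2 ⟨mon F (FreeMonoid.ofList w) * r, JJ_mul_left _ hr, ?_⟩
      rw [evs_mul W ξ (lmon_aug hw) (JJ_aug hPa hr), evs_list W ξ w hw]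
    | zero => rw [zero_mul]; exact Submodule.zero_mem _
    | add p q _ _ hp hq => rw [add_mul]; exact Submodule.add_mem _ hp hq
    | smul t p _ hp => rw [smul_mul_assoc]; exact Submodule.smul_mem _ _ hp
  have hr : ∀ a ∈ MW C ξ, ∀ b ∈ I, b * a ∈ I := by
    intro a ha b hb
    unfold MW at ha
    induction ha using Submodule.span_induction with
    | mem a h =>
      obtain ⟨w, hw, rfl⟩ := h
      obtain ⟨r, hr, rfl⟩ := (hI b).1 hb
      refine (hI _).2 ⟨r * mon F (FreeMonoid.ofList w), JJ_mul_right _ hr, ?_⟩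
      rw [evs_mul W ξ (JJ_aug hPa hr) (lmon_aug hw), evs_list W ξ w hw]
    | zero => rw [mul_zero]; exact Submodule.zero_mem _
    | add p q _ _ hp hq => rw [mul_add]; exact Submodule.add_mem _ hp hq
    | smul t p _ hp => rw [mul_smul_comm]; exact Submodule.smul_mem _ _ hp
  obtain ⟨T, B, mB, ι, π, i1, i2, i3, hι, hιM, hπ, hker, hfinB⟩ :=
    exists_quo (MW C ξ) I (fun a ha b hb => MW_mul ξ ha hb) hl hr
  refine ⟨B, ⟨C, inferInstance, inferInstance, hC, mB, ⟨i1, i2, i3, hfinB hfin⟩⟩, ?_, ?_, ?_⟩
  · intro Z p hp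
    exact sat_of_surjective π hπ (sat_of_injective ι hι hp)
  · intro Z p hp hB v
    choose q hq hq' using fun z => gen_ev hx (v z)
    have hw : ∀ z, ∃ t, ι t = evs W ξ (q z) := fun z => (hιM _).1 (evs_mem_MW ξ (q z))
    choose t ht using hw
    have h1 : ev W ξ (sbst q p) = ev W (fun z => ι (t z)) p :=
      ev_sbst W q ξ (fun z => ι (t z)) (fun z => by rw [ev_eq W ξ (hq z), ht]) p
    have h2 : ι (evs T t p) ∈ I := by
      rw [← hker, ← evs_map]
      unfold evs
      rw [hB]
      rfl
    obtain ⟨r', hr', h3⟩ := (hI _).1 h2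
    have h4 : ev W ξ (sbst q p) = ev W ξ r' := by
      rw [ev_eq W ξ (JJ_aug hPa hr'), h3, h1, ev_eq W _ (ML_aug hp), evs_map]
    have h5 : ev R x (sbst q p - r') = 0 := hfull _ (by rw [map_sub, h4, sub_self])
    rw [map_sub, JJ_sat hPR hr' x, sub_zero] at h5
    rw [← ev_sbst R q x v hq' p, h5]
  · intro Z _ f hf v
    classical
    have := Fintype.ofFinite Z
    choose t ht using fun z => hπ (v z)
    have h0 : ∀ v : Z → W.carrier, (∀ z, v z ∈ {y | ∃ r : FA F X, aug r = 0 ∧ evs W ξ r = y}) →
        evs W v f ∈ I := by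
      intro v hv
      choose s hs hs' using hv
      refine (hI _).2 ⟨sbst s f, Submodule.subset_span ⟨Z, f, s, 1, 1, hf, hs, ?_⟩, ?_⟩
      · rw [one_mul, mul_one]
      · unfold evs
        rw [ev_sbst W s ξ v fun z => by rw [ev_eq W ξ (hs z), hs']]
    have h1 := evs_update_mem (hPML Z f hf) (ξ := ξ) I
      {y | ∃ r : FA F X, aug r = 0 ∧ evs W ξ r = y} (fun w hw =>
      ⟨mon F (FreeMonoid.ofList w), lmon_aug hw, evs_list W ξ w hw⟩) h0 Finset.univ
      (fun z => ι (t z)) (fun z _ => (hιM _).2 ⟨t z, rfl⟩) (fun z hz => absurd (Finset.mem_univ z) hz)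
    rw [evs_map, ← hker, ← evs_map] at h1
    rw [ev_eq_zero_iff]
    refine ⟨hPa Z f hf, ?_⟩
    have h2 : v = fun z => π (t z) := by
      funext z
      rw [ht]
    rw [h2]
    exact h1

end Pool.Agent.KEM.SR
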