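import Pool.Agent.KEM.StarBasic

/-!
# Quotients of subalgebras that are stable under scalars (used for the row Star)
-/

universe u

namespace Pool.Agent.KEM.SR

open Pool.Agent.Helper29

section quot

variable {C T : Type u} [CommRing C] [NonUnitalRing T] [Module C T] [IsScalarTower C T T]
  [SMulCommClass C T T]

/-- The quotient of a non-unital `C`-algebra by a `C`-stable ideal. -/
def QA (I : Submodule C T) (_ : ∀ a, ∀ b ∈ I, a * b ∈ I) (_ : ∀ a, ∀ b ∈ I, b * a ∈ I) : Type u :=
  T ⧸ I

variable {I : Submodule C T} {hl : ∀ a, ∀ b ∈ I, a * b ∈ I} {hr : ∀ a, ∀ b ∈ I, b * a ∈ I}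

instance : AddCommGroup (QA I hl hr) := inferInstanceAs (AddCommGroup (T ⧸ I))

/-- The projection. -/
def QA.mk (a : T) : QA I hl hr := (Submodule.Quotient.mk a : T ⧸ I)

theorem QA.mk_surj : Function.Surjective (QA.mk : T → QA I hl hr) :=
  Submodule.Quotient.mk_surjective I

theorem QA.mk_add (a b : T) : (QA.mk (a + b) : QA I hl hr) = QA.mk a + QA.mk b := rfl

theorem QA.mk_zero : (QA.mk 0 : QA I hl hr) = 0 := rfl

theorem QA.mk_eq_zero (a : T) : (QA.mk a : QA I hl hr) = 0 ↔ a ∈ I :=
  Submodule.Quotient.mk_eq_zero I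

theorem QA.mk_eq (a b : T) : (QA.mk a : QA I hl hr) = QA.mk b ↔ a - b ∈ I :=
  Submodule.Quotient.eq I

instance : Mul (QA I hl hr) where
  mul x y := Quotient.liftOn₂' x y (fun a b => QA.mk (a * b)) (by
    intro a b a' b' h h'
    have h1 : a - a' ∈ I := (Submodule.quotientRel_def I).1 h
    have h2 : b - b' ∈ I := (Submodule.quotientRel_def I).1 h'
    rw [QA.mk_eq]
    have : a * b - a' * b' = (a - a') * b + a' * (b - b') := by
      rw [sub_mul, mul_sub]
      abel
    rw [this]
    exact I.add_mem (hr _ _ h1) (hl _ _ h2))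

theorem QA.mk_mul (a b : T) : (QA.mk (a * b) : QA I hl hr) = QA.mk a * QA.mk b := rfl

instance : NonUnitalRing (QA I hl hr) :=
  { (inferInstance : AddCommGroup (QA I hl hr)) with
    mul := (· * ·)
    left_distrib := by
      intro x y z
      obtain ⟨a, rfl⟩ := QA.mk_surj x
      obtain ⟨b, rfl⟩ := QA.mk_surj y
      obtain ⟨c, rfl⟩ := QA.mk_surj z
      rw [← QA.mk_add, ← QA.mk_mul, mul_add]
      rfl
    right_distrib := by
      intro x y z
      obtain ⟨a, rfl⟩ := QA.mk_surj x
      obtain ⟨b, rfl⟩ := QA.mk_surj y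
      obtain ⟨c, rfl⟩ := QA.mk_surj z
      rw [← QA.mk_add, ← QA.mk_mul, add_mul]
      rfl
    zero_mul := by
      intro x
      obtain ⟨a, rfl⟩ := QA.mk_surj x
      rw [← QA.mk_zero, ← QA.mk_mul, zero_mul]
    mul_zero := by
      intro x
      obtain ⟨a, rfl⟩ := QA.mk_surj x
      rw [← QA.mk_zero, ← QA.mk_mul, mul_zero]
    mul_assoc := by
      intro x y z
      obtain ⟨a, rfl⟩ := QA.mk_surj x
      obtain ⟨b, rfl⟩ := QA.mk_surj y
      obtain ⟨c, rfl⟩ := QA.mk_surj z
      rw [← QA.mk_mul, ← QA.mk_mul, ← QA.mk_mul, ← QA.mk_mul, mul_assoc] }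

instance : Module C (QA I hl hr) := inferInstanceAs (Module C (T ⧸ I))

theorem QA.mk_smul (c : C) (a : T) : (QA.mk (c • a) : QA I hl hr) = c • QA.mk a := rfl

instance : IsScalarTower C (QA I hl hr) (QA I hl hr) := ⟨fun c x y => by
  obtain ⟨a, rfl⟩ := QA.mk_surj x
  obtain ⟨b, rfl⟩ := QA.mk_surj y
  rw [smul_eq_mul, smul_eq_mul, ← QA.mk_smul, ← QA.mk_mul, ← QA.mk_mul, ← QA.mk_smul,
    smul_mul_assoc]⟩

instance : SMulCommClass C (QA I hl hr) (QA I hl hr) := ⟨fun c x y => by
  obtain ⟨a, rfl⟩ := QA.mk_surj x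
  obtain ⟨b, rfl⟩ := QA.mk_surj y
  rw [smul_eq_mul, smul_eq_mul, ← QA.mk_smul, ← QA.mk_mul, ← QA.mk_mul, ← QA.mk_smul,
    mul_smul_comm]⟩

end quot

/-- Quotients of `C`-subalgebras by `C`-stable ideals, as algebras over `F`. -/
theorem exists_quo {F : Type u} [Field F] {A : AssocAlg F} {C : Type u} [CommRing C] [Algebra F C]
    [Module C A.carrier] [IsScalarTower F C A.carrier] [IsScalarTower C A.carrier A.carrier]
    [SMulCommClass C A.carrier A.carrier] (M I : Submodule C A.carrier)
    (hM : ∀ a ∈ M, ∀ b ∈ M, a * b ∈ M)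
    (hl : ∀ a ∈ M, ∀ b ∈ I, a * b ∈ I) (hr : ∀ a ∈ M, ∀ b ∈ I, b * a ∈ I) :
    ∃ (T B : AssocAlg F) (_ : Module C B.carrier) (ι : T.carrier →ₙₐ[F] A.carrier)
      (π : T.carrier →ₙₐ[F] B.carrier), IsScalarTower F C B.carrier ∧
        IsScalarTower C B.carrier B.carrier ∧ SMulCommClass C B.carrier B.carrier ∧
        Function.Injective ι ∧ (∀ a, a ∈ M ↔ ∃ t, ι t = a) ∧ Function.Surjective π ∧
        (∀ t, π t = 0 ↔ ι t ∈ I) ∧
        (Module.Finite C M → Module.Finite C B.carrier) := by
  let S : NonUnitalSubalgebra C A.carrier :=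
    { M with mul_mem' := fun {a b} ha hb => hM a ha b hb }
  letI i1 : Module F S := Module.compHom S (algebraMap F C)
  have i2 : IsScalarTower F C S := ⟨fun r c t => by
    change (r • c) • t = algebraMap F C r • c • t
    rw [smul_smul, Algebra.smul_def]⟩
  have hFS : ∀ (r : F) (t : S), ((r • t : S) : A.carrier) = r • (t : A.carrier) := by
    intro r t
    change algebraMap F C r • (t : A.carrier) = r • (t : A.carrier)
    rw [algebraMap_smul]
  let T : AssocAlg F :=
    { carrier := S
      ring := inferInstance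
      module := i1
      smul_mul := fun r a b => Subtype.ext (by
        change algebraMap F C r • (a : A.carrier) * (b : A.carrier) =
          algebraMap F C r • ((a : A.carrier) * (b : A.carrier))
        rw [smul_mul_assoc])
      mul_smul := fun r a b => Subtype.ext (by
        change (a : A.carrier) * algebraMap F C r • (b : A.carrier) =
          algebraMap F C r • ((a : A.carrier) * (b : A.carrier))
        rw [mul_smul_comm]) }
  let J : Submodule C S :=
    { carrier := {t | (t : A.carrier) ∈ I}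
      add_mem' := fun {a b} ha hb => I.add_mem ha hb
      zero_mem' := I.zero_mem
      smul_mem' := fun c {a} ha => I.smul_mem c ha }
  have hJl : ∀ a, ∀ b ∈ J, a * b ∈ J := fun a b hb => hl a.1 a.2 b.1 hb
  have hJr : ∀ a, ∀ b ∈ J, b * a ∈ J := fun a b hb => hr a.1 a.2 b.1 hb
  letI j1 : Module F (QA J hJl hJr) := Module.compHom (QA J hJl hJr) (algebraMap F C)
  let B : AssocAlg F :=
    { carrier := QA J hJl hJr
      ring := inferInstance
      module := j1
      smul_mul := fun r a b => smul_mul_assoc (algebraMap F C r) a b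
      mul_smul := fun r a b => mul_smul_comm (algebraMap F C r) a b }
  let ι : T.carrier →ₙₐ[F] A.carrier :=
    { toFun := fun t => (t : S).1
      map_add' := fun a b => rfl
      map_zero' := rfl
      map_smul' := fun r t => hFS r t
      map_mul' := fun a b => rfl }
  let π : T.carrier →ₙₐ[F] B.carrier :=
    { toFun := fun t => (QA.mk t : QA J hJl hJr)
      map_add' := fun a b => rfl
      map_zero' := rfl
      map_smul' := fun r t => rfl
      map_mul' := fun a b => rfl }
  refine ⟨T, B, (inferInstance : Module C (QA J hJl hJr)), ι, π, ?_, ?_, ?_, ?_, ?_, ?_, ?_, ?_⟩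
  · exact ⟨fun r c t => by
      change (r • c) • t = algebraMap F C r • c • t
      rw [smul_smul, Algebra.smul_def]⟩
  · exact (inferInstance : IsScalarTower C (QA J hJl hJr) (QA J hJl hJr))
  · exact (inferInstance : SMulCommClass C (QA J hJl hJr) (QA J hJl hJr))
  · exact Subtype.val_injective
  · intro a
    constructor
    · intro ha
      exact ⟨⟨a, ha⟩, rfl⟩
    · rintro ⟨t, rfl⟩
      exact t.2
  · exact QA.mk_surj (hl := hJl) (hr := hJr)
  · intro t
    exact QA.mk_eq_zero (hl := hJl) (hr := hJr) t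
  · intro h
    have h' : Module.Finite C S := h
    exact Module.Finite.of_surjective (Submodule.mkQ J) (Submodule.mkQ_surjective J)

end Pool.Agent.KEM.SR
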