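import Pool.Agent.KEM.Defs

/-!
# Generalized multilinear functions

Functions in `GM` are multilinear, closed under multiplying a variable by an element, and vanish if
they are alternating of a type all whose polynomials are identities.
-/

universe u

namespace Pool.Agent.KEM

open Pool.Agent.Helper29

variable {F : Type u} [Field F]

namespace VG

section words

variable {A : AssocAlg F}

theorem ev_mon {Z : Type} (v : Z → A.carrier) (w : FreeMonoid Z) :
    ev A v (mon F w) = ((FreeMonoid.toList w).map fun z => inc A (v z)).prod := by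
  rw [ev, mon, MonoidAlgebra.lift_single, one_smul, FreeMonoid.lift_apply]

theorem mf_apply {X Y : Type} (x : X → A.carrier) (w : FreeMonoid (X ⊕ Y)) (v : Y → A.carrier) :
    mf A x w v = ((FreeMonoid.toList w).map fun s => inc A (Sum.elim x v s)).prod := ev_mon _ _

theorem inc_add (a b : A.carrier) : inc A (a + b) = inc A a + inc A b :=
  Unitization.inr_add F a b

theorem inc_smul (r : F) (a : A.carrier) : inc A (r • a) = r • inc A a :=
  Unitization.inr_smul F r a

theorem inc_mul (a b : A.carrier) : inc A (a * b) = inc A a * inc A b :=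
  Unitization.inr_mul F a b

theorem inc_zero : inc A 0 = 0 := Unitization.inr_zero F

theorem inc_injective : Function.Injective (inc A) := Unitization.inr_injective

end words

section count

theorem count_filterMap {X Y : Type} [DecidableEq Y] [DecidableEq (X ⊕ Y)] (y : Y) : ∀ l : List (X ⊕ Y),
    (l.filterMap (fun s => Sum.elim (fun _ => none) some s)).count y = l.count (Sum.inr y)
  | [] => by simp
  | Sum.inl x :: l => by
    rw [List.filterMap_cons, List.count_cons_of_ne (by simp)]
    exact count_filterMap y l
  | Sum.inr z :: l => by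
    rw [List.filterMap_cons]
    simp only [Sum.elim_inr, List.count_cons, count_filterMap y l]
    congr 1
    simp [Sum.inr.injEq]

theorem yml_iff {X Y : Type} [DecidableEq (X ⊕ Y)] (w : FreeMonoid (X ⊕ Y)) :
    Yml w ↔ ∀ y, (FreeMonoid.toList w).count (Sum.inr y) = 1 := by
  have : DecidableEq Y := Classical.decEq Y
  constructor
  · rintro ⟨h1, h2⟩ y
    have h3 := List.nodup_iff_count_le_one.1 h2 y
    rw [count_filterMap] at h3
    have h4 := List.one_le_count_iff.2 (h1 y)
    omega
  · intro h
    refine ⟨fun y => List.one_le_count_iff.1 (h y).ge, ?_⟩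
    rw [List.nodup_iff_count_le_one]
    intro y
    rw [count_filterMap, h y]

theorem mlw_iff {Z : Type} [DecidableEq Z] (w : FreeMonoid Z) :
    MLW w ↔ FreeMonoid.toList w ≠ [] ∧ ∀ z, (FreeMonoid.toList w).count z = 1 := by
  constructor
  · rintro ⟨h0, h2, h1⟩
    refine ⟨h0, fun y => ?_⟩
    have h3 := List.nodup_iff_count_le_one.1 h2 y
    have h4 := List.one_le_count_iff.2 (h1 y)
    omega
  · rintro ⟨h0, h⟩
    refine ⟨h0, ?_, fun y => List.one_le_count_iff.1 (h y).ge⟩
    rw [List.nodup_iff_count_le_one]
    intro y
    rw [h y]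

theorem yml_split {X Y : Type} {w : FreeMonoid (X ⊕ Y)} (h : Yml w) (y : Y) :
    ∃ l l' : List (X ⊕ Y), FreeMonoid.toList w = l ++ Sum.inr y :: l' ∧ Sum.inr y ∉ l ∧
      Sum.inr y ∉ l' := by
  have : DecidableEq (X ⊕ Y) := Classical.decEq _
  have h1 := (yml_iff w).1 h y
  obtain ⟨l, l', hl⟩ := List.append_of_mem (h.1 y)
  refine ⟨l, l', hl, ?_, ?_⟩
  · intro hm
    have := List.one_le_count_iff.2 hm
    rw [hl, List.count_append, List.count_cons_self] at h1
    omega
  · intro hm
    have := List.one_le_count_iff.2 hm
    rw [hl, List.count_append, List.count_cons_self] at h1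
    omega

end count

section gm

variable {A : AssocAlg F} {X Y : Type} {x : X → A.carrier}

theorem map_update_of_notMem [DecidableEq Y] (x : X → A.carrier) (v : Y → A.carrier) (y : Y)
    (a : A.carrier) (l : List (X ⊕ Y)) (h : Sum.inr y ∉ l) :
    l.map (fun s => inc A (Sum.elim x (Function.update v y a) s)) =
      l.map (fun s => inc A (Sum.elim x v s)) := by
  refine List.map_congr_left fun s hs => ?_
  cases s with
  | inl _ => rfl
  | inr z =>
    have : z ≠ y := by rintro rfl; exact h hs
    simp [Function.update_of_ne this]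

theorem mf_update [DecidableEq Y] {w : FreeMonoid (X ⊕ Y)} (h : Yml w) (x : X → A.carrier)
    (v : Y → A.carrier) (y : Y) : ∃ P Q : U A, ∀ a : A.carrier,
      mf A x w (Function.update v y a) = P * inc A a * Q := by
  obtain ⟨l, l', hl, h1, h2⟩ := yml_split h y
  refine ⟨(l.map fun s => inc A (Sum.elim x v s)).prod,
    (l'.map fun s => inc A (Sum.elim x v s)).prod, fun a => ?_⟩
  rw [mf_apply, hl, List.map_append, List.map_cons, List.prod_append, List.prod_cons,
    map_update_of_notMem x v y a l h1, map_update_of_notMem x v y a l' h2]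
  simp [mul_assoc]

/-- The functions in `GM` are multilinear. -/
theorem gm_multilinear {m : (Y → A.carrier) → U A} (hm : m ∈ GM A x Y) :
    ∃ M : MultilinearMap F (fun _ : Y => A.carrier) (U A), ∀ v, M v = m v := by
  refine Submodule.span_induction (p := fun m _ =>
    ∃ M : MultilinearMap F (fun _ : Y => A.carrier) (U A), ∀ v, M v = m v) ?_ ?_ ?_ ?_ hm
  · rintro _ ⟨w, hw, rfl⟩
    refine ⟨⟨mf A x w, ?_, ?_⟩, fun v => rfl⟩
    · intro inst v y a b
      obtain ⟨P, Q, h⟩ := mf_update (A := A) hw x v y
      rw [h, h, h, inc_add]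
      noncomm_ring
    · intro inst v y r a
      obtain ⟨P, Q, h⟩ := mf_update (A := A) hw x v y
      rw [h, h, inc_smul]
      simp
  · exact ⟨0, fun v => rfl⟩
  · rintro m m' _ _ ⟨M, hM⟩ ⟨M', hM'⟩
    exact ⟨M + M', fun v => by rw [add_apply, hM, hM']; rfl⟩
  · rintro r m _ ⟨M, hM⟩
    exact ⟨r • M, fun v => by rw [smul_apply, hM]; rfl⟩

theorem gm_perm (π : Equiv.Perm Y) {m : (Y → A.carrier) → U A} (hm : m ∈ GM A x Y) :
    (fun v => m (fun y => v (π y))) ∈ GM A x Y := by
  refine Submodule.span_induction (p := fun m _ => (fun v => m (fun y => v (π y))) ∈ GM A x Y)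
    ?_ ?_ ?_ ?_ hm
  · rintro _ ⟨w, hw, rfl⟩
    refine Submodule.subset_span ⟨FreeMonoid.map (Sum.map id π) w, ?_, ?_⟩
    · have : DecidableEq (X ⊕ Y) := Classical.decEq _
      rw [yml_iff] at hw ⊢
      intro y
      have h1 : (Sum.inr y : X ⊕ Y) = Sum.map id π (Sum.inr (π.symm y)) := by simp
      rw [FreeMonoid.toList_map, h1, List.count_map_of_injective _ _
        (Function.injective_id.sumMap π.injective)]
      exact hw _
    · funext v
      rw [mf_apply, mf_apply, FreeMonoid.toList_map, List.map_map]
      congr 1
      refine List.map_congr_left fun s _ => ?_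
      cases s <;> rfl
  · exact Submodule.zero_mem _
  · intro m m' _ _ h h'
    exact Submodule.add_mem _ h h'
  · intro r m _ h
    exact Submodule.smul_mem _ r h

theorem gm_lmul [DecidableEq Y] (hx : Gen A x) (y₀ : Y) (a : A.carrier)
    {m : (Y → A.carrier) → U A} (hm : m ∈ GM A x Y) :
    (fun v => m (Function.update v y₀ (a * v y₀))) ∈ GM A x Y := by
  have ha : a ∈ NonUnitalAlgebra.adjoin F (Set.range x) := by
    rw [hx]; trivial
  induction ha using NonUnitalAlgebra.adjoin_induction generalizing m with
  | mem a ha =>
    obtain ⟨j, rfl⟩ := ha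
    refine Submodule.span_induction (p := fun m _ =>
      (fun v => m (Function.update v y₀ (x j * v y₀))) ∈ GM A x Y) ?_ ?_ ?_ ?_ hm
    · rintro _ ⟨w, hw, rfl⟩
      obtain ⟨l, l', hl, h1, h2⟩ := yml_split hw y₀
      refine Submodule.subset_span
        ⟨FreeMonoid.ofList (l ++ Sum.inl j :: Sum.inr y₀ :: l'), ?_, ?_⟩
      · have : DecidableEq (X ⊕ Y) := Classical.decEq _
        rw [yml_iff] at hw ⊢
        intro y
        have := hw y
        rw [hl] at this
        rw [FreeMonoid.toList_ofList, List.count_append, List.count_cons_of_ne (by simp),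
          ← List.count_append]
        exact this
      · funext v
        rw [mf_apply, mf_apply, hl, FreeMonoid.toList_ofList, List.map_append, List.map_cons,
          List.map_append, List.map_cons, List.map_cons, map_update_of_notMem x v y₀ _ l h1,
          map_update_of_notMem x v y₀ _ l' h2]
        simp [inc_mul, mul_assoc]
    · exact Submodule.zero_mem _
    · intro m m' _ _ h h'
      exact Submodule.add_mem _ h h'
    · intro r m _ h
      exact Submodule.smul_mem _ r h
  | add a b _ _ iha ihb =>
    obtain ⟨M, hM⟩ := gm_multilinear hm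
    have : (fun v => m (Function.update v y₀ ((a + b) * v y₀))) =
        (fun v => m (Function.update v y₀ (a * v y₀))) +
          (fun v => m (Function.update v y₀ (b * v y₀))) := by
      funext v
      rw [Pi.add_apply, ← hM, ← hM, ← hM, add_mul, MultilinearMap.map_update_add]
    rw [this]
    exact Submodule.add_mem _ (iha hm) (ihb hm)
  | zero =>
    obtain ⟨M, hM⟩ := gm_multilinear hm
    have : (fun v => m (Function.update v y₀ (0 * v y₀))) = 0 := by
      funext v
      rw [zero_mul, Pi.zero_apply, ← hM]
      exact M.map_coord_zero y₀ (by simp)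
    rw [this]
    exact Submodule.zero_mem _
  | mul a b _ _ iha ihb =>
    have := ihb (iha hm)
    refine cast ?_ this
    congr 1
    funext v
    congr 1
    simp [mul_assoc]
  | smul r a _ iha =>
    obtain ⟨M, hM⟩ := gm_multilinear hm
    have : (fun v => m (Function.update v y₀ ((r • a) * v y₀))) =
        r • (fun v => m (Function.update v y₀ (a * v y₀))) := by
      funext v
      rw [Pi.smul_apply, ← hM, ← hM, smul_mul_assoc, MultilinearMap.map_update_smul]
    rw [this]
    exact Submodule.smul_mem _ r (iha hm)

end gm

section ren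

variable {A : AssocAlg F}

theorem ren_mon {Z Z' : Type} (f : Z → Z') (w : FreeMonoid Z) :
    ren f (mon F w) = mon F (FreeMonoid.map f w) := by
  simp [ren, mon]

theorem fa_induction {Z : Type} {P : FA F Z → Prop} (hmon : ∀ w, P (mon F w))
    (hadd : ∀ p q, P p → P q → P (p + q)) (hsmul : ∀ (r : F) (p), P p → P (r • p))
    (p : FA F Z) : P p := by
  refine MonoidAlgebra.induction_on (motive := P) p (fun w => ?_) hadd (fun r p => hsmul r p)
  exact hmon w

theorem ev_ren {Z Z' : Type} (f : Z → Z') (v : Z' → A.carrier) (p : FA F Z) :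
    ev A v (ren f p) = ev A (fun z => v (f z)) p := by
  refine fa_induction (P := fun p => ev A v (ren f p) = ev A (fun z => v (f z)) p)
    (fun w => ?_) (fun p q hp hq => ?_) (fun r p hp => ?_) p
  · rw [ren_mon, ev_mon, ev_mon, FreeMonoid.toList_map, List.map_map]
    rfl
  · rw [map_add, map_add, map_add, hp, hq]
  · rw [map_smul, map_smul, map_smul, hp]

theorem ren_ren {Z Z' Z'' : Type} (f : Z → Z') (g : Z' → Z'') (p : FA F Z) :
    ren g (ren f p) = ren (fun z => g (f z)) p := by
  refine fa_induction (P := fun p => ren g (ren f p) = ren (fun z => g (f z)) p)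
    (fun w => ?_) (fun p q hp hq => ?_) (fun r p hp => ?_) p
  · rw [ren_mon, ren_mon, ren_mon]
    congr 1
    apply FreeMonoid.toList.injective
    simp
  · rw [map_add, map_add, map_add, hp, hq]
  · rw [map_smul, map_smul, map_smul, hp]

theorem ren_ml {Z Z' : Type} (f : Z ≃ Z') {p : FA F Z} (hp : p ∈ ML F Z) :
    ren f p ∈ ML F Z' := by
  refine Submodule.span_induction (p := fun p _ => ren f p ∈ ML F Z') ?_ ?_ ?_ ?_ hp
  · rintro _ ⟨w, ⟨h1, h2, h3⟩, rfl⟩
    refine Submodule.subset_span ⟨FreeMonoid.map f w, ⟨?_, ?_, fun z => ?_⟩, ren_mon _ _⟩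
    · rw [FreeMonoid.toList_map]
      simpa using h1
    · rw [FreeMonoid.toList_map]
      exact h2.map f.injective
    · rw [FreeMonoid.toList_map]
      exact List.mem_map.2 ⟨f.symm z, h3 _, by simp⟩
  · rw [map_zero]; exact Submodule.zero_mem _
  · intro p q _ _ hp hq
    rw [map_add]; exact Submodule.add_mem _ hp hq
  · intro r p _ hp
    rw [map_smul]; exact Submodule.smul_mem _ r hp

end ren

theorem abstract_word {X Y : Type} [DecidableEq (X ⊕ Y)] : ∀ l : List (X ⊕ Y),
    ∃ (k : ℕ) (l' : List (Y ⊕ Fin k)) (f : Fin k → X),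
      l = l'.map (Sum.elim Sum.inr (fun i => Sum.inl (f i))) ∧
      ∀ (_ : DecidableEq (Y ⊕ Fin k)), (∀ j, l'.count (Sum.inr j) = 1) ∧
        ∀ y, l'.count (Sum.inl y) = l.count (Sum.inr y)
  | [] => ⟨0, [], Fin.elim0, rfl, fun _ => ⟨fun j => j.elim0, fun y => rfl⟩⟩
  | Sum.inl x :: l => by
    obtain ⟨k, l', f, hl, h⟩ := abstract_word l
    have hinj : Function.Injective (Sum.map id Fin.succ : Y ⊕ Fin k → Y ⊕ Fin (k + 1)) :=
      Function.injective_id.sumMap (Fin.succ_injective k)
    refine ⟨k + 1, Sum.inr 0 :: l'.map (Sum.map id Fin.succ), Fin.cons x f, ?_, fun inst => ?_⟩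
    · rw [List.map_cons, List.map_map, hl]
      congr 1
      refine List.map_congr_left fun s _ => ?_
      cases s <;> rfl
    · have : DecidableEq (Y ⊕ Fin k) := Classical.decEq _
      obtain ⟨h1, h2⟩ := h this
      constructor
      · intro j
        induction j using Fin.cases with
        | zero =>
          rw [List.count_cons_self, List.count_eq_zero.2]
          intro hm
          obtain ⟨s, _, hs⟩ := List.mem_map.1 hm
          cases s with
          | inl y => simp at hs
          | inr j => simp at hs
        | succ j =>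
          rw [List.count_cons_of_ne (by simp [(Fin.succ_ne_zero j).symm])]
          have e : (Sum.inr j.succ : Y ⊕ Fin (k + 1)) = Sum.map id Fin.succ (Sum.inr j) := rfl
          rw [e, List.count_map_of_injective _ _ hinj, h1]
      · intro y
        rw [List.count_cons_of_ne (by simp), List.count_cons_of_ne (by simp)]
        have e : (Sum.inl y : Y ⊕ Fin (k + 1)) = Sum.map id Fin.succ (Sum.inl y) := rfl
        rw [e, List.count_map_of_injective _ _ hinj, h2]
  | Sum.inr y :: l => by
    obtain ⟨k, l', f, hl, h⟩ := abstract_word l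
    refine ⟨k, Sum.inl y :: l', f, ?_, fun inst => ?_⟩
    · rw [List.map_cons, hl]
      rfl
    · obtain ⟨h1, h2⟩ := h inst
      constructor
      · intro j
        rw [List.count_cons_of_ne (by simp), h1]
      · intro z
        rw [List.count_cons, List.count_cons, h2]
        congr 1
        by_cases hz : y = z
        · subst hz; simp
        · simp [hz]

end VG

open VG

theorem vangm [CharZero F] {A : AssocAlg F} {X : Type} (x : X → A.carrier) {n b g : ℕ}
    (hv : Van A n b g) {Y : Type} [Fintype Y] [DecidableEq Y] [Nonempty Y]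
    (c : Y → Option (Fin n ⊕ Fin g)) (hc : Sizes n b g c)
    (m : (Y → A.carrier) → U A) (hm : m ∈ GM A x Y) (ha : AltF c m) : m = 0 := by
  classical
  have key : ∀ m ∈ GM A x Y, ∀ v : Y → A.carrier,
      ∑ π : colG c, (Equiv.Perm.sign (π : Equiv.Perm Y) : ℤ) • m (fun y => v (π.1 y)) = 0 := by
    intro m hm
    refine Submodule.span_induction (p := fun m _ => ∀ v : Y → A.carrier,
      ∑ π : colG c, (Equiv.Perm.sign (π : Equiv.Perm Y) : ℤ) • m (fun y => v (π.1 y)) = 0)
      ?_ ?_ ?_ ?_ hm
    · rintro _ ⟨w, hw, rfl⟩ v
      have i1 : DecidableEq (X ⊕ Y) := Classical.decEq _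
      obtain ⟨k, l', f, hl, h⟩ := abstract_word (FreeMonoid.toList w)
      obtain ⟨h1, h2⟩ := h inferInstance
      have hml : MLW (FreeMonoid.ofList l') := by
        rw [mlw_iff]
        refine ⟨?_, ?_⟩
        · rw [FreeMonoid.toList_ofList]
          rintro rfl
          obtain ⟨y⟩ := (inferInstance : Nonempty Y)
          have h3 := (yml_iff w).1 hw y
          rw [hl] at h3
          simp at h3
        · intro z
          rw [FreeMonoid.toList_ofList]
          cases z with
          | inl y => rw [h2]; exact (yml_iff w).1 hw y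
          | inr j => exact h1 j
      let ex : Equiv.Perm Y → Equiv.Perm (Y ⊕ Fin k) := fun π => Equiv.sumCongr π (Equiv.refl _)
      let p₀ : FA F (Y ⊕ Fin k) := mon F (FreeMonoid.ofList l')
      let p : FA F (Y ⊕ Fin k) :=
        ∑ π : colG c, (Equiv.Perm.sign (π : Equiv.Perm Y) : ℤ) • ren (ex π.1) p₀
      have hp : p ∈ ML F (Y ⊕ Fin k) := by
        refine Submodule.sum_mem _ fun π _ => ?_
        refine zsmul_mem (ren_ml (ex π.1) (Submodule.subset_span ⟨_, hml, rfl⟩)) _
      let c' : Y ⊕ Fin k → Option (Fin n ⊕ Fin g) := Sum.elim c (fun _ => none)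
      have hsz : Sizes n b g c' := by
        have e : ∀ q : Fin n ⊕ Fin g, Nat.card {z // c' z = some q} =
            Nat.card {z // c z = some q} := by
          intro q
          refine Nat.card_congr ⟨fun z => ⟨Sum.elim id (fun _ => Classical.arbitrary Y) z.1, ?_⟩,
            fun z => ⟨Sum.inl z.1, z.2⟩, ?_, ?_⟩
          · obtain ⟨z, hz⟩ := z
            cases z with
            | inl y => exact hz
            | inr j => exact absurd hz (by simp [c'])
          · rintro ⟨z, hz⟩
            cases z with
            | inl y => rfl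
            | inr j => exact absurd hz (by simp [c'])
          · rintro ⟨z, hz⟩
            rfl
        exact ⟨fun i => (e _).trans (hc.small i), fun j => (e _).trans (hc.big j)⟩
      have htyp : Typed p n b g c' := by
        refine ⟨hsz, fun ρ hρ => ?_⟩
        -- `ρ` comes from a permutation of `Y`
        obtain ⟨ρ', hρ', rfl⟩ : ∃ ρ' ∈ colG c, ex ρ' = ρ := by
          have hfix : ∀ j, ρ (Sum.inr j) = Sum.inr j := fun j => hρ.2 _ rfl
          have hinl : ∀ y, ∃ y', ρ (Sum.inl y) = Sum.inl y' := by
            intro y
            rcases hy : ρ (Sum.inl y) with y' | j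
            · exact ⟨y', rfl⟩
            · have := ρ.injective (hy.trans (hfix j).symm)
              simp at this
          have hinl' : ∀ y, ∃ y', ρ.symm (Sum.inl y) = Sum.inl y' := by
            intro y
            rcases hy : ρ.symm (Sum.inl y) with y' | j
            · exact ⟨y', rfl⟩
            · have h3 := congrArg ρ hy
              rw [Equiv.apply_symm_apply, hfix] at h3
              simp at h3
          choose r hr using hinl
          choose r' hr' using hinl'
          have e1 : ∀ y, r' (r y) = y := fun y => by
            have h3 := hr' (r y)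
            rw [← hr, Equiv.symm_apply_apply] at h3
            exact (Sum.inl_injective h3).symm
          have e2 : ∀ y, r (r' y) = y := fun y => by
            have h3 := hr (r' y)
            rw [← hr', Equiv.apply_symm_apply] at h3
            exact (Sum.inl_injective h3).symm
          refine ⟨⟨r, r', e1, e2⟩, ⟨fun y => ?_, fun y hy => ?_⟩, ?_⟩
          · have := hρ.1 (Sum.inl y)
            rw [hr] at this
            exact this
          · have := hρ.2 (Sum.inl y) hy
            rw [hr] at this
            exact Sum.inl_injective this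
          · ext z
            cases z with
            | inl y => exact (hr y).symm
            | inr j => exact (hfix j).symm
        have hsign : Equiv.Perm.sign (ex ρ') = Equiv.Perm.sign ρ' :=
          (Equiv.Perm.sign_sumCongr ρ' 1).trans (by simp)
        rw [hsign, map_sum, Finset.smul_sum]
        refine Fintype.sum_equiv (Equiv.mulLeft (⟨ρ', hρ'⟩ : colG c)) _ _ fun π => ?_
        have hcomp : (fun z => ex ρ' (ex π.1 z)) =
            ⇑(ex (Equiv.mulLeft (⟨ρ', hρ'⟩ : colG c) π).1) := by
          funext z
          cases z <;> rfl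
        rw [map_zsmul, ren_ren, smul_smul, hcomp]
        congr 1
        simp only [Equiv.coe_mulLeft, Subgroup.coe_mul, Equiv.Perm.sign_mul, Units.val_mul,
          ← mul_assoc]
        rw [← Units.val_mul, Int.units_mul_self]
        simp
      have hsat := hv (Y ⊕ Fin k) p c' hp htyp (Sum.elim v (fun j => x (f j)))
      rw [map_sum] at hsat
      rw [← hsat]
      refine Finset.sum_congr rfl fun π _ => ?_
      rw [map_zsmul, ev_ren]
      congr 1
      rw [ev_mon, FreeMonoid.toList_ofList, mf_apply, hl, List.map_map]
      congr 1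
      refine List.map_congr_left fun s _ => ?_
      cases s <;> rfl
    · intro v
      simp
    · intro m m' _ _ h h' v
      simp only [Pi.add_apply, smul_add, Finset.sum_add_distrib, h v, h' v, add_zero]
    · intro r m _ h v
      simp only [Pi.smul_apply]
      have : ∀ π : colG c, (Equiv.Perm.sign (π : Equiv.Perm Y) : ℤ) •
          (r • m (fun y => v (π.1 y))) =
          r • ((Equiv.Perm.sign (π : Equiv.Perm Y) : ℤ) • m (fun y => v (π.1 y))) :=
        fun π => smul_comm _ _ _
      simp only [this, ← Finset.smul_sum, h v, smul_zero]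
  funext v
  have h1 := key m hm v
  have h2 : ∀ π : colG c, (Equiv.Perm.sign (π : Equiv.Perm Y) : ℤ) • m (fun y => v (π.1 y)) =
      m v := by
    intro π
    rw [ha π.1 π.2 v, smul_smul, ← Units.val_mul, Int.units_mul_self]
    simp
  simp only [h2, Finset.sum_const, Finset.card_univ] at h1
  rw [← Nat.cast_smul_eq_nsmul F] at h1
  rcases smul_eq_zero.1 h1 with h3 | h3
  · exact absurd h3 (Nat.cast_ne_zero.2 (Fintype.card_ne_zero))
  · exact h3

/-- Closure of `GM` under multiplication of a variable by an element. -/
theorem gm_hit {A : AssocAlg F} {X : Type} (x : X → A.carrier) (hx : Gen A x) {n b g : ℕ}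
    (i : Fin n) (a : A.carrier) (T : Finset (Fin b)) (m : (YT n b g → A.carrier) → U A)
    (hm : m ∈ GM A x (YT n b g)) : (fun v => m (hit i a T v)) ∈ GM A x (YT n b g) := by
  induction T using Finset.induction_on generalizing m with
  | empty =>
    refine cast ?_ hm
    congr 1
    funext v
    congr 1
    funext y
    cases y <;> simp [hit]
  | insert t T ht ih =>
    have h1 := VG.gm_lmul hx (Sum.inl (i, t)) a (ih m hm)
    refine cast ?_ h1
    congr 1
    funext v
    congr 1
    funext y
    cases y with
    | inl q =>
      obtain ⟨i', t'⟩ := q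
      by_cases hi : i' = i
      · subst hi
        by_cases htt : t' = t
        · subst htt
          simp [hit, ht]
        · have : (Sum.inl (i', t') : YT n b g) ≠ Sum.inl (i', t) := by
            simpa using htt
          simp [hit, htt]
      · have : (Sum.inl (i', t') : YT n b g) ≠ Sum.inl (i, t) := by
          simp [hi]
        simp [hit, hi]
    | inr q => simp [hit, Function.update_of_ne]

end Pool.Agent.KEM
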