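import Pool.Agent.KEM.Zub1

/-!
# Zubrilin's identities II

The operator `δ_1(a)` does not depend on the small set; the operators `δ_k(a)` preserve the
alternating functions; operators for different sets commute; Newton's identities.
-/

universe u

namespace Pool.Agent.KEM

open Pool.Agent.Helper29

variable {F : Type u} [Field F]

namespace Zub

theorem exists_avoid2 {n₁ n : ℕ} (hn : n₁ + 2 ≤ n) {i i' : Fin n} (hi : i ≠ i') :
    ∃ e : Fin n₁ → Fin n, Function.Injective e ∧ (∀ k, e k ≠ i) ∧ ∀ k, e k ≠ i' := by
  obtain ⟨n, rfl⟩ := Nat.exists_eq_add_of_le' (by omega : 1 ≤ n)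
  obtain ⟨i'', rfl⟩ := Fin.exists_succAbove_eq hi.symm
  obtain ⟨e, he, hei⟩ := exists_avoid (by omega : n₁ + 1 ≤ n) i''
  refine ⟨fun k => i.succAbove (e k), fun k k' h => he (Fin.succAbove_right_injective h),
    fun k => Fin.succAbove_ne i _, fun k h => hei k (Fin.succAbove_right_injective h)⟩

/-- The injection used for `Z2`. -/
def inj2 {n₁ n b g : ℕ} (e : Fin n₁ → Fin n) (i : Fin n) (s : Fin b) (i' : Fin n) :
    YT n₁ b (g + 1) → YT n b g
  | Sum.inl q => Sum.inl (e q.1, q.2)
  | Sum.inr q => Fin.lastCases (motive := fun _ => YT n b g)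
      (Fin.lastCases (motive := fun _ => YT n b g) (Sum.inl (i, s))
        (fun t => Sum.inl (i', t)) q.2)
      (fun j => Sum.inr (j, q.2)) q.1

section

variable {n₁ n b g : ℕ} (e : Fin n₁ → Fin n) (i : Fin n) (s : Fin b) (i' : Fin n)

theorem inj2_last :
    inj2 (g := g) e i s i' (Sum.inr (Fin.last g, Fin.last b)) = Sum.inl (i, s) := by
  simp [inj2]

theorem inj2_last_cast (t : Fin b) :
    inj2 (g := g) e i s i' (Sum.inr (Fin.last g, t.castSucc)) = Sum.inl (i', t) := by
  simp [inj2]

theorem inj2_cast (j : Fin g) (t : Fin (b + 1)) :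
    inj2 e i s i' (Sum.inr (j.castSucc, t)) = Sum.inr (j, t) := by
  simp [inj2]

theorem inj2_injective (he : Function.Injective e) (hei : ∀ k, e k ≠ i) (hei' : ∀ k, e k ≠ i')
    (hi : i ≠ i') : Function.Injective (inj2 (b := b) (g := g) e i s i') := by
  intro y y' h
  rcases y with ⟨k, t⟩ | ⟨j, t⟩
  · rcases y' with ⟨k', t'⟩ | ⟨j', t'⟩
    · have : e k = e k' ∧ t = t' := by simpa [inj2] using h
      rw [he this.1, this.2]
    · induction j' using Fin.lastCases with
      | last =>
        induction t' using Fin.lastCases with
        | last =>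
          rw [inj2_last] at h
          have : e k = i ∧ t = s := by simpa [inj2] using h
          exact absurd this.1 (hei k)
        | cast t' =>
          rw [inj2_last_cast] at h
          have : e k = i' ∧ t = t' := by simpa [inj2] using h
          exact absurd this.1 (hei' k)
      | cast j' => rw [inj2_cast] at h; simp [inj2] at h
  · induction j using Fin.lastCases with
    | last =>
      induction t using Fin.lastCases with
      | last =>
        rw [inj2_last] at h
        rcases y' with ⟨k', t'⟩ | ⟨j', t'⟩
        · have : i = e k' ∧ s = t' := by simpa [inj2] using h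
          exact absurd this.1.symm (hei k')
        · induction j' using Fin.lastCases with
          | last =>
            induction t' using Fin.lastCases with
            | last => rfl
            | cast t' =>
              rw [inj2_last_cast] at h
              have : i = i' ∧ s = t' := by simpa using h
              exact absurd this.1 hi
          | cast j' => rw [inj2_cast] at h; simp at h
      | cast t =>
        rw [inj2_last_cast] at h
        rcases y' with ⟨k', t'⟩ | ⟨j', t'⟩
        · have : i' = e k' ∧ t = t' := by simpa [inj2] using h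
          exact absurd this.1.symm (hei' k')
        · induction j' using Fin.lastCases with
          | last =>
            induction t' using Fin.lastCases with
            | last =>
              rw [inj2_last] at h
              have : i' = i ∧ t = s := by simpa using h
              exact absurd this.1.symm hi
            | cast t' =>
              rw [inj2_last_cast] at h
              have : t = t' := by simpa using h
              rw [this]
          | cast j' => rw [inj2_cast] at h; simp at h
    | cast j =>
      rw [inj2_cast] at h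
      rcases y' with ⟨k', t'⟩ | ⟨j', t'⟩
      · simp [inj2] at h
      · induction j' using Fin.lastCases with
        | last =>
          induction t' using Fin.lastCases with
          | last => rw [inj2_last] at h; simp at h
          | cast t' => rw [inj2_last_cast] at h; simp at h
        | cast j' =>
          rw [inj2_cast] at h
          have : j = j' ∧ t = t' := by simpa using h
          rw [this.1, this.2]

end

theorem colG_inj2 {n₁ n b g : ℕ} {e : Fin n₁ → Fin n} {i : Fin n} {s : Fin b} {i' : Fin n}
    (he : Function.Injective e) (hei : ∀ k, e k ≠ i) (hei' : ∀ k, e k ≠ i') (hi : i ≠ i')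
    {π : Equiv.Perm (YT n b g)}
    (hπ : π ∈ colG (col (inj2 e i s i'))) (h0 : π (Sum.inl (i, s)) = Sum.inl (i, s)) :
    π ∈ colG (yc : YT n b g → _) := by
  refine mem_colG_of (y₀ := Sum.inl (i, s)) ?_ ?_ hπ h0
  · intro z z' hzz hz hz0 hz0'
    have hf := inj2_injective (b := b) (g := g) e i s i' he hei hei' hi
    obtain ⟨q, hq⟩ := Option.ne_none_iff_exists'.1 hz
    obtain ⟨w, rfl, hw⟩ := exists_of_col hf hq
    obtain ⟨w', rfl, hw'⟩ := exists_of_col hf (hzz ▸ hq)
    have hww : yc w = yc w' := hw.trans hw'.symm
    rcases w with ⟨k, t⟩ | ⟨j, t⟩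
    · rcases w' with ⟨k', t'⟩ | ⟨j', t'⟩
      · have : k = k' := by simpa [yc] using hww
        subst this
        rfl
      · simp [yc] at hww
    · rcases w' with ⟨k', t'⟩ | ⟨j', t'⟩
      · simp [yc] at hww
      · have : j = j' := by simpa [yc] using hww
        subst this
        induction j using Fin.lastCases with
        | last =>
          induction t using Fin.lastCases with
          | last => exact absurd (inj2_last e i s i') hz0
          | cast t =>
            induction t' using Fin.lastCases with
            | last => exact absurd (inj2_last e i s i') hz0'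
            | cast t' => rw [inj2_last_cast, inj2_last_cast]; rfl
        | cast j => rw [inj2_cast, inj2_cast]; rfl
  · intro z _ hz'
    exfalso
    rcases z with q | q <;> simp [yc] at hz'

theorem exchange2 [CharZero F] {A : AssocAlg F} {X : Type} (x : X → A.carrier)
    {n b g n₁ : ℕ} (hv : Van A n₁ b (g + 1)) (hn : n₁ + 2 ≤ n) {i i' : Fin n} (hi : i ≠ i')
    (s : Fin b) {h : (YT n b g → A.carrier) → U A} (hh : h ∈ GM A x (YT n b g))
    (halt : ∀ π ∈ colG (yc : YT n b g → _), π (Sum.inl (i, s)) = Sum.inl (i, s) →
      ∀ v : YT n b g → A.carrier, h (fun y => v (π y)) = (Equiv.Perm.sign π : ℤ) • h v)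
    (v : YT n b g → A.carrier) :
    h v = ∑ t : Fin b, h (fun y => v (Equiv.swap (Sum.inl (i, s)) (Sum.inl (i', t)) y)) := by
  obtain ⟨e, he, hei, hei'⟩ := exists_avoid2 hn hi
  have h1 := exchange x hv hh (f := inj2 e i s i') (inj2_injective e i s i' he hei hei' hi) (by
    rw [inj2_last]
    intro π hπ h0 v
    exact halt π (colG_inj2 he hei hei' hi hπ h0) h0 v) v
  rw [h1]
  refine Finset.sum_congr rfl fun t _ => ?_
  rw [inj2_last, inj2_last_cast]

theorem hit_singleton {A : AssocAlg F} {n b g : ℕ} (i : Fin n) (a : A.carrier) (t : Fin b)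
    (v : YT n b g → A.carrier) :
    hit i a {t} v = Function.update v (Sum.inl (i, t)) (a * v (Sum.inl (i, t))) := by
  funext y
  rcases y with ⟨i', t'⟩ | q
  · by_cases h : i' = i ∧ t' = t
    · obtain ⟨rfl, rfl⟩ := h
      simp [hit]
    · have hne : (Sum.inl (i', t') : YT n b g) ≠ Sum.inl (i, t) := by
        intro h'
        apply h
        simpa using h'
      rw [Function.update_of_ne hne]
      simp [hit, h]
  · simp [hit]

theorem delta_one {A : AssocAlg F} {n b g : ℕ} (i : Fin n) (a : A.carrier)
    (m : (YT n b g → A.carrier) → U A) (v : YT n b g → A.carrier) :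
    delta i 1 a m v =
      ∑ t : Fin b, m (Function.update v (Sum.inl (i, t)) (a * v (Sum.inl (i, t)))) := by
  rw [delta, Finset.powersetCard_one, Finset.sum_map]
  refine Finset.sum_congr rfl fun t _ => ?_
  rw [← hit_singleton]
  rfl

end Zub

open Zub

theorem zub2 [CharZero F] {A : AssocAlg F} {X : Type} (x : X → A.carrier) (hx : Gen A x)
    {n b g n1 : ℕ} (hv : Van A n1 b (g + 1)) (hn : n1 + 2 ≤ n)
    (m : (YT n b g → A.carrier) → U A) (hm : m ∈ MM A x n b g)
    (i i' : Fin n) (a : A.carrier) : delta i 1 a m = delta i' 1 a m := by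
  by_cases hi : i = i'
  · rw [hi]
  funext v
  rw [delta_one, delta_one]
  have e1 : ∀ s : Fin b, m (Function.update v (Sum.inl (i, s)) (a * v (Sum.inl (i, s)))) =
      ∑ t : Fin b, m (Function.update
        (fun y => v (Equiv.swap (Sum.inl (i, s)) (Sum.inl (i', t)) y)) (Sum.inl (i, s))
        (a * v (Sum.inl (i', t)))) := by
    intro s
    have h1 := exchange2 x hv hn hi s (VG.gm_lmul hx (Sum.inl (i, s)) a hm.1) (by
      intro π hπ h0 v
      rw [← hm.2 π hπ]
      congr 1
      funext y
      by_cases hy : y = Sum.inl (i, s)
      · subst hy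
        rw [h0]
        simp [h0]
      · have hy' : π y ≠ Sum.inl (i, s) := fun h => hy (π.injective (h.trans h0.symm))
        rw [Function.update_of_ne hy, Function.update_of_ne hy']) v
    rw [h1]
    refine Finset.sum_congr rfl fun t _ => ?_
    simp only [Equiv.swap_apply_left]
  have e2 : ∀ t : Fin b, m (Function.update v (Sum.inl (i', t)) (a * v (Sum.inl (i', t)))) =
      ∑ s : Fin b, m (Function.update
        (fun y => v (Equiv.swap (Sum.inl (i, s)) (Sum.inl (i', t)) y)) (Sum.inl (i, s))
        (a * v (Sum.inl (i', t)))) := by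
    intro t
    have h1 := exchange2 x hv hn (Ne.symm hi) t hm.1 (fun π hπ _ v => hm.2 π hπ v)
      (Function.update v (Sum.inl (i', t)) (a * v (Sum.inl (i', t))))
    rw [h1]
    refine Finset.sum_congr rfl fun s _ => ?_
    congr 1
    have hne : (Sum.inl (i, s) : YT n b g) ≠ Sum.inl (i', t) := by
      intro h
      have : i = i' ∧ s = t := by simpa using h
      exact hi this.1
    funext y
    rw [Equiv.swap_comm]
    by_cases hy : y = Sum.inl (i, s)
    · subst hy
      rw [Equiv.swap_apply_left]
      simp
    · rw [Function.update_of_ne hy]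
      by_cases hy' : y = Sum.inl (i', t)
      · subst hy'
        rw [Equiv.swap_apply_right, Function.update_of_ne hne]
      · rw [Equiv.swap_apply_of_ne_of_ne hy hy', Function.update_of_ne hy']
  rw [Finset.sum_congr rfl fun s _ => e1 s, Finset.sum_congr rfl fun t _ => e2 t,
    Finset.sum_comm]

/-- The operators `delta` preserve the space of alternating functions. -/
theorem delta_mem {A : AssocAlg F} {X : Type} (x : X → A.carrier) (hx : Gen A x) {n b g : ℕ}
    (i : Fin n) (k : ℕ) (a : A.carrier) (m : (YT n b g → A.carrier) → U A)
    (hm : m ∈ MM A x n b g) : delta i k a m ∈ MM A x n b g := by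
  refine ⟨?_, ?_⟩
  · have : delta i k a m = ∑ T ∈ Finset.powersetCard k (Finset.univ : Finset (Fin b)),
        (fun v => m (hit i a T v)) := by
      funext v
      simp [delta]
    rw [this]
    exact Submodule.sum_mem _ fun T _ => gm_hit x hx i a T m hm.1
  · intro π hπ v
    have hl : ∀ (j : Fin n) (t : Fin b), ∃ t', π (Sum.inl (j, t)) = Sum.inl (j, t') := by
      intro j t
      have h1 := hπ.1 (Sum.inl (j, t))
      rcases h2 : π (Sum.inl (j, t)) with ⟨j', t'⟩ | ⟨j', t'⟩
      · rw [h2] at h1
        have : j' = j := by simpa [yc] using h1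
        subst this
        exact ⟨t', rfl⟩
      · rw [h2] at h1
        simp [yc] at h1
    have hr : ∀ q, ∃ q', π (Sum.inr q) = Sum.inr q' := by
      intro q
      have h1 := hπ.1 (Sum.inr q)
      rcases h2 : π (Sum.inr q) with q' | q'
      · rw [h2] at h1
        simp [yc] at h1
      · exact ⟨q', rfl⟩
    choose r hr' using hl i
    have hrinj : Function.Injective r := fun t t' h => by
      have := π.injective ((hr' t).trans ((by rw [h] : _ = _).trans (hr' t').symm))
      simpa using this
    let ρ : Fin b ≃ Fin b := Equiv.ofBijective r (Finite.injective_iff_bijective.1 hrinj)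
    have hhit : ∀ T : Finset (Fin b), hit i a T (fun y => v (π y)) =
        fun y => hit i a (T.map ρ.toEmbedding) v (π y) := by
      intro T
      funext y
      rcases y with ⟨j, t⟩ | q
      · by_cases hj : j = i
        · subst hj
          have h1 : π (Sum.inl (j, t)) = Sum.inl (j, ρ t) := hr' t
          rw [h1]
          have h2 : ρ t ∈ T.map ρ.toEmbedding ↔ t ∈ T := by
            rw [Finset.mem_map_equiv, Equiv.symm_apply_apply]
          simp only [hit, true_and, h2, h1]
        · obtain ⟨t', ht'⟩ := hl j t
          simp only [hit, hj, false_and, if_false, ht']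
      · obtain ⟨q', hq'⟩ := hr q
        simp only [hit, hq']
    rw [delta, delta, Finset.smul_sum]
    refine Finset.sum_equiv (Equiv.finsetCongr ρ) (fun T => ?_) (fun T _ => ?_)
    · simp [Finset.mem_powersetCard]
    · rw [hhit, hm.2 π hπ]
      rfl

theorem Zub.hit_comm {A : AssocAlg F} {n b g : ℕ} {i i' : Fin n} (hi : i ≠ i') (a a' : A.carrier)
    (T T' : Finset (Fin b)) (v : YT n b g → A.carrier) :
    hit i a T (hit i' a' T' v) = hit i' a' T' (hit i a T v) := by
  funext y
  rcases y with ⟨j, t⟩ | q
  · by_cases hj : j = i
    · subst hj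
      simp [hit, hi]
    · simp [hit, hj]
  · rfl

/-- Operators for different sets commute. -/
theorem delta_comm {A : AssocAlg F} {n b g : ℕ} (i i' : Fin n) (hi : i ≠ i') (k k' : ℕ)
    (a a' : A.carrier) (m : (YT n b g → A.carrier) → U A) :
    delta i k a (delta i' k' a' m) = delta i' k' a' (delta i k a m) := by
  funext v
  simp only [delta]
  rw [Finset.sum_comm]
  refine Finset.sum_congr rfl fun T' _ => Finset.sum_congr rfl fun T _ => ?_
  rw [Zub.hit_comm hi]

end Pool.Agent.KEM
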